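import Pool.Agent.Lib_MP_af4de1_Ray.Limit

/-!
# Tubes around the zeros of `F(·; e^(iα))` and the continuation lemma

`Dist α r`: at most one zero of `F(·; e^(iα))` on `|z| = r`, and it is simple.
`IsTube a δ c lam η' η`: for `|s| ≤ δ` the function `h ↦ F(c e^(lam s + h); e^(i(a+s)))` has exactly one zero in
`‖h‖ ≤ η`; it is simple and lies in `‖h‖ ≤ η' < η`.
-/

set_option autoImplicit false

namespace SokalFU

open Filter Topology Set SokalF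

/-- `e^(iα)` -/
noncomputable def qa (α : ℝ) : ℂ := Complex.exp ((α : ℂ) * Complex.I)

theorem norm_qa (α : ℝ) : ‖qa α‖ = 1 := Complex.norm_exp_ofReal_mul_I α

/-- at most one zero on `|z| = r`, simple -/
def Dist (α r : ℝ) : Prop := ∀ z : ℂ, ‖z‖ = r → F (qa α) z = 0 →
  deriv (F (qa α)) z ≠ 0 ∧ ∀ w : ℂ, ‖w‖ = r → F (qa α) w = 0 → w = z

/-- the point `c e^(lam s + h)` -/
noncomputable def tp (c lam : ℂ) (s : ℝ) (h : ℂ) : ℂ := c * Complex.exp (lam * s + h)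

/-- A tube: the output of the evaluator (T1). -/
structure IsTube (a δ : ℝ) (c lam : ℂ) (η' η : ℝ) : Prop where
  c_ne : c ≠ 0
  lt : η' < η
  ex : ∀ s : ℝ, |s| ≤ δ → ∃ h : ℂ, ‖h‖ ≤ η' ∧ F (qa (a + s)) (tp c lam s h) = 0
  simple : ∀ s : ℝ, |s| ≤ δ → ∀ h : ℂ, ‖h‖ ≤ η → F (qa (a + s)) (tp c lam s h) = 0 →
    deriv (F (qa (a + s))) (tp c lam s h) ≠ 0
  uniq : ∀ s : ℝ, |s| ≤ δ → ∀ h h' : ℂ, ‖h‖ ≤ η → ‖h'‖ ≤ η → F (qa (a + s)) (tp c lam s h) = 0 →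
    F (qa (a + s)) (tp c lam s h') = 0 → h = h'

/-- A box: `K` tubes over `|α - a| ≤ δ`, ordered by modulus, the last one outside `|z| < R0`. -/
structure IsBox (R0 a δ : ℝ) (K : ℕ) (c lam : ℕ → ℂ) (η' η : ℕ → ℝ) : Prop where
  pos : 0 < K
  tube : ∀ k < K, IsTube a δ (c k) (lam k) (η' k) (η k)
  ord : ∀ k, k + 1 < K → ∀ s : ℝ, |s| ≤ δ →
    ‖c k‖ * Real.exp ((lam k).re * s + η' k) < ‖c (k + 1)‖ * Real.exp ((lam (k + 1)).re * s - η' (k + 1))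
  top : ∀ s : ℝ, |s| ≤ δ → R0 ≤ ‖c (K - 1)‖ * Real.exp ((lam (K - 1)).re * s - η' (K - 1))

/-! ### Continuity -/

theorem continuous_qa : Continuous qa := by
  unfold qa
  fun_prop

/-- joint continuity of `F(z; e^(iα))` -/
theorem continuous_Fqa : Continuous (fun p : ℝ × ℂ => F (qa p.1) p.2) := by
  have hf : Continuous (fun p : ℝ × ℂ => (qa p.1, p.2)) :=
    (continuous_qa.comp continuous_fst).prodMk continuous_snd
  exact continuousOn_F.comp_continuous hf (fun p => (norm_qa p.1).le)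

theorem tendsto_zero {αn : ℕ → ℝ} {α : ℝ} (hα : Tendsto αn atTop (𝓝 α)) {wn : ℕ → ℂ} {w : ℂ}
    (hw : Tendsto wn atTop (𝓝 w)) (h0 : ∀ n, F (qa (αn n)) (wn n) = 0) : F (qa α) w = 0 := by
  have h2 : Tendsto (fun n => (αn n, wn n)) atTop (𝓝 (α, w)) := hα.prodMk_nhds hw
  have h1 := (continuous_Fqa.tendsto (α, w)).comp h2
  have h3 : ((fun p : ℝ × ℂ => F (qa p.1) p.2) ∘ fun n => (αn n, wn n)) = fun _ => (0 : ℂ) := funext h0
  rw [h3] at h1
  exact (tendsto_nhds_unique h1 tendsto_const_nhds)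

end SokalFU
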