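import Pool.Agent.Lib_MP_af4de1_fu.M0

/-!
# Elementary bounds for `exp` [FU-M8]
-/

set_option autoImplicit false

namespace SokalFU

open Complex MeasureTheory Set

theorem norm_exp_sub_exp_le (a b : ℂ) :
    ‖cexp a - cexp b‖ ≤ ‖a - b‖ * Real.exp (max a.re b.re) := by
  have hconv : Convex ℝ {c : ℂ | c.re ≤ max a.re b.re} := convex_halfSpace_re_le _
  have h := hconv.norm_image_sub_le_of_norm_hasDerivWithin_le (f := cexp) (f' := cexp)
    (C := Real.exp (max a.re b.re)) (x := b) (y := a)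
    (fun x _ => (Complex.hasDerivAt_exp x).hasDerivWithinAt)
    (fun x hx => by
      rw [Complex.norm_exp]
      exact Real.exp_le_exp.mpr hx)
    (show b.re ≤ max a.re b.re from le_max_right _ _)
    (show a.re ≤ max a.re b.re from le_max_left _ _)
  rw [mul_comm] at h
  exact h

/-- integration of a bound on `[0, 1]` -/
private theorem melem_step {f f' : ℝ → ℂ} (hf : ∀ t, HasDerivAt f (f' t) t) (h0 : f 0 = 0)
    {B B' : ℝ → ℝ} (hB : ∀ t, HasDerivAt B (B' t) t) (hB0 : 0 ≤ B 0)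
    (hb : ∀ t, 0 ≤ t → t ≤ 1 → ‖f' t‖ ≤ B' t) (t : ℝ) (ht : 0 ≤ t) (ht1 : t ≤ 1) :
    ‖f t‖ ≤ B t := by
  have h := image_norm_le_of_norm_deriv_right_le_deriv_boundary (f := f) (f' := f')
    (a := 0) (b := 1) (fun x _ => (hf x).continuousAt.continuousWithinAt)
    (fun x _ => (hf x).hasDerivWithinAt) (B := B) (B' := B')
    (by rw [h0, norm_zero]; exact hB0) hB (fun x hx => hb x hx.1 hx.2.le)
  exact h ⟨ht, ht1⟩

private theorem melem_e0 {v : ℂ} {M : ℝ} (hM : Real.exp (max v.re 0) ≤ M) (t : ℝ) (ht : 0 ≤ t)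
    (ht1 : t ≤ 1) : ‖cexp (t * v) - 1‖ ≤ t * ‖v‖ * M := by
  have h := norm_exp_sub_exp_le (t * v) 0
  rw [Complex.exp_zero, sub_zero, norm_mul, Complex.norm_real, Real.norm_of_nonneg ht] at h
  refine h.trans (mul_le_mul_of_nonneg_left (le_trans (Real.exp_le_exp.mpr ?_) hM)
    (by positivity))
  rw [re_ofReal_mul, zero_re]
  refine max_le ?_ (le_max_right _ _)
  rcases le_total 0 v.re with h1 | h1
  · exact le_trans (mul_le_of_le_one_left h1 ht1) (le_max_left _ _)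
  · exact le_trans (mul_nonpos_of_nonneg_of_nonpos ht h1) (le_max_right _ _)

private theorem melem_d0 (v : ℂ) (t : ℝ) :
    HasDerivAt (fun t : ℝ => cexp (t * v)) (v * cexp (t * v)) t := by
  have h1 : HasDerivAt (fun t : ℝ => (t : ℂ) * v) (1 * v) t :=
    (Complex.ofRealCLM.hasDerivAt (x := t)).mul_const v
  have h2 := h1.cexp
  rwa [one_mul, mul_comm] at h2

private theorem melem_d1 (v : ℂ) (t : ℝ) :
    HasDerivAt (fun t : ℝ => (t : ℂ) * v) v t := by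
  have h1 : HasDerivAt (fun t : ℝ => (t : ℂ) * v) (1 * v) t :=
    (Complex.ofRealCLM.hasDerivAt (x := t)).mul_const v
  rwa [one_mul] at h1

private theorem melem_e1 {v : ℂ} {M : ℝ} (hM : Real.exp (max v.re 0) ≤ M) (t : ℝ) (ht : 0 ≤ t)
    (ht1 : t ≤ 1) : ‖cexp (t * v) - 1 - t * v‖ ≤ t ^ 2 * (‖v‖ ^ 2 * M / 2) := by
  refine melem_step (f := fun t : ℝ => cexp (t * v) - 1 - t * v)
    (f' := fun t : ℝ => v * cexp (t * v) - v)
    (fun t => ((melem_d0 v t).sub_const 1).sub (melem_d1 v t)) ?_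
    (B := fun t => t ^ 2 * (‖v‖ ^ 2 * M / 2)) (B' := fun t => (2 * t) * (‖v‖ ^ 2 * M / 2))
    (fun t => ?_) ?_ ?_ t ht ht1
  · simp
  · have h := (hasDerivAt_pow 2 t).mul_const (‖v‖ ^ 2 * M / 2)
    simpa using h
  · simp
  · intro s hs hs1
    have h := melem_e0 hM s hs hs1
    have e : v * cexp (s * v) - v = v * (cexp (s * v) - 1) := by ring
    show ‖v * cexp (s * v) - v‖ ≤ (2 * s) * (‖v‖ ^ 2 * M / 2)
    rw [e, norm_mul]
    calc ‖v‖ * ‖cexp (s * v) - 1‖ ≤ ‖v‖ * (s * ‖v‖ * M) :=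
          mul_le_mul_of_nonneg_left h (norm_nonneg v)
      _ = (2 * s) * (‖v‖ ^ 2 * M / 2) := by ring

private theorem melem_e2 {v : ℂ} {M : ℝ} (hM : Real.exp (max v.re 0) ≤ M) (t : ℝ) (ht : 0 ≤ t)
    (ht1 : t ≤ 1) :
    ‖cexp (t * v) - 1 - t * v - (t * v) ^ 2 / 2‖ ≤ t ^ 3 * (‖v‖ ^ 3 * M / 6) := by
  refine melem_step (f := fun t : ℝ => cexp (t * v) - 1 - t * v - (t * v) ^ 2 / 2)
    (f' := fun t : ℝ => v * cexp (t * v) - v - v * (t * v))
    (fun t => ?_) ?_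
    (B := fun t => t ^ 3 * (‖v‖ ^ 3 * M / 6)) (B' := fun t => (3 * t ^ 2) * (‖v‖ ^ 3 * M / 6))
    (fun t => ?_) ?_ ?_ t ht ht1
  · have h := (((melem_d1 v t).pow 2).div_const 2)
    have h2 := (((melem_d0 v t).sub_const 1).sub (melem_d1 v t)).sub h
    have e : v * (t * v) = (((2 : ℕ) : ℂ) * ((t : ℂ) * v) ^ (2 - 1) * v) / 2 := by
      push_cast
      ring
    rw [e]
    exact h2
  · simp
  · have h := (hasDerivAt_pow 3 t).mul_const (‖v‖ ^ 3 * M / 6)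
    simpa using h
  · simp
  · intro s hs hs1
    have h := melem_e1 hM s hs hs1
    have e : v * cexp (s * v) - v - v * (s * v) = v * (cexp (s * v) - 1 - s * v) := by ring
    show ‖v * cexp (s * v) - v - v * (s * v)‖ ≤ (3 * s ^ 2) * (‖v‖ ^ 3 * M / 6)
    rw [e, norm_mul]
    calc ‖v‖ * ‖cexp (s * v) - 1 - s * v‖ ≤ ‖v‖ * (s ^ 2 * (‖v‖ ^ 2 * M / 2)) :=
          mul_le_mul_of_nonneg_left h (norm_nonneg v)
      _ = (3 * s ^ 2) * (‖v‖ ^ 3 * M / 6) := by ring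

/-- monotonicity of the remainder of the exponential series divided by the power -/
private theorem melem_ball (k : ℕ) {x r : ℝ} (hx : 0 ≤ x) (hxr : x ≤ r) :
    (Real.exp x - ∑ i ∈ Finset.range k, x ^ i / i.factorial) * r ^ k ≤
      (Real.exp r - ∑ i ∈ Finset.range k, r ^ i / i.factorial) * x ^ k := by
  have hr : 0 ≤ r := hx.trans hxr
  have h1 : ∀ y : ℝ, HasSum (fun n : ℕ => y ^ (n + k) / (n + k).factorial)
      (Real.exp y - ∑ i ∈ Finset.range k, y ^ i / i.factorial) := by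
    intro y
    have h := NormedSpace.expSeries_div_hasSum_exp (y : ℝ)
    rw [← Real.exp_eq_exp_ℝ] at h
    exact (hasSum_nat_add_iff' k).mpr h
  refine hasSum_le (fun n => ?_) ((h1 x).mul_right (r ^ k)) ((h1 r).mul_right (x ^ k))
  have h2 : x ^ n ≤ r ^ n := pow_le_pow_left₀ hx hxr n
  have h3 : x ^ (n + k) / ((n + k).factorial : ℝ) * r ^ k =
      x ^ n * (x ^ k * r ^ k / (n + k).factorial) := by
    rw [pow_add]
    ring
  have h4 : r ^ (n + k) / ((n + k).factorial : ℝ) * x ^ k =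
      r ^ n * (x ^ k * r ^ k / (n + k).factorial) := by
    rw [pow_add]
    ring
  rw [h3, h4]
  exact mul_le_mul_of_nonneg_right h2 (by positivity)

theorem taylor2_left {v : ℂ} (hv : v.re ≤ 0) : ‖cexp v - 1 - v‖ ≤ ‖v‖ ^ 2 / 2 := by
  have hM : Real.exp (max v.re 0) ≤ 1 := by
    rw [max_eq_right hv, Real.exp_zero]
  have h := melem_e1 hM 1 zero_le_one le_rfl
  simpa using h

theorem taylor3_left {v : ℂ} (hv : v.re ≤ 0) : ‖cexp v - 1 - v - v ^ 2 / 2‖ ≤ ‖v‖ ^ 3 / 6 := by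
  have hM : Real.exp (max v.re 0) ≤ 1 := by
    rw [max_eq_right hv, Real.exp_zero]
  have h := melem_e2 hM 1 zero_le_one le_rfl
  simpa using h

theorem taylor2_right {v : ℂ} (hv : 0 ≤ v.re) : ‖cexp v - 1 - v‖ ≤ ‖v‖ ^ 2 / 2 * Real.exp v.re := by
  have hM : Real.exp (max v.re 0) ≤ Real.exp v.re := by
    rw [max_eq_left hv]
  have h := melem_e1 hM 1 zero_le_one le_rfl
  have e : ‖v‖ ^ 2 / 2 * Real.exp v.re = (1 : ℝ) ^ 2 * (‖v‖ ^ 2 * Real.exp v.re / 2) := by ring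
  rw [e]
  simpa using h

/-- `(e^x - 1 - x)/x²` is increasing (power series). -/
theorem taylor2_ball {v : ℂ} {r K : ℝ} (hr : 0 < r) (hv : ‖v‖ ≤ r)
    (hK : Real.exp r - 1 - r ≤ K * r ^ 2 / 2) : ‖cexp v - 1 - v‖ ≤ K * ‖v‖ ^ 2 / 2 := by
  have h1 := Complex.norm_exp_sub_sum_le_exp_norm_sub_sum v 2
  have h2 := melem_ball 2 (norm_nonneg v) hv
  have e1 : ∀ y : ℝ, ∑ i ∈ Finset.range 2, y ^ i / (i.factorial : ℝ) = 1 + y := by
    intro y
    simp [Finset.sum_range_succ]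
  have e2 : ∑ i ∈ Finset.range 2, v ^ i / (i.factorial : ℂ) = 1 + v := by
    simp [Finset.sum_range_succ]
  rw [e1, e2] at h1
  rw [e1, e1] at h2
  have e3 : cexp v - (1 + v) = cexp v - 1 - v := by ring
  rw [e3] at h1
  have hr2 : 0 < r ^ 2 := by positivity
  have h3 : ‖cexp v - 1 - v‖ * r ^ 2 ≤ (K * ‖v‖ ^ 2 / 2) * r ^ 2 := by
    calc ‖cexp v - 1 - v‖ * r ^ 2 ≤ (Real.exp ‖v‖ - (1 + ‖v‖)) * r ^ 2 :=
          mul_le_mul_of_nonneg_right h1 hr2.le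
      _ ≤ (Real.exp r - (1 + r)) * ‖v‖ ^ 2 := h2
      _ ≤ (K * r ^ 2 / 2) * ‖v‖ ^ 2 :=
          mul_le_mul_of_nonneg_right (by linarith) (by positivity)
      _ = (K * ‖v‖ ^ 2 / 2) * r ^ 2 := by ring
  exact le_of_mul_le_mul_right h3 hr2

theorem taylor3_ball {v : ℂ} {r K : ℝ} (hr : 0 < r) (hv : ‖v‖ ≤ r)
    (hK : Real.exp r - 1 - r - r ^ 2 / 2 ≤ K * r ^ 3 / 6) :
    ‖cexp v - 1 - v - v ^ 2 / 2‖ ≤ K * ‖v‖ ^ 3 / 6 := by
  have h1 := Complex.norm_exp_sub_sum_le_exp_norm_sub_sum v 3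
  have h2 := melem_ball 3 (norm_nonneg v) hv
  have e1 : ∀ y : ℝ, ∑ i ∈ Finset.range 3, y ^ i / (i.factorial : ℝ) = 1 + y + y ^ 2 / 2 := by
    intro y
    simp [Finset.sum_range_succ, Nat.factorial]
  have e2 : ∑ i ∈ Finset.range 3, v ^ i / (i.factorial : ℂ) = 1 + v + v ^ 2 / 2 := by
    simp [Finset.sum_range_succ, Nat.factorial]
  rw [e1, e2] at h1
  rw [e1, e1] at h2
  have e3 : cexp v - (1 + v + v ^ 2 / 2) = cexp v - 1 - v - v ^ 2 / 2 := by ring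
  rw [e3] at h1
  have hr3 : 0 < r ^ 3 := by positivity
  have h3 : ‖cexp v - 1 - v - v ^ 2 / 2‖ * r ^ 3 ≤ (K * ‖v‖ ^ 3 / 6) * r ^ 3 := by
    calc ‖cexp v - 1 - v - v ^ 2 / 2‖ * r ^ 3 ≤
          (Real.exp ‖v‖ - (1 + ‖v‖ + ‖v‖ ^ 2 / 2)) * r ^ 3 :=
          mul_le_mul_of_nonneg_right h1 hr3.le
      _ ≤ (Real.exp r - (1 + r + r ^ 2 / 2)) * ‖v‖ ^ 3 := h2
      _ ≤ (K * r ^ 3 / 6) * ‖v‖ ^ 3 :=
          mul_le_mul_of_nonneg_right (by linarith) (by positivity)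
      _ = (K * ‖v‖ ^ 3 / 6) * r ^ 3 := by ring
  exact le_of_mul_le_mul_right h3 hr3

/-- the height in real coordinates -/
theorem ff_eq (a s x y : ℝ) : ff (a + s * I) (x + y * I) =
    x * y - a * (Real.exp x * Real.sin y - y) - s * (Real.exp x * Real.cos y - 1 - x) := by
  unfold ff
  have e0 : (((x : ℂ) + y * I)).re = x := by simp
  have e1 : (((x : ℂ) + y * I)).im = y := by simp
  have h2 : cexp ((x : ℂ) + y * I) = ((Real.exp x * Real.cos y : ℝ) : ℂ) +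
      ((Real.exp x * Real.sin y : ℝ) : ℂ) * I := by
    apply Complex.ext
    · rw [exp_re, e0, e1, add_re, ofReal_re, re_ofReal_mul, I_re]; ring
    · rw [exp_im, e0, e1, add_im, ofReal_im, im_ofReal_mul, I_im]; ring
  rw [h2]
  obtain ⟨A, hA⟩ : ∃ A : ℝ, A = Real.exp x * Real.cos y := ⟨_, rfl⟩
  obtain ⟨B, hB⟩ : ∃ B : ℝ, B = Real.exp x * Real.sin y := ⟨_, rfl⟩
  rw [← hA, ← hB]
  have h3 : (((x : ℂ) + y * I) ^ 2 / 2 - (a + s * I) * ((A : ℂ) + B * I - 1 - (x + y * I))) =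
      (((x ^ 2 - y ^ 2) / 2 - (a * (A - 1 - x) - s * (B - y)) : ℝ) : ℂ) +
      ((x * y - a * (B - y) - s * (A - 1 - x) : ℝ) : ℂ) * I := by
    push_cast
    linear_combination ((y : ℂ) ^ 2 / 2 - s * (B - y)) * I_sq
  rw [h3, add_im, ofReal_im, im_ofReal_mul, I_im]
  ring

end SokalFU
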