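import Pool.Agent.Lib_MP_af4de1_fu.MGen

/-!
# The complex Gauss integral [FU-M10]

`integral_gaussian_complex`, norm of the square root; `E2(td) = -β t²` with `Re β > 0` (field `quad`).
-/

set_option autoImplicit false

namespace SokalFU

open Complex MeasureTheory Set

/-- `E2 = (i/δ)(1-h)v²/2` -/
noncomputable def E2 (δ : ℝ) (h v : ℂ) : ℂ := I / δ * ((1 - h) * v ^ 2 / 2)

theorem norm_E2 {δ : ℝ} (h v : ℂ) :
    ‖cexp (E2 δ h v)‖ = Real.exp (-((1 - h) * v ^ 2 / 2).im / δ) := by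
  unfold E2
  rw [Complex.norm_exp]
  congr 1
  have h1 : I / δ * ((1 - h) * v ^ 2 / 2) =
      ((1 / δ : ℝ) : ℂ) * (I * ((1 - h) * v ^ 2 / 2)) := by
    push_cast; ring
  rw [h1, re_ofReal_mul, I_mul_re]
  ring

/-- the coefficient of the Gauss integral -/
private noncomputable def bb_mgauss (δ : ℝ) (h d : ℂ) : ℂ := -(I / δ * ((1 - h) * d ^ 2 / 2))

private theorem E2_mgauss (δ : ℝ) (h d : ℂ) (t : ℝ) :
    E2 δ h (t * d) = -bb_mgauss δ h d * (t : ℂ) ^ 2 := by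
  unfold E2 bb_mgauss
  ring

private theorem re_mgauss {δ : ℝ} (hδ : 0 < δ) {h d : ℂ} {c : ℝ} (hc : 0 < c)
    (hQ : ∀ t : ℝ, c * t ^ 2 ≤ ((1 - h) * (t * d) ^ 2 / 2).im) : 0 < (bb_mgauss δ h d).re := by
  have h0 := hQ 1
  rw [Complex.ofReal_one, one_mul, one_pow, mul_one] at h0
  unfold bb_mgauss
  have h1 : I / δ * ((1 - h) * d ^ 2 / 2) =
      ((1 / δ : ℝ) : ℂ) * (I * ((1 - h) * d ^ 2 / 2)) := by
    push_cast; ring
  rw [neg_re, h1, re_ofReal_mul, I_mul_re]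
  have h2 : 0 < 1 / δ := by positivity
  nlinarith

theorem gauss_integrable {δ : ℝ} (hδ : 0 < δ) {h d : ℂ} {c : ℝ} (hc : 0 < c)
    (hQ : ∀ t : ℝ, c * t ^ 2 ≤ ((1 - h) * (t * d) ^ 2 / 2).im) :
    Integrable (fun t : ℝ => cexp (E2 δ h (t * d))) := by
  simp only [E2_mgauss]
  exact integrable_cexp_neg_mul_sq (re_mgauss hδ hc hQ)

theorem gauss_norm {δ : ℝ} (hδ : 0 < δ) {h d : ℂ} {c : ℝ} (hc : 0 < c)
    (hQ : ∀ t : ℝ, c * t ^ 2 ≤ ((1 - h) * (t * d) ^ 2 / 2).im) :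
    ‖(∫ t : ℝ, cexp (E2 δ h (t * d))) * d‖ = Real.sqrt (2 * Real.pi * δ / ‖1 - h‖) := by
  have hre := re_mgauss hδ hc hQ
  simp only [E2_mgauss]
  rw [integral_gaussian_complex hre]
  have hb : bb_mgauss δ h d ≠ 0 := by
    intro h1
    rw [h1, zero_re] at hre
    exact lt_irrefl _ hre
  have hd : d ≠ 0 := by
    rintro rfl
    apply hb
    unfold bb_mgauss
    ring
  have hh : 1 - h ≠ 0 := by
    intro h1
    apply hb
    unfold bb_mgauss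
    rw [h1]
    ring
  have hn : ‖bb_mgauss δ h d‖ = ‖1 - h‖ * ‖d‖ ^ 2 / (2 * δ) := by
    unfold bb_mgauss
    rw [norm_neg, norm_mul, norm_div, norm_div, norm_mul, norm_pow, norm_I, norm_real,
      Real.norm_of_nonneg hδ.le, Complex.norm_ofNat]
    field_simp
  have h1 : ‖(Real.pi / bb_mgauss δ h d : ℂ) ^ (1 / 2 : ℂ)‖ =
      Real.sqrt (Real.pi / ‖bb_mgauss δ h d‖) := by
    have h2 : (1 / 2 : ℂ) = ((1 / 2 : ℝ) : ℂ) := by push_cast; ring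
    rw [h2, Complex.norm_cpow_real, Real.sqrt_eq_rpow, norm_div, norm_real,
      Real.norm_of_nonneg Real.pi_pos.le]
  rw [norm_mul, h1, hn]
  have hdp : 0 < ‖d‖ := norm_pos_iff.2 hd
  have hhp : 0 < ‖1 - h‖ := norm_pos_iff.2 hh
  have h3 : Real.pi / (‖1 - h‖ * ‖d‖ ^ 2 / (2 * δ)) = (2 * Real.pi * δ / ‖1 - h‖) / ‖d‖ ^ 2 := by
    field_simp
  rw [h3, Real.sqrt_div' _ (sq_nonneg _), Real.sqrt_sq hdp.le]
  field_simp

end SokalFU
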