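import Pool.Agent.Lib_MP_af4de1_fu.M0

/-!
# Real integrals [FU-M9]
-/

set_option autoImplicit false

namespace SokalFU

open MeasureTheory Set Filter Topology

private theorem fin_m9 {a : ℝ} {G g : ℝ → ℝ} (hd : ∀ x, HasDerivAt G (g x) x)
    (hp : ∀ x ∈ Ioi a, 0 ≤ g x) (hl : Tendsto G atTop (𝓝 0)) :
    IntegrableOn g (Ioi a) ∧ ∫ x in Ioi a, g x = -G a := by
  have h := integral_Ioi_of_hasDerivAt_of_nonneg' (fun x _ => hd x) hp hl
  rw [zero_sub] at h
  exact ⟨integrableOn_Ioi_deriv_of_nonneg' (fun x _ => hd x) hp hl, h⟩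

private theorem lim_pow_m9 {k : ℝ} (hk : 0 < k) (n : ℕ) :
    Tendsto (fun t : ℝ => t ^ n * Real.exp (-(k * t))) atTop (𝓝 0) := by
  have h1 : Tendsto (fun t : ℝ => k * t) atTop atTop := tendsto_id.const_mul_atTop hk
  have h2 := ((Real.tendsto_pow_mul_exp_neg_atTop_nhds_zero n).comp h1).const_mul ((k ^ n)⁻¹)
  rw [mul_zero] at h2
  refine h2.congr fun t => ?_
  simp only [Function.comp]
  rw [mul_pow, ← mul_assoc, ← mul_assoc, inv_mul_cancel₀ (pow_ne_zero n hk.ne'), one_mul]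

/-- quadratic polynomial times exponential -/
private theorem lim_quad_m9 {k : ℝ} (hk : 0 < k) (a b c : ℝ) :
    Tendsto (fun t : ℝ => (a * t ^ 2 + b * t + c) * Real.exp (-(k * t))) atTop (𝓝 0) := by
  have h1 := (((lim_pow_m9 hk 2).const_mul a).add ((lim_pow_m9 hk 1).const_mul b)).add
    ((lim_pow_m9 hk 0).const_mul c)
  rw [mul_zero, mul_zero, mul_zero, add_zero, add_zero] at h1
  refine h1.congr fun t => ?_
  ring

private theorem lim_sq_m9 {k : ℝ} (hk : 0 < k) (a c : ℝ) :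
    Tendsto (fun t : ℝ => (a * t ^ 2 + c) * Real.exp (-(k * t ^ 2))) atTop (𝓝 0) := by
  have h1 : Tendsto (fun t : ℝ => t ^ 2) atTop atTop := tendsto_pow_atTop two_ne_zero
  have h2 := (lim_quad_m9 hk 0 a c).comp h1
  refine h2.congr fun t => ?_
  simp only [Function.comp]
  ring_nf

private theorem hasDeriv_gauss_m9 (k x : ℝ) :
    HasDerivAt (fun t : ℝ => Real.exp (-(k * t ^ 2))) (-(2 * k * x) * Real.exp (-(k * x ^ 2))) x := by
  have h1 : HasDerivAt (fun t : ℝ => -(k * t ^ 2)) (-(k * (2 * x))) x := by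
    have h0 : HasDerivAt (fun t : ℝ => k * t ^ 2) (k * (2 * x)) x := by
      have := (hasDerivAt_pow 2 x).const_mul k
      simpa using this
    exact h0.neg
  have h2 := h1.exp
  have e : Real.exp (-(k * x ^ 2)) * -(k * (2 * x)) = -(2 * k * x) * Real.exp (-(k * x ^ 2)) := by ring
  rwa [e] at h2

private theorem hasDeriv_lin_m9 (k m x : ℝ) :
    HasDerivAt (fun t : ℝ => Real.exp (m - k * t)) (-k * Real.exp (m - k * x)) x := by
  have h1 : HasDerivAt (fun t : ℝ => m - k * t) (-k) x := by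
    have := ((hasDerivAt_id x).const_mul k).const_sub m
    simpa using this
  have h2 := h1.exp
  rwa [mul_comm] at h2

private theorem t3_m9 {k : ℝ} (hk : 0 < k) :
    IntegrableOn (fun t : ℝ => t ^ 3 * Real.exp (-(k * t ^ 2))) (Ioi 0) ∧
    ∫ t in Ioi (0 : ℝ), t ^ 3 * Real.exp (-(k * t ^ 2)) = 1 / (2 * k ^ 2) := by
  have hd : ∀ x : ℝ, HasDerivAt (fun t : ℝ => (-(1 / (2 * k)) * t ^ 2 + -(1 / (2 * k ^ 2))) *
      Real.exp (-(k * t ^ 2))) (x ^ 3 * Real.exp (-(k * x ^ 2))) x := by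
    intro x
    have h1 : HasDerivAt (fun t : ℝ => -(1 / (2 * k)) * t ^ 2 + -(1 / (2 * k ^ 2)))
        (-(1 / (2 * k)) * (2 * x)) x := by
      have := ((hasDerivAt_pow 2 x).const_mul (-(1 / (2 * k)))).add_const (-(1 / (2 * k ^ 2)))
      simpa using this
    have h2 := h1.mul (hasDeriv_gauss_m9 k x)
    have e : -(1 / (2 * k)) * (2 * x) * Real.exp (-(k * x ^ 2)) +
        (-(1 / (2 * k)) * x ^ 2 + -(1 / (2 * k ^ 2))) * (-(2 * k * x) * Real.exp (-(k * x ^ 2))) =
        x ^ 3 * Real.exp (-(k * x ^ 2)) := by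
      field_simp
      ring
    rw [e] at h2
    exact h2
  have h := fin_m9 (a := 0) hd (fun x hx => by
    have : 0 < x := hx
    positivity) (lim_sq_m9 hk _ _)
  refine ⟨h.1, h.2.trans ?_⟩
  simp

theorem int_t3 {c δ : ℝ} (hc : 0 < c) (hδ : 0 < δ) :
    IntegrableOn (fun t : ℝ => t ^ 3 * Real.exp (-(c * t ^ 2) / δ)) (Ioi 0) ∧
    ∫ t in Ioi (0 : ℝ), t ^ 3 * Real.exp (-(c * t ^ 2) / δ) = δ ^ 2 / (2 * c ^ 2) := by
  have h := t3_m9 (k := c / δ) (by positivity)
  have e : (fun t : ℝ => t ^ 3 * Real.exp (-(c / δ * t ^ 2))) =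
      fun t : ℝ => t ^ 3 * Real.exp (-(c * t ^ 2) / δ) := by
    funext t
    congr 2
    ring
  rw [e] at h
  refine ⟨h.1, h.2.trans ?_⟩
  field_simp

theorem int_t2 {c δ : ℝ} (hc : 0 < c) (hδ : 0 < δ) :
    IntegrableOn (fun t : ℝ => t ^ 2 * Real.exp (-(c * t ^ 2) / δ)) (Ioi 0) ∧
    ∫ t in Ioi (0 : ℝ), t ^ 2 * Real.exp (-(c * t ^ 2) / δ) =
      Real.sqrt Real.pi / 4 * (δ / c * Real.sqrt (δ / c)) := by
  obtain ⟨k, hk⟩ : ∃ k, k = c / δ := ⟨_, rfl⟩
  have hk0 : 0 < k := by rw [hk]; positivity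
  have e : (fun t : ℝ => t ^ 2 * Real.exp (-(c * t ^ 2) / δ)) =
      fun t : ℝ => t ^ 2 * Real.exp (-(k * t ^ 2)) := by
    funext t
    rw [hk]
    congr 2
    ring
  have hint : IntegrableOn (fun t : ℝ => t ^ 2 * Real.exp (-(k * t ^ 2))) (Ioi 0) := by
    have h1 := integrableOn_rpow_mul_exp_neg_mul_sq hk0 (s := 2) (by norm_num)
    refine h1.congr_fun (fun t _ => ?_) measurableSet_Ioi
    simp only [Real.rpow_two, neg_mul]
  have hint0 : IntegrableOn (fun t : ℝ => Real.exp (-(k * t ^ 2))) (Ioi 0) := by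
    have h1 := (integrable_exp_neg_mul_sq hk0).integrableOn (s := Ioi (0 : ℝ))
    refine h1.congr_fun (fun t _ => ?_) measurableSet_Ioi
    simp only [neg_mul]
  have hd : ∀ x ∈ Ici (0 : ℝ), HasDerivAt (fun t : ℝ => -(1 / (2 * k)) * (t * Real.exp (-(k * t ^ 2))))
      (x ^ 2 * Real.exp (-(k * x ^ 2)) - 1 / (2 * k) * Real.exp (-(k * x ^ 2))) x := by
    intro x _
    have h2 := ((hasDerivAt_id x).mul (hasDeriv_gauss_m9 k x)).const_mul (-(1 / (2 * k)))
    have e2 : -(1 / (2 * k)) * (1 * Real.exp (-(k * x ^ 2)) + id x * (-(2 * k * x) * Real.exp (-(k * x ^ 2)))) =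
        x ^ 2 * Real.exp (-(k * x ^ 2)) - 1 / (2 * k) * Real.exp (-(k * x ^ 2)) := by
      simp only [id]
      field_simp
      ring
    rw [e2] at h2
    exact h2
  have hlim : Tendsto (fun t : ℝ => -(1 / (2 * k)) * (t * Real.exp (-(k * t ^ 2)))) atTop (𝓝 0) := by
    have h1 : Tendsto (fun t : ℝ => t * Real.exp (-(k * t ^ 2))) atTop (𝓝 0) := by
      refine squeeze_zero' (g := fun t : ℝ => (1 * t ^ 2 + 1) * Real.exp (-(k * t ^ 2))) ?_ ?_
        (lim_sq_m9 hk0 1 1)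
      · filter_upwards [eventually_ge_atTop (0 : ℝ)] with t ht
        positivity
      · filter_upwards with t
        refine mul_le_mul_of_nonneg_right ?_ (Real.exp_pos _).le
        nlinarith [sq_nonneg (t - 1 / 2)]
    have h2 := h1.const_mul (-(1 / (2 * k)))
    rwa [mul_zero] at h2
  have h3 := integral_Ioi_of_hasDerivAt_of_tendsto' hd (hint.sub (hint0.const_mul _)) hlim
  rw [zero_mul, mul_zero, sub_zero] at h3
  have h4 : ∫ x in Ioi (0 : ℝ), (x ^ 2 * Real.exp (-(k * x ^ 2)) - 1 / (2 * k) * Real.exp (-(k * x ^ 2))) =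
      (∫ x in Ioi (0 : ℝ), x ^ 2 * Real.exp (-(k * x ^ 2))) -
        1 / (2 * k) * ∫ x in Ioi (0 : ℝ), Real.exp (-(k * x ^ 2)) := by
    rw [integral_sub hint (hint0.const_mul _), integral_const_mul]
  rw [h4] at h3
  have h5 : ∫ x in Ioi (0 : ℝ), Real.exp (-(k * x ^ 2)) = √(Real.pi / k) / 2 := by
    rw [← integral_gaussian_Ioi k]
    simp only [neg_mul]
  rw [e]
  refine ⟨hint, ?_⟩
  rw [sub_eq_zero.1 h3, h5]
  have h6 : δ / c = 1 / k := by rw [hk]; field_simp
  have h7 : √(Real.pi / k) = √Real.pi * √(1 / k) := by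
    rw [← Real.sqrt_mul Real.pi_pos.le, mul_one_div]
  rw [h6, h7]
  ring

theorem int_tail {c δ T : ℝ} (hc : 0 < c) (hδ : 0 < δ) (hT : 0 < T) :
    IntegrableOn (fun t : ℝ => Real.exp (-(c * t ^ 2) / δ)) (Ioi T) ∧
    ∫ t in Ioi T, Real.exp (-(c * t ^ 2) / δ) ≤ δ / (c * T) * Real.exp (-(c * T ^ 2) / δ) := by
  obtain ⟨k, hk⟩ : ∃ k, k = c / δ := ⟨_, rfl⟩
  have hk0 : 0 < k := by rw [hk]; positivity
  have e : ∀ t : ℝ, -(c * t ^ 2) / δ = -(k * t ^ 2) := by
    intro t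
    rw [hk]
    ring
  simp only [e]
  have hint0 : IntegrableOn (fun t : ℝ => Real.exp (-(k * t ^ 2))) (Ioi T) := by
    have h1 := (integrable_exp_neg_mul_sq hk0).integrableOn (s := Ioi T)
    refine h1.congr_fun (fun t _ => ?_) measurableSet_Ioi
    simp only [neg_mul]
  refine ⟨hint0, ?_⟩
  have hd : ∀ x : ℝ, HasDerivAt (fun t : ℝ => -(1 / (2 * k * T)) * Real.exp (-(k * t ^ 2)))
      (x / T * Real.exp (-(k * x ^ 2))) x := by
    intro x
    have h2 := (hasDeriv_gauss_m9 k x).const_mul (-(1 / (2 * k * T)))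
    have e2 : -(1 / (2 * k * T)) * (-(2 * k * x) * Real.exp (-(k * x ^ 2))) =
        x / T * Real.exp (-(k * x ^ 2)) := by
      field_simp
    rw [e2] at h2
    exact h2
  have hlim : Tendsto (fun t : ℝ => -(1 / (2 * k * T)) * Real.exp (-(k * t ^ 2))) atTop (𝓝 0) := by
    have h1 := lim_sq_m9 hk0 0 (-(1 / (2 * k * T)))
    refine h1.congr fun t => ?_
    ring
  have h3 := fin_m9 (a := T) hd (fun x hx => by
    have : 0 < x := hT.trans hx
    positivity) hlim
  have h4 : ∫ t in Ioi T, Real.exp (-(k * t ^ 2)) ≤ ∫ t in Ioi T, t / T * Real.exp (-(k * t ^ 2)) := by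
    refine setIntegral_mono_on hint0 h3.1 measurableSet_Ioi fun t ht => ?_
    have h5 : 1 ≤ t / T := by
      rw [le_div_iff₀ hT, one_mul]
      exact (mem_Ioi.1 ht).le
    calc Real.exp (-(k * t ^ 2)) = 1 * Real.exp (-(k * t ^ 2)) := (one_mul _).symm
      _ ≤ t / T * Real.exp (-(k * t ^ 2)) := mul_le_mul_of_nonneg_right h5 (Real.exp_pos _).le
  refine h4.trans ?_
  rw [h3.2]
  have h6 : δ / (c * T) = 1 / (k * T) := by rw [hk]; field_simp
  rw [h6, neg_mul, neg_neg]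
  refine mul_le_mul_of_nonneg_right ?_ (Real.exp_pos _).le
  refine one_div_le_one_div_of_le (by positivity) ?_
  nlinarith [mul_pos hk0 hT]

private theorem lin_m9 {m k T : ℝ} (hk : 0 < k) :
    IntegrableOn (fun u : ℝ => Real.exp (m - k * u)) (Ioi T) ∧
    ∫ u in Ioi T, Real.exp (m - k * u) = 1 / k * Real.exp (m - k * T) := by
  have hd : ∀ x : ℝ, HasDerivAt (fun t : ℝ => -(1 / k) * Real.exp (m - k * t))
      (Real.exp (m - k * x)) x := by
    intro x
    have h2 := (hasDeriv_lin_m9 k m x).const_mul (-(1 / k))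
    have e2 : -(1 / k) * (-k * Real.exp (m - k * x)) = Real.exp (m - k * x) := by
      field_simp
    rw [e2] at h2
    exact h2
  have hlim : Tendsto (fun t : ℝ => -(1 / k) * Real.exp (m - k * t)) atTop (𝓝 0) := by
    have h1 := lim_quad_m9 hk 0 0 (-(1 / k) * Real.exp m)
    refine h1.congr fun t => ?_
    rw [sub_eq_add_neg, Real.exp_add]
    ring
  have h3 := fin_m9 (a := T) hd (fun x _ => (Real.exp_pos _).le) hlim
  refine ⟨h3.1, h3.2.trans ?_⟩
  ring

theorem int_lin {b σ δ : ℝ} (hσ : 0 < σ) (hδ : 0 < δ) :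
    IntegrableOn (fun u : ℝ => Real.exp (-(b + σ * u) / δ)) (Ioi 0) ∧
    ∫ u in Ioi (0 : ℝ), Real.exp (-(b + σ * u) / δ) = δ / σ * Real.exp (-b / δ) := by
  have h := lin_m9 (m := -b / δ) (k := σ / δ) (T := 0) (by positivity)
  have e : (fun u : ℝ => Real.exp (-b / δ - σ / δ * u)) = fun u : ℝ => Real.exp (-(b + σ * u) / δ) := by
    funext u
    congr 1
    ring
  rw [e] at h
  refine ⟨h.1, h.2.trans ?_⟩
  rw [mul_zero, sub_zero, one_div_div]

/-- splitting the half line at `T'` -/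
private theorem split_m9 {T T' : ℝ} (hT : T ≤ T') {f g h : ℝ → ℝ} (hg : Continuous g)
    (e1 : ∀ t ∈ Ioc T T', f t = g t) (e2 : ∀ t ∈ Ioi T', f t = h t) (hh : IntegrableOn h (Ioi T')) :
    IntegrableOn f (Ioi T) ∧
      ∫ t in Ioi T, f t = (∫ t in T..T', g t) + ∫ t in Ioi T', h t := by
  have h1 : IntegrableOn f (Ioc T T') :=
    ((hg.integrableOn_Icc (a := T) (b := T')).mono_set Ioc_subset_Icc_self).congr_fun
      (fun t ht => (e1 t ht).symm) measurableSet_Ioc
  have h2 : IntegrableOn f (Ioi T') := hh.congr_fun (fun t ht => (e2 t ht).symm) measurableSet_Ioi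
  have h3 : Ioi T = Ioc T T' ∪ Ioi T' := (Ioc_union_Ioi_eq_Ioi hT).symm
  have hdis : Disjoint (Ioc T T') (Ioi T') :=
    Set.disjoint_left.2 fun x hx hx' => absurd hx.2 (not_le.2 hx')
  refine ⟨?_, ?_⟩
  · rw [h3]
    exact h1.union h2
  · rw [h3, setIntegral_union hdis measurableSet_Ioi h1 h2,
      setIntegral_congr_fun measurableSet_Ioc e1, setIntegral_congr_fun measurableSet_Ioi e2,
      intervalIntegral.integral_of_le hT]

theorem int_far0 {B l δ T T' : ℝ} (hl : 0 < l) (hδ : 0 < δ) (hT : T ≤ T') :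
    IntegrableOn (fun t : ℝ => Real.exp (-(B + l * max (t - T') 0) / δ)) (Ioi T) ∧
    ∫ t in Ioi T, Real.exp (-(B + l * max (t - T') 0) / δ) =
      ((T' - T) + δ / l) * Real.exp (-B / δ) := by
  have h := lin_m9 (m := -B / δ + l / δ * T') (k := l / δ) (T := T') (by positivity)
  have h2 := split_m9 hT (f := fun t : ℝ => Real.exp (-(B + l * max (t - T') 0) / δ))
    (g := fun _ => Real.exp (-B / δ)) (h := fun t => Real.exp (-B / δ + l / δ * T' - l / δ * t))
    continuous_const (fun t ht => by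
      have : max (t - T') 0 = 0 := max_eq_right (by linarith [ht.2])
      simp only [this, mul_zero, add_zero]) (fun t ht => by
      have h3 : T' < t := ht
      have : max (t - T') 0 = t - T' := max_eq_left (by linarith)
      simp only [this]
      congr 1
      field_simp
      ring) h.1
  refine ⟨h2.1, h2.2.trans ?_⟩
  rw [h.2, intervalIntegral.integral_const, smul_eq_mul, one_div_div]
  have e : -B / δ + l / δ * T' - l / δ * T' = -B / δ := by ring
  rw [e]
  ring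

private theorem quad_m9 {m k T v : ℝ} (hk : 0 < k) :
    IntegrableOn (fun u : ℝ => (v + u) ^ 2 * Real.exp (m - k * u)) (Ioi T) ∧
    ∫ u in Ioi T, (v + u) ^ 2 * Real.exp (m - k * u) =
      ((v + T) ^ 2 / k + 2 * (v + T) / k ^ 2 + 2 / k ^ 3) * Real.exp (m - k * T) := by
  have hd : ∀ x : ℝ, HasDerivAt (fun t : ℝ => -((v + t) ^ 2 / k + 2 * (v + t) / k ^ 2 + 2 / k ^ 3) *
      Real.exp (m - k * t)) ((v + x) ^ 2 * Real.exp (m - k * x)) x := by
    intro x
    have h0 : HasDerivAt (fun t : ℝ => v + t) 1 x := (hasDerivAt_id x).const_add v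
    have h1 : HasDerivAt (fun t : ℝ => -((v + t) ^ 2 / k + 2 * (v + t) / k ^ 2 + 2 / k ^ 3))
        (-(2 * (v + x) / k + 2 / k ^ 2)) x := by
      have h2 := ((((h0.pow 2).div_const k).add ((h0.const_mul 2).div_const (k ^ 2))).add_const
        (2 / k ^ 3)).neg
      have e2 : -(((2 : ℕ) : ℝ) * (v + x) ^ (2 - 1) * 1 / k + 2 * 1 / k ^ 2) =
          -(2 * (v + x) / k + 2 / k ^ 2) := by
        norm_num
      rw [e2] at h2
      exact h2
    have h2 := h1.mul (hasDeriv_lin_m9 k m x)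
    have e2 : -(2 * (v + x) / k + 2 / k ^ 2) * Real.exp (m - k * x) +
        -((v + x) ^ 2 / k + 2 * (v + x) / k ^ 2 + 2 / k ^ 3) * (-k * Real.exp (m - k * x)) =
        (v + x) ^ 2 * Real.exp (m - k * x) := by
      field_simp
      ring
    rw [e2] at h2
    exact h2
  have hlim : Tendsto (fun t : ℝ => -((v + t) ^ 2 / k + 2 * (v + t) / k ^ 2 + 2 / k ^ 3) *
      Real.exp (m - k * t)) atTop (𝓝 0) := by
    have h1 := (lim_quad_m9 hk (1 / k) (2 * v / k + 2 / k ^ 2)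
      (v ^ 2 / k + 2 * v / k ^ 2 + 2 / k ^ 3)).const_mul (-Real.exp m)
    rw [mul_zero] at h1
    refine h1.congr fun t => ?_
    rw [sub_eq_add_neg, Real.exp_add]
    ring
  have h3 := fin_m9 (a := T) hd (fun x _ => by positivity) hlim
  refine ⟨h3.1, h3.2.trans ?_⟩
  ring

theorem int_far2 {B l δ T T' : ℝ} (hl : 0 < l) (hδ : 0 < δ) (hT : T ≤ T') :
    IntegrableOn (fun t : ℝ => t ^ 2 * Real.exp (-(B + l * max (t - T') 0) / δ)) (Ioi T) ∧
    ∫ t in Ioi T, t ^ 2 * Real.exp (-(B + l * max (t - T') 0) / δ) =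
      ((T' ^ 3 - T ^ 3) / 3 + δ / l * (T' ^ 2 + 2 * T' * (δ / l) + 2 * (δ / l) ^ 2)) *
        Real.exp (-B / δ) := by
  have h := quad_m9 (m := -B / δ + l / δ * T') (k := l / δ) (T := T') (v := 0) (by positivity)
  have h2 := split_m9 hT (f := fun t : ℝ => t ^ 2 * Real.exp (-(B + l * max (t - T') 0) / δ))
    (g := fun t => t ^ 2 * Real.exp (-B / δ))
    (h := fun t => (0 + t) ^ 2 * Real.exp (-B / δ + l / δ * T' - l / δ * t))
    (by fun_prop) (fun t ht => by
      have : max (t - T') 0 = 0 := max_eq_right (by linarith [ht.2])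
      simp only [this, mul_zero, add_zero]) (fun t ht => by
      have h3 : T' < t := ht
      have : max (t - T') 0 = t - T' := max_eq_left (by linarith)
      simp only [this, zero_add]
      congr 2
      field_simp
      ring) h.1
  refine ⟨h2.1, h2.2.trans ?_⟩
  rw [h.2, intervalIntegral.integral_mul_const, integral_pow]
  have e : -B / δ + l / δ * T' - l / δ * T' = -B / δ := by ring
  rw [e]
  norm_num
  field_simp

theorem int_side {b σ δ v r : ℝ} (hδ : 0 < δ) (hσ : δ < σ) :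
    IntegrableOn (fun u : ℝ => (v + u) ^ 2 / 2 * Real.exp (r + u) * Real.exp (-(b + σ * u) / δ)) (Ioi 0) ∧
    ∫ u in Ioi (0 : ℝ), (v + u) ^ 2 / 2 * Real.exp (r + u) * Real.exp (-(b + σ * u) / δ) =
      Real.exp (r - b / δ) / 2 * (v ^ 2 / (σ / δ - 1) + 2 * v / (σ / δ - 1) ^ 2 +
        2 / (σ / δ - 1) ^ 3) := by
  have hk : 0 < σ / δ - 1 := by
    rw [sub_pos, lt_div_iff₀ hδ, one_mul]
    exact hσ
  have h := quad_m9 (m := r - b / δ) (k := σ / δ - 1) (T := 0) (v := v) hk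
  have e : (fun u : ℝ => (v + u) ^ 2 / 2 * Real.exp (r + u) * Real.exp (-(b + σ * u) / δ)) =
      fun u : ℝ => 1 / 2 * ((v + u) ^ 2 * Real.exp (r - b / δ - (σ / δ - 1) * u)) := by
    funext u
    rw [mul_assoc, ← Real.exp_add]
    have e2 : r + u + -(b + σ * u) / δ = r - b / δ - (σ / δ - 1) * u := by ring
    rw [e2]
    ring
  rw [e]
  refine ⟨h.1.const_mul _, ?_⟩
  rw [integral_const_mul, h.2, add_zero, mul_zero, sub_zero]
  ring

end SokalFU
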