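import Pool.Agent.Lib_MP_af4de1_fu.PcT

/-!
# Segments of packed pieces, classes in blocks: definitions

`B` is the list of the blocks of classes; a segment `((j, i), l)` has the class number `i` of the block `j` and the pieces `l`.
-/

set_option autoImplicit false

namespace SokalFU

/-- the empty class -/
def clsD : ClsI := ⟨0, 0, 0, 0, 0, 0, 0, 0, 0, 0, 0, 0, [], 0, 0⟩

/-- class `i` of block `j` -/
def clsAt (B : List (List ClsI)) (j i : ℕ) : ClsI := (B.getD j []).getD i clsD

/-- `if b then c else false` -/
def andR (b c : Bool) : Bool := Bool.rec (motive := fun _ => Bool) false c b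

/-- all pieces of the list pass the test of the class `K` -/
def allPc (K : ClsI) (l : List ℕ) : Bool :=
  List.rec (motive := fun _ => Bool) true (fun x _ ih => andR (pcCheck K x) ih) l

/-- the check of the segments of a tube -/
def segOK (B : List (List ClsI)) (s : List ((ℕ × ℕ) × List ℕ)) : Bool :=
  List.rec (motive := fun _ => Bool) true
    (fun a _ ih => andR (Nat.blt a.1.1 B.length) (andR (Nat.blt a.1.2 (B.getD a.1.1 []).length)
      (andR (allPc (clsAt B a.1.1 a.1.2) a.2) ih))) s

/-- the pieces of the segments -/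
def flat (s : List ((ℕ × ℕ) × List ℕ)) : List ℕ :=
  List.rec (motive := fun _ => List ℕ) [] (fun a _ ih => a.2 ++ ih) s

/-- the check of a block of classes -/
def blkOK (good : ClsI → Bool) (b : List ClsI) : Bool :=
  List.rec (motive := fun _ => Bool) true (fun K _ ih => andR (good K) ih) b

theorem andR_eq (b c : Bool) : andR b c = (b && c) := by cases b <;> rfl

theorem allPc_cons (K : ClsI) (x : ℕ) (l : List ℕ) : allPc K (x :: l) = (pcCheck K x && allPc K l) := by
  show andR (pcCheck K x) (allPc K l) = _
  rw [andR_eq]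

theorem segOK_cons (B : List (List ClsI)) (a : (ℕ × ℕ) × List ℕ) (s : List ((ℕ × ℕ) × List ℕ)) :
    segOK B (a :: s) = (Nat.blt a.1.1 B.length && (Nat.blt a.1.2 (B.getD a.1.1 []).length &&
      (allPc (clsAt B a.1.1 a.1.2) a.2 && segOK B s))) := by
  show andR (Nat.blt a.1.1 B.length) (andR (Nat.blt a.1.2 (B.getD a.1.1 []).length)
      (andR (allPc (clsAt B a.1.1 a.1.2) a.2) (segOK B s))) = _
  rw [andR_eq, andR_eq, andR_eq]

theorem blkOK_cons (good : ClsI → Bool) (K : ClsI) (b : List ClsI) : blkOK good (K :: b) = (good K && blkOK good b) := by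
  show andR (good K) (blkOK good b) = _
  rw [andR_eq]

theorem blkOK_mem {good : ClsI → Bool} : ∀ {b : List ClsI}, blkOK good b = true → ∀ K ∈ b, good K = true := by
  intro b
  induction b with
  | nil => intro _ x hx; exact absurd hx List.not_mem_nil
  | cons y l ih =>
    intro h x hx
    rw [blkOK_cons, Bool.and_eq_true] at h
    rcases List.mem_cons.1 hx with h1 | h1
    · rw [h1]; exact h.1
    · exact ih h.2 x h1

theorem allPc_mem {K : ClsI} : ∀ {l : List ℕ}, allPc K l = true → ∀ x ∈ l, pcCheck K x = true := by
  intro l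
  induction l with
  | nil => intro _ x hx; exact absurd hx List.not_mem_nil
  | cons y l ih =>
    intro h x hx
    rw [allPc_cons, Bool.and_eq_true] at h
    rcases List.mem_cons.1 hx with h1 | h1
    · rw [h1]; exact h.1
    · exact ih h.2 x h1

/-- every piece of the segments passes the test of a class of one of the blocks -/
theorem segOK_mem {B : List (List ClsI)} : ∀ {s : List ((ℕ × ℕ) × List ℕ)}, segOK B s = true →
    ∀ x ∈ flat s, ∃ b ∈ B, ∃ K ∈ b, pcCheck K x = true := by
  intro s
  induction s with
  | nil => intro _ x hx; exact absurd hx List.not_mem_nil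
  | cons a s ih =>
    intro h x hx
    rw [segOK_cons, Bool.and_eq_true, Bool.and_eq_true, Bool.and_eq_true] at h
    obtain ⟨h1, h2, h3, h4⟩ := h
    have hx' : x ∈ a.2 ++ flat s := hx
    rcases List.mem_append.1 hx' with h5 | h5
    · have h1' : a.1.1 < B.length := by
        have := h1
        rw [Nat.blt_eq] at this
        exact this
      have h2' : a.1.2 < (B.getD a.1.1 []).length := by
        have := h2
        rw [Nat.blt_eq] at this
        exact this
      refine ⟨B.getD a.1.1 [], ?_, clsAt B a.1.1 a.1.2, ?_, allPc_mem h3 x h5⟩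
      · rw [List.getD_eq_getElem _ _ h1']
        exact List.getElem_mem _
      · unfold clsAt
        rw [List.getD_eq_getElem _ _ h2']
        exact List.getElem_mem _
    · exact ih h4 x h5

/-- **All pieces of a checked tube are tubes.** -/
theorem flat_T {good : ClsI → Bool} (hgood : ∀ K, good K = true → okE K = true ∧ ClsOK K.toCls)
    {B : List (List ClsI)} (hB : ∀ b ∈ B, blkOK good b = true) {s : List ((ℕ × ℕ) × List ℕ)}
    (hs : segOK B s = true) : ∀ x ∈ flat s, (Pc.dec x).T := by
  intro x hx
  obtain ⟨b, hb, K, hK, h⟩ := segOK_mem hs x hx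
  obtain ⟨h1, h2⟩ := hgood K (blkOK_mem (hB b hb) K hK)
  exact pc_T h1 h2 h

end SokalFU
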