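import Pool.Agent.Lib_MP_af4de1_fu.Asm

/-!
# The checks of a table of packed lists, and the constants of F3
-/

set_option autoImplicit false

namespace SokalFU

open Set SokalF

/-- `ListsOK` from a table -/
theorem listsOK_of_tbl {R0 U lo hi hi' : ℤ} {fuel n : ℕ} {tbl : List (List ℕ)} {last : List ℕ}
    (hlen : tbl.length = n) (hn : 0 < n) (hR : 0 < R0) (hU : 0 < U) (hU2 : rv U ≤ (2 * n + 1) * (157 / 200))
    (hhi : Real.pi ≤ rv hi) (hhi' : rv hi' ≤ Real.pi)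
    (hT : ∀ L ∈ tbl, ∀ x ∈ L, (Pc.dec x).T)
    (hC : ∀ L ∈ tbl, chainOK (L.map Pc.dec) = true)
    (hE : ∀ L ∈ tbl, endsOK lo hi L = true)
    (hord : tbl.IsChain (fun a b => ordN fuel a b = true))
    (hl : tbl.getLast? = some last) (htop : lastOK R0 U hi' last = true) :
    ListsOK R0 U lo hi hi' n fuel (fun k => tbl.getD k []) := by
  have hm : ∀ k, k < n → tbl.getD k [] ∈ tbl := fun k hk => by
    rw [List.getD_eq_getElem _ _ (hlen ▸ hk)]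
    exact List.getElem_mem _
  refine ⟨hn, hR, hU, hU2, hhi, hhi', fun k hk => hT _ (hm k hk), fun k hk => hC _ (hm k hk),
    fun k hk => hE _ (hm k hk), fun k hk => ?_, ?_⟩
  · have h := List.isChain_iff_getElem.1 hord k (by omega)
    simp only [List.getD_eq_getElem _ _ (show k < tbl.length by omega),
      List.getD_eq_getElem _ _ (show k + 1 < tbl.length by omega)]
    exact h
  · have h : tbl.getD (n - 1) [] = last := by
      rw [List.getLast?_eq_getElem?, hlen] at hl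
      rw [List.getD_eq_getElem?_getD, hl, Option.getD_some]
    show lastOK R0 U hi' (tbl.getD (n - 1) []) = true
    rw [h]
    exact htop

theorem Sys.mono {R0 : ℝ} {I J : Set ℝ} {K : ℕ} {Z : ℕ → ℝ → ℂ} (S : Sys R0 I K Z) (h : J ⊆ I) : Sys R0 J K Z :=
  ⟨S.pos, fun k hk => (S.branch k hk).mono h, fun k hk α hα => S.lt k hk α (h hα), fun α hα => S.top α (h hα)⟩

/-- the system of branches on `[β, π]` -/
theorem ListsOK.sys' {R0 U lo hi hi' : ℤ} {n fuel : ℕ} {L : ℕ → List ℕ} (S : ListsOK R0 U lo hi hi' n fuel L) {β : ℝ}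
    (hβ : rv lo ≤ β) (hβπ : β ≤ Real.pi) (H : ∀ α r : ℝ, β ≤ α → α ≤ Real.pi → rv R0 ≤ r → Dist α r) :
    ∃ ZZ : ℕ → ℝ → ℂ, Sys (rv R0) (Icc β Real.pi) n ZZ ∧ (∀ α ∈ Icc β Real.pi, Compl n ZZ α) ∧
      ∀ k < n, ∀ x ∈ L k, ∀ α ∈ Icc (rv (Pc.dec x).lo) (rv (Pc.dec x).hi), ZZ k α = (Pc.dec x).z α := by
  obtain ⟨ZZ, h1, h2, h3, h4⟩ := S.sys
  have h5 : Sys (rv R0) (Icc β Real.pi) n ZZ := h1.mono (Icc_subset_Icc_left hβ)
  exact ⟨ZZ, h5, fun α hα => h5.continue isPreconnected_Icc (fun x hx r hr => H x r hx.1 hx.2 hr)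
    (⟨hβπ, le_rfl⟩ : Real.pi ∈ Icc β Real.pi) h3 hα, h4⟩

/-- **F3** on `[β, π]` -/
theorem ListsOK.dist {R0 U lo hi hi' : ℤ} {n fuel : ℕ} {L : ℕ → List ℕ} (S : ListsOK R0 U lo hi hi' n fuel L) {β : ℝ}
    (hβ : rv lo ≤ β) (H : ∀ α r : ℝ, β ≤ α → α ≤ Real.pi → rv R0 ≤ r → Dist α r) :
    ∀ α r : ℝ, β ≤ α → α ≤ Real.pi → r ≤ rv R0 → Dist α r := by
  intro α r h1 h2 h3
  obtain ⟨ZZ, h5, h6, -⟩ := S.sys' hβ (h1.trans h2) H
  exact h5.dist (fun x hx r hr => H x r hx.1 hx.2 hr) ⟨h1, h2⟩ (h6 α ⟨h1, h2⟩) h3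

/-- the zeros over `[β, π]` are in the pieces -/
theorem ListsOK.zeros {R0 U lo hi hi' : ℤ} {n fuel : ℕ} {L : ℕ → List ℕ} (S : ListsOK R0 U lo hi hi' n fuel L) {β : ℝ}
    (hβ : rv lo ≤ β) (H : ∀ α r : ℝ, β ≤ α → α ≤ Real.pi → rv R0 ≤ r → Dist α r) {α : ℝ} (h1 : β ≤ α)
    (h2 : α ≤ Real.pi) {w : ℂ} (hw : F (qa α) w = 0) (hR : ‖w‖ < rv R0) :
    ∃ k < n - 1, ∀ x ∈ L k, α ∈ Icc (rv (Pc.dec x).lo) (rv (Pc.dec x).hi) →
      ∃ h : ℂ, ‖h‖ ≤ rv (Pc.dec x).e' ∧ w = tp (Pc.dec x).c (Pc.dec x).lam (α - rv (Pc.dec x).a) h := by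
  obtain ⟨ZZ, h5, h6, h4⟩ := S.sys' hβ (h1.trans h2) H
  obtain ⟨k, hk, hwk⟩ := h6 α ⟨h1, h2⟩ w hw (hR.trans_le (h5.top α ⟨h1, h2⟩))
  refine ⟨k, hk, fun x hx hxα => ?_⟩
  obtain ⟨h, e1, -, e3⟩ := IsTube.spec (S.hT k (by omega) x hx) (Pc.abs_le hxα)
  refine ⟨h, e1, ?_⟩
  rw [hwk, h4 k (by omega) x hx α hxα]
  exact e3

theorem rv_R0 : rv 54975581388800 = 50 := by
  unfold rv
  norm_num

theorem rv_hi : Real.pi ≤ rv 3454217652358 := by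
  have h := Real.pi_lt_d20
  unfold rv
  refine h.le.trans ?_
  norm_num

theorem rv_hi' : rv 3454217652357 ≤ Real.pi := by
  have h := Real.pi_gt_d20
  unfold rv
  refine le_trans ?_ h.le
  norm_num

theorem rv_lo : rv 87960930000 < 2 / 25 := by
  unfold rv
  norm_num

end SokalFU
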