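import Pool.Agent.Lib_MP_af4de1_fu.Data

/-!
# The order check in natural numbers

`ordN n l m = true` implies `ordOK n (l.map Pc.dec) (m.map Pc.dec) = true`.
-/

set_option autoImplicit false

namespace SokalFU

/-- `|x - y|` -/
def nd (x y : ℕ) : ℕ := Nat.add (Nat.sub x y) (Nat.sub y x)

/-- positive part of the half exponent -/
def posN (lx a e lx' a' e' X : ℕ) : ℕ :=
  Nat.add (Nat.add (Nat.mul lx X) (Nat.mul 140737488355328 a))
    (Nat.add (Nat.mul lx' a') (Nat.mul 1099511627776 (Nat.add e e')))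

/-- negative part of the half exponent -/
def negN (lx a lx' a' X : ℕ) : ℕ :=
  Nat.add (Nat.mul lx a) (Nat.add (Nat.mul lx' X) (Nat.mul 140737488355328 a'))

/-- final test, `P`, `N` positive and negative part, `n1 = |c|²`, `n2 = |c'|²` -/
def finN (P N n1 n2 : ℕ) : Bool :=
  and (Nat.ble (Nat.mul 2 N) (Nat.add (Nat.mul 2 P) 604462909807314587353088))
    (and (Nat.ble (Nat.mul 2 P) (Nat.add (Nat.mul 2 N) 1208925819614629174706176))
      (Nat.blt (Nat.mul n1 (Nat.add (Nat.pow (Nat.sub (Nat.add (Nat.mul 2 P) 604462909807314587353088) (Nat.mul 2 N)) 2)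
        1096126227998177188652763624537212264741949407232)) (Nat.mul n2 1461501637330902918203684832716283019655932542976)))

/-- `|c|²` -/
def nsN (x : ℕ) : ℕ := Nat.add (Nat.pow (nd (fld x 2) 140737488355328) 2) (Nat.pow (nd (fld x 3) 140737488355328) 2)

/-- the test at a point -/
def endN (x y X : ℕ) : Bool :=
  finN (posN (fld x 4) (fld x 0) (fld x 6) (fld y 4) (fld y 0) (fld y 6) X)
    (negN (fld x 4) (fld x 0) (fld y 4) (fld y 0) X) (nsN x) (nsN y)

/-- maximum -/
def mxN (x y : ℕ) : ℕ := Nat.add x (Nat.sub y x)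

/-- minimum -/
def mnN (x y : ℕ) : ℕ := Nat.sub x (Nat.sub x y)

/-- the test of a pair of pieces -/
def pairN (x y : ℕ) : Bool :=
  and (Nat.ble (fld x 1) (fld x 0)) (and (Nat.ble (fld y 1) (fld y 0))
    (and (endN x y (mxN (Nat.sub (fld x 0) (fld x 1)) (Nat.sub (fld y 0) (fld y 1))))
      (endN x y (mnN (Nat.add (fld x 0) (fld x 1)) (Nat.add (fld y 0) (fld y 1))))))

/-- two-pointer merge -/
def ordN : ℕ → List ℕ → List ℕ → Bool
  | 0, _, _ => false
  | n + 1, L, M =>
    match L, M with
    | x :: l, y :: m => and (pairN x y)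
      (cond (Nat.blt (Nat.add (fld y 0) (fld x 1)) (Nat.add (fld x 0) (fld y 1)))
        (match l with
        | [] => true
        | _ :: _ => ordN n l (y :: m))
      (cond (Nat.blt (Nat.add (fld x 0) (fld y 1)) (Nat.add (fld y 0) (fld x 1)))
        (match m with
        | [] => true
        | _ :: _ => ordN n (x :: l) m)
        (match l, m with
        | _ :: _, _ :: _ => ordN n l m
        | _, _ => true)))
    | _, _ => true

theorem nd_cast (x y : ℕ) : ((nd x y : ℕ) : ℤ) ^ 2 = ((x : ℤ) - y) ^ 2 := by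
  unfold nd
  rcases le_total x y with h | h
  · have : Nat.add (Nat.sub x y) (Nat.sub y x) = y - x := by
      show x - y + (y - x) = y - x
      omega
    rw [this]
    push_cast [h]
    ring
  · have : Nat.add (Nat.sub x y) (Nat.sub y x) = x - y := by
      show x - y + (y - x) = x - y
      omega
    rw [this]
    push_cast [h]
    ring

theorem sfld_eq (x i : ℕ) : sfld x i = (fld x i : ℤ) - 2 ^ 47 := by
  unfold sfld
  rw [Int.subNatNat_eq_coe]
  norm_num

theorem nsN_cast (x : ℕ) : ((nsN x : ℕ) : ℤ) = (Pc.dec x).cx ^ 2 + (Pc.dec x).cy ^ 2 := by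
  have h1 : (Pc.dec x).cx = (fld x 2 : ℤ) - 2 ^ 47 := sfld_eq x 2
  have h2 : (Pc.dec x).cy = (fld x 3 : ℤ) - 2 ^ 47 := sfld_eq x 3
  have h3 : nsN x = nd (fld x 2) 140737488355328 ^ 2 + nd (fld x 3) 140737488355328 ^ 2 := rfl
  rw [h1, h2, h3]
  push_cast
  rw [nd_cast, nd_cast]
  norm_num

theorem endN_spec {x y X : ℕ} (h : endN x y X = true) : endOK (Pc.dec x) (Pc.dec y) (X : ℤ) = true := by
  unfold endN finN at h
  simp only [Bool.and_eq_true] at h
  obtain ⟨h1, h2, h3⟩ := h
  set P := posN (fld x 4) (fld x 0) (fld x 6) (fld y 4) (fld y 0) (fld y 6) X with hP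
  set N := negN (fld x 4) (fld x 0) (fld y 4) (fld y 0) X with hN
  replace h1 : 2 * N ≤ 2 * P + 604462909807314587353088 := Nat.le_of_ble_eq_true h1
  replace h2 : 2 * P ≤ 2 * N + 1208925819614629174706176 := Nat.le_of_ble_eq_true h2
  replace h3 : nsN x * ((2 * P + 604462909807314587353088 - 2 * N) ^ 2 +
      1096126227998177188652763624537212264741949407232) <
      nsN y * 1461501637330902918203684832716283019655932542976 := by
    have := Nat.le_of_ble_eq_true h3
    exact this
  have hE : expo (Pc.dec x) (Pc.dec y) (X : ℤ) = 2 * (P : ℤ) - 2 * (N : ℤ) := by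
    have e1 : (Pc.dec x).lx = (fld x 4 : ℤ) - 2 ^ 47 := sfld_eq x 4
    have e2 : (Pc.dec y).lx = (fld y 4 : ℤ) - 2 ^ 47 := sfld_eq y 4
    have e3 : (Pc.dec x).a = (fld x 0 : ℤ) := rfl
    have e4 : (Pc.dec y).a = (fld y 0 : ℤ) := rfl
    have e5 : (Pc.dec x).e' = (fld x 6 : ℤ) := rfl
    have e6 : (Pc.dec y).e' = (fld y 6 : ℤ) := rfl
    have e7 : P = fld x 4 * X + 140737488355328 * fld x 0 +
        (fld y 4 * fld y 0 + 1099511627776 * (fld x 6 + fld y 6)) := rfl
    have e8 : N = fld x 4 * fld x 0 + (fld y 4 * X + 140737488355328 * fld y 0) := rfl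
    rw [expo, e1, e2, e3, e4, e5, e6, e7, e8]
    push_cast
    ring
  unfold endOK
  simp only [hE, Bool.and_eq_true, decide_eq_true_eq]
  have k1 : (2 * (N : ℤ)) ≤ 2 * P + 604462909807314587353088 := by exact_mod_cast h1
  have k2 : (2 * (P : ℤ)) ≤ 2 * N + 1208925819614629174706176 := by exact_mod_cast h2
  have k3 : ((nsN x : ℕ) : ℤ) * ((2 * (P : ℤ) + 604462909807314587353088 - 2 * N) ^ 2 +
      1096126227998177188652763624537212264741949407232) <
      ((nsN y : ℕ) : ℤ) * 1461501637330902918203684832716283019655932542976 := by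
    have := Int.ofNat_lt.2 h3
    push_cast [h1] at this
    exact this
  refine ⟨⟨?_, ?_⟩, ?_⟩
  · norm_num
    linarith
  · norm_num
    linarith
  · rw [← nsN_cast, ← nsN_cast]
    calc _ = ((nsN x : ℕ) : ℤ) * ((2 * (P : ℤ) + 604462909807314587353088 - 2 * N) ^ 2 +
        1096126227998177188652763624537212264741949407232) := by ring
      _ < _ := k3
      _ = _ := by norm_num

theorem pairN_spec {x y : ℕ} (h : pairN x y = true) : pairOK (Pc.dec x) (Pc.dec y) = true := by
  unfold pairN at h
  simp only [Bool.and_eq_true] at h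
  obtain ⟨h1, h2, h3, h4⟩ := h
  replace h1 : fld x 1 ≤ fld x 0 := Nat.le_of_ble_eq_true h1
  replace h2 : fld y 1 ≤ fld y 0 := Nat.le_of_ble_eq_true h2
  have e1 : (Pc.dec x).lo = ((fld x 0 - fld x 1 : ℕ) : ℤ) := by
    show ((fld x 0 : ℕ) : ℤ) - ((fld x 1 : ℕ) : ℤ) = _
    push_cast [h1]
    ring
  have e2 : (Pc.dec y).lo = ((fld y 0 - fld y 1 : ℕ) : ℤ) := by
    show ((fld y 0 : ℕ) : ℤ) - ((fld y 1 : ℕ) : ℤ) = _
    push_cast [h2]
    ring
  have e3 : (Pc.dec x).hi = ((fld x 0 + fld x 1 : ℕ) : ℤ) := by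
    show ((fld x 0 : ℕ) : ℤ) + ((fld x 1 : ℕ) : ℤ) = _
    push_cast
    ring
  have e4 : (Pc.dec y).hi = ((fld y 0 + fld y 1 : ℕ) : ℤ) := by
    show ((fld y 0 : ℕ) : ℤ) + ((fld y 1 : ℕ) : ℤ) = _
    push_cast
    ring
  have m1 : max (Pc.dec x).lo (Pc.dec y).lo =
      ((mxN (Nat.sub (fld x 0) (fld x 1)) (Nat.sub (fld y 0) (fld y 1)) : ℕ) : ℤ) := by
    rw [e1, e2, ← Nat.cast_max]
    congr 1
    show _ = (fld x 0 - fld x 1) + ((fld y 0 - fld y 1) - (fld x 0 - fld x 1))
    omega
  have m2 : min (Pc.dec x).hi (Pc.dec y).hi =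
      ((mnN (Nat.add (fld x 0) (fld x 1)) (Nat.add (fld y 0) (fld y 1)) : ℕ) : ℤ) := by
    rw [e3, e4, ← Nat.cast_min]
    congr 1
    show _ = (fld x 0 + fld x 1) - ((fld x 0 + fld x 1) - (fld y 0 + fld y 1))
    omega
  unfold pairOK
  rw [Bool.and_eq_true, m1, m2]
  exact ⟨endN_spec h3, endN_spec h4⟩

theorem blt_iff (x y : ℕ) : Nat.blt x y = true ↔ x < y := by
  constructor
  · intro h
    exact Nat.le_of_ble_eq_true h
  · intro h
    exact Nat.ble_eq_true_of_le h

theorem ordN_spec : ∀ (n : ℕ) (l m : List ℕ), ordN n l m = true → ordOK n (l.map Pc.dec) (m.map Pc.dec) = true := by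
  intro n
  induction n with
  | zero =>
    intro l m h
    simp [ordN] at h
  | succ n ih =>
    intro l m h
    cases l with
    | nil => simp [ordOK]
    | cons x l =>
      cases m with
      | nil => simp [ordOK]
      | cons y m =>
        unfold ordN at h
        simp only [Bool.and_eq_true] at h
        obtain ⟨h1, h2⟩ := h
        have c1 : (Pc.dec y).lo < (Pc.dec x).lo ↔ fld y 0 + fld x 1 < fld x 0 + fld y 1 := by
          show ((fld y 0 : ℕ) : ℤ) - ((fld y 1 : ℕ) : ℤ) < ((fld x 0 : ℕ) : ℤ) - ((fld x 1 : ℕ) : ℤ) ↔ _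
          omega
        have c2 : (Pc.dec x).lo < (Pc.dec y).lo ↔ fld x 0 + fld y 1 < fld y 0 + fld x 1 := by
          show ((fld x 0 : ℕ) : ℤ) - ((fld x 1 : ℕ) : ℤ) < ((fld y 0 : ℕ) : ℤ) - ((fld y 1 : ℕ) : ℤ) ↔ _
          omega
        simp only [List.map_cons]
        unfold ordOK
        simp only [Bool.and_eq_true]
        refine ⟨pairN_spec h1, ?_⟩
        by_cases b1 : (Pc.dec y).lo < (Pc.dec x).lo
        · rw [if_pos b1]
          have : Nat.blt (Nat.add (fld y 0) (fld x 1)) (Nat.add (fld x 0) (fld y 1)) = true := (blt_iff _ _).2 (c1.1 b1)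
          rw [this] at h2
          simp only [cond_true] at h2
          cases l with
          | nil => rfl
          | cons x' l => exact ih (x' :: l) (y :: m) h2
        · rw [if_neg b1]
          have : Nat.blt (Nat.add (fld y 0) (fld x 1)) (Nat.add (fld x 0) (fld y 1)) = false := by
            rw [← Bool.not_eq_true, blt_iff]
            exact fun h => b1 (c1.2 h)
          rw [this] at h2
          simp only [cond_false] at h2
          by_cases b2 : (Pc.dec x).lo < (Pc.dec y).lo
          · rw [if_pos b2]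
            have : Nat.blt (Nat.add (fld x 0) (fld y 1)) (Nat.add (fld y 0) (fld x 1)) = true := (blt_iff _ _).2 (c2.1 b2)
            rw [this] at h2
            simp only [cond_true] at h2
            cases m with
            | nil => rfl
            | cons y' m => exact ih (x :: l) (y' :: m) h2
          · rw [if_neg b2]
            have : Nat.blt (Nat.add (fld x 0) (fld y 1)) (Nat.add (fld y 0) (fld x 1)) = false := by
              rw [← Bool.not_eq_true, blt_iff]
              exact fun h => b2 (c2.2 h)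
            rw [this] at h2
            simp only [cond_false] at h2
            cases l with
            | nil => rfl
            | cons x' l =>
              cases m with
              | nil => rfl
              | cons y' m => exact ih (x' :: l) (y' :: m) h2

end SokalFU
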