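import Pool.Agent.Lib_MP_af4de1_fu.OrdN

/-!
# The junction check in natural numbers

`juncN x y = true` implies `junc (Pc.dec x) (Pc.dec y) = true`.  Gaussian integers `x + iy` are residues `x + y Y`
modulo `Y ^ 2 + 1`, `Y = 2 ^ 440`.
-/

set_option autoImplicit false

namespace SokalFU

/-- `Y = 2 ^ 440` -/
def jY : ℕ := 2839213766779714416208296124562517712318911565184836172974571090549372219192960637992933791850638927971728600024477257552869537611776
/-- the modulus `Y ^ 2 + 1` -/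
def jM : ℕ := 8061134813471454564702450331367746071149403778627342561766978592325956765086744071570087522699847227396765060321916636335485039665263146015175460486800225477728068298324662539195732386420081192825687147647265448061340763744378078290380812053940375922997109693874177
/-- `-(1 + Y)` -/
def jE : ℕ := 8061134813471454564702450331367746071149403778627342561766978592325956765086744071570087522699847227396765060321916636335485039665260306801408680772384017181603505780612343627630547550247106621735137775428072487423347829952527439362409083453915898665444240156262400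
/-- `-2 ^ 47 (1 + Y)` -/
def jC : ℕ := 1134503866941667986143541334648056457619674836471095626110665786221268201568912028156408931347775536033476809532312754097331684299884324619517186888430170070977385272661670845958953490805038765145373393535558082029179706948933208788309446007452582146950203204656068611095606067200
/-- `-D₁` -/
def jD : ℕ := 8061134813471454564702450331367746071149403778627342561766978592325956765086744071570087522699847227396765060321916636335485039665263146015175460486799373238595631329722926004476769471799587105142339296532583186313591155733344489178416704961406511056040881129783297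
/-- `(2 ^ 47 D₁ + H) (1 + Y)` -/
def jK : ℕ := 4030907947699081863553656657396941335465930990728834686363913005679343375511052444135316255876531217529817820571268536407526925959481616204167468577777647866859888299497676915187112277797663280600698508803688722329119795714623767685350082916817861598663253484896256
/-- `H = Y / 2` -/
def jH : ℕ := 1419606883389857208104148062281258856159455782592418086487285545274686109596480318996466895925319463985864300012238628776434768805888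
/-- `D_1` -/
def jD1 : ℕ := 852239132436968601736534718962914620494087683347851114682261747749608011033589111964107092533864866956228564090880
/-- `D_2` -/
def jD2 : ℕ := 775106975594979850699505476734807071347029417072782157158382458646527094091278842792332482107544698880
/-- `D_3` -/
def jD3 : ℕ := 352477843805436282627627168374059270421198296877620194735928843623026793507633029909053440
/-- `D_4` -/
def jD4 : ℕ := 106858910477796684253197832844931711837246226083037434587194743054177644052480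
/-- `D_5` -/
def jD5 : ℕ := 24296903229195932966194466836198378550135709265995827669756805120
/-- `D_6` -/
def jD6 : ℕ := 4419580951288650424647942934134039851439540009959424
/-- `D_7` -/
def jD7 : ℕ := 669930909875597599943518758381293666304
/-- `D_8` -/
def jD8 : ℕ := 87042659012253300578844672
/-- `D_9` -/
def jD9 : ℕ := 9895604649984
/-- `D₁ ^ 2` -/
def jDD : ℕ := 726311538856916907901337642057218885728770734213801445466353762680893261463193075628991600789468397196941587104942259020723424468891502421889210340691663853448264163723749538309419929882885411539506423793192827466199800899174400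

/-- one step of the Horner scheme -/
def hstep (v D z : ℕ) : ℕ := Nat.mod (Nat.add D (Nat.mul v z)) jM

/-- the Horner scheme -/
def hN (v : ℕ) : ℕ :=
  hstep v jD1 (hstep v jD2 (hstep v jD3 (hstep v jD4 (hstep v jD5 (hstep v jD6 (hstep v jD7
    (hstep v jD8 (hstep v jD9 1))))))))

/-- the first coordinate of `v`, unsigned -/
def vA (x y : ℕ) (i : ℕ) : ℕ :=
  Nat.div (Nat.add (Nat.mul (fld y i) (fld y 1)) (Nat.mul (fld x i) (fld x 1))) 1099511627776

/-- the bias of `v` -/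
def vB (x y : ℕ) : ℕ := Nat.mul 128 (Nat.add (fld x 1) (fld y 1))

/-- `v` as a residue -/
def vN (x y : ℕ) : ℕ :=
  Nat.add (Nat.add (vA x y 4) (Nat.mul (vA x y 5) jY)) (Nat.mul (vB x y) jE)

/-- `c` with unsigned coordinates -/
def cN (x : ℕ) : ℕ := Nat.add (fld x 2) (Nat.mul (fld x 3) jY)

/-- the residue of `(X + H) + (Y + H) i` -/
def zN (x y v : ℕ) : ℕ :=
  Nat.mod (Nat.add (Nat.add (Nat.mul (Nat.add (cN y) jC) (hN v)) (Nat.mul (cN x) jD)) jK) jM

/-- `X ^ 2 + Y ^ 2` -/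
def qN (z : ℕ) : ℕ := Nat.add (Nat.pow (nd (Nat.mod z jY) jH) 2) (Nat.pow (nd (Nat.div z jY) jH) 2)

/-- the last comparison, `k = x (2 ^ 40 - x)` -/
def fN (k q n : ℕ) : Bool :=
  and (Nat.ble 1152921504606846976 k)
    (Nat.ble (Nat.mul q 1461501637330902918203684832716283019655932542976)
      (Nat.mul (Nat.pow (Nat.sub k 1152921504606846976) 2) (Nat.mul n jDD)))

/-- conditions on the radii -/
def eN (e' e q n : ℕ) : Bool :=
  and (Nat.ble (Nat.add e' 2) e) (and (Nat.ble (Nat.sub e (Nat.add e' 2)) 1099511627776)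
    (fN (Nat.mul (Nat.sub e (Nat.add e' 2)) (Nat.sub 1099511627776 (Nat.sub e (Nat.add e' 2)))) q n))

/-- the junction test in natural numbers -/
def juncN (x y : ℕ) : Bool :=
  and (Nat.beq (Nat.add (Nat.add (fld y 0) (fld y 1)) (fld x 1)) (fld x 0))
    (and (Nat.ble (Nat.add (Nat.pow (nd (vA x y 4) (vB x y)) 2) (Nat.pow (nd (vA x y 5) (vB x y)) 2))
      1208925819614629174706176)
    (and (Nat.ble (nsN y) (Nat.mul 4 (nsN x)))
      (eN (fld y 6) (fld x 7) (qN (zN x y (vN x y))) (nsN x))))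

/-! ### Correctness -/

/-- `n` represents `x + iy` -/
def Rel (n : ℕ) (x y : ℤ) : Prop := (n : ℤ) ≡ x + y * (jY : ℤ) [ZMOD (jY : ℤ) ^ 2 + 1]

theorem jM_eq : jM = jY ^ 2 + 1 := by norm_num [jM, jY]

theorem Rel.mul {m n : ℕ} {a b c d : ℤ} (h1 : Rel m a b) (h2 : Rel n c d) : Rel (m * n) (a * c - b * d) (a * d + b * c) := by
  unfold Rel at *
  have h3 := h1.mul h2
  push_cast
  refine h3.trans ?_
  rw [Int.modEq_iff_dvd]
  exact ⟨-(b * d), by ring⟩

theorem Rel.add {m n : ℕ} {a b c d : ℤ} (h1 : Rel m a b) (h2 : Rel n c d) : Rel (m + n) (a + c) (b + d) := by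
  unfold Rel at *
  have h3 := Int.ModEq.add h1 h2
  push_cast
  refine h3.trans ?_
  rw [Int.modEq_iff_dvd]
  exact ⟨0, by ring⟩

theorem Rel.mod {m : ℕ} {a b : ℤ} (h : Rel m a b) : Rel (m % jM) a b := by
  rw [jM_eq]
  unfold Rel at *
  refine Int.ModEq.trans ?_ h
  push_cast
  exact Int.mod_modEq _ _

theorem Rel.nat (m : ℕ) : Rel m m 0 := by
  unfold Rel
  rw [zero_mul, add_zero]

theorem Rel.of_dvd {m : ℕ} {a b : ℤ} (k : ℤ) (h : (m : ℤ) = a + b * (jY : ℤ) + k * ((jY : ℤ) ^ 2 + 1)) : Rel m a b := by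
  unfold Rel
  rw [h, Int.modEq_iff_dvd]
  exact ⟨-k, by ring⟩

theorem jM_pos : 0 < jM := by rw [jM_eq]; positivity

theorem hstep_eq (v D z : ℕ) : hstep v D z = (D + v * z) % jM := rfl

theorem Rel.hstep {v z : ℕ} {vx vy zx zy : ℤ} (D : ℕ) (hv : Rel v vx vy) (hz : Rel z zx zy) :
    Rel (hstep v D z) ((D : ℤ) + (vx * zx - vy * zy)) (vx * zy + vy * zx) := by
  rw [hstep_eq]
  have h1 := (Rel.nat D).add (hv.mul hz)
  rw [zero_add] at h1
  exact h1.mod

/-- the Horner scheme, relation and bound -/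
theorem hN_spec {v : ℕ} {vx vy : ℤ} (hv : Rel v vx vy) :
    Rel (hN v) (hor vx vy [1, 2, 3, 4, 5, 6, 7, 8, 9]).1 (hor vx vy [1, 2, 3, 4, 5, 6, 7, 8, 9]).2.1 := by
  have key : ∀ (j : ℤ) (l : List ℤ) (D z : ℕ), Rel z (hor vx vy l).1 (hor vx vy l).2.1 →
      (D : ℤ) = (hor vx vy l).2.2 * (j * 2 ^ 40) → Rel (hstep v D z) (hor vx vy (j :: l)).1 (hor vx vy (j :: l)).2.1 := by
    intro j l D z hz hD
    have h1 := Rel.hstep D hv hz
    rw [hD] at h1
    exact h1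
  have hd : ∀ j l, (hor vx vy (j :: l)).2.2 = (hor vx vy l).2.2 * (j * 2 ^ 40) := fun _ _ => rfl
  have h0 : (hor vx vy []).2.2 = 1 := rfl
  have r0 : Rel 1 (hor vx vy []).1 (hor vx vy []).2.1 := Rel.nat 1
  have r9 := key 9 [] jD9 1 r0 (by rw [h0]; norm_num [jD9])
  have r8 := key 8 [9] jD8 _ r9 (by simp only [hd, h0]; norm_num [jD8])
  have r7 := key 7 [8, 9] jD7 _ r8 (by simp only [hd, h0]; norm_num [jD7])
  have r6 := key 6 [7, 8, 9] jD6 _ r7 (by simp only [hd, h0]; norm_num [jD6])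
  have r5 := key 5 [6, 7, 8, 9] jD5 _ r6 (by simp only [hd, h0]; norm_num [jD5])
  have r4 := key 4 [5, 6, 7, 8, 9] jD4 _ r5 (by simp only [hd, h0]; norm_num [jD4])
  have r3 := key 3 [4, 5, 6, 7, 8, 9] jD3 _ r4 (by simp only [hd, h0]; norm_num [jD3])
  have r2 := key 2 [3, 4, 5, 6, 7, 8, 9] jD2 _ r3 (by simp only [hd, h0]; norm_num [jD2])
  exact key 1 [2, 3, 4, 5, 6, 7, 8, 9] jD1 _ r2 (by simp only [hd, h0]; norm_num [jD1])

theorem abs_step {vx vy x y D b : ℤ} (hx : |vx| ≤ 2 ^ 40) (hy : |vy| ≤ 2 ^ 40) (h1 : |x| ≤ b) (h2 : |y| ≤ b)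
    (hD : 0 ≤ D) : |D + (vx * x - vy * y)| ≤ D + 2 ^ 41 * b ∧ |vx * y + vy * x| ≤ D + 2 ^ 41 * b := by
  have hb : 0 ≤ b := (abs_nonneg x).trans h1
  have m : ∀ u w : ℤ, |u| ≤ 2 ^ 40 → |w| ≤ b → |u * w| ≤ 2 ^ 40 * b := fun u w hu hw => by
    rw [abs_mul]
    exact mul_le_mul hu hw (abs_nonneg _) (by norm_num)
  have m1 := m vx x hx h1
  have m2 := m vy y hy h2
  have m3 := m vx y hx h2
  have m4 := m vy x hy h1
  constructor
  · have a1 := abs_add_le D (vx * x - vy * y)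
    have a2 := abs_sub (vx * x) (vy * y)
    rw [abs_of_nonneg hD] at a1
    linarith
  · have a1 := abs_add_le (vx * y) (vy * x)
    linarith

theorem hor_bound {vx vy : ℤ} (hx : |vx| ≤ 2 ^ 40) (hy : |vy| ≤ 2 ^ 40) :
    |(hor vx vy [1, 2, 3, 4, 5, 6, 7, 8, 9]).1| ≤ 8 * 362880 * (2 ^ 40) ^ 9 ∧
    |(hor vx vy [1, 2, 3, 4, 5, 6, 7, 8, 9]).2.1| ≤ 8 * 362880 * (2 ^ 40) ^ 9 := by
  have key : ∀ (j : ℤ) (l : List ℤ) (b : ℤ), 0 ≤ (hor vx vy l).2.2 * (j * 2 ^ 40) →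
      |(hor vx vy l).1| ≤ b → |(hor vx vy l).2.1| ≤ b →
      |(hor vx vy (j :: l)).1| ≤ (hor vx vy l).2.2 * (j * 2 ^ 40) + 2 ^ 41 * b ∧
      |(hor vx vy (j :: l)).2.1| ≤ (hor vx vy l).2.2 * (j * 2 ^ 40) + 2 ^ 41 * b := by
    intro j l b hD h1 h2
    exact abs_step hx hy h1 h2 hD
  have hd : ∀ j l, (hor vx vy (j :: l)).2.2 = (hor vx vy l).2.2 * (j * 2 ^ 40) := fun _ _ => rfl
  have h0 : (hor vx vy []).2.2 = 1 := rfl
  have b0 : |(hor vx vy []).1| ≤ 1 ∧ |(hor vx vy []).2.1| ≤ 1 := by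
    constructor
    · show |(1 : ℤ)| ≤ 1
      norm_num
    · show |(0 : ℤ)| ≤ 1
      norm_num
  have b9 := key 9 [] _ (by simp only [h0]; norm_num) b0.1 b0.2
  have b8 := key 8 [9] _ (by simp only [hd, h0]; norm_num) b9.1 b9.2
  have b7 := key 7 [8, 9] _ (by simp only [hd, h0]; norm_num) b8.1 b8.2
  have b6 := key 6 [7, 8, 9] _ (by simp only [hd, h0]; norm_num) b7.1 b7.2
  have b5 := key 5 [6, 7, 8, 9] _ (by simp only [hd, h0]; norm_num) b6.1 b6.2
  have b4 := key 4 [5, 6, 7, 8, 9] _ (by simp only [hd, h0]; norm_num) b5.1 b5.2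
  have b3 := key 3 [4, 5, 6, 7, 8, 9] _ (by simp only [hd, h0]; norm_num) b4.1 b4.2
  have b2 := key 2 [3, 4, 5, 6, 7, 8, 9] _ (by simp only [hd, h0]; norm_num) b3.1 b3.2
  have b1 := key 1 [2, 3, 4, 5, 6, 7, 8, 9] _ (by simp only [hd, h0]; norm_num) b2.1 b2.2
  simp only [hd, h0] at b1
  constructor
  · exact b1.1.trans (by norm_num)
  · exact b1.2.trans (by norm_num)

theorem fld_lt (x i : ℕ) : fld x i < 2 ^ 48 := Nat.mod_lt _ (by norm_num)

theorem sfld_abs (x i : ℕ) : |sfld x i| ≤ 2 ^ 47 := by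
  have h := fld_lt x i
  rw [sfld_eq, abs_le]
  constructor
  · have : (0 : ℤ) ≤ (fld x i : ℤ) := Int.natCast_nonneg _
    linarith
  · have : (fld x i : ℤ) < 2 ^ 48 := by exact_mod_cast h
    norm_num at this ⊢
    linarith

theorem nd_eq (x y : ℕ) : ((nd x y : ℕ) : ℤ) = |(x : ℤ) - y| := by
  have h : nd x y = x - y + (y - x) := rfl
  rw [h]
  rcases le_total x y with h1 | h1
  · rw [abs_of_nonpos (by have : (x : ℤ) ≤ y := by exact_mod_cast h1
                          linarith)]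
    omega
  · rw [abs_of_nonneg (by have : (y : ℤ) ≤ x := by exact_mod_cast h1
                          linarith)]
    omega

/-- the coordinates of `v` -/
theorem vA_eq (x y i : ℕ) : ((vA x y i : ℕ) : ℤ) - ((vB x y : ℕ) : ℤ) =
    (sfld y i * (fld y 1 : ℤ) + sfld x i * (fld x 1 : ℤ)) / 2 ^ 40 := by
  have h1 : vA x y i = (fld y i * fld y 1 + fld x i * fld x 1) / 1099511627776 := rfl
  have h2 : vB x y = 128 * (fld x 1 + fld y 1) := rfl
  rw [h1, h2, sfld_eq, sfld_eq]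
  have e : (((fld y i : ℤ) - 2 ^ 47) * (fld y 1 : ℤ) + ((fld x i : ℤ) - 2 ^ 47) * (fld x 1 : ℤ)) =
      ((fld y i : ℤ) * (fld y 1 : ℤ) + (fld x i : ℤ) * (fld x 1 : ℤ)) +
        2 ^ 40 * (-(128 * ((fld x 1 : ℤ) + (fld y 1 : ℤ)))) := by ring
  rw [e, Int.add_mul_ediv_left _ _ (by norm_num)]
  push_cast
  ring

theorem vN_rel (x y : ℕ) : Rel (vN x y) (((vA x y 4 : ℕ) : ℤ) - ((vB x y : ℕ) : ℤ))
    (((vA x y 5 : ℕ) : ℤ) - ((vB x y : ℕ) : ℤ)) := by
  have h : vN x y = vA x y 4 + vA x y 5 * jY + vB x y * jE := rfl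
  refine Rel.of_dvd ((vB x y : ℕ) : ℤ) ?_
  rw [h]
  have e2 : ((jE : ℕ) : ℤ) = (jY : ℤ) ^ 2 - (jY : ℤ) := by norm_num [jE, jY]
  push_cast
  rw [e2]
  ring

theorem nsN_eq (x : ℕ) : ((nsN x : ℕ) : ℤ) = (Pc.dec x).cx ^ 2 + (Pc.dec x).cy ^ 2 := nsN_cast x

/-- the value `Z` -/
theorem zN_rel {x y v : ℕ} {vx vy : ℤ} (hv : Rel v vx vy) :
    Rel (zN x y v)
      ((Pc.dec y).cx * (hor vx vy [1, 2, 3, 4, 5, 6, 7, 8, 9]).1 -
        (Pc.dec y).cy * (hor vx vy [1, 2, 3, 4, 5, 6, 7, 8, 9]).2.1 -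
        (Pc.dec x).cx * (362880 * (2 ^ 40) ^ 9) + (jH : ℤ))
      ((Pc.dec y).cx * (hor vx vy [1, 2, 3, 4, 5, 6, 7, 8, 9]).2.1 +
        (Pc.dec y).cy * (hor vx vy [1, 2, 3, 4, 5, 6, 7, 8, 9]).1 -
        (Pc.dec x).cy * (362880 * (2 ^ 40) ^ 9) + (jH : ℤ)) := by
  set r := hor vx vy [1, 2, 3, 4, 5, 6, 7, 8, 9] with hr
  have hz : zN x y v = ((cN y + jC) * hN v + cN x * jD + jK) % jM := rfl
  have h1 : Rel (hN v) r.1 r.2.1 := hN_spec hv
  have ec : ∀ t, cN t = fld t 2 + fld t 3 * jY := fun _ => rfl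
  have d1 : ∀ t, (Pc.dec t).cx = (fld t 2 : ℤ) - 2 ^ 47 := fun t => sfld_eq t 2
  have d2 : ∀ t, (Pc.dec t).cy = (fld t 3 : ℤ) - 2 ^ 47 := fun t => sfld_eq t 3
  have h2 : Rel (cN y + jC) (Pc.dec y).cx (Pc.dec y).cy := by
    refine Rel.of_dvd (2 ^ 47) ?_
    have e3 : ((jC : ℕ) : ℤ) = 2 ^ 47 * ((jY : ℤ) ^ 2 - (jY : ℤ)) := by norm_num [jC, jY]
    rw [ec, d1, d2]
    push_cast
    rw [e3]
    ring
  have h3 : Rel (cN x * jD + jK) (-((Pc.dec x).cx * (362880 * (2 ^ 40) ^ 9)) + (jH : ℤ))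
      (-((Pc.dec x).cy * (362880 * (2 ^ 40) ^ 9)) + (jH : ℤ)) := by
    refine Rel.of_dvd ((fld x 2 : ℤ) + (fld x 3 : ℤ) * (jY : ℤ)) ?_
    have e4 : ((jD : ℕ) : ℤ) = (jY : ℤ) ^ 2 + 1 - (362880 * (2 ^ 40) ^ 9) := by norm_num [jD, jY]
    have e5 : ((jK : ℕ) : ℤ) = (2 ^ 47 * (362880 * (2 ^ 40) ^ 9) + (jH : ℤ)) * (1 + (jY : ℤ)) := by
      norm_num [jK, jY, jH]
    rw [ec, d1, d2]
    push_cast
    rw [e4, e5]
    ring
  have h4 := (h2.mul h1).add h3
  rw [hz, add_assoc]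
  have h5 := h4.mod
  have e6 : (Pc.dec y).cx * r.1 - (Pc.dec y).cy * r.2.1 + (-((Pc.dec x).cx * (362880 * (2 ^ 40) ^ 9)) + (jH : ℤ)) =
      (Pc.dec y).cx * r.1 - (Pc.dec y).cy * r.2.1 - (Pc.dec x).cx * (362880 * (2 ^ 40) ^ 9) + (jH : ℤ) := by ring
  have e7 : (Pc.dec y).cx * r.2.1 + (Pc.dec y).cy * r.1 + (-((Pc.dec x).cy * (362880 * (2 ^ 40) ^ 9)) + (jH : ℤ)) =
      (Pc.dec y).cx * r.2.1 + (Pc.dec y).cy * r.1 - (Pc.dec x).cy * (362880 * (2 ^ 40) ^ 9) + (jH : ℤ) := by ring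
  rw [e6, e7] at h5
  exact h5

/-- decoding -/
theorem qN_eq {z : ℕ} {X W : ℤ} (hz : z < jM) (h : Rel z (X + (jH : ℤ)) (W + (jH : ℤ))) (hX : |X| < (jH : ℤ))
    (hW : |W| < (jH : ℤ)) : ((qN z : ℕ) : ℤ) = X ^ 2 + W ^ 2 := by
  have hHY : 2 * (jH : ℤ) = (jY : ℤ) := by norm_num [jH, jY]
  have hX' := abs_lt.1 hX
  have hW' := abs_lt.1 hW
  have hY0 : (0 : ℤ) < (jY : ℤ) := by norm_num [jY]
  have hzM : (z : ℤ) < (jY : ℤ) ^ 2 + 1 := by
    have : (z : ℤ) < (jM : ℤ) := by exact_mod_cast hz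
    rw [jM_eq] at this
    push_cast at this
    exact this
  have hval0 : 0 ≤ (X + (jH : ℤ)) + (W + (jH : ℤ)) * (jY : ℤ) := by
    have : 0 ≤ (W + (jH : ℤ)) * (jY : ℤ) := mul_nonneg (by linarith) hY0.le
    linarith
  have hval1 : (X + (jH : ℤ)) + (W + (jH : ℤ)) * (jY : ℤ) < (jY : ℤ) ^ 2 + 1 := by
    have h1 : W + (jH : ℤ) ≤ (jY : ℤ) - 1 := by omega
    have h2 : (W + (jH : ℤ)) * (jY : ℤ) ≤ ((jY : ℤ) - 1) * (jY : ℤ) := mul_le_mul_of_nonneg_right h1 hY0.le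
    nlinarith
  have hzz : (z : ℤ) = (X + (jH : ℤ)) + (W + (jH : ℤ)) * (jY : ℤ) := by
    unfold Rel at h
    have h1 : (z : ℤ) % ((jY : ℤ) ^ 2 + 1) = ((X + (jH : ℤ)) + (W + (jH : ℤ)) * (jY : ℤ)) % ((jY : ℤ) ^ 2 + 1) := h
    rwa [Int.emod_eq_of_lt (Int.natCast_nonneg _) hzM, Int.emod_eq_of_lt hval0 hval1] at h1
  have hmod : ((z % jY : ℕ) : ℤ) = X + (jH : ℤ) := by
    push_cast
    rw [hzz, Int.add_mul_emod_self_right]
    exact Int.emod_eq_of_lt (by linarith) (by linarith)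
  have hdiv : ((z / jY : ℕ) : ℤ) = W + (jH : ℤ) := by
    push_cast
    rw [hzz, Int.add_mul_ediv_right _ _ hY0.ne', Int.ediv_eq_zero_of_lt (by linarith) (by linarith), zero_add]
  have hq : qN z = nd (z % jY) jH ^ 2 + nd (z / jY) jH ^ 2 := rfl
  rw [hq]
  push_cast
  rw [nd_cast, nd_cast, hmod, hdiv]
  ring

theorem fN_spec {k q n : ℕ} (h : fN k q n = true) : (2 : ℤ) ^ 60 ≤ k ∧
    (q : ℤ) * 2 ^ 160 ≤ ((k : ℤ) - 2 ^ 60) ^ 2 * ((n : ℤ) * (362880 * (2 ^ 40) ^ 9) ^ 2) := by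
  unfold fN at h
  simp only [Bool.and_eq_true] at h
  obtain ⟨h1, h2⟩ := h
  replace h1 : 1152921504606846976 ≤ k := Nat.le_of_ble_eq_true h1
  replace h2 : q * 1461501637330902918203684832716283019655932542976 ≤
      (k - 1152921504606846976) ^ 2 * (n * jDD) := Nat.le_of_ble_eq_true h2
  have e1 : ((jDD : ℕ) : ℤ) = (362880 * (2 ^ 40) ^ 9) ^ 2 := by norm_num [jDD]
  refine ⟨by norm_num; exact_mod_cast h1, ?_⟩
  have h3 : ((q * 1461501637330902918203684832716283019655932542976 : ℕ) : ℤ) ≤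
      (((k - 1152921504606846976) ^ 2 * (n * jDD) : ℕ) : ℤ) := by exact_mod_cast h2
  push_cast [h1] at h3
  rw [e1] at h3
  calc (q : ℤ) * 2 ^ 160 = (q : ℤ) * 1461501637330902918203684832716283019655932542976 := by norm_num
    _ ≤ _ := h3
    _ = _ := by norm_num

theorem eN_spec {e' e q n : ℕ} (h : eN e' e q n = true) : 0 ≤ (e : ℤ) - e' - 2 ∧ (e : ℤ) - e' - 2 ≤ 2 ^ 40 ∧
    0 ≤ ((e : ℤ) - e' - 2) * (2 ^ 40 - ((e : ℤ) - e' - 2)) - 2 ^ 60 ∧
    (q : ℤ) * 2 ^ 160 ≤ (((e : ℤ) - e' - 2) * (2 ^ 40 - ((e : ℤ) - e' - 2)) - 2 ^ 60) ^ 2 *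
      ((n : ℤ) * (362880 * (2 ^ 40) ^ 9) ^ 2) := by
  unfold eN at h
  simp only [Bool.and_eq_true] at h
  obtain ⟨h1, h2, h3⟩ := h
  replace h1 : e' + 2 ≤ e := Nat.le_of_ble_eq_true h1
  replace h2 : e - (e' + 2) ≤ 1099511627776 := Nat.le_of_ble_eq_true h2
  have h4 := fN_spec h3
  have e1 : ((Nat.mul (Nat.sub e (Nat.add e' 2)) (Nat.sub 1099511627776 (Nat.sub e (Nat.add e' 2))) : ℕ) : ℤ) =
      ((e : ℤ) - e' - 2) * (2 ^ 40 - ((e : ℤ) - e' - 2)) := by
    show (((e - (e' + 2)) * (1099511627776 - (e - (e' + 2))) : ℕ) : ℤ) = _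
    push_cast [h1, h2]
    ring
  rw [e1] at h4
  refine ⟨?_, ?_, by linarith [h4.1], h4.2⟩
  · have : ((e' : ℤ) + 2) ≤ e := by exact_mod_cast h1
    linarith
  · have : (((e - (e' + 2) : ℕ)) : ℤ) ≤ 1099511627776 := by exact_mod_cast h2
    push_cast [h1] at this
    norm_num
    linarith

/-- **The junction test in natural numbers.** -/
theorem juncN_spec {x y : ℕ} (h : juncN x y = true) : junc (Pc.dec x) (Pc.dec y) = true := by
  unfold juncN at h
  simp only [Bool.and_eq_true] at h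
  obtain ⟨h1, h2, h3, h4⟩ := h
  replace h1 : fld y 0 + fld y 1 + fld x 1 = fld x 0 := Nat.eq_of_beq_eq_true h1
  replace h2 : nd (vA x y 4) (vB x y) ^ 2 + nd (vA x y 5) (vB x y) ^ 2 ≤ 1208925819614629174706176 :=
    Nat.le_of_ble_eq_true h2
  replace h3 : nsN y ≤ 4 * nsN x := Nat.le_of_ble_eq_true h3
  obtain ⟨f1, f2, f3, f4⟩ := eN_spec h4
  set p := Pc.dec x with hp
  set q := Pc.dec y with hq
  have hvx : ((vA x y 4 : ℕ) : ℤ) - ((vB x y : ℕ) : ℤ) = (q.lx * q.d + p.lx * p.d) / 2 ^ 40 := vA_eq x y 4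
  have hvy : ((vA x y 5 : ℕ) : ℤ) - ((vB x y : ℕ) : ℤ) = (q.ly * q.d + p.ly * p.d) / 2 ^ 40 := vA_eq x y 5
  have hv := vN_rel x y
  rw [hvx, hvy] at hv
  unfold junc
  set vx := (q.lx * q.d + p.lx * p.d) / 2 ^ 40 with hvxd
  set vy := (q.ly * q.d + p.ly * p.d) / 2 ^ 40 with hvyd
  have hD := (hor_spec vx vy).1
  have hvv : vx ^ 2 + vy ^ 2 ≤ 2 ^ 80 := by
    have h5 : (((nd (vA x y 4) (vB x y) ^ 2 + nd (vA x y 5) (vB x y) ^ 2 : ℕ)) : ℤ) ≤ 1208925819614629174706176 := by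
      exact_mod_cast h2
    push_cast at h5
    rw [nd_cast, nd_cast, hvx, hvy] at h5
    norm_num
    linarith
  have hbx : |vx| ≤ 2 ^ 40 := by
    refine abs_le_of_sq_le_sq ?_ (by norm_num)
    nlinarith [sq_nonneg vy]
  have hby : |vy| ≤ 2 ^ 40 := by
    refine abs_le_of_sq_le_sq ?_ (by norm_num)
    nlinarith [sq_nonneg vx]
  have hrb := hor_bound hbx hby
  have hzr := zN_rel (x := x) (y := y) hv
  set r := hor vx vy [1, 2, 3, 4, 5, 6, 7, 8, 9] with hr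
  rw [← hp, ← hq] at hzr
  have c1 : |q.cx| ≤ 2 ^ 47 := sfld_abs y 2
  have c2 : |q.cy| ≤ 2 ^ 47 := sfld_abs y 3
  have c3 : |p.cx| ≤ 2 ^ 47 := sfld_abs x 2
  have c4 : |p.cy| ≤ 2 ^ 47 := sfld_abs x 3
  have m : ∀ u w : ℤ, |u| ≤ 2 ^ 47 → |w| ≤ 8 * 362880 * (2 ^ 40) ^ 9 → |u * w| ≤ 2 ^ 47 * (8 * 362880 * (2 ^ 40) ^ 9) :=
    fun u w hu hw => by
      rw [abs_mul]
      exact mul_le_mul hu hw (abs_nonneg _) (by norm_num)
  have hDb : |(362880 * (2 ^ 40) ^ 9 : ℤ)| ≤ 8 * 362880 * (2 ^ 40) ^ 9 := by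
    rw [abs_of_nonneg (by norm_num)]
    norm_num
  have hbX : |q.cx * r.1 - q.cy * r.2.1 - p.cx * (362880 * (2 ^ 40) ^ 9)| < (jH : ℤ) := by
    have a1 := m _ _ c1 hrb.1
    have a2 := m _ _ c2 hrb.2
    have a3 := m _ _ c3 hDb
    have a4 := abs_sub (q.cx * r.1 - q.cy * r.2.1) (p.cx * (362880 * (2 ^ 40) ^ 9))
    have a5 := abs_sub (q.cx * r.1) (q.cy * r.2.1)
    refine lt_of_le_of_lt (a4.trans (add_le_add (a5.trans (add_le_add a1 a2)) a3)) ?_
    norm_num [jH]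
  have hbW : |q.cx * r.2.1 + q.cy * r.1 - p.cy * (362880 * (2 ^ 40) ^ 9)| < (jH : ℤ) := by
    have a1 := m _ _ c1 hrb.2
    have a2 := m _ _ c2 hrb.1
    have a3 := m _ _ c4 hDb
    have a4 := abs_sub (q.cx * r.2.1 + q.cy * r.1) (p.cy * (362880 * (2 ^ 40) ^ 9))
    have a5 := abs_add_le (q.cx * r.2.1) (q.cy * r.1)
    refine lt_of_le_of_lt (a4.trans (add_le_add (a5.trans (add_le_add a1 a2)) a3)) ?_
    norm_num [jH]
  have hzlt : zN x y (vN x y) < jM := by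
    have hz : zN x y (vN x y) = ((cN y + jC) * hN (vN x y) + cN x * jD + jK) % jM := rfl
    rw [hz]
    exact Nat.mod_lt _ jM_pos
  have hqN := qN_eq hzlt hzr hbX hbW
  simp only [Bool.and_eq_true, decide_eq_true_eq]
  have g1 : q.a + q.d = p.a - p.d := by
    show ((fld y 0 : ℕ) : ℤ) + ((fld y 1 : ℕ) : ℤ) = ((fld x 0 : ℕ) : ℤ) - ((fld x 1 : ℕ) : ℤ)
    rw [← h1]
    push_cast
    ring
  have g2 : q.cx ^ 2 + q.cy ^ 2 ≤ 4 * (p.cx ^ 2 + p.cy ^ 2) := by
    have h5 : ((nsN y : ℕ) : ℤ) ≤ ((4 * nsN x : ℕ) : ℤ) := by exact_mod_cast h3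
    push_cast at h5
    rw [nsN_cast, nsN_cast] at h5
    exact h5
  have e7 : p.e - q.e' - 2 = ((fld x 7 : ℕ) : ℤ) - ((fld y 6 : ℕ) : ℤ) - 2 := rfl
  rw [e7]
  refine ⟨⟨⟨⟨⟨⟨g1, hvv⟩, f1⟩, f2⟩, f3⟩, g2⟩, ?_⟩
  rw [hqN, nsN_cast, ← hD] at f4
  exact f4

end SokalFU
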