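import Pool.Agent.Lib_MP_af4de1_fu.Asm
import Pool.Agent.Lib_MP_af4de1_fu.JuncN

/-!
# Chains of packed pieces
-/

set_option autoImplicit false

namespace SokalFU

/-- `chainOK` in natural numbers -/
def chainN : List ℕ → Bool
  | [] => true
  | x :: l => and (match l with
    | [] => true
    | y :: _ => juncN x y) (chainN l)

theorem chainN_spec : ∀ l : List ℕ, chainN l = true → chainOK (l.map Pc.dec) = true := by
  intro l
  induction l with
  | nil => intro _; rfl
  | cons x l ih =>
    intro h
    unfold chainN at h
    rw [Bool.and_eq_true] at h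
    simp only [List.map_cons]
    unfold chainOK
    simp only [Bool.and_eq_true, decide_eq_true_eq]
    have hd : 0 ≤ (Pc.dec x).d := by
      show 0 ≤ ((fld x 1 : ℕ) : ℤ)
      exact Int.natCast_nonneg _
    refine ⟨⟨hd, ?_⟩, ih h.2⟩
    cases l with
    | nil => rfl
    | cons y l => exact juncN_spec h.1

end SokalFU
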