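import Pool.Agent.Lib_MP_af4de1_fu.T.Tu0
import Pool.Agent.Lib_MP_af4de1_fu.T.Tu1
import Pool.Agent.Lib_MP_af4de1_fu.T.Tu2
import Pool.Agent.Lib_MP_af4de1_fu.T.Tu3
import Pool.Agent.Lib_MP_af4de1_fu.T.Tu4
import Pool.Agent.Lib_MP_af4de1_fu.T.Tu5
import Pool.Agent.Lib_MP_af4de1_fu.T.Tu6
import Pool.Agent.Lib_MP_af4de1_fu.T.Tu7
import Pool.Agent.Lib_MP_af4de1_fu.T.Tu8
import Pool.Agent.Lib_MP_af4de1_fu.T.Tu9
import Pool.Agent.Lib_MP_af4de1_fu.T.Tu10
import Pool.Agent.Lib_MP_af4de1_fu.T.Tu11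
import Pool.Agent.Lib_MP_af4de1_fu.T.Tu12
import Pool.Agent.Lib_MP_af4de1_fu.T.Tu13
import Pool.Agent.Lib_MP_af4de1_fu.T.Tu14
import Pool.Agent.Lib_MP_af4de1_fu.T.Tu15
import Pool.Agent.Lib_MP_af4de1_fu.T.Tu16
import Pool.Agent.Lib_MP_af4de1_fu.T.Tu17
import Pool.Agent.Lib_MP_af4de1_fu.T.Tu18
import Pool.Agent.Lib_MP_af4de1_fu.T.Tu19
import Pool.Agent.Lib_MP_af4de1_fu.T.Or0
import Pool.Agent.Lib_MP_af4de1_fu.T.Or1
import Pool.Agent.Lib_MP_af4de1_fu.T.Or2
import Pool.Agent.Lib_MP_af4de1_fu.T.Or3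
import Pool.Agent.Lib_MP_af4de1_fu.T.Or4
import Pool.Agent.Lib_MP_af4de1_fu.T.Or5
import Pool.Agent.Lib_MP_af4de1_fu.T.Or6
import Pool.Agent.Lib_MP_af4de1_fu.T.Or7
import Pool.Agent.Lib_MP_af4de1_fu.T.Last
import Pool.Agent.Lib_MP_af4de1_fu.T.ClsOk

/-!
# F3: the zeros of modulus at most 50 over `[2/25, π]`
-/

set_option autoImplicit false

namespace SokalFU

open Set SokalF

/-- the table of all tubes -/
def tbl : List (List ℕ) := [dat1, dat2, dat3, dat4, dat5, dat6, dat7, dat8, dat9, dat10, dat11, dat12, dat13, dat14, dat15, dat16, dat17, dat18, dat19, dat20, dat21, dat22, dat23, dat24, dat25, dat26, dat27, dat28, dat29, dat30, dat31, dat32, dat33, dat34, dat35, dat36, dat37, dat38, dat39, dat40, dat41, dat42, dat43, dat44, dat45, dat46, dat47, dat48, dat49, dat50, dat51, dat52, dat53, dat54, dat55]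

theorem tbl_T : ∀ L ∈ tbl, ∀ x ∈ L, (Pc.dec x).T := by
  simp only [tbl, List.forall_mem_cons, List.not_mem_nil, false_imp_iff, implies_true, and_true]
  exact ⟨flats_T goodK_spec blks_ok tu1, flats_T goodK_spec blks_ok tu2, flats_T goodK_spec blks_ok tu3, flats_T goodK_spec blks_ok tu4, flats_T goodK_spec blks_ok tu5, flats_T goodK_spec blks_ok tu6, flats_T goodK_spec blks_ok tu7, flats_T goodK_spec blks_ok tu8, flats_T goodK_spec blks_ok tu9, flats_T goodK_spec blks_ok tu10, flats_T goodK_spec blks_ok tu11, flats_T goodK_spec blks_ok tu12, flats_T goodK_spec blks_ok tu13, flats_T goodK_spec blks_ok tu14, flats_T goodK_spec blks_ok tu15, flats_T goodK_spec blks_ok tu16, flats_T goodK_spec blks_ok tu17, flats_T goodK_spec blks_ok tu18, flats_T goodK_spec blks_ok tu19, flats_T goodK_spec blks_ok tu20, flats_T goodK_spec blks_ok tu21, flats_T goodK_spec blks_ok tu22, flats_T goodK_spec blks_ok tu23, flats_T goodK_spec blks_ok tu24, flats_T goodK_spec blks_ok tu25, flats_T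 goodK_spec blks_ok tu26, flats_T goodK_spec blks_ok tu27, flats_T goodK_spec blks_ok tu28, flats_T goodK_spec blks_ok tu29, flats_T goodK_spec blks_ok tu30, flats_T goodK_spec blks_ok tu31, flats_T goodK_spec blks_ok tu32, flats_T goodK_spec blks_ok tu33, flats_T goodK_spec blks_ok tu34, flats_T goodK_spec blks_ok tu35, flats_T goodK_spec blks_ok tu36, flats_T goodK_spec blks_ok tu37, flats_T goodK_spec blks_ok tu38, flats_T goodK_spec blks_ok tu39, flats_T goodK_spec blks_ok tu40, flats_T goodK_spec blks_ok tu41, flats_T goodK_spec blks_ok tu42, flats_T goodK_spec blks_ok tu43, flats_T goodK_spec blks_ok tu44, flats_T goodK_spec blks_ok tu45, flats_T goodK_spec blks_ok tu46, flats_T goodK_spec blks_ok tu47, flats_T goodK_spec blks_ok tu48, flats_T goodK_spec blks_ok tu49, flats_T goodK_spec blks_ok tu50, flats_T goodK_spec blks_ok tu51, flats_T goodK_spec blks_ok tu52, flats_T goodK_spec blks_ok tu53, flats_T goodK_spec blks_ok tu54, flats_T goodK_spec blks_ok tu55⟩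

theorem tbl_C : ∀ L ∈ tbl, chainOK (L.map Pc.dec) = true := by
  simp only [tbl, List.forall_mem_cons, List.not_mem_nil, false_imp_iff, implies_true, and_true]
  exact ⟨chainN_spec _ ch1, chainN_spec _ ch2, chainN_spec _ ch3, chainN_spec _ ch4, chainN_spec _ ch5, chainN_spec _ ch6, chainN_spec _ ch7, chainN_spec _ ch8, chainN_spec _ ch9, chainN_spec _ ch10, chainN_spec _ ch11, chainN_spec _ ch12, chainN_spec _ ch13, chainN_spec _ ch14, chainN_spec _ ch15, chainN_spec _ ch16, chainN_spec _ ch17, chainN_spec _ ch18, chainN_spec _ ch19, chainN_spec _ ch20, chainN_spec _ ch21, chainN_spec _ ch22, chainN_spec _ ch23, chainN_spec _ ch24, chainN_spec _ ch25, chainN_spec _ ch26, chainN_spec _ ch27, chainN_spec _ ch28, chainN_spec _ ch29, chainN_spec _ ch30, chainN_spec _ ch31, chainN_spec _ ch32, chainN_spec _ ch33, chainN_spec _ ch34, chainN_spec _ ch35, chainN_spec _ ch36, chainN_spec _ ch37, chainN_spec _ ch38, chainN_spec _ ch39, chainN_spec _ ch40, chainN_spec _ ch41,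 chainN_spec _ ch42, chainN_spec _ ch43, chainN_spec _ ch44, chainN_spec _ ch45, chainN_spec _ ch46, chainN_spec _ ch47, chainN_spec _ ch48, chainN_spec _ ch49, chainN_spec _ ch50, chainN_spec _ ch51, chainN_spec _ ch52, chainN_spec _ ch53, chainN_spec _ ch54, chainN_spec _ ch55⟩

theorem tbl_E : ∀ L ∈ tbl, endsOK 87960930000 3454217652358 L = true := by
  simp only [tbl, List.forall_mem_cons, List.not_mem_nil, false_imp_iff, implies_true, and_true]
  exact ⟨en1, en2, en3, en4, en5, en6, en7, en8, en9, en10, en11, en12, en13, en14, en15, en16, en17, en18, en19, en20, en21, en22, en23, en24, en25, en26, en27, en28, en29, en30, en31, en32, en33, en34, en35, en36, en37, en38, en39, en40, en41, en42, en43, en44, en45, en46, en47, en48, en49, en50, en51, en52, en53, en54, en55⟩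

theorem tbl_ord : tbl.IsChain (fun a b => ordN 4000 a b = true) := by
  simp only [tbl, List.isChain_cons_cons, List.isChain_singleton, and_true]
  exact ⟨or1, or2, or3, or4, or5, or6, or7, or8, or9, or10, or11, or12, or13, or14, or15, or16, or17, or18, or19, or20, or21, or22, or23, or24, or25, or26, or27, or28, or29, or30, or31, or32, or33, or34, or35, or36, or37, or38, or39, or40, or41, or42, or43, or44, or45, or46, or47, or48, or49, or50, or51, or52, or53, or54⟩

theorem tbl_ok : ListsOK 54975581388800 95805945686261 87960930000 3454217652358 3454217652357 55 4000 (fun k => tbl.getD k []) :=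
  listsOK_of_tbl (last := dat55) rfl (by norm_num) (by norm_num) (by norm_num) (by unfold rv; norm_num) rv_hi rv_hi'
    tbl_T tbl_C tbl_E tbl_ord rfl last_ok

/-- **F3.** -/
theorem dist_F3 (H : ∀ α r : ℝ, 2 / 25 ≤ α → α ≤ Real.pi → 50 ≤ r → Dist α r) :
    ∀ α r : ℝ, 2 / 25 ≤ α → α ≤ Real.pi → r ≤ 50 → Dist α r := by
  have h := tbl_ok.dist (β := 2 / 25) rv_lo.le (fun α r h1 h2 h3 => H α r h1 h2 (by rwa [rv_R0] at h3))
  intro α r h1 h2 h3
  exact h α r h1 h2 (by rwa [rv_R0])

end SokalFU
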