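import Mathlib
import Pool.Agent.Lib_MP_af4de1_f1.GTay

/-!
# Scalar inequalities for the heights, `exp · sin/cos` [FU-M14a, b, c]

All checked numerically.  Slope `1/2` (case A), slope `5/2` (case B), vertical (case R).
-/

set_option autoImplicit false

namespace SokalFU

open Real

private theorem MScal_e5 {x : ℝ} (hx : 0 ≤ x) :
    1 + x + x ^ 2 / 2 + x ^ 3 / 6 + x ^ 4 / 24 + x ^ 5 / 120 ≤ exp x := by
  have h := Real.sum_le_exp_of_nonneg hx 6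
  norm_num [Finset.sum_range_succ, Nat.factorial] at h
  linarith

private theorem MScal_en5 {x : ℝ} (hx : 0 ≤ x) :
    1 - x + x ^ 2 / 2 - x ^ 3 / 6 + x ^ 4 / 24 - x ^ 5 / 120 ≤ exp (-x) := by
  have h := SokalF1G.nonneg_of_deriv
    (f := fun x => exp (-x) - (1 - x + x ^ 2 / 2 - x ^ 3 / 6 + x ^ 4 / 24 - x ^ 5 / 120))
    (f' := fun x => (1 - x + x ^ 2 / 2 - x ^ 3 / 6 + x ^ 4 / 24) - exp (-x)) (fun y => by
      have h1 := (SokalF1G.hasDerivAt_expneg y).sub ((((((hasDerivAt_const y (1 : ℝ)).sub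
        (hasDerivAt_id y)).add ((hasDerivAt_pow 2 y).div_const 2)).sub
        ((hasDerivAt_pow 3 y).div_const 6)).add ((hasDerivAt_pow 4 y).div_const 24)).sub
        ((hasDerivAt_pow 5 y).div_const 120))
      refine h1.congr_deriv ?_
      push_cast
      ring) (by simp) (fun y hy => sub_nonneg.2 (SokalF1G.en_le4 hy)) hx
  simpa using h

/-! ### Case A -/

theorem scA_sin_right {t : ℝ} (h0 : 0 ≤ t) (h1 : t ≤ 6 / 5) :
    1 / 2 * t ^ 2 ≤ exp t * sin (t / 2) - t / 2 := by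
  have he := SokalF1G.e_ge3 h0
  have hs := SokalF1G.sin_ge3 (x := t / 2) (by positivity)
  have h3 : 0 ≤ t ^ 3 := by positivity
  have h4 : t ^ 4 ≤ 6 / 5 * t ^ 3 := by nlinarith
  have h5 : t ^ 5 ≤ 6 / 5 * t ^ 4 := by nlinarith [pow_nonneg h0 4]
  have hs0 : 0 ≤ t / 2 - (t / 2) ^ 3 / 6 := by nlinarith [mul_nonneg h0 h0]
  have hp : (1 + t + t ^ 2 / 2) * (t / 2 - (t / 2) ^ 3 / 6) ≤ exp t * sin (t / 2) :=
    mul_le_mul (by linarith) hs hs0 (exp_pos t).le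
  nlinarith

theorem scA_cos_right {t : ℝ} (h0 : 0 ≤ t) (h1 : t ≤ 6 / 5) :
    37 / 100 * t ^ 2 ≤ exp t * cos (t / 2) - 1 - t := by
  have he := MScal_e5 h0
  have hc := SokalF1G.cos_ge6 (x := t / 2) (by positivity)
  have h2 : 0 ≤ t ^ 2 := by positivity
  have h3 : 0 ≤ t ^ 3 := by positivity
  have h8 : 0 ≤ t ^ 8 := by positivity
  have h9 : 0 ≤ t ^ 9 := by positivity
  have k3 : t ^ 3 ≤ 6 / 5 * t ^ 2 := by nlinarith
  have k4 : t ^ 4 ≤ 6 / 5 * t ^ 3 := by nlinarith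
  have k5 : t ^ 5 ≤ 6 / 5 * t ^ 4 := by nlinarith [pow_nonneg h0 4]
  have k6 : t ^ 6 ≤ 6 / 5 * t ^ 5 := by nlinarith [pow_nonneg h0 5]
  have k7 : t ^ 7 ≤ 6 / 5 * t ^ 6 := by nlinarith [pow_nonneg h0 6]
  have k9 : t ^ 9 ≤ 6 / 5 * t ^ 8 := by nlinarith
  have k10 : t ^ 10 ≤ 6 / 5 * t ^ 9 := by nlinarith
  have k11 : t ^ 11 ≤ 6 / 5 * t ^ 10 := by nlinarith [pow_nonneg h0 10]
  have hc0 : 0 ≤ 1 - (t / 2) ^ 2 / 2 + (t / 2) ^ 4 / 24 - (t / 2) ^ 6 / 720 := by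
    have e1 : t ^ 2 ≤ 36 / 25 := by nlinarith
    nlinarith [pow_nonneg h0 4]
  have hp : (1 + t + t ^ 2 / 2 + t ^ 3 / 6 + t ^ 4 / 24 + t ^ 5 / 120) *
      (1 - (t / 2) ^ 2 / 2 + (t / 2) ^ 4 / 24 - (t / 2) ^ 6 / 720) ≤ exp t * cos (t / 2) :=
    mul_le_mul he hc hc0 (exp_pos t).le
  have e : (1 + t + t ^ 2 / 2 + t ^ 3 / 6 + t ^ 4 / 24 + t ^ 5 / 120) *
      (1 - (t / 2) ^ 2 / 2 + (t / 2) ^ 4 / 24 - (t / 2) ^ 6 / 720) =
      1 + t + 3 / 8 * t ^ 2 + t ^ 3 / 24 - 7 / 384 * t ^ 4 - 19 / 1920 * t ^ 5 +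
        (-(1 / 192) + 1 / 768 - 1 / 46080) * t ^ 6 +
        (-(1 / 960) + 1 / 2304 - 1 / 46080) * t ^ 7 +
        (1 / 9216 - 1 / 92160) * t ^ 8 + (1 / 46080 - 1 / 276480) * t ^ 9 -
        t ^ 10 / 1105920 - t ^ 11 / 5529600 := by ring
  rw [e] at hp
  linarith

theorem scA_sin_left {t : ℝ} (h0 : 0 ≤ t) (h1 : t ≤ 1) :
    32 / 100 * t ^ 2 ≤ t / 2 - exp (-t) * sin (t / 2) := by
  have he := SokalF1G.en_le4 h0
  have hs := SokalF1G.sin_le5 (x := t / 2) (by positivity)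
  have hs0 : 0 ≤ sin (t / 2) := sin_nonneg_of_nonneg_of_le_pi (by positivity)
    (by linarith [pi_gt_three])
  have hE0 : 0 ≤ 1 - t + t ^ 2 / 2 - t ^ 3 / 6 + t ^ 4 / 24 := (exp_pos (-t)).le.trans he
  have hp : exp (-t) * sin (t / 2) ≤ (1 - t + t ^ 2 / 2 - t ^ 3 / 6 + t ^ 4 / 24) *
      (t / 2 - (t / 2) ^ 3 / 6 + (t / 2) ^ 5 / 120) := mul_le_mul he hs hs0 hE0
  have e : (1 - t + t ^ 2 / 2 - t ^ 3 / 6 + t ^ 4 / 24) *
      (t / 2 - (t / 2) ^ 3 / 6 + (t / 2) ^ 5 / 120) =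
      t / 2 - t ^ 2 * (1 / 2 - 11 / 48 * t + t ^ 2 / 16 - (1 / 48 - 1 / 96 + 1 / 3840) * t ^ 3 -
        (1 / 288 - 1 / 3840) * t ^ 4 + (1 / 1152 - 1 / 7680) * t ^ 5 + t ^ 6 / 23040 -
        t ^ 7 / 92160) := by ring
  have k3 : t ^ 3 ≤ t ^ 2 := by nlinarith [sq_nonneg t]
  have k4 : t ^ 4 ≤ t ^ 3 := by nlinarith [pow_nonneg h0 3]
  have k7 : t ^ 7 ≤ t ^ 6 := by nlinarith [pow_nonneg h0 6]
  have k6 : 0 ≤ t ^ 6 := by positivity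
  have b5 : 5 * t - 4 ≤ t ^ 5 := by
    nlinarith [mul_nonneg (sq_nonneg (t - 1)) (by positivity : 0 ≤ t ^ 3 + 2 * t ^ 2 + 3 * t + 4)]
  have hq : 0 ≤ 1 / 2 - 11 / 48 * t + t ^ 2 / 16 - (1 / 48 - 1 / 96 + 1 / 3840) * t ^ 3 -
        (1 / 288 - 1 / 3840) * t ^ 4 + (1 / 1152 - 1 / 7680) * t ^ 5 + t ^ 6 / 23040 -
        t ^ 7 / 92160 - 32 / 100 := by
    nlinarith [mul_nonneg (sub_nonneg.2 h1) (by linarith : 0 ≤ 176 / 1000 - 486 / 10000 * t),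
      mul_nonneg (sub_nonneg.2 h1) h0]
  rw [e] at hp
  nlinarith [mul_nonneg (sq_nonneg t) hq]

theorem scA_cos_left {t : ℝ} (h0 : 0 ≤ t) (h1 : t ≤ 1) :
    32 / 100 * t ^ 2 ≤ exp (-t) * cos (t / 2) - 1 + t := by
  have he := MScal_en5 h0
  have hc := SokalF1G.cos_ge2 (x := t / 2)
  have hc0 : 0 ≤ 1 - (t / 2) ^ 2 / 2 := by nlinarith
  have hp : (1 - t + t ^ 2 / 2 - t ^ 3 / 6 + t ^ 4 / 24 - t ^ 5 / 120) * (1 - (t / 2) ^ 2 / 2) ≤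
      exp (-t) * cos (t / 2) := mul_le_mul he hc hc0 (exp_pos _).le
  have e : (1 - t + t ^ 2 / 2 - t ^ 3 / 6 + t ^ 4 / 24 - t ^ 5 / 120) * (1 - (t / 2) ^ 2 / 2) =
      1 - t + t ^ 2 * (3 / 8 - t / 24 - t ^ 2 / 48 + t ^ 3 / 80 - t ^ 4 / 192 + t ^ 5 / 960) := by
    ring
  have k4 : t ^ 4 ≤ t ^ 3 := by nlinarith [pow_nonneg h0 3]
  have b3 : 3 * t - 2 ≤ t ^ 3 := by
    nlinarith [mul_nonneg (sq_nonneg (t - 1)) (by positivity : 0 ≤ t + 2)]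
  have b5 : 5 * t - 4 ≤ t ^ 5 := by
    nlinarith [mul_nonneg (sq_nonneg (t - 1)) (by positivity : 0 ≤ t ^ 3 + 2 * t ^ 2 + 3 * t + 4)]
  have hq : 0 ≤ 3 / 8 - t / 24 - t ^ 2 / 48 + t ^ 3 / 80 - t ^ 4 / 192 + t ^ 5 / 960 -
      32 / 100 := by
    nlinarith [mul_nonneg (sub_nonneg.2 h1) h0]
  rw [e] at hp
  nlinarith [mul_nonneg (sq_nonneg t) hq]

theorem scA_sin_far {t : ℝ} (h0 : 0 ≤ t) : 0 ≤ t / 2 - exp (-t) * sin (t / 2) := by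
  have h1 : sin (t / 2) ≤ t / 2 := sin_le (by positivity)
  have h2 : exp (-t) ≤ 1 := exp_le_one_iff.2 (by linarith)
  have h3 := exp_pos (-t)
  have h4 : exp (-t) * sin (t / 2) ≤ exp (-t) * (t / 2) := mul_le_mul_of_nonneg_left h1 h3.le
  have h5 : exp (-t) * (t / 2) ≤ 1 * (t / 2) := mul_le_mul_of_nonneg_right h2 (by positivity)
  linarith

theorem scA_cos_far {t : ℝ} (h0 : 0 ≤ t) : 0 ≤ exp (-t) * cos (t / 2) - 1 + t := by
  rcases le_total t 1 with h1 | h1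
  · have := scA_cos_left h0 h1
    nlinarith [sq_nonneg t]
  · rcases le_total t 3 with h3 | h3
    · have h4 : 0 ≤ cos (t / 2) := cos_nonneg_of_neg_pi_div_two_le_of_le (by linarith [pi_gt_three])
        (by linarith [pi_gt_three])
      have := mul_nonneg (exp_pos (-t)).le h4
      linarith
    · have h4 : exp (-t) ≤ 1 := exp_le_one_iff.2 (by linarith)
      have h5 := neg_one_le_cos (t / 2)
      have h6 : exp (-t) * (-1) ≤ exp (-t) * cos (t / 2) :=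
        mul_le_mul_of_nonneg_left h5 (exp_pos _).le
      linarith

theorem scA_sin_side {x : ℝ} (h0 : 6 / 5 ≤ x) : 0 ≤ exp x * sin (3 / 5) - 3 / 5 := by
  have h1 := add_one_le_exp x
  have h2 := SokalF1G.sin_ge3 (x := 3 / 5) (by norm_num)
  have h3 : (1 / 2 : ℝ) ≤ sin (3 / 5) := by
    refine le_trans ?_ h2
    norm_num
  nlinarith

theorem scA_cos_side {x : ℝ} (h0 : 6 / 5 ≤ x) : 0 ≤ exp x * cos (3 / 5) - 1 - x := by
  have h1 := SokalF1G.e_ge3 (x := x) (by linarith)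
  have h2 := SokalF1G.cos_ge2 (x := 3 / 5)
  have h3 : (82 / 100 : ℝ) ≤ cos (3 / 5) := by
    refine le_trans ?_ h2
    norm_num
  have h4 : 1 + x + x ^ 2 / 2 ≤ exp x := by
    have : 0 ≤ x ^ 3 := pow_nonneg (by linarith) 3
    linarith
  have h5 : (1 + x + x ^ 2 / 2) * (82 / 100) ≤ exp x * cos (3 / 5) :=
    mul_le_mul h4 h3 (by norm_num) (exp_pos x).le
  nlinarith

end SokalFU
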