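import Pool.Agent.Lib_MP_af4de1_fu.MGen
import Pool.Agent.Lib_MP_af4de1_fu.MElem
import Pool.Agent.Lib_MP_af4de1_fu.MScal

/-!
# Case A: hypotheses of the general estimate

`h = -(α + iβ)`, `d = -(1 + i/2)`.  `right` (`v = t(1+i/2)`): `t²/2 + α(e^t sin(t/2) - t/2) + β(e^t cos(t/2) - 1 - t)`.
`left` (`v = -t(1+i/2)`): `t²/2 + α(t/2 - e^(-t) sin(t/2)) + β(e^(-t) cos(t/2) - 1 + t)`; `far`: `t²/2 ≥ 1/2 + (t-1)`.
`side` (`v = x + 3i/5`, `x = 6/5 + u`): `3x/5 + α(e^x sin(3/5) - 3/5) + β(e^x cos(3/5) - 1 - x)`.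
`k2`, `k3`: `taylor2_ball`, `taylor3_ball` with `r = (6/5)‖d‖ = 1.3417` (`2(e^r-1-r)/r² = 1.6486`, `6(..)/r³ = 1.4502`).
-/

set_option autoImplicit false

namespace SokalFU

open Complex

private theorem hypA_exp : Real.exp (27 / 20) ≤ 387 / 100 := by
  have h1 : Real.exp (27 / 40) ≤ 1967 / 1000 := by
    have h2 := Real.exp_bound' (x := 27 / 40) (by norm_num) (by norm_num) (n := 7) (by norm_num)
    refine h2.trans ?_
    simp only [Finset.sum_range_succ, Finset.sum_range_zero, Nat.factorial]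
    norm_num
  have h3 : Real.exp (27 / 20) = Real.exp (27 / 40) * Real.exp (27 / 40) := by
    rw [← Real.exp_add]
    norm_num
  rw [h3]
  have h4 := Real.exp_pos (27 / 40 : ℝ)
  nlinarith

private theorem hypA_ff (α β x y : ℝ) : ff (-(α + β * I)) (x + y * I) =
    x * y + α * (Real.exp x * Real.sin y - y) + β * (Real.exp x * Real.cos y - 1 - x) := by
  have h1 : (-((α : ℂ) + β * I)) = ((-α : ℝ) : ℂ) + ((-β : ℝ) : ℂ) * I := by
    push_cast
    ring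
  rw [h1, ff_eq]
  ring

private theorem hypA_norm (t : ℝ) (h0 : 0 ≤ t) (h1 : t ≤ 6 / 5) :
    ‖-((t : ℂ) * (-(1 + ((1 / 2 : ℝ) : ℂ) * I)))‖ = t * ‖(-(1 + ((1 / 2 : ℝ) : ℂ) * I))‖ ∧
      t * ‖(-(1 + ((1 / 2 : ℝ) : ℂ) * I))‖ ≤ 27 / 20 := by
  constructor
  · rw [norm_neg, norm_mul, Complex.norm_real, Real.norm_of_nonneg h0]
  · have h2 : ‖(-(1 + ((1 / 2 : ℝ) : ℂ) * I))‖ ^ 2 = 5 / 4 := by
      rw [norm_neg, ← Complex.normSq_eq_norm_sq]
      have h3 := Complex.normSq_add_mul_I 1 (1 / 2)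
      rw [Complex.ofReal_one] at h3
      rw [h3]
      norm_num
    have h4 := norm_nonneg (-(1 + ((1 / 2 : ℝ) : ℂ) * I))
    have h5 : (t * ‖(-(1 + ((1 / 2 : ℝ) : ℂ) * I))‖) ^ 2 ≤ (27 / 20) ^ 2 := by
      rw [mul_pow, h2]
      nlinarith
    exact le_of_sq_le_sq₀ h5
where
  le_of_sq_le_sq₀ {x : ℝ} (h : x ^ 2 ≤ (27 / 20) ^ 2) : x ≤ 27 / 20 :=
    (abs_le_of_sq_le_sq' h (by norm_num)).2

theorem hyp_A {δ α β : ℝ} (hδ : 0 < δ) (hδ' : δ ≤ 9 / 80) (hα : 0 ≤ α) (hα' : α ≤ 127 / 100)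
    (hβ : 0 ≤ β) (hβ' : β ≤ 26 / 10) :
    Hyp δ (-(α + β * I)) (-(1 + (1 / 2 : ℝ) * I)) (6 / 5) 1 1 (1 / 2 + 32 / 100 * α + 32 / 100 * β)
      (1 / 2 + 1 / 2 * α + 37 / 100 * β) (1 / 2) 1 (18 / 25) (3 / 5) (17 / 10) (3 / 2) where
  δpos := hδ
  h_ne := by
    intro h
    have h1 := congrArg Complex.re h
    simp at h1
    linarith
  d_ne := by
    intro h
    have h1 := congrArg Complex.re h
    simp at h1
  d_re := by simp
  τpos := by norm_num
  Tpos := by norm_num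
  TT := le_rfl
  cppos := by positivity
  cmpos := by positivity
  lpos := by norm_num
  Bpos := by norm_num
  bpos := by norm_num
  σgt := by linarith
  K2pos := by norm_num
  K3pos := by norm_num
  quad := by
    intro t
    have h1 : (1 - -((α : ℂ) + β * I)) * ((t : ℂ) * (-(1 + ((1 / 2 : ℝ) : ℂ) * I))) ^ 2 / 2 =
        ((t ^ 2 * (3 / 8 * (1 + α) - β / 2) : ℝ) : ℂ) +
          ((t ^ 2 * (1 / 2 + 1 / 2 * α + 3 / 8 * β) : ℝ) : ℂ) * I := by
      push_cast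
      linear_combination ((t : ℂ) ^ 2 * (1 + α) / 8 + (t : ℂ) ^ 2 * β / 2 + (t : ℂ) ^ 2 * β / 8 * I) * I_sq
    rw [h1, add_im, ofReal_im, im_ofReal_mul, I_im, mul_one, zero_add]
    have h2 : 0 ≤ t ^ 2 := sq_nonneg t
    rcases le_total (1 / 2 + 32 / 100 * α + 32 / 100 * β) (1 / 2 + 1 / 2 * α + 37 / 100 * β) with h | h
    · rw [max_eq_right h]
      nlinarith [mul_nonneg hβ h2]
    · rw [max_eq_left h]
      nlinarith [mul_nonneg hβ h2, mul_nonneg hα h2]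
  right := by
    intro t h0 h1
    have e : -((t : ℂ) * (-(1 + ((1 / 2 : ℝ) : ℂ) * I))) = (t : ℂ) + ((t / 2 : ℝ) : ℂ) * I := by
      push_cast
      ring
    rw [e, hypA_ff]
    have h2 := mul_le_mul_of_nonneg_left (scA_sin_right h0 h1) hα
    have h3 := mul_le_mul_of_nonneg_left (scA_cos_right h0 h1) hβ
    nlinarith
  left := by
    intro t h0 h1
    have e : (t : ℂ) * (-(1 + ((1 / 2 : ℝ) : ℂ) * I)) = ((-t : ℝ) : ℂ) + ((-(t / 2) : ℝ) : ℂ) * I := by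
      push_cast
      ring
    rw [e, hypA_ff, Real.sin_neg, Real.cos_neg]
    have h2 := mul_le_mul_of_nonneg_left (scA_sin_left h0 h1) hα
    have h3 := mul_le_mul_of_nonneg_left (scA_cos_left h0 h1) hβ
    nlinarith
  far := by
    intro t h1
    have h0 : 0 ≤ t := by linarith
    have e : (t : ℂ) * (-(1 + ((1 / 2 : ℝ) : ℂ) * I)) = ((-t : ℝ) : ℂ) + ((-(t / 2) : ℝ) : ℂ) * I := by
      push_cast
      ring
    rw [e, hypA_ff, Real.sin_neg, Real.cos_neg, max_eq_left (by linarith)]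
    have h2 := mul_nonneg hα (scA_sin_far h0)
    have h3 := mul_nonneg hβ (scA_cos_far h0)
    nlinarith [sq_nonneg (t - 1)]
  side := by
    intro u h0
    have e : -(((6 / 5 : ℝ) : ℂ) * (-(1 + ((1 / 2 : ℝ) : ℂ) * I))) + u =
        ((6 / 5 + u : ℝ) : ℂ) + ((3 / 5 : ℝ) : ℂ) * I := by
      push_cast
      ring
    rw [e, hypA_ff]
    have h2 := mul_nonneg hα (scA_sin_side (x := 6 / 5 + u) (by linarith))
    have h3 := mul_nonneg hβ (scA_cos_side (x := 6 / 5 + u) (by linarith))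
    nlinarith
  k2 := by
    intro t h0 h1
    obtain ⟨h2, h3⟩ := hypA_norm t h0 h1
    have h4 := taylor2_ball (v := -((t : ℂ) * (-(1 + ((1 / 2 : ℝ) : ℂ) * I)))) (r := 27 / 20)
      (K := 17 / 10) (by norm_num) (by rw [h2]; exact h3) (by have := hypA_exp; linarith)
    rw [h2] at h4
    exact h4
  k3 := by
    intro t h0 h1
    obtain ⟨h2, h3⟩ := hypA_norm t h0 h1
    have h4 := taylor3_ball (v := -((t : ℂ) * (-(1 + ((1 / 2 : ℝ) : ℂ) * I)))) (r := 27 / 20)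
      (K := 3 / 2) (by norm_num) (by rw [h2]; exact h3) (by have := hypA_exp; linarith)
    rw [h2] at h4
    exact h4

end SokalFU
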