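import Pool.Agent.Lib_MP_af4de1_fu.MMon
import Pool.Agent.Lib_MP_af4de1_fu.MHypA

/-!
# Case A: the estimate [FU-M19]

`gen_fin` with `hyp_A`, `k = 1/10`.  `H² = α² + β²`, `κ² = (1+α)² + β² ≥ 1 + H²`, `κ ≤ 3.46`, `q² = 5/4`, `cp ≥ .39 κ` (`κ` is convex: check the four vertices),
`cm ≥ .5 κ`, `cp, cm ≥ 1/2`; hence `H/κ^(3/2) ≤ .6205`, `H/κ² ≤ 1/2`.
`lowErr ≤ .014649 H (1/cp² + 1.5/cm²) + 1.11804 [δ₀ e^(-4.444) + ..] + .0004 ≤ .1843 H/κ² + .0052 ≤ .0974`,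
`upErr ≤ .011685 (cp^(-3/2) + 1.7 cm^(-3/2)) + .0012 + .0017 ≤ .1042 κ^(-3/2) + .0029`.
To show: `H upErr ≤ .1 κ (.84077/√κ - lowErr)`: `.1042·.6205 + .0029 √(κ²-1) ≤ .1 κ (.84077/√κ - .0974)` for `1.2 ≤ κ ≤ 3.46`; for `κ ≤ 1.2` with
`H ≤ √(κ²-1) ≤ .67`.
-/

set_option autoImplicit false

namespace SokalFU

open Complex

private theorem estA_exp_cubic {x : ℝ} (hx : 0 ≤ x) : 1 + x + x ^ 2 / 2 + x ^ 3 / 6 ≤ Real.exp x := by
  have h := Real.sum_le_exp_of_nonneg hx 4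
  simp only [Finset.sum_range_succ, Finset.sum_range_zero, pow_zero, pow_one, Nat.factorial] at h
  norm_num at h
  linarith

private theorem estA_e1 : Real.exp (-(1 / 2) / (9 / 80)) ≤ 1 / 84 := by
  have h1 := estA_exp_cubic (x := 4 / 9) (by norm_num)
  have h2 : Real.exp (-(1 / 2) / (9 / 80)) = (Real.exp (4 / 9) ^ 10)⁻¹ := by
    rw [← Real.exp_nat_mul, ← Real.exp_neg]
    congr 1
    norm_num
  rw [h2, one_div]
  apply inv_anti₀ (by norm_num)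
  refine le_trans ?_ (pow_le_pow_left₀ (by norm_num) h1 10)
  norm_num

private theorem estA_e2 : Real.exp (-(18 / 25) / (9 / 80)) ≤ 1 / 576 := by
  have h1 := estA_exp_cubic (x := 16 / 25) (by norm_num)
  have h2 : Real.exp (-(18 / 25) / (9 / 80)) = (Real.exp (16 / 25) ^ 10)⁻¹ := by
    rw [← Real.exp_nat_mul, ← Real.exp_neg]
    congr 1
    norm_num
  rw [h2, one_div]
  apply inv_anti₀ (by norm_num)
  refine le_trans ?_ (pow_le_pow_left₀ (by norm_num) h1 10)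
  norm_num

private theorem estA_e3 : Real.exp (6 / 5 * 1 - (18 / 25) / (9 / 80)) ≤ 1 / 177 := by
  have h1 := estA_exp_cubic (x := 13 / 25) (by norm_num)
  have h2 : Real.exp (6 / 5 * 1 - (18 / 25) / (9 / 80)) = (Real.exp (13 / 25) ^ 10)⁻¹ := by
    rw [← Real.exp_nat_mul, ← Real.exp_neg]
    congr 1
    norm_num
  rw [h2, one_div]
  apply inv_anti₀ (by norm_num)
  refine le_trans ?_ (pow_le_pow_left₀ (by norm_num) h1 10)
  norm_num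

private theorem estA_sqrt {c κ k m : ℝ} (hk : 0 < k) (hkκ : k ^ 2 = κ) (hm : 0 < m) (hc : m * κ ≤ c) {w : ℝ}
    (hw : 0 ≤ w) (hw2 : 9 / 80 / m ≤ w ^ 2) :
    9 / 80 / c * Real.sqrt (9 / 80 / c) ≤ w ^ 3 / k ^ 3 := by
  have hκ : 0 < κ := by rw [← hkκ]; positivity
  have hc0 : 0 < c := (mul_pos hm hκ).trans_le hc
  have h1 : 9 / 80 / c ≤ w ^ 2 / k ^ 2 := by
    calc 9 / 80 / c ≤ 9 / 80 / (m * κ) := div_le_div_of_nonneg_left (by norm_num) (mul_pos hm hκ) hc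
      _ = 9 / 80 / m / k ^ 2 := by
          rw [hkκ]
          field_simp
      _ ≤ w ^ 2 / k ^ 2 := div_le_div_of_nonneg_right hw2 (by positivity)
  have h2 : Real.sqrt (9 / 80 / c) ≤ w / k := by
    apply Real.sqrt_le_iff.mpr
    refine ⟨by positivity, ?_⟩
    rw [div_pow]
    exact h1
  calc 9 / 80 / c * Real.sqrt (9 / 80 / c) ≤ w ^ 2 / k ^ 2 * (w / k) :=
        mul_le_mul h1 h2 (Real.sqrt_nonneg _) (by positivity)
    _ = w ^ 3 / k ^ 3 := by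
        field_simp

private theorem estA_cp {α β : ℝ} (hα : 0 ≤ α) (hα' : α ≤ 127 / 100) (hβ : 0 ≤ β) (hβ' : β ≤ 26 / 10) :
    (39 / 100) ^ 2 * ((1 + α) ^ 2 + β ^ 2) ≤ (1 / 2 + 32 / 100 * α + 32 / 100 * β) ^ 2 := by
  have h1 := mul_nonneg hα hβ
  have h2 := mul_nonneg hα (sub_nonneg.mpr hα')
  have h3 := mul_nonneg hβ (sub_nonneg.mpr hβ')
  have e : (1 / 2 + 32 / 100 * α + 32 / 100 * β) ^ 2 - (39 / 100) ^ 2 * ((1 + α) ^ 2 + β ^ 2) =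
      979 / 10000 - 473 / 10000 * α + (8 / 25 - 12922 / 100000) * β + 497 / 10000 * (α * (127 / 100 - α)) -
        19 / 1000000 * α + 497 / 10000 * (β * (26 / 10 - β)) + 2048 / 10000 * (α * β) := by ring
  nlinarith

private theorem estA_cm {α β : ℝ} (hα : 0 ≤ α) (hβ : 0 ≤ β) (hβ' : β ≤ 26 / 10) :
    (1 / 2) ^ 2 * ((1 + α) ^ 2 + β ^ 2) ≤ (1 / 2 + 1 / 2 * α + 37 / 100 * β) ^ 2 := by
  have h1 := mul_nonneg hα hβ
  have h3 := mul_nonneg hβ (sub_nonneg.mpr hβ')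
  nlinarith

private theorem estA_cubic {κ : ℝ} (hκ : 0 < κ) : κ ^ 2 - 1 ≤ (6245 / 10000) ^ 2 * κ ^ 3 := by
  nlinarith [mul_nonneg hκ.le (sq_nonneg (κ - 17 / 10)), sq_nonneg (κ - 17 / 10)]

private theorem estA_last {k x y : ℝ} (h1 : 1 ≤ k) (h2 : k ≤ 186 / 100)
    (hx : x ≤ 10425 / 100000 * (6245 / 10000) + 29 / 10000 * k ^ 2)
    (hy : 8407 / 100000 * k - 974 / 100000 * k ^ 2 ≤ y) : x ≤ y := by
  have a4 : 0 ≤ (k - 1) * (186 / 100 - k) := mul_nonneg (by linarith) (by linarith)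
  nlinarith

private theorem estA_H2 {H κ : ℝ} (h : 1 + H ^ 2 ≤ κ ^ 2) : H ≤ 1 / 2 * κ ^ 2 := by
  nlinarith [sq_nonneg (H - 1)]

private theorem estA_low {H κ q cp cm : ℝ} (hH : 0 ≤ H) (hκ : 0 < κ) (hHκ2 : H / κ ^ 2 ≤ 1 / 2) (hq : 0 ≤ q)
    (hqu : q ≤ 11181 / 10000) (hq4 : q ^ 4 = 25 / 16) (hcp2 : 1 / 2 ≤ cp) (hcm2 : 1 / 2 ≤ cm)
    (hcpκ : 39 / 100 * κ ≤ cp) (hcmκ : 1 / 2 * κ ≤ cm) :
    lowErr (9 / 80) H q (6 / 5) 1 1 cp cm (1 / 2) 1 (18 / 25) (3 / 5) (3 / 2) ≤ 974 / 10000 := by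
  have e1 := estA_e1
  have e2 := estA_e2
  have ecp : Real.exp (-(cp * 1 ^ 2) / (9 / 80)) ≤ 1 / 84 := by
    refine le_trans (Real.exp_le_exp.mpr ?_) e1
    apply div_le_div_of_nonneg_right _ (by norm_num)
    linarith
  have ecm : Real.exp (-(cm * (6 / 5) ^ 2) / (9 / 80)) ≤ 1 / 576 := by
    refine le_trans (Real.exp_le_exp.mpr ?_) e2
    apply div_le_div_of_nonneg_right _ (by norm_num)
    linarith
  unfold lowErr
  rw [hq4]
  have i1 : 1 / cp ^ 2 ≤ 65747 / 10000 / κ ^ 2 := by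
    rw [div_le_div_iff₀ (by positivity) (by positivity)]
    have h1 : (39 / 100 * κ) ^ 2 ≤ cp ^ 2 := pow_le_pow_left₀ (by positivity) hcpκ 2
    have h2 : (39 / 100 * κ) ^ 2 = 1521 / 10000 * κ ^ 2 := by ring
    have h3 : 0 ≤ κ ^ 2 := by positivity
    linarith
  have i2 : 3 / 2 / cm ^ 2 ≤ 6 / κ ^ 2 := by
    rw [div_le_div_iff₀ (by positivity) (by positivity)]
    have h1 : (1 / 2 * κ) ^ 2 ≤ cm ^ 2 := pow_le_pow_left₀ (by positivity) hcmκ 2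
    have h2 : (1 / 2 * κ) ^ 2 = 1 / 4 * κ ^ 2 := by ring
    linarith
  have i3 : H * (25 / 16) / 12 * (1 / cp ^ 2 + 3 / 2 / cm ^ 2) * (9 / 80) ≤ 922 / 10000 := by
    have h1 : 1 / cp ^ 2 + 3 / 2 / cm ^ 2 ≤ 125747 / 10000 / κ ^ 2 := by
      have h2 : 125747 / 10000 / κ ^ 2 = 65747 / 10000 / κ ^ 2 + 6 / κ ^ 2 := by ring
      rw [h2]
      exact add_le_add i1 i2
    have h2 : H * (1 / cp ^ 2 + 3 / 2 / cm ^ 2) ≤ 125747 / 10000 * (1 / 2) := by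
      calc H * (1 / cp ^ 2 + 3 / 2 / cm ^ 2) ≤ H * (125747 / 10000 / κ ^ 2) := mul_le_mul_of_nonneg_left h1 hH
        _ = 125747 / 10000 * (H / κ ^ 2) := by ring
        _ ≤ 125747 / 10000 * (1 / 2) := mul_le_mul_of_nonneg_left hHκ2 (by norm_num)
    linarith
  have j1 : (1 - 1 + 9 / 80 / 1) * Real.exp (-(1 / 2) / (9 / 80)) ≤ 9 / 80 * (1 / 84) := by
    have : (1 - 1 + 9 / 80 / 1 : ℝ) = 9 / 80 := by norm_num
    rw [this]
    exact mul_le_mul_of_nonneg_left e1 (by norm_num)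
  have j2 : 9 / 80 / (cp * 1) * Real.exp (-(cp * 1 ^ 2) / (9 / 80)) ≤ 9 / 40 * (1 / 84) := by
    refine mul_le_mul ?_ ecp (Real.exp_nonneg _) (by norm_num)
    rw [mul_one, div_le_iff₀ (by linarith)]
    linarith
  have j3 : 9 / 80 / (cm * (6 / 5)) * Real.exp (-(cm * (6 / 5) ^ 2) / (9 / 80)) ≤ 3 / 16 * (1 / 576) := by
    refine mul_le_mul ?_ ecm (Real.exp_nonneg _) (by norm_num)
    rw [div_le_iff₀ (by linarith)]
    linarith
  have j4 : 9 / 80 / (3 / 5) * Real.exp (-(18 / 25) / (9 / 80)) ≤ 3 / 16 * (1 / 576) := by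
    refine mul_le_mul (by norm_num) e2 (Real.exp_nonneg _) (by norm_num)
  have j5 : q * ((1 - 1 + 9 / 80 / 1) * Real.exp (-(1 / 2) / (9 / 80)) +
      9 / 80 / (cp * 1) * Real.exp (-(cp * 1 ^ 2) / (9 / 80)) +
      9 / 80 / (cm * (6 / 5)) * Real.exp (-(cm * (6 / 5) ^ 2) / (9 / 80))) ≤
      11181 / 10000 * (9 / 80 * (1 / 84) + 9 / 40 * (1 / 84) + 3 / 16 * (1 / 576)) := by
    refine mul_le_mul hqu (add_le_add (add_le_add j1 j2) j3) ?_ (by norm_num)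
    have : 0 < cp := by linarith
    have : 0 < cm := by linarith
    have : (1 - 1 + 9 / 80 / 1 : ℝ) = 9 / 80 := by norm_num
    rw [this]
    positivity
  linarith

private theorem estA_up {κ k q cp cm : ℝ} (hk : 0 < k) (hkκ : k ^ 2 = κ) (hq : 0 ≤ q)
    (hqu : q ≤ 11181 / 10000) (hq2 : q ^ 2 = 5 / 4) (hq3 : q ^ 3 = 5 / 4 * q) (hcp2 : 1 / 2 ≤ cp) (hcm2 : 1 / 2 ≤ cm)
    (hcpκ : 39 / 100 * κ ≤ cp) (hcmκ : 1 / 2 * κ ≤ cm) :
    upErr (9 / 80) q 1 (6 / 5) 1 1 cp cm (1 / 2) 1 (18 / 25) (3 / 5) (17 / 10) ≤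
      10425 / 100000 / k ^ 3 + 29 / 10000 := by
  have e1 := estA_e1
  have e3 := estA_e3
  unfold upErr
  rw [hq3]
  have hpi : Real.sqrt Real.pi ≤ 17725 / 10000 := by
    apply Real.sqrt_le_iff.mpr
    refine ⟨by norm_num, ?_⟩
    have := Real.pi_lt_d4
    linarith
  have s1 := estA_sqrt (c := cp) (w := 5371 / 10000) hk hkκ (by norm_num : (0 : ℝ) < 39 / 100) hcpκ (by norm_num)
    (by norm_num)
  have s2 := estA_sqrt (c := cm) (w := 4744 / 10000) hk hkκ (by norm_num : (0 : ℝ) < 1 / 2) hcmκ (by norm_num)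
    (by norm_num)
  have s3 : 9 / 80 / cp * Real.sqrt (9 / 80 / cp) + 17 / 10 * (9 / 80 / cm) * Real.sqrt (9 / 80 / cm) ≤
      3365 / 10000 / k ^ 3 := by
    have h1 : 17 / 10 * (9 / 80 / cm) * Real.sqrt (9 / 80 / cm) ≤ 17 / 10 * ((4744 / 10000) ^ 3 / k ^ 3) := by
      rw [mul_assoc]
      exact mul_le_mul_of_nonneg_left s2 (by norm_num)
    have h2 : (5371 / 10000) ^ 3 / k ^ 3 + 17 / 10 * ((4744 / 10000) ^ 3 / k ^ 3) ≤ 3365 / 10000 / k ^ 3 := by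
      have h3 : (5371 / 10000) ^ 3 / k ^ 3 + 17 / 10 * ((4744 / 10000) ^ 3 / k ^ 3) =
          ((5371 / 10000) ^ 3 + 17 / 10 * (4744 / 10000) ^ 3) / k ^ 3 := by ring
      rw [h3]
      exact div_le_div_of_nonneg_right (by norm_num) (by positivity)
    linarith
  have s4 : 5 / 4 * q * (Real.sqrt Real.pi / 8) ≤ 5 / 4 * (11181 / 10000) * (17725 / 10000 / 8) := by
    refine mul_le_mul ?_ ?_ (by positivity) (by norm_num)
    · linarith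
    · linarith
  have hcp0 : 0 < cp := by linarith
  have hcm0 : 0 < cm := by linarith
  have t1 : 5 / 4 * q * (Real.sqrt Real.pi / 8) *
      (9 / 80 / cp * Real.sqrt (9 / 80 / cp) + 17 / 10 * (9 / 80 / cm) * Real.sqrt (9 / 80 / cm)) ≤
      10425 / 100000 / k ^ 3 := by
    calc 5 / 4 * q * (Real.sqrt Real.pi / 8) *
        (9 / 80 / cp * Real.sqrt (9 / 80 / cp) + 17 / 10 * (9 / 80 / cm) * Real.sqrt (9 / 80 / cm))
        ≤ 5 / 4 * (11181 / 10000) * (17725 / 10000 / 8) * (3365 / 10000 / k ^ 3) :=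
          mul_le_mul s4 s3 (by positivity) (by norm_num)
      _ = (5 / 4 * (11181 / 10000) * (17725 / 10000 / 8) * (3365 / 10000)) / k ^ 3 := by ring
      _ ≤ 10425 / 100000 / k ^ 3 := div_le_div_of_nonneg_right (by norm_num) (by positivity)
  have t2 : 5 / 4 * q / 2 * ((1 ^ 3 - 1 ^ 3) / 3 +
      9 / 80 / 1 * (1 ^ 2 + 2 * 1 * (9 / 80 / 1) + 2 * (9 / 80 / 1) ^ 2)) * Real.exp (-(1 / 2) / (9 / 80)) ≤
      12 / 10000 := by
    calc 5 / 4 * q / 2 * ((1 ^ 3 - 1 ^ 3) / 3 +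
        9 / 80 / 1 * (1 ^ 2 + 2 * 1 * (9 / 80 / 1) + 2 * (9 / 80 / 1) ^ 2)) * Real.exp (-(1 / 2) / (9 / 80))
        ≤ 5 / 4 * (11181 / 10000) / 2 * ((1 ^ 3 - 1 ^ 3) / 3 +
        9 / 80 / 1 * (1 ^ 2 + 2 * 1 * (9 / 80 / 1) + 2 * (9 / 80 / 1) ^ 2)) * (1 / 84) := by
          refine mul_le_mul ?_ e1 (Real.exp_nonneg _) (by norm_num)
          refine mul_le_mul_of_nonneg_right ?_ (by norm_num)
          linarith
      _ ≤ 12 / 10000 := by norm_num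
  have t3 : Real.exp (6 / 5 * 1 - 18 / 25 / (9 / 80)) / 2 * ((6 / 5 * q) ^ 2 / (3 / 5 / (9 / 80) - 1) +
      2 * (6 / 5 * q) / (3 / 5 / (9 / 80) - 1) ^ 2 + 2 / (3 / 5 / (9 / 80) - 1) ^ 3) ≤ 17 / 10000 := by
    have u1 : (6 / 5 * q) ^ 2 / (3 / 5 / (9 / 80) - 1) +
      2 * (6 / 5 * q) / (3 / 5 / (9 / 80) - 1) ^ 2 + 2 / (3 / 5 / (9 / 80) - 1) ^ 3 ≤ 583 / 1000 := by
      rw [mul_pow, hq2]
      norm_num
      linarith
    calc Real.exp (6 / 5 * 1 - 18 / 25 / (9 / 80)) / 2 * ((6 / 5 * q) ^ 2 / (3 / 5 / (9 / 80) - 1) +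
        2 * (6 / 5 * q) / (3 / 5 / (9 / 80) - 1) ^ 2 + 2 / (3 / 5 / (9 / 80) - 1) ^ 3)
        ≤ (1 / 177) / 2 * (583 / 1000) := by
          refine mul_le_mul ?_ u1 ?_ (by norm_num)
          · linarith
          · have : (0 : ℝ) < 3 / 5 / (9 / 80) - 1 := by norm_num
            positivity
      _ ≤ 17 / 10000 := by norm_num
  linarith

/-- the numerical inequalities -/
private theorem estA_num {α β H κ k q cp cm : ℝ} (hα : 0 ≤ α) (hα' : α ≤ 127 / 100)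
    (hβ : 0 ≤ β) (hβ' : β ≤ 26 / 10) (hH : 0 ≤ H) (hH2 : H ^ 2 = α ^ 2 + β ^ 2) (hκ : 0 < κ)
    (hκ2 : κ ^ 2 = (1 + α) ^ 2 + β ^ 2) (hk : 0 < k) (hkκ : k ^ 2 = κ) (hq : 0 ≤ q) (hq2 : q ^ 2 = 5 / 4)
    (hcp : cp = 1 / 2 + 32 / 100 * α + 32 / 100 * β) (hcm : cm = 1 / 2 + 1 / 2 * α + 37 / 100 * β) :
    lowErr (9 / 80) H q (6 / 5) 1 1 cp cm (1 / 2) 1 (18 / 25) (3 / 5) (3 / 2) <
        Real.sqrt (2 * Real.pi * (9 / 80) / κ) ∧
      H * upErr (9 / 80) q 1 (6 / 5) 1 1 cp cm (1 / 2) 1 (18 / 25) (3 / 5) (17 / 10) ≤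
        1 / 10 * κ * (Real.sqrt (2 * Real.pi * (9 / 80) / κ) -
          lowErr (9 / 80) H q (6 / 5) 1 1 cp cm (1 / 2) 1 (18 / 25) (3 / 5) (3 / 2)) := by
  -- elementary facts
  have hcp2 : 1 / 2 ≤ cp := by rw [hcp]; linarith
  have hcm2 : 1 / 2 ≤ cm := by rw [hcm]; linarith
  have hcpκ : 39 / 100 * κ ≤ cp := by
    refine le_of_pow_le_pow_left₀ two_ne_zero (by linarith) ?_
    rw [mul_pow, hκ2, hcp]
    exact estA_cp hα hα' hβ hβ'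
  have hcmκ : 1 / 2 * κ ≤ cm := by
    refine le_of_pow_le_pow_left₀ two_ne_zero (by linarith) ?_
    rw [mul_pow, hκ2, hcm]
    exact estA_cm hα hβ hβ'
  have hκH : 1 + H ^ 2 ≤ κ ^ 2 := by
    rw [hκ2, hH2]
    linarith [sq_nonneg α, (by ring : (1 + α) ^ 2 = 1 + 2 * α + α ^ 2)]
  have hκ1 : 1 ≤ κ := by
    refine le_of_pow_le_pow_left₀ two_ne_zero hκ.le ?_
    linarith [sq_nonneg H]
  have hk1 : 1 ≤ k := by
    refine le_of_pow_le_pow_left₀ two_ne_zero hk.le ?_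
    linarith
  have hκ3 : κ ≤ 3458 / 1000 := by
    refine le_of_pow_le_pow_left₀ two_ne_zero (by norm_num) ?_
    rw [hκ2]
    have b1 : (1 + α) ^ 2 ≤ (227 / 100) ^ 2 := pow_le_pow_left₀ (by linarith) (by linarith) 2
    have b2 : β ^ 2 ≤ (26 / 10) ^ 2 := pow_le_pow_left₀ hβ hβ' 2
    linarith
  have hk2 : k ≤ 186 / 100 := by
    refine le_of_pow_le_pow_left₀ two_ne_zero (by norm_num) ?_
    rw [hkκ]
    linarith
  have hHκ : H ≤ κ := by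
    refine le_of_pow_le_pow_left₀ two_ne_zero hκ.le ?_
    linarith
  have hHκ2 : H / κ ^ 2 ≤ 1 / 2 := by
    rw [div_le_iff₀ (by positivity)]
    exact estA_H2 hκH
  have hHk3 : H / k ^ 3 ≤ 6245 / 10000 := by
    rw [div_le_iff₀ (by positivity)]
    refine le_of_pow_le_pow_left₀ two_ne_zero (by positivity) ?_
    have h1 : (6245 / 10000 * k ^ 3) ^ 2 = (6245 / 10000) ^ 2 * κ ^ 3 := by
      rw [← hkκ]
      ring
    rw [h1]
    have h2 := estA_cubic hκ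
    linarith
  have hqu : q ≤ 11181 / 10000 := by
    refine le_of_pow_le_pow_left₀ two_ne_zero (by norm_num) ?_
    rw [hq2]
    norm_num
  have hq3 : q ^ 3 = 5 / 4 * q := by
    rw [pow_succ, hq2]
  have hq4 : q ^ 4 = 25 / 16 := by
    have : q ^ 4 = (q ^ 2) ^ 2 := by ring
    rw [this, hq2]
    norm_num
  -- the square root
  have hsq : 8407 / 10000 / k ≤ Real.sqrt (2 * Real.pi * (9 / 80) / κ) := by
    apply Real.le_sqrt_of_sq_le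
    rw [div_pow, hkκ]
    apply div_le_div_of_nonneg_right _ hκ.le
    have := Real.pi_gt_d4
    linarith
  have hlow := estA_low hH hκ hHκ2 hq hqu hq4 hcp2 hcm2 hcpκ hcmκ
  have hup := estA_up hk hkκ hq hqu hq2 hq3 hcp2 hcm2 hcpκ hcmκ
  refine ⟨?_, ?_⟩
  · refine lt_of_le_of_lt hlow (lt_of_lt_of_le ?_ hsq)
    rw [lt_div_iff₀ hk]
    linarith
  · have a1 : H * upErr (9 / 80) q 1 (6 / 5) 1 1 cp cm (1 / 2) 1 (18 / 25) (3 / 5) (17 / 10) ≤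
        10425 / 100000 * (6245 / 10000) + 29 / 10000 * κ := by
      calc H * upErr (9 / 80) q 1 (6 / 5) 1 1 cp cm (1 / 2) 1 (18 / 25) (3 / 5) (17 / 10)
          ≤ H * (10425 / 100000 / k ^ 3 + 29 / 10000) := mul_le_mul_of_nonneg_left hup hH
        _ = 10425 / 100000 * (H / k ^ 3) + 29 / 10000 * H := by ring
        _ ≤ 10425 / 100000 * (6245 / 10000) + 29 / 10000 * κ := by
            refine add_le_add (mul_le_mul_of_nonneg_left hHk3 (by norm_num)) ?_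
            exact mul_le_mul_of_nonneg_left hHκ (by norm_num)
    have a2 : 1 / 10 * κ * (8407 / 10000 / k - 974 / 10000) ≤
        1 / 10 * κ * (Real.sqrt (2 * Real.pi * (9 / 80) / κ) -
          lowErr (9 / 80) H q (6 / 5) 1 1 cp cm (1 / 2) 1 (18 / 25) (3 / 5) (3 / 2)) :=
      mul_le_mul_of_nonneg_left (by linarith) (by positivity)
    have a3 : 1 / 10 * κ * (8407 / 10000 / k - 974 / 10000) = 8407 / 100000 * k - 974 / 100000 * k ^ 2 := by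
      rw [← hkκ]
      field_simp
      ring
    rw [a3] at a2
    rw [← hkκ] at a1
    exact estA_last hk1 hk2 a1 a2

theorem est_A {δ α β : ℝ} (hδ : 0 < δ) (hδ' : δ ≤ 9 / 80) (hα : 0 ≤ α) (hα' : α ≤ 127 / 100)
    (hβ : 0 ≤ β) (hβ' : β ≤ 26 / 10) :
    JJ δ (-(α + β * I)) (6 / 5 * (1 + (1 / 2 : ℝ) * I)) (-(1 + (1 / 2 : ℝ) * I)) (fun _ => 1) ≠ 0 ∧
    ‖JJ δ (-(α + β * I)) (6 / 5 * (1 + (1 / 2 : ℝ) * I)) (-(1 + (1 / 2 : ℝ) * I)) (fun v => v)‖ ≤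
      1 / 10 * ‖JJ δ (-(α + β * I)) (6 / 5 * (1 + (1 / 2 : ℝ) * I)) (-(1 + (1 / 2 : ℝ) * I))
        (fun _ => 1)‖ := by
  have HH := hyp_A hδ hδ' hα hα' hβ hβ'
  have hH : ‖(-(α + β * I) : ℂ)‖ ^ 2 = α ^ 2 + β ^ 2 := by
    rw [norm_neg, Complex.norm_add_mul_I, Real.sq_sqrt (by positivity)]
  have hκ : ‖(1 - -(α + β * I) : ℂ)‖ ^ 2 = (1 + α) ^ 2 + β ^ 2 := by
    have h1 : (1 - -(α + β * I) : ℂ) = ((1 + α : ℝ) : ℂ) + (β : ℝ) * I := by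
      push_cast
      ring
    rw [h1, Complex.norm_add_mul_I, Real.sq_sqrt (by positivity)]
  have hκp : 0 < ‖(1 - -(α + β * I) : ℂ)‖ := by
    rw [norm_pos_iff, sub_ne_zero]
    exact Ne.symm HH.h_ne
  have hq : ‖(-(1 + (1 / 2 : ℝ) * I) : ℂ)‖ ^ 2 = 5 / 4 := by
    have h1 : (1 + (1 / 2 : ℝ) * I : ℂ) = ((1 : ℝ) : ℂ) + ((1 / 2 : ℝ) : ℂ) * I := by
      push_cast
      ring
    rw [norm_neg, h1, Complex.norm_add_mul_I, Real.sq_sqrt (by positivity)]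
    norm_num
  have hre : |(-(1 + (1 / 2 : ℝ) * I) : ℂ).re| = 1 := by
    have h1 : (-(1 + (1 / 2 : ℝ) * I) : ℂ).re = -1 := by simp
    rw [h1, abs_neg, abs_one]
  obtain ⟨n1, n2⟩ := estA_num hα hα' hβ hβ' (norm_nonneg _) hH hκp hκ (Real.sqrt_pos.mpr hκp)
    (Real.sq_sqrt hκp.le) (norm_nonneg _) hq rfl rfl
  have key := gen_fin HH hδ' (by norm_num) (by norm_num) (by norm_num) (by norm_num : (0 : ℝ) ≤ 1 / 10) n1
    (by rw [hre]; exact n2)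
  have hp : (-(((6 / 5 : ℝ) : ℂ) * -(1 + (1 / 2 : ℝ) * I)) : ℂ) = 6 / 5 * (1 + (1 / 2 : ℝ) * I) := by
    push_cast
    ring
  rw [hp] at key
  exact key

end SokalFU
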