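import Mathlib

/-!
# Scalar inequalities for the heights, slope `5/2` (case B)

`A(u) = e^u sin(5u/2) - 5u/2 = 5u²/2 - 1.354 u³ - 2.19 u⁴ + ..`, `S(u) = 1 + u - e^u cos(5u/2) = 2.625 u² + 2.958 u³ - .107 u⁴ - 1.115 u⁵ + ..`.
Taylor polynomials of `exp(z)`, `z = (1 + 5i/2) u` with the remainder `|z|^n/n! e^(max(Re z,0))` are one way.  All checked numerically:
`A(u)/u² ∈ [.0370, 2.5]`, `S(u)/u² ≥ 2.62` on `(0,.8]`; `-A(-t)/t² .. `: see the statements (`[2.5, 2.7276]`, `≥ 1.235`).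
-/

set_option autoImplicit false

namespace SokalFU

open Real

/-- Taylor polynomials of degree 7 of `exp (x + i y)` with the error bound of `Complex.exp_bound'`. -/
private theorem tay_scb {x y : ℝ} (h : x ^ 2 + y ^ 2 ≤ 20) :
    |exp x * cos y - (1 + x + (x ^ 2 - y ^ 2) / 2 + (x ^ 3 - 3 * x * y ^ 2) / 6 +
      (x ^ 4 - 6 * x ^ 2 * y ^ 2 + y ^ 4) / 24 + (x ^ 5 - 10 * x ^ 3 * y ^ 2 + 5 * x * y ^ 4) / 120 +
      (x ^ 6 - 15 * x ^ 4 * y ^ 2 + 15 * x ^ 2 * y ^ 4 - y ^ 6) / 720 +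
      (x ^ 7 - 21 * x ^ 5 * y ^ 2 + 35 * x ^ 3 * y ^ 4 - 7 * x * y ^ 6) / 5040)| ≤
      (x ^ 2 + y ^ 2) ^ 4 / 20160 ∧
    |exp x * sin y - (y + 2 * x * y / 2 + (3 * x ^ 2 * y - y ^ 3) / 6 +
      (4 * x ^ 3 * y - 4 * x * y ^ 3) / 24 + (5 * x ^ 4 * y - 10 * x ^ 2 * y ^ 3 + y ^ 5) / 120 +
      (6 * x ^ 5 * y - 20 * x ^ 3 * y ^ 3 + 6 * x * y ^ 5) / 720 +
      (7 * x ^ 6 * y - 35 * x ^ 4 * y ^ 3 + 21 * x ^ 2 * y ^ 5 - y ^ 7) / 5040)| ≤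
      (x ^ 2 + y ^ 2) ^ 4 / 20160 := by
  obtain ⟨z, hz⟩ : ∃ z : ℂ, z = (x : ℂ) + (y : ℂ) * Complex.I := ⟨_, rfl⟩
  have hn2 : ‖z‖ ^ 2 = x ^ 2 + y ^ 2 := by
    rw [Complex.sq_norm, hz, Complex.normSq_add_mul_I]
  have hn : ‖z‖ ≤ 9 / 2 := by
    by_contra hc
    rw [not_le] at hc
    nlinarith
  have hb := Complex.exp_bound' (x := z) (n := 8) (by
    norm_num
    linarith)
  have hn8 : ‖z‖ ^ 8 / ((Nat.factorial 8 : ℕ) : ℝ) * 2 = (x ^ 2 + y ^ 2) ^ 4 / 20160 := by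
    rw [← hn2, ← pow_mul]
    norm_num [Nat.factorial]
    ring
  rw [hn8] at hb
  have hm : ∀ a b : ℝ, ((a : ℂ) + (b : ℂ) * Complex.I) * z =
      ((a * x - b * y : ℝ) : ℂ) + ((a * y + b * x : ℝ) : ℂ) * Complex.I := by
    intro a b
    rw [hz]
    push_cast
    linear_combination (b : ℂ) * y * Complex.I_sq
  have z1 : z ^ 1 = ((x : ℝ) : ℂ) + ((y : ℝ) : ℂ) * Complex.I := by rw [pow_one, hz]
  have z2 : z ^ 2 = ((x * x - y * y : ℝ) : ℂ) + ((x * y + y * x : ℝ) : ℂ) * Complex.I := by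
    rw [pow_succ, z1, hm]
  have z3 := (pow_succ z 2).trans (by rw [z2, hm])
  have z4 := (pow_succ z 3).trans (by rw [z3, hm])
  have z5 := (pow_succ z 4).trans (by rw [z4, hm])
  have z6 := (pow_succ z 5).trans (by rw [z5, hm])
  have z7 := (pow_succ z 6).trans (by rw [z6, hm])
  have hsum : ∑ m ∈ Finset.range 8, z ^ m / (m.factorial : ℂ) =
      ((1 + x + (x ^ 2 - y ^ 2) / 2 + (x ^ 3 - 3 * x * y ^ 2) / 6 +
      (x ^ 4 - 6 * x ^ 2 * y ^ 2 + y ^ 4) / 24 + (x ^ 5 - 10 * x ^ 3 * y ^ 2 + 5 * x * y ^ 4) / 120 +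
      (x ^ 6 - 15 * x ^ 4 * y ^ 2 + 15 * x ^ 2 * y ^ 4 - y ^ 6) / 720 +
      (x ^ 7 - 21 * x ^ 5 * y ^ 2 + 35 * x ^ 3 * y ^ 4 - 7 * x * y ^ 6) / 5040 : ℝ) : ℂ) +
      ((y + 2 * x * y / 2 + (3 * x ^ 2 * y - y ^ 3) / 6 +
      (4 * x ^ 3 * y - 4 * x * y ^ 3) / 24 + (5 * x ^ 4 * y - 10 * x ^ 2 * y ^ 3 + y ^ 5) / 120 +
      (6 * x ^ 5 * y - 20 * x ^ 3 * y ^ 3 + 6 * x * y ^ 5) / 720 +
      (7 * x ^ 6 * y - 35 * x ^ 4 * y ^ 3 + 21 * x ^ 2 * y ^ 5 - y ^ 7) / 5040 : ℝ) : ℂ) *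
      Complex.I := by
    simp only [Finset.sum_range_succ, Finset.sum_range_zero, zero_add]
    rw [z7, z6, z5, z4, z3, z2, z1, pow_zero]
    norm_num [Nat.factorial]
    ring
  have hexp : Complex.exp z = ((exp x * cos y : ℝ) : ℂ) + ((exp x * sin y : ℝ) : ℂ) * Complex.I := by
    rw [hz, Complex.exp_add_mul_I]
    push_cast
    ring
  rw [hsum, hexp] at hb
  constructor
  · refine le_trans (le_of_eq ?_) ((Complex.abs_re_le_norm _).trans hb)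
    simp only [Complex.sub_re, Complex.add_re, Complex.ofReal_re, Complex.mul_re, Complex.ofReal_im,
      Complex.I_re, Complex.I_im, mul_zero, zero_mul, sub_zero, add_zero]
  · refine le_trans (le_of_eq ?_) ((Complex.abs_im_le_norm _).trans hb)
    simp only [Complex.sub_im, Complex.add_im, Complex.ofReal_re, Complex.mul_im, Complex.ofReal_im,
      Complex.I_re, Complex.I_im, mul_zero, mul_one, zero_add, add_zero]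

private theorem p1_scb {u : ℝ} (h0 : 0 ≤ u) (h1 : u ≤ 4 / 5) : 0 ≤ 51 / 20 * u ^ 2 - 65 / 48 * u ^ 3 - 35 / 16 * u ^ 4 - 295 / 768 * u ^ 5
      + 923 / 2304 * u ^ 6 + 23323 / 129024 * u ^ 7 - 707281 / 5160960 * u ^
      8 := by
  obtain ⟨v, hv⟩ : ∃ v : ℝ, v = 4 / 5 - u := ⟨_, rfl⟩
  have hv0 : 0 ≤ v := by rw [hv]; linarith
  have e : 51 / 20 * u ^ 2 - 65 / 48 * u ^ 3 - 35 / 16 * u ^ 4 - 295 / 768 * u ^ 5
      + 923 / 2304 * u ^ 6 + 23323 / 129024 * u ^ 7 - 707281 / 5160960 * u ^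
      8 =
      u ^ 2 * (159375 / 16384 * v ^ 6 + 2665625 / 49152 * u ^ 1 * v ^ 5 +
      2946875 / 24576 * u ^ 2 * v ^ 4 + 2148125 / 16384 * u ^ 3 * v ^ 3 +
      2614325 / 36864 * u ^ 4 * v ^ 2 + 8033965 / 516096 * u ^ 5 * v ^ 1 +
      564997 / 2580480 * u ^ 6) := by
    rw [hv]
    ring
  rw [e]
  positivity

private theorem p2_scb {u : ℝ} (h0 : 0 ≤ u) (h1 : u ≤ 4 / 5) : 0 ≤ 65 / 48 * u ^ 3 + 35 / 16 * u ^ 4 + 295 / 768 * u ^ 5 - 923 / 2304 * u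
      ^ 6 - 23323 / 129024 * u ^ 7 - 707281 / 5160960 * u ^ 8 := by
  obtain ⟨v, hv⟩ : ∃ v : ℝ, v = 4 / 5 - u := ⟨_, rfl⟩
  have hv0 : 0 ≤ v := by rw [hv]; linarith
  have e : 65 / 48 * u ^ 3 + 35 / 16 * u ^ 4 + 295 / 768 * u ^ 5 - 923 / 2304 * u
      ^ 6 - 23323 / 129024 * u ^ 7 - 707281 / 5160960 * u ^ 8 =
      u ^ 3 * (203125 / 49152 * v ^ 5 + 1278125 / 49152 * u ^ 1 * v ^ 4 +
      1039375 / 16384 * u ^ 2 * v ^ 3 + 11058325 / 147456 * u ^ 3 * v ^ 2 +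
      11043955 / 258048 * u ^ 4 * v ^ 1 + 6808367 / 737280 * u ^ 5) := by
    rw [hv]
    ring
  rw [e]
  positivity

private theorem p3_scb {u : ℝ} (h0 : 0 ≤ u) (h1 : u ≤ 4 / 5) : 0 ≤ 1 / 40 * u ^ 2 + 71 / 24 * u ^ 3 - 41 / 384 * u ^ 4 - 2141 / 1920 * u ^
      5 - 1771 / 5120 * u ^ 6 + 30211 / 322560 * u ^ 7 - 707281 / 5160960 * u
      ^ 8 := by
  obtain ⟨v, hv⟩ : ∃ v : ℝ, v = 4 / 5 - u := ⟨_, rfl⟩
  have hv0 : 0 ≤ v := by rw [hv]; linarith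
  have e : 1 / 40 * u ^ 2 + 71 / 24 * u ^ 3 - 41 / 384 * u ^ 4 - 2141 / 1920 * u ^
      5 - 1771 / 5120 * u ^ 6 + 30211 / 322560 * u ^ 7 - 707281 / 5160960 * u
      ^ 8 =
      u ^ 2 * (3125 / 32768 * v ^ 6 + 471875 / 49152 * u ^ 1 * v ^ 5 +
      379375 / 8192 * u ^ 2 * v ^ 4 + 728825 / 8192 * u ^ 3 * v ^ 3 +
      8166445 / 98304 * u ^ 4 * v ^ 2 + 38369089 / 1032192 * u ^ 5 * v ^ 1 +
      4515427 / 737280 * u ^ 6) := by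
    rw [hv]
    ring
  rw [e]
  positivity

private theorem p4_scb {u : ℝ} (h0 : 0 ≤ u) (h1 : u ≤ 1 / 2) : 0 ≤ 1 / 10 * u ^ 2 + 65 / 48 * u ^ 3 - 35 / 16 * u ^ 4 + 295 / 768 * u ^ 5
      + 923 / 2304 * u ^ 6 - 23323 / 129024 * u ^ 7 - 707281 / 5160960 * u ^
      8 := by
  obtain ⟨v, hv⟩ : ∃ v : ℝ, v = 1 / 2 - u := ⟨_, rfl⟩
  have hv0 : 0 ≤ v := by rw [hv]; linarith
  have e : 1 / 10 * u ^ 2 + 65 / 48 * u ^ 3 - 35 / 16 * u ^ 4 + 295 / 768 * u ^ 5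
      + 923 / 2304 * u ^ 6 - 23323 / 129024 * u ^ 7 - 707281 / 5160960 * u ^
      8 =
      u ^ 2 * (32 / 5 * v ^ 6 + 1226 / 15 * u ^ 1 * v ^ 5 + 833 / 3 * u ^ 2 * v ^ 4 +
      13581 / 32 * u ^ 3 * v ^ 3 + 190169 / 576 * u ^ 4 * v ^ 2 +
      13668883 / 107520 * u ^ 5 * v ^ 1 + 97594303 / 5160960 * u ^ 6) := by
    rw [hv]
    ring
  rw [e]
  positivity

private theorem p5_scb {u : ℝ} (h0 : 0 ≤ u) (h1 : u ≤ 1 / 2) : 0 ≤ 1 / 4 * u ^ 2 - 65 / 48 * u ^ 3 + 35 / 16 * u ^ 4 - 295 / 768 * u ^ 5 -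
      923 / 2304 * u ^ 6 + 23323 / 129024 * u ^ 7 - 707281 / 5160960 * u ^ 8 := by
  obtain ⟨v, hv⟩ : ∃ v : ℝ, v = 1 / 2 - u := ⟨_, rfl⟩
  have hv0 : 0 ≤ v := by rw [hv]; linarith
  have e : 1 / 4 * u ^ 2 - 65 / 48 * u ^ 3 + 35 / 16 * u ^ 4 - 295 / 768 * u ^ 5 -
      923 / 2304 * u ^ 6 + 23323 / 129024 * u ^ 7 - 707281 / 5160960 * u ^ 8 =
      u ^ 2 * (16 * v ^ 6 + 158 / 3 * u ^ 1 * v ^ 5 + 175 / 3 * u ^ 2 * v ^ 4 +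
      755 / 32 * u ^ 3 * v ^ 3 + 3367 / 576 * u ^ 4 * v ^ 2 +
      156361 / 21504 * u ^ 5 * v ^ 1 + 1844071 / 573440 * u ^ 6) := by
    rw [hv]
    ring
  rw [e]
  positivity

private theorem p6_scb {u : ℝ} (h0 : 0 ≤ u) (h1 : u ≤ 1 / 2) : 0 ≤ 57 / 40 * u ^ 2 - 71 / 24 * u ^ 3 - 41 / 384 * u ^ 4 + 2141 / 1920 * u
      ^ 5 - 1771 / 5120 * u ^ 6 - 30211 / 322560 * u ^ 7 - 707281 / 5160960 *
      u ^ 8 := by
  obtain ⟨v, hv⟩ : ∃ v : ℝ, v = 1 / 2 - u := ⟨_, rfl⟩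
  have hv0 : 0 ≤ v := by rw [hv]; linarith
  have e : 57 / 40 * u ^ 2 - 71 / 24 * u ^ 3 - 41 / 384 * u ^ 4 + 2141 / 1920 * u
      ^ 5 - 1771 / 5120 * u ^ 6 - 30211 / 322560 * u ^ 7 - 707281 / 5160960 *
      u ^ 8 =
      u ^ 2 * (456 / 5 * v ^ 6 + 6788 / 15 * u ^ 1 * v ^ 5 + 21431 / 24 * u ^ 2 * v ^ 4 +
      211061 / 240 * u ^ 3 * v ^ 3 + 335203 / 768 * u ^ 4 * v ^ 2 +
      14650889 / 161280 * u ^ 5 * v ^ 1 + 1168599 / 573440 * u ^ 6) := by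
    rw [hv]
    ring
  rw [e]
  positivity

theorem scB_sin_right {u : ℝ} (h0 : 0 ≤ u) (h1 : u ≤ 4 / 5) :
    -(1 / 20) * u ^ 2 ≤ exp u * sin (5 / 2 * u) - 5 / 2 * u ∧
    exp u * sin (5 / 2 * u) - 5 / 2 * u ≤ 5 / 2 * u ^ 2 := by
  have ht := (abs_le.1 (tay_scb (x := u) (y := 5 / 2 * u) (by nlinarith)).2)
  have e1 := p1_scb h0 h1
  have e2 := p2_scb h0 h1
  constructor
  · linarith [ht.1]
  · linarith [ht.2]

theorem scB_cos_right {u : ℝ} (h0 : 0 ≤ u) (h1 : u ≤ 4 / 5) :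
    13 / 5 * u ^ 2 ≤ 1 + u - exp u * cos (5 / 2 * u) := by
  have ht := (abs_le.1 (tay_scb (x := u) (y := 5 / 2 * u) (by nlinarith)).1)
  have e1 := p3_scb h0 h1
  linarith [ht.2]

theorem scB_sin_left {t : ℝ} (h0 : 0 ≤ t) (h1 : t ≤ 1 / 2) :
    12 / 5 * t ^ 2 ≤ 5 / 2 * t - exp (-t) * sin (5 / 2 * t) ∧
    5 / 2 * t - exp (-t) * sin (5 / 2 * t) ≤ 11 / 4 * t ^ 2 := by
  have ht := (abs_le.1 (tay_scb (x := -t) (y := 5 / 2 * t) (by nlinarith)).2)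
  have e1 := p4_scb h0 h1
  have e2 := p5_scb h0 h1
  constructor
  · linarith [ht.2]
  · linarith [ht.1]

theorem scB_cos_left {t : ℝ} (h0 : 0 ≤ t) (h1 : t ≤ 1 / 2) :
    6 / 5 * t ^ 2 ≤ 1 - t - exp (-t) * cos (5 / 2 * t) := by
  have ht := (abs_le.1 (tay_scb (x := -t) (y := 5 / 2 * t) (by nlinarith)).1)
  have e1 := p6_scb h0 h1
  linarith [ht.2]

end SokalFU
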