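import Mathlib

/-!
# Scalar inequalities for the heights, slope `5/2`, far part

`A(t) = 5t/2 - e^(-t) sin(5t/2)`, `S(t) = 1 - t - e^(-t) cos(5t/2)`, `f = 5t²/2 - a A + s S`.
Numerics of `f - (3/5 + 9/20 (t - 1/2))`, `t ≥ 1/2`, at the vertices of the region: `(a,s) = (.4,1)`: min `.064` (at `1/2`); `(.762,1.905)`: `.10` (at
`1/2`); `(.2875,5.7)`: `1.2` (at `1.84`); `(0,0)`: `.025` (at `1/2`); `(0,5.7)`: `1.78`; `(-1.27,·)`, `(0,4.5)`: `≥ .88`.  (`f` is affine in `(a,s)`.)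
Hints: `A ≤ 2.75 t²`; on `[1/2,5/4]` `S` is concave and `≥ 0`, `S(1/2) = .3088`, `S(5/4) = .0365`, `A ≤ 5t/2` (`sin ≥ 0`);
`5/4 ≤ t ≤ 1.885`: `cos ≤ 0`, so `S ≥ 1 - t`; `t ≥ 1.885`: `A ≤ 5t/2 + e^(-t)`, `S ≥ 1 - t - e^(-t)`.
-/

set_option autoImplicit false

namespace SokalFU

open Real

private theorem expL_F (t : ℝ) : 0.3678 * (2 - t) ≤ exp (-t) := by
  rcases le_total t 2 with h | h
  · have h1 : exp (-t) = exp (-1) * exp (1 - t) := by rw [← Real.exp_add]; congr 1; ring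
    have h2 := Real.add_one_le_exp (1 - t)
    have h3 := Real.exp_neg_one_gt_d9
    rw [h1]
    have h4 : 0.3678 * (2 - t) ≤ exp (-1) * (2 - t) := by
      apply mul_le_mul_of_nonneg_right _ (by linarith)
      linarith
    have h5 : exp (-1) * (2 - t) ≤ exp (-1) * exp (1 - t) := by
      apply mul_le_mul_of_nonneg_left _ (Real.exp_pos _).le
      linarith
    linarith
  · have := Real.exp_pos (-t)
    linarith

private theorem expU_F (t : ℝ) : t * exp (-t) ≤ 0.3679 := by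
  have h1 : exp (-1) = exp (t - 1) * exp (-t) := by rw [← Real.exp_add]; congr 1; ring
  have h2 := Real.add_one_le_exp (t - 1)
  have h3 := Real.exp_neg_one_lt_d9
  have h4 : t * exp (-t) ≤ exp (t - 1) * exp (-t) := by
    apply mul_le_mul_of_nonneg_right _ (Real.exp_pos _).le
    linarith
  linarith

private theorem expU1_F {t : ℝ} (ht : 1 ≤ t) : exp (-t) ≤ 0.3679 := by
  have h1 := expU_F t
  have h2 := Real.exp_pos (-t)
  nlinarith

private theorem expU0_F {t : ℝ} (ht : 0 ≤ t) : exp (-t) ≤ 1 := by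
  apply Real.exp_le_one_iff.2
  linarith

private theorem A_nonneg_F {t : ℝ} (ht : 0 ≤ t) : 0 ≤ 5 / 2 * t - exp (-t) * sin (5 / 2 * t) := by
  have h1 := Real.exp_pos (-t)
  have h2 := expU0_F ht
  have h3 : sin (5 / 2 * t) ≤ 5 / 2 * t := Real.sin_le (by linarith)
  rcases le_total 0 (sin (5 / 2 * t)) with h | h
  · nlinarith
  · nlinarith

/-- the main upper bound for `e^(-t) cos(5t/2)` -/
private theorem cosU_F {t : ℝ} (ht : 1 / 2 ≤ t) (ht1 : t ≤ 1) :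
    exp (-t) * cos (5 / 2 * t) ≤ 1 - t := by
  have h1 := Real.exp_pos (-t)
  have h2 := expU0_F (t := t) (by linarith)
  have hp := Real.pi_gt_d4
  have hp2 := Real.pi_lt_d4
  have h3 : cos (5 / 2 * t) ≤ max 0 (π / 2 - 5 / 2 * t) := by
    rcases le_total (5 / 2 * t) (π / 2) with h | h
    · rw [← Real.sin_pi_div_two_sub]
      exact le_max_of_le_right (Real.sin_le (by linarith))
    · exact le_max_of_le_left (Real.cos_nonpos_of_pi_div_two_le_of_le h (by linarith))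
  have h4 : max 0 (π / 2 - 5 / 2 * t) ≤ 1 - t := max_le (by linarith) (by linarith)
  rcases le_total 0 (cos (5 / 2 * t)) with h | h
  · nlinarith
  · nlinarith

theorem scF1 {t a s : ℝ} (ht : 1 / 2 ≤ t) (ha : a ≤ 0) (hs : 0 ≤ s) (hs' : s ≤ 9 / 2) :
    3 / 5 + 9 / 20 * (t - 1 / 2) ≤ 5 / 2 * t ^ 2 - a * (5 / 2 * t - exp (-t) * sin (5 / 2 * t)) +
      s * (1 - t - exp (-t) * cos (5 / 2 * t)) := by
  have hA := A_nonneg_F (t := t) (by linarith)
  have hA' : 0 ≤ -a * (5 / 2 * t - exp (-t) * sin (5 / 2 * t)) := mul_nonneg (by linarith) hA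
  have h1 := Real.exp_pos (-t)
  rcases le_total t 1 with h | h
  · have hc := cosU_F ht h
    have hc' : 0 ≤ s * (1 - t - exp (-t) * cos (5 / 2 * t)) := mul_nonneg hs (by linarith)
    nlinarith
  · have he := expU1_F h
    have hcos := Real.cos_le_one (5 / 2 * t)
    have hc : exp (-t) * cos (5 / 2 * t) ≤ 0.3679 := by nlinarith
    have hc' : s * (1 - t - 0.3679) ≤ s * (1 - t - exp (-t) * cos (5 / 2 * t)) :=
      mul_le_mul_of_nonneg_left (by linarith) hs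
    have hc'' : 9 / 2 * (1 - t - 0.3679) ≤ s * (1 - t - 0.3679) := by nlinarith
    nlinarith [sq_nonneg (t - 0.99)]

/-- bounds for `e^(-t) (2/5 sin(5t/2) - cos(5t/2))` -/
private theorem hL1_F {t : ℝ} (_ht : 1 / 2 ≤ t) (ht1 : 5 / 2 * t ≤ π / 2) :
    2 / 5 + (5 / 2 * t - π / 2) - 1 / 5 * (5 / 2 * t - π / 2) ^ 2 ≤
      2 / 5 * sin (5 / 2 * t) - cos (5 / 2 * t) := by
  have h1 : cos (5 / 2 * t) ≤ π / 2 - 5 / 2 * t := by
    rw [← Real.sin_pi_div_two_sub]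
    exact Real.sin_le (by linarith)
  have h2 : 1 - (π / 2 - 5 / 2 * t) ^ 2 / 2 ≤ sin (5 / 2 * t) := by
    rw [← Real.cos_pi_div_two_sub]
    exact Real.one_sub_sq_div_two_le_cos
  nlinarith

private theorem hL2_F {t : ℝ} (ht : π / 2 ≤ 5 / 2 * t) (ht1 : 5 / 2 * t ≤ π) :
    2 / 5 + 0.636 * (5 / 2 * t - π / 2) - 1 / 5 * (5 / 2 * t - π / 2) ^ 2 ≤
      2 / 5 * sin (5 / 2 * t) - cos (5 / 2 * t) := by
  have hp := Real.pi_gt_d4
  have hp2 := Real.pi_lt_d4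
  have h1 : 0.636 * (5 / 2 * t - π / 2) ≤ - cos (5 / 2 * t) := by
    have h3 : - cos (5 / 2 * t) = sin (5 / 2 * t - π / 2) := by
      rw [Real.sin_sub_pi_div_two]
    rw [h3]
    have h4 := Real.mul_le_sin (x := 5 / 2 * t - π / 2) (by linarith) (by linarith)
    refine le_trans ?_ h4
    apply mul_le_mul_of_nonneg_right _ (by linarith)
    rw [le_div_iff₀ (by linarith)]
    linarith
  have h2 : 1 - (π / 2 - 5 / 2 * t) ^ 2 / 2 ≤ sin (5 / 2 * t) := by
    rw [← Real.cos_pi_div_two_sub]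
    exact Real.one_sub_sq_div_two_le_cos
  nlinarith

private theorem hL3_F {t : ℝ} (ht : π ≤ 5 / 2 * t) (ht1 : 5 / 2 * t ≤ 15 / 4) :
    0 ≤ 2 / 5 * sin (5 / 2 * t) - cos (5 / 2 * t) := by
  have hp := Real.pi_gt_d4
  have hp2 := Real.pi_lt_d4
  have h1 : 1 - (5 / 2 * t - π) ^ 2 / 2 ≤ - cos (5 / 2 * t) := by
    rw [← Real.cos_sub_pi]
    exact Real.one_sub_sq_div_two_le_cos
  have h2 : - sin (5 / 2 * t) ≤ 5 / 2 * t - π := by
    rw [← Real.sin_sub_pi]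
    exact Real.sin_le (by linarith)
  nlinarith

private theorem hA_F (t : ℝ) : -(7 / 5) ≤ 2 / 5 * sin (5 / 2 * t) - cos (5 / 2 * t) := by
  have h1 := Real.cos_le_one (5 / 2 * t)
  have h2 := Real.neg_one_le_sin (5 / 2 * t)
  linarith

/-- nonnegativity of the combination on `[1/2, 3/2]` -/
private theorem hpos_F {t : ℝ} (ht : 1 / 2 ≤ t) (ht1 : t ≤ 3 / 2) :
    0 ≤ 2 / 5 * sin (5 / 2 * t) - cos (5 / 2 * t) := by
  have hp := Real.pi_gt_d4
  have hp2 := Real.pi_lt_d4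
  rcases le_total (5 / 2 * t) (π / 2) with h | h
  · have := hL1_F ht h
    nlinarith
  rcases le_total (5 / 2 * t) π with h' | h'
  · have := hL2_F h h'
    nlinarith
  · exact hL3_F h' (by linarith)

/-- vertex `(2/5, 1)` -/
private theorem v1_F {t : ℝ} (ht : 1 / 2 ≤ t) :
    3 / 5 + 9 / 20 * (t - 1 / 2) ≤ 5 / 2 * t ^ 2 + (1 - 2 * t) +
      exp (-t) * (2 / 5 * sin (5 / 2 * t) - cos (5 / 2 * t)) := by
  have h1 := Real.exp_pos (-t)
  rcases le_total t (3 / 2) with h | h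
  · have h2 := mul_nonneg h1.le (hpos_F ht h)
    nlinarith [sq_nonneg (t - 0.49)]
  · have h3 := hA_F t
    have h4 := expU1_F (t := t) (by linarith)
    have h5 : -(7 / 5) * 0.3679 ≤ exp (-t) * (2 / 5 * sin (5 / 2 * t) - cos (5 / 2 * t)) := by
      nlinarith
    nlinarith

/-- vertex `(16/21, 40/21)` -/
private theorem v2_F {t : ℝ} (ht : 1 / 2 ≤ t) :
    3 / 5 + 9 / 20 * (t - 1 / 2) ≤ 5 / 2 * t ^ 2 + 40 / 21 * ((1 - 2 * t) +
      exp (-t) * (2 / 5 * sin (5 / 2 * t) - cos (5 / 2 * t))) := by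
  have h1 := Real.exp_pos (-t)
  have hp := Real.pi_gt_d4
  have hp2 := Real.pi_lt_d4
  have hE := expL_F t
  rcases le_total (5 / 2 * t) (π / 2) with h | h
  · have h2 := hL1_F ht h
    have h3 : 0.5 ≤ exp (-t) := by linarith
    have h4 : 2 / 5 + (5 / 2 * t - 1.5708) - 1 / 5 * (5 / 2 * t - 1.5708) ^ 2 ≤
        2 / 5 + (5 / 2 * t - π / 2) - 1 / 5 * (5 / 2 * t - π / 2) ^ 2 := by
      nlinarith
    have h5 : 0 ≤ 2 / 5 + (5 / 2 * t - 1.5708) - 1 / 5 * (5 / 2 * t - 1.5708) ^ 2 := by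
      nlinarith
    have h6 : 0.5 * (2 / 5 + (5 / 2 * t - 1.5708) - 1 / 5 * (5 / 2 * t - 1.5708) ^ 2) ≤
        exp (-t) * (2 / 5 * sin (5 / 2 * t) - cos (5 / 2 * t)) :=
      mul_le_mul h3 (h4.trans h2) h5 h1.le
    nlinarith
  rcases le_total t (4 / 5) with h' | h'
  · have h2 := hL2_F h (by linarith)
    have h3 : 0.44 ≤ exp (-t) := by linarith
    have h5 : 2 / 5 ≤ 2 / 5 * sin (5 / 2 * t) - cos (5 / 2 * t) := by nlinarith
    have h6 : 0.44 * (2 / 5) ≤ exp (-t) * (2 / 5 * sin (5 / 2 * t) - cos (5 / 2 * t)) :=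
      mul_le_mul h3 h5 (by norm_num) h1.le
    nlinarith
  rcases le_total t (6 / 5) with h'' | h''
  · have h2 := hL2_F h (by linarith)
    have h3 : 0.294 ≤ exp (-t) := by linarith
    have h5 : 0.6 ≤ 2 / 5 * sin (5 / 2 * t) - cos (5 / 2 * t) := by nlinarith
    have h6 : 0.294 * 0.6 ≤ exp (-t) * (2 / 5 * sin (5 / 2 * t) - cos (5 / 2 * t)) :=
      mul_le_mul h3 h5 (by norm_num) h1.le
    nlinarith [sq_nonneg (t - 0.85)]
  rcases le_total t (3 / 2) with h3 | h3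
  · have h2 := mul_nonneg h1.le (hpos_F ht h3)
    nlinarith
  · have h4 := hA_F t
    have h5 := expU_F t
    have h6 : exp (-t) ≤ 0.2453 := by nlinarith
    have h7 : -(7 / 5) * 0.2453 ≤ exp (-t) * (2 / 5 * sin (5 / 2 * t) - cos (5 / 2 * t)) := by
      nlinarith
    nlinarith

/-- vertex `(23/80, 57/10)` -/
private theorem v3_F {t : ℝ} (ht : 1 / 2 ≤ t) :
    3 / 5 + 9 / 20 * (t - 1 / 2) ≤ 5 / 2 * t ^ 2 -
      23 / 80 * (5 / 2 * t - exp (-t) * sin (5 / 2 * t)) +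
      57 / 10 * (1 - t - exp (-t) * cos (5 / 2 * t)) := by
  have h1 := Real.exp_pos (-t)
  have hp := Real.pi_gt_d4
  have hp2 := Real.pi_lt_d4
  have h0 := expU0_F (t := t) (by linarith)
  rcases le_total (5 / 2 * t) (π / 2) with h | h
  · have hs : 0 ≤ exp (-t) * sin (5 / 2 * t) :=
      mul_nonneg h1.le (Real.sin_nonneg_of_nonneg_of_le_pi (by linarith) (by linarith))
    have hc0 : 0 ≤ cos (5 / 2 * t) := Real.cos_nonneg_of_neg_pi_div_two_le_of_le
      (by linarith) h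
    have hc : cos (5 / 2 * t) ≤ π / 2 - 5 / 2 * t := by
      rw [← Real.sin_pi_div_two_sub]
      exact Real.sin_le (by linarith)
    have hc' : exp (-t) * cos (5 / 2 * t) ≤ 1.5708 - 5 / 2 * t := by nlinarith
    nlinarith
  have hs1 := Real.neg_one_le_sin (5 / 2 * t)
  rcases le_total (5 / 2 * t) (π + π / 2) with h' | h'
  · have hc : exp (-t) * cos (5 / 2 * t) ≤ 0 := mul_nonpos_of_nonneg_of_nonpos h1.le
      (Real.cos_nonpos_of_pi_div_two_le_of_le h h')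
    rcases le_total (5 / 2 * t) π with h2 | h2
    · have hs : 0 ≤ exp (-t) * sin (5 / 2 * t) :=
        mul_nonneg h1.le (Real.sin_nonneg_of_nonneg_of_le_pi (by linarith) (by linarith))
      nlinarith [sq_nonneg (t - 1.374)]
    · have he := expU1_F (t := t) (by linarith)
      have hs : -0.3679 ≤ exp (-t) * sin (5 / 2 * t) := by nlinarith
      nlinarith [sq_nonneg (t - 1.374)]
  · have h5 := expU_F t
    have h6 : exp (-t) ≤ 0.1953 := by nlinarith
    have hs : -0.1953 ≤ exp (-t) * sin (5 / 2 * t) := by nlinarith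
    have hc1 := Real.cos_le_one (5 / 2 * t)
    have hc : exp (-t) * cos (5 / 2 * t) ≤ 0.1953 := by nlinarith
    nlinarith

theorem scF2 {t a s : ℝ} (ht : 1 / 2 ≤ t) (ha : 0 ≤ a) (hs : 1 ≤ s) (hs' : s ≤ 57 / 10)
    (h1 : a ≤ 2 / 5 * s) (h2 : a ≤ 1 - s / 8) :
    3 / 5 + 9 / 20 * (t - 1 / 2) ≤ 5 / 2 * t ^ 2 - a * (5 / 2 * t - exp (-t) * sin (5 / 2 * t)) +
      s * (1 - t - exp (-t) * cos (5 / 2 * t)) := by
  have hA := A_nonneg_F (t := t) (by linarith)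
  have v1 := v1_F ht
  have v2 := v2_F ht
  have v3 := v3_F ht
  set n := exp (-t) * sin (5 / 2 * t) with hn
  set c := exp (-t) * cos (5 / 2 * t) with hc
  have e1 : exp (-t) * (2 / 5 * sin (5 / 2 * t) - cos (5 / 2 * t)) = 2 / 5 * n - c := by
    rw [hn, hc]; ring
  rw [e1] at v1 v2
  rcases le_total s (40 / 21) with h | h
  · have g1 : a * (5 / 2 * t - n) ≤ 2 / 5 * s * (5 / 2 * t - n) :=
      mul_le_mul_of_nonneg_right h1 hA
    have g2 : 0 ≤ (40 / 21 - s) * (5 / 2 * t ^ 2 + (1 - 2 * t) + (2 / 5 * n - c) -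
        (3 / 5 + 9 / 20 * (t - 1 / 2))) := mul_nonneg (by linarith) (by linarith)
    have g3 : 0 ≤ (s - 1) * (5 / 2 * t ^ 2 + 40 / 21 * ((1 - 2 * t) + (2 / 5 * n - c)) -
        (3 / 5 + 9 / 20 * (t - 1 / 2))) := mul_nonneg (by linarith) (by linarith)
    nlinarith
  · have g1 : a * (5 / 2 * t - n) ≤ (1 - s / 8) * (5 / 2 * t - n) :=
      mul_le_mul_of_nonneg_right h2 hA
    have g2 : 0 ≤ (57 / 10 - s) * (5 / 2 * t ^ 2 + 40 / 21 * ((1 - 2 * t) + (2 / 5 * n - c)) -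
        (3 / 5 + 9 / 20 * (t - 1 / 2))) := mul_nonneg (by linarith) (by linarith)
    have g3 : 0 ≤ (s - 40 / 21) * (5 / 2 * t ^ 2 - 23 / 80 * (5 / 2 * t - n) +
        57 / 10 * (1 - t - c) - (3 / 5 + 9 / 20 * (t - 1 / 2))) :=
      mul_nonneg (by linarith) (by linarith)
    nlinarith

end SokalFU
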