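import Pool.Agent.Lib_MP_af4de1_fu.MGen
import Pool.Agent.Lib_MP_af4de1_fu.MElem
import Pool.Agent.Lib_MP_af4de1_fu.MScalB
import Pool.Agent.Lib_MP_af4de1_fu.MScalF

/-!
# Case B: hypotheses of the general estimate

`h = a + i s`, `d = -(1 + 5i/2)`.  `right` (`v = t(1+5i/2)`): `5t²/2 - a(e^t sin(5t/2) - 5t/2) + s(1 + t - e^t cos(5t/2))`.
`left`, `far` (`v = -t(1+5i/2)`): `5t²/2 - a(5t/2 - e^(-t) sin(5t/2)) + s(1 - t - e^(-t) cos(5t/2))`.
`side` (`v = x + 2i`, `x = 4/5 + u`): `2x - a(e^x sin 2 - 2) - s(e^x cos 2 - 1 - x) ≥ 8/5 + 2u` (for `a ≥ 0`: `a ≤ .4 s`, `sin 2 = .9093`, `cos 2 = -.4161`; for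
`a ≤ 0`: `e^(4/5) sin 2 = 2.0237 ≥ 2`).
`quad`: `(5/2 (1-a) + 21/8 s) t²`.  `k2`, `k3`: `taylor2_ball`, `taylor3_ball` with `r = (4/5)‖d‖ = 2.1541` (`2.3560`, `1.8884`).
-/

set_option autoImplicit false

namespace SokalFU

open Complex

private theorem mb_y : 4292 / 10000 < 2 - Real.pi / 2 ∧ 2 - Real.pi / 2 < 42925 / 100000 := by
  have h1 := Real.pi_gt_d4
  have h2 := Real.pi_lt_d4
  constructor
  · norm_num at h2 ⊢
    linarith
  · norm_num at h1 ⊢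
    linarith

private theorem mb_sin2 : Real.sin 2 = Real.cos (2 - Real.pi / 2) := by
  rw [Real.cos_sub_pi_div_two]

private theorem mb_cos2 : Real.cos 2 = -Real.sin (2 - Real.pi / 2) := by
  rw [Real.sin_sub_pi_div_two, neg_neg]

private theorem mb_sin2_ge : 907 / 1000 ≤ Real.sin 2 := by
  rw [mb_sin2]
  obtain ⟨h1, h2⟩ := mb_y
  have h3 := Real.one_sub_sq_div_two_le_cos (x := 2 - Real.pi / 2)
  nlinarith

private theorem mb_cos2_le : Real.cos 2 ≤ -(2 / 5) := by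
  rw [mb_cos2]
  obtain ⟨h1, h2⟩ := mb_y
  have h3 := Real.sin_gt_sub_cube (x := 2 - Real.pi / 2) (by linarith)
  have h4 : (2 - Real.pi / 2) ^ 3 ≤ (42925 / 100000) ^ 3 := by
    apply pow_le_pow_left₀ (by linarith) h2.le
  norm_num at h4
  linarith

private theorem mb_exp {x : ℝ} (hx : 4 / 5 ≤ x) : 222 / 100 ≤ Real.exp x := by
  have h1 : Real.exp (4 / 5) ≤ Real.exp x := Real.exp_le_exp.2 hx
  have h2 := Real.sum_le_exp_of_nonneg (show (0 : ℝ) ≤ 4 / 5 by norm_num) 5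
  norm_num [Finset.sum_range_succ, Nat.factorial] at h2
  linarith

private theorem mb_expr : Real.exp (431 / 200) ≤ 864 / 100 := by
  have h0 : Real.exp (431 / 200) = Real.exp 1 * Real.exp 1 * Real.exp (31 / 200) := by
    rw [← Real.exp_add, ← Real.exp_add]
    norm_num
  have h1 := Real.exp_one_lt_d9
  have h2 := Real.exp_bound' (x := 31 / 200) (by norm_num) (by norm_num) (n := 3) (by norm_num)
  norm_num [Finset.sum_range_succ, Nat.factorial] at h2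
  have h3 : 0 < Real.exp 1 := Real.exp_pos 1
  have h4 : Real.exp 1 * Real.exp 1 ≤ 2.7182818286 * 2.7182818286 :=
    mul_le_mul h1.le h1.le h3.le (by norm_num)
  rw [h0]
  calc Real.exp 1 * Real.exp 1 * Real.exp (31 / 200)
      ≤ (2.7182818286 * 2.7182818286) * (1168 / 1000) :=
        mul_le_mul h4 (by linarith) (Real.exp_pos _).le (by norm_num)
    _ ≤ 864 / 100 := by norm_num

private theorem mb_norm_d : ‖(-(1 + (5 / 2 : ℝ) * I) : ℂ)‖ ≤ 26927 / 10000 := by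
  rw [norm_neg]
  have h1 : ‖(1 + (5 / 2 : ℝ) * I : ℂ)‖ ^ 2 = 29 / 4 := by
    rw [← Complex.normSq_eq_norm_sq, Complex.normSq_apply]
    simp
    norm_num
  nlinarith [norm_nonneg (1 + (5 / 2 : ℝ) * I : ℂ)]

private theorem mb_norm {t : ℝ} (h0 : 0 ≤ t) (h1 : t ≤ 4 / 5) :
    ‖(-(t * -(1 + (5 / 2 : ℝ) * I)) : ℂ)‖ = t * ‖(-(1 + (5 / 2 : ℝ) * I) : ℂ)‖ ∧
    t * ‖(-(1 + (5 / 2 : ℝ) * I) : ℂ)‖ ≤ 431 / 200 := by
  constructor
  · rw [norm_neg, norm_mul, Complex.norm_real, Real.norm_of_nonneg h0]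
  · calc t * ‖(-(1 + (5 / 2 : ℝ) * I) : ℂ)‖ ≤ (4 / 5) * (26927 / 10000) :=
        mul_le_mul h1 mb_norm_d (norm_nonneg _) (by norm_num)
      _ ≤ 431 / 200 := by norm_num

private theorem mkB {δ a s cp cm : ℝ} (hδ : 0 < δ) (hδ' : δ ≤ 9 / 80)
    (hne : (a + s * I : ℂ) ≠ 1) (hcp : 0 < cp) (hcm : 0 < cm)
    (hq1 : cp ≤ 5 / 2 * (1 - a) + 21 / 8 * s) (hq2 : cm ≤ 5 / 2 * (1 - a) + 21 / 8 * s)
    (hr : ∀ t : ℝ, 0 ≤ t → t ≤ 4 / 5 → cm * t ^ 2 ≤ 5 / 2 * t ^ 2 -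
      a * (Real.exp t * Real.sin (5 / 2 * t) - 5 / 2 * t) +
      s * (1 + t - Real.exp t * Real.cos (5 / 2 * t)))
    (hl : ∀ t : ℝ, 0 ≤ t → t ≤ 1 / 2 → cp * t ^ 2 ≤ 5 / 2 * t ^ 2 -
      a * (5 / 2 * t - Real.exp (-t) * Real.sin (5 / 2 * t)) +
      s * (1 - t - Real.exp (-t) * Real.cos (5 / 2 * t)))
    (hf : ∀ t : ℝ, 1 / 2 ≤ t → 3 / 5 + 9 / 20 * (t - 1 / 2) ≤ 5 / 2 * t ^ 2 -
      a * (5 / 2 * t - Real.exp (-t) * Real.sin (5 / 2 * t)) +
      s * (1 - t - Real.exp (-t) * Real.cos (5 / 2 * t)))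
    (hside : ∀ x : ℝ, 4 / 5 ≤ x → 0 ≤ -a * (Real.exp x * Real.sin 2 - 2) -
      s * (Real.exp x * Real.cos 2 - 1 - x)) :
    Hyp δ (a + s * I) (-(1 + (5 / 2 : ℝ) * I)) (4 / 5) (1 / 2) (1 / 2)
      cp cm (3 / 5) (9 / 20) (8 / 5) 2 (12 / 5) (19 / 10) where
  δpos := hδ
  h_ne := hne
  d_ne := by
    intro h
    have := congrArg Complex.re h
    simp at this
  d_re := by simp
  τpos := by norm_num
  Tpos := by norm_num
  TT := le_rfl
  cppos := hcp
  cmpos := hcm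
  lpos := by norm_num
  Bpos := by norm_num
  bpos := by norm_num
  σgt := by linarith
  K2pos := by norm_num
  K3pos := by norm_num
  quad := by
    intro t
    have h1 : ((1 - (a + s * I)) * (t * -(1 + (5 / 2 : ℝ) * I)) ^ 2 / 2 : ℂ) =
        ((t ^ 2 * (-(21 / 8) * (1 - a) + 5 / 2 * s) : ℝ) : ℂ) +
        (((5 / 2 * (1 - a) + 21 / 8 * s) * t ^ 2 : ℝ) : ℂ) * I := by
      push_cast
      linear_combination ((t : ℂ) ^ 2 * (25 / 8 - 25 / 8 * a - 5 / 2 * s - 25 / 8 * s * I)) * I_sq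
    rw [h1, add_im, ofReal_im, im_ofReal_mul, I_im, zero_add, mul_one]
    exact mul_le_mul_of_nonneg_right (max_le hq1 hq2) (sq_nonneg t)
  right := by
    intro t h0 h1
    have e : (-(t * -(1 + (5 / 2 : ℝ) * I)) : ℂ) = ((t : ℝ) : ℂ) + ((5 / 2 * t : ℝ) : ℂ) * I := by
      push_cast
      ring
    rw [e, ff_eq]
    have := hr t h0 h1
    linarith
  left := by
    intro t h0 h1
    have e : (t * -(1 + (5 / 2 : ℝ) * I) : ℂ) = ((-t : ℝ) : ℂ) + ((-(5 / 2 * t) : ℝ) : ℂ) * I := by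
      push_cast
      ring
    rw [e, ff_eq, Real.sin_neg, Real.cos_neg]
    have := hl t h0 h1
    linarith
  far := by
    intro t h0
    have e : (t * -(1 + (5 / 2 : ℝ) * I) : ℂ) = ((-t : ℝ) : ℂ) + ((-(5 / 2 * t) : ℝ) : ℂ) * I := by
      push_cast
      ring
    rw [e, ff_eq, Real.sin_neg, Real.cos_neg, max_eq_left (by linarith)]
    have := hf t h0
    linarith
  side := by
    intro u hu
    have e : (-(((4 / 5 : ℝ) : ℂ) * -(1 + (5 / 2 : ℝ) * I)) + u : ℂ) =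
        ((4 / 5 + u : ℝ) : ℂ) + ((2 : ℝ) : ℂ) * I := by
      push_cast
      ring
    rw [e, ff_eq]
    have := hside (4 / 5 + u) (by linarith)
    linarith
  k2 := by
    intro t h0 h1
    obtain ⟨n1, n2⟩ := mb_norm h0 h1
    have h := taylor2_ball (v := (-(t * -(1 + (5 / 2 : ℝ) * I)) : ℂ)) (r := 431 / 200)
      (K := 12 / 5) (by norm_num) (by rw [n1]; exact n2) (by
        have := mb_expr
        norm_num at this ⊢
        linarith)
    rw [n1] at h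
    exact h
  k3 := by
    intro t h0 h1
    obtain ⟨n1, n2⟩ := mb_norm h0 h1
    have h := taylor3_ball (v := (-(t * -(1 + (5 / 2 : ℝ) * I)) : ℂ)) (r := 431 / 200)
      (K := 19 / 10) (by norm_num) (by rw [n1]; exact n2) (by
        have := mb_expr
        norm_num at this ⊢
        linarith)
    rw [n1] at h
    exact h

theorem hyp_B1 {δ a s : ℝ} (hδ : 0 < δ) (hδ' : δ ≤ 9 / 80) (ha : a ≤ 0) (ha' : -(127 / 100) ≤ a)
    (hs : 0 ≤ s) (hs' : s ≤ 9 / 2) :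
    Hyp δ (a + s * I) (-(1 + (5 / 2 : ℝ) * I)) (4 / 5) (1 / 2) (1 / 2)
      (5 / 2 - 12 / 5 * a + 6 / 5 * s) (243 / 100 + 13 / 5 * s) (3 / 5) (9 / 20) (8 / 5) 2
      (12 / 5) (19 / 10) := by
  refine mkB hδ hδ' ?_ (by nlinarith) (by nlinarith) (by linarith) (by linarith) ?_ ?_ ?_ ?_
  · intro h
    have := congrArg Complex.re h
    simp at this
    linarith
  · intro t h0 h1
    obtain ⟨b1, b2⟩ := scB_sin_right h0 h1
    have b3 := scB_cos_right h0 h1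
    have c1 := mul_le_mul_of_nonneg_left b1 (neg_nonneg.2 ha)
    have c2 := mul_le_mul_of_nonneg_left b3 hs
    have c3 : -(127 / 2000) * t ^ 2 ≤ 1 / 20 * a * t ^ 2 :=
      mul_le_mul_of_nonneg_right (by linarith) (sq_nonneg t)
    nlinarith [sq_nonneg t]
  · intro t h0 h1
    obtain ⟨b1, b2⟩ := scB_sin_left h0 h1
    have b3 := scB_cos_left h0 h1
    have c1 := mul_le_mul_of_nonneg_left b1 (neg_nonneg.2 ha)
    have c2 := mul_le_mul_of_nonneg_left b3 hs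
    linarith
  · intro t ht
    exact scF1 ht ha hs hs'
  · intro x hx
    have h1 := mb_exp hx
    have h2 := mb_sin2_ge
    have h3 := mb_cos2_le
    have h4 : 2 ≤ Real.exp x * Real.sin 2 := by
      calc (2 : ℝ) ≤ (222 / 100) * (907 / 1000) := by norm_num
        _ ≤ Real.exp x * Real.sin 2 := mul_le_mul h1 h2 (by norm_num) (Real.exp_pos x).le
    have h5 : Real.exp x * Real.cos 2 ≤ 0 :=
      mul_nonpos_of_nonneg_of_nonpos (Real.exp_pos x).le (by linarith)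
    have c1 : 0 ≤ -a * (Real.exp x * Real.sin 2 - 2) :=
      mul_nonneg (neg_nonneg.2 ha) (by linarith)
    have c2 : 0 ≤ s * (1 + x - Real.exp x * Real.cos 2) := mul_nonneg hs (by linarith)
    linarith

theorem hyp_B2 {δ a s : ℝ} (hδ : 0 < δ) (hδ' : δ ≤ 9 / 80) (ha : 0 ≤ a) (hs : 1 ≤ s)
    (hs' : s ≤ 57 / 10) (h1 : a ≤ 2 / 5 * s) (h2 : a ≤ 1 - s / 8) :
    Hyp δ (a + s * I) (-(1 + (5 / 2 : ℝ) * I)) (4 / 5) (1 / 2) (1 / 2)
      (5 / 2 - 11 / 4 * a + 6 / 5 * s) (5 / 2 - 5 / 2 * a + 13 / 5 * s) (3 / 5) (9 / 20) (8 / 5) 2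
      (12 / 5) (19 / 10) := by
  have hs0 : 0 ≤ s := by linarith
  refine mkB hδ hδ' ?_ (by linarith) (by linarith) (by linarith) (by linarith) ?_ ?_ ?_ ?_
  · intro h
    have := congrArg Complex.im h
    simp at this
    linarith
  · intro t h0 h1
    obtain ⟨b1, b2⟩ := scB_sin_right h0 h1
    have b3 := scB_cos_right h0 h1
    have c1 := mul_le_mul_of_nonneg_left b2 ha
    have c2 := mul_le_mul_of_nonneg_left b3 hs0
    linarith
  · intro t h0 h1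
    obtain ⟨b1, b2⟩ := scB_sin_left h0 h1
    have b3 := scB_cos_left h0 h1
    have c1 := mul_le_mul_of_nonneg_left b2 ha
    have c2 := mul_le_mul_of_nonneg_left b3 hs0
    linarith
  · intro t ht
    exact scF2 ht ha hs hs' h1 h2
  · intro x hx
    have e1 := Real.exp_pos x
    have h3 := mb_cos2_le
    have h4 := Real.sin_le_one 2
    have h5 := mb_sin2_ge
    have c1 : a * (Real.exp x * Real.sin 2) ≤ 2 / 5 * s * (Real.exp x * Real.sin 2) :=
      mul_le_mul_of_nonneg_right (by linarith) (mul_nonneg e1.le (by linarith))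
    have c2 : 2 / 5 * s * (Real.exp x * Real.sin 2) ≤ 2 / 5 * s * (Real.exp x * 1) :=
      mul_le_mul_of_nonneg_left (mul_le_mul_of_nonneg_left h4 e1.le) (by linarith)
    have c3 : s * (Real.exp x * Real.cos 2) ≤ s * (Real.exp x * -(2 / 5)) :=
      mul_le_mul_of_nonneg_left (mul_le_mul_of_nonneg_left h3 e1.le) hs0
    have c4 : 0 ≤ s * (1 + x) := mul_nonneg hs0 (by linarith)
    linarith

end SokalFU
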