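import Pool.Agent.Lib_MP_af4de1_fu.MMon
import Pool.Agent.Lib_MP_af4de1_fu.MHypB

/-!
# Case B1: the estimate [FU-M20]

`gen_fin` with `hyp_B1`, `k = 3/10`; `a = -α`.  `q² = 29/4`, `q³ = 19.5213`, `q⁴ = 52.5625`, `H² = α² + s²`, `κ² = (1+α)² + s² ≥ 1 + H²`,
`cp = 2.5 + 2.4 α + 1.2 s ≥ 1.7 κ`, `cm = 2.43 + 2.6 s`.
`lowErr ≤ .49278 H (1/cp² + 1.9/cm²) + .0045`, `upErr ≤ .1633 (cp^(-3/2) + 2.4 cm^(-3/2)) + .0075`.
To show: `H upErr ≤ .3 κ (.8407/√κ - lowErr)`.  With `x² = κ`, `y² = cm`, `z² = cp`: `κ ≤ .93416 y²`, `H ≤ .52264 y²`, and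
`H x ≤ .22 z⁴`, `H ≤ .2263 x z³`, `H x ≤ .2616 y⁴`, `H ≤ .194 x y³` for `s ≥ 1/2`,
`H x ≤ .1275 z⁴`, `H ≤ .1821 x z³`, `H x ≤ .3241 y⁴`, `H ≤ .229 x y³` for `s ≤ 1/2`.
-/

set_option autoImplicit false

namespace SokalFU

open Complex

private theorem b1_sq {a b : ℝ} (h : a ^ 2 ≤ b ^ 2) (hb : 0 ≤ b) : a ≤ b :=
  (abs_le_of_sq_le_sq' h hb).2

private theorem b1_fin {H K x y z t1 t2 t3 t4 t5 t6 : ℝ} (hx : 0 < x) (hy : 0 < y) (hz : 0 < z)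
    (hK : x ^ 2 = K) (A1 : H * x ≤ t1 * z ^ 4) (A2 : H ≤ t2 * x * z ^ 3) (A3 : H * x ≤ t3 * y ^ 4)
    (A4 : H ≤ t4 * x * y ^ 3) (A5 : H ≤ t5 * x) (A6 : x ≤ t6)
    (hn : 1633 / 10000 * (t2 + 12 / 5 * t4) + 75 / 10000 * t5 +
      3 / 10 * (49278 / 100000 * (t1 + 19 / 10 * t3) + 45 / 10000 * t6) ≤ 24 / 100) :
    H * (1633 / 10000 * (1 / z ^ 3 + 12 / 5 * (1 / y ^ 3)) + 75 / 10000) +
      3 / 10 * K * (49278 / 100000 * H * (1 / z ^ 4 + 19 / 10 * (1 / y ^ 4)) + 45 / 10000) ≤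
      24 / 100 * x := by
  have B2 : H / z ^ 3 ≤ t2 * x := by
    rw [div_le_iff₀ (by positivity)]
    exact A2
  have B4 : H / y ^ 3 ≤ t4 * x := by
    rw [div_le_iff₀ (by positivity)]
    exact A4
  have B1 : K * H / z ^ 4 ≤ t1 * x := by
    rw [div_le_iff₀ (by positivity), ← hK]
    have := mul_le_mul_of_nonneg_left A1 hx.le
    linarith
  have B3 : K * H / y ^ 4 ≤ t3 * x := by
    rw [div_le_iff₀ (by positivity), ← hK]
    have := mul_le_mul_of_nonneg_left A3 hx.le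
    linarith
  have B6 : K ≤ t6 * x := by
    rw [← hK, sq]
    exact mul_le_mul_of_nonneg_right A6 hx.le
  have e : H * (1633 / 10000 * (1 / z ^ 3 + 12 / 5 * (1 / y ^ 3)) + 75 / 10000) +
      3 / 10 * K * (49278 / 100000 * H * (1 / z ^ 4 + 19 / 10 * (1 / y ^ 4)) + 45 / 10000) =
      1633 / 10000 * (H / z ^ 3 + 12 / 5 * (H / y ^ 3)) + 75 / 10000 * H +
      3 / 10 * (49278 / 100000 * (K * H / z ^ 4 + 19 / 10 * (K * H / y ^ 4)) + 45 / 10000 * K) := by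
    ring
  rw [e]
  have h1 := mul_le_mul_of_nonneg_right hn hx.le
  linarith

private theorem b1_small {al s H K x y z : ℝ} (h0 : 0 ≤ al) (h1 : al ≤ 127 / 100) (s0 : 0 ≤ s)
    (hH0 : 0 ≤ H) (hH : H ^ 2 = al ^ 2 + s ^ 2) (hK : K ^ 2 = (1 + al) ^ 2 + s ^ 2)
    (hK0 : 0 < K)
    (hx0 : 0 < x) (hx : x ^ 2 = K) (hy0 : 0 < y) (hy : y ^ 2 = 243 / 100 + 13 / 5 * s) (hz0 : 0 < z)
    (hz : z ^ 2 = 5 / 2 + 12 / 5 * al + 6 / 5 * s) (z2 : 13 / 10 * x ≤ z)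
    (y1 : H ≤ 52264 / 100000 * y ^ 2) (y4 : H * x ≤ 50515 / 100000 * y ^ 3) (hs : s ≤ 1 / 2) :
    H * (1633 / 10000 * (1 / z ^ 3 + 12 / 5 * (1 / y ^ 3)) + 75 / 10000) +
      3 / 10 * K * (49278 / 100000 * H * (1 / z ^ 4 + 19 / 10 * (1 / y ^ 4)) + 45 / 10000) ≤
      24 / 100 * x := by
  have hs2 : s ^ 2 ≤ 1 / 4 := by
    have := mul_le_mul hs hs s0 (by norm_num : (0 : ℝ) ≤ 1 / 2)
    linarith
  have ha2 : al * (127 / 100 - al) ≥ 0 := mul_nonneg h0 (sub_nonneg.2 h1)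
  have k1 : H ≤ 5917 / 10000 * K := by
    have h2 : H ^ 2 ≤ (5917 / 10000 * K) ^ 2 := by
      rw [mul_pow, hH, hK]
      linarith
    exact b1_sq h2 (by positivity)
  have k2 : K ≤ 2325 / 1000 := by
    have h2 : K ^ 2 ≤ (2325 / 1000) ^ 2 := by
      rw [hK]
      linarith
    exact b1_sq h2 (by norm_num)
  have k3 : x ≤ 153 / 100 := b1_sq (by rw [hx]; norm_num; linarith) (by norm_num)
  have y5 : 1558 / 1000 ≤ y := b1_sq (by rw [hy]; norm_num; linarith) hy0.le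
  have hy3 : 0 < y ^ 3 := pow_pos hy0 3
  have A1 : H * x ≤ 1275 / 10000 * z ^ 4 := by
    have h2 : H ≤ al + s := b1_sq (by rw [hH]; linarith [mul_nonneg h0 s0]) (by linarith)
    have h3 : 12 * H ≤ z ^ 4 := by
      have h4 : z ^ 4 = (5 / 2 + (12 / 5 * al + 6 / 5 * s)) ^ 2 := by
        have : z ^ 4 = (z ^ 2) ^ 2 := by ring
        rw [this, hz]
        ring
      rw [h4]
      have h5 := sq_nonneg (5 / 2 - (12 / 5 * al + 6 / 5 * s))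
      linarith
    have h6 := mul_le_mul_of_nonneg_left k3 hH0
    linarith
  have A2 : H ≤ 1821 / 10000 * x * z ^ 3 := by
    have h2 : 325 / 100 * x ≤ z ^ 3 := by
      calc 325 / 100 * x = 5 / 2 * (13 / 10 * x) := by ring
        _ ≤ z ^ 2 * z := mul_le_mul (by rw [hz]; linarith) z2 (by positivity) (by positivity)
        _ = z ^ 3 := by ring
    have h3 : x * (325 / 100 * x) ≤ x * z ^ 3 := mul_le_mul_of_nonneg_left h2 hx0.le
    have h4 : x * (325 / 100 * x) = 325 / 100 * K := by rw [← hx]; ring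
    rw [h4] at h3
    linarith
  have A3 : H * x ≤ 3245 / 10000 * y ^ 4 := by
    have h2 : y ^ 3 * (1558 / 1000) ≤ y ^ 3 * y := mul_le_mul_of_nonneg_left y5 hy3.le
    have h3 : y ^ 3 * y = y ^ 4 := by ring
    rw [h3] at h2
    linarith
  have A4 : H ≤ 2290 / 10000 * x * y ^ 3 := by
    have h2 : H ^ 2 ≤ (5561 / 10000 * (x * y)) ^ 2 := by
      have h3 : H * H ≤ (5917 / 10000 * K) * (52264 / 100000 * y ^ 2) :=
        mul_le_mul k1 y1 hH0 (by positivity)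
      have h4 : (5561 / 10000 * (x * y)) ^ 2 = (5561 / 10000) ^ 2 * (K * y ^ 2) := by
        rw [← hx]; ring
      have h5 : 0 ≤ K * y ^ 2 := by positivity
      rw [h4]
      linarith
    have h3 : H ≤ 5561 / 10000 * (x * y) := b1_sq h2 (by positivity)
    have h6 : 243 / 100 ≤ y ^ 2 := by rw [hy]; linarith
    have h7 : 0 ≤ x * y := by positivity
    have h8 : 2290 / 10000 * x * y ^ 3 = 2290 / 10000 * ((x * y) * y ^ 2) := by ring
    rw [h8]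
    have h9 := mul_le_mul_of_nonneg_left h6 h7
    linarith
  have A5 : H ≤ 906 / 1000 * x := by
    rw [← hx] at k1
    have h2 : x ^ 2 ≤ 153 / 100 * x := by
      rw [sq]
      exact mul_le_mul_of_nonneg_right k3 hx0.le
    linarith
  exact b1_fin hx0 hy0 hz0 hx A1 A2 A3 A4 A5 k3 (by norm_num)

private theorem b1_large {al s H K x y z : ℝ} (h0 : 0 ≤ al) (h1 : al ≤ 127 / 100)
    (s1 : s ≤ 9 / 2)
    (hH0 : 0 ≤ H) (hK : K ^ 2 = (1 + al) ^ 2 + s ^ 2)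
    (hK0 : 0 < K) (hHK : H ^ 2 + 1 ≤ K ^ 2)
    (hx0 : 0 < x) (hx : x ^ 2 = K) (hy0 : 0 < y) (hy : y ^ 2 = 243 / 100 + 13 / 5 * s) (hz0 : 0 < z)
    (z1 : 17 / 10 * K ≤ z ^ 2) (z2 : 13 / 10 * x ≤ z)
    (y1 : H ≤ 52264 / 100000 * y ^ 2) (y4 : H * x ≤ 50515 / 100000 * y ^ 3) (hs : 1 / 2 < s) :
    H * (1633 / 10000 * (1 / z ^ 3 + 12 / 5 * (1 / y ^ 3)) + 75 / 10000) +
      3 / 10 * K * (49278 / 100000 * H * (1 / z ^ 4 + 19 / 10 * (1 / y ^ 4)) + 45 / 10000) ≤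
      24 / 100 * x := by
  have hHK' : H ≤ K := b1_sq (by linarith) hK0.le
  have k2 : K ≤ 5041 / 1000 := by
    have h2 : K ^ 2 ≤ (5041 / 1000) ^ 2 := by
      rw [hK]
      have h3 : s ^ 2 ≤ (9 / 2) ^ 2 := pow_le_pow_left₀ (by linarith) s1 2
      have h4 : (1 + al) ^ 2 ≤ (227 / 100) ^ 2 := pow_le_pow_left₀ (by linarith) (by linarith) 2
      norm_num at h3 h4 ⊢
      linarith
    exact b1_sq h2 (by norm_num)
  have k3 : x ≤ 225 / 100 := b1_sq (by rw [hx]; norm_num; linarith) (by norm_num)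
  have y6 : 373 / 100 ≤ y ^ 2 := by rw [hy]; linarith
  have y5 : 1931 / 1000 ≤ y := b1_sq (by norm_num; linarith) hy0.le
  have hy3 : 0 < y ^ 3 := pow_pos hy0 3
  have hz3 : 221 / 100 * x ^ 3 ≤ z ^ 3 := by
    calc 221 / 100 * x ^ 3 = (17 / 10 * x ^ 2) * (13 / 10 * x) := by ring
      _ ≤ z ^ 2 * z := mul_le_mul (by rw [hx]; exact z1) z2 (by positivity) (by positivity)
      _ = z ^ 3 := by ring
  have hz4 : 289 / 100 * x ^ 4 ≤ z ^ 4 := by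
    calc 289 / 100 * x ^ 4 = (17 / 10 * x ^ 2) * (17 / 10 * x ^ 2) := by ring
      _ ≤ z ^ 2 * z ^ 2 := mul_le_mul (by rw [hx]; exact z1) (by rw [hx]; exact z1)
          (by positivity) (by positivity)
      _ = z ^ 4 := by ring
  have A1 : H * x ≤ 22 / 100 * z ^ 4 := by
    have h2 : H ≤ 6358 / 10000 * x ^ 3 := by
      have h3 : H ^ 2 ≤ (6358 / 10000 * x ^ 3) ^ 2 := by
        have h4 : (6358 / 10000 * x ^ 3) ^ 2 = (6358 / 10000) ^ 2 * K ^ 3 := by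
          rw [← hx]; ring
        rw [h4]
        have h5 : 0 ≤ K * (K - 17 / 10) ^ 2 := by positivity
        have h6 := sq_nonneg (K - 17 / 10)
        have h7 := sq_nonneg K
        linarith
      exact b1_sq h3 (by positivity)
    have h5 := mul_le_mul_of_nonneg_right h2 hx0.le
    have h6 : 6358 / 10000 * x ^ 3 * x = 6358 / 10000 * x ^ 4 := by ring
    rw [h6] at h5
    linarith
  have A2 : H ≤ 2263 / 10000 * x * z ^ 3 := by
    have h2 : H ≤ 1 / 2 * x ^ 4 := by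
      have h3 : x ^ 4 = K ^ 2 := by rw [← hx]; ring
      rw [h3]
      have h4 : H ^ 2 ≤ (1 / 2 * K ^ 2) ^ 2 := by
        have h5 := sq_nonneg (K ^ 2 - 2)
        linarith
      exact b1_sq h4 (by positivity)
    have h5 := mul_le_mul_of_nonneg_left hz3 hx0.le
    have h6 : 0 ≤ x ^ 4 := by positivity
    have h7 : x * (221 / 100 * x ^ 3) = 221 / 100 * x ^ 4 := by ring
    rw [h7] at h5
    linarith
  have A3 : H * x ≤ 2617 / 10000 * y ^ 4 := by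
    have h2 : y ^ 3 * (1931 / 1000) ≤ y ^ 3 * y := mul_le_mul_of_nonneg_left y5 hy3.le
    have h3 : y ^ 3 * y = y ^ 4 := by ring
    rw [h3] at h2
    linarith
  have A4 : H ≤ 194 / 1000 * x * y ^ 3 := by
    have h2 : H ^ 2 ≤ (72295 / 100000 * (x * y)) ^ 2 := by
      have h3 : H * H ≤ K * (52264 / 100000 * y ^ 2) :=
        mul_le_mul hHK' y1 hH0 hK0.le
      have h4 : (72295 / 100000 * (x * y)) ^ 2 = (72295 / 100000) ^ 2 * (K * y ^ 2) := by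
        rw [← hx]; ring
      have h5 : 0 ≤ K * y ^ 2 := by positivity
      rw [h4]
      linarith
    have h3 : H ≤ 72295 / 100000 * (x * y) := b1_sq h2 (by positivity)
    have h7 : 0 ≤ x * y := by positivity
    have h8 : 194 / 1000 * x * y ^ 3 = 194 / 1000 * ((x * y) * y ^ 2) := by ring
    rw [h8]
    have h9 := mul_le_mul_of_nonneg_left y6 h7
    linarith
  have A5 : H ≤ 225 / 100 * x := by
    rw [← hx] at hHK'
    have h2 : x ^ 2 ≤ 225 / 100 * x := by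
      rw [sq]
      exact mul_le_mul_of_nonneg_right k3 hx0.le
    linarith
  exact b1_fin hx0 hy0 hz0 hx A1 A2 A3 A4 A5 k3 (by norm_num)

private theorem b1_core {al s H K x y z : ℝ} (h0 : 0 ≤ al) (h1 : al ≤ 127 / 100) (s0 : 0 ≤ s)
    (s1 : s ≤ 9 / 2) (hH0 : 0 ≤ H) (hH : H ^ 2 = al ^ 2 + s ^ 2) (hK : K ^ 2 = (1 + al) ^ 2 + s ^ 2)
    (hx0 : 0 < x) (hx : x ^ 2 = K) (hy0 : 0 < y) (hy : y ^ 2 = 243 / 100 + 13 / 5 * s) (hz0 : 0 < z)
    (hz : z ^ 2 = 5 / 2 + 12 / 5 * al + 6 / 5 * s) :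
    H * (1633 / 10000 * (1 / z ^ 3 + 12 / 5 * (1 / y ^ 3)) + 75 / 10000) +
      3 / 10 * K * (49278 / 100000 * H * (1 / z ^ 4 + 19 / 10 * (1 / y ^ 4)) + 45 / 10000) ≤
      24 / 100 * x := by
  have hK0 : 0 < K := by rw [← hx]; positivity
  have hHK : H ^ 2 + 1 ≤ K ^ 2 := by rw [hH, hK]; linarith
  have ha2 : 0 ≤ al * (127 / 100 - al) := mul_nonneg h0 (sub_nonneg.2 h1)
  have hs2 : 0 ≤ s * (9 / 2 - s) := mul_nonneg s0 (sub_nonneg.2 s1)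
  have has : 0 ≤ al * s := mul_nonneg h0 s0
  -- `κ ≤ cp / 1.7`
  have z1 : 17 / 10 * K ≤ z ^ 2 := by
    have h2 : (17 / 10 * K) ^ 2 ≤ (z ^ 2) ^ 2 := by
      rw [mul_pow, hK, hz]
      have h3 := sq_nonneg al
      linarith
    exact b1_sq h2 (by positivity)
  have z2 : 13 / 10 * x ≤ z := by
    have h2 : (13 / 10 * x) ^ 2 ≤ z ^ 2 := by
      rw [mul_pow, hx]
      linarith
    exact b1_sq h2 hz0.le
  -- `H ≤ .52264 cm`, `κ ≤ .93416 cm`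
  have y1 : H ≤ 52264 / 100000 * y ^ 2 := by
    have h2 : H ^ 2 ≤ (52264 / 100000 * y ^ 2) ^ 2 := by
      rw [hH, hy]
      have h3 := sq_nonneg s
      linarith
    exact b1_sq h2 (by positivity)
  have y2 : K ≤ 93416 / 100000 * y ^ 2 := by
    have h2 : K ^ 2 ≤ (93416 / 100000 * y ^ 2) ^ 2 := by
      rw [hK, hy]
      have h3 := sq_nonneg s
      linarith
    exact b1_sq h2 (by positivity)
  have y3 : x ≤ 96653 / 100000 * y := by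
    have h2 : x ^ 2 ≤ (96653 / 100000 * y) ^ 2 := by
      rw [hx, mul_pow]
      have := sq_nonneg y
      linarith
    exact b1_sq h2 (by positivity)
  have y4 : H * x ≤ 50515 / 100000 * y ^ 3 := by
    calc H * x ≤ (52264 / 100000 * y ^ 2) * (96653 / 100000 * y) :=
          mul_le_mul y1 y3 hx0.le (by positivity)
      _ = (52264 / 100000 * (96653 / 100000)) * y ^ 3 := by ring
      _ ≤ 50515 / 100000 * y ^ 3 := by
          refine mul_le_mul_of_nonneg_right ?_ (by positivity)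
          norm_num
  rcases le_or_gt s (1 / 2) with hs | hs
  · exact b1_small h0 h1 s0 hH0 hH hK hK0 hx0 hx hy0 hy hz0 hz z2 y1 y4 hs
  · exact b1_large h0 h1 s1 hH0 hK hK0 hHK hx0 hx hy0 hy hz0 z1 z2 y1 y4 hs

private theorem b1_exp : Real.exp (-(16 / 3)) ≤ 486 / 100000 := by
  have h1 : (113 / 81 : ℝ) ≤ Real.exp (1 / 3) := by
    have h := Real.sum_le_exp_of_nonneg (show (0 : ℝ) ≤ 1 / 3 by norm_num) 4
    norm_num [Finset.sum_range_succ, Nat.factorial] at h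
    linarith
  have h2 : Real.exp (16 / 3) = Real.exp (1 / 3) ^ 16 := by
    rw [← Real.exp_nat_mul]
    norm_num
  have h3 : (113 / 81 : ℝ) ^ 16 ≤ Real.exp (16 / 3) := by
    rw [h2]
    exact pow_le_pow_left₀ (by norm_num) h1 16
  have h4 : (100000 / 486 : ℝ) ≤ Real.exp (16 / 3) := le_trans (by norm_num) h3
  rw [Real.exp_neg]
  calc (Real.exp (16 / 3))⁻¹ ≤ (100000 / 486 : ℝ)⁻¹ := inv_anti₀ (by norm_num) h4
    _ = 486 / 100000 := by norm_num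

private theorem b1_exp2 {t : ℝ} (h : t ≤ -(32 / 3)) : Real.exp t ≤ 1 / 40000 := by
  have h1 : Real.exp t ≤ Real.exp (-(32 / 3)) := Real.exp_le_exp.2 h
  have h2 : Real.exp (-(32 / 3)) = Real.exp (-(16 / 3)) ^ 2 := by
    rw [← Real.exp_nat_mul]
    norm_num
  have h3 : Real.exp (-(16 / 3)) ^ 2 ≤ (486 / 100000) ^ 2 :=
    pow_le_pow_left₀ (Real.exp_nonneg _) b1_exp 2
  rw [h2] at h1
  exact h1.trans (h3.trans (by norm_num))

private theorem b1_q {q : ℝ} (hq : q ^ 2 = 29 / 4) : q ≤ 26926 / 10000 :=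
  b1_sq (by rw [hq]; norm_num) (by norm_num)

private theorem b1_low {H q cp cm y z : ℝ} (hH : 0 ≤ H) (hq : q ^ 2 = 29 / 4)
    (hy : y ^ 2 = cm) (hz : z ^ 2 = cp) (hcp : 5 / 2 ≤ cp)
    (hcm : 243 / 100 ≤ cm) :
    lowErr (9 / 80) H q (4 / 5) (1 / 2) (1 / 2) cp cm (3 / 5) (9 / 20) (8 / 5) 2 (19 / 10) ≤
      49278 / 100000 * H * (1 / z ^ 4 + 19 / 10 * (1 / y ^ 4)) + 45 / 10000 := by
  unfold lowErr
  have hq1 := b1_q hq
  have hq4 : q ^ 4 = 841 / 16 := by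
    have : q ^ 4 = (q ^ 2) ^ 2 := by ring
    rw [this, hq]
    norm_num
  have e1 : 1 / cp ^ 2 = 1 / z ^ 4 := by rw [← hz]; ring
  have e2 : (19 / 10 : ℝ) / cm ^ 2 = 19 / 10 * (1 / y ^ 4) := by rw [← hy]; ring
  have t1 : H * q ^ 4 / 12 * (1 / cp ^ 2 + 19 / 10 / cm ^ 2) * (9 / 80) ≤
      49278 / 100000 * H * (1 / z ^ 4 + 19 / 10 * (1 / y ^ 4)) := by
    rw [hq4, e1, e2]
    have h1 : 0 ≤ H * (1 / z ^ 4 + 19 / 10 * (1 / y ^ 4)) := by positivity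
    have h2 : H * (841 / 16) / 12 * (1 / z ^ 4 + 19 / 10 * (1 / y ^ 4)) * (9 / 80) =
        841 / 16 / 12 * (9 / 80) * (H * (1 / z ^ 4 + 19 / 10 * (1 / y ^ 4))) := by ring
    have h3 : 49278 / 100000 * H * (1 / z ^ 4 + 19 / 10 * (1 / y ^ 4)) =
        49278 / 100000 * (H * (1 / z ^ 4 + 19 / 10 * (1 / y ^ 4))) := by ring
    rw [h2, h3]
    exact mul_le_mul_of_nonneg_right (by norm_num) h1
  have E1 : Real.exp (-(3 / 5) / (9 / 80)) ≤ 486 / 100000 := by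
    have : (-(3 / 5) / (9 / 80) : ℝ) = -(16 / 3) := by norm_num
    rw [this]
    exact b1_exp
  have E2 : Real.exp (-(cp * (1 / 2) ^ 2) / (9 / 80)) ≤ 486 / 100000 := by
    refine (Real.exp_le_exp.2 ?_).trans b1_exp
    linarith
  have E3 : Real.exp (-(cm * (4 / 5) ^ 2) / (9 / 80)) ≤ 1 / 40000 := by
    refine b1_exp2 ?_
    linarith
  have E4 : Real.exp (-(8 / 5) / (9 / 80)) ≤ 1 / 40000 := b1_exp2 (by norm_num)
  have t2 : ((1 / 2 - 1 / 2) + 9 / 80 / (9 / 20)) * Real.exp (-(3 / 5) / (9 / 80)) ≤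
      1 / 4 * (486 / 100000) := by
    have : ((1 / 2 - 1 / 2) + 9 / 80 / (9 / 20) : ℝ) = 1 / 4 := by norm_num
    rw [this]
    linarith
  have t3 : 9 / 80 / (cp * (1 / 2)) * Real.exp (-(cp * (1 / 2) ^ 2) / (9 / 80)) ≤
      9 / 100 * (486 / 100000) := by
    refine mul_le_mul ?_ E2 (Real.exp_nonneg _) (by norm_num)
    rw [div_le_iff₀ (by positivity)]
    linarith
  have t4 : 9 / 80 / (cm * (4 / 5)) * Real.exp (-(cm * (4 / 5) ^ 2) / (9 / 80)) ≤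
      6 / 100 * (1 / 40000) := by
    refine mul_le_mul ?_ E3 (Real.exp_nonneg _) (by norm_num)
    rw [div_le_iff₀ (by positivity)]
    linarith
  have t5 : q * (((1 / 2 - 1 / 2) + 9 / 80 / (9 / 20)) * Real.exp (-(3 / 5) / (9 / 80)) +
      9 / 80 / (cp * (1 / 2)) * Real.exp (-(cp * (1 / 2) ^ 2) / (9 / 80)) +
      9 / 80 / (cm * (4 / 5)) * Real.exp (-(cm * (4 / 5) ^ 2) / (9 / 80))) ≤
      26926 / 10000 * (1 / 4 * (486 / 100000) + 9 / 100 * (486 / 100000) +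
        6 / 100 * (1 / 40000)) := by
    refine mul_le_mul hq1 (add_le_add (add_le_add t2 t3) t4) ?_ (by norm_num)
    have : 0 ≤ ((1 / 2 - 1 / 2) + 9 / 80 / (9 / 20) : ℝ) := by norm_num
    positivity
  have t6 : 9 / 80 / 2 * Real.exp (-(8 / 5) / (9 / 80)) ≤ 9 / 80 / 2 * (1 / 40000) :=
    mul_le_mul_of_nonneg_left E4 (by norm_num)
  refine (add_le_add (add_le_add t1 t5) t6).trans ?_
  have h7 : (26926 / 10000 * (1 / 4 * (486 / 100000) + 9 / 100 * (486 / 100000) +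
        6 / 100 * (1 / 40000)) + 9 / 80 / 2 * (1 / 40000) : ℝ) ≤ 45 / 10000 := by norm_num
  linarith

private theorem b1_up {q cp cm y z : ℝ} (hq0 : 0 ≤ q) (hq : q ^ 2 = 29 / 4)
    (hy0 : 0 < y) (hy : y ^ 2 = cm) (hz0 : 0 < z) (hz : z ^ 2 = cp) :
    upErr (9 / 80) q 1 (4 / 5) (1 / 2) (1 / 2) cp cm (3 / 5) (9 / 20) (8 / 5) 2 (12 / 5) ≤
      1633 / 10000 * (1 / z ^ 3 + 12 / 5 * (1 / y ^ 3)) + 75 / 10000 := by
  unfold upErr
  have hq1 := b1_q hq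
  have hq3 : q ^ 3 ≤ 29 / 4 * (26926 / 10000) := by
    have : q ^ 3 = q ^ 2 * q := by ring
    rw [this, hq]
    linarith
  have hq3' : 0 ≤ q ^ 3 := by positivity
  have hpi : Real.sqrt Real.pi ≤ 17725 / 10000 :=
    Real.sqrt_le_iff.2 ⟨by norm_num, by have := Real.pi_lt_d4; norm_num at this ⊢; linarith⟩
  have hd : Real.sqrt (9 / 80) ≤ 33542 / 100000 :=
    Real.sqrt_le_iff.2 ⟨by norm_num, by norm_num⟩
  have g : ∀ {w c : ℝ}, 0 < w → w ^ 2 = c →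
      9 / 80 / c * Real.sqrt (9 / 80 / c) = 9 / 80 * Real.sqrt (9 / 80) * (1 / w ^ 3) := by
    intro w c hw hc
    rw [← hc, Real.sqrt_div (by norm_num), Real.sqrt_sq hw.le]
    field_simp
  have t1 : q ^ 3 * (Real.sqrt Real.pi / 8) *
      (9 / 80 / cp * Real.sqrt (9 / 80 / cp) + 12 / 5 * (9 / 80 / cm) * Real.sqrt (9 / 80 / cm)) ≤
      1633 / 10000 * (1 / z ^ 3 + 12 / 5 * (1 / y ^ 3)) := by
    have e1 : q ^ 3 * (Real.sqrt Real.pi / 8) *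
      (9 / 80 / cp * Real.sqrt (9 / 80 / cp) + 12 / 5 * (9 / 80 / cm) * Real.sqrt (9 / 80 / cm)) =
      (q ^ 3 * (Real.sqrt Real.pi / 8) * (9 / 80 * Real.sqrt (9 / 80))) *
        (1 / z ^ 3 + 12 / 5 * (1 / y ^ 3)) := by
      rw [g hz0 hz, mul_assoc (12 / 5 : ℝ), g hy0 hy]
      ring
    rw [e1]
    refine mul_le_mul_of_nonneg_right ?_ (by positivity)
    have e2 : q ^ 3 * (Real.sqrt Real.pi / 8) ≤ 29 / 4 * (26926 / 10000) * (17725 / 10000 / 8) :=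
      mul_le_mul hq3 (by linarith) (by positivity) (by norm_num)
    have e3 : q ^ 3 * (Real.sqrt Real.pi / 8) * (9 / 80 * Real.sqrt (9 / 80)) ≤
        29 / 4 * (26926 / 10000) * (17725 / 10000 / 8) * (9 / 80 * (33542 / 100000)) :=
      mul_le_mul e2 (by linarith) (by positivity) (by norm_num)
    exact e3.trans (by norm_num)
  have E1 : Real.exp (-(3 / 5) / (9 / 80)) ≤ 486 / 100000 := by
    have : (-(3 / 5) / (9 / 80) : ℝ) = -(16 / 3) := by norm_num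
    rw [this]
    exact b1_exp
  have t2 : q ^ 3 / 2 * (((1 / 2) ^ 3 - (1 / 2) ^ 3) / 3 +
      9 / 80 / (9 / 20) * ((1 / 2) ^ 2 + 2 * (1 / 2) * (9 / 80 / (9 / 20)) +
        2 * (9 / 80 / (9 / 20)) ^ 2)) * Real.exp (-(3 / 5) / (9 / 80)) ≤
      29 / 4 * (26926 / 10000) / 2 * (5 / 32) * (486 / 100000) := by
    have e1 : (((1 / 2) ^ 3 - (1 / 2) ^ 3) / 3 +
      9 / 80 / (9 / 20) * ((1 / 2) ^ 2 + 2 * (1 / 2) * (9 / 80 / (9 / 20)) +
        2 * (9 / 80 / (9 / 20)) ^ 2) : ℝ) = 5 / 32 := by norm_num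
    rw [e1]
    refine mul_le_mul ?_ E1 (Real.exp_nonneg _) (by norm_num)
    linarith
  have t3 : Real.exp (4 / 5 * 1 - 8 / 5 / (9 / 80)) / 2 * ((4 / 5 * q) ^ 2 / (2 / (9 / 80) - 1) +
      2 * (4 / 5 * q) / (2 / (9 / 80) - 1) ^ 2 + 2 / (2 / (9 / 80) - 1) ^ 3) ≤
      1 / 40000 / 2 * 1 := by
    have E2 : Real.exp (4 / 5 * 1 - 8 / 5 / (9 / 80)) ≤ 1 / 40000 := b1_exp2 (by norm_num)
    have e1 : (2 / (9 / 80) - 1 : ℝ) = 151 / 9 := by norm_num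
    have e2 : (4 / 5 * q) ^ 2 = 16 / 25 * (29 / 4) := by
      rw [mul_pow, hq]
      norm_num
    rw [e1, e2]
    refine mul_le_mul (by linarith) ?_ ?_ (by norm_num)
    · norm_num
      linarith
    · positivity
  refine (add_le_add (add_le_add t1 t2) t3).trans ?_
  have h7 : (29 / 4 * (26926 / 10000) / 2 * (5 / 32) * (486 / 100000) + 1 / 40000 / 2 * 1 : ℝ) ≤
    75 / 10000 := by norm_num
  linarith

theorem est_B1 {δ a s : ℝ} (hδ : 0 < δ) (hδ' : δ ≤ 9 / 80) (ha : a ≤ 0) (ha' : -(127 / 100) ≤ a)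
    (hs : 0 ≤ s) (hs' : s ≤ 9 / 2) :
    JJ δ (a + s * I) (4 / 5 * (1 + (5 / 2 : ℝ) * I)) (-(1 + (5 / 2 : ℝ) * I)) (fun _ => 1) ≠ 0 ∧
    ‖JJ δ (a + s * I) (4 / 5 * (1 + (5 / 2 : ℝ) * I)) (-(1 + (5 / 2 : ℝ) * I)) (fun v => v)‖ ≤
      3 / 10 * ‖JJ δ (a + s * I) (4 / 5 * (1 + (5 / 2 : ℝ) * I)) (-(1 + (5 / 2 : ℝ) * I))
        (fun _ => 1)‖ := by
  have H := hyp_B1 hδ hδ' ha ha' hs hs'
  have hp : (4 / 5 * (1 + (5 / 2 : ℝ) * I) : ℂ) =
      -(((4 / 5 : ℝ) : ℂ) * (-(1 + (5 / 2 : ℝ) * I))) := by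
    push_cast
    ring
  rw [hp]
  -- the norms
  have hh2 : ‖(a + s * I : ℂ)‖ ^ 2 = (-a) ^ 2 + s ^ 2 := by
    rw [Complex.sq_norm, Complex.normSq_add_mul_I]
    ring
  have hk2 : ‖(1 - (a + s * I) : ℂ)‖ ^ 2 = (1 + -a) ^ 2 + s ^ 2 := by
    have e : (1 - (a + s * I) : ℂ) = ((1 - a : ℝ) : ℂ) + ((-s : ℝ) : ℂ) * I := by
      push_cast
      ring
    rw [e, Complex.sq_norm, Complex.normSq_add_mul_I]
    ring
  have hd2 : ‖(-(1 + (5 / 2 : ℝ) * I) : ℂ)‖ ^ 2 = 29 / 4 := by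
    have e : (-(1 + (5 / 2 : ℝ) * I) : ℂ) = ((-1 : ℝ) : ℂ) + ((-(5 / 2) : ℝ) : ℂ) * I := by
      push_cast
      ring
    rw [e, Complex.sq_norm, Complex.normSq_add_mul_I]
    norm_num
  have hdre : |(-(1 + (5 / 2 : ℝ) * I) : ℂ).re| = 1 := by
    simp
  set h : ℂ := a + s * I with hh
  set d : ℂ := -(1 + (5 / 2 : ℝ) * I) with hd
  have hκ0 : 0 < ‖1 - h‖ := norm_pos_iff.2 (sub_ne_zero.2 (Ne.symm H.h_ne))
  have hx0 : 0 < Real.sqrt ‖1 - h‖ := Real.sqrt_pos.2 hκ0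
  have hx : Real.sqrt ‖1 - h‖ ^ 2 = ‖1 - h‖ := Real.sq_sqrt hκ0.le
  have hcm : 0 < 243 / 100 + 13 / 5 * s := by positivity
  have hy0 : 0 < Real.sqrt (243 / 100 + 13 / 5 * s) := Real.sqrt_pos.2 hcm
  have hy : Real.sqrt (243 / 100 + 13 / 5 * s) ^ 2 = 243 / 100 + 13 / 5 * s := Real.sq_sqrt hcm.le
  have hcp : 5 / 2 ≤ 5 / 2 - 12 / 5 * a + 6 / 5 * s := by linarith
  have hz0 : 0 < Real.sqrt (5 / 2 - 12 / 5 * a + 6 / 5 * s) := Real.sqrt_pos.2 (by linarith)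
  have hz : Real.sqrt (5 / 2 - 12 / 5 * a + 6 / 5 * s) ^ 2 = 5 / 2 - 12 / 5 * a + 6 / 5 * s :=
    Real.sq_sqrt (by linarith)
  have hcore := b1_core (al := -a) (s := s) (H := ‖h‖) (K := ‖1 - h‖) (by linarith) (by linarith)
    hs hs' (norm_nonneg _) hh2 hk2 hx0 hx hy0 hy hz0 (by rw [hz]; ring)
  have hlow := b1_low (H := ‖h‖) (q := ‖d‖) (norm_nonneg _) hd2 hy hz hcp
    (by linarith)
  have hup := b1_up (q := ‖d‖) (norm_nonneg _) hd2 hy0 hy hz0 hz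
  have hG : 8407 / 10000 * Real.sqrt ‖1 - h‖ ≤
      ‖1 - h‖ * Real.sqrt (2 * Real.pi * (9 / 80) / ‖1 - h‖) := by
    rw [Real.sqrt_div (by positivity)]
    have e1 : ‖1 - h‖ * (Real.sqrt (2 * Real.pi * (9 / 80)) / Real.sqrt ‖1 - h‖) =
        Real.sqrt (2 * Real.pi * (9 / 80)) * Real.sqrt ‖1 - h‖ := by
      nth_rewrite 1 [← hx]
      field_simp
    rw [e1]
    refine mul_le_mul_of_nonneg_right ?_ hx0.le
    refine Real.le_sqrt_of_sq_le ?_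
    have := Real.pi_gt_d4
    norm_num at this ⊢
    linarith
  set x : ℝ := Real.sqrt ‖1 - h‖ with hxd
  set G : ℝ := Real.sqrt (2 * Real.pi * (9 / 80) / ‖1 - h‖) with hGd
  set L : ℝ := lowErr (9 / 80) ‖h‖ ‖d‖ (4 / 5) (1 / 2) (1 / 2) (5 / 2 - 12 / 5 * a + 6 / 5 * s)
    (243 / 100 + 13 / 5 * s) (3 / 5) (9 / 20) (8 / 5) 2 (19 / 10) with hLd
  set U : ℝ := upErr (9 / 80) ‖d‖ 1 (4 / 5) (1 / 2) (1 / 2) (5 / 2 - 12 / 5 * a + 6 / 5 * s)
    (243 / 100 + 13 / 5 * s) (3 / 5) (9 / 20) (8 / 5) 2 (12 / 5) with hUd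
  have hU0 : 0 ≤ ‖h‖ * (1633 / 10000 * (1 / Real.sqrt (5 / 2 - 12 / 5 * a + 6 / 5 * s) ^ 3 +
      12 / 5 * (1 / Real.sqrt (243 / 100 + 13 / 5 * s) ^ 3)) + 75 / 10000) := by positivity
  have h1 := mul_le_mul_of_nonneg_left hup (norm_nonneg h)
  have h2 := mul_le_mul_of_nonneg_left hlow (show 0 ≤ 3 / 10 * ‖1 - h‖ by positivity)
  refine gen_fin H hδ' (by norm_num) (by norm_num) (by norm_num) (by norm_num) ?_ ?_
  · have h3 : 3 / 10 * ‖1 - h‖ * L < 3 / 10 * ‖1 - h‖ * G := by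
      have h4 : 3 / 10 * ‖1 - h‖ * G = 3 / 10 * (‖1 - h‖ * G) := by ring
      rw [h4]
      linarith
    exact lt_of_mul_lt_mul_left h3 (by positivity)
  · rw [hdre]
    have h4 : 3 / 10 * ‖1 - h‖ * (G - L) = 3 / 10 * (‖1 - h‖ * G) - 3 / 10 * ‖1 - h‖ * L := by ring
    rw [h4]
    linarith

end SokalFU
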