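import Pool.Agent.Lib_MP_af4de1_fu.MMon
import Pool.Agent.Lib_MP_af4de1_fu.MHypB

/-!
# Case B2: the estimate [FU-M21]

`gen_fin` with `hyp_B2`, `k = 3/10`.  `q² = 29/4`, `q³ = 19.5213`, `q⁴ = 52.5625`, `H² = a² + s² ≤ 1.16 s²`, `κ² = (1-a)² + s²`, `s ≤ κ`, `κ² ≤ 1 + s²`,
`cp = 2.5 - 2.75 a + 1.2 s ≥ max(2.5 + .1 s, -.25 + 1.543 s)` (by `a ≤ .4 s`, `a ≤ 1 - s/8`), `cm ≥ 2.5 + 1.6 s`.
`lowErr ≤ .49278 H (1/cp² + 1.9/cm²) + .0043`, `upErr ≤ .1633 (cp^(-3/2) + 2.4 cm^(-3/2)) + .0075`.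
To show: `H upErr ≤ .3 κ (.84077/√κ - lowErr)` (worst point `a = .762, s = 1.905`: `.153 ≤ .231`); everything reduces to one variable `s ∈ [1, 5.7]`:
`1.0771 s (.1633 (cp^(-3/2) + 2.4 cm^(-3/2)) + .0075) + .3·.49278·1.0771 s κ (1/cp² + 1.9/cm²) + .0013 κ ≤ .25223 √κ` with `κ` between `s` and `√(1+s²)`.
-/

set_option autoImplicit false

namespace SokalFU

open Complex

private theorem b2_exp : Real.exp (-(16 / 3)) ≤ 484 / 100000 := by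
  have h1 := Real.exp_one_gt_d9
  have h2 := Real.sum_le_exp_of_nonneg (show (0 : ℝ) ≤ 1 / 3 by norm_num) 4
  norm_num [Finset.sum_range_succ, Nat.factorial] at h2
  have h3 : Real.exp (16 / 3) = Real.exp 1 ^ 5 * Real.exp (1 / 3) := by
    rw [← Real.exp_nat_mul, ← Real.exp_add]
    norm_num
  have h4 : (271 / 100 : ℝ) ^ 5 ≤ Real.exp 1 ^ 5 := by
    apply pow_le_pow_left₀ (by norm_num)
    linarith
  have h4' : (2718 / 1000 : ℝ) ^ 5 ≤ Real.exp 1 ^ 5 := by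
    apply pow_le_pow_left₀ (by norm_num)
    linarith
  have h5 : (100000 / 484 : ℝ) ≤ Real.exp (16 / 3) := by
    rw [h3]
    calc (100000 / 484 : ℝ) ≤ (2718 / 1000 : ℝ) ^ 5 * (1395 / 1000) := by norm_num
      _ ≤ Real.exp 1 ^ 5 * Real.exp (1 / 3) :=
        mul_le_mul h4' (by linarith) (by norm_num) (by positivity)
  rw [Real.exp_neg]
  calc (Real.exp (16 / 3))⁻¹ ≤ (100000 / 484 : ℝ)⁻¹ := inv_anti₀ (by norm_num) h5
    _ = 484 / 100000 := by norm_num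

private theorem b2_exp2 : Real.exp (-(32 / 3)) ≤ 235 / 10000000 := by
  have h1 := b2_exp
  have h2 : Real.exp (-(32 / 3)) = Real.exp (-(16 / 3)) * Real.exp (-(16 / 3)) := by
    rw [← Real.exp_add]; norm_num
  rw [h2]
  calc Real.exp (-(16 / 3)) * Real.exp (-(16 / 3)) ≤ (484 / 100000) * (484 / 100000) :=
        mul_le_mul h1 h1 (Real.exp_pos _).le (by norm_num)
    _ ≤ _ := by norm_num

private theorem b2_cube {s cp : ℝ} (hs : 1 ≤ s) (hs' : s ≤ 57 / 10)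
    (h1 : 5 / 2 + s / 10 ≤ cp) (h2 : -(1 / 4) + 247 / 160 * s ≤ cp) : 10 * s ≤ cp ^ 3 := by
  rcases le_total s (19 / 10) with h | h
  · have h3 : (5 / 2 + s / 10) ^ 3 ≤ cp ^ 3 := pow_le_pow_left₀ (by linarith) h1 3
    nlinarith [mul_nonneg (sub_nonneg.2 hs) (sub_nonneg.2 h), mul_nonneg (mul_nonneg (sub_nonneg.2 hs) (sub_nonneg.2 hs)) (sub_nonneg.2 h)]
  · have h3 : (-(1 / 4) + 247 / 160 * s) ^ 3 ≤ cp ^ 3 := pow_le_pow_left₀ (by linarith) h2 3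
    nlinarith [mul_nonneg (sub_nonneg.2 h) (sub_nonneg.2 h), mul_nonneg (mul_nonneg (sub_nonneg.2 h) (sub_nonneg.2 h)) (sub_nonneg.2 h)]

private theorem b2_cubem {s cm : ℝ} (hs : 1 ≤ s) (h1 : 5 / 2 + 8 / 5 * s ≤ cm) :
    68 * s ≤ cm ^ 3 := by
  have h3 : (5 / 2 + 8 / 5 * s) ^ 3 ≤ cm ^ 3 := pow_le_pow_left₀ (by linarith) h1 3
  nlinarith [mul_nonneg (sub_nonneg.2 hs) (sub_nonneg.2 hs), mul_nonneg (mul_nonneg (sub_nonneg.2 hs) (sub_nonneg.2 hs)) (sub_nonneg.2 hs)]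

private theorem b2_four {s cp : ℝ} (hs : 1 ≤ s) (hs' : s ≤ 57 / 10)
    (h1 : 5 / 2 + s / 10 ≤ cp) (h2 : -(1 / 4) + 247 / 160 * s ≤ cp) :
    29 / 25 * (s ^ 3 + s / 2) ≤ 18 / 100 * cp ^ 4 := by
  rcases le_total s (19 / 10) with h | h
  · have h3 : (5 / 2 + s / 10) ^ 4 ≤ cp ^ 4 := pow_le_pow_left₀ (by linarith) h1 4
    nlinarith [mul_nonneg (sub_nonneg.2 hs) (sub_nonneg.2 h), mul_nonneg (mul_nonneg (sub_nonneg.2 hs) (sub_nonneg.2 hs)) (sub_nonneg.2 h), mul_nonneg (mul_nonneg (sub_nonneg.2 hs) (sub_nonneg.2 h)) (sub_nonneg.2 h), pow_nonneg (sub_nonneg.2 hs) 4]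
  · have h3 : (-(1 / 4) + 247 / 160 * s) ^ 4 ≤ cp ^ 4 := pow_le_pow_left₀ (by linarith) h2 4
    nlinarith [mul_nonneg (sub_nonneg.2 h) (sub_nonneg.2 h), mul_nonneg (mul_nonneg (sub_nonneg.2 h) (sub_nonneg.2 h)) (sub_nonneg.2 h), pow_nonneg (sub_nonneg.2 h) 4]

private theorem b2_fourm {s cm : ℝ} (hs : 1 ≤ s) (hs' : s ≤ 57 / 10)
    (h1 : 5 / 2 + 8 / 5 * s ≤ cm) :
    29 / 25 * (s ^ 3 + s / 2) ≤ 125 / 10000 * cm ^ 4 := by
  have h3 : (5 / 2 + 8 / 5 * s) ^ 4 ≤ cm ^ 4 := pow_le_pow_left₀ (by linarith) h1 4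
  have h4 := sq_nonneg (s * (s - 791 / 200))
  have h5 : 0 ≤ s * (57 / 10 - s) := mul_nonneg (by linarith) (by linarith)
  nlinarith [h3, h4, h5]

private theorem b2_q {q : ℝ} (hq : q ^ 2 = 29 / 4) : q ≤ 26926 / 10000 := by
  by_contra h
  push Not at h
  nlinarith

private theorem b2_low {H q cp cm : ℝ} (hH : 0 ≤ H) (hq0 : 0 ≤ q) (hq : q ^ 2 = 29 / 4)
    (hcp : 13 / 5 ≤ cp) (hcm : 41 / 10 ≤ cm) :
    lowErr (9 / 80) H q (4 / 5) (1 / 2) (1 / 2) cp cm (3 / 5) (9 / 20) (8 / 5) 2 (19 / 10) ≤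
      4928 / 10000 * (H * (1 / cp ^ 2)) + 4928 / 10000 * (19 / 10) * (H * (1 / cm ^ 2)) +
        46 / 10000 := by
  have hq1 := b2_q hq
  have E1 : Real.exp (-(3 / 5) / (9 / 80)) ≤ 484 / 100000 := by
    have : (-(3 / 5) / (9 / 80) : ℝ) = -(16 / 3) := by norm_num
    rw [this]; exact b2_exp
  have E2 : Real.exp (-(cp * (1 / 2) ^ 2) / (9 / 80)) ≤ 484 / 100000 := by
    refine le_trans (Real.exp_le_exp.2 ?_) b2_exp
    have : -(cp * (1 / 2) ^ 2) / (9 / 80) = -(20 / 9 * cp) := by ring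
    rw [this]; linarith
  have E3 : Real.exp (-(cm * (4 / 5) ^ 2) / (9 / 80)) ≤ 235 / 10000000 := by
    refine le_trans (Real.exp_le_exp.2 ?_) b2_exp2
    have : -(cm * (4 / 5) ^ 2) / (9 / 80) = -(256 / 45 * cm) := by ring
    rw [this]; linarith
  have E4 : Real.exp (-(8 / 5) / (9 / 80)) ≤ 235 / 10000000 := by
    refine le_trans (Real.exp_le_exp.2 ?_) b2_exp2
    norm_num
  have F2 : (9 / 80) / (cp * (1 / 2)) ≤ 87 / 1000 := by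
    rw [div_le_iff₀ (by linarith)]
    linarith
  have F3 : (9 / 80) / (cm * (4 / 5)) ≤ 35 / 1000 := by
    rw [div_le_iff₀ (by linarith)]
    linarith
  have G2 : (9 / 80) / (cp * (1 / 2)) * Real.exp (-(cp * (1 / 2) ^ 2) / (9 / 80)) ≤
      87 / 1000 * (484 / 100000) :=
    mul_le_mul F2 E2 (Real.exp_pos _).le (by norm_num)
  have G3 : (9 / 80) / (cm * (4 / 5)) * Real.exp (-(cm * (4 / 5) ^ 2) / (9 / 80)) ≤
      35 / 1000 * (235 / 10000000) :=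
    mul_le_mul F3 E3 (Real.exp_pos _).le (by norm_num)
  have hcp0 : 0 < cp := by linarith
  have hcm0 : 0 < cm := by linarith
  have G1 : H * q ^ 4 / 12 * (1 / cp ^ 2 + (19 / 10) / cm ^ 2) * (9 / 80) ≤
      4928 / 10000 * (H * (1 / cp ^ 2)) + 4928 / 10000 * (19 / 10) * (H * (1 / cm ^ 2)) := by
    have e1 : q ^ 4 = 841 / 16 := by
      have : q ^ 4 = (q ^ 2) ^ 2 := by ring
      rw [this, hq]; norm_num
    rw [e1]
    have p1 : 0 ≤ H * (1 / cp ^ 2) := by positivity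
    have p2 : 0 ≤ H * (1 / cm ^ 2) := by positivity
    have e2 : H * (841 / 16) / 12 * (1 / cp ^ 2 + (19 / 10) / cm ^ 2) * (9 / 80) =
        841 / 16 / 12 * (9 / 80) * (H * (1 / cp ^ 2)) +
          841 / 16 / 12 * (9 / 80) * (19 / 10) * (H * (1 / cm ^ 2)) := by ring
    rw [e2]
    have c1 : (841 / 16 / 12 * (9 / 80) : ℝ) ≤ 4928 / 10000 := by norm_num
    nlinarith
  have G4 : q * (((1 / 2 - 1 / 2) + (9 / 80) / (9 / 20)) * Real.exp (-(3 / 5) / (9 / 80)) +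
      (9 / 80) / (cp * (1 / 2)) * Real.exp (-(cp * (1 / 2) ^ 2) / (9 / 80)) +
      (9 / 80) / (cm * (4 / 5)) * Real.exp (-(cm * (4 / 5) ^ 2) / (9 / 80))) ≤
      26926 / 10000 * (1 / 4 * (484 / 100000) + 87 / 1000 * (484 / 100000) +
        35 / 1000 * (235 / 10000000)) := by
    refine mul_le_mul hq1 ?_ (by positivity) (by norm_num)
    have : ((1 / 2 - 1 / 2) + (9 / 80) / (9 / 20) : ℝ) = 1 / 4 := by norm_num
    rw [this]
    linarith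
  have G5 : (9 / 80) / 2 * Real.exp (-(8 / 5) / (9 / 80)) ≤ (9 / 80) / 2 * (235 / 10000000) :=
    mul_le_mul_of_nonneg_left E4 (by norm_num)
  unfold lowErr
  norm_num at G4 G5 ⊢
  norm_num at G1
  linarith

private theorem b2_up {q cp cm : ℝ} (hq0 : 0 ≤ q) (hq : q ^ 2 = 29 / 4)
    (hcp : 0 < cp) (hcm : 0 < cm) :
    upErr (9 / 80) q 1 (4 / 5) (1 / 2) (1 / 2) cp cm (3 / 5) (9 / 20) (8 / 5) 2 (12 / 5) ≤
      433 / 100 * ((9 / 80) / cp * Real.sqrt ((9 / 80) / cp)) +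
      433 / 100 * (12 / 5) * ((9 / 80) / cm * Real.sqrt ((9 / 80) / cm)) + 75 / 10000 := by
  have hq1 := b2_q hq
  have e3 : q ^ 3 = 29 / 4 * q := by
    have : q ^ 3 = q ^ 2 * q := by ring
    rw [this, hq]
  have hpi : Real.sqrt Real.pi ≤ 17725 / 10000 := by
    apply Real.sqrt_le_iff.2
    constructor
    · norm_num
    · have := Real.pi_lt_d4
      norm_num at this ⊢
      linarith
  have E1 : Real.exp (-(3 / 5) / (9 / 80)) ≤ 484 / 100000 := by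
    have : (-(3 / 5) / (9 / 80) : ℝ) = -(16 / 3) := by norm_num
    rw [this]; exact b2_exp
  have E4 : Real.exp (4 / 5 * 1 - (8 / 5) / (9 / 80)) ≤ 235 / 10000000 := by
    refine le_trans (Real.exp_le_exp.2 ?_) b2_exp2
    norm_num
  set X : ℝ := (9 / 80) / cp * Real.sqrt ((9 / 80) / cp) with hX
  set Y : ℝ := (9 / 80) / cm * Real.sqrt ((9 / 80) / cm) with hY
  have hX0 : 0 ≤ X := by positivity
  have hY0 : 0 ≤ Y := by positivity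
  have c1 : q ^ 3 * (Real.sqrt Real.pi / 8) ≤ 433 / 100 := by
    rw [e3]
    calc 29 / 4 * q * (Real.sqrt Real.pi / 8) ≤
        (29 / 4 * (26926 / 10000)) * ((17725 / 10000) / 8) :=
          mul_le_mul (by linarith) (by linarith) (by positivity) (by norm_num)
      _ ≤ _ := by norm_num
  have G1 : q ^ 3 * (Real.sqrt Real.pi / 8) * ((9 / 80) / cp * Real.sqrt ((9 / 80) / cp) +
      (12 / 5) * ((9 / 80) / cm) * Real.sqrt ((9 / 80) / cm)) ≤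
      433 / 100 * X + 433 / 100 * (12 / 5) * Y := by
    have e1 : (9 / 80) / cp * Real.sqrt ((9 / 80) / cp) +
      (12 / 5) * ((9 / 80) / cm) * Real.sqrt ((9 / 80) / cm) = X + 12 / 5 * Y := by
      rw [hX, hY]; ring
    rw [e1]
    have := mul_le_mul_of_nonneg_right c1 (show 0 ≤ X + 12 / 5 * Y by positivity)
    linarith
  have G2 : q ^ 3 / 2 * (((1 / 2) ^ 3 - (1 / 2) ^ 3) / 3 + (9 / 80) / (9 / 20) *
      ((1 / 2) ^ 2 + 2 * (1 / 2) * ((9 / 80) / (9 / 20)) + 2 * ((9 / 80) / (9 / 20)) ^ 2)) *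
      Real.exp (-(3 / 5) / (9 / 80)) ≤ 74 / 10000 := by
    rw [e3]
    have e4 : (((1 / 2) ^ 3 - (1 / 2) ^ 3) / 3 + (9 / 80) / (9 / 20) *
      ((1 / 2) ^ 2 + 2 * (1 / 2) * ((9 / 80) / (9 / 20)) + 2 * ((9 / 80) / (9 / 20)) ^ 2) : ℝ) =
        5 / 32 := by norm_num
    rw [e4]
    calc 29 / 4 * q / 2 * (5 / 32) * Real.exp (-(3 / 5) / (9 / 80)) ≤
        (29 / 4 * (26926 / 10000) / 2 * (5 / 32)) * (484 / 100000) :=
          mul_le_mul (by linarith) E1 (Real.exp_pos _).le (by norm_num)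
      _ ≤ _ := by norm_num
  have G3 : Real.exp (4 / 5 * 1 - (8 / 5) / (9 / 80)) / 2 *
      ((4 / 5 * q) ^ 2 / (2 / (9 / 80) - 1) + 2 * (4 / 5 * q) / (2 / (9 / 80) - 1) ^ 2 +
        2 / (2 / (9 / 80) - 1) ^ 3) ≤ 1 / 100000 := by
    have e5 : (4 / 5 * q) ^ 2 / (2 / (9 / 80) - 1) + 2 * (4 / 5 * q) / (2 / (9 / 80) - 1) ^ 2 +
        2 / (2 / (9 / 80) - 1) ^ 3 ≤ 1 / 2 := by
      have e6 : (4 / 5 * q) ^ 2 = 16 / 25 * (29 / 4) := by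
        rw [mul_pow, hq]; norm_num
      rw [e6]
      norm_num
      linarith
    have e7 : 0 ≤ (4 / 5 * q) ^ 2 / (2 / (9 / 80) - 1) + 2 * (4 / 5 * q) / (2 / (9 / 80) - 1) ^ 2 +
        2 / (2 / (9 / 80) - 1) ^ 3 := by
      norm_num
      positivity
    calc _ ≤ (235 / 10000000) / 2 * (1 / 2) :=
          mul_le_mul (by linarith) e5 e7 (by norm_num)
      _ ≤ _ := by norm_num
  unfold upErr
  linarith

private theorem b2_T {s H κ K c n X : ℝ} (hs : 1 ≤ s) (hH : H ^ 2 ≤ 29 / 25 * s ^ 2)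
    (hκ : s ≤ κ) (hK0 : 0 ≤ K) (hKK : K ^ 2 = κ) (hn : 0 < n) (hc : n * s ≤ c)
    (hX2 : X ^ 2 = (9 / 80) ^ 3 / c) {C : ℝ} (hC : 0 ≤ C)
    (hCn : 29 / 25 * ((9 / 80) ^ 3 / n) ≤ C ^ 2) : H * X ≤ C * K := by
  refine abs_le_of_sq_le_sq' ?_ (mul_nonneg hC hK0) |>.2
  have hs0 : 0 < s := by linarith
  have hc0 : 0 < c := (mul_pos hn hs0).trans_le hc
  have e2 : (9 / 80 : ℝ) ^ 3 / c ≤ (9 / 80) ^ 3 / (n * s) :=
    div_le_div_of_nonneg_left (by norm_num) (mul_pos hn hs0) hc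
  have e3 : (9 / 80 : ℝ) ^ 3 / (n * s) * s = (9 / 80) ^ 3 / n := by field_simp
  rw [mul_pow, mul_pow, hX2, hKK]
  calc H ^ 2 * ((9 / 80) ^ 3 / c) ≤ (29 / 25 * s ^ 2) * ((9 / 80) ^ 3 / (n * s)) :=
        mul_le_mul hH e2 (by positivity) (by positivity)
    _ = 29 / 25 * ((9 / 80 : ℝ) ^ 3 / (n * s) * s) * s := by ring
    _ = 29 / 25 * ((9 / 80) ^ 3 / n) * s := by rw [e3]
    _ ≤ C ^ 2 * s := mul_le_mul_of_nonneg_right hCn hs0.le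
    _ ≤ C ^ 2 * κ := mul_le_mul_of_nonneg_left hκ (sq_nonneg C)

private theorem b2_T3 {s H κ K : ℝ} (hs : 1 ≤ s) (hs' : s ≤ 57 / 10)
    (hH : H ^ 2 ≤ 29 / 25 * s ^ 2) (hκ : s ≤ κ) (hK0 : 0 ≤ K) (hKK : K ^ 2 = κ) :
    H ≤ 2572 / 1000 * K := by
  refine abs_le_of_sq_le_sq' ?_ (by positivity) |>.2
  rw [mul_pow, hKK]
  nlinarith

private theorem b2_KH {s H κ K : ℝ} (hs : 1 ≤ s) (hH : H ^ 2 ≤ 29 / 25 * s ^ 2) (hκ : s ≤ κ)
    (hκ' : κ ^ 2 ≤ 1 + s ^ 2) (hKK : K ^ 2 = κ) : (K * H) ^ 2 ≤ 29 / 25 * (s ^ 3 + s / 2) := by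
  have hκ0 : 0 < κ := by linarith
  have hsκ : s * κ ≤ s ^ 2 + 1 / 2 := by
    refine abs_le_of_sq_le_sq' ?_ (by positivity) |>.2
    rw [mul_pow]
    have : s ^ 2 * κ ^ 2 ≤ s ^ 2 * (1 + s ^ 2) := mul_le_mul_of_nonneg_left hκ' (sq_nonneg s)
    linarith
  rw [mul_pow, hKK]
  have e1 : κ * H ^ 2 ≤ κ * (29 / 25 * s ^ 2) := mul_le_mul_of_nonneg_left hH hκ0.le
  have e2 : s * (s * κ) ≤ s * (s ^ 2 + 1 / 2) := mul_le_mul_of_nonneg_left hsκ (by linarith)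
  linarith

private theorem b2_T4 {K H c C D t : ℝ} (hc : 0 < c) (hC : 0 ≤ C)
    (h1 : (K * H) ^ 2 ≤ t) (h2 : t ≤ D * c ^ 4) (h3 : D ≤ C ^ 2) :
    K * (H * (1 / c ^ 2)) ≤ C := by
  have e1 : K * H ≤ C * c ^ 2 := by
    refine abs_le_of_sq_le_sq' ?_ (by positivity) |>.2
    have e3 : (C * c ^ 2) ^ 2 = C ^ 2 * c ^ 4 := by ring
    have e4 : D * c ^ 4 ≤ C ^ 2 * c ^ 4 := mul_le_mul_of_nonneg_right h3 (pow_pos hc 4).le
    rw [e3]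
    linarith
  have e2 : K * (H * (1 / c ^ 2)) = K * H / c ^ 2 := by ring
  rw [e2, div_le_iff₀ (by positivity)]
  exact e1

private theorem b2_T6 {s κ K : ℝ} (hs : 1 ≤ s) (hs' : s ≤ 57 / 10)
    (hκ' : κ ^ 2 ≤ 1 + s ^ 2) (hKK : K ^ 2 = κ) : K ≤ 241 / 100 := by
  refine abs_le_of_sq_le_sq' ?_ (by norm_num) |>.2
  rw [hKK]
  refine abs_le_of_sq_le_sq' ?_ (by norm_num) |>.2
  nlinarith

private theorem b2_fin {H K κ L U Q P M X Y : ℝ} (hH0 : 0 ≤ H) (hK0 : 0 < K) (hKK : K ^ 2 = κ)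
    (hlow : L ≤ 4928 / 10000 * P + 4928 / 10000 * (19 / 10) * M + 46 / 10000)
    (hup : U ≤ 433 / 100 * X + 433 / 100 * (12 / 5) * Y + 75 / 10000)
    (hQ : 8407 / 10000 ≤ K * Q) (T1 : H * X ≤ 1286 / 100000 * K)
    (T2 : H * Y ≤ 494 / 100000 * K) (T3 : H ≤ 2572 / 1000 * K) (T4 : K * P ≤ 4243 / 10000)
    (T5 : K * M ≤ 1119 / 10000) (T6 : K ≤ 241 / 100) :
    L < Q ∧ H * U ≤ 3 / 10 * κ * (Q - L) := by
  have hKL : K * L ≤ 325 / 1000 := by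
    have := mul_le_mul_of_nonneg_left hlow hK0.le
    linarith
  constructor
  · have : K * L < K * Q := by linarith
    exact lt_of_mul_lt_mul_left this hK0.le
  · have g1 : H * U ≤ K * (127 / 1000) := by
      have := mul_le_mul_of_nonneg_left hup hH0
      linarith
    have g2 : 3 / 10 * κ * (Q - L) = K * (3 / 10 * (K * Q - K * L)) := by
      rw [← hKK]; ring
    rw [g2]
    refine g1.trans (mul_le_mul_of_nonneg_left ?_ hK0.le)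
    linarith

private theorem b2_sqX {c : ℝ} (hc : 0 < c) :
    ((9 / 80) / c * Real.sqrt ((9 / 80) / c)) ^ 2 = (9 / 80) ^ 3 / c ^ 3 := by
  rw [mul_pow, Real.sq_sqrt (by positivity)]
  ring

private theorem b2_num {s H κ cp cm q : ℝ} (hs : 1 ≤ s) (hs' : s ≤ 57 / 10) (hH0 : 0 ≤ H)
    (hH : H ^ 2 ≤ 29 / 25 * s ^ 2) (hκ : s ≤ κ) (hκ' : κ ^ 2 ≤ 1 + s ^ 2) (hq0 : 0 ≤ q)
    (hq : q ^ 2 = 29 / 4) (h1 : 5 / 2 + s / 10 ≤ cp) (h2 : -(1 / 4) + 247 / 160 * s ≤ cp)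
    (h3 : 5 / 2 + 8 / 5 * s ≤ cm) :
    lowErr (9 / 80) H q (4 / 5) (1 / 2) (1 / 2) cp cm (3 / 5) (9 / 20) (8 / 5) 2 (19 / 10) <
      Real.sqrt (2 * Real.pi * (9 / 80) / κ) ∧
    H * upErr (9 / 80) q 1 (4 / 5) (1 / 2) (1 / 2) cp cm (3 / 5) (9 / 20) (8 / 5) 2 (12 / 5) ≤
      3 / 10 * κ * (Real.sqrt (2 * Real.pi * (9 / 80) / κ) -
      lowErr (9 / 80) H q (4 / 5) (1 / 2) (1 / 2) cp cm (3 / 5) (9 / 20) (8 / 5) 2 (19 / 10)) := by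
  have hκ0 : 0 < κ := by linarith
  have hcp0 : 0 < cp := by linarith
  have hcm0 : 0 < cm := by linarith
  have hK0 : 0 < Real.sqrt κ := Real.sqrt_pos.2 hκ0
  have hKK : Real.sqrt κ ^ 2 = κ := Real.sq_sqrt hκ0.le
  have hQ : 8407 / 10000 ≤ Real.sqrt κ * Real.sqrt (2 * Real.pi * (9 / 80) / κ) := by
    rw [← Real.sqrt_mul hκ0.le]
    apply Real.le_sqrt_of_sq_le
    have e : κ * (2 * Real.pi * (9 / 80) / κ) = 2 * Real.pi * (9 / 80) := by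
      rw [mul_div_assoc']
      exact mul_div_cancel_left₀ _ hκ0.ne'
    rw [e]
    have := Real.pi_gt_d4
    norm_num at this ⊢
    linarith
  exact b2_fin hH0 hK0 hKK (b2_low hH0 hq0 hq (by linarith) (by linarith)) (b2_up hq0 hq hcp0 hcm0)
    hQ (b2_T hs hH hκ hK0.le hKK (n := 10) (by norm_num) (b2_cube hs hs' h1 h2) (b2_sqX hcp0)
      (by norm_num) (by norm_num))
    (b2_T hs hH hκ hK0.le hKK (n := 68) (by norm_num) (b2_cubem hs h3) (b2_sqX hcm0)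
      (by norm_num) (by norm_num))
    (b2_T3 hs hs' hH hκ hK0.le hKK)
    (b2_T4 hcp0 (by norm_num) (b2_KH hs hH hκ hκ' hKK) (b2_four hs hs' h1 h2) (by norm_num))
    (b2_T4 hcm0 (by norm_num) (b2_KH hs hH hκ hκ' hKK) (b2_fourm hs hs' h3) (by norm_num))
    (b2_T6 hs hs' hκ' hKK)

theorem est_B2 {δ a s : ℝ} (hδ : 0 < δ) (hδ' : δ ≤ 9 / 80) (ha : 0 ≤ a) (hs : 1 ≤ s)
    (hs' : s ≤ 57 / 10) (h1 : a ≤ 2 / 5 * s) (h2 : a ≤ 1 - s / 8) :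
    JJ δ (a + s * I) (4 / 5 * (1 + (5 / 2 : ℝ) * I)) (-(1 + (5 / 2 : ℝ) * I)) (fun _ => 1) ≠ 0 ∧
    ‖JJ δ (a + s * I) (4 / 5 * (1 + (5 / 2 : ℝ) * I)) (-(1 + (5 / 2 : ℝ) * I)) (fun v => v)‖ ≤
      3 / 10 * ‖JJ δ (a + s * I) (4 / 5 * (1 + (5 / 2 : ℝ) * I)) (-(1 + (5 / 2 : ℝ) * I))
        (fun _ => 1)‖ := by
  have hyp := hyp_B2 hδ hδ' ha hs hs' h1 h2
  have e : (4 / 5 * (1 + (5 / 2 : ℝ) * I) : ℂ) =
      -(((4 / 5 : ℝ) : ℂ) * (-(1 + (5 / 2 : ℝ) * I))) := by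
    push_cast; ring
  have hH : ‖(a + s * I : ℂ)‖ ^ 2 = a ^ 2 + s ^ 2 := by
    rw [← Complex.normSq_eq_norm_sq, Complex.normSq_apply]
    simp
    ring
  have hκ : ‖(1 - (a + s * I) : ℂ)‖ ^ 2 = (1 - a) ^ 2 + s ^ 2 := by
    rw [← Complex.normSq_eq_norm_sq, Complex.normSq_apply]
    simp
    ring
  have hq : ‖(-(1 + (5 / 2 : ℝ) * I) : ℂ)‖ ^ 2 = 29 / 4 := by
    rw [← Complex.normSq_eq_norm_sq, Complex.normSq_apply]
    simp
    norm_num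
  have hre : |(-(1 + (5 / 2 : ℝ) * I) : ℂ).re| = 1 := by simp
  have ha1 : a ≤ 1 := by linarith
  have key := b2_num (s := s) (H := ‖(a + s * I : ℂ)‖) (κ := ‖(1 - (a + s * I) : ℂ)‖)
    (cp := 5 / 2 - 11 / 4 * a + 6 / 5 * s) (cm := 5 / 2 - 5 / 2 * a + 13 / 5 * s)
    (q := ‖(-(1 + (5 / 2 : ℝ) * I) : ℂ)‖) hs hs' (norm_nonneg _)
    (by rw [hH]; nlinarith)
    (by
      refine abs_le_of_sq_le_sq' ?_ (norm_nonneg _) |>.2
      rw [hκ]; nlinarith [sq_nonneg (1 - a)])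
    (by rw [hκ]; nlinarith) (norm_nonneg _) hq (by linarith) (by linarith) (by linarith)
  rw [e]
  exact gen_fin hyp hδ' (by norm_num) (by norm_num) (by norm_num) (by norm_num) key.1
    (by rw [hre]; exact key.2)

end SokalFU
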