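import Pool.Agent.Lib_MP_af4de1_fu.MGen
import Pool.Agent.Lib_MP_af4de1_fu.MElem

/-!
# Case R: hypotheses of the general estimate

`h = α + i s`, `d = i`: `ff h (x + iy) = xy - α(e^x sin y - y) - s(e^x cos y - 1 - x)` (`ff_eq`).
`right` (`v = -it`): `s(1-cos t) - α(t - sin t) ≥ s[(1-cos t) - .4(t - sin t)] ≥ .24 s t²` on `[0,2]` (at `t = 2`: `.24497`).
`left`: `s(1-cos t) + α(t - sin t) ≥ s(1-cos t) ≥ .35 s t²` on `[0,2]` (at `2`: `.354`).
`far`: `[2,4]`: `≥ 1.41 s ≥ .83`; `t ≥ 4`: `αt + s - √(s²+α²) ≥ α(t - .2)`.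
`side` (`v = u - 2i`): `-2u + α(e^u sin 2 - 2) + s(1 + u - e^u cos 2) ≥ 1.7 + .7u` (at `u = 0`: `≥ s(1.4161 - .4·1.0907) = .98 s`).
`quad`: `s t²/2`.  `k2`, `k3` with `1` (`taylor2_left`, `taylor3_left`).
-/

set_option autoImplicit false

namespace SokalFU

open Complex

private theorem hr_nonneg {f f' : ℝ → ℝ} (hf : ∀ x, HasDerivAt f (f' x) x) (h0 : f 0 = 0)
    (h : ∀ x, 0 ≤ x → 0 ≤ f' x) {x : ℝ} (hx : 0 ≤ x) : 0 ≤ f x := by
  have h1 : MonotoneOn f (Set.Ici 0) := by
    refine monotoneOn_of_deriv_nonneg (convex_Ici 0) (fun y _ => (hf y).continuousAt.continuousWithinAt)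
      (fun y _ => (hf y).differentiableAt.differentiableWithinAt) fun y hy => ?_
    rw [interior_Ici] at hy
    rw [(hf y).deriv]
    exact h y (le_of_lt hy)
  have h2 := h1 (Set.mem_Ici.mpr le_rfl) (Set.mem_Ici.mpr hx) hx
  rwa [h0] at h2

private theorem hr_sin3 {x : ℝ} (hx : 0 ≤ x) : x - x ^ 3 / 6 ≤ Real.sin x := by
  have h := hr_nonneg (f := fun x => Real.sin x - (x - x ^ 3 / 6))
    (f' := fun x => Real.cos x - (1 - 3 * x ^ 2 / 6)) (fun x => by
      have h1 := (hasDerivAt_pow 3 x).div_const 6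
      have h2 := (Real.hasDerivAt_sin x).sub ((hasDerivAt_id x).sub h1)
      exact HasDerivAt.congr_deriv h2 (by push_cast; norm_num)) (by simp) (fun x _ => by
      have := Real.one_sub_sq_div_two_le_cos (x := x)
      linarith) hx
  linarith

private theorem hr_cos4 {x : ℝ} (hx : 0 ≤ x) : Real.cos x ≤ 1 - x ^ 2 / 2 + x ^ 4 / 24 := by
  have h := hr_nonneg (f := fun x => (1 - x ^ 2 / 2 + x ^ 4 / 24) - Real.cos x)
    (f' := fun x => (-(2 * x / 2) + 4 * x ^ 3 / 24) + Real.sin x) (fun x => by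
      have h1 := (hasDerivAt_pow 2 x).div_const 2
      have h3 := (hasDerivAt_pow 4 x).div_const 24
      have h2 := ((h1.const_sub 1).add h3).sub (Real.hasDerivAt_cos x)
      exact HasDerivAt.congr_deriv h2 (by push_cast; norm_num)) (by simp) (fun x hx => by
      have := hr_sin3 hx
      linarith) hx
  linarith

private theorem hr_sin5 {x : ℝ} (hx : 0 ≤ x) : Real.sin x ≤ x - x ^ 3 / 6 + x ^ 5 / 120 := by
  have h := hr_nonneg (f := fun x => (x - x ^ 3 / 6 + x ^ 5 / 120) - Real.sin x)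
    (f' := fun x => (1 - 3 * x ^ 2 / 6 + 5 * x ^ 4 / 120) - Real.cos x) (fun x => by
      have h1 := (hasDerivAt_pow 3 x).div_const 6
      have h3 := (hasDerivAt_pow 5 x).div_const 120
      have h2 := (((hasDerivAt_id x).sub h1).add h3).sub (Real.hasDerivAt_sin x)
      exact HasDerivAt.congr_deriv h2 (by push_cast; norm_num)) (by simp) (fun x hx => by
      have := hr_cos4 hx
      linarith) hx
  linarith

private theorem hr_cos6 {x : ℝ} (hx : 0 ≤ x) :
    1 - x ^ 2 / 2 + x ^ 4 / 24 - x ^ 6 / 720 ≤ Real.cos x := by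
  have h := hr_nonneg (f := fun x => Real.cos x - (1 - x ^ 2 / 2 + x ^ 4 / 24 - x ^ 6 / 720))
    (f' := fun x => -Real.sin x - (-(2 * x / 2) + 4 * x ^ 3 / 24 - 6 * x ^ 5 / 720)) (fun x => by
      have h1 := (hasDerivAt_pow 2 x).div_const 2
      have h3 := (hasDerivAt_pow 4 x).div_const 24
      have h4 := (hasDerivAt_pow 6 x).div_const 720
      have h2 := (Real.hasDerivAt_cos x).sub (((h1.const_sub 1).add h3).sub h4)
      exact HasDerivAt.congr_deriv h2 (by push_cast; norm_num)) (by simp) (fun x hx => by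
      have := hr_sin5 hx
      linarith) hx
  linarith

private theorem hr_sin7 {x : ℝ} (hx : 0 ≤ x) :
    x - x ^ 3 / 6 + x ^ 5 / 120 - x ^ 7 / 5040 ≤ Real.sin x := by
  have h := hr_nonneg (f := fun x => Real.sin x - (x - x ^ 3 / 6 + x ^ 5 / 120 - x ^ 7 / 5040))
    (f' := fun x => Real.cos x - (1 - 3 * x ^ 2 / 6 + 5 * x ^ 4 / 120 - 7 * x ^ 6 / 5040))
    (fun x => by
      have h1 := (hasDerivAt_pow 3 x).div_const 6
      have h3 := (hasDerivAt_pow 5 x).div_const 120
      have h4 := (hasDerivAt_pow 7 x).div_const 5040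
      have h2 := (Real.hasDerivAt_sin x).sub ((((hasDerivAt_id x).sub h1).add h3).sub h4)
      exact HasDerivAt.congr_deriv h2 (by push_cast; norm_num)) (by simp) (fun x hx => by
      have := hr_cos6 hx
      linarith) hx
  linarith

private theorem hr_cos8 {x : ℝ} (hx : 0 ≤ x) :
    Real.cos x ≤ 1 - x ^ 2 / 2 + x ^ 4 / 24 - x ^ 6 / 720 + x ^ 8 / 40320 := by
  have h := hr_nonneg
    (f := fun x => (1 - x ^ 2 / 2 + x ^ 4 / 24 - x ^ 6 / 720 + x ^ 8 / 40320) - Real.cos x)
    (f' := fun x => (-(2 * x / 2) + 4 * x ^ 3 / 24 - 6 * x ^ 5 / 720 + 8 * x ^ 7 / 40320) +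
      Real.sin x) (fun x => by
      have h1 := (hasDerivAt_pow 2 x).div_const 2
      have h3 := (hasDerivAt_pow 4 x).div_const 24
      have h4 := (hasDerivAt_pow 6 x).div_const 720
      have h5 := (hasDerivAt_pow 8 x).div_const 40320
      have h2 := ((((h1.const_sub 1).add h3).sub h4).add h5).sub (Real.hasDerivAt_cos x)
      exact HasDerivAt.congr_deriv h2 (by push_cast; norm_num)) (by simp) (fun x hx => by
      have := hr_sin7 hx
      linarith) hx
  linarith

private theorem hr_left {t : ℝ} (h0 : 0 ≤ t) (h2 : t ≤ 2) :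
    7 / 20 * t ^ 2 ≤ 1 - Real.cos t := by
  have h := hr_cos8 h0
  have hw0 : 0 ≤ t ^ 2 := sq_nonneg t
  have hw : t ^ 2 ≤ 4 := by nlinarith
  obtain ⟨w, hw1⟩ : ∃ w, w = t ^ 2 := ⟨_, rfl⟩
  have e4 : t ^ 4 = w ^ 2 := by rw [hw1]; ring
  have e6 : t ^ 6 = w ^ 3 := by rw [hw1]; ring
  have e8 : t ^ 8 = w ^ 4 := by rw [hw1]; ring
  rw [e4, e6, e8, ← hw1] at h
  rw [← hw1] at hw0 hw ⊢
  have key : 0 ≤ 3 / 20 - w / 24 + w ^ 2 / 720 - w ^ 3 / 40320 := by
    have h3 : w ^ 3 ≤ 4 * w ^ 2 := by nlinarith [sq_nonneg w]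
    nlinarith
  have := mul_nonneg hw0 key
  nlinarith

private theorem hr_right {t : ℝ} (h0 : 0 ≤ t) (h2 : t ≤ 2) :
    6 / 25 * t ^ 2 ≤ (1 - Real.cos t) - 2 / 5 * (t - Real.sin t) := by
  have h := hr_cos8 h0
  have h' := hr_sin7 h0
  have key : 0 ≤ 13 / 50 - t / 15 - t ^ 2 / 24 + t ^ 3 / 300 + t ^ 4 / 720 - t ^ 5 / 12600 -
      t ^ 6 / 40320 := by
    have h4 : 0 ≤ t ^ 4 := by positivity
    have h5 : t ^ 5 ≤ 2 * t ^ 4 := by nlinarith
    have h6 : t ^ 6 ≤ 4 * t ^ 4 := by nlinarith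
    have h7 : 0 ≤ 13 / 50 - t / 15 - t ^ 2 / 24 + t ^ 3 / 300 + t ^ 4 * (113 / 100000) := by
      obtain ⟨u, hu⟩ : ∃ u, u = 2 - t := ⟨_, rfl⟩
      have ht : t = 2 - u := by rw [hu]; ring
      have hu0 : 0 ≤ u := by rw [hu]; linarith
      have hu2 : u ≤ 2 := by rw [hu]; linarith
      rw [ht]
      have e : 13 / 50 - (2 - u) / 15 - (2 - u) ^ 2 / 24 + (2 - u) ^ 3 / 300 +
          (2 - u) ^ 4 * (113 / 100000) = (13 / 50 - 2 / 15 - 4 / 24 + 8 / 300 + 16 * 113 / 100000) +
          u * ((1 / 15 + 4 / 24 - 12 / 300 - 32 * 113 / 100000) +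
            u * ((-1 / 24 + 6 / 300 + 24 * 113 / 100000) + u * ((-1 / 300 - 8 * 113 / 100000) +
              u * (113 / 100000)))) := by ring
      rw [e]
      nlinarith [mul_nonneg hu0 hu0, mul_nonneg (mul_nonneg hu0 hu0) hu0,
        mul_nonneg hu0 (sub_nonneg.mpr hu2), mul_nonneg (mul_nonneg hu0 hu0) (sub_nonneg.mpr hu2),
        mul_nonneg (mul_nonneg hu0 hu0) (mul_nonneg hu0 hu0)]
    nlinarith
  have := mul_nonneg (sq_nonneg t) key
  nlinarith

private theorem hr_ff (α s y : ℝ) (u : ℝ) : ff (α + s * I) ((u : ℂ) + (y : ℂ) * I) =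
    u * y - α * (Real.exp u * Real.sin y - y) - s * (Real.exp u * Real.cos y - 1 - u) :=
  ff_eq α s u y

theorem hyp_R {δ α s : ℝ} (hδ : 0 < δ) (hδ' : δ ≤ 9 / 80) (hα : 22 / 100 ≤ α) (hs : 9 / 5 ≤ s)
    (hs' : s ≤ 12) (h1 : α ≤ 2 / 5 * s) :
    Hyp δ (α + s * I) I 2 2 4 (7 / 20 * s) (6 / 25 * s) (83 / 100) (22 / 100) (17 / 10) (7 / 10)
      1 1 := by
  have hs0 : 0 < s := by linarith
  have hα0 : 0 < α := by linarith
  have hf : ∀ t : ℝ, ff (α + s * I) (t * I) = s * (1 - Real.cos t) + α * (t - Real.sin t) := by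
    intro t
    have h := ff_eq α s 0 t
    rw [Real.exp_zero, ofReal_zero, zero_add] at h
    rw [h]
    ring
  have hf' : ∀ t : ℝ, ff (α + s * I) (-(t * I)) = s * (1 - Real.cos t) - α * (t - Real.sin t) := by
    intro t
    have h := hf (-t)
    rw [Real.cos_neg, Real.sin_neg, ofReal_neg, neg_mul] at h
    rw [h]
    ring
  have hre : ∀ t : ℝ, (-((t : ℂ) * I)).re ≤ 0 := by
    intro t
    simp
  have hno : ∀ t : ℝ, 0 ≤ t → ‖-((t : ℂ) * I)‖ = t := by
    intro t ht
    rw [norm_neg, norm_mul, Complex.norm_I, mul_one, Complex.norm_real, Real.norm_of_nonneg ht]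
  refine ⟨hδ, ?_, I_ne_zero, by simp, by norm_num, by norm_num, by norm_num, by positivity,
    by positivity, by norm_num, by norm_num, by norm_num, by linarith, by norm_num, by norm_num,
    ?_, ?_, ?_, ?_, ?_, ?_, ?_⟩
  · -- `h ≠ 1`
    intro h
    have h2 := congrArg Complex.im h
    simp at h2
    linarith
  · -- `quad`
    intro t
    have e : (1 - ((α : ℂ) + s * I)) * (t * I) ^ 2 / 2 =
        ((-(t ^ 2 * (1 - α) / 2) : ℝ) : ℂ) + ((s * t ^ 2 / 2 : ℝ) : ℂ) * I := by
      push_cast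
      linear_combination ((1 - (α : ℂ) - s * I) * t ^ 2 / 2) * I_sq
    have e2 : ((((-(t ^ 2 * (1 - α) / 2) : ℝ) : ℂ) + ((s * t ^ 2 / 2 : ℝ) : ℂ) * I)).im =
        s * t ^ 2 / 2 := by
      rw [add_im, ofReal_im, im_ofReal_mul, I_im]
      ring
    rw [e, e2, max_eq_left (by nlinarith)]
    nlinarith [mul_nonneg hs0.le (sq_nonneg t)]
  · -- `right`
    intro t h0 h2
    rw [hf']
    have h3 := hr_right h0 h2
    have h4 : 0 ≤ t - Real.sin t := by
      have := Real.sin_le h0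
      linarith
    have h5 := mul_le_mul_of_nonneg_right h1 h4
    have h6 := mul_le_mul_of_nonneg_left h3 hs0.le
    nlinarith
  · -- `left`
    intro t h0 h2
    rw [hf]
    have h3 := hr_left h0 h2
    have h4 : 0 ≤ α * (t - Real.sin t) := by
      have := Real.sin_le h0
      exact mul_nonneg hα0.le (by linarith)
    have h6 := mul_le_mul_of_nonneg_left h3 hs0.le
    nlinarith
  · -- `far`
    intro t h2
    rw [hf]
    rcases le_total t 4 with h4 | h4
    · rw [max_eq_right (by linarith), mul_zero, add_zero]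
      have h5 : Real.cos t ≤ 0 := by
        refine Real.cos_nonpos_of_pi_div_two_le_of_le ?_ ?_
        · have := Real.pi_le_four
          linarith
        · have := Real.pi_gt_three
          linarith
      have h6 : 0 ≤ α * (t - Real.sin t) := by
        have := Real.sin_le (x := t) (by linarith)
        exact mul_nonneg hα0.le (by linarith)
      nlinarith
    · rw [max_eq_left (by linarith)]
      have h5 : Real.sin t ^ 2 / 2 ≤ 1 - Real.cos t := by
        nlinarith [Real.sin_sq_add_cos_sq t, sq_nonneg (1 - Real.cos t)]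
      have h6 := mul_le_mul_of_nonneg_left h5 hs0.le
      have h7 : 0 ≤ Real.sin t ^ 2 := sq_nonneg _
      have h8 : α * (5 / 4 * Real.sin t ^ 2) ≤ s * (Real.sin t ^ 2 / 2) := by
        nlinarith [mul_le_mul_of_nonneg_right h1 h7]
      have h9 : 0 ≤ α * (5 / 4 * (Real.sin t - 2 / 5) ^ 2) := by positivity
      have h10 : α * (t - 1 / 5) ≤ s * (1 - Real.cos t) + α * (t - Real.sin t) := by nlinarith
      have h11 : 22 / 100 * (t - 1 / 5) ≤ α * (t - 1 / 5) :=
        mul_le_mul_of_nonneg_right hα (by linarith)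
      linarith
  · -- `side`
    intro u hu
    have e : -(((2 : ℝ) : ℂ) * I) + (u : ℂ) = (u : ℂ) + ((-2 : ℝ) : ℂ) * I := by
      push_cast
      ring
    rw [e, ff_eq, Real.cos_neg, Real.sin_neg]
    have hc : Real.cos 2 ≤ -(41 / 100) := by
      have := hr_cos8 (x := 2) (by norm_num)
      norm_num at this
      linarith
    have hsn : 9 / 10 ≤ Real.sin 2 := by
      have := hr_sin7 (x := 2) (by norm_num)
      norm_num at this
      linarith
    have he : 1 + u ≤ Real.exp u := by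
      have := Real.add_one_le_exp u
      linarith
    have h3 : (1 + u) * (9 / 10) ≤ Real.exp u * Real.sin 2 :=
      mul_le_mul he hsn (by norm_num) (by positivity)
    have h4 : (1 + u) * (41 / 100) ≤ Real.exp u * (-Real.cos 2) :=
      mul_le_mul he (by linarith) (by norm_num) (by positivity)
    have h5 := mul_le_mul_of_nonneg_left h3 hα0.le
    have h6 := mul_le_mul_of_nonneg_left h4 hs0.le
    have h7 : 0 ≤ (s - 9 / 5) * u := mul_nonneg (by linarith) hu
    have h8 : 0 ≤ (α - 22 / 100) * u := mul_nonneg (by linarith) hu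
    nlinarith
  · -- `k2`
    intro t h0 _
    have h3 := taylor2_left (hre t)
    rw [hno t h0] at h3
    rw [Complex.norm_I, mul_one, one_mul]
    exact h3
  · -- `k3`
    intro t h0 _
    have h3 := taylor3_left (hre t)
    rw [hno t h0] at h3
    rw [Complex.norm_I, mul_one, one_mul]
    exact h3

end SokalFU
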