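import Pool.Agent.Lib_MP_af4de1_fu.MMon
import Pool.Agent.Lib_MP_af4de1_fu.MHypR

/-!
# Case R: the estimate [FU-M18]

`gen_fin` with `hyp_R`, `k = 3/20`.  `H = ‖h‖`, `κ = ‖1-h‖`, `q = 1`, `δ₀ = 9/80`: `H² = α² + s² ≤ 1.16 s²`, `s² ≤ κ² = (1-α)² + s² ≤ 1.188 s²`
(`|1-α| ≤ .78` if `α ≤ 1.78`; else `α - 1 ≤ .4 s`).
`lowErr = H/12 (1/(.35s)² + 1/(.24s)²) δ₀ + [(2 + .5114) e^(-7.378) + tiny] + tiny ≤ .2393 H/s² + .0017`,
`√(2πδ₀/κ) = .84077/√κ`,
`upErr = .22156·.037734·(4.830 + 8.506) s^(-3/2) + (1/2)(18.667 + 10.54) e^(-7.378) + tiny ≤ .1115 s^(-3/2) + .0092`.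
To show: `H upErr ≤ .15 κ (.84077/√κ - lowErr)`: by `H ≤ 1.0771 s`, `s ≤ κ ≤ 1.09 s`:
`1.0771 (.1115/√s + .0092 s) ≤ .15 (.84077 √s - .2811 - .0019 s)` for `1.8 ≤ s ≤ 12` (at `1.8`: `.1074 ≤ .1265`; at `12`: `.154 ≤ .391`).
-/

set_option autoImplicit false

namespace SokalFU

open Complex

private theorem estR_exp1 : Real.exp (-(83 / 100) / (9 / 80)) ≤ 64 / 100000 := by
  have h1 : (27182818283 / 10000000000 : ℝ) < Real.exp 1 := by
    have := Real.exp_one_gt_d9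
    norm_num at this ⊢
    exact this
  have h2 : Real.exp (332 / 45) = Real.exp 1 ^ 7 * Real.exp (17 / 45) := by
    rw [← Real.exp_nat_mul, ← Real.exp_add]
    norm_num
  have h3 : 1 + (17 / 45 : ℝ) + (17 / 45) ^ 2 / 2 ≤ Real.exp (17 / 45) :=
    Real.quadratic_le_exp_of_nonneg (by norm_num)
  have h4 : (27182818283 / 10000000000 : ℝ) ^ 7 ≤ Real.exp 1 ^ 7 :=
    pow_le_pow_left₀ (by norm_num) h1.le 7
  have h5 : (100000 / 64 : ℝ) ≤ Real.exp (332 / 45) := by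
    rw [h2]
    refine le_trans ?_ (mul_le_mul h4 h3 (by norm_num) (by positivity))
    norm_num
  have h6 : (-(83 / 100) / (9 / 80) : ℝ) = -(332 / 45) := by norm_num
  rw [h6, Real.exp_neg]
  refine (inv_anti₀ (by norm_num) h5).trans ?_
  norm_num

private theorem estR_exp2 {x : ℝ} (hx : x ≤ -15) : Real.exp x ≤ 1 / 100000 := by
  have h1 : (27 / 10 : ℝ) < Real.exp 1 := by
    have := Real.exp_one_gt_d9
    refine lt_trans ?_ this
    norm_num
  have h4 : (27 / 10 : ℝ) ^ 15 ≤ Real.exp 1 ^ 15 :=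
    pow_le_pow_left₀ (by norm_num) h1.le 15
  have h5 : (100000 : ℝ) ≤ Real.exp 15 := by
    have h2 : Real.exp 15 = Real.exp 1 ^ 15 := by
      rw [← Real.exp_nat_mul]
      norm_num
    rw [h2]
    refine le_trans ?_ h4
    norm_num
  calc Real.exp x ≤ Real.exp (-15) := Real.exp_le_exp.mpr hx
    _ = (Real.exp 15)⁻¹ := Real.exp_neg 15
    _ ≤ (100000 : ℝ)⁻¹ := inv_anti₀ (by norm_num) h5
    _ = 1 / 100000 := by norm_num

private theorem estR_low {s H : ℝ} (hs : 9 / 5 ≤ s) (hH : 0 ≤ H) (hHs : H ≤ 10771 / 10000 * s) :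
    lowErr (9 / 80) H 1 2 2 4 (7 / 20 * s) (6 / 25 * s) (83 / 100) (22 / 100) (17 / 10) (7 / 10) 1 ≤
      2578 / 10000 / s + 162 / 100000 := by
  have hs0 : 0 < s := by linarith
  have e1 := estR_exp1
  have e2 : Real.exp (-(7 / 20 * s * 2 ^ 2) / (9 / 80)) ≤ 1 / 100000 := by
    refine estR_exp2 ?_
    rw [div_le_iff₀ (by norm_num)]
    linarith
  have e3 : Real.exp (-(6 / 25 * s * 2 ^ 2) / (9 / 80)) ≤ 1 / 100000 := by
    refine estR_exp2 ?_
    rw [div_le_iff₀ (by norm_num)]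
    linarith
  have e4 : Real.exp (-(17 / 10) / (9 / 80)) ≤ 1 / 100000 := by
    refine estR_exp2 ?_
    norm_num
  have a1 : H * 1 ^ 4 / 12 * (1 / (7 / 20 * s) ^ 2 + 1 / (6 / 25 * s) ^ 2) * (9 / 80) ≤
      2578 / 10000 / s := by
    have e : H * 1 ^ 4 / 12 * (1 / (7 / 20 * s) ^ 2 + 1 / (6 / 25 * s) ^ 2) * (9 / 80) =
        (H / s) * ((9 / 80) / 12 * (400 / 49 + 625 / 36)) / s := by
      field_simp
      ring
    rw [e]
    refine div_le_div_of_nonneg_right ?_ hs0.le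
    have h : H / s ≤ 10771 / 10000 := by
      rw [div_le_iff₀ hs0]
      exact hHs
    calc H / s * ((9 / 80) / 12 * (400 / 49 + 625 / 36)) ≤
          10771 / 10000 * ((9 / 80) / 12 * (400 / 49 + 625 / 36)) :=
          mul_le_mul_of_nonneg_right h (by norm_num)
      _ ≤ 2578 / 10000 := by norm_num
  have a2 : ((4 - 2) + (9 / 80 : ℝ) / (22 / 100)) * Real.exp (-(83 / 100) / (9 / 80)) ≤
      ((4 - 2) + (9 / 80 : ℝ) / (22 / 100)) * (64 / 100000) :=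
    mul_le_mul_of_nonneg_left e1 (by norm_num)
  have a3 : (9 / 80 : ℝ) / (7 / 20 * s * 2) * Real.exp (-(7 / 20 * s * 2 ^ 2) / (9 / 80)) ≤
      1 / 4 * (1 / 100000) := by
    refine mul_le_mul ?_ e2 (Real.exp_pos _).le (by norm_num)
    rw [div_le_iff₀ (by positivity)]
    linarith
  have a4 : (9 / 80 : ℝ) / (6 / 25 * s * 2) * Real.exp (-(6 / 25 * s * 2 ^ 2) / (9 / 80)) ≤
      1 / 4 * (1 / 100000) := by
    refine mul_le_mul ?_ e3 (Real.exp_pos _).le (by norm_num)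
    rw [div_le_iff₀ (by positivity)]
    linarith
  have a5 : (9 / 80 : ℝ) / (7 / 10) * Real.exp (-(17 / 10) / (9 / 80)) ≤
      (9 / 80 : ℝ) / (7 / 10) * (1 / 100000) :=
    mul_le_mul_of_nonneg_left e4 (by norm_num)
  unfold lowErr
  norm_num at a1 a2 a3 a4 a5 ⊢
  linarith

private theorem estR_up {s w : ℝ} (hs : 9 / 5 ≤ s) (hw : 0 < w) (hws : w ^ 2 = s) :
    upErr (9 / 80) 1 0 2 2 4 (7 / 20 * s) (6 / 25 * s) (83 / 100) (22 / 100) (17 / 10) (7 / 10) 1 ≤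
      1115 / 10000 / w ^ 3 + 936 / 100000 := by
  have hs0 : 0 < s := by linarith
  have e1 := estR_exp1
  have e4 : Real.exp (2 * 0 - (17 / 10) / (9 / 80)) ≤ 1 / 100000 := by
    refine estR_exp2 ?_
    norm_num
  have r1 : Real.sqrt (9 / 80 / (7 / 20 * s)) ≤ 567 / 1000 / w := by
    rw [Real.sqrt_le_left (by positivity), ← hws]
    have e : (9 / 80 : ℝ) / (7 / 20 * w ^ 2) = 9 / 28 / w ^ 2 := by
      field_simp
      ring
    rw [e, div_pow]
    exact div_le_div_of_nonneg_right (by norm_num) (by positivity)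
  have r2 : Real.sqrt (9 / 80 / (6 / 25 * s)) ≤ 6847 / 10000 / w := by
    rw [Real.sqrt_le_left (by positivity), ← hws]
    have e : (9 / 80 : ℝ) / (6 / 25 * w ^ 2) = 15 / 32 / w ^ 2 := by
      field_simp
      ring
    rw [e, div_pow]
    exact div_le_div_of_nonneg_right (by norm_num) (by positivity)
  have r3 : Real.sqrt Real.pi ≤ 17725 / 10000 := by
    rw [Real.sqrt_le_left (by norm_num)]
    have := Real.pi_lt_d4
    norm_num at this ⊢
    linarith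
  have a1 : (1 : ℝ) ^ 3 * (Real.sqrt Real.pi / 8) * (9 / 80 / (7 / 20 * s) *
      Real.sqrt (9 / 80 / (7 / 20 * s)) + 1 * (9 / 80 / (6 / 25 * s)) *
      Real.sqrt (9 / 80 / (6 / 25 * s))) ≤ 1115 / 10000 / w ^ 3 := by
    have h1 : 9 / 80 / (7 / 20 * s) * Real.sqrt (9 / 80 / (7 / 20 * s)) +
        1 * (9 / 80 / (6 / 25 * s)) * Real.sqrt (9 / 80 / (6 / 25 * s)) ≤
        9 / 80 / (7 / 20 * s) * (567 / 1000 / w) +
        1 * (9 / 80 / (6 / 25 * s)) * (6847 / 10000 / w) :=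
      add_le_add (mul_le_mul_of_nonneg_left r1 (by positivity))
        (mul_le_mul_of_nonneg_left r2 (by positivity))
    have h2 : (1 : ℝ) ^ 3 * (Real.sqrt Real.pi / 8) ≤ 17725 / 10000 / 8 := by
      rw [one_pow, one_mul]
      exact div_le_div_of_nonneg_right r3 (by norm_num)
    refine (mul_le_mul h2 h1 (by positivity) (by norm_num)).trans ?_
    rw [← hws]
    have e : (17725 / 10000 / 8 : ℝ) * (9 / 80 / (7 / 20 * w ^ 2) * (567 / 1000 / w) +
        1 * (9 / 80 / (6 / 25 * w ^ 2)) * (6847 / 10000 / w)) =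
        (17725 / 10000 / 8 * (9 / 28 * (567 / 1000) + 15 / 32 * (6847 / 10000))) / w ^ 3 := by
      field_simp
      ring
    rw [e]
    exact div_le_div_of_nonneg_right (by norm_num) (by positivity)
  have a2 : (1 : ℝ) ^ 3 / 2 * ((4 ^ 3 - 2 ^ 3) / 3 + 9 / 80 / (22 / 100) *
      (4 ^ 2 + 2 * 4 * (9 / 80 / (22 / 100)) + 2 * (9 / 80 / (22 / 100)) ^ 2)) *
      Real.exp (-(83 / 100) / (9 / 80)) ≤ 935 / 100000 := by
    refine (mul_le_mul_of_nonneg_left e1 (by norm_num)).trans ?_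
    norm_num
  have a3 : Real.exp (2 * 0 - (17 / 10) / (9 / 80)) / 2 * ((2 * 1) ^ 2 / (7 / 10 / (9 / 80) - 1) +
      2 * (2 * 1) / (7 / 10 / (9 / 80) - 1) ^ 2 + 2 / (7 / 10 / (9 / 80) - 1) ^ 3) ≤
      1 / 100000 := by
    refine (mul_le_mul_of_nonneg_right (div_le_div_of_nonneg_right e4 (by norm_num))
      (by norm_num)).trans ?_
    norm_num
  unfold upErr
  linarith

theorem est_R {δ α s : ℝ} (hδ : 0 < δ) (hδ' : δ ≤ 9 / 80) (hα : 22 / 100 ≤ α) (hs : 9 / 5 ≤ s)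
    (hs' : s ≤ 12) (h1 : α ≤ 2 / 5 * s) :
    JJ δ (α + s * I) (-(2 * I)) I (fun _ => 1) ≠ 0 ∧
    ‖JJ δ (α + s * I) (-(2 * I)) I (fun v => v)‖ ≤
      3 / 20 * ‖JJ δ (α + s * I) (-(2 * I)) I (fun _ => 1)‖ := by
  have hs0 : 0 < s := by linarith
  have hα0 : 0 < α := by linarith
  have hH := hyp_R hδ hδ' hα hs hs' h1
  obtain ⟨w, hw⟩ : ∃ w, w = Real.sqrt s := ⟨_, rfl⟩
  have hw0 : 0 < w := by
    rw [hw]
    exact Real.sqrt_pos.mpr hs0
  have hws : w ^ 2 = s := by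
    rw [hw]
    exact Real.sq_sqrt hs0.le
  obtain ⟨N, hN⟩ : ∃ N, N = ‖((α : ℂ) + s * I)‖ := ⟨_, rfl⟩
  obtain ⟨κ, hκ⟩ : ∃ κ, κ = ‖1 - ((α : ℂ) + s * I)‖ := ⟨_, rfl⟩
  have hN0 : 0 ≤ N := by
    rw [hN]
    exact norm_nonneg _
  have hκ0 : 0 ≤ κ := by
    rw [hκ]
    exact norm_nonneg _
  have hN2 : N ^ 2 = α ^ 2 + s ^ 2 := by
    rw [hN, Complex.norm_add_mul_I, Real.sq_sqrt (by positivity)]
  have hκ2 : κ ^ 2 = (1 - α) ^ 2 + s ^ 2 := by
    have e : (1 : ℂ) - ((α : ℂ) + s * I) = ((1 - α : ℝ) : ℂ) + ((-s : ℝ) : ℂ) * I := by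
      push_cast
      ring
    rw [hκ, e, Complex.norm_add_mul_I, Real.sq_sqrt (by positivity), neg_sq]
  have hNs : N ≤ 10771 / 10000 * s := by
    refine abs_le_of_sq_le_sq' ?_ (by positivity) |>.2
    rw [hN2]
    nlinarith
  have hκs : κ ≤ 109 / 100 * s := by
    refine abs_le_of_sq_le_sq' ?_ (by positivity) |>.2
    rw [hκ2]
    rcases le_total α (178 / 100) with h | h
    · nlinarith
    · nlinarith
  have hsκ : s ≤ κ := by
    refine abs_le_of_sq_le_sq' ?_ hκ0 |>.2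
    rw [hκ2]
    nlinarith [sq_nonneg (1 - α)]
  have hκ1 : 0 < κ := by linarith
  obtain ⟨x, hx⟩ : ∃ x, x = Real.sqrt (2 * Real.pi * (9 / 80) / κ) := ⟨_, rfl⟩
  have hxw : 84 / 100 * w ≤ κ * x := by
    have h2 : 84 / 100 * w / κ ≤ x := by
      rw [hx]
      refine Real.le_sqrt_of_sq_le ?_
      rw [div_pow, mul_pow, hws, div_le_div_iff₀ (by positivity) hκ1]
      have hpi := Real.pi_gt_d2
      norm_num at hpi
      have h3 : (84 / 100 : ℝ) ^ 2 * s ≤ 2 * Real.pi * (9 / 80) * κ := by nlinarith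
      nlinarith
    rw [div_le_iff₀ hκ1] at h2
    linarith
  have hlow := estR_low hs hN0 hNs
  have hup := estR_up hs hw0 hws
  obtain ⟨L, hL⟩ : ∃ L, L = lowErr (9 / 80) N 1 2 2 4 (7 / 20 * s) (6 / 25 * s) (83 / 100)
    (22 / 100) (17 / 10) (7 / 10) 1 := ⟨_, rfl⟩
  obtain ⟨U, hU⟩ : ∃ U, U = upErr (9 / 80) 1 0 2 2 4 (7 / 20 * s) (6 / 25 * s) (83 / 100)
    (22 / 100) (17 / 10) (7 / 10) 1 := ⟨_, rfl⟩
  rw [← hL] at hlow
  rw [← hU] at hup
  have hκL : κ * L ≤ 282 / 1000 + 177 / 100000 * s := by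
    have h2 : κ * L ≤ κ * (2578 / 10000 / s + 162 / 100000) :=
      mul_le_mul_of_nonneg_left hlow hκ0
    have h3 : κ * (2578 / 10000 / s + 162 / 100000) ≤
        109 / 100 * s * (2578 / 10000 / s + 162 / 100000) :=
      mul_le_mul_of_nonneg_right hκs (by positivity)
    have h4 : 109 / 100 * s * (2578 / 10000 / s + 162 / 100000) =
        109 / 100 * (2578 / 10000) + 109 / 100 * (162 / 100000) * s := by
      field_simp
    linarith
  have hNU : N * U ≤ 1202 / 10000 / w + 1009 / 100000 * s := by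
    have h2 : N * U ≤ N * (1115 / 10000 / w ^ 3 + 936 / 100000) :=
      mul_le_mul_of_nonneg_left hup hN0
    have h3 : N * (1115 / 10000 / w ^ 3 + 936 / 100000) ≤
        10771 / 10000 * s * (1115 / 10000 / w ^ 3 + 936 / 100000) :=
      mul_le_mul_of_nonneg_right hNs (by positivity)
    have h4 : 10771 / 10000 * s * (1115 / 10000 / w ^ 3 + 936 / 100000) =
        10771 / 10000 * (1115 / 10000) / w + 10771 / 10000 * (936 / 100000) * s := by
      rw [← hws]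
      field_simp
    have h5 : 10771 / 10000 * (1115 / 10000) / w ≤ 1202 / 10000 / w :=
      div_le_div_of_nonneg_right (by norm_num) hw0.le
    linarith
  have hw1 : 134 / 100 ≤ w := by
    refine abs_le_of_sq_le_sq' ?_ hw0.le |>.2
    rw [hws]
    norm_num
    linarith
  have hw2 : w ≤ 347 / 100 := by
    refine abs_le_of_sq_le_sq' ?_ (by norm_num) |>.2
    rw [hws]
    norm_num
    linarith
  have hkey : 1202 / 10000 / w + 1009 / 100000 * s ≤
      3 / 20 * (84 / 100 * w - (282 / 1000 + 177 / 100000 * s)) := by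
    rw [← hws]
    have h2 : 1202 / 10000 / w + 1009 / 100000 * w ^ 2 =
        (1202 / 10000 + 1009 / 100000 * w ^ 3) / w := by
      field_simp
    rw [h2, div_le_iff₀ hw0]
    nlinarith [mul_nonneg (sub_nonneg.mpr hw1) (sub_nonneg.mpr hw2),
      mul_nonneg (mul_nonneg (sub_nonneg.mpr hw1) (sub_nonneg.mpr hw2)) hw0.le]
  have hlt : 282 / 1000 + 177 / 100000 * s < 84 / 100 * w := by
    rw [← hws]
    nlinarith
  have hne : ‖(I : ℂ)‖ = 1 := Complex.norm_I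
  have hre : |(I : ℂ).re| = 0 := by simp
  have hpos : lowErr (9 / 80) ‖((α : ℂ) + s * I)‖ ‖(I : ℂ)‖ 2 2 4 (7 / 20 * s) (6 / 25 * s)
      (83 / 100) (22 / 100) (17 / 10) (7 / 10) 1 <
      Real.sqrt (2 * Real.pi * (9 / 80) / ‖1 - ((α : ℂ) + s * I)‖) := by
    rw [hne, ← hN, ← hκ, ← hL, ← hx]
    have h2 : κ * L < κ * x := by linarith
    exact lt_of_mul_lt_mul_left h2 hκ0
  have hnum : ‖((α : ℂ) + s * I)‖ * upErr (9 / 80) ‖(I : ℂ)‖ |(I : ℂ).re| 2 2 4 (7 / 20 * s)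
      (6 / 25 * s) (83 / 100) (22 / 100) (17 / 10) (7 / 10) 1 ≤
      3 / 20 * ‖1 - ((α : ℂ) + s * I)‖ *
        (Real.sqrt (2 * Real.pi * (9 / 80) / ‖1 - ((α : ℂ) + s * I)‖) -
        lowErr (9 / 80) ‖((α : ℂ) + s * I)‖ ‖(I : ℂ)‖ 2 2 4 (7 / 20 * s) (6 / 25 * s)
          (83 / 100) (22 / 100) (17 / 10) (7 / 10) 1) := by
    rw [hne, hre, ← hN, ← hκ, ← hL, ← hU, ← hx]
    have h2 : 3 / 20 * κ * (x - L) = 3 / 20 * (κ * x - κ * L) := by ring
    rw [h2]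
    linarith
  have h := gen_fin hH hδ' (by norm_num) (by norm_num) (by norm_num) (k := 3 / 20) (by norm_num)
    hpos hnum
  have e : (((2 : ℝ) : ℂ) * I) = 2 * I := by
    push_cast
    rfl
  rw [e] at h
  exact h

end SokalFU
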