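import Pool.Agent.Lib_MP_af4de1_fu.MReg

/-!
# The distance of the real parts [FU-M24]
-/

set_option autoImplicit false

namespace SokalFU

open Real

theorem exp_half_lt : exp (1 / 2 : ℝ) < 165 / 100 := by
  have h1 : exp (1 / 2 : ℝ) * exp (1 / 2 : ℝ) = exp 1 := by
    rw [← exp_add]; norm_num
  have h2 := exp_one_lt_d9
  by_contra h
  push Not at h
  nlinarith [exp_pos (1 / 2 : ℝ)]

/-- If `a ≤ -3/10`: `a' ≥ 22/100` (`Sad.right_facts`).  If `-3/10 ≤ a ≤ 0`: `cos σ ≥ -.405`, `s ≥ .677 ρ`, `σ ≤ π/2 + .42`, so `y ≥ .677 ρ - 1.99`;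
and `ρ e^(a') ≥ s' = σ' + y + 2π ≥ 1.19 + .677 ρ + 4.29`, so `e^(a') ≥ .677 + 5.48/4.5 = 1.89 > e^.6`. -/
theorem gap_neg {ρ y a σ a' σ' : ℝ} (h1 : 1 ≤ ρ) (h2 : ρ ≤ 9 / 2) (H : Sad ρ y a σ)
    (H' : Sad ρ (y + 2 * π) a' σ') (ha : a ≤ 0) (hy : ρ - 3 / 8 ≤ y + 2 * π)
    (hy' : y ≤ ρ - 3 / 8) : 1 / 2 ≤ a' - a := by
  have hπ1 := pi_gt_d6
  have hπ2 := pi_lt_d6
  obtain ⟨r1, r2, r3⟩ := H'.right_facts h1 h2 hy (by linarith)
  rcases le_or_gt a (-(3 / 10)) with h | h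
  · linarith
  obtain ⟨q1, -, -, -, -, q2⟩ := H'.pos_facts h1 (by linarith)
  obtain ⟨-, p2⟩ := H.neg_s h1 h2 ha
  have e1 : 7 / 10 ≤ exp a := by linarith [add_one_le_exp a]
  have e2 : 7 / 10 * ρ ≤ ρ * exp a := by nlinarith
  have c1 : -(1 / 2) ≤ cos σ := by
    by_contra hc
    push Not at hc
    have := H.C
    nlinarith
  have c2 : cos σ ≤ 0 := by
    by_contra hc
    push Not at hc
    have h3 := H.C
    have h4 : 0 < ρ * exp a * cos σ := by positivity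
    linarith
  have s0 : 0 ≤ sin σ := sin_nonneg_of_nonneg_of_le_pi H.σ0 H.σπ
  have s1 : 86 / 100 ≤ sin σ := by
    have := sin_sq_add_cos_sq σ
    by_contra hc
    push Not at hc
    nlinarith
  have s2 : 6 / 10 * ρ ≤ σ + y := by
    rw [← H.S]
    nlinarith
  have s3 : σ ≤ π - π / 3 := by
    by_contra hc
    push Not at hc
    have h3 : cos σ < cos (π - π / 3) := by
      apply strictAntiOn_cos _ _ hc
      · constructor <;> linarith
      · exact ⟨H.σ0, H.σπ⟩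
    rw [cos_pi_sub, cos_pi_div_three] at h3
    linarith
  have f1 : 165 / 100 * ρ ≤ ρ * exp a' := by linarith
  have f2 : 165 / 100 ≤ exp a' := by
    by_contra hc
    push Not at hc
    nlinarith
  have f3 : exp (1 / 2 : ℝ) < exp a' := lt_of_lt_of_le exp_half_lt f2
  have f4 := exp_lt_exp.1 f3
  linarith

/-- `s' - s = 2π + σ' - σ ≥ 2π - .381`, `ρ e^(a') ≥ s'`, `s ≥ .929 ρ e^a`, `s ≤ ρ + 1.196`, so
`e^(a'-a) ≥ .929 + 5.9 ·.929/(ρ + 1.196) ≥ .929 + .962`. -/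
theorem gap_pos {ρ y a σ a' σ' : ℝ} (h1 : 1 ≤ ρ) (h2 : ρ ≤ 9 / 2) (H : Sad ρ y a σ)
    (H' : Sad ρ (y + 2 * π) a' σ') (ha : 0 ≤ a) (hy' : y ≤ ρ - 3 / 8) : 1 / 2 ≤ a' - a := by
  have hπ1 := pi_gt_d6
  have hπ2 := pi_lt_d6
  obtain ⟨p1, p2, -, p3, p4, p5⟩ := H.pos_facts h1 ha
  obtain ⟨r1, r2, r3⟩ := H'.right_facts h1 h2 (by linarith) (by linarith)
  obtain ⟨q1, -, -, -, -, q2⟩ := H'.pos_facts h1 (by linarith)
  have f1 : 165 / 100 * (ρ * exp a) ≤ ρ * exp a' := by linarith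
  have f2 : 165 / 100 * exp a ≤ exp a' := by
    by_contra hc
    push Not at hc
    nlinarith
  have f3 : exp (a + 1 / 2) < exp a' := by
    rw [exp_add]
    have := exp_half_lt
    have := exp_pos a
    nlinarith
  have f4 := exp_lt_exp.1 f3
  linarith

end SokalFU
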