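import Pool.Agent.Lib_MP_af4de1_fu.MShift

/-!
# The contour integrals at a saddle point [FU-M7]

`SR_eq`, `SL_eq` with the corner `g + p`, `kk_saddle`; linearity of the integral (integrability: `MInt` divided by `k(g) ≠ 0`).
-/

set_option autoImplicit false

namespace SokalFU

open Complex MeasureTheory Set

private theorem loc_kj0 {ρ δ ψ : ℝ} {g h : ℂ} (hg : h = g + ψ * I) (hh : ρ * cexp g = h) (p d : ℂ) (s : ℝ) :
    kj ρ δ ψ 0 (g + p + s * d) = kk ρ δ ψ g * ((fun _ : ℂ => (1 : ℂ)) (p + s * d) * cexp (EE δ h (p + s * d))) := by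
  unfold kj
  rw [add_assoc, kk_saddle hg hh]
  ring

private theorem loc_kj1 {ρ δ ψ : ℝ} {g h : ℂ} (hg : h = g + ψ * I) (hh : ρ * cexp g = h) (p d : ℂ) (s : ℝ) :
    kj ρ δ ψ 1 (g + p + s * d) = kk ρ δ ψ g *
      (g * ((fun _ : ℂ => (1 : ℂ)) (p + s * d) * cexp (EE δ h (p + s * d))) +
        (fun v : ℂ => v) (p + s * d) * cexp (EE δ h (p + s * d))) := by
  unfold kj
  rw [add_assoc, kk_saddle hg hh]
  ring

private theorem loc_kk_ne (ρ δ ψ : ℝ) (g : ℂ) : kk ρ δ ψ g ≠ 0 := Complex.exp_ne_zero _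

private theorem loc_ray0 {ρ δ ψ : ℝ} {g h : ℂ} (hg : h = g + ψ * I) (hh : ρ * cexp g = h) (p d : ℂ) :
    ray (kj ρ δ ψ 0) (g + p) d = kk ρ δ ψ g * ray (fun v => (fun _ : ℂ => (1 : ℂ)) v * cexp (EE δ h v)) p d := by
  unfold ray
  rw [← mul_assoc, ← integral_const_mul]
  congr 1
  refine integral_congr_ae (Filter.Eventually.of_forall fun s => ?_)
  exact loc_kj0 hg hh p d s

private theorem loc_ray1 {ρ δ ψ : ℝ} {g h : ℂ} (hg : h = g + ψ * I) (hh : ρ * cexp g = h) (p d : ℂ)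
    (hi0 : IntegrableOn (fun s : ℝ => kj ρ δ ψ 0 (g + p + s * d)) (Ioi 0))
    (hi1 : IntegrableOn (fun s : ℝ => kj ρ δ ψ 1 (g + p + s * d)) (Ioi 0)) :
    ray (kj ρ δ ψ 1) (g + p) d = kk ρ δ ψ g *
      (g * ray (fun v => (fun _ : ℂ => (1 : ℂ)) v * cexp (EE δ h v)) p d +
        ray (fun v => (fun v : ℂ => v) v * cexp (EE δ h v)) p d) := by
  have hne := loc_kk_ne ρ δ ψ g
  have hj0 : IntegrableOn (fun s : ℝ => (fun _ : ℂ => (1 : ℂ)) (p + s * d) * cexp (EE δ h (p + s * d))) (Ioi 0) := by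
    have h1 := Integrable.const_mul hi0 (kk ρ δ ψ g)⁻¹
    refine h1.congr (Filter.Eventually.of_forall fun s => ?_)
    show (kk ρ δ ψ g)⁻¹ * kj ρ δ ψ 0 (g + p + s * d) = _
    rw [loc_kj0 hg hh, inv_mul_cancel_left₀ hne]
  have hj1 : IntegrableOn (fun s : ℝ => (fun v : ℂ => v) (p + s * d) * cexp (EE δ h (p + s * d))) (Ioi 0) := by
    have h1 := Integrable.sub (Integrable.const_mul hi1 (kk ρ δ ψ g)⁻¹) (Integrable.const_mul hj0 g)
    refine h1.congr (Filter.Eventually.of_forall fun s => ?_)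
    show (kk ρ δ ψ g)⁻¹ * kj ρ δ ψ 1 (g + p + s * d) -
      g * ((fun _ : ℂ => (1 : ℂ)) (p + s * d) * cexp (EE δ h (p + s * d))) = _
    rw [loc_kj1 hg hh, inv_mul_cancel_left₀ hne]
    ring
  have h2 : ∫ s in Ioi (0 : ℝ), kj ρ δ ψ 1 (g + p + s * d) = kk ρ δ ψ g *
      (g * (∫ s in Ioi (0 : ℝ), (fun _ : ℂ => (1 : ℂ)) (p + s * d) * cexp (EE δ h (p + s * d))) +
        ∫ s in Ioi (0 : ℝ), (fun v : ℂ => v) (p + s * d) * cexp (EE δ h (p + s * d))) := by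
    rw [← integral_const_mul, ← integral_add (Integrable.const_mul hj0 g) hj1, ← integral_const_mul]
    refine integral_congr_ae (Filter.Eventually.of_forall fun s => ?_)
    exact loc_kj1 hg hh p d s
  unfold ray
  rw [h2]
  ring

theorem SR_loc {ρ δ ψ : ℝ} (hρ : 0 < ρ) (hδ : 0 < δ) {g h : ℂ} (hg : h = g + ψ * I)
    (hh : ρ * cexp g = h) {p : ℂ} (h0 : 0 < (g + p).re) (h1 : -Real.pi < (g + p).im)
    (h2 : (g + p).im < 0) :
    SR ρ δ ψ 0 = kk ρ δ ψ g * JJ δ h p I (fun _ => 1) ∧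
    SR ρ δ ψ 1 = kk ρ δ ψ g * (g * JJ δ h p I (fun _ => 1) + JJ δ h p I (fun v => v)) := by
  have hr0 := loc_ray0 (δ := δ) hg hh
  have e0 := SR_eq hρ hδ ψ 0 h0 h1 h2
  have e1 := SR_eq hρ hδ ψ 1 h0 h1 h2
  have u1 := loc_ray1 (δ := δ) hg hh p I (kj_int_up hρ hδ ψ 0 h0) (kj_int_up hρ hδ ψ 1 h0)
  have u2 := loc_ray1 (δ := δ) hg hh p 1 (kj_int_right hρ hδ ψ 0 h1 h2) (kj_int_right hρ hδ ψ 1 h1 h2)
  constructor
  · rw [e0, hr0, hr0]
    unfold JJ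
    ring
  · rw [e1, u1, u2]
    unfold JJ
    ring

theorem SL_loc {ρ δ ψ : ℝ} (hρ : 0 < ρ) (hδ : 0 < δ) {g h : ℂ} (hg : h = g + ψ * I)
    (hh : ρ * cexp g = h) {p : ℂ} {m : ℝ} (hm : 0 < m) (h1 : -Real.pi < (g + p).im)
    (h2 : (g + p).im < 0) :
    SL ρ δ ψ 0 = -kk ρ δ ψ g * JJ δ h p (-(1 + m * I)) (fun _ => 1) ∧
    SL ρ δ ψ 1 = -kk ρ δ ψ g * (g * JJ δ h p (-(1 + m * I)) (fun _ => 1) +
      JJ δ h p (-(1 + m * I)) (fun v => v)) := by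
  have hr0 := loc_ray0 (δ := δ) hg hh
  have e0 := SL_eq hρ hδ ψ 0 h1 h2 hm
  have e1 := SL_eq hρ hδ ψ 1 h1 h2 hm
  have u1 := loc_ray1 (δ := δ) hg hh p (-(1 + m * I)) (kj_int_down hρ hδ ψ 0 hm _) (kj_int_down hρ hδ ψ 1 hm _)
  have u2 := loc_ray1 (δ := δ) hg hh p 1 (kj_int_right hρ hδ ψ 0 h1 h2) (kj_int_right hρ hδ ψ 1 h1 h2)
  constructor
  · rw [e0, hr0, hr0]
    unfold JJ
    ring
  · rw [e1, u1, u2]
    unfold JJ
    ring

end SokalFU
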