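import Pool.Agent.Lib_MP_af4de1_fu.MDist
import Pool.Agent.Lib_MP_af4de1_fu.MLoc
import Pool.Agent.Lib_MP_af4de1_fu.MEstR
import Pool.Agent.Lib_MP_af4de1_fu.MEstA
import Pool.Agent.Lib_MP_af4de1_fu.MEstB1
import Pool.Agent.Lib_MP_af4de1_fu.MEstB2
import Pool.Agent.Lib_MP_af4de1_fu.MGap

/-!
# F2, part I: `0 < δ ≤ 9/80`, `1 ≤ δ r ≤ 9/2` ⇒ `Dist δ r`
-/

set_option autoImplicit false

namespace SokalFU

open Complex MeasureTheory Set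

theorem kk_ne (ρ δ ψ : ℝ) (g : ℂ) : kk ρ δ ψ g ≠ 0 := Complex.exp_ne_zero _

/-- `ρ e^(a+iσ) = a + i s` in complex form -/
theorem exp_form {ρ a σ s : ℝ} (hC : ρ * Real.exp a * Real.cos σ = a)
    (hS : ρ * Real.exp a * Real.sin σ = s) : (ρ : ℂ) * cexp (a + σ * I) = a + s * I := by
  have h1 : cexp ((a : ℂ) + σ * I) = ((Real.exp a * Real.cos σ : ℝ) : ℂ) +
      ((Real.exp a * Real.sin σ : ℝ) : ℂ) * I := by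
    rw [Complex.exp_add, Complex.exp_mul_I, ← Complex.ofReal_exp, ← Complex.ofReal_cos,
      ← Complex.ofReal_sin]
    push_cast; ring
  rw [h1]
  have h2 : (a : ℂ) = ((ρ * Real.exp a * Real.cos σ : ℝ) : ℂ) := by rw [hC]
  have h3 : (s : ℂ) = ((ρ * Real.exp a * Real.sin σ : ℝ) : ℂ) := by rw [hS]
  rw [h3]
  conv_rhs => rw [h2]
  push_cast; ring

/-- the ratio in terms of the local integrals -/
theorem ratio_re {K J0 J1 g : ℂ} (hK : K ≠ 0) (hJ : J0 ≠ 0) :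
    (K * (g * J0 + J1) / (K * J0)).re = g.re + (J1 / J0).re := by
  rw [mul_div_mul_left _ _ hK, add_div, mul_div_cancel_right₀ _ hJ, add_re]

theorem re_div_le {J0 J1 : ℂ} {k : ℝ} (hJ : J0 ≠ 0) (h : ‖J1‖ ≤ k * ‖J0‖) : |(J1 / J0).re| ≤ k := by
  refine (abs_re_le_norm _).trans ?_
  rw [norm_div, div_le_iff₀ (norm_pos_iff.mpr hJ)]
  exact h

/-- right contour -/
theorem right_pt {ρ δ ψ a σ : ℝ} (hδ : 0 < δ) (hδ' : δ ≤ 9 / 80) (h1 : 1 ≤ ρ) (h2 : ρ ≤ 9 / 2)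
    (H : Sad ρ ψ a σ) (hψ : ρ - 3 / 8 ≤ ψ) (hψ' : ψ ≤ ρ - 3 / 8 + 2 * Real.pi) :
    SR ρ δ ψ 0 ≠ 0 ∧ a - 3 / 20 ≤ (SR ρ δ ψ 1 / SR ρ δ ψ 0).re := by
  have hρ : 0 < ρ := by linarith
  obtain ⟨ra, rs, rs'⟩ := H.right_facts h1 h2 hψ hψ'
  obtain ⟨p1, p2, p3, p4, p5, p6⟩ := H.pos_facts h1 (by linarith : 0 ≤ a)
  obtain ⟨e0, e1⟩ := est_R hδ hδ' ra rs rs' p3
  have hpi := Real.pi_gt_three
  have hpi' := Real.pi_lt_d2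
  have hh : (ρ : ℂ) * cexp (a + σ * I) = a + (σ + ψ : ℝ) * I := exp_form H.C H.S
  have hg : (a : ℂ) + (σ + ψ : ℝ) * I = (a + σ * I) + ψ * I := by push_cast; ring
  obtain ⟨l0, l1⟩ := SR_loc hρ hδ (ψ := ψ) (p := -(2 * I)) hg hh
    (by simp; linarith) (by simp; linarith) (by simp; linarith)
  have hk := kk_ne ρ δ ψ ((a : ℂ) + σ * I)
  refine ⟨by rw [l0]; exact mul_ne_zero hk e0, ?_⟩
  rw [l0, l1, ratio_re hk e0]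
  have h3 := (abs_le.mp (re_div_le e0 e1)).1
  have h4 : ((a : ℂ) + σ * I).re = a := by simp
  rw [h4]; linarith

/-- left contour from an estimate of the local integrals -/
theorem left_gen {ρ δ ψ : ℝ} (hρ : 0 < ρ) (hδ : 0 < δ) {g h p : ℂ} (hg : h = g + ψ * I)
    (hh : ρ * cexp g = h) {m : ℝ} (hm : 0 < m) (h1 : -Real.pi < (g + p).im)
    (h2 : (g + p).im < 0) {k : ℝ} (e0 : JJ δ h p (-(1 + m * I)) (fun _ => 1) ≠ 0)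
    (e1 : ‖JJ δ h p (-(1 + m * I)) (fun v => v)‖ ≤ k * ‖JJ δ h p (-(1 + m * I)) (fun _ => 1)‖) :
    SL ρ δ ψ 0 ≠ 0 ∧ (SL ρ δ ψ 1 / SL ρ δ ψ 0).re ≤ g.re + k := by
  obtain ⟨l0, l1⟩ := SL_loc hρ hδ hg hh hm h1 h2
  have hk : -kk ρ δ ψ g ≠ 0 := neg_ne_zero.mpr (kk_ne ρ δ ψ g)
  refine ⟨by rw [l0]; exact mul_ne_zero hk e0, ?_⟩
  rw [l0, l1, ratio_re hk e0]
  linarith [(abs_le.mp (re_div_le e0 e1)).2]

theorem left_A {ρ δ ψ a σ : ℝ} (hδ : 0 < δ) (hδ' : δ ≤ 9 / 80) (h1 : 1 ≤ ρ) (h2 : ρ ≤ 9 / 2)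
    (H : Sad ρ (-ψ) a σ) (ha : a ≤ 0) (hψ : 5 / 8 ≤ ψ) :
    SL ρ δ ψ 0 ≠ 0 ∧ (SL ρ δ ψ 1 / SL ρ δ ψ 0).re ≤ a + 1 / 10 := by
  have hρ : 0 < ρ := by linarith
  have hpi := Real.pi_gt_three
  have hpi' := Real.pi_lt_d2
  have s0 := H.s_nonneg h1
  obtain ⟨n1, n2⟩ := H.neg_s h1 h2 ha
  have a0 := H.a_ge h1 h2
  have hσπ := H.σπ
  obtain ⟨e0, e1⟩ := est_A hδ hδ' (α := -a) (β := σ + -ψ) (by linarith) (by linarith) s0 (by linarith)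
  have eh : (-(((-a : ℝ) : ℂ) + ((σ + -ψ : ℝ) : ℂ) * I)) = (a : ℂ) + ((-(σ + -ψ) : ℝ) : ℂ) * I := by
    push_cast; ring
  rw [eh] at e0 e1
  have hh : (ρ : ℂ) * cexp (a + ((-σ : ℝ) : ℂ) * I) = a + ((-(σ + -ψ) : ℝ) : ℂ) * I :=
    exp_form (by rw [Real.cos_neg]; exact H.C) (by rw [Real.sin_neg, ← H.S]; ring)
  have hg : (a : ℂ) + ((-(σ + -ψ) : ℝ) : ℂ) * I = (a + ((-σ : ℝ) : ℂ) * I) + ψ * I := by
    push_cast; ring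
  have h5 := left_gen hρ hδ hg hh (m := 1 / 2) (by norm_num) (p := 6 / 5 * (1 + (1 / 2 : ℝ) * I))
    (by simp; linarith) (by simp; linarith) e0 e1
  have h4 : ((a : ℂ) + ((-σ : ℝ) : ℂ) * I).re = a := by simp
  rw [h4] at h5
  exact h5

theorem left_B {ρ δ ψ a σ : ℝ} (hδ : 0 < δ) (hδ' : δ ≤ 9 / 80) (h1 : 1 ≤ ρ) (h2 : ρ ≤ 9 / 2)
    (H : Sad ρ (ψ - 2 * Real.pi) a σ) (hψ : ψ ≤ ρ - 3 / 8 + 2 * Real.pi) :
    SL ρ δ ψ 0 ≠ 0 ∧ (SL ρ δ ψ 1 / SL ρ δ ψ 0).re ≤ a + 3 / 10 := by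
  have hρ : 0 < ρ := by linarith
  have hpi := Real.pi_gt_three
  have hpi' := Real.pi_lt_d2
  have s0 := H.s_nonneg h1
  have hσπ := H.σπ
  have hσ : 119 / 100 ≤ σ := by
    rcases le_total a 0 with ha | ha
    · have := (H.neg_s h1 h2 ha).2; linarith
    · exact (H.pos_facts h1 ha).1
  have hE : JJ δ (a + (σ + (ψ - 2 * Real.pi) : ℝ) * I) (4 / 5 * (1 + (5 / 2 : ℝ) * I))
      (-(1 + (5 / 2 : ℝ) * I)) (fun _ => 1) ≠ 0 ∧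
    ‖JJ δ (a + (σ + (ψ - 2 * Real.pi) : ℝ) * I) (4 / 5 * (1 + (5 / 2 : ℝ) * I))
      (-(1 + (5 / 2 : ℝ) * I)) (fun v => v)‖ ≤
      3 / 10 * ‖JJ δ (a + (σ + (ψ - 2 * Real.pi) : ℝ) * I) (4 / 5 * (1 + (5 / 2 : ℝ) * I))
        (-(1 + (5 / 2 : ℝ) * I)) (fun _ => 1)‖ := by
    rcases le_total a 0 with ha | ha
    · exact est_B1 hδ hδ' ha (H.a_ge h1 h2) s0 (H.neg_s h1 h2 ha).1
    · obtain ⟨p1, p2, p3, p4, p5, p6⟩ := H.pos_facts h1 ha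
      obtain ⟨q1, q2⟩ := H.left_facts h1 h2 ha (by linarith)
      exact est_B2 hδ hδ' ha p4 q1 p3 q2
  obtain ⟨e0, e1⟩ := hE
  have hh : (ρ : ℂ) * cexp (a + ((σ - 2 * Real.pi : ℝ) : ℂ) * I) =
      a + (σ + (ψ - 2 * Real.pi) : ℝ) * I :=
    exp_form (by rw [Real.cos_sub_two_pi]; exact H.C) (by rw [Real.sin_sub_two_pi]; exact H.S)
  have hg : (a : ℂ) + (σ + (ψ - 2 * Real.pi) : ℝ) * I =
      (a + ((σ - 2 * Real.pi : ℝ) : ℂ) * I) + ψ * I := by push_cast; ring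
  have h5 := left_gen hρ hδ hg hh (m := 5 / 2) (by norm_num) (p := 4 / 5 * (1 + (5 / 2 : ℝ) * I))
    (by simp; linarith) (by simp; linarith) e0 e1
  have h4 : ((a : ℂ) + ((σ - 2 * Real.pi : ℝ) : ℂ) * I).re = a := by simp
  rw [h4] at h5
  exact h5

theorem main_pt {ρ δ ψ : ℝ} (hδ : 0 < δ) (hδ' : δ ≤ 9 / 80) (h1 : 1 ≤ ρ) (h2 : ρ ≤ 9 / 2)
    (hψ : ρ - 3 / 8 ≤ ψ) (hψ' : ψ ≤ ρ - 3 / 8 + 2 * Real.pi) :
    SL ρ δ ψ 0 ≠ 0 ∧ SR ρ δ ψ 0 ≠ 0 ∧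
      (SL ρ δ ψ 1 / SL ρ δ ψ 0).re < (SR ρ δ ψ 1 / SR ρ δ ψ 0).re := by
  have hpi := Real.pi_gt_three
  have hpi' := Real.pi_lt_d2
  obtain ⟨a', σ', HR⟩ := exists_sad (y := ψ) h1 h2 (by linarith) hψ'
  obtain ⟨r0, r1⟩ := right_pt hδ hδ' h1 h2 HR hψ hψ'
  rcases le_total ψ Real.pi with hc | hc
  · obtain ⟨a, σ, HL⟩ := exists_sad (y := -ψ) h1 h2 (by linarith) (by linarith)
    have ha := HL.low_facts h1 (by linarith)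
    obtain ⟨l0, l1⟩ := left_A hδ hδ' h1 h2 HL ha (by linarith)
    have hg := HR.right_a h1 (by linarith [Real.pi_lt_d4]) hψ
    exact ⟨l0, r0, by linarith⟩
  · obtain ⟨a, σ, HL⟩ := exists_sad (y := ψ - 2 * Real.pi) h1 h2 (by linarith) (by linarith)
    obtain ⟨l0, l1⟩ := left_B hδ hδ' h1 h2 HL hψ'
    have HR' : Sad ρ ((ψ - 2 * Real.pi) + 2 * Real.pi) a' σ' := by
      rw [sub_add_cancel]; exact HR
    have hg : 1 / 2 ≤ a' - a := by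
      rcases le_total a 0 with ha | ha
      · exact gap_neg h1 h2 HL HR' ha (by linarith) (by linarith)
      · exact gap_pos h1 h2 HL HR' ha (by linarith)
    exact ⟨l0, r0, by linarith⟩

theorem dist_mid {δ r : ℝ} (hδ : 0 < δ) (hδ' : δ ≤ 9 / 80) (h1 : 1 ≤ δ * r) (h2 : δ * r ≤ 9 / 2) :
    Dist δ r := by
  have h3 := dist_of (ρ := δ * r) (by linarith) hδ (δ * r - 3 / 8)
    (fun ψ hψ => main_pt hδ hδ' h1 h2 hψ.1 hψ.2)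
  rwa [mul_div_cancel_left₀ _ hδ.ne'] at h3

end SokalFU
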