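import Pool.Agent.Lib_MP_af4de1_fu.Tub
import Pool.Agent.Lib_MP_af4de1_in.Final

/-!
# Assembly of the full theorem from the ranges F1, Part I (mid), F3, tip and the interior

* `hF1`  : `0 < α ≤ π`, `r ≥ 50`, `α r ≥ 9/2`
* `hMid` : `0 < α ≤ 9/80`, `1 ≤ α r ≤ 9/2`
* `hF3`  : `2/25 ≤ α ≤ π`, `r ≤ 50`, given the statement for `r ≥ 50`
* `hTip` : `0 < α ≤ 2/25`, `α r ≤ 1`
* `hInt` : the interior
-/

set_option autoImplicit false

open Complex SokalF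

namespace SokalFU

/-- the circle `|q| = 1` from the four ranges -/
theorem dist_all
    (hF1 : ∀ α r : ℝ, 0 < α → α ≤ Real.pi → 50 ≤ r → 9 / 2 ≤ α * r → Dist α r)
    (hMid : ∀ α r : ℝ, 0 < α → α ≤ 9 / 80 → 1 ≤ α * r → α * r ≤ 9 / 2 → Dist α r)
    (hF3 : (∀ α r : ℝ, 2 / 25 ≤ α → α ≤ Real.pi → 50 ≤ r → Dist α r) →
      ∀ α r : ℝ, 2 / 25 ≤ α → α ≤ Real.pi → r ≤ 50 → Dist α r)
    (hTip : ∀ α r : ℝ, 0 < α → α ≤ 2 / 25 → 0 < r → α * r ≤ 1 → Dist α r) :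
    ∀ α r : ℝ, 0 < α → α ≤ Real.pi → 0 < r → Dist α r := by
  have hbig : ∀ α r : ℝ, 2 / 25 ≤ α → α ≤ Real.pi → 50 ≤ r → Dist α r := by
    intro α r h1 h2 h3
    have h0 : 0 < α := by linarith
    rcases le_total (9 / 2) (α * r) with h4 | h4
    · exact hF1 α r h0 h2 h3 h4
    · have h5 : α ≤ 9 / 80 := by nlinarith
      exact hMid α r h0 h5 (by nlinarith) h4
  intro α r h1 h2 h3
  rcases le_total α (2 / 25) with h4 | h4
  · rcases le_total (α * r) 1 with h5 | h5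
    · exact hTip α r h1 h4 h3 h5
    · rcases le_total (α * r) (9 / 2) with h6 | h6
      · exact hMid α r h1 (by linarith) h5 h6
      · refine hF1 α r h1 h2 ?_ h6
        nlinarith
  · rcases le_total r 50 with h5 | h5
    · exact hF3 hbig α r h4 h2 h5
    · exact hbig α r h4 h2 h5

/-- `Dist` for all radii gives the form used for the interior -/
theorem inDist_of_dist {α : ℝ} (h : ∀ r : ℝ, 0 < r → Dist α r) :
    SokalIn.Dist (cexp (α * I)) := by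
  have hq : ‖qa α‖ ≤ 1 := (norm_qa α).le
  have hz0 : ∀ z : ℂ, F (qa α) z = 0 → 0 < ‖z‖ := by
    intro z hz
    rw [norm_pos_iff]
    rintro rfl
    rw [F_zero] at hz
    exact one_ne_zero hz
  refine ⟨fun z hz => ?_, fun z w hz hw hn => ?_⟩
  · have h1 := (h ‖z‖ (hz0 z hz) z rfl hz).1
    have h2 : deriv (F (qa α)) z = F (qa α) (qa α * z) := deriv_F hq z
    rw [h2] at h1
    exact h1
  · exact ((h ‖z‖ (hz0 z hz) z rfl hz).2 w hn.symm hw).symm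

/-- the full theorem for `F` -/
theorem simple_all
    (hD : ∀ α r : ℝ, 0 < α → α ≤ Real.pi → 0 < r → Dist α r)
    (hInt : (∀ q : ℂ, ‖q‖ = 1 → q ≠ 1 → SokalIn.Dist q) →
      ∀ q : ℂ, 0 < ‖q‖ → ‖q‖ < 1 → ∀ z, F q z = 0 → F q (q * z) ≠ 0) :
    ∀ q : ℂ, 0 < ‖q‖ → ‖q‖ ≤ 1 → ∀ z, F q z = 0 → F q (q * z) ≠ 0 := by
  have hcirc : ∀ q : ℂ, ‖q‖ = 1 → q ≠ 1 → SokalIn.Dist q :=
    SokalIn.circle_of_arc fun α h1 h2 => inDist_of_dist fun r hr => hD α r h1 h2 hr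
  intro q h0 h1 z hz
  rcases h1.lt_or_eq with h2 | h2
  · exact hInt hcirc q h0 h2 z hz
  · rcases eq_or_ne q 1 with rfl | h3
    · rw [one_mul]
      intro _
      have h4 : F 1 z = cexp z := by
        rw [Complex.exp_eq_exp_ℂ, NormedSpace.exp_eq_tsum_div]
        unfold F
        simp
      rw [h4] at hz
      exact exp_ne_zero z hz
    · exact (hcirc q h2 h3).1 z hz

end SokalFU
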