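import Pool.Agent.Lib_MP_af4de1_fu.Level

/-!
# The tip: the region with `U v = min (4v/5) (32/25 + (11/50) (v - 8/5))`, `k₁ = 2/5`, `V = 19/5`
-/

set_option autoImplicit false

namespace SokalFU

open Filter Topology Set SokalF

/-- the right side -/
noncomputable def Uf (v : ℝ) : ℝ := min (4 / 5 * v) (32 / 25 + 11 / 50 * (v - 8 / 5))

theorem Uf_mono : Monotone Uf := fun v v' h => by
  unfold Uf
  exact min_le_min (by linarith) (by linarith)

theorem Uf_cont : Continuous Uf := by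
  unfold Uf
  fun_prop

theorem Uf_concave : ConcaveOn ℝ univ Uf := by
  have h1 : ConcaveOn ℝ univ (fun v : ℝ => 4 / 5 * v) := by
    refine ⟨convex_univ, fun x _ y _ a b _ _ _ => ?_⟩
    simp only [smul_eq_mul]
    linarith
  have h2 : ConcaveOn ℝ univ (fun v : ℝ => 32 / 25 + 11 / 50 * (v - 8 / 5)) := by
    refine ⟨convex_univ, fun x _ y _ a b _ _ hab => ?_⟩
    simp only [smul_eq_mul]
    have : b = 1 - a := by linarith
    subst this
    linarith
  exact h1.inf h2

theorem Uf_le (v : ℝ) : Uf v ≤ 4 / 5 * v := min_le_left _ _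

theorem Uf_ge {v : ℝ} (h0 : 0 < v) (hV : v ≤ 19 / 5) : 2 / 5 * v ≤ Uf v := le_min (by linarith) (by linarith)

theorem Uf_low {v : ℝ} (h : v ≤ 8 / 5) : Uf v = 4 / 5 * v := min_eq_left (by linarith)

theorem Uf_high {v : ℝ} (h : 8 / 5 ≤ v) : Uf v = 32 / 25 + 11 / 50 * (v - 8 / 5) := min_eq_right (by linarith)

/-- the region -/
abbrev Dtip : Set ℂ := DU (2 / 5) (19 / 5) Uf

/-- the window -/
abbrev Ptip (δ : ℝ) : Set ℂ := PU (2 / 5) (19 / 5) Uf δ

theorem mem_Dtip {v : ℝ} (h0 : 0 < v) (hV : v ≤ 19 / 5) : (⟨Uf v, v⟩ : ℂ) ∈ Dtip := ⟨h0, hV, Uf_ge h0 hV, le_rfl⟩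

/-- The hypotheses from (G1), (G2), (G3), `Re h_R > 0`. -/
theorem lvHyp_tip (g1 : ∀ p ∈ Dtip, 0 < (Gp p).re) (g2 : ∀ p ∈ Dtip, p.re * (Gp p).re + p.im * (Gp p).im < 0)
    (g3 : ∀ v, 8 / 5 ≤ v → v ≤ 19 / 5 → 0 < (Gp ⟨Uf v, v⟩ / ⟨Uf v, v⟩ * (11 / 50 + Complex.I)).re)
    (hr : ∀ p ∈ Dtip, 0 < (hR p).re) : LvHyp (2 / 5) (19 / 5) Uf := by
  have low : ∀ v₁ v₂, 0 < v₁ → v₁ ≤ v₂ → v₂ ≤ 8 / 5 → lw ⟨Uf v₁, v₁⟩ ≤ lw ⟨Uf v₂, v₂⟩ := by
    intro v₁ v₂ h0 h12 h2
    rcases h12.lt_or_eq with h | h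
    · set p : ℂ := ⟨Uf v₁, v₁⟩ with hp
      set p' : ℂ := ⟨Uf v₂, v₂⟩ with hp'
      have hv : ∀ s ∈ Icc (0 : ℝ) 1, (sg p p' s).im = v₁ + s * (v₂ - v₁) := fun s _ => by
        simp [sg, hp, hp']
      have hvI : ∀ s ∈ Icc (0 : ℝ) 1, 0 < (sg p p' s).im ∧ (sg p p' s).im ≤ 8 / 5 := fun s hs => by
        rw [hv s hs]
        constructor
        · have := mul_nonneg hs.1 (sub_nonneg.2 h12)
          linarith
        · have := mul_le_mul_of_nonneg_right hs.2 (sub_nonneg.2 h12)
          linarith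
      have hre : ∀ s ∈ Icc (0 : ℝ) 1, (sg p p' s).re = 4 / 5 * (sg p p' s).im := fun s hs => by
        rw [hv s hs]
        have e1 : p.re = 4 / 5 * v₁ := Uf_low (h12.trans h2)
        have e2 : p'.re = 4 / 5 * v₂ := Uf_low h2
        have : (sg p p' s).re = p.re + s * (p'.re - p.re) := by simp [sg]
        rw [this, e1, e2]
        ring
      have hm : ∀ s ∈ Icc (0 : ℝ) 1, sg p p' s ∈ Dtip := fun s hs => by
        obtain ⟨i1, i2⟩ := hvI s hs
        refine ⟨i1, by linarith, ?_, ?_⟩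
        · rw [hre s hs]; linarith
        · rw [hre s hs, Uf_low i2]
      have h3 := lt_of_seg (f := fun s => lw (sg p p' s))
        (f' := fun s => (Gp (sg p p' s) / sg p p' s * (p' - p)).re)
        (fun s hs => hasDerivAt_log_wmap (hasDerivAt_sg p p' s) (DU_re_pos (by norm_num) (hm s hs)).ne')
        (fun s hs => by
          have h1 := g1 _ (hm s hs)
          have hvp := (hvI s hs).1
          have e1 : p' - p = ((v₂ - v₁ : ℝ) : ℂ) * ((4 / 5 : ℝ) + Complex.I) := by
            apply Complex.ext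
            · have a1 : p.re = 4 / 5 * v₁ := Uf_low (h12.trans h2)
              have a2 : p'.re = 4 / 5 * v₂ := Uf_low h2
              rw [Complex.sub_re, a1, a2]
              simp
              ring
            · simp [hp, hp']
          have e0 : sg p p' s = (((sg p p' s).im : ℝ) : ℂ) * ((4 / 5 : ℝ) + Complex.I) := by
            apply Complex.ext
            · rw [hre s hs]
              simp
              ring
            · simp
          have hvc : (((sg p p' s).im : ℝ) : ℂ) ≠ 0 := Complex.ofReal_ne_zero.2 hvp.ne'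
          have hk : ((4 / 5 : ℝ) : ℂ) + Complex.I ≠ 0 := by
            intro h
            have := congrArg Complex.im h
            simp at this
          have e2 : Gp (sg p p' s) / sg p p' s * (p' - p) =
              (((v₂ - v₁) / (sg p p' s).im : ℝ) : ℂ) * Gp (sg p p' s) := by
            generalize sg p p' s = z at e0 hvc ⊢
            obtain ⟨m, hm2⟩ : ∃ m, m = z.im := ⟨_, rfl⟩
            rw [← hm2] at e0 hvc ⊢
            have hwz : (((4 / 5 : ℝ) : ℂ) + Complex.I) / z = (m : ℂ)⁻¹ := by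
              rw [e0, div_mul_eq_div_div_swap, div_self hk, one_div]
            have e3 : Gp z / z * (((v₂ - v₁ : ℝ) : ℂ) * (((4 / 5 : ℝ) : ℂ) + Complex.I)) =
                Gp z * ((v₂ - v₁ : ℝ) : ℂ) * ((((4 / 5 : ℝ) : ℂ) + Complex.I) / z) := by ring
            rw [e1, e3, hwz]
            push_cast
            ring
          rw [e2, Complex.re_ofReal_mul]
          exact mul_pos (div_pos (sub_pos.2 h) hvp) h1)
      rw [sg_zero, sg_one] at h3
      exact h3.le
    · rw [h]
  have high : ∀ v₁ v₂, 8 / 5 ≤ v₁ → v₁ ≤ v₂ → v₂ ≤ 19 / 5 → lw ⟨Uf v₁, v₁⟩ ≤ lw ⟨Uf v₂, v₂⟩ := by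
    intro v₁ v₂ h0 h12 h2
    rcases h12.lt_or_eq with h | h
    · set p : ℂ := ⟨Uf v₁, v₁⟩ with hp
      set p' : ℂ := ⟨Uf v₂, v₂⟩ with hp'
      have hv : ∀ s ∈ Icc (0 : ℝ) 1, (sg p p' s).im = v₁ + s * (v₂ - v₁) := fun s _ => by
        simp [sg, hp, hp']
      have hvI : ∀ s ∈ Icc (0 : ℝ) 1, 8 / 5 ≤ (sg p p' s).im ∧ (sg p p' s).im ≤ 19 / 5 := fun s hs => by
        rw [hv s hs]
        constructor
        · have := mul_nonneg hs.1 (sub_nonneg.2 h12)
          linarith
        · have := mul_le_mul_of_nonneg_right hs.2 (sub_nonneg.2 h12)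
          linarith
      have a1 : p.re = 32 / 25 + 11 / 50 * (v₁ - 8 / 5) := Uf_high h0
      have a2 : p'.re = 32 / 25 + 11 / 50 * (v₂ - 8 / 5) := Uf_high (h0.trans h12)
      have e0 : ∀ s ∈ Icc (0 : ℝ) 1, sg p p' s = ⟨Uf (sg p p' s).im, (sg p p' s).im⟩ := fun s hs => by
        apply Complex.ext
        · show (sg p p' s).re = Uf (sg p p' s).im
          rw [Uf_high (hvI s hs).1, hv s hs]
          have : (sg p p' s).re = p.re + s * (p'.re - p.re) := by simp [sg]
          rw [this, a1, a2]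
          ring
        · rfl
      have hm : ∀ s ∈ Icc (0 : ℝ) 1, sg p p' s ∈ Dtip := fun s hs => by
        rw [e0 s hs]
        exact mem_Dtip (by linarith [(hvI s hs).1]) (hvI s hs).2
      have h3 := lt_of_seg (f := fun s => lw (sg p p' s))
        (f' := fun s => (Gp (sg p p' s) / sg p p' s * (p' - p)).re)
        (fun s hs => hasDerivAt_log_wmap (hasDerivAt_sg p p' s) (DU_re_pos (by norm_num) (hm s hs)).ne')
        (fun s hs => by
          have h1 := g3 _ (hvI s hs).1 (hvI s hs).2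
          rw [← e0 s hs] at h1
          have e1 : p' - p = ((v₂ - v₁ : ℝ) : ℂ) * (11 / 50 + Complex.I) := by
            apply Complex.ext
            · rw [Complex.sub_re, a1, a2, Complex.re_ofReal_mul, Complex.add_re, Complex.I_re, add_zero]
              have : ((11 : ℂ) / 50).re = 11 / 50 := by norm_num
              rw [this]
              ring
            · rw [Complex.sub_im, Complex.im_ofReal_mul, Complex.add_im, Complex.I_im]
              have : ((11 : ℂ) / 50).im = 0 := by norm_num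
              rw [this]
              simp [hp, hp']
          have e2 : Gp (sg p p' s) / sg p p' s * (p' - p) =
              ((v₂ - v₁ : ℝ) : ℂ) * (Gp (sg p p' s) / sg p p' s * (11 / 50 + Complex.I)) := by
            rw [e1]; ring
          rw [e2, Complex.re_ofReal_mul]
          exact mul_pos (sub_pos.2 h) h1)
      rw [sg_zero, sg_one] at h3
      exact h3.le
    · rw [h]
  refine ⟨by norm_num, Uf_mono, Uf_cont, Uf_concave, fun v h0 hV => Uf_ge h0 hV, g1, g2, ?_, hr⟩
  intro v₁ v₂ h0 h12 h2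
  rcases le_total v₂ (8 / 5) with h | h
  · exact low v₁ v₂ h0 h12 h
  · rcases le_total (8 / 5) v₁ with h' | h'
    · exact high v₁ v₂ h' h12 h2
    · exact (low v₁ (8 / 5) h0 h' le_rfl).trans (high (8 / 5) v₂ le_rfl h h2)

end SokalFU
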