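import Pool.Agent.Lib_MP_af4de1_fu.Wave

/-!
# `g^j k(g)` is admissible; rays as end integrals
-/

set_option autoImplicit false

namespace SokalFW

open Complex MeasureTheory Set

/-- `g^j k(g)` is admissible. -/
theorem Adm_kj (ρ δ ψ : ℝ) (j : ℕ) : Adm δ ρ ψ (SokalFU.kj ρ δ ψ j) := by
  induction j with
  | zero =>
    have h : SokalFU.kj ρ δ ψ 0 = SokalFU.kk ρ δ ψ := by
      funext g
      unfold SokalFU.kj
      rw [pow_zero, one_mul]
    rw [h]
    exact Adm.kk δ ρ ψ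
  | succ n ih =>
    have h : SokalFU.kj ρ δ ψ (n + 1) = fun g => g * SokalFU.kj ρ δ ψ n g := by
      funext g
      unfold SokalFU.kj
      rw [pow_succ]
      ring
    rw [h]
    exact ih.id_mul

theorem ray_IV (k : ℂ → ℂ) (p : ℂ) : SokalFU.ray k p 1 = IV k p := by
  unfold SokalFU.ray IV
  rw [mul_one]

theorem ray_IT (k : ℂ → ℂ) (p : ℂ) : SokalFU.ray k p I = IT k p := by
  unfold SokalFU.ray IT
  rw [mul_comm]

theorem ray_IB (k : ℂ → ℂ) (p d : ℂ) : SokalFU.ray k p (-d) = -IB k p d := by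
  unfold SokalFU.ray IB
  ring

theorem BDir_slope {ψ m : ℝ} (hm : 0 < m) (p : ℂ) : BDir ψ p (1 + m * I) := by
  have h1 : (1 + m * I : ℂ).re = 1 := by simp
  have h2 : (1 + m * I : ℂ).im = m := by simp
  refine ⟨by rw [h1]; norm_num, by rw [h2]; exact hm.le, fun h => ?_, Or.inl (by rw [h1]; norm_num),
    Or.inl (by rw [h2]; exact hm)⟩
  rw [h] at h1
  simp at h1

theorem BDir_vert {ψ : ℝ} {p : ℂ} (hp : p.re < 0) : BDir ψ p I :=
  ⟨by simp, by simp, I_ne_zero, Or.inr hp, Or.inl (by simp)⟩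

end SokalFW
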