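import Pool.Agent.Lib_MP_af4de1_fu.MInt

/-!
# Derivative of the contour integrals in `ψ` [FU-M4]

`∂_ψ k = -(g/δ) k`.  For `|ψ' - ψ| < 1`: `‖g k_ψ'(g)‖ ≤ ‖g k_(ψ+1)(g)‖ + ‖g k_(ψ-1)(g)‖` (`norm_kk`: the exponent is affine in `ψ`), so
`hasDerivAt_integral_of_dominated_loc_of_deriv_le` applies on every ray where all `kj ρ δ ψ j` are integrable.
-/

set_option autoImplicit false

namespace SokalFU

open Complex MeasureTheory Set

private theorem md_bound {ρ δ : ℝ} (hδ : 0 < δ) {ψ y : ℝ} (h1 : ψ - 1 ≤ y) (h2 : y ≤ ψ + 1) (g : ℂ) :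
    ‖kj ρ δ y 1 g‖ ≤ ‖kj ρ δ (ψ + 1) 1 g‖ + ‖kj ρ δ (ψ - 1) 1 g‖ := by
  unfold kj
  rw [norm_mul, norm_mul, norm_mul, ← mul_add]
  refine mul_le_mul_of_nonneg_left ?_ (norm_nonneg _)
  rw [norm_kk, norm_kk, norm_kk]
  rcases le_total 0 g.re with h | h
  · have h3 : Real.exp (-(g.re * (g.im + y) - ρ * Real.exp g.re * Real.sin g.im) / δ) ≤
        Real.exp (-(g.re * (g.im + (ψ - 1)) - ρ * Real.exp g.re * Real.sin g.im) / δ) := by
      refine Real.exp_le_exp.2 (div_le_div_of_nonneg_right ?_ hδ.le)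
      have := mul_le_mul_of_nonneg_left h1 h
      linarith
    have h4 := Real.exp_pos (-(g.re * (g.im + (ψ + 1)) - ρ * Real.exp g.re * Real.sin g.im) / δ)
    linarith
  · have h3 : Real.exp (-(g.re * (g.im + y) - ρ * Real.exp g.re * Real.sin g.im) / δ) ≤
        Real.exp (-(g.re * (g.im + (ψ + 1)) - ρ * Real.exp g.re * Real.sin g.im) / δ) := by
      refine Real.exp_le_exp.2 (div_le_div_of_nonneg_right ?_ hδ.le)
      have := mul_le_mul_of_nonpos_left h2 h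
      linarith
    have h4 := Real.exp_pos (-(g.re * (g.im + (ψ - 1)) - ρ * Real.exp g.re * Real.sin g.im) / δ)
    linarith

private theorem md_deriv {ρ δ : ℝ} (g : ℂ) (y : ℝ) :
    HasDerivAt (fun y : ℝ => kj ρ δ y 0 g) (-(1 / δ : ℂ) * kj ρ δ y 1 g) y := by
  have h0 : HasDerivAt (fun y : ℝ => (y : ℂ)) 1 y := Complex.ofRealCLM.hasDerivAt
  have h1 : HasDerivAt (fun y : ℝ => I / δ * (g ^ 2 / 2 - ρ * cexp g) - (y : ℂ) * g / δ)
      (-(1 * g / δ)) y := ((h0.mul_const g).div_const (δ : ℂ)).const_sub _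
  have h2 := (h1.cexp).const_mul (g ^ 0)
  refine h2.congr_deriv ?_
  unfold kj kk
  ring

theorem hasDerivAt_ray {ρ δ : ℝ} (hδ : 0 < δ) {p d : ℂ}
    (hi : ∀ ψ j, IntegrableOn (fun s : ℝ => kj ρ δ ψ j (p + s * d)) (Ioi 0)) (ψ : ℝ) :
    HasDerivAt (fun ψ : ℝ => ray (kj ρ δ ψ 0) p d) (-(1 / δ : ℂ) * ray (kj ρ δ ψ 1) p d) ψ := by
  have key := hasDerivAt_integral_of_dominated_loc_of_deriv_le
    (μ := volume.restrict (Set.Ioi (0 : ℝ)))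
    (F := fun (y : ℝ) (s : ℝ) => kj ρ δ y 0 (p + s * d))
    (F' := fun (y : ℝ) (s : ℝ) => -(1 / δ : ℂ) * kj ρ δ y 1 (p + s * d))
    (x₀ := ψ) (s := Metric.ball ψ 1)
    (bound := fun s : ℝ => ‖-(1 / δ : ℂ)‖ * (‖kj ρ δ (ψ + 1) 1 (p + s * d)‖ +
      ‖kj ρ δ (ψ - 1) 1 (p + s * d)‖))
    (Metric.ball_mem_nhds ψ one_pos)
    (Filter.Eventually.of_forall fun y => (hi y 0).aestronglyMeasurable)
    (hi ψ 0)
    ((hi ψ 1).const_mul _).aestronglyMeasurable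
    ?_ (((hi (ψ + 1) 1).norm.add (hi (ψ - 1) 1).norm).const_mul _) ?_
  · have h1 := (key.2).mul_const d
    have h2 : (∫ s in Set.Ioi (0 : ℝ), -(1 / δ : ℂ) * kj ρ δ ψ 1 (p + s * d)) * d =
        -(1 / δ : ℂ) * ray (kj ρ δ ψ 1) p d := by
      unfold ray
      rw [integral_const_mul, mul_assoc]
    rw [h2] at h1
    exact h1
  · refine (ae_restrict_iff' measurableSet_Ioi).2 (Filter.Eventually.of_forall fun s _ y hy => ?_)
    rw [norm_mul]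
    refine mul_le_mul_of_nonneg_left ?_ (norm_nonneg _)
    rw [Metric.mem_ball, Real.dist_eq, abs_lt] at hy
    exact md_bound hδ (by linarith) (by linarith) _
  · exact Filter.Eventually.of_forall fun s y _ => md_deriv _ y

theorem hasDerivAt_SR {ρ δ : ℝ} (hρ : 0 < ρ) (hδ : 0 < δ) (ψ : ℝ) :
    HasDerivAt (fun ψ : ℝ => SR ρ δ ψ 0) (-(1 / δ : ℂ) * SR ρ δ ψ 1) ψ := by
  have h1 := hasDerivAt_ray (ρ := ρ) hδ (p := 1 - I) (d := I)
    (fun ψ j => kj_int_up hρ hδ ψ j (by simp)) ψ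
  have h2 := hasDerivAt_ray (ρ := ρ) hδ (p := 1 - I) (d := 1)
    (fun ψ j => kj_int_right hρ hδ ψ j (by simp; linarith [Real.pi_gt_three]) (by simp)) ψ
  have e : -(1 / δ : ℂ) * SR ρ δ ψ 1 = -(1 / δ : ℂ) * ray (kj ρ δ ψ 1) (1 - I) I -
      -(1 / δ : ℂ) * ray (kj ρ δ ψ 1) (1 - I) 1 := by unfold SR; ring
  rw [e]
  exact h1.fun_sub h2

theorem hasDerivAt_SL {ρ δ : ℝ} (hρ : 0 < ρ) (hδ : 0 < δ) (ψ : ℝ) :
    HasDerivAt (fun ψ : ℝ => SL ρ δ ψ 0) (-(1 / δ : ℂ) * SL ρ δ ψ 1) ψ := by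
  have h1 := hasDerivAt_ray (ρ := ρ) hδ (p := 1 - I) (d := -(1 + I))
    (fun ψ j => by simpa using kj_int_down hρ hδ ψ j (m := 1) one_pos (1 - I)) ψ
  have h2 := hasDerivAt_ray (ρ := ρ) hδ (p := 1 - I) (d := 1)
    (fun ψ j => kj_int_right hρ hδ ψ j (by simp; linarith [Real.pi_gt_three]) (by simp)) ψ
  have e : -(1 / δ : ℂ) * SL ρ δ ψ 1 = -(1 / δ : ℂ) * ray (kj ρ δ ψ 1) (1 - I) 1 -
      -(1 / δ : ℂ) * ray (kj ρ δ ψ 1) (1 - I) (-(1 + I)) := by unfold SL; ring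
  rw [e]
  exact h2.fun_sub h1

end SokalFU
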