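import Pool.Agent.Lib_MP_af4de1_fu.MShift

/-!
# `F` in terms of `SL`, `SR` [FU-M5]

`SokalV.rep_E` with `t = -iδ` (`cexp (-t) = qa δ`), `ζ = -ρ e^(-iψ)`; primitive `H ↦ e^(-iψ²/2δ) P(H - iψ)`, `P` a primitive of `kj ρ δ ψ 0`:
`exp(Ph ζ H/t) = e^(-iψ²/2δ) k(H - iψ)`; then `end_up` and `end_vert`.
-/

set_option autoImplicit false

namespace SokalFU

open Complex MeasureTheory Set

/-- the point of the circle `|z| = ρ/δ`: `iδz e^(-iδ/2) = ρ e^(-iψ)` -/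
noncomputable def zp (ρ δ ψ : ℝ) : ℂ := ρ / δ * cexp ((δ / 2 - ψ) * I) / I

theorem rep_F {ρ δ : ℝ} (hρ : 0 < ρ) (hδ : 0 < δ) : ∃ C : ℂ, C ≠ 0 ∧ ∀ ψ : ℝ,
    SokalF.F (qa δ) (zp ρ δ ψ) * C =
      cexp (-(ψ ^ 2 / (2 * δ)) * I) * (SL ρ δ ψ 0 + SR ρ δ ψ 0) := by
  have hδ' : (δ : ℂ) ≠ 0 := by exact_mod_cast hδ.ne'
  have ht0 : (-(δ * I) : ℂ) ≠ 0 := neg_ne_zero.2 (mul_ne_zero hδ' I_ne_zero)
  have htre : 0 ≤ (-(δ * I) : ℂ).re := by simp
  have htim : (-(δ * I) : ℂ).im ≤ 0 := by simp [hδ.le]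
  refine ⟨(2 * Real.pi * (-(δ * I))) ^ (1 / 2 : ℂ) * I, mul_ne_zero ?_ I_ne_zero, fun ψ => ?_⟩
  · intro h
    rw [cpow_eq_zero_iff] at h
    have hpi : (Real.pi : ℂ) ≠ 0 := by exact_mod_cast Real.pi_ne_zero
    exact (mul_ne_zero (mul_ne_zero two_ne_zero hpi) ht0) h.1
  obtain ⟨P, hP⟩ := exists_prim ρ δ ψ 0
  have hkey : ∀ H : ℂ, cexp (SokalV.Ph (-(ρ * cexp (-(ψ * I)))) H / (-(δ * I))) =
      cexp (-(ψ ^ 2 / (2 * δ)) * I) * kj ρ δ ψ 0 (H - ψ * I) := by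
    intro H
    unfold kj kk SokalV.Ph
    rw [pow_zero, one_mul, ← Complex.exp_add]
    congr 1
    have h1 : cexp (-(ψ * I)) * cexp H = cexp (H - ψ * I) := by
      rw [← Complex.exp_add]; congr 1; ring
    have h2 : H ^ 2 / 2 + -(ρ * cexp (-(ψ * I))) * cexp H =
        H ^ 2 / 2 - ρ * cexp (H - ψ * I) := by
      rw [← h1]; ring
    rw [h2]
    have h3 : ∀ x : ℂ, x / (-(δ * I)) = I / δ * x := by
      intro x
      field_simp
      rw [I_sq]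
      ring
    rw [h3]
    field_simp
    ring_nf
    rw [I_pow_three, I_sq]
    ring
  have hP' : ∀ H, HasDerivAt (fun H => cexp (-(ψ ^ 2 / (2 * δ)) * I) * P (H - ψ * I))
      (cexp (SokalV.Ph (-(ρ * cexp (-(ψ * I)))) H / (-(δ * I)))) H := by
    intro H
    rw [hkey H]
    have h1 : HasDerivAt (fun H : ℂ => H - ψ * I) 1 H := (hasDerivAt_id H).sub_const _
    have h2 := (hP (H - ψ * I)).comp H h1
    rw [mul_one] at h2
    exact h2.const_mul _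
  have hrep := SokalV.rep_E ht0 htre htim 0 hP'
  have hz : (-(ρ * cexp (-(ψ * I)))) / (-(δ * I)) * cexp (-(-(δ * I)) / 2) = zp ρ δ ψ := by
    unfold zp
    have h1 : cexp ((δ / 2 - ψ) * I) = cexp (-(ψ * I)) * cexp (-(-(δ * I)) / 2) := by
      rw [← Complex.exp_add]; congr 1; ring
    rw [h1]
    field_simp
  have hE : SokalU.E (-(δ * I)) (zp ρ δ ψ) = SokalF.F (qa δ) (zp ρ δ ψ) := by
    unfold SokalU.E qa
    rw [neg_neg]
  rw [hz, hE] at hrep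
  rw [← mul_assoc, hrep]
  have hup := end_up hρ hδ ψ 0 hP (p := 1 - ψ * I) (p' := 1 - I) (by simp) (by simp)
  have hve := end_vert hρ hδ ψ 0 hP (p := -1 - ψ * I) (by simp) (1 - I) (m := 1) one_pos
  have e1 : (∫ s in Ioi (0 : ℝ), cexp (SokalV.Ph (-(ρ * cexp (-(ψ * I)))) (1 + s * I) /
      (-(δ * I)))) * I = cexp (-(ψ ^ 2 / (2 * δ)) * I) * ray (kj ρ δ ψ 0) (1 - ψ * I) I := by
    unfold ray
    rw [← mul_assoc, ← integral_const_mul]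
    congr 2
    funext s
    rw [hkey]
    congr 2
    ring
  have e2 : (∫ s in Iio (-(0 : ℝ)), cexp (SokalV.Ph (-(ρ * cexp (-(ψ * I)))) (-1 + s * I) /
      (-(δ * I)))) * I = -(cexp (-(ψ ^ 2 / (2 * δ)) * I) *
        ray (kj ρ δ ψ 0) (-1 - ψ * I) (-I)) := by
    rw [← integral_Iic_eq_integral_Iio, ← integral_comp_neg_Ioi (0 : ℝ) (fun s : ℝ => cexp (SokalV.Ph (-(ρ * cexp (-(ψ * I))))
      (-1 + s * I) / (-(δ * I))))]
    unfold ray
    rw [← mul_assoc, ← integral_const_mul, mul_neg, neg_neg]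
    congr 2
    funext s
    rw [hkey]
    congr 2
    push_cast
    ring
  rw [e1, e2]
  rw [ofReal_one, one_mul] at hve
  have e3 : (1 : ℂ) + ((0 : ℝ) : ℂ) * I - ψ * I = 1 - ψ * I := by push_cast; ring
  have e4 : (-1 : ℂ) - ((0 : ℝ) : ℂ) * I - ψ * I = -1 - ψ * I := by push_cast; ring
  rw [e3, e4]
  unfold SL SR
  linear_combination cexp (-(ψ ^ 2 / (2 * δ)) * I) * (hup - hve)

end SokalFU
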