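import Pool.Agent.Lib_MP_af4de1_fu.N2I

/-!
# `N = 2`: `Dist α r` for `|α - π| r ≤ 1.4`, `r ≥ 40`
-/

set_option autoImplicit false

namespace SokalFU.N2

open Filter Topology Set Real

/-- the key property for `δ > 0` -/
theorem key {r δ η : ℝ} (hr : 40 ≤ r) (hδ : 0 < δ) (hρ : r * δ ≤ 1.4) (h1 : -(π / 2) ≤ η) (h2 : η ≤ π / 2)
    (h0 : S r δ η = 0) : 0 < J r δ η := by
  rcases le_total η 0 with h | h
  · exact absurd h0 (Z1 hr hδ hρ h1 h).ne'
  · rcases le_total η (π - 1.5 * (r * δ)) with h' | h'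
    · exact ZG hr hδ hρ h h2 h'
    · exact absurd h0 (Z2 hr hδ hρ h' h2).ne

/-! ### Reflection -/

theorem S_neg (r δ η : ℝ) : S r (-δ) (-η) = S r δ η := by
  unfold S
  refine tsum_congr fun m => ?_
  unfold yy
  have h : cos (-η + m * -δ) = cos (η + m * δ) := by
    rw [← cos_neg]; ring_nf
  rw [h]

theorem J_neg (r δ η : ℝ) : J r (-δ) (-η) = -J r δ η := by
  unfold J
  rw [← tsum_neg]
  refine tsum_congr fun m => ?_
  unfold uu
  have h : cos (-η + m * -δ) = cos (η + m * δ) := by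
    rw [← cos_neg]; ring_nf
  have h2 : sin (-η + m * -δ) = -sin (η + m * δ) := by
    rw [← sin_neg]; ring_nf
  rw [h, h2, neg_mul]

theorem S_pi_sub (r δ η : ℝ) : S r δ (π - η) = -S r (-δ) η := by
  have h1 := S_add_pi r δ (-η)
  have h2 := S_neg r (-δ) η
  rw [neg_neg] at h2
  have h3 : -η + π = π - η := by ring
  rw [h3] at h1
  rw [h1, h2]

theorem J_pi_sub (r δ η : ℝ) : J r δ (π - η) = J r (-δ) η := by
  have h1 := J_add_pi r δ (-η)
  have h2 := J_neg r (-δ) η
  rw [neg_neg] at h2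
  have h3 : -η + π = π - η := by ring
  rw [h3] at h1
  rw [h1, h2, neg_neg]

/-! ### `δ = 0` -/

theorem key_zero {r η : ℝ} (hr : 40 ≤ r) (h1 : 0 ≤ η) (h2 : η < π) (h0 : S r 0 η = 0) : 0 < J r 0 η := by
  have hr0 : 0 ≤ r := by linarith
  rcases eq_or_lt_of_le h1 with h | h
  · exfalso
    rw [← h] at h0
    have h3 : 2 * r ≤ S r 0 0 := by
      have := (summable_yy hr0 0 0).le_tsum 0 (fun j _ => yy_nonneg hr0 (by simp))
      have h4 : yy r 0 0 0 = 2 * r := by unfold yy; simp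
      rw [h4] at this
      exact this
    linarith
  · have h3 : 0 < sin η := sin_pos_of_pos_of_lt_pi h h2
    have h4 : J r 0 η = sin η * ∑' m : ℕ, uu r 0 η m := by
      unfold J
      rw [← tsum_mul_left]
      exact tsum_congr fun m => by simp
    have h5 : 1 ≤ ∑' m : ℕ, uu r 0 η m := by
      have := (summable_uu hr0 0 η).le_tsum 0 (fun j _ => uu_nonneg _ _ _ _)
      have h6 : uu r 0 η 0 = 1 := by unfold uu; simp
      rw [h6] at this
      exact this
    rw [h4]
    positivity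

/-- **The case `N = 2`, `ρ ≤ 1.4`.** -/
theorem dist_N2 {α r : ℝ} (hr : 40 ≤ r) (h : |α - π| * r ≤ 1.4) : Dist α r := by
  obtain ⟨δ, rfl⟩ : ∃ δ, α = δ + π := ⟨α - π, by ring⟩
  rw [add_sub_cancel_right] at h
  have hr0 : 0 < r := by linarith
  rcases lt_trichotomy δ 0 with hδ | hδ | hδ
  · rw [abs_of_neg hδ] at h
    apply dist_of (c := π / 2) hr0
    intro η hη h0
    have h1 : J r (-δ) (π - η) = J r δ η := by rw [J_pi_sub, neg_neg]
    have h2 : S r (-δ) (π - η) = 0 := by rw [S_pi_sub, neg_neg, h0, neg_zero]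
    rw [← h1]
    exact key hr (by linarith) (by linarith) (by linarith [hη.2]) (by linarith [hη.1]) h2
  · subst hδ
    apply dist_of (c := 0) hr0
    intro η hη h0
    exact key_zero hr hη.1 (by simpa using hη.2) h0
  · rw [abs_of_pos hδ] at h
    apply dist_of (c := -(π / 2)) hr0
    intro η hη h0
    exact key hr hδ (by linarith) hη.1 (by linarith [hη.2]) h0

end SokalFU.N2
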