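import Pool.Agent.Lib_MP_af4de1_fu.N2O
import Pool.Agent.Lib_MP_af4de1_fu.N2

/-!
# `N = 2`: `Dist α r` for `|α - π| r ≤ 3.2`, `r ≥ 49`
-/

set_option autoImplicit false

namespace SokalFU.N2

open Filter Topology Set Real

/-- zone `-0.72 ρ ≤ η ≤ π - 1.3 ρ`: `J > 0` -/
theorem ZG2 {r δ η : ℝ} (hr : 49 ≤ r) (hδ : 0 < δ) (hρ1 : 1.4 ≤ r * δ) (hρ2 : r * δ ≤ 3.2)
    (h1 : -(0.72 * (r * δ)) ≤ η) (h2 : η ≤ π - 1.3 * (r * δ)) : 0 < J r δ η := by
  have hπ := Real.pi_gt_d6
  have hπ2 := Real.pi_lt_d6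
  have hr0 : 0 < r := by linarith
  have hδ2 : δ ≤ 0.0654 := by
    have : 49 * δ ≤ r * δ := mul_le_mul_of_nonneg_right hr hδ.le
    linarith
  obtain ⟨Λ, rfl⟩ : ∃ Λ, η = π - Λ := ⟨π - η, by ring⟩
  have hΛ1 : 1.3 * (r * δ) ≤ Λ := by linarith
  have hΛ2 : Λ ≤ π + 0.72 * (r * δ) := by linarith
  obtain ⟨m, hm1, hm2⟩ : ∃ m : ℕ, (m : ℝ) * δ ≤ Λ ∧ Λ < (m + 1) * δ := by
    refine ⟨⌊Λ / δ⌋₊, ?_, ?_⟩
    · rw [← le_div_iff₀ hδ]
      exact Nat.floor_le (div_nonneg (by linarith) hδ.le)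
    · rw [← div_lt_iff₀ hδ]
      exact Nat.lt_floor_add_one _
  have hmr : 1.3 * r < m + 1 := by
    have : (1.3 * r) * δ < (m + 1) * δ := by linarith
    exact lt_of_mul_lt_mul_right this hδ.le
  -- the shift
  obtain ⟨s, N, hs1, hs2, hNM, hN1, hN2⟩ : ∃ s N : ℕ, 1 ≤ s ∧ s ≤ 2 ∧ N + s = m + 1 ∧
      0 ≤ 2 * Λ - (N + ((m + 1 : ℕ) : ℝ)) * δ ∧ 2 * Λ - (N + ((m + 1 : ℕ) : ℝ)) * δ ≤ δ := by
    rcases le_total ((2 * m + 1) * δ) (2 * Λ) with h | h
    · refine ⟨1, m, le_rfl, by norm_num, rfl, ?_, ?_⟩ <;> push_cast <;> linarith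
    · obtain ⟨k, rfl⟩ : ∃ k, m = k + 1 := ⟨m - 1, by
        have : (1 : ℝ) ≤ m := by linarith
        have : 1 ≤ m := by exact_mod_cast this
        omega⟩
      push_cast at h hm1 hm2
      refine ⟨2, k, by norm_num, le_rfl, by ring, ?_, ?_⟩ <;> push_cast <;> linarith
  have hNr : (N : ℝ) + s = m + 1 := by exact_mod_cast hNM
  have hsr : (s : ℝ) ≤ 2 := by exact_mod_cast hs2
  have hsr1 : (1 : ℝ) ≤ s := by exact_mod_cast hs1
  have hNδ : (N : ℝ) * δ + s * δ = m * δ + δ := by rw [← add_mul, hNr]; ring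
  have hN1' : 0 ≤ 2 * Λ - (N * δ + (m * δ + δ)) := by push_cast at hN1; linarith
  have hN2' : 2 * Λ - (N * δ + (m * δ + δ)) ≤ δ := by push_cast at hN2; linarith
  -- the number of pairs
  obtain ⟨K, hK1, hK2⟩ : ∃ K : ℕ, (K : ℝ) * δ ≤ 0.5 ∧ 0.5 < (K + 1) * δ := by
    refine ⟨⌊0.5 / δ⌋₊, ?_, ?_⟩
    · rw [← le_div_iff₀ hδ]
      exact Nat.floor_le (div_nonneg (by norm_num) hδ.le)
    · rw [← div_lt_iff₀ hδ]
      exact Nat.lt_floor_add_one _
  have hK0 : 1 ≤ K := by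
    by_contra h
    have : K = 0 := by omega
    rw [this] at hK2
    push_cast at hK2
    linarith
  have hKr : (K : ℝ) ≤ 0.36 * r := by
    have a1 : 1.4 * K ≤ (r * δ) * K := by gcongr
    have a2 : r * (K * δ) ≤ r * 0.5 := by gcongr
    linarith
  have hKN : K + 1 ≤ N := by
    have : (K : ℝ) + 1 ≤ N := by linarith
    exact_mod_cast this
  set f : ℕ → ℝ := fun i => sin (π - Λ + i * δ) * uu r δ (π - Λ) i with hf
  -- pairs
  have hpair : ∀ j ∈ Finset.range K, |f (m + 1 + j)| ≤ exp (-0.05) * f (N - j) := by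
    intro j hj
    have hj1 : j + 1 ≤ K := by have := Finset.mem_range.1 hj; omega
    have hj2 : ((j : ℝ) + 1) * δ ≤ 0.5 := by
      have : (j : ℝ) + 1 ≤ K := by exact_mod_cast hj1
      exact (mul_le_mul_of_nonneg_right this hδ.le).trans hK1
    have hjδ : 0 ≤ (j : ℝ) * δ := by positivity
    have hjN : j + 1 ≤ N := by omega
    have e1 : ((N - j : ℕ) : ℝ) = N - j := by rw [Nat.cast_sub (by omega)]
    have h := pairB (r := r) (δ := δ) (Λ := Λ) (N := N - j) (k := s + 2 * j) hr hδ hρ1 hρ2 hΛ1 hΛ2 (by omega) (by omega)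
      (by rw [e1]; push_cast; linarith)
      (by rw [e1]; push_cast; linarith)
      (by rw [e1]; push_cast; linarith)
      (by rw [e1]; push_cast; linarith)
    have e2 : N - j + (s + 2 * j) = m + 1 + j := by omega
    rw [e2] at h
    exact h
  -- far terms
  have hfar : ∀ j : ℕ, |f (m + 1 + (K + j))| ≤ V r (m + 1) * exp (-(0.24 * r)) * exp (-(0.12 * j)) := by
    intro j
    have hKj : 0.4346 ≤ ((K + j : ℕ) : ℝ) * δ := by
      push_cast
      have hjδ : 0 ≤ (j : ℝ) * δ := by positivity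
      linarith
    have h := farB (r := r) (δ := δ) (Λ := Λ) (M := m + 1) (j := K + j) hr hδ hρ2 hΛ1
      (by push_cast; linarith) (by push_cast; linarith) hKj
    refine h.trans ?_
    have hV := V_pos hr0 (m + 1)
    apply mul_le_mul_of_nonneg_left _ (by positivity)
    apply exp_le_exp.2
    push_cast
    have : (0 : ℝ) ≤ K := by positivity
    linarith
  have hpart := partner (r := r) (δ := δ) (Λ := Λ) (s := s) (N := N) (M := m + 1) hr hδ hρ1 hρ2 hΛ1 hΛ2 hs1 hs2 hNM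
    (by push_cast; linarith) (by push_cast; linarith) hN1 hN2
  -- positivity of the partners
  have hpos : ∀ i : ℕ, 0 ≤ π - Λ + i * δ → i < m + 1 → 0 ≤ f i := by
    intro i hi0 hi
    have hi' : (i : ℝ) ≤ m := by
      have : i ≤ m := by omega
      exact_mod_cast this
    apply mul_nonneg _ (uu_nonneg _ _ _ _)
    apply sin_nonneg_of_nonneg_of_le_pi hi0
    have := mul_le_mul_of_nonneg_right hi' hδ.le
    linarith
  have hfN : ∀ j ∈ Finset.range K, 0 ≤ f (N - j) := by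
    intro j hj
    have hj1 : j + 1 ≤ K := by have := Finset.mem_range.1 hj; omega
    have hj2 : ((j : ℝ) + 1) * δ ≤ 0.5 := by
      have : (j : ℝ) + 1 ≤ K := by exact_mod_cast hj1
      exact (mul_le_mul_of_nonneg_right this hδ.le).trans hK1
    apply hpos _ _ (by omega)
    rw [Nat.cast_sub (by omega)]
    have : (N : ℝ) * δ = (m + 1) * δ - s * δ := by rw [← hNr]; ring
    have h3 : s * δ ≤ 2 * δ := by gcongr
    linarith
  -- the head
  have hhead : ∑ j ∈ Finset.range K, f (N - j) ≤ ∑ i ∈ Finset.range (m + 1), f i := by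
    rcases le_total 0 (π - Λ) with h | h
    · apply sum_ge f (P := 0) (by simp) (by omega) _ (by omega) (by omega)
      intro i _ hi
      apply hpos i _ hi
      positivity
    · obtain ⟨p, hp1, hp2⟩ : ∃ p : ℕ, (p : ℝ) * δ ≤ -(π - Λ) ∧ -(π - Λ) < (p + 1) * δ := by
        refine ⟨⌊-(π - Λ) / δ⌋₊, ?_, ?_⟩
        · rw [← le_div_iff₀ hδ]
          exact Nat.floor_le (div_nonneg (by linarith) hδ.le)
        · rw [← div_lt_iff₀ hδ]
          exact Nat.lt_floor_add_one _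
      have hPK : p + 4 + K ≤ N + 1 := by
        have : ((p + 4 + K : ℕ) : ℝ) * δ < ((N + 1 : ℕ) : ℝ) * δ := by
          push_cast
          have a1 : (N : ℝ) * δ = (m + 1) * δ - s * δ := by rw [← hNr]; ring
          have a2 : s * δ ≤ 2 * δ := by gcongr
          linarith
        have := lt_of_mul_lt_mul_right this hδ.le
        have : p + 4 + K < N + 1 := by exact_mod_cast this
        omega
      apply sum_ge f (P := p + 4) (Ablock hr hδ hρ2 h1 hp1 hp2) (by omega) _ (by omega) hPK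
      intro i hi1 hi2
      apply hpos i _ hi2
      have : (p : ℝ) + 4 ≤ i := by exact_mod_cast hi1
      have := mul_le_mul_of_nonneg_right this hδ.le
      linarith
  -- assembly
  have hsm := summable_J hr0.le δ (π - Λ)
  have hJ : J r δ (π - Λ) = ∑' i : ℕ, f i := rfl
  have hsm1 : Summable fun j : ℕ => f (j + (m + 1)) := (summable_nat_add_iff (m + 1)).2 hsm
  have e1 := hsm.sum_add_tsum_nat_add (m + 1)
  have e2 := hsm1.sum_add_tsum_nat_add K
  have htail : ‖∑' j : ℕ, f (j + K + (m + 1))‖ ≤ V r (m + 1) * exp (-(0.24 * r)) * ((1 + 0.12) / 0.12) := by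
    have hg := (summable_geo (a := 0.12) (by norm_num)).hasSum.mul_left (V r (m + 1) * exp (-(0.24 * r)))
    refine (tsum_of_norm_bounded hg (fun j => ?_)).trans ?_
    · rw [show j + K + (m + 1) = m + 1 + (K + j) by ring]
      exact hfar j
    · have hV := V_pos hr0 (m + 1)
      exact mul_le_mul_of_nonneg_left (tsum_geo_le (by norm_num)) (by positivity)
  have h5 := (abs_le.1 (Real.norm_eq_abs _ ▸ htail)).1
  have h6 : -(exp (-0.05) * ∑ j ∈ Finset.range K, f (N - j)) ≤ ∑ j ∈ Finset.range K, f (j + (m + 1)) := by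
    rw [Finset.mul_sum, ← Finset.sum_neg_distrib]
    apply Finset.sum_le_sum
    intro j hj
    have := hpair j hj
    rw [show j + (m + 1) = m + 1 + j by ring]
    have := neg_abs_le (f (m + 1 + j))
    linarith
  have h7 : f N ≤ ∑ j ∈ Finset.range K, f (N - j) := by
    have := Finset.single_le_sum (f := fun j => f (N - j)) (fun j hj => hfN j hj) (Finset.mem_range.2 (by omega : 0 < K))
    simpa using this
  have h8 : (1 - exp (-0.05)) * f N ≤ (1 - exp (-0.05)) * ∑ j ∈ Finset.range K, f (N - j) := by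
    apply mul_le_mul_of_nonneg_left h7
    have : exp (-0.05) ≤ 1 := by rw [exp_le_one_iff]; norm_num
    linarith
  have h9 : V r (m + 1) * exp (-(0.24 * r)) * ((1 + 0.12) / 0.12) < (1 - exp (-0.05)) * f N := hpart
  rw [hJ]
  change (∑ i ∈ Finset.range (m + 1), f i) + ∑' j : ℕ, f (j + (m + 1)) = ∑' i, f i at e1
  rw [← e1, ← e2]
  linarith

/-- **The case `N = 2`, `ρ ≤ 3.2`, `r ≥ 49`.** -/
theorem dist_N2' {α r : ℝ} (hr : 49 ≤ r) (h : |α - π| * r ≤ 3.2) : Dist α r := by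
  rcases le_total (|α - π| * r) 1.4 with h' | h'
  · exact dist_N2 (by linarith) h'
  obtain ⟨δ, rfl⟩ : ∃ δ, α = δ + π := ⟨α - π, by ring⟩
  rw [add_sub_cancel_right] at h h'
  have hr0 : 0 < r := by linarith
  have key2 : ∀ {δ η : ℝ}, 0 < δ → 1.4 ≤ r * δ → r * δ ≤ 3.2 → -(1.3 * (r * δ)) ≤ η → η ≤ π - 1.3 * (r * δ) →
      S r δ η = 0 → 0 < J r δ η := by
    intro δ η hδ a1 a2 a3 a4 a5
    rcases le_total η (-(0.72 * (r * δ))) with h6 | h6
    · exact absurd a5 (ZP hr hδ a2 a3 h6).ne'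
    · exact ZG2 hr hδ a1 a2 h6 a4
  rcases lt_trichotomy δ 0 with hδ | hδ | hδ
  · rw [abs_of_neg hδ] at h h'
    apply dist_of (c := 1.3 * (r * -δ)) hr0
    intro η hη h0
    have h1 : J r (-δ) (π - η) = J r δ η := by rw [J_pi_sub, neg_neg]
    have h2 : S r (-δ) (π - η) = 0 := by rw [S_pi_sub, neg_neg, h0, neg_zero]
    rw [← h1]
    exact key2 (by linarith) (by linarith) (by linarith) (by linarith [hη.2]) (by linarith [hη.1]) h2
  · subst hδ
    norm_num at h'
  · rw [abs_of_pos hδ] at h h'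
    apply dist_of (c := -(1.3 * (r * δ))) hr0
    intro η hη h0
    exact key2 hδ (by linarith) (by linarith) hη.1 (by linarith [hη.2]) h0

end SokalFU.N2
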