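import Pool.Agent.Lib_MP_af4de1_fu.OrdN

/-!
# Assembly of the lists of packed pieces
-/

set_option autoImplicit false

namespace SokalFU

open Set SokalF

/-- lower end and upper end of a chain -/
def endsOK (lo hi : ℤ) : List ℕ → Bool
  | [] => false
  | x :: t => decide (lastLo (Pc.dec x) (t.map Pc.dec) = lo) && decide (hi ≤ (Pc.dec x).hi)

/-- the last tube: `|z| > R0`, and the bound `U` at `π` -/
def lastOK (R0 U hi' : ℤ) : List ℕ → Bool
  | [] => false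
  | x :: t => topOK R0 ((x :: t).map Pc.dec) && pairOK (Pc.dec x) (cst U (Pc.dec x)) && decide ((Pc.dec x).lo ≤ hi')

/-- The checks of the packed lists; `rv hi' ≤ π ≤ rv hi`. -/
structure ListsOK (R0 U lo hi hi' : ℤ) (n fuel : ℕ) (L : ℕ → List ℕ) : Prop where
  hn : 0 < n
  hR : 0 < R0
  hU : 0 < U
  hU2 : rv U ≤ (2 * n + 1) * (157 / 200)
  hhi : Real.pi ≤ rv hi
  hhi' : rv hi' ≤ Real.pi
  hT : ∀ k < n, ∀ x ∈ L k, (Pc.dec x).T
  hC : ∀ k < n, chainOK ((L k).map Pc.dec) = true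
  hE : ∀ k < n, endsOK lo hi (L k) = true
  hord : ∀ k, k + 1 < n → ordN fuel (L k) (L (k + 1)) = true
  htop : lastOK R0 U hi' (L (n - 1)) = true

/-- the system of branches -/
theorem ListsOK.sys {R0 U lo hi hi' : ℤ} {n fuel : ℕ} {L : ℕ → List ℕ} (S : ListsOK R0 U lo hi hi' n fuel L) :
    ∃ ZZ : ℕ → ℝ → ℂ, Sys (rv R0) (Icc (rv lo) Real.pi) n ZZ ∧ Real.pi ∈ Icc (rv lo) Real.pi ∧ Compl n ZZ Real.pi ∧
      ∀ k < n, ∀ x ∈ L k, ∀ α ∈ Icc (rv (Pc.dec x).lo) (rv (Pc.dec x).hi), ZZ k α = (Pc.dec x).z α := by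
  obtain ⟨hn, hR, hU, hU2, hhi, hhi', hT, hC, hE, hord, htop⟩ := S
  have hne : ∀ k < n, ∃ x t, L k = x :: t := fun k hk => by
    have := hE k hk
    cases h : L k with
    | nil => rw [h] at this; simp [endsOK] at this
    | cons x t => exact ⟨x, t, rfl⟩
  choose x t hxt using hne
  set P : ℕ → Pc := fun k => if hk : k < n then Pc.dec (x k hk) else ⟨0, 0, 0, 0, 0, 0, 0, 0⟩ with hP
  set T : ℕ → List Pc := fun k => if hk : k < n then (t k hk).map Pc.dec else [] with hTd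
  have hPT : ∀ k < n, (L k).map Pc.dec = P k :: T k := fun k hk => by
    rw [hxt k hk, hP, hTd]
    simp only [hk, dif_pos, List.map_cons]
  have hPk : ∀ k (hk : k < n), P k = Pc.dec (x k hk) := fun k hk => by
    rw [hP]
    simp only [hk, dif_pos]
  have hTk : ∀ k (hk : k < n), T k = (t k hk).map Pc.dec := fun k hk => by
    rw [hTd]
    simp only [hk, dif_pos]
  have hlast : topOK R0 (P (n - 1) :: T (n - 1)) = true ∧ pairOK (P (n - 1)) (cst U (P (n - 1))) = true ∧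
      (P (n - 1)).lo ≤ hi' := by
    have hk : n - 1 < n := by omega
    rw [hxt (n - 1) hk] at htop
    unfold lastOK at htop
    simp only [Bool.and_eq_true, decide_eq_true_eq] at htop
    rw [← hPT _ hk, hxt _ hk, hPk _ hk]
    exact ⟨htop.1.1, htop.1.2, htop.2⟩
  obtain ⟨ZZ, h1, h2, h3, h4⟩ := sys_of_lists R0 U lo n fuel P T hn hR hU hU2
    (fun k hk p hp => by
      rw [← hPT k hk, List.mem_map] at hp
      obtain ⟨y, hy, rfl⟩ := hp
      exact hT k hk y hy)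
    (fun k hk => by
      rw [← hPT k hk]
      exact hC k hk)
    (fun k hk => by
      have := hE k hk
      rw [hxt k hk] at this
      simp only [endsOK, Bool.and_eq_true, decide_eq_true_eq] at this
      rw [hPk k hk, hTk k hk]
      exact this.1)
    (fun k hk => by
      have := hE k hk
      rw [hxt k hk] at this
      simp only [endsOK, Bool.and_eq_true, decide_eq_true_eq] at this
      rw [hPk k hk]
      exact hhi.trans (rv_le.2 this.2))
    (fun k hk => by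
      rw [← hPT k (by omega), ← hPT (k + 1) hk]
      exact ordN_spec fuel _ _ (hord k hk))
    hlast.1 hlast.2.1 ((rv_le.2 hlast.2.2).trans hhi')
  refine ⟨ZZ, h1, h2, h3, fun k hk y hy α hα => h4 k hk _ ?_ α hα⟩
  rw [← hPT k hk]
  exact List.mem_map_of_mem hy

/-- **F3** from packed lists. -/
theorem dist_of_nats {R0 U lo hi hi' : ℤ} {n fuel : ℕ} {L : ℕ → List ℕ} (S : ListsOK R0 U lo hi hi' n fuel L)
    (H : ∀ α ∈ Icc (rv lo) Real.pi, ∀ r, rv R0 ≤ r → Dist α r) :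
    ∀ α ∈ Icc (rv lo) Real.pi, ∀ r, r ≤ rv R0 → Dist α r := by
  obtain ⟨ZZ, h1, h2, h3, -⟩ := S.sys
  intro α hα r hr
  exact h1.dist H hα (h1.continue isPreconnected_Icc H h2 h3 hα) hr

/-- Location of all zeros of modulus less than `R0`: they lie in the pieces of the first `n - 1` tubes. -/
theorem zeros_of_nats {R0 U lo hi hi' : ℤ} {n fuel : ℕ} {L : ℕ → List ℕ} (S : ListsOK R0 U lo hi hi' n fuel L)
    (H : ∀ α ∈ Icc (rv lo) Real.pi, ∀ r, rv R0 ≤ r → Dist α r) {α : ℝ} (hα : α ∈ Icc (rv lo) Real.pi) {w : ℂ}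
    (hw : F (qa α) w = 0) (hR : ‖w‖ < rv R0) : ∃ k < n - 1, ∀ x ∈ L k, α ∈ Icc (rv (Pc.dec x).lo) (rv (Pc.dec x).hi) →
      ∃ h : ℂ, ‖h‖ ≤ rv (Pc.dec x).e' ∧ w = tp (Pc.dec x).c (Pc.dec x).lam (α - rv (Pc.dec x).a) h := by
  obtain ⟨ZZ, h1, h2, h3, h4⟩ := S.sys
  have hc := h1.continue isPreconnected_Icc H h2 h3 hα
  obtain ⟨k, hk, hwk⟩ := hc w hw (hR.trans_le (h1.top α hα))
  refine ⟨k, hk, fun x hx hxα => ?_⟩
  obtain ⟨h, e1, -, e3⟩ := IsTube.spec (S.hT k (by omega) x hx) (Pc.abs_le hxα)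
  refine ⟨h, e1, ?_⟩
  rw [hwk, h4 k (by omega) x hx α hxα]
  exact e3

/-- The zeros of modulus less than `R0` are given by branches ordered by modulus. -/
theorem sys_of_nats {R0 U lo hi hi' : ℤ} {n fuel : ℕ} {L : ℕ → List ℕ} (S : ListsOK R0 U lo hi hi' n fuel L)
    (H : ∀ α ∈ Icc (rv lo) Real.pi, ∀ r, rv R0 ≤ r → Dist α r) :
    ∃ ZZ : ℕ → ℝ → ℂ, Sys (rv R0) (Icc (rv lo) Real.pi) n ZZ ∧ (∀ α ∈ Icc (rv lo) Real.pi, Compl n ZZ α) ∧
      ∀ k < n, ∀ x ∈ L k, ∀ α ∈ Icc (rv (Pc.dec x).lo) (rv (Pc.dec x).hi), ZZ k α = (Pc.dec x).z α := by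
  obtain ⟨ZZ, h1, h2, h3, h4⟩ := S.sys
  exact ⟨ZZ, h1, fun α hα => h1.continue isPreconnected_Icc H h2 h3 hα, h4⟩

end SokalFU
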