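import Pool.Agent.Lib_MP_af4de1_fu.Cont3

/-!
# The starting point `α = π`: `F(z;-1) = cos z + sin z`
-/

set_option autoImplicit false

namespace SokalFU

open Filter Topology Set SokalF

theorem qa_pi : qa Real.pi = -1 := by
  unfold qa
  exact Complex.exp_pi_mul_I

theorem neg_one_pow_even (m : ℕ) : (-1 : ℂ) ^ (2 * m * (2 * m - 1) / 2) = (-1) ^ m := by
  have h : 2 * m * (2 * m - 1) / 2 = m * (2 * m - 1) := by
    rw [mul_assoc, Nat.mul_div_cancel_left _ (by norm_num)]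
  rw [h]
  rcases Nat.eq_zero_or_pos m with h0 | h0
  · subst h0; simp
  · have h2 : 2 * m - 1 = 2 * (m - 1) + 1 := by omega
    rw [pow_mul, h2, pow_succ, pow_mul]
    rcases Nat.even_or_odd m with h1 | h1
    · rw [h1.neg_one_pow]; simp
    · rw [h1.neg_one_pow]; simp

theorem neg_one_pow_odd (m : ℕ) : (-1 : ℂ) ^ ((2 * m + 1) * (2 * m + 1 - 1) / 2) = (-1) ^ m := by
  have h : (2 * m + 1) * (2 * m + 1 - 1) / 2 = m * (2 * m + 1) := by
    rw [Nat.add_sub_cancel]
    have : (2 * m + 1) * (2 * m) = 2 * (m * (2 * m + 1)) := by ring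
    rw [this, Nat.mul_div_cancel_left _ (by norm_num)]
  rw [h, pow_mul, pow_succ, pow_mul]
  rcases Nat.even_or_odd m with h1 | h1
  · rw [h1.neg_one_pow]; simp
  · rw [h1.neg_one_pow]; simp

/-- `F(z;-1) = cos z + sin z` -/
theorem F_neg_one (z : ℂ) : F (-1) z = Complex.cos z + Complex.sin z := by
  unfold F
  have h1 : HasSum (fun k : ℕ => (-1 : ℂ) ^ (2 * k * (2 * k - 1) / 2) * z ^ (2 * k) / ((Nat.factorial (2 * k) : ℕ) : ℂ))
      (Complex.cos z) := by
    have := Complex.hasSum_cos z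
    simp only [neg_one_pow_even]
    exact this
  have h2 : HasSum (fun k : ℕ => (-1 : ℂ) ^ ((2 * k + 1) * (2 * k + 1 - 1) / 2) * z ^ (2 * k + 1) /
      ((Nat.factorial (2 * k + 1) : ℕ) : ℂ)) (Complex.sin z) := by
    have := Complex.hasSum_sin z
    simp only [neg_one_pow_odd]
    exact this
  exact (HasSum.even_add_odd (f := fun k : ℕ => (-1 : ℂ) ^ (k * (k - 1) / 2) * z ^ k / (Nat.factorial k : ℂ)) h1 h2).tsum_eq

/-- the `j`-th zero at `α = π` -/
noncomputable def zpi (j : ℕ) : ℂ := (-1) ^ (j + 1) * (((2 * j + 1) * Real.pi / 4 : ℝ) : ℂ)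

theorem norm_zpi (j : ℕ) : ‖zpi j‖ = (2 * j + 1) * Real.pi / 4 := by
  unfold zpi
  rw [norm_mul, norm_pow, norm_neg, norm_one, one_pow, one_mul, Complex.norm_real, Real.norm_eq_abs, abs_of_nonneg]
  have := Real.pi_pos
  positivity

theorem eq_zpi {w : ℂ} (hw : F (qa Real.pi) w = 0) : ∃ j : ℕ, w = zpi j := by
  rw [qa_pi, F_neg_one] at hw
  have h1 : Complex.sin (w + (Real.pi / 4 : ℝ)) = 0 := by
    rw [Complex.sin_add]
    have e1 : Complex.cos ((Real.pi / 4 : ℝ) : ℂ) = ((√2 / 2 : ℝ) : ℂ) := by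
      rw [← Complex.ofReal_cos, Real.cos_pi_div_four]
    have e2 : Complex.sin ((Real.pi / 4 : ℝ) : ℂ) = ((√2 / 2 : ℝ) : ℂ) := by
      rw [← Complex.ofReal_sin, Real.sin_pi_div_four]
    rw [e1, e2, ← add_mul, add_comm (Complex.sin w), hw, zero_mul]
  rw [Complex.sin_eq_zero_iff] at h1
  obtain ⟨m, hm⟩ := h1
  have hw2 : w = (((m : ℝ) * Real.pi - Real.pi / 4 : ℝ) : ℂ) := by
    have : w = m * Real.pi - ((Real.pi / 4 : ℝ) : ℂ) := by rw [← hm]; ring
    rw [this]
    push_cast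
    ring
  rcases le_or_gt m 0 with h0 | h0
  · obtain ⟨n, hn⟩ := Int.eq_ofNat_of_zero_le (show 0 ≤ -m by omega)
    refine ⟨2 * n, ?_⟩
    have hmn : (m : ℝ) = -(n : ℝ) := by
      have : m = -(n : ℤ) := by omega
      rw [this]; simp
    unfold zpi
    rw [hw2, hmn, pow_succ, pow_mul]
    simp only [even_two, Even.neg_pow, one_pow, one_mul]
    push_cast
    ring
  · obtain ⟨n, hn⟩ := Int.eq_ofNat_of_zero_le (show 0 ≤ m - 1 by omega)
    refine ⟨2 * n + 1, ?_⟩
    have hmn : (m : ℝ) = (n : ℝ) + 1 := by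
      have : m = (n : ℤ) + 1 := by omega
      rw [this]; simp
    unfold zpi
    have e : (-1 : ℂ) ^ (2 * n + 1 + 1) = 1 := by
      have : 2 * n + 1 + 1 = 2 * (n + 1) := by ring
      rw [this, pow_mul]
      simp
    rw [hw2, hmn, e]
    push_cast
    ring

/-- the first `n` zeros at `α = π` -/
theorem eq_zpi_of_lt {n : ℕ} (hn : 0 < n) {Z : ℕ → ℝ → ℂ} (h0 : ∀ k < n, F (qa Real.pi) (Z k Real.pi) = 0)
    (hlt : ∀ k, k + 1 < n → ‖Z k Real.pi‖ < ‖Z (k + 1) Real.pi‖)
    (hup : ‖Z (n - 1) Real.pi‖ < (2 * n + 1) * Real.pi / 4) : ∀ k < n, Z k Real.pi = zpi k := by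
  have hpi := Real.pi_pos
  choose! j hj using fun (w : ℂ) (hw : F (qa Real.pi) w = 0) => eq_zpi hw
  have hjk : ∀ k < n, Z k Real.pi = zpi (j (Z k Real.pi)) := fun k hk => hj _ (h0 k hk)
  have hnorm : ∀ k < n, ‖Z k Real.pi‖ = (2 * (j (Z k Real.pi) : ℝ) + 1) * Real.pi / 4 := fun k hk => by
    rw [hjk k hk, norm_zpi, ← hjk k hk]
  set J : ℕ → ℕ := fun k => j (Z k Real.pi) with hJ
  have hmono : ∀ k, k + 1 < n → J k < J (k + 1) := fun k hk => by
    have h1 := hlt k hk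
    rw [hnorm k (by omega), hnorm (k + 1) hk] at h1
    have h2 : (J k : ℝ) < J (k + 1) := by
      by_contra hcon
      push Not at hcon
      have : (2 * (J (k + 1) : ℝ) + 1) * Real.pi / 4 ≤ (2 * (J k : ℝ) + 1) * Real.pi / 4 := by gcongr
      exact absurd h1 (not_lt.2 this)
    exact_mod_cast h2
  have hlast : J (n - 1) < n := by
    have h1 := hup
    rw [hnorm (n - 1) (by omega)] at h1
    have h2 : (J (n - 1) : ℝ) < n := by
      by_contra hcon
      push Not at hcon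
      have : (2 * (n : ℝ) + 1) * Real.pi / 4 ≤ (2 * (J (n - 1) : ℝ) + 1) * Real.pi / 4 := by gcongr
      exact absurd h1 (not_lt.2 this)
    exact_mod_cast h2
  have hge : ∀ k < n, k ≤ J k := by
    intro k
    induction k with
    | zero => intro _; exact Nat.zero_le _
    | succ k ih =>
      intro hk
      have := ih (by omega)
      have := hmono k hk
      omega
  have hle : ∀ m < n, J (n - 1 - m) ≤ n - 1 - m := by
    intro m
    induction m with
    | zero => intro _; simpa using Nat.le_sub_one_of_lt hlast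
    | succ m ih =>
      intro hm
      have h1 := ih (by omega)
      have h2 := hmono (n - 1 - (m + 1)) (by omega)
      have e : n - 1 - (m + 1) + 1 = n - 1 - m := by omega
      rw [e] at h2
      omega
  intro k hk
  have h1 := hge k hk
  have h2 := hle (n - 1 - k) (by omega)
  have e : n - 1 - (n - 1 - k) = k := by omega
  rw [e] at h2
  have h3 : J k = k := le_antisymm h2 h1
  have h4 := hjk k hk
  change Z k Real.pi = zpi (J k) at h4
  rw [h4, h3]

/-- **Completeness at `α = π`.** -/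
theorem compl_pi {n : ℕ} (hn : 0 < n) (Z : ℕ → ℝ → ℂ) (h0 : ∀ k < n, F (qa Real.pi) (Z k Real.pi) = 0)
    (hlt : ∀ k, k + 1 < n → ‖Z k Real.pi‖ < ‖Z (k + 1) Real.pi‖)
    (hup : ‖Z (n - 1) Real.pi‖ < (2 * n + 1) * Real.pi / 4) : Compl n Z Real.pi := by
  have hz := eq_zpi_of_lt hn h0 hlt hup
  have hpi := Real.pi_pos
  intro w hw hlt2
  obtain ⟨j, hj⟩ := eq_zpi hw
  rw [hz (n - 1) (by omega), hj, norm_zpi, norm_zpi] at hlt2
  have h2 : (j : ℝ) < ((n - 1 : ℕ) : ℝ) := by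
    by_contra hcon
    push Not at hcon
    have : (2 * ((n - 1 : ℕ) : ℝ) + 1) * Real.pi / 4 ≤ (2 * (j : ℝ) + 1) * Real.pi / 4 := by gcongr
    exact absurd hlt2 (not_lt.2 this)
  have h3 : j < n - 1 := by exact_mod_cast h2
  exact ⟨j, h3, by rw [hz j (by omega), hj]⟩

end SokalFU
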