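import Pool.Agent.Lib_MP_af4de1_fu.Cont4
import Pool.Agent.Lib_MP_af4de1_fu.Start

/-!
# Chains of tubes with integer data

A piece `Pc` is a tube with integer data (scale `2^40`).  `chainOK`: consecutive pieces touch and the junction
condition holds.  `ordOK`: the moduli of the zeros of one chain are smaller than those of the next chain.
-/

set_option autoImplicit false

namespace SokalFU

open Set SokalF Finset

/-- a tube with integer data, all numbers to be divided by `2^40` -/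
structure Pc where
  /-- centre -/
  a : ℤ
  /-- half width -/
  d : ℤ
  /-- real part of `c` -/
  cx : ℤ
  /-- imaginary part of `c` -/
  cy : ℤ
  /-- real part of `lam` -/
  lx : ℤ
  /-- imaginary part of `lam` -/
  ly : ℤ
  /-- small radius -/
  e' : ℤ
  /-- big radius -/
  e : ℤ

/-- the real number `x / 2^40` -/
noncomputable def rv (x : ℤ) : ℝ := (x : ℝ) / 2 ^ 40

/-- the complex number `(x + i y) / 2^40` -/
noncomputable def cv (x y : ℤ) : ℂ := ⟨rv x, rv y⟩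

theorem rv_add (x y : ℤ) : rv (x + y) = rv x + rv y := by
  unfold rv; push_cast; ring

theorem rv_sub (x y : ℤ) : rv (x - y) = rv x - rv y := by
  unfold rv; push_cast; ring

theorem rv_le {x y : ℤ} : rv x ≤ rv y ↔ x ≤ y := by
  unfold rv
  rw [div_le_div_iff_of_pos_right (by positivity)]
  exact Int.cast_le

theorem rv_lt {x y : ℤ} : rv x < rv y ↔ x < y := by
  unfold rv
  rw [div_lt_div_iff_of_pos_right (by positivity)]
  exact Int.cast_lt

theorem rv_nonneg {x : ℤ} : 0 ≤ rv x ↔ 0 ≤ x := by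
  have := @rv_le 0 x
  rwa [show rv 0 = 0 by simp [rv]] at this

theorem cv_normSq (x y : ℤ) : ‖cv x y‖ ^ 2 = ((x ^ 2 + y ^ 2 : ℤ) : ℝ) / (2 ^ 40) ^ 2 := by
  rw [← Complex.normSq_eq_norm_sq]
  simp only [cv, Complex.normSq_mk, rv]
  push_cast
  ring

theorem cv_eq (x y : ℤ) : cv x y = ((x : ℂ) + (y : ℂ) * Complex.I) / 2 ^ 40 := by
  apply Complex.ext
  · simp [cv, rv]
    rw [show ((2 : ℂ) ^ 40) = ((2 ^ 40 : ℝ) : ℂ) by push_cast; rfl, Complex.div_ofReal_re]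
    simp
  · simp [cv, rv]
    rw [show ((2 : ℂ) ^ 40) = ((2 ^ 40 : ℝ) : ℂ) by push_cast; rfl, Complex.div_ofReal_im]
    simp

namespace Pc

/-- `c` -/
noncomputable def c (p : Pc) : ℂ := cv p.cx p.cy

/-- `lam` -/
noncomputable def lam (p : Pc) : ℂ := cv p.lx p.ly

/-- lower end -/
def lo (p : Pc) : ℤ := p.a - p.d

/-- upper end -/
def hi (p : Pc) : ℤ := p.a + p.d

/-- the piece is a tube -/
def T (p : Pc) : Prop := IsTube (rv p.a) (rv p.d) p.c p.lam (rv p.e') (rv p.e)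

/-- the zero in the piece -/
noncomputable def z (p : Pc) (α : ℝ) : ℂ := zf (rv p.a) p.c p.lam (rv p.e') α

theorem abs_le {p : Pc} {α : ℝ} (h : α ∈ Icc (rv p.lo) (rv p.hi)) : |α - rv p.a| ≤ rv p.d := by
  rw [_root_.abs_le]
  have h1 := h.1
  have h2 := h.2
  rw [lo, rv_sub] at h1
  rw [hi, rv_add] at h2
  constructor <;> linarith

end Pc

/-! ### The junction -/

/-- Horner scheme for `∑ v^m / m!` with Gaussian integers: `(x, y, D)` means `(x + i y) / D` -/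
def hor (vx vy : ℤ) : List ℤ → ℤ × ℤ × ℤ
  | [] => (1, 0, 1)
  | j :: l =>
    let r := hor vx vy l
    let D := r.2.2 * (j * 2 ^ 40)
    (D + (vx * r.1 - vy * r.2.1), vx * r.2.1 + vy * r.1, D)

/-- the complex value of a triple -/
noncomputable def tv (r : ℤ × ℤ × ℤ) : ℂ := ((r.1 : ℂ) + (r.2.1 : ℂ) * Complex.I) / (r.2.2 : ℂ)

theorem hor_cons (vx vy j : ℤ) (l : List ℤ) (hj : j ≠ 0) (hD : (hor vx vy l).2.2 ≠ 0) :
    (hor vx vy (j :: l)).2.2 ≠ 0 ∧ tv (hor vx vy (j :: l)) = 1 + cv vx vy / (j : ℂ) * tv (hor vx vy l) := by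
  have h1 : (hor vx vy (j :: l)).2.2 = (hor vx vy l).2.2 * (j * 2 ^ 40) := rfl
  refine ⟨?_, ?_⟩
  · rw [h1]
    exact mul_ne_zero hD (mul_ne_zero hj (by norm_num))
  · set r := hor vx vy l with hr
    have h2 : hor vx vy (j :: l) = (r.2.2 * (j * 2 ^ 40) + (vx * r.1 - vy * r.2.1), vx * r.2.1 + vy * r.1,
        r.2.2 * (j * 2 ^ 40)) := rfl
    rw [h2, tv, tv, cv_eq]
    have hD' : (r.2.2 : ℂ) ≠ 0 := by exact_mod_cast hD
    have hj' : (j : ℂ) ≠ 0 := by exact_mod_cast hj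
    push_cast
    field_simp
    ring_nf
    rw [Complex.I_sq]
    ring

/-- The Taylor polynomial of degree 9. -/
theorem hor_spec (vx vy : ℤ) :
    (hor vx vy [1, 2, 3, 4, 5, 6, 7, 8, 9]).2.2 = 362880 * (2 ^ 40) ^ 9 ∧
    tv (hor vx vy [1, 2, 3, 4, 5, 6, 7, 8, 9]) = ∑ m ∈ range 10, cv vx vy ^ m / (m.factorial : ℂ) := by
  have h0 : (hor vx vy []).2.2 ≠ 0 := by simp [hor]
  have e0 : tv (hor vx vy []) = 1 := by simp [hor, tv]
  obtain ⟨h9, e9⟩ := hor_cons vx vy 9 [] (by norm_num) h0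
  obtain ⟨h8, e8⟩ := hor_cons vx vy 8 _ (by norm_num) h9
  obtain ⟨h7, e7⟩ := hor_cons vx vy 7 _ (by norm_num) h8
  obtain ⟨h6, e6⟩ := hor_cons vx vy 6 _ (by norm_num) h7
  obtain ⟨h5, e5⟩ := hor_cons vx vy 5 _ (by norm_num) h6
  obtain ⟨h4, e4⟩ := hor_cons vx vy 4 _ (by norm_num) h5
  obtain ⟨h3, e3⟩ := hor_cons vx vy 3 _ (by norm_num) h4
  obtain ⟨h2, e2⟩ := hor_cons vx vy 2 _ (by norm_num) h3
  obtain ⟨h1, e1⟩ := hor_cons vx vy 1 _ (by norm_num) h2
  refine ⟨?_, ?_⟩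
  · have hd : ∀ j l, (hor vx vy (j :: l)).2.2 = (hor vx vy l).2.2 * (j * 2 ^ 40) := fun _ _ => rfl
    simp only [hd]
    rw [show (hor vx vy []).2.2 = 1 from rfl]
    norm_num
  · rw [e1, e2, e3, e4, e5, e6, e7, e8, e9, e0]
    simp only [Finset.sum_range_succ, Finset.sum_range_zero, Nat.factorial]
    push_cast
    ring

/-- the junction condition between a piece and the next one (lower `α`) -/
def junc (p q : Pc) : Bool :=
  let vx := (q.lx * q.d + p.lx * p.d) / 2 ^ 40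
  let vy := (q.ly * q.d + p.ly * p.d) / 2 ^ 40
  let r := hor vx vy [1, 2, 3, 4, 5, 6, 7, 8, 9]
  let X := q.cx * r.1 - q.cy * r.2.1 - p.cx * r.2.2
  let Y := q.cx * r.2.1 + q.cy * r.1 - p.cy * r.2.2
  let x := p.e - q.e' - 2
  let K := x * (2 ^ 40 - x) - 2 ^ 60
  decide (q.a + q.d = p.a - p.d) && decide (vx ^ 2 + vy ^ 2 ≤ 2 ^ 80) && decide (0 ≤ x) && decide (x ≤ 2 ^ 40) &&
    decide (0 ≤ K) && decide (q.cx ^ 2 + q.cy ^ 2 ≤ 4 * (p.cx ^ 2 + p.cy ^ 2)) &&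
    decide ((X ^ 2 + Y ^ 2) * 2 ^ 160 ≤ K ^ 2 * ((p.cx ^ 2 + p.cy ^ 2) * r.2.2 ^ 2))

theorem floor_err (x : ℤ) : |(x : ℝ) / (2 ^ 40) ^ 2 - rv (x / 2 ^ 40)| ≤ 1 / 2 ^ 40 := by
  have h1 : x = 2 ^ 40 * (x / 2 ^ 40) + x % 2 ^ 40 := (Int.mul_ediv_add_emod x (2 ^ 40)).symm
  have h2 : 0 ≤ x % 2 ^ 40 := Int.emod_nonneg _ (by norm_num)
  have h3 : x % 2 ^ 40 < 2 ^ 40 := Int.emod_lt_of_pos _ (by norm_num)
  have h4 : (x : ℝ) = 2 ^ 40 * ((x / 2 ^ 40 : ℤ) : ℝ) + ((x % 2 ^ 40 : ℤ) : ℝ) := by exact_mod_cast h1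
  have h5 : (0 : ℝ) ≤ ((x % 2 ^ 40 : ℤ) : ℝ) := by exact_mod_cast h2
  have h6 : ((x % 2 ^ 40 : ℤ) : ℝ) < 2 ^ 40 := by exact_mod_cast h3
  unfold rv
  rw [h4, abs_le]
  constructor
  · have : (2 ^ 40 * ((x / 2 ^ 40 : ℤ) : ℝ) + ((x % 2 ^ 40 : ℤ) : ℝ)) / (2 ^ 40) ^ 2 - ((x / 2 ^ 40 : ℤ) : ℝ) / 2 ^ 40
        = ((x % 2 ^ 40 : ℤ) : ℝ) / (2 ^ 40) ^ 2 := by field_simp; ring
    rw [this]
    have : (0 : ℝ) ≤ ((x % 2 ^ 40 : ℤ) : ℝ) / (2 ^ 40) ^ 2 := by positivity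
    have h7 : (0 : ℝ) ≤ 1 / 2 ^ 40 := by positivity
    linarith
  · have : (2 ^ 40 * ((x / 2 ^ 40 : ℤ) : ℝ) + ((x % 2 ^ 40 : ℤ) : ℝ)) / (2 ^ 40) ^ 2 - ((x / 2 ^ 40 : ℤ) : ℝ) / 2 ^ 40
        = ((x % 2 ^ 40 : ℤ) : ℝ) / (2 ^ 40) ^ 2 := by field_simp; ring
    rw [this, div_le_div_iff₀ (by positivity) (by positivity)]
    nlinarith


theorem norm_log_le {y : ℂ} {κ : ℝ} (hκ : κ ≤ 1 / 2) (hy : ‖y‖ ≤ κ) : ‖Complex.log (1 + y)‖ ≤ κ + κ ^ 2 := by
  have h0 := norm_nonneg y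
  have h1 : ‖y‖ < 1 := by linarith
  have h2 := Complex.norm_log_one_add_le h1
  have h3 : (1 - ‖y‖)⁻¹ ≤ 2 := by
    rw [inv_le_comm₀ (by linarith) (by norm_num)]
    linarith
  have h4 : ‖y‖ ^ 2 * (1 - ‖y‖)⁻¹ / 2 ≤ ‖y‖ ^ 2 := by
    have : ‖y‖ ^ 2 * (1 - ‖y‖)⁻¹ ≤ ‖y‖ ^ 2 * 2 := by gcongr
    linarith
  nlinarith

theorem junc_spec {p q : Pc} (hc : p.c ≠ 0) (h : junc p q = true) : q.a + q.d = p.a - p.d ∧
    ∃ μ : ℂ, q.c = p.c * Complex.exp μ ∧
      ‖μ + q.lam * ((rv q.d : ℝ) : ℂ) - p.lam * ((-rv p.d : ℝ) : ℂ)‖ + rv q.e' ≤ rv p.e := by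
  unfold junc at h
  simp only [Bool.and_eq_true, decide_eq_true_eq] at h
  obtain ⟨⟨⟨⟨⟨⟨h1, h2⟩, h3⟩, h3'⟩, h4⟩, h5⟩, h6⟩ := h
  refine ⟨h1, ?_⟩
  set vx := (q.lx * q.d + p.lx * p.d) / 2 ^ 40 with hvx
  set vy := (q.ly * q.d + p.ly * p.d) / 2 ^ 40 with hvy
  set r := hor vx vy [1, 2, 3, 4, 5, 6, 7, 8, 9] with hr
  set X := q.cx * r.1 - q.cy * r.2.1 - p.cx * r.2.2 with hX
  set Y := q.cx * r.2.1 + q.cy * r.1 - p.cy * r.2.2 with hY
  obtain ⟨hD, hS⟩ := hor_spec vx vy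
  rw [← hr] at hD hS
  have hD0 : (0 : ℝ) < (r.2.2 : ℝ) := by rw [hD]; norm_num
  -- the exact `v` and its rounding
  set v : ℂ := q.lam * ((rv q.d : ℝ) : ℂ) + p.lam * ((rv p.d : ℝ) : ℂ) with hv
  have hvre : v.re = ((q.lx * q.d + p.lx * p.d : ℤ) : ℝ) / (2 ^ 40) ^ 2 := by
    rw [hv]
    simp only [Pc.lam, cv, rv, Complex.add_re, Complex.mul_re, Complex.ofReal_re, Complex.ofReal_im]
    push_cast
    ring
  have hvim : v.im = ((q.ly * q.d + p.ly * p.d : ℤ) : ℝ) / (2 ^ 40) ^ 2 := by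
    rw [hv]
    simp only [Pc.lam, cv, rv, Complex.add_im, Complex.mul_im, Complex.ofReal_re, Complex.ofReal_im]
    push_cast
    ring
  have hvr : ‖v - cv vx vy‖ ≤ 2 / 2 ^ 40 := by
    refine (Complex.norm_le_abs_re_add_abs_im _).trans ?_
    rw [Complex.sub_re, Complex.sub_im, hvre, hvim]
    have k1 := floor_err (q.lx * q.d + p.lx * p.d)
    have k2 := floor_err (q.ly * q.d + p.ly * p.d)
    rw [← hvx] at k1
    rw [← hvy] at k2
    have k3 : (cv vx vy).re = rv vx := rfl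
    have k4 : (cv vx vy).im = rv vy := rfl
    rw [k3, k4]
    calc _ ≤ 1 / 2 ^ 40 + 1 / 2 ^ 40 := add_le_add k1 k2
      _ = 2 / 2 ^ 40 := by norm_num
  have hv1 : ‖cv vx vy‖ ≤ 1 := by
    have k1 := cv_normSq vx vy
    have k2 : ((vx ^ 2 + vy ^ 2 : ℤ) : ℝ) ≤ (2 : ℝ) ^ 80 := by exact_mod_cast h2
    have k3 : ‖cv vx vy‖ ^ 2 ≤ 1 := by
      rw [k1, div_le_one (by positivity)]
      refine k2.trans (le_of_eq (by norm_num))
    nlinarith [norm_nonneg (cv vx vy)]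
  have hexp : ‖Complex.exp (cv vx vy) - tv r‖ ≤ 1 / 2 ^ 21 := by
    rw [hS]
    refine (Complex.exp_bound hv1 (n := 10) (by norm_num)).trans ?_
    have : ‖cv vx vy‖ ^ 10 ≤ 1 := pow_le_one₀ (norm_nonneg _) hv1
    have k1 : ‖cv vx vy‖ ^ 10 * (((10 : ℕ).succ : ℝ) * (((10 : ℕ).factorial : ℝ) * (10 : ℕ))⁻¹) ≤
        1 * (((10 : ℕ).succ : ℝ) * (((10 : ℕ).factorial : ℝ) * (10 : ℕ))⁻¹) := by gcongr
    refine k1.trans ?_
    norm_num [Nat.factorial]
  -- the quotient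
  set y : ℂ := q.c * Complex.exp (cv vx vy) / p.c - 1 with hy
  have hpc : 0 < ‖p.c‖ := norm_pos_iff.2 hc
  have hqc : ‖q.c‖ ≤ 2 * ‖p.c‖ := by
    have k1 := cv_normSq q.cx q.cy
    have k2 := cv_normSq p.cx p.cy
    have k3 : ((q.cx ^ 2 + q.cy ^ 2 : ℤ) : ℝ) ≤ 4 * ((p.cx ^ 2 + p.cy ^ 2 : ℤ) : ℝ) := by exact_mod_cast h5
    have k4 : ‖q.c‖ ^ 2 ≤ 4 * ‖p.c‖ ^ 2 := by
      have e1 : ‖q.c‖ ^ 2 = ((q.cx ^ 2 + q.cy ^ 2 : ℤ) : ℝ) / (2 ^ 40) ^ 2 := k1
      have e2 : ‖p.c‖ ^ 2 = ((p.cx ^ 2 + p.cy ^ 2 : ℤ) : ℝ) / (2 ^ 40) ^ 2 := k2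
      rw [e1, e2, ← mul_div_assoc]
      gcongr
    nlinarith [norm_nonneg q.c, norm_nonneg p.c]
  set x : ℤ := p.e - q.e' - 2 with hx
  set K : ℤ := x * (2 ^ 40 - x) - 2 ^ 60 with hK
  have hxr0 : 0 ≤ rv x := rv_nonneg.2 h3
  have hxr1 : rv x ≤ 1 := by
    unfold rv
    rw [div_le_one (by positivity)]
    exact_mod_cast h3'
  set κ : ℝ := rv x * (1 - rv x) with hκ
  have hκK : κ - 1 / 2 ^ 20 = (K : ℝ) / (2 ^ 40) ^ 2 := by
    rw [hκ, hK]
    unfold rv
    push_cast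
    field_simp
    ring
  have hK0 : (0 : ℝ) ≤ (K : ℝ) := by exact_mod_cast h4
  -- main estimate
  have hXY : ‖q.c * tv r - p.c‖ ≤ (κ - 1 / 2 ^ 20) * ‖p.c‖ := by
    have e1 : q.c * tv r - p.c = ((X : ℂ) + (Y : ℂ) * Complex.I) / ((r.2.2 : ℂ) * 2 ^ 40) := by
      have hD' : (r.2.2 : ℂ) ≠ 0 := by
        have : (r.2.2 : ℝ) ≠ 0 := hD0.ne'
        exact_mod_cast this
      rw [Pc.c, Pc.c, cv_eq, cv_eq, tv, hX, hY]
      push_cast
      field_simp
      ring_nf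
      rw [Complex.I_sq]
      ring
    have e2 : ‖q.c * tv r - p.c‖ ^ 2 = ((X ^ 2 + Y ^ 2 : ℤ) : ℝ) / ((r.2.2 : ℝ) * 2 ^ 40) ^ 2 := by
      rw [e1, norm_div, div_pow]
      congr 1
      · rw [← Complex.normSq_eq_norm_sq]
        have : ((X : ℂ) + (Y : ℂ) * Complex.I) = (⟨(X : ℝ), (Y : ℝ)⟩ : ℂ) := by
          apply Complex.ext <;> simp
        rw [this, Complex.normSq_mk]
        push_cast
        ring
      · rw [show ((r.2.2 : ℂ) * 2 ^ 40) = (((r.2.2 : ℝ) * 2 ^ 40 : ℝ) : ℂ) by push_cast; rfl, Complex.norm_real]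
        rw [Real.norm_eq_abs, sq_abs]
    have e3 : ‖p.c‖ ^ 2 = ((p.cx ^ 2 + p.cy ^ 2 : ℤ) : ℝ) / (2 ^ 40) ^ 2 := cv_normSq _ _
    have e4 : (((X ^ 2 + Y ^ 2 : ℤ)) : ℝ) * 2 ^ 160 ≤ (K : ℝ) ^ 2 * (((p.cx ^ 2 + p.cy ^ 2 : ℤ) : ℝ) * (r.2.2 : ℝ) ^ 2) := by
      exact_mod_cast h6
    have e5 : ‖q.c * tv r - p.c‖ ^ 2 ≤ ((κ - 1 / 2 ^ 20) * ‖p.c‖) ^ 2 := by
      rw [e2, hκK, mul_pow ((K : ℝ) / (2 ^ 40) ^ 2) ‖p.c‖ 2, e3]
      rw [div_pow, div_mul_div_comm, div_le_div_iff₀ (by positivity) (by positivity)]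
      have : ((X ^ 2 + Y ^ 2 : ℤ) : ℝ) * (((2 ^ 40) ^ 2) ^ 2 * (2 ^ 40) ^ 2) =
          (((X ^ 2 + Y ^ 2 : ℤ) : ℝ) * 2 ^ 160) * 2 ^ 80 := by ring
      rw [this]
      calc _ ≤ ((K : ℝ) ^ 2 * (((p.cx ^ 2 + p.cy ^ 2 : ℤ) : ℝ) * (r.2.2 : ℝ) ^ 2)) * 2 ^ 80 := by gcongr
        _ = _ := by ring
    have e6 : 0 ≤ (κ - 1 / 2 ^ 20) * ‖p.c‖ := by
      rw [hκK]
      positivity
    exact abs_le_of_sq_le_sq' e5 e6 |>.2
  have hyn : ‖y‖ ≤ κ := by
    have e1 : y = ((q.c * tv r - p.c) + q.c * (Complex.exp (cv vx vy) - tv r)) / p.c := by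
      rw [hy]
      field_simp
      ring
    rw [e1, norm_div, div_le_iff₀ hpc]
    refine (norm_add_le _ _).trans ?_
    rw [norm_mul]
    have e2 : ‖q.c‖ * ‖Complex.exp (cv vx vy) - tv r‖ ≤ (2 * ‖p.c‖) * (1 / 2 ^ 21) := by gcongr
    calc _ ≤ (κ - 1 / 2 ^ 20) * ‖p.c‖ + (2 * ‖p.c‖) * (1 / 2 ^ 21) := add_le_add hXY e2
      _ = κ * ‖p.c‖ := by ring
  have hκ2 : κ ≤ 1 / 2 := by
    rw [hκ]
    nlinarith [sq_nonneg (rv x - 1 / 2)]
  have hlog := norm_log_le hκ2 hyn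
  have hy1 : (1 : ℂ) + y ≠ 0 := by
    intro h0
    have : ‖y‖ = 1 := by
      rw [show y = -1 by linear_combination h0]
      simp
    linarith
  have h1y : 1 + y = q.c * Complex.exp (cv vx vy) / p.c := by rw [hy]; ring
  refine ⟨Complex.log (1 + y) - cv vx vy, ?_, ?_⟩
  · rw [Complex.exp_sub, Complex.exp_log hy1, h1y]
    have := Complex.exp_ne_zero (cv vx vy)
    field_simp
  · have e1 : Complex.log (1 + y) - cv vx vy + q.lam * ((rv q.d : ℝ) : ℂ) - p.lam * ((-rv p.d : ℝ) : ℂ) =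
        Complex.log (1 + y) + (v - cv vx vy) := by
      rw [hv]
      push_cast
      ring
    rw [e1]
    have e2 : ‖Complex.log (1 + y) + (v - cv vx vy)‖ ≤ (κ + κ ^ 2) + 2 / 2 ^ 40 :=
      (norm_add_le _ _).trans (add_le_add hlog hvr)
    have e3 : κ + κ ^ 2 ≤ rv x := by
      rw [hκ]
      nlinarith [mul_nonneg hxr0 hxr0, mul_nonneg (mul_nonneg hxr0 hxr0) hxr0, mul_nonneg (mul_nonneg hxr0 hxr0) (sub_nonneg.2 hxr1), mul_nonneg hxr0 (sub_nonneg.2 hxr1)]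
    have e4 : rv x = rv p.e - rv q.e' - 2 / 2 ^ 40 := by
      rw [hx, rv_sub, rv_sub]
      congr 1
    linarith


/-! ### Chains -/

/-- chain of pieces with decreasing `α`: half widths nonnegative, junction condition -/
def chainOK : List Pc → Bool
  | [] => true
  | p :: l => decide (0 ≤ p.d) && (match l with
    | [] => true
    | q :: _ => junc p q) && chainOK l

/-- lower end of a chain -/
def lastLo : Pc → List Pc → ℤ
  | p, [] => p.lo
  | _, q :: l => lastLo q l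

theorem chainOK_cons {p : Pc} {l : List Pc} (h : chainOK (p :: l) = true) : 0 ≤ p.d ∧ chainOK l = true := by
  unfold chainOK at h
  simp only [Bool.and_eq_true, decide_eq_true_eq] at h
  exact ⟨h.1.1, h.2⟩

theorem chainOK_junc {p q : Pc} {l : List Pc} (h : chainOK (p :: q :: l) = true) : junc p q = true := by
  unfold chainOK at h
  simp only [Bool.and_eq_true, decide_eq_true_eq] at h
  exact h.1.2

theorem Pc.lo_le_hi {p : Pc} (h : 0 ≤ p.d) : p.lo ≤ p.hi := by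
  unfold Pc.lo Pc.hi
  omega

theorem junc_touch {p q : Pc} (h : junc p q = true) : q.hi = p.lo := by
  unfold junc at h
  simp only [Bool.and_eq_true, decide_eq_true_eq] at h
  exact h.1.1.1.1.1.1

theorem lastLo_le : ∀ (l : List Pc) (p : Pc), chainOK (p :: l) = true → ∀ x ∈ p :: l, lastLo p l ≤ x.lo ∧ x.hi ≤ p.hi := by
  intro l
  induction l with
  | nil =>
    intro p _ x hx
    rw [List.mem_singleton] at hx
    rw [hx]
    exact ⟨le_rfl, le_rfl⟩
  | cons q l ih =>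
    intro p h x hx
    have h1 := chainOK_cons h
    have h2 := junc_touch (chainOK_junc h)
    have h3 := Pc.lo_le_hi h1.1
    have h4 := Pc.lo_le_hi (chainOK_cons h1.2).1
    have h5 := ih q h1.2
    rcases List.mem_cons.1 hx with h6 | h6
    · rw [h6]
      have := (h5 q List.mem_cons_self).1
      exact ⟨by show lastLo q l ≤ p.lo; omega, le_rfl⟩
    · have := h5 x h6
      exact ⟨this.1, by omega⟩

/-- a chain of tubes gives a branch -/
theorem chain_branch : ∀ (l : List Pc) (p : Pc), (∀ x ∈ p :: l, x.T) → chainOK (p :: l) = true →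
    ∃ Z : ℝ → ℂ, Branch (Icc (rv (lastLo p l)) (rv p.hi)) Z ∧
      ∀ x ∈ p :: l, ∀ α ∈ Icc (rv x.lo) (rv x.hi), Z α = x.z α := by
  intro l
  induction l with
  | nil =>
    intro p hT h
    have T : p.T := hT p List.mem_cons_self
    refine ⟨p.z, ?_, fun x hx α _ => ?_⟩
    · have := T.branch
      rw [← rv_sub, ← rv_add] at this
      exact this
    · rw [List.mem_singleton] at hx
      rw [hx]
  | cons q l ih =>
    intro p hT h
    have T : p.T := hT p List.mem_cons_self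
    have Tq : q.T := hT q (List.mem_cons_of_mem _ List.mem_cons_self)
    have h1 := chainOK_cons h
    have hj := chainOK_junc h
    have h2 := junc_touch hj
    have h3 := Pc.lo_le_hi h1.1
    have h4 := Pc.lo_le_hi (chainOK_cons h1.2).1
    obtain ⟨Z, hB, hZ⟩ := ih q (fun x hx => hT x (List.mem_cons_of_mem _ hx)) h1.2
    have hmono := lastLo_le l q h1.2
    have hqlo := (hmono q List.mem_cons_self).1
    have B₂ : Branch (Icc (rv q.hi) (rv p.hi)) p.z := by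
      have := T.branch
      rw [← rv_sub, ← rv_add] at this
      rw [h2]
      exact this
    -- the junction
    have hglue : Z (rv q.hi) = p.z (rv q.hi) := by
      rw [hZ q List.mem_cons_self _ ⟨rv_le.2 h4, le_rfl⟩]
      obtain ⟨ht, μ, hμ, hle⟩ := junc_spec T.c_ne hj
      have e1 : rv q.hi - rv q.a = rv q.d := by rw [Pc.hi, rv_add]; ring
      have e2 : rv q.hi - rv p.a = -rv p.d := by rw [h2, Pc.lo, rv_sub]; ring
      have hα : |rv q.hi - rv p.a| ≤ rv p.d := by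
        rw [e2, abs_neg, abs_of_nonneg (rv_nonneg.2 h1.1)]
      have hα₁ : |rv q.hi - rv q.a| ≤ rv q.d := by
        rw [e1, abs_of_nonneg (rv_nonneg.2 (chainOK_cons h1.2).1)]
      exact IsTube.link T Tq hα hα₁ μ hμ (by rw [e1, e2]; exact hle)
    refine ⟨fun α => if α ≤ rv q.hi then Z α else p.z α, ?_, ?_⟩
    · exact hB.glue (rv_le.2 (show lastLo q l ≤ q.hi by omega)) (rv_le.2 (show q.hi ≤ p.hi by omega)) B₂ hglue
    · intro x hx α hα
      rcases List.mem_cons.1 hx with h6 | h6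
      · rw [h6] at hα ⊢
        rcases hα.1.eq_or_lt with h7 | h7
        · have h8 : α = rv q.hi := by rw [← h7, h2]
          simp only [h8, le_refl, if_true]
          exact hglue
        · have : ¬ α ≤ rv q.hi := by
            rw [h2]
            exact not_le.2 h7
          simp only [this, if_false]
      · have h7 : α ≤ rv q.hi := hα.2.trans (rv_le.2 (hmono x h6).2)
        simp only [h7, if_true]
        exact hZ x h6 α hα

/-- every point of the range of a chain lies in a piece -/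
theorem chain_mem : ∀ (l : List Pc) (p : Pc), chainOK (p :: l) = true → ∀ α : ℝ, rv (lastLo p l) ≤ α → α ≤ rv p.hi →
    ∃ x ∈ p :: l, α ∈ Icc (rv x.lo) (rv x.hi) := by
  intro l
  induction l with
  | nil =>
    intro p _ α h1 h2
    exact ⟨p, List.mem_cons_self, h1, h2⟩
  | cons q l ih =>
    intro p h α h1 h2
    rcases le_or_gt (rv p.lo) α with h3 | h3
    · exact ⟨p, List.mem_cons_self, h3, h2⟩
    · have h4 := junc_touch (chainOK_junc h)
      obtain ⟨x, hx, hx2⟩ := ih q (chainOK_cons h).2 α h1 (by rw [h4]; exact h3.le)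
      exact ⟨x, List.mem_cons_of_mem _ hx, hx2⟩

/-! ### Order of two chains -/

/-- twice the exponent at `x` (scale `2^80`): `2 (log bound of p) - 2 (log bound of q)` without `log |c|` -/
def expo (p q : Pc) (x : ℤ) : ℤ :=
  2 * (p.lx * (x - p.a) + p.e' * 2 ^ 40 - q.lx * (x - q.a) + q.e' * 2 ^ 40)

/-- the modulus in `p` is smaller than the modulus in `q` at the point `x` -/
def endOK (p q : Pc) (x : ℤ) : Bool :=
  let E := expo p q x
  decide (E ≤ 2 ^ 80) && decide (-2 ^ 80 ≤ E) &&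
    decide ((p.cx ^ 2 + p.cy ^ 2) * (2 ^ 160 + E * 2 ^ 80 + E ^ 2) < (q.cx ^ 2 + q.cy ^ 2) * 2 ^ 160)

/-- the modulus in `p` is smaller than the modulus in `q` on the common interval -/
def pairOK (p q : Pc) : Bool := endOK p q (max p.lo q.lo) && endOK p q (min p.hi q.hi)

/-- two-pointer merge -/
def ordOK : ℕ → List Pc → List Pc → Bool
  | 0, _, _ => false
  | n + 1, L, M =>
    match L, M with
    | p :: l, q :: m => pairOK p q &&
      (if q.lo < p.lo then (match l with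
        | [] => true
        | _ :: _ => ordOK n l (q :: m))
      else if p.lo < q.lo then (match m with
        | [] => true
        | _ :: _ => ordOK n (p :: l) m)
      else (match l, m with
        | _ :: _, _ :: _ => ordOK n l m
        | _, _ => true))
    | _, _ => true

theorem endOK_spec {p q : Pc} {x : ℤ} (h : endOK p q x = true) (hq : q.c ≠ 0) :
    ‖p.c‖ * Real.exp (p.lam.re * (rv x - rv p.a) + rv p.e') < ‖q.c‖ * Real.exp (q.lam.re * (rv x - rv q.a) - rv q.e') := by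
  unfold endOK at h
  simp only [Bool.and_eq_true, decide_eq_true_eq] at h
  obtain ⟨⟨h1, h2⟩, h3⟩ := h
  set E := expo p q x with hE
  set T : ℝ := (E : ℝ) / (2 ^ 40) ^ 2 with hT
  have hTE : T = 2 * ((p.lam.re * (rv x - rv p.a) + rv p.e') - (q.lam.re * (rv x - rv q.a) - rv q.e')) := by
    have e1 : p.lam.re = rv p.lx := rfl
    have e2 : q.lam.re = rv q.lx := rfl
    rw [hT, hE, expo, e1, e2]
    unfold rv
    push_cast
    field_simp
    ring
  have hT1 : |T| ≤ 1 := by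
    have k1 : (E : ℝ) ≤ 2 ^ 80 := by exact_mod_cast h1
    have k2 : -(2 : ℝ) ^ 80 ≤ (E : ℝ) := by exact_mod_cast h2
    rw [hT, abs_le]
    constructor
    · rw [le_div_iff₀ (by positivity)]
      linarith
    · rw [div_le_one (by positivity)]
      linarith
  have hexp : Real.exp T ≤ 1 + T + T ^ 2 := by
    have := Real.abs_exp_sub_one_sub_id_le hT1
    have := (abs_le.1 this).2
    linarith
  have h4 : ‖p.c‖ ^ 2 * (1 + T + T ^ 2) < ‖q.c‖ ^ 2 := by
    have k1 : ‖p.c‖ ^ 2 = ((p.cx ^ 2 + p.cy ^ 2 : ℤ) : ℝ) / (2 ^ 40) ^ 2 := cv_normSq _ _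
    have k2 : ‖q.c‖ ^ 2 = ((q.cx ^ 2 + q.cy ^ 2 : ℤ) : ℝ) / (2 ^ 40) ^ 2 := cv_normSq _ _
    have k3 : ((p.cx ^ 2 + p.cy ^ 2 : ℤ) : ℝ) * (2 ^ 160 + (E : ℝ) * 2 ^ 80 + (E : ℝ) ^ 2) <
        ((q.cx ^ 2 + q.cy ^ 2 : ℤ) : ℝ) * 2 ^ 160 := by exact_mod_cast h3
    rw [k1, k2, hT]
    have k4 : 1 + (E : ℝ) / (2 ^ 40) ^ 2 + ((E : ℝ) / (2 ^ 40) ^ 2) ^ 2 =
        (2 ^ 160 + (E : ℝ) * 2 ^ 80 + (E : ℝ) ^ 2) / 2 ^ 160 := by
      field_simp
    rw [k4, div_mul_div_comm, div_lt_div_iff₀ (by positivity) (by positivity)]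
    calc _ = (((p.cx ^ 2 + p.cy ^ 2 : ℤ) : ℝ) * (2 ^ 160 + (E : ℝ) * 2 ^ 80 + (E : ℝ) ^ 2)) * (2 ^ 40) ^ 2 := by ring
      _ < (((q.cx ^ 2 + q.cy ^ 2 : ℤ) : ℝ) * 2 ^ 160) * (2 ^ 40) ^ 2 := by
        apply mul_lt_mul_of_pos_right k3 (by positivity)
      _ = _ := by ring
  have hqc : 0 < ‖q.c‖ := norm_pos_iff.2 hq
  set A := p.lam.re * (rv x - rv p.a) + rv p.e' with hA
  set B := q.lam.re * (rv x - rv q.a) - rv q.e' with hB
  have h5 : (‖p.c‖ * Real.exp A) ^ 2 < (‖q.c‖ * Real.exp B) ^ 2 := by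
    have e1 : (‖p.c‖ * Real.exp A) ^ 2 = (‖p.c‖ ^ 2 * Real.exp T) * Real.exp B ^ 2 := by
      have : Real.exp A ^ 2 = Real.exp T * Real.exp B ^ 2 := by
        rw [← Real.exp_nat_mul, ← Real.exp_nat_mul, ← Real.exp_add]
        congr 1
        rw [hTE]
        push_cast
        ring
      rw [mul_pow, this]
      ring
    rw [e1, mul_pow]
    have e2 : ‖p.c‖ ^ 2 * Real.exp T ≤ ‖p.c‖ ^ 2 * (1 + T + T ^ 2) := by gcongr
    have e3 : 0 < Real.exp B ^ 2 := by positivity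
    exact mul_lt_mul_of_pos_right (e2.trans_lt h4) e3
  exact lt_of_pow_lt_pow_left₀ 2 (by positivity) h5

theorem pairOK_spec {p q : Pc} (hp : p.c ≠ 0) (hq : q.c ≠ 0) (h : pairOK p q = true) {α : ℝ}
    (h1 : α ∈ Icc (rv p.lo) (rv p.hi)) (h2 : α ∈ Icc (rv q.lo) (rv q.hi)) :
    ‖p.c‖ * Real.exp (p.lam.re * (α - rv p.a) + rv p.e') < ‖q.c‖ * Real.exp (q.lam.re * (α - rv q.a) - rv q.e') := by
  unfold pairOK at h
  rw [Bool.and_eq_true] at h
  have k1 := endOK_spec h.1 hq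
  have k2 := endOK_spec h.2 hq
  set x := max p.lo q.lo with hx
  set y := min p.hi q.hi with hy
  have hxα : rv x ≤ α := by
    rw [hx]
    rcases max_cases p.lo q.lo with h3 | h3
    · rw [h3.1]; exact h1.1
    · rw [h3.1]; exact h2.1
  have hαy : α ≤ rv y := by
    rw [hy]
    rcases min_cases p.hi q.hi with h3 | h3
    · rw [h3.1]; exact h1.2
    · rw [h3.1]; exact h2.2
  have hpc : 0 < ‖p.c‖ := norm_pos_iff.2 hp
  have hqc : 0 < ‖q.c‖ := norm_pos_iff.2 hq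
  have key : ∀ u v : ℝ, (‖p.c‖ * Real.exp u < ‖q.c‖ * Real.exp v ↔ Real.log ‖p.c‖ + u < Real.log ‖q.c‖ + v) := by
    intro u v
    have e1 : ‖p.c‖ * Real.exp u = Real.exp (Real.log ‖p.c‖ + u) := by
      rw [Real.exp_add, Real.exp_log hpc]
    have e2 : ‖q.c‖ * Real.exp v = Real.exp (Real.log ‖q.c‖ + v) := by
      rw [Real.exp_add, Real.exp_log hqc]
    rw [e1, e2]
    exact Real.exp_lt_exp
  rw [key] at k1 k2 ⊢
  rcases (hxα.trans hαy).eq_or_lt with h3 | h3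
  · have : α = rv x := le_antisymm (by rw [h3]; exact hαy) hxα
    rw [this]
    exact k1
  · -- affine interpolation
    set t := (α - rv x) / (rv y - rv x) with ht
    have hd : 0 < rv y - rv x := by linarith
    have ht0 : 0 ≤ t := div_nonneg (by linarith) hd.le
    have ht1 : t ≤ 1 := by
      rw [ht, div_le_one hd]
      linarith
    have hα : α = rv x + t * (rv y - rv x) := by
      rw [ht]
      field_simp
      ring
    have e : ∀ a : ℝ, α - a = (1 - t) * (rv x - a) + t * (rv y - a) := fun a => by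
      rw [hα]; ring
    rw [e, e]
    rcases ht0.eq_or_lt with h4 | h4
    · rw [← h4]
      simpa using k1
    · have m1 := mul_le_mul_of_nonneg_left k1.le (sub_nonneg.2 ht1)
      have m2 := mul_lt_mul_of_pos_left k2 h4
      nlinarith

theorem ordOK_spec : ∀ (n : ℕ) (l : List Pc) (p : Pc) (m : List Pc) (q : Pc), chainOK (p :: l) = true →
    chainOK (q :: m) = true → (∀ x ∈ p :: l, x.c ≠ 0) → (∀ x ∈ q :: m, x.c ≠ 0) →
    ordOK n (p :: l) (q :: m) = true → ∀ α : ℝ, α ≤ rv p.hi → α ≤ rv q.hi → rv (lastLo p l) ≤ α →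
    rv (lastLo q m) ≤ α → ∃ x ∈ p :: l, ∃ y ∈ q :: m, α ∈ Icc (rv x.lo) (rv x.hi) ∧ α ∈ Icc (rv y.lo) (rv y.hi) ∧
      ‖x.c‖ * Real.exp (x.lam.re * (α - rv x.a) + rv x.e') < ‖y.c‖ * Real.exp (y.lam.re * (α - rv y.a) - rv y.e') := by
  intro n
  induction n with
  | zero =>
    intro l p m q _ _ _ _ h
    simp [ordOK] at h
  | succ n ih =>
    intro l p m q hp hq cp cq h α a1 a2 a3 a4
    unfold ordOK at h
    simp only [Bool.and_eq_true] at h
    obtain ⟨h1, h2⟩ := h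
    by_cases hb : rv p.lo ≤ α ∧ rv q.lo ≤ α
    · exact ⟨p, List.mem_cons_self, q, List.mem_cons_self, ⟨hb.1, a1⟩, ⟨hb.2, a2⟩,
        pairOK_spec (cp p List.mem_cons_self) (cq q List.mem_cons_self) h1 ⟨hb.1, a1⟩ ⟨hb.2, a2⟩⟩
    · by_cases h3 : q.lo < p.lo
      · rw [if_pos h3] at h2
        have h4 : α < rv p.lo := by
          by_contra h5
          exact hb ⟨not_lt.1 h5, (rv_le.2 h3.le).trans (not_lt.1 h5)⟩
        cases l with
        | nil => exact absurd a3 (not_le.2 h4)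
        | cons p' l =>
          simp only at h2
          have h5 := junc_touch (chainOK_junc hp)
          obtain ⟨x, hx, y, hy, r⟩ := ih l p' m q (chainOK_cons hp).2 hq
            (fun x hx => cp x (List.mem_cons_of_mem _ hx)) cq h2 α (by rw [h5]; exact h4.le) a2 a3 a4
          exact ⟨x, List.mem_cons_of_mem _ hx, y, hy, r⟩
      · rw [if_neg h3] at h2
        by_cases h3' : p.lo < q.lo
        · rw [if_pos h3'] at h2
          have h4 : α < rv q.lo := by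
            by_contra h5
            exact hb ⟨(rv_le.2 h3'.le).trans (not_lt.1 h5), not_lt.1 h5⟩
          cases m with
          | nil => exact absurd a4 (not_le.2 h4)
          | cons q' m =>
            simp only at h2
            have h5 := junc_touch (chainOK_junc hq)
            obtain ⟨x, hx, y, hy, r⟩ := ih l p m q' hp (chainOK_cons hq).2 cp
              (fun x hx => cq x (List.mem_cons_of_mem _ hx)) h2 α a1 (by rw [h5]; exact h4.le) a3 a4
            exact ⟨x, hx, y, List.mem_cons_of_mem _ hy, r⟩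
        · rw [if_neg h3'] at h2
          have he : p.lo = q.lo := by omega
          have h4 : α < rv p.lo := by
            by_contra h5
            exact hb ⟨not_lt.1 h5, by rw [← he]; exact not_lt.1 h5⟩
          cases l with
          | nil => exact absurd a3 (not_le.2 h4)
          | cons p' l =>
            cases m with
            | nil => exact absurd a4 (not_le.2 (by show α < rv q.lo; rw [← he]; exact h4))
            | cons q' m =>
              simp only at h2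
              have h5 := junc_touch (chainOK_junc hp)
              have h6 := junc_touch (chainOK_junc hq)
              obtain ⟨x, hx, y, hy, r⟩ := ih l p' m q' (chainOK_cons hp).2 (chainOK_cons hq).2
                (fun x hx => cp x (List.mem_cons_of_mem _ hx)) (fun x hx => cq x (List.mem_cons_of_mem _ hx)) h2 α
                (by rw [h5]; exact h4.le) (by rw [h6, ← he]; exact h4.le) a3 a4
              exact ⟨x, List.mem_cons_of_mem _ hx, y, List.mem_cons_of_mem _ hy, r⟩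


/-! ### Assembly -/

/-- the constant modulus `R / 2^40` as a piece over the interval of `p` -/
def cst (R : ℤ) (p : Pc) : Pc := ⟨p.a, p.d, R, 0, 0, 0, 0, 0⟩

/-- all zeros of the chain have modulus `> R / 2^40` -/
def topOK (R : ℤ) (L : List Pc) : Bool := L.all fun p => pairOK (cst R p) p

theorem cst_val {R : ℤ} (hR : 0 ≤ R) (p : Pc) (x : ℝ) (e : ℝ) (he : e = 0) :
    ‖(cst R p).c‖ * Real.exp ((cst R p).lam.re * x + e) = rv R := by
  have h1 : (cst R p).c = ((rv R : ℝ) : ℂ) := by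
    apply Complex.ext
    · rfl
    · show rv 0 = 0
      simp [rv]
  have h2 : (cst R p).lam.re = 0 := by simp [cst, Pc.lam, cv, rv]
  rw [h1, h2, he, Complex.norm_real, Real.norm_eq_abs, abs_of_nonneg (rv_nonneg.2 hR)]
  simp

theorem cst_ne {R : ℤ} (hR : 0 < R) (p : Pc) : (cst R p).c ≠ 0 := by
  have h1 : (cst R p).c = ((rv R : ℝ) : ℂ) := by
    apply Complex.ext
    · rfl
    · show rv 0 = 0
      simp [rv]
  rw [h1]
  have : rv R ≠ 0 := by
    unfold rv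
    have : (0 : ℝ) < R := by exact_mod_cast hR
    positivity
  exact_mod_cast this

theorem top_spec {R : ℤ} (hR : 0 < R) {p : Pc} (hp : p.T) (h : pairOK (cst R p) p = true) {α : ℝ}
    (hα : α ∈ Icc (rv p.lo) (rv p.hi)) : rv R ≤ ‖p.z α‖ := by
  have h1 := pairOK_spec (cst_ne hR p) hp.c_ne h (α := α) hα hα
  rw [cst_val hR.le p _ _ (by simp [cst, rv])] at h1
  exact h1.le.trans (IsTube.le_norm hp (Pc.abs_le hα))

theorem up_spec {R : ℤ} (hR : 0 < R) {p : Pc} (hp : p.T) (h : pairOK p (cst R p) = true) {α : ℝ}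
    (hα : α ∈ Icc (rv p.lo) (rv p.hi)) : ‖p.z α‖ < rv R := by
  have h1 := pairOK_spec hp.c_ne (cst_ne hR p) h (α := α) hα hα
  have h2 : (cst R p).lam.re * (α - rv (cst R p).a) - rv (cst R p).e' = (cst R p).lam.re * (α - rv (cst R p).a) + 0 := by
    simp [cst, rv]
  rw [h2, cst_val hR.le p _ _ rfl] at h1
  exact (IsTube.norm_le hp (Pc.abs_le hα)).trans_lt h1

/-- The system of branches from the lists of the tubes: head `P k`, tail `t k` for `k < n`. -/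
theorem sys_of_lists (R0 U lo : ℤ) (n : ℕ) (fuel : ℕ) (P : ℕ → Pc) (t : ℕ → List Pc) (hn : 0 < n) (hR : 0 < R0)
    (hU : 0 < U) (hU2 : rv U ≤ (2 * n + 1) * (157 / 200))
    (hT : ∀ k < n, ∀ x ∈ P k :: t k, x.T)
    (hC : ∀ k < n, chainOK (P k :: t k) = true)
    (hlo : ∀ k < n, lastLo (P k) (t k) = lo)
    (hhi : ∀ k < n, Real.pi ≤ rv (P k).hi)
    (hord : ∀ k, k + 1 < n → ordOK fuel (P k :: t k) (P (k + 1) :: t (k + 1)) = true)
    (htop : topOK R0 (P (n - 1) :: t (n - 1)) = true)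
    (hup : pairOK (P (n - 1)) (cst U (P (n - 1))) = true) (hpi : rv (P (n - 1)).lo ≤ Real.pi) :
    ∃ ZZ : ℕ → ℝ → ℂ, Sys (rv R0) (Icc (rv lo) Real.pi) n ZZ ∧ Real.pi ∈ Icc (rv lo) Real.pi ∧ Compl n ZZ Real.pi ∧
      ∀ k < n, ∀ x ∈ P k :: t k, ∀ α ∈ Icc (rv x.lo) (rv x.hi), ZZ k α = x.z α := by
  choose Z hZ using fun (k : ℕ) (hk : k < n) => chain_branch (t k) (P k) (hT k hk) (hC k hk)
  set ZZ : ℕ → ℝ → ℂ := fun k => if hk : k < n then Z k hk else 0 with hZZ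
  have eZ : ∀ k (hk : k < n), ZZ k = Z k hk := fun k hk => by
    rw [hZZ]
    simp only [hk, dif_pos]
  have hB : ∀ k < n, Branch (Icc (rv lo) Real.pi) (ZZ k) := fun k hk => by
    rw [eZ k hk]
    refine (hZ k hk).1.mono (Icc_subset_Icc ?_ (hhi k hk))
    rw [hlo k hk]
  have hval : ∀ k < n, ∀ x ∈ P k :: t k, ∀ α ∈ Icc (rv x.lo) (rv x.hi), ZZ k α = x.z α := fun k hk x hx α hα => by
    rw [eZ k hk]
    exact (hZ k hk).2 x hx α hα
  have hlopi : rv lo ≤ Real.pi := by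
    have h1 := lastLo_le (t (n - 1)) (P (n - 1)) (hC (n - 1) (by omega)) (P (n - 1)) List.mem_cons_self
    rw [hlo (n - 1) (by omega)] at h1
    exact (rv_le.2 h1.1).trans hpi
  have hlt : ∀ k, k + 1 < n → ∀ α ∈ Icc (rv lo) Real.pi, ‖ZZ k α‖ < ‖ZZ (k + 1) α‖ := by
    intro k hk α hα
    obtain ⟨x, hx, y, hy, hxα, hyα, hxy⟩ := ordOK_spec fuel (t k) (P k) (t (k + 1)) (P (k + 1)) (hC k (by omega))
      (hC (k + 1) hk) (fun x hx => (hT k (by omega) x hx).c_ne) (fun x hx => (hT (k + 1) hk x hx).c_ne) (hord k hk) α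
      (hα.2.trans (hhi k (by omega))) (hα.2.trans (hhi (k + 1) hk)) (by rw [hlo k (by omega)]; exact hα.1)
      (by rw [hlo (k + 1) hk]; exact hα.1)
    rw [hval k (by omega) x hx α hxα, hval (k + 1) hk y hy α hyα]
    exact (IsTube.norm_le (hT k (by omega) x hx) (Pc.abs_le hxα)).trans_lt
      (hxy.trans_le (IsTube.le_norm (hT (k + 1) hk y hy) (Pc.abs_le hyα)))
  have hpiI : Real.pi ∈ Icc (rv lo) Real.pi := ⟨hlopi, le_rfl⟩
  have hP : Compl n ZZ Real.pi := by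
    refine compl_pi hn ZZ (fun k hk => (hB k hk).zero _ hpiI) (fun k hk => hlt k hk _ hpiI) ?_
    have h1 : Real.pi ∈ Icc (rv (P (n - 1)).lo) (rv (P (n - 1)).hi) := ⟨hpi, hhi _ (by omega)⟩
    rw [hval (n - 1) (by omega) _ List.mem_cons_self _ h1]
    refine (up_spec hU (hT _ (by omega) _ List.mem_cons_self) hup h1).trans_le (hU2.trans ?_)
    have := Real.pi_gt_d2
    have h2 : (0 : ℝ) < 2 * n + 1 := by positivity
    nlinarith
  have htop' : ∀ α ∈ Icc (rv lo) Real.pi, rv R0 ≤ ‖ZZ (n - 1) α‖ := by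
    intro α hα
    have hk : n - 1 < n := by omega
    obtain ⟨x, hx, hxα⟩ := chain_mem (t (n - 1)) (P (n - 1)) (hC _ hk) α (by rw [hlo _ hk]; exact hα.1)
      (hα.2.trans (hhi _ hk))
    rw [hval _ hk x hx α hxα]
    unfold topOK at htop
    rw [List.all_eq_true] at htop
    exact top_spec hR (hT _ hk x hx) (htop x hx) hxα
  exact ⟨ZZ, ⟨hn, hB, hlt, htop'⟩, hpiI, hP, hval⟩

end SokalFU
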