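import Pool.Agent.Lib_MP_af4de1_fu.Tub

/-!
# The continuation lemma

If `Dist α r` holds for all `r ≥ R0`, the zeros of a box of tubes are all zeros of modulus `< |z_K|`, as soon as this
is true at one point of the box.
-/

set_option autoImplicit false

namespace SokalFU

open Filter Topology Set SokalF

/-! ### Hurwitz -/

theorem tendstoLocally {αn : ℕ → ℝ} {α : ℝ} (hα : Tendsto αn atTop (𝓝 α)) :
    TendstoLocallyUniformlyOn (fun n => F (qa (αn n))) (F (qa α)) atTop univ := by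
  rw [tendstoLocallyUniformlyOn_iff_forall_isCompact isOpen_univ]
  intro k _ hk
  rw [Metric.tendstoUniformlyOn_iff]
  intro ε hε
  have hf : ContinuousOn (Function.uncurry fun (x : ℝ) (z : ℂ) => F (qa x) z) (univ ×ˢ k) :=
    continuous_Fqa.continuousOn
  obtain ⟨v, hv, hv2⟩ := hk.mem_uniformity_of_prod hf (mem_univ α) (Metric.dist_mem_uniformity hε)
  rw [nhdsWithin_univ] at hv
  filter_upwards [hα hv] with n hn x hx
  have := hv2 (αn n) hn x hx
  rw [dist_comm]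
  exact this

theorem exists_near {αn : ℕ → ℝ} {α : ℝ} (hα : Tendsto αn atTop (𝓝 α)) {w : ℂ} (hw : F (qa α) w = 0) (N : ℕ) {ε : ℝ}
    (hε : 0 < ε) : ∃ n, N ≤ n ∧ ∃ u : ℂ, dist u w < ε ∧ F (qa (αn n)) u = 0 := by
  have h := SokalRay.hurwitz (G := F (qa α)) (H := fun n => F (qa (αn n))) (SokalRay.differentiable_F (norm_qa α).le)
    (fun n => SokalRay.differentiable_F (norm_qa _).le) (tendstoLocally hα) (by rw [F_zero]; exact one_ne_zero) hw
  have h2 : ∀ᶠ p : ℕ × ℂ in atTop ×ˢ 𝓝 w, N ≤ p.1 ∧ dist p.2 w < ε :=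
    (eventually_ge_atTop N).prod_mk (Metric.ball_mem_nhds w hε)
  obtain ⟨p, hp, hp1, hp2⟩ := (h.and_eventually h2).exists
  exact ⟨p.1, hp1, p.2, hp2, hp⟩

/-! ### The zero of a tube -/

/-- the zero in a tube -/
noncomputable def zf (a : ℝ) (c lam : ℂ) (η' α : ℝ) : ℂ :=
  tp c lam (α - a) (Classical.epsilon fun h => ‖h‖ ≤ η' ∧ F (qa α) (tp c lam (α - a) h) = 0)

section

variable {a δ : ℝ} {c lam : ℂ} {η' η : ℝ}

theorem IsTube.spec (T : IsTube a δ c lam η' η) {α : ℝ} (hα : |α - a| ≤ δ) :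
    ∃ h : ℂ, ‖h‖ ≤ η' ∧ F (qa α) (tp c lam (α - a) h) = 0 ∧ zf a c lam η' α = tp c lam (α - a) h := by
  have h1 := T.ex (α - a) hα
  rw [add_sub_cancel] at h1
  have h2 := Classical.epsilon_spec h1
  exact ⟨_, h2.1, h2.2, rfl⟩

theorem IsTube.zero (T : IsTube a δ c lam η' η) {α : ℝ} (hα : |α - a| ≤ δ) : F (qa α) (zf a c lam η' α) = 0 := by
  obtain ⟨h, _, h2, h3⟩ := T.spec hα
  rw [h3]
  exact h2

theorem IsTube.simple' (T : IsTube a δ c lam η' η) {α : ℝ} (hα : |α - a| ≤ δ) :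
    deriv (F (qa α)) (zf a c lam η' α) ≠ 0 := by
  obtain ⟨h, h1, h2, h3⟩ := T.spec hα
  rw [h3]
  have := T.simple (α - a) hα h (h1.trans T.lt.le)
  rw [add_sub_cancel] at this
  exact this h2

theorem IsTube.eq_zf (T : IsTube a δ c lam η' η) {α : ℝ} (hα : |α - a| ≤ δ) {h : ℂ} (hh : ‖h‖ ≤ η)
    (h0 : F (qa α) (tp c lam (α - a) h) = 0) : tp c lam (α - a) h = zf a c lam η' α := by
  obtain ⟨h', h1, h2, h3⟩ := T.spec hα
  have := T.uniq (α - a) hα h h' hh (h1.trans T.lt.le)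
  rw [add_sub_cancel] at this
  rw [h3, this h0 h2]

theorem tp_ne_zero (hc : c ≠ 0) (s : ℝ) (h : ℂ) : tp c lam s h ≠ 0 := mul_ne_zero hc (Complex.exp_ne_zero _)

theorem norm_tp (s : ℝ) (h : ℂ) : ‖tp c lam s h‖ = ‖c‖ * Real.exp (lam.re * s + h.re) := by
  unfold tp
  rw [norm_mul, Complex.norm_exp]
  simp

theorem IsTube.norm_le (T : IsTube a δ c lam η' η) {α : ℝ} (hα : |α - a| ≤ δ) :
    ‖zf a c lam η' α‖ ≤ ‖c‖ * Real.exp (lam.re * (α - a) + η') := by
  obtain ⟨h, h1, _, h3⟩ := T.spec hα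
  rw [h3, norm_tp]
  have h4 : h.re ≤ η' := (Complex.re_le_norm h).trans h1
  gcongr

theorem IsTube.le_norm (T : IsTube a δ c lam η' η) {α : ℝ} (hα : |α - a| ≤ δ) :
    ‖c‖ * Real.exp (lam.re * (α - a) - η') ≤ ‖zf a c lam η' α‖ := by
  obtain ⟨h, h1, _, h3⟩ := T.spec hα
  rw [h3, norm_tp]
  have h4 : -η' ≤ h.re := by
    have := (Complex.abs_re_le_norm h).trans h1
    linarith [neg_abs_le h.re]
  have h5 : lam.re * (α - a) - η' ≤ lam.re * (α - a) + h.re := by linarith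
  gcongr

/-- zeros near the zero of the tube are the zero of the tube -/
theorem IsTube.loc (T : IsTube a δ c lam η' η) {αn : ℕ → ℝ} {α : ℝ} (hαn : ∀ n, |αn n - a| ≤ δ) (hα : |α - a| ≤ δ)
    (hlim : Tendsto αn atTop (𝓝 α)) {wn : ℕ → ℂ} (hw : Tendsto wn atTop (𝓝 (zf a c lam η' α)))
    (h0 : ∀ n, F (qa (αn n)) (wn n) = 0) : ∀ᶠ n in atTop, wn n = zf a c lam η' (αn n) := by
  obtain ⟨h, h1, h2, h3⟩ := T.spec hα
  have hz : zf a c lam η' α ≠ 0 := by
    rw [h3]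
    exact tp_ne_zero T.c_ne _ _
  set z := zf a c lam η' α with hzd
  have hq : Tendsto (fun n => wn n / z) atTop (𝓝 1) := by
    have := hw.div_const z
    rwa [div_self hz] at this
  have hlog : Tendsto (fun n => Complex.log (wn n / z)) atTop (𝓝 0) := by
    have := (continuousAt_clog (x := (1 : ℂ)) (by simp)).tendsto.comp hq
    rwa [Complex.log_one] at this
  have hξ : Tendsto (fun n => h + Complex.log (wn n / z) - lam * ((αn n - α : ℝ) : ℂ)) atTop (𝓝 h) := by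
    have h4 : Tendsto (fun n => ((αn n - α : ℝ) : ℂ)) atTop (𝓝 0) := by
      have : Tendsto (fun n => αn n - α) atTop (𝓝 0) := by
        have := hlim.sub_const α
        rwa [sub_self] at this
      have h5 := (Complex.continuous_ofReal.tendsto 0).comp this
      rw [Complex.ofReal_zero] at h5
      exact h5
    have h6 := (hlog.const_add h).sub (h4.const_mul lam)
    simpa using h6
  have hη : ∀ᶠ n in atTop, ‖h + Complex.log (wn n / z) - lam * ((αn n - α : ℝ) : ℂ)‖ < η :=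
    hξ.norm.eventually (gt_mem_nhds (lt_of_le_of_lt h1 T.lt))
  have hne : ∀ᶠ n in atTop, wn n / z ≠ 0 := hq.eventually_ne one_ne_zero
  filter_upwards [hη, hne] with n hn1 hn2
  have e : wn n = tp c lam (αn n - a) (h + Complex.log (wn n / z) - lam * ((αn n - α : ℝ) : ℂ)) := by
    have e1 : wn n = z * Complex.exp (Complex.log (wn n / z)) := by
      rw [Complex.exp_log hn2, mul_div_cancel₀ _ hz]
    obtain ⟨L, hL⟩ : ∃ L, L = Complex.log (wn n / z) := ⟨_, rfl⟩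
    rw [← hL] at e1 ⊢
    rw [e1, h3]
    unfold tp
    rw [mul_assoc, ← Complex.exp_add]
    congr 2
    push_cast
    ring
  rw [e]
  refine T.eq_zf (hαn n) hn1.le ?_
  rw [← e]
  exact h0 n

theorem IsTube.cont (T : IsTube a δ c lam η' η) {αn : ℕ → ℝ} {α : ℝ} (hαn : ∀ n, |αn n - a| ≤ δ) (hα : |α - a| ≤ δ)
    (hlim : Tendsto αn atTop (𝓝 α)) : Tendsto (fun n => zf a c lam η' (αn n)) atTop (𝓝 (zf a c lam η' α)) := by
  choose h h1 h2 h3 using fun n => T.spec (hαn n)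
  refine tendsto_of_subseq_tendsto fun ns hns => ?_
  obtain ⟨g, -, ms, hms, hg⟩ := (isCompact_closedBall (0 : ℂ) η').tendsto_subseq
    (x := fun n => h (ns n)) (fun n => by rw [mem_closedBall_zero_iff]; exact h1 _)
  refine ⟨ms, ?_⟩
  have hgn : ‖g‖ ≤ η' := by
    refine le_of_tendsto hg.norm (.of_forall fun n => h1 _)
  have hlim' : Tendsto (fun n => αn (ns (ms n))) atTop (𝓝 α) := hlim.comp (hns.comp hms.tendsto_atTop)
  have htp : Tendsto (fun n => tp c lam (αn (ns (ms n)) - a) (h (ns (ms n)))) atTop (𝓝 (tp c lam (α - a) g)) := by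
    unfold tp
    refine Tendsto.const_mul _ ((Complex.continuous_exp.tendsto _).comp ?_)
    refine Tendsto.add (Tendsto.const_mul _ ?_) hg
    exact (Complex.continuous_ofReal.tendsto _).comp (hlim'.sub_const a)
  have h0 : F (qa α) (tp c lam (α - a) g) = 0 := tendsto_zero hlim' htp (fun n => h2 _)
  rw [← T.eq_zf hα (hgn.trans T.lt.le) h0]
  refine htp.congr fun n => ?_
  rw [h3]

end

/-! ### Boxes -/

/-- the zeros of modulus less than `|Z (K - 1)|` are `Z 0, ..., Z (K - 2)` -/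
def Compl (K : ℕ) (Z : ℕ → ℝ → ℂ) (α : ℝ) : Prop :=
  ∀ w : ℂ, F (qa α) w = 0 → ‖w‖ < ‖Z (K - 1) α‖ → ∃ k < K - 1, w = Z k α

section

variable {R0 a δ : ℝ} {K : ℕ} {c lam : ℕ → ℂ} {η' η : ℕ → ℝ}

theorem IsBox.lt_succ (B : IsBox R0 a δ K c lam η' η) {α : ℝ} (hα : |α - a| ≤ δ) {k : ℕ} (hk : k + 1 < K) :
    ‖zf a (c k) (lam k) (η' k) α‖ < ‖zf a (c (k + 1)) (lam (k + 1)) (η' (k + 1)) α‖ :=
  ((B.tube k (by omega)).norm_le hα).trans_lt
    ((B.ord k hk (α - a) hα).trans_le ((B.tube (k + 1) hk).le_norm hα))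

theorem IsBox.lt (B : IsBox R0 a δ K c lam η' η) {α : ℝ} (hα : |α - a| ≤ δ) {j k : ℕ} (hjk : j < k) (hk : k < K) :
    ‖zf a (c j) (lam j) (η' j) α‖ < ‖zf a (c k) (lam k) (η' k) α‖ := by
  induction k, hjk using Nat.le_induction with
  | base => exact B.lt_succ hα hk
  | succ k _ ih => exact (ih (by omega)).trans (B.lt_succ hα hk)

theorem IsBox.le_top (B : IsBox R0 a δ K c lam η' η) {α : ℝ} (hα : |α - a| ≤ δ) :
    R0 ≤ ‖zf a (c (K - 1)) (lam (K - 1)) (η' (K - 1)) α‖ :=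
  (B.top (α - a) hα).trans ((B.tube (K - 1) (by have := B.pos; omega)).le_norm hα)

/-- openness -/
theorem IsBox.open' (B : IsBox R0 a δ K c lam η' η) (H : ∀ α : ℝ, |α - a| ≤ δ → ∀ r, R0 ≤ r → Dist α r)
    {αn : ℕ → ℝ} {α : ℝ} (hαn : ∀ n, |αn n - a| ≤ δ) (hα : |α - a| ≤ δ) (hlim : Tendsto αn atTop (𝓝 α))
    (hP : Compl K (fun k => zf a (c k) (lam k) (η' k)) α) :
    ∃ n, Compl K (fun k => zf a (c k) (lam k) (η' k)) (αn n) := by
  by_contra hcon
  push Not at hcon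
  unfold Compl at hcon
  push Not at hcon
  choose w hw0 hwlt hwne using hcon
  have hKK : K - 1 < K := by have := B.pos; omega
  have hZlim := (B.tube (K - 1) hKK).cont hαn hα hlim
  have hbd : Bornology.IsBounded (Set.range fun n => zf a (c (K - 1)) (lam (K - 1)) (η' (K - 1)) (αn n)) :=
    Metric.isBounded_range_of_tendsto _ hZlim
  obtain ⟨C, hC⟩ := hbd.exists_norm_le
  obtain ⟨g, -, ms, hms, hg⟩ := (isCompact_closedBall (0 : ℂ) C).tendsto_subseq
    (x := w) (fun n => by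
      rw [mem_closedBall_zero_iff]
      exact (hwlt n).le.trans (hC _ ⟨n, rfl⟩))
  have hlim' : Tendsto (fun n => αn (ms n)) atTop (𝓝 α) := hlim.comp hms.tendsto_atTop
  have hg0 : F (qa α) g = 0 := tendsto_zero hlim' hg (fun n => hw0 _)
  have hgle : ‖g‖ ≤ ‖zf a (c (K - 1)) (lam (K - 1)) (η' (K - 1)) α‖ :=
    le_of_tendsto_of_tendsto hg.norm (hZlim.comp hms.tendsto_atTop).norm (.of_forall fun n => (hwlt _).le)
  rcases hgle.lt_or_eq with h | h
  · obtain ⟨k, hk, hgk⟩ := hP g hg0 h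
    rw [hgk] at hg
    obtain ⟨n, hn⟩ := ((B.tube k (by omega)).loc (fun n => hαn _) hα hlim' hg (fun n => hw0 _)).exists
    exact hwne (ms n) k hk hn
  · have hD := H α hα _ (B.le_top hα) _ rfl ((B.tube (K - 1) hKK).zero hα)
    have hgk := hD.2 g h hg0
    rw [hgk] at hg
    obtain ⟨n, hn⟩ := ((B.tube (K - 1) hKK).loc (fun n => hαn _) hα hlim' hg (fun n => hw0 _)).exists
    have h5 := hwlt (ms n)
    simp only [Function.comp] at hn
    rw [hn] at h5
    exact lt_irrefl _ h5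

/-- closedness -/
theorem IsBox.closed' (B : IsBox R0 a δ K c lam η' η)
    {αn : ℕ → ℝ} {α : ℝ} (hαn : ∀ n, |αn n - a| ≤ δ) (hα : |α - a| ≤ δ) (hlim : Tendsto αn atTop (𝓝 α))
    (hP : ∀ n, Compl K (fun k => zf a (c k) (lam k) (η' k)) (αn n)) :
    Compl K (fun k => zf a (c k) (lam k) (η' k)) α := by
  intro w hw hlt
  have hKK : K - 1 < K := by have := B.pos; omega
  -- zeros of the approximants near `w`
  have hex : ∀ m : ℕ, ∃ n, m ≤ n ∧ ∃ u : ℂ, dist u w < 1 / ((m : ℝ) + 1) ∧ F (qa (αn n)) u = 0 := fun m =>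
    exists_near hlim hw m (by positivity)
  choose ν hν u hu hu0 using hex
  have hνlim : Tendsto ν atTop atTop := tendsto_atTop_mono hν tendsto_id
  have hulim : Tendsto u atTop (𝓝 w) := by
    rw [tendsto_iff_dist_tendsto_zero]
    exact squeeze_zero (fun _ => dist_nonneg) (fun m => (hu m).le) tendsto_one_div_add_atTop_nhds_zero_nat
  have hlim' : Tendsto (fun m => αn (ν m)) atTop (𝓝 α) := hlim.comp hνlim
  have hZlim := (B.tube (K - 1) hKK).cont (fun m => hαn (ν m)) hα hlim'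
  have hev : ∀ᶠ m in atTop, ‖u m‖ < ‖zf a (c (K - 1)) (lam (K - 1)) (η' (K - 1)) (αn (ν m))‖ :=
    hulim.norm.eventually_lt hZlim.norm hlt
  have hev2 : ∀ᶠ m in atTop, ∃ k < K - 1, u m = zf a (c k) (lam k) (η' k) (αn (ν m)) := by
    filter_upwards [hev] with m hm
    exact hP (ν m) (u m) (hu0 m) hm
  -- pigeonhole
  have hfr : ∃ k < K - 1, ∃ᶠ m in atTop, u m = zf a (c k) (lam k) (η' k) (αn (ν m)) := by
    by_contra hcon
    push Not at hcon
    have h1 : ∀ᶠ m in atTop, ∀ k < K - 1, ¬ (u m = zf a (c k) (lam k) (η' k) (αn (ν m))) := by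
      have : ∀ᶠ m in atTop, ∀ k ∈ Finset.range (K - 1), ¬ (u m = zf a (c k) (lam k) (η' k) (αn (ν m))) := by
        rw [Filter.eventually_all_finset]
        intro k hk
        exact hcon k (Finset.mem_range.1 hk)
      filter_upwards [this] with m hm k hk
      exact hm k (Finset.mem_range.2 hk)
    obtain ⟨m, hm1, hm2⟩ := (hev2.and h1).exists
    obtain ⟨k, hk, hku⟩ := hm1
    exact hm2 k hk hku
  obtain ⟨k, hk, hfr⟩ := hfr
  refine ⟨k, hk, ?_⟩
  obtain ⟨φ, hφ, hφ2⟩ := extraction_of_frequently_atTop hfr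
  have h1 : Tendsto (fun n => u (φ n)) atTop (𝓝 w) := hulim.comp hφ.tendsto_atTop
  have h2 := (B.tube k (by omega)).cont (fun m => hαn (ν (φ m))) hα (hlim'.comp hφ.tendsto_atTop)
  refine tendsto_nhds_unique h1 ?_
  refine h2.congr fun n => ?_
  exact (hφ2 n).symm

/-- **Continuation inside a box.** -/
theorem IsBox.continue (B : IsBox R0 a δ K c lam η' η) (H : ∀ α : ℝ, |α - a| ≤ δ → ∀ r, R0 ≤ r → Dist α r)
    {α₀ : ℝ} (hα₀ : |α₀ - a| ≤ δ) (hP : Compl K (fun k => zf a (c k) (lam k) (η' k)) α₀) {α : ℝ} (hα : |α - a| ≤ δ) :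
    Compl K (fun k => zf a (c k) (lam k) (η' k)) α := by
  have hI : IsPreconnected (Metric.closedBall a δ) := (convex_closedBall a δ).isPreconnected
  have : PreconnectedSpace (Metric.closedBall a δ) := Subtype.preconnectedSpace hI
  have hmem : ∀ x : Metric.closedBall a δ, |(x : ℝ) - a| ≤ δ := fun x => by
    have := x.2
    rwa [Metric.mem_closedBall, Real.dist_eq] at this
  set S : Set (Metric.closedBall a δ) := {x | Compl K (fun k => zf a (c k) (lam k) (η' k)) x} with hS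
  have hcl : IsClosed S := by
    refine IsSeqClosed.isClosed ?_
    intro xn x hxn hx
    exact B.closed' (fun n => hmem (xn n)) (hmem x) ((continuous_subtype_val.tendsto x).comp hx) hxn
  have hop : IsOpen S := by
    rw [← isClosed_compl_iff]
    refine IsSeqClosed.isClosed ?_
    intro xn x hxn hx hxS
    obtain ⟨n, hn⟩ := B.open' H (fun n => hmem (xn n)) (hmem x) ((continuous_subtype_val.tendsto x).comp hx) hxS
    exact hxn n hn
  have h0 : (⟨α₀, by rwa [Metric.mem_closedBall, Real.dist_eq]⟩ : Metric.closedBall a δ) ∈ S := hP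
  have huniv : S = univ := IsClopen.eq_univ ⟨hcl, hop⟩ ⟨_, h0⟩
  have : (⟨α, by rwa [Metric.mem_closedBall, Real.dist_eq]⟩ : Metric.closedBall a δ) ∈ S := by
    rw [huniv]
    exact mem_univ _
  exact this

/-- The result of a box. -/
theorem IsBox.dist (B : IsBox R0 a δ K c lam η' η) (H : ∀ α : ℝ, |α - a| ≤ δ → ∀ r, R0 ≤ r → Dist α r)
    {α : ℝ} (hα : |α - a| ≤ δ) (hP : Compl K (fun k => zf a (c k) (lam k) (η' k)) α) {r : ℝ} (hr : r ≤ R0) :
    Dist α r := by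
  rcases hr.lt_or_eq with hr | hr
  · intro z hz hz0
    have hlt : ∀ w : ℂ, ‖w‖ = r → ‖w‖ < ‖zf a (c (K - 1)) (lam (K - 1)) (η' (K - 1)) α‖ := fun w hw => by
      rw [hw]
      exact hr.trans_le (B.le_top hα)
    obtain ⟨k, hk, hzk⟩ := hP z hz0 (hlt z hz)
    refine ⟨?_, fun w hw hw0 => ?_⟩
    · rw [hzk]
      exact (B.tube k (by omega)).simple' hα
    · obtain ⟨j, hj, hwj⟩ := hP w hw0 (hlt w hw)
      have hn : ‖zf a (c j) (lam j) (η' j) α‖ = ‖zf a (c k) (lam k) (η' k) α‖ := by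
        have h1 : ‖w‖ = ‖z‖ := hw.trans hz.symm
        rwa [hwj, hzk] at h1
      have hjk : j = k := by
        rcases lt_trichotomy j k with h | h | h
        · exact absurd hn (B.lt hα h (by omega)).ne
        · exact h
        · exact absurd hn.symm (B.lt hα h (by omega)).ne
      rw [hwj, hzk, hjk]
  · rw [hr]
    exact H α hα R0 le_rfl

end

/-! ### Junctions -/

theorem IsTube.link {a δ : ℝ} {c lam : ℂ} {η' η : ℝ} (T : IsTube a δ c lam η' η) {a₁ δ₁ : ℝ} {c₁ lam₁ : ℂ} {η₁' η₁ : ℝ}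
    (T₁ : IsTube a₁ δ₁ c₁ lam₁ η₁' η₁) {α : ℝ} (hα : |α - a| ≤ δ) (hα₁ : |α - a₁| ≤ δ₁) (μ : ℂ)
    (hμ : c₁ = c * Complex.exp μ) (hle : ‖μ + lam₁ * ((α - a₁ : ℝ) : ℂ) - lam * ((α - a : ℝ) : ℂ)‖ + η₁' ≤ η) :
    zf a₁ c₁ lam₁ η₁' α = zf a c lam η' α := by
  obtain ⟨h, h1, h2, h3⟩ := T₁.spec hα₁
  have e : tp c₁ lam₁ (α - a₁) h =
      tp c lam (α - a) (μ + lam₁ * ((α - a₁ : ℝ) : ℂ) - lam * ((α - a : ℝ) : ℂ) + h) := by
    unfold tp
    rw [hμ, mul_assoc, ← Complex.exp_add]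
    congr 2
    ring
  rw [h3, e]
  rw [e] at h2
  refine T.eq_zf hα ?_ h2
  exact (norm_add_le _ _).trans (le_trans (by linarith) hle)

/-- the completeness statement passes to the next box -/
theorem Compl.link {R0 a δ : ℝ} {K : ℕ} {c lam : ℕ → ℂ} {η' η : ℕ → ℝ} (B : IsBox R0 a δ K c lam η' η)
    {a₁ δ₁ : ℝ} {K₁ : ℕ} {c₁ lam₁ : ℕ → ℂ} {η₁' η₁ : ℕ → ℝ} (B₁ : IsBox R0 a₁ δ₁ K₁ c₁ lam₁ η₁' η₁)
    {α : ℝ} (hα : |α - a| ≤ δ) (hP : Compl K (fun k => zf a (c k) (lam k) (η' k)) α)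
    (hK : K₁ ≤ K) (heq : ∀ k < K₁, zf a₁ (c₁ k) (lam₁ k) (η₁' k) α = zf a (c k) (lam k) (η' k) α) :
    Compl K₁ (fun k => zf a₁ (c₁ k) (lam₁ k) (η₁' k)) α := by
  intro w hw hlt
  have h0 := B₁.pos
  simp only at hlt
  rw [heq (K₁ - 1) (by omega)] at hlt
  have hle : ‖zf a (c (K₁ - 1)) (lam (K₁ - 1)) (η' (K₁ - 1)) α‖ ≤
      ‖zf a (c (K - 1)) (lam (K - 1)) (η' (K - 1)) α‖ := by
    rcases (show K₁ - 1 ≤ K - 1 by omega).lt_or_eq with h | h
    · exact (B.lt hα h (by omega)).le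
    · rw [h]
  obtain ⟨k, hk, hwk⟩ := hP w hw (hlt.trans_le hle)
  have hkK : k < K₁ - 1 := by
    by_contra hcon
    have hk1 : K₁ - 1 ≤ k := by omega
    rw [hwk] at hlt
    rcases hk1.lt_or_eq with h | h
    · exact absurd hlt (not_lt.2 (B.lt hα h (by omega)).le)
    · rw [h] at hlt
      exact lt_irrefl _ hlt
  refine ⟨k, hkK, ?_⟩
  simp only
  rw [heq k (by omega)]
  exact hwk

end SokalFU
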