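import Pool.Agent.Lib_MP_af4de1_fu.Cont3

/-!
# Branches of zeros and the continuation lemma in abstract form

`Branch I Z`: `Z` is a continuous branch of simple zeros of `F(·; e^(iα))` over `α ∈ I`, locally unique.
-/

set_option autoImplicit false

namespace SokalFU

open Filter Topology Set SokalF

/-- a continuous branch of simple, locally unique zeros over `I` -/
structure Branch (I : Set ℝ) (Z : ℝ → ℂ) : Prop where
  zero : ∀ α ∈ I, F (qa α) (Z α) = 0
  simple : ∀ α ∈ I, deriv (F (qa α)) (Z α) ≠ 0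
  cont : ContinuousOn Z I
  loc : ∀ α ∈ I, ∀ᶠ p : ℝ × ℂ in 𝓝 (α, Z α), p.1 ∈ I → F (qa p.1) p.2 = 0 → p.2 = Z p.1

theorem Branch.mono {I J : Set ℝ} {Z : ℝ → ℂ} (B : Branch I Z) (h : J ⊆ I) : Branch J Z where
  zero := fun α hα => B.zero α (h hα)
  simple := fun α hα => B.simple α (h hα)
  cont := B.cont.mono h
  loc := fun α hα => (B.loc α (h hα)).mono fun _ hp hpJ => hp (h hpJ)

theorem Branch.congr {I : Set ℝ} {Z Z' : ℝ → ℂ} (B : Branch I Z) (h : ∀ α ∈ I, Z' α = Z α) : Branch I Z' where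
  zero := fun α hα => by rw [h α hα]; exact B.zero α hα
  simple := fun α hα => by rw [h α hα]; exact B.simple α hα
  cont := B.cont.congr h
  loc := fun α hα => by
    rw [h α hα]
    refine (B.loc α hα).mono fun p hp hpI h0 => ?_
    rw [h _ hpI]
    exact hp hpI h0

/-- the zero of a tube is a branch -/
theorem IsTube.branch {a δ : ℝ} {c lam : ℂ} {η' η : ℝ} (T : IsTube a δ c lam η' η) :
    Branch (Icc (a - δ) (a + δ)) (zf a c lam η') := by
  have hI : ∀ α, α ∈ Icc (a - δ) (a + δ) → |α - a| ≤ δ := fun α hα => by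
    rw [abs_le]
    constructor <;> linarith [hα.1, hα.2]
  refine ⟨fun α hα => T.zero (hI α hα), fun α hα => T.simple' (hI α hα), ?_, ?_⟩
  · rw [continuousOn_iff_continuous_restrict]
    refine SeqContinuous.continuous ?_
    intro xn x hx
    exact T.cont (fun n => hI _ (xn n).2) (hI _ x.2) ((continuous_subtype_val.tendsto x).comp hx)
  · intro α hα
    by_contra hcon
    have hcon2 : ∃ᶠ p : ℝ × ℂ in 𝓝 (α, zf a c lam η' α), p.1 ∈ Icc (a - δ) (a + δ) ∧ F (qa p.1) p.2 = 0 ∧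
        p.2 ≠ zf a c lam η' p.1 := by
      rw [Filter.Frequently]
      intro h
      apply hcon
      filter_upwards [h] with p hp h1 h2
      by_contra h3
      exact hp ⟨h1, h2, h3⟩
    obtain ⟨pn, hpn, hpn2⟩ := exists_seq_forall_of_frequently hcon2
    have h1 : Tendsto (fun n => (pn n).1) atTop (𝓝 α) := (continuous_fst.tendsto _).comp hpn
    have h2 : Tendsto (fun n => (pn n).2) atTop (𝓝 (zf a c lam η' α)) := (continuous_snd.tendsto _).comp hpn
    obtain ⟨n, hn⟩ := (T.loc (fun n => hI _ (hpn2 n).1) (hI _ hα) h1 h2 (fun n => (hpn2 n).2.1)).exists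
    exact (hpn2 n).2.2 hn

/-- glueing of two branches at a common end point -/
theorem Branch.glue {a b c : ℝ} {Z₁ Z₂ : ℝ → ℂ} (hab : a ≤ b) (hbc : b ≤ c) (B₁ : Branch (Icc a b) Z₁)
    (B₂ : Branch (Icc b c) Z₂) (h : Z₁ b = Z₂ b) : Branch (Icc a c) (fun α => if α ≤ b then Z₁ α else Z₂ α) := by
  set Z : ℝ → ℂ := fun α => if α ≤ b then Z₁ α else Z₂ α with hZ
  have e1 : ∀ α, α ≤ b → Z α = Z₁ α := fun α hα => if_pos hα
  have e2 : ∀ α, b ≤ α → Z α = Z₂ α := fun α hα => by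
    rcases hα.lt_or_eq with h1 | h1
    · exact if_neg (not_le.2 h1)
    · rw [← h1, e1 b le_rfl, h]
  have C₁ : Branch (Icc a b) Z := B₁.congr fun α hα => e1 α hα.2
  have C₂ : Branch (Icc b c) Z := B₂.congr fun α hα => e2 α hα.1
  have hcov : ∀ α ∈ Icc a c, α ∈ Icc a b ∨ α ∈ Icc b c := fun α hα => by
    rcases le_total α b with h1 | h1
    · exact Or.inl ⟨hα.1, h1⟩
    · exact Or.inr ⟨h1, hα.2⟩
  refine ⟨?_, ?_, ?_, ?_⟩
  · intro α hα
    rcases hcov α hα with h1 | h1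
    · exact C₁.zero α h1
    · exact C₂.zero α h1
  · intro α hα
    rcases hcov α hα with h1 | h1
    · exact C₁.simple α h1
    · exact C₂.simple α h1
  · rw [← Icc_union_Icc_eq_Icc hab hbc]
    exact C₁.cont.union_of_isClosed C₂.cont isClosed_Icc isClosed_Icc
  · intro α hα
    have k1 : ∀ᶠ p : ℝ × ℂ in 𝓝 (α, Z α), p.1 ∈ Icc a b → F (qa p.1) p.2 = 0 → p.2 = Z p.1 := by
      by_cases h1 : α ∈ Icc a b
      · exact C₁.loc α h1
      · have h2 : ∀ᶠ x : ℝ in 𝓝 α, x ∉ Icc a b := isClosed_Icc.isOpen_compl.mem_nhds h1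
        have h3 := (continuous_fst.tendsto (α, Z α)).eventually h2
        filter_upwards [h3] with p hp hp1
        exact absurd hp1 hp
    have k2 : ∀ᶠ p : ℝ × ℂ in 𝓝 (α, Z α), p.1 ∈ Icc b c → F (qa p.1) p.2 = 0 → p.2 = Z p.1 := by
      by_cases h1 : α ∈ Icc b c
      · exact C₂.loc α h1
      · have h2 : ∀ᶠ x : ℝ in 𝓝 α, x ∉ Icc b c := isClosed_Icc.isOpen_compl.mem_nhds h1
        have h3 := (continuous_fst.tendsto (α, Z α)).eventually h2
        filter_upwards [h3] with p hp hp1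
        exact absurd hp1 hp
    filter_upwards [k1, k2] with p hp1 hp2 hpI h0
    rcases hcov p.1 hpI with h1 | h1
    · exact hp1 h1 h0
    · exact hp2 h1 h0

/-! ### Systems of branches -/

/-- `K` branches over `I`, ordered by modulus, the last one outside `|z| < R0` -/
structure Sys (R0 : ℝ) (I : Set ℝ) (K : ℕ) (Z : ℕ → ℝ → ℂ) : Prop where
  pos : 0 < K
  branch : ∀ k < K, Branch I (Z k)
  lt : ∀ k, k + 1 < K → ∀ α ∈ I, ‖Z k α‖ < ‖Z (k + 1) α‖
  top : ∀ α ∈ I, R0 ≤ ‖Z (K - 1) α‖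

section

variable {R0 : ℝ} {I : Set ℝ} {K : ℕ} {Z : ℕ → ℝ → ℂ}

theorem Sys.lt' (S : Sys R0 I K Z) {α : ℝ} (hα : α ∈ I) {j k : ℕ} (hjk : j < k) (hk : k < K) :
    ‖Z j α‖ < ‖Z k α‖ := by
  induction k, hjk using Nat.le_induction with
  | base => exact S.lt j hk α hα
  | succ k _ ih => exact (ih (by omega)).trans (S.lt k hk α hα)

/-- openness -/
theorem Sys.open' (S : Sys R0 I K Z) (H : ∀ α ∈ I, ∀ r, R0 ≤ r → Dist α r)
    {αn : ℕ → ℝ} {α : ℝ} (hαn : ∀ n, αn n ∈ I) (hα : α ∈ I) (hlim : Tendsto αn atTop (𝓝 α))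
    (hP : Compl K Z α) : ∃ n, Compl K Z (αn n) := by
  by_contra hcon
  push Not at hcon
  unfold Compl at hcon
  push Not at hcon
  choose w hw0 hwlt hwne using hcon
  have hKK : K - 1 < K := by have := S.pos; omega
  have hlimI : Tendsto αn atTop (𝓝[I] α) := tendsto_nhdsWithin_iff.2 ⟨hlim, .of_forall hαn⟩
  have hZlim : Tendsto (fun n => Z (K - 1) (αn n)) atTop (𝓝 (Z (K - 1) α)) :=
    ((S.branch (K - 1) hKK).cont α hα).tendsto.comp hlimI
  have hbd : Bornology.IsBounded (Set.range fun n => Z (K - 1) (αn n)) :=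
    Metric.isBounded_range_of_tendsto _ hZlim
  obtain ⟨C, hC⟩ := hbd.exists_norm_le
  obtain ⟨g, -, ms, hms, hg⟩ := (isCompact_closedBall (0 : ℂ) C).tendsto_subseq
    (x := w) (fun n => by
      rw [mem_closedBall_zero_iff]
      exact (hwlt n).le.trans (hC _ ⟨n, rfl⟩))
  have hlim' : Tendsto (fun n => αn (ms n)) atTop (𝓝 α) := hlim.comp hms.tendsto_atTop
  have hg0 : F (qa α) g = 0 := tendsto_zero hlim' hg (fun n => hw0 _)
  have hgle : ‖g‖ ≤ ‖Z (K - 1) α‖ :=
    le_of_tendsto_of_tendsto hg.norm (hZlim.comp hms.tendsto_atTop).norm (.of_forall fun n => (hwlt _).le)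
  have hloc : ∀ k < K, g = Z k α → ∃ n, w (ms n) = Z k (αn (ms n)) := by
    intro k hk hgk
    rw [hgk] at hg
    have h1 : Tendsto (fun n => (αn (ms n), w (ms n))) atTop (𝓝 (α, Z k α)) := hlim'.prodMk_nhds hg
    obtain ⟨n, hn⟩ := (h1.eventually ((S.branch k hk).loc α hα)).exists
    exact ⟨n, hn (hαn _) (hw0 _)⟩
  rcases hgle.lt_or_eq with h | h
  · obtain ⟨k, hk, hgk⟩ := hP g hg0 h
    obtain ⟨n, hn⟩ := hloc k (by omega) hgk
    exact hwne (ms n) k hk hn
  · have hD := H α hα _ (S.top α hα) _ rfl ((S.branch (K - 1) hKK).zero α hα)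
    obtain ⟨n, hn⟩ := hloc (K - 1) hKK (hD.2 g h hg0)
    have h5 := hwlt (ms n)
    rw [hn] at h5
    exact lt_irrefl _ h5

/-- closedness -/
theorem Sys.closed' (S : Sys R0 I K Z) {αn : ℕ → ℝ} {α : ℝ} (hαn : ∀ n, αn n ∈ I) (hα : α ∈ I)
    (hlim : Tendsto αn atTop (𝓝 α)) (hP : ∀ n, Compl K Z (αn n)) : Compl K Z α := by
  intro w hw hlt
  have hKK : K - 1 < K := by have := S.pos; omega
  have hex : ∀ m : ℕ, ∃ n, m ≤ n ∧ ∃ u : ℂ, dist u w < 1 / ((m : ℝ) + 1) ∧ F (qa (αn n)) u = 0 := fun m =>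
    exists_near hlim hw m (by positivity)
  choose ν hν u hu hu0 using hex
  have hνlim : Tendsto ν atTop atTop := tendsto_atTop_mono hν tendsto_id
  have hulim : Tendsto u atTop (𝓝 w) := by
    rw [tendsto_iff_dist_tendsto_zero]
    exact squeeze_zero (fun _ => dist_nonneg) (fun m => (hu m).le) tendsto_one_div_add_atTop_nhds_zero_nat
  have hlim' : Tendsto (fun m => αn (ν m)) atTop (𝓝[I] α) :=
    tendsto_nhdsWithin_iff.2 ⟨hlim.comp hνlim, .of_forall fun m => hαn _⟩
  have hZlim : ∀ k < K, Tendsto (fun m => Z k (αn (ν m))) atTop (𝓝 (Z k α)) := fun k hk =>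
    ((S.branch k hk).cont α hα).tendsto.comp hlim'
  have hev : ∀ᶠ m in atTop, ‖u m‖ < ‖Z (K - 1) (αn (ν m))‖ :=
    hulim.norm.eventually_lt (hZlim (K - 1) hKK).norm hlt
  have hev2 : ∀ᶠ m in atTop, ∃ k < K - 1, u m = Z k (αn (ν m)) := by
    filter_upwards [hev] with m hm
    exact hP (ν m) (u m) (hu0 m) hm
  have hfr : ∃ k < K - 1, ∃ᶠ m in atTop, u m = Z k (αn (ν m)) := by
    by_contra hcon
    push Not at hcon
    have h1 : ∀ᶠ m in atTop, ∀ k < K - 1, ¬ (u m = Z k (αn (ν m))) := by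
      have : ∀ᶠ m in atTop, ∀ k ∈ Finset.range (K - 1), ¬ (u m = Z k (αn (ν m))) := by
        rw [Filter.eventually_all_finset]
        intro k hk
        exact hcon k (Finset.mem_range.1 hk)
      filter_upwards [this] with m hm k hk
      exact hm k (Finset.mem_range.2 hk)
    obtain ⟨m, hm1, hm2⟩ := (hev2.and h1).exists
    obtain ⟨k, hk, hku⟩ := hm1
    exact hm2 k hk hku
  obtain ⟨k, hk, hfr⟩ := hfr
  refine ⟨k, hk, ?_⟩
  obtain ⟨φ, hφ, hφ2⟩ := extraction_of_frequently_atTop hfr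
  have h1 : Tendsto (fun n => u (φ n)) atTop (𝓝 w) := hulim.comp hφ.tendsto_atTop
  have h2 := (hZlim k (by omega)).comp hφ.tendsto_atTop
  refine tendsto_nhds_unique h1 ?_
  refine h2.congr fun n => ?_
  exact (hφ2 n).symm

/-- **Continuation.** -/
theorem Sys.continue (S : Sys R0 I K Z) (hI : IsPreconnected I) (H : ∀ α ∈ I, ∀ r, R0 ≤ r → Dist α r)
    {α₀ : ℝ} (hα₀ : α₀ ∈ I) (hP : Compl K Z α₀) {α : ℝ} (hα : α ∈ I) : Compl K Z α := by
  have : PreconnectedSpace I := Subtype.preconnectedSpace hI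
  set T : Set I := {x | Compl K Z x} with hT
  have hcl : IsClosed T := by
    refine IsSeqClosed.isClosed ?_
    intro xn x hxn hx
    exact S.closed' (fun n => (xn n).2) x.2 ((continuous_subtype_val.tendsto x).comp hx) hxn
  have hop : IsOpen T := by
    rw [← isClosed_compl_iff]
    refine IsSeqClosed.isClosed ?_
    intro xn x hxn hx hxS
    obtain ⟨n, hn⟩ := S.open' H (fun n => (xn n).2) x.2 ((continuous_subtype_val.tendsto x).comp hx) hxS
    exact hxn n hn
  have h0 : (⟨α₀, hα₀⟩ : I) ∈ T := hP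
  have huniv : T = univ := IsClopen.eq_univ ⟨hcl, hop⟩ ⟨_, h0⟩
  have : (⟨α, hα⟩ : I) ∈ T := by
    rw [huniv]
    exact mem_univ _
  exact this

/-- The result on one interval. -/
theorem Sys.dist (S : Sys R0 I K Z) (H : ∀ α ∈ I, ∀ r, R0 ≤ r → Dist α r)
    {α : ℝ} (hα : α ∈ I) (hP : Compl K Z α) {r : ℝ} (hr : r ≤ R0) : Dist α r := by
  rcases hr.lt_or_eq with hr | hr
  · intro z hz hz0
    have hlt : ∀ w : ℂ, ‖w‖ = r → ‖w‖ < ‖Z (K - 1) α‖ := fun w hw => by
      rw [hw]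
      exact hr.trans_le (S.top α hα)
    obtain ⟨k, hk, hzk⟩ := hP z hz0 (hlt z hz)
    refine ⟨?_, fun w hw hw0 => ?_⟩
    · rw [hzk]
      exact (S.branch k (by omega)).simple α hα
    · obtain ⟨j, hj, hwj⟩ := hP w hw0 (hlt w hw)
      have hn : ‖Z j α‖ = ‖Z k α‖ := by
        have h1 : ‖w‖ = ‖z‖ := hw.trans hz.symm
        rwa [hwj, hzk] at h1
      have hjk : j = k := by
        rcases lt_trichotomy j k with h | h | h
        · exact absurd hn (S.lt' hα h (by omega)).ne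
        · exact h
        · exact absurd hn.symm (S.lt' hα h (by omega)).ne
      rw [hwj, hzk, hjk]
  · rw [hr]
    exact H α hα R0 le_rfl

/-- the number of branches may decrease -/
theorem Compl.drop {I₁ : Set ℝ} {K₁ : ℕ} (S : Sys R0 I K Z) {α : ℝ} (hα : α ∈ I) (hP : Compl K Z α)
    (h0 : 0 < K₁) (hK : K₁ ≤ K) : Compl K₁ Z α := by
  intro w hw hlt
  have hle : ‖Z (K₁ - 1) α‖ ≤ ‖Z (K - 1) α‖ := by
    rcases (show K₁ - 1 ≤ K - 1 by omega).lt_or_eq with h | h
    · exact (S.lt' hα h (by omega)).le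
    · rw [h]
  obtain ⟨k, hk, hwk⟩ := hP w hw (hlt.trans_le hle)
  refine ⟨k, ?_, hwk⟩
  by_contra hcon
  have hk1 : K₁ - 1 ≤ k := by omega
  rw [hwk] at hlt
  rcases hk1.lt_or_eq with h | h
  · exact absurd hlt (not_lt.2 (S.lt' hα h (by omega)).le)
  · rw [h] at hlt
    exact lt_irrefl _ hlt

end

/-- **T2.** Branches `Z 0, ..., Z (n - 1)`, `Z k` over `[lo k, b]`, `lo` monotone; `|Z k| < |Z (k + 1)|` over
`[lo (k + 1), b]`; `R0 ≤ |Z k|` over `[lo k, lo (k + 1)]`, `R0 ≤ |Z (n - 1)|` over `[lo (n - 1), b]`; completeness at `b`.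
Then `Dist α r` for all `α ∈ [lo k₀, b]`, `r ≤ R0`. -/
theorem dist_of_branches {R0 b : ℝ} {n : ℕ} (hn : 0 < n) (lo : ℕ → ℝ) (Z : ℕ → ℝ → ℂ) (k₀ : ℕ) (hk₀ : k₀ < n)
    (hlo : ∀ k, k + 1 < n → lo k ≤ lo (k + 1)) (hb : ∀ k < n, lo k ≤ b)
    (hZ : ∀ k < n, Branch (Icc (lo k) b) (Z k))
    (hlt : ∀ k, k + 1 < n → ∀ α ∈ Icc (lo (k + 1)) b, ‖Z k α‖ < ‖Z (k + 1) α‖)
    (htop : ∀ k, k₀ ≤ k → k + 1 < n → ∀ α ∈ Icc (lo k) (lo (k + 1)), R0 ≤ ‖Z k α‖)
    (htop' : ∀ α ∈ Icc (lo (n - 1)) b, R0 ≤ ‖Z (n - 1) α‖)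
    (hP : Compl n Z b) (H : ∀ α ∈ Icc (lo k₀) b, ∀ r, R0 ≤ r → Dist α r) :
    ∀ α ∈ Icc (lo k₀) b, ∀ r, r ≤ R0 → Dist α r := by
  have hmono : ∀ j k, j ≤ k → k < n → lo j ≤ lo k := by
    intro j k hjk
    induction k, hjk using Nat.le_induction with
    | base => intro _; exact le_rfl
    | succ k _ ih => intro hk; exact (ih (by omega)).trans (hlo k hk)
  -- upper end of the `k`-th interval
  have main : ∀ m, m < n - k₀ → (Compl (n - m) Z (if m = 0 then b else lo (n - m))) ∧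
      ∀ α ∈ Icc (lo (n - 1 - m)) (if m = 0 then b else lo (n - m)), Compl (n - m) Z α ∧ ∀ r, r ≤ R0 → Dist α r := by
    intro m
    have hS : ∀ m, m < n - k₀ → Sys R0 (Icc (lo (n - 1 - m)) (if m = 0 then b else lo (n - m))) (n - m) Z := by
      intro m hm
      have hup : (if m = 0 then b else lo (n - m)) ≤ b := by
        split_ifs
        · exact le_rfl
        · exact hb _ (by omega)
      refine ⟨by omega, fun k hk => ?_, fun k hk α hα => ?_, fun α hα => ?_⟩
      · refine (hZ k (by omega)).mono (Icc_subset_Icc (hmono _ _ (by omega) (by omega)) hup)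
      · exact hlt k (by omega) α ⟨(hmono _ _ (by omega) (by omega)).trans hα.1, hα.2.trans hup⟩
      · by_cases hm0 : m = 0
        · subst hm0
          simp only [if_true] at hα
          exact htop' α hα
        · rw [if_neg hm0] at hα
          have e : n - m = n - 1 - m + 1 := by omega
          have e2 : n - m - 1 = n - 1 - m := by omega
          rw [e2]
          refine htop (n - 1 - m) (by omega) (by omega) α ?_
          rwa [← e]
    have hI : ∀ m, m < n - k₀ → Icc (lo (n - 1 - m)) (if m = 0 then b else lo (n - m)) ⊆ Icc (lo k₀) b := by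
      intro m hm
      refine Icc_subset_Icc (hmono _ _ (by omega) (by omega)) ?_
      split_ifs
      · exact le_rfl
      · exact hb _ (by omega)
    have hne : ∀ m, m < n - k₀ → lo (n - 1 - m) ≤ (if m = 0 then b else lo (n - m)) := by
      intro m hm
      split_ifs
      · exact hb _ (by omega)
      · exact hmono _ _ (by omega) (by omega)
    induction m with
    | zero =>
      intro hm
      refine ⟨by simpa using hP, fun α hα => ?_⟩
      have hc := (hS 0 hm).continue isPreconnected_Icc (fun α hα => H α (hI 0 hm hα))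
        (right_mem_Icc.2 (hne 0 hm)) (by simpa using hP) hα
      exact ⟨hc, fun r hr => (hS 0 hm).dist (fun α hα => H α (hI 0 hm hα)) hα hc hr⟩
    | succ m ih =>
      intro hm
      obtain ⟨-, ih2⟩ := ih (by omega)
      have hmem : lo (n - 1 - m) ∈ Icc (lo (n - 1 - m)) (if m = 0 then b else lo (n - m)) :=
        left_mem_Icc.2 (hne m (by omega))
      have h1 := (ih2 _ hmem).1
      have h2 : Compl (n - (m + 1)) Z (lo (n - 1 - m)) :=
        Compl.drop (I₁ := univ) (hS m (by omega)) hmem h1 (by omega) (by omega)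
      have e : n - 1 - m = n - (m + 1) := by omega
      rw [e] at h2
      have h3 : Compl (n - (m + 1)) Z (if m + 1 = 0 then b else lo (n - (m + 1))) := by
        rw [if_neg (by omega)]
        exact h2
      refine ⟨h3, fun α hα => ?_⟩
      have hc := (hS (m + 1) hm).continue isPreconnected_Icc (fun α hα => H α (hI (m + 1) hm hα))
        (right_mem_Icc.2 (hne (m + 1) hm)) h3 hα
      exact ⟨hc, fun r hr => (hS (m + 1) hm).dist (fun α hα => H α (hI (m + 1) hm hα)) hα hc hr⟩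
  -- every `α` lies in one of the intervals
  intro α hα r hr
  have hex : ∃ m, m < n - k₀ ∧ lo (n - 1 - m) ≤ α := ⟨n - 1 - k₀, by omega, by
    have : n - 1 - (n - 1 - k₀) = k₀ := by omega
    rw [this]
    exact hα.1⟩
  classical
  obtain ⟨h1, h2⟩ := Nat.find_spec hex
  refine ((main (Nat.find hex) h1).2 α ⟨h2, ?_⟩).2 r hr
  split_ifs with h0
  · exact hα.2
  · have h3 := Nat.find_min hex (m := Nat.find hex - 1) (by omega)
    push Not at h3
    have h4 := h3 (by omega)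
    have e : n - 1 - (Nat.find hex - 1) = n - Nat.find hex := by omega
    rw [e] at h4
    exact h4.le

end SokalFU
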