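import Pool.Agent.Lib_MP_af4de1_fu.Chain

set_option autoImplicit false

namespace SokalFU

/-- the `i`-th field (48 bits) -/
def fld (x i : ℕ) : ℕ := Nat.mod (Nat.div x (Nat.pow 2 (Nat.mul 48 i))) 281474976710656

theorem fld_eq (x i : ℕ) : fld x i = x / 2 ^ (48 * i) % 2 ^ 48 := rfl

/-- signed field -/
def sfld (x i : ℕ) : ℤ := Int.subNatNat (fld x i) 140737488355328

/-- decoding of a piece -/
def Pc.dec (x : ℕ) : Pc :=
  ⟨Int.ofNat (fld x 0), Int.ofNat (fld x 1), sfld x 2, sfld x 3, sfld x 4, sfld x 5, Int.ofNat (fld x 6), Int.ofNat (fld x 7)⟩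

end SokalFU
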