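import Pool.Agent.Lib_MP_af4de1_fu.Ker

/-!
# Admissible integrands, the three end integrals, `L` and `R`

`Adm`: entire, `|k| ≤ K exp(η(|a|+|σ|) + N a⁺ - hf/δ)` for every `η > 0` (so `kk` times `g^j`, `e^g`).
`IV k g = ∫_{x>0} k(g+x)` (`-π < Im g < 0`), `IT k g = i∫_{y>0} k(g+iy)` (`Re g > 0`),
`IB k g d = d ∫_{t>0} k(g - t d)`.
-/

namespace SokalFW

open Complex MeasureTheory Filter Topology Set

/-- Admissible integrands. -/
structure Adm (δ ρ ψ : ℝ) (k : ℂ → ℂ) : Prop where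
  diff : Differentiable ℂ k
  bd : ∃ N : ℝ, 0 ≤ N ∧ ∀ η : ℝ, 0 < η → ∃ K : ℝ, 0 ≤ K ∧ ∀ g : ℂ,
    ‖k g‖ ≤ K * Real.exp (η * (|g.re| + |g.im|) + N * max g.re 0 - hf ρ ψ g / δ)

noncomputable def IV (k : ℂ → ℂ) (g : ℂ) : ℂ := ∫ t in Ioi (0 : ℝ), k (g + t * 1)

noncomputable def IT (k : ℂ → ℂ) (g : ℂ) : ℂ := I * ∫ t in Ioi (0 : ℝ), k (g + t * I)

noncomputable def IB (k : ℂ → ℂ) (g d : ℂ) : ℂ := d * ∫ t in Ioi (0 : ℝ), k (g + t * (-d))

/-- The left piece: from `-i∞` (`Re < 0`) to the valley. -/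
noncomputable def Lw (k : ℂ → ℂ) : ℂ := IB k (-1 - Real.pi / 2 * I) I + IV k (-1 - Real.pi / 2 * I)

/-- The right piece: from the valley to `+i∞` (`Re > 0`). -/
noncomputable def Rw (k : ℂ → ℂ) : ℂ := IT k (1 - Real.pi / 2 * I) - IV k (1 - Real.pi / 2 * I)

/-- Directions along which the end B is reached. -/
def BDir (ψ : ℝ) (g d : ℂ) : Prop :=
  0 ≤ d.re ∧ 0 ≤ d.im ∧ d ≠ 0 ∧ (0 < d.re ∨ g.re < 0) ∧ (0 < d.im ∨ g.im + ψ < 0)

variable {δ ρ ψ : ℝ} {k P : ℂ → ℂ}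

theorem Adm.cont (h : Adm δ ρ ψ k) : Continuous k := h.diff.continuous

theorem Adm.prim (h : Adm δ ρ ψ k) : ∃ P : ℂ → ℂ, ∀ z, HasDerivAt P (k z) z := by
  obtain ⟨P, hP'⟩ := h.diff.isExactOn_univ
  exact ⟨P, fun z => hP' z (Set.mem_univ z)⟩

/-- Bound in the end V. -/
theorem Adm.bV (hδ : 0 < δ) (hρ : 0 < ρ) (h : Adm δ ρ ψ k) {σ1 σ2 : ℝ} (h1 : -Real.pi < σ1)
    (h2 : σ2 < 0) : ∃ C : ℝ, 0 ≤ C ∧ ∀ g : ℂ, 0 ≤ g.re → σ1 ≤ g.im → g.im ≤ σ2 →
      ‖k g‖ ≤ C * Real.exp (-g.re) := by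
  obtain ⟨N, hN, h3⟩ := h.bd
  obtain ⟨K, hK, h4⟩ := h3 1 one_pos
  obtain ⟨C, hC⟩ := expV (Ψ := |ψ|) (N := N) hδ hρ h1 h2
  refine ⟨K * Real.exp C, by positivity, fun g h5 h6 h7 => (h4 g).trans ?_⟩
  rw [mul_assoc, ← Real.exp_add]
  refine mul_le_mul_of_nonneg_left (Real.exp_le_exp.2 ?_) hK
  have := hC ψ g.re g.im le_rfl h5 h6 h7
  unfold hf
  linarith

/-- Bound in the end T. -/
theorem Adm.bT (hδ : 0 < δ) (hρ : 0 < ρ) (h : Adm δ ρ ψ k) {a1 : ℝ} (a2 : ℝ) (h1 : 0 < a1) :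
    ∃ C c : ℝ, 0 ≤ C ∧ 0 < c ∧ ∀ g : ℂ, a1 ≤ g.re → g.re ≤ a2 → 0 ≤ g.im →
      ‖k g‖ ≤ C * Real.exp (-(c * g.im)) := by
  obtain ⟨N, hN, h3⟩ := h.bd
  obtain ⟨K, hK, h4⟩ := h3 (a1 / (2 * δ)) (by positivity)
  obtain ⟨C, hC⟩ := expT (Ψ := |ψ|) (N := N) (a2 := a2) hδ hρ h1 hN
  refine ⟨K * Real.exp C, a1 / (2 * δ), by positivity, by positivity,
    fun g h5 h6 h7 => (h4 g).trans ?_⟩
  rw [mul_assoc, ← Real.exp_add]
  refine mul_le_mul_of_nonneg_left (Real.exp_le_exp.2 ?_) hK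
  have := hC ψ g.re g.im le_rfl h5 h6 h7
  unfold hf
  linarith

/-- Bound in the end B. -/
theorem Adm.bB (hδ : 0 < δ) (hρ : 0 < ρ) (h : Adm δ ρ ψ k) {η : ℝ} (h1 : 0 < η) :
    ∃ C c : ℝ, 0 ≤ C ∧ 0 < c ∧ ∀ g : ℂ, g.re ≤ -η → g.im + ψ ≤ -η →
      ‖k g‖ ≤ C * Real.exp (-(c * (-g.re - (g.im + ψ)))) := by
  obtain ⟨N, hN, h3⟩ := h.bd
  obtain ⟨K, hK, h4⟩ := h3 (η / (4 * δ)) (by positivity)
  obtain ⟨C, hC⟩ := expB (Ψ := |ψ|) (N := N) hδ hρ h1
  refine ⟨K * Real.exp C, η / (4 * δ), by positivity, by positivity,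
    fun g h5 h6 => (h4 g).trans ?_⟩
  rw [mul_assoc, ← Real.exp_add]
  refine mul_le_mul_of_nonneg_left (Real.exp_le_exp.2 ?_) hK
  have := hC ψ g.re g.im le_rfl h5 h6
  unfold hf
  linarith

/-- Exponentially small continuous functions are integrable on a half line. -/
theorem int_of_exp {f : ℝ → ℂ} (hf : Continuous f) {C c T0 : ℝ} (hc : 0 < c)
    (h : ∀ t : ℝ, T0 ≤ t → ‖f t‖ ≤ C * Real.exp (-(c * t))) : IntegrableOn f (Ioi 0) := by
  set T := max 0 T0 with hT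
  have hT0 : 0 ≤ T := le_max_left _ _
  have h1 : IntegrableOn f (Ioc 0 T) :=
    (hf.continuousOn.integrableOn_compact isCompact_Icc).mono_set Ioc_subset_Icc_self
  have h2 : IntegrableOn f (Ioi T) := by
    have h3 : IntegrableOn (fun t : ℝ => C * Real.exp (-(c * t))) (Ioi T) := by
      have h4 : IntegrableOn (fun t : ℝ => C * Real.exp (-c * t)) (Ioi T) :=
        (integrableOn_exp_mul_Ioi (neg_neg_of_pos hc) T).const_mul C
      simpa only [neg_mul] using h4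
    refine Integrable.mono' h3 hf.aestronglyMeasurable ?_
    refine (ae_restrict_iff' measurableSet_Ioi).mpr (Filter.Eventually.of_forall fun t ht => ?_)
    exact h t ((le_max_right _ _).trans (le_of_lt ht))
  have h5 := h1.union h2
  rwa [Ioc_union_Ioi_eq_Ioi hT0] at h5

theorem Adm.iV (hδ : 0 < δ) (hρ : 0 < ρ) (h : Adm δ ρ ψ k) {g : ℂ} (h1 : -Real.pi < g.im)
    (h2 : g.im < 0) : IntegrableOn (fun t : ℝ => k (g + t * 1)) (Ioi 0) := by
  obtain ⟨C, hC, hb⟩ := h.bV hδ hρ h1 h2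
  have hk := h.cont
  refine int_of_exp (C := C * Real.exp (-g.re)) (c := 1) (T0 := -g.re) (by fun_prop) one_pos
    fun t ht => ?_
  have h3 := hb (g + t * 1) (by simp; linarith) (by simp) (by simp)
  refine h3.trans (le_of_eq ?_)
  rw [mul_assoc, ← Real.exp_add]
  congr 2
  simp
  ring

theorem Adm.iT (hδ : 0 < δ) (hρ : 0 < ρ) (h : Adm δ ρ ψ k) {g : ℂ} (h1 : 0 < g.re) :
    IntegrableOn (fun t : ℝ => k (g + t * I)) (Ioi 0) := by
  obtain ⟨C, c, hC, hc, hb⟩ := h.bT hδ hρ g.re h1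
  have hk := h.cont
  refine int_of_exp (C := C * Real.exp (-(c * g.im))) (c := c) (T0 := -g.im) (by fun_prop) hc
    fun t ht => ?_
  have h3 := hb (g + t * I) (by simp) (by simp) (by simp; linarith)
  refine h3.trans (le_of_eq ?_)
  rw [mul_assoc, ← Real.exp_add]
  congr 2
  simp
  ring

/-- Along an admissible direction one is finally deep in the end B. -/
theorem BDir.ev {g d : ℂ} (h : BDir ψ g d) : ∃ η T0 : ℝ, 0 < η ∧ ∀ t : ℝ, T0 ≤ t →
    (g + t * (-d)).re ≤ -η ∧ (g + t * (-d)).im + ψ ≤ -η := by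
  obtain ⟨h1, h2, h3, h4, h5⟩ := h
  have hre : ∀ t : ℝ, (g + t * (-d)).re = g.re - t * d.re := fun t => by simp; ring
  have him : ∀ t : ℝ, (g + t * (-d)).im + ψ = g.im + ψ - t * d.im := fun t => by simp; ring
  have key : ∀ x y : ℝ, 0 ≤ y → (0 < y ∨ x < 0) → ∃ η T0 : ℝ, 0 < η ∧ 0 ≤ T0 ∧ ∀ t : ℝ, T0 ≤ t →
      x - t * y ≤ -η := by
    intro x y hy hxy
    rcases hxy with hy | hx
    · refine ⟨1, max 0 ((x + 1) / y), one_pos, le_max_left _ _, fun t ht => ?_⟩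
      have h6 : (x + 1) / y ≤ t := (le_max_right _ _).trans ht
      rw [div_le_iff₀ hy] at h6
      linarith
    · exact ⟨-x, 0, by linarith, le_rfl, fun t ht => by nlinarith⟩
  obtain ⟨η1, T1, a1, _, a3⟩ := key g.re d.re h1 h4
  obtain ⟨η2, T2, b1, _, b3⟩ := key (g.im + ψ) d.im h2 h5
  refine ⟨min η1 η2, max T1 T2, lt_min a1 b1, fun t ht => ⟨?_, ?_⟩⟩
  · rw [hre]
    have := a3 t ((le_max_left _ _).trans ht)
    linarith [min_le_left η1 η2]
  · rw [him]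
    have := b3 t ((le_max_right _ _).trans ht)
    linarith [min_le_right η1 η2]

theorem BDir.pos {g d : ℂ} (h : BDir ψ g d) : 0 < d.re + d.im := by
  obtain ⟨h1, h2, h3, -, -⟩ := h
  rcases h1.lt_or_eq with h4 | h4
  · linarith
  · rcases h2.lt_or_eq with h5 | h5
    · linarith
    · exact absurd (Complex.ext h4.symm h5.symm) h3

theorem Adm.iB (hδ : 0 < δ) (hρ : 0 < ρ) (h : Adm δ ρ ψ k) {g d : ℂ} (hd : BDir ψ g d) :
    IntegrableOn (fun t : ℝ => k (g + t * (-d))) (Ioi 0) := by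
  obtain ⟨η, T0, hη, h1⟩ := hd.ev
  obtain ⟨C, c, hC, hc, hb⟩ := h.bB hδ hρ hη
  have hk := h.cont
  have hp := hd.pos
  refine int_of_exp (C := C * Real.exp (-(c * (-g.re - (g.im + ψ))))) (c := c * (d.re + d.im))
    (T0 := T0) (by fun_prop) (by positivity) fun t ht => ?_
  have h3 := hb (g + t * (-d)) (h1 t ht).1 (h1 t ht).2
  refine h3.trans (le_of_eq ?_)
  rw [mul_assoc, ← Real.exp_add]
  congr 2
  simp
  ring

theorem tendsto_exp_lin {C c m : ℝ} (hc : 0 < c) (A B : ℝ) :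
    Tendsto (fun T : ℝ => C * Real.exp (-(c * T + m)) * (A + B * T)) atTop (𝓝 0) := by
  have h1 : Tendsto (fun T : ℝ => Real.exp (-(c * T))) atTop (𝓝 0) :=
    Real.tendsto_exp_neg_atTop_nhds_zero.comp (tendsto_id.const_mul_atTop hc)
  have h2 : Tendsto (fun T : ℝ => T * Real.exp (-(c * T))) atTop (𝓝 0) := by
    have h3 := (Real.tendsto_pow_mul_exp_neg_atTop_nhds_zero 1).comp (tendsto_id.const_mul_atTop hc)
    have h4 := h3.const_mul (1 / c)
    rw [mul_zero] at h4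
    refine h4.congr fun T => ?_
    simp only [Function.comp, id, pow_one]
    field_simp
  have h3 := ((h1.const_mul A).add (h2.const_mul B)).const_mul (C * Real.exp (-m))
  rw [mul_zero, mul_zero, add_zero, mul_zero] at h3
  refine h3.congr fun T => ?_
  rw [neg_add, Real.exp_add]
  ring

/-- Common limit in the end V. -/
theorem Adm.cV (hδ : 0 < δ) (hρ : 0 < ρ) (h : Adm δ ρ ψ k) (hP : ∀ z, HasDerivAt P (k z) z)
    {g1 g2 : ℂ} (h1 : -Real.pi < g1.im) (h1' : g1.im < 0) (h2 : -Real.pi < g2.im)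
    (h2' : g2.im < 0) : P g1 + IV k g1 = P g2 + IV k g2 := by
  have t1 := ray_tendsto h.cont hP (h.iV hδ hρ h1 h1')
  have t2 := ray_tendsto h.cont hP (h.iV hδ hρ h2 h2')
  rw [one_mul] at t1 t2
  obtain ⟨C, hC, hb⟩ := h.bV hδ hρ (σ1 := min g1.im g2.im) (σ2 := max g1.im g2.im)
    (lt_min h1 h2) (max_lt h1' h2')
  have hz : Tendsto (fun T : ℝ => P (g1 + T * 1) - P (g2 + T * 1)) atTop (𝓝 0) := by
    set m := min g1.re g2.re with hm
    refine squeeze_zero_norm' ?_ (tendsto_exp_lin (C := C) (c := 1) (m := m) one_pos ‖g1 - g2‖ 0)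
    filter_upwards [eventually_ge_atTop (-m)] with T hT
    have hS : Convex ℝ ({z : ℂ | T + m ≤ z.re} ∩ {z : ℂ | min g1.im g2.im ≤ z.im} ∩
        {z : ℂ | z.im ≤ max g1.im g2.im}) :=
      ((convex_halfSpace_re_ge _).inter (convex_halfSpace_im_ge _)).inter
        (convex_halfSpace_im_le _)
    have h3 := seg_le (k := k) hP hS (a := g2 + T * 1) (b := g1 + T * 1)
      (B := C * Real.exp (-(T + m)))
      (by simp [hm]; linarith [min_le_right g1.re g2.re])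
      (by simp [hm]; linarith [min_le_left g1.re g2.re]) (fun z hz => by
        obtain ⟨⟨z1, z2⟩, z3⟩ := hz
        simp only [mem_ofPred_eq] at z1 z2 z3
        refine (hb z (by linarith) z2 z3).trans ?_
        refine mul_le_mul_of_nonneg_left (Real.exp_le_exp.2 ?_) hC
        linarith)
    refine h3.trans (le_of_eq ?_)
    rw [one_mul, zero_mul, add_zero]
    congr 2
    ring
  have h5 := t1.sub t2
  have h6 := tendsto_nhds_unique h5 hz
  unfold IV
  exact sub_eq_zero.1 h6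

/-- Common limit in the end T. -/
theorem Adm.cT (hδ : 0 < δ) (hρ : 0 < ρ) (h : Adm δ ρ ψ k) (hP : ∀ z, HasDerivAt P (k z) z)
    {g1 g2 : ℂ} (h1 : 0 < g1.re) (h2 : 0 < g2.re) : P g1 + IT k g1 = P g2 + IT k g2 := by
  have t1 := ray_tendsto h.cont hP (h.iT hδ hρ h1)
  have t2 := ray_tendsto h.cont hP (h.iT hδ hρ h2)
  obtain ⟨C, c, hC, hc, hb⟩ := h.bT hδ hρ (a1 := min g1.re g2.re) (max g1.re g2.re)
    (lt_min h1 h2)
  have hz : Tendsto (fun T : ℝ => P (g1 + T * I) - P (g2 + T * I)) atTop (𝓝 0) := by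
    set m := min g1.im g2.im with hm
    refine squeeze_zero_norm' ?_
      (tendsto_exp_lin (C := C) (c := c) (m := c * m) hc ‖g1 - g2‖ 0)
    filter_upwards [eventually_ge_atTop (-m)] with T hT
    have hS : Convex ℝ ({z : ℂ | T + m ≤ z.im} ∩ {z : ℂ | min g1.re g2.re ≤ z.re} ∩
        {z : ℂ | z.re ≤ max g1.re g2.re}) :=
      ((convex_halfSpace_im_ge _).inter (convex_halfSpace_re_ge _)).inter
        (convex_halfSpace_re_le _)
    have h3 := seg_le (k := k) hP hS (a := g2 + T * I) (b := g1 + T * I)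
      (B := C * Real.exp (-(c * (T + m)))) (by simp [hm]; linarith [min_le_right g1.im g2.im])
      (by simp [hm]; linarith [min_le_left g1.im g2.im]) (fun z hz => by
        obtain ⟨⟨z1, z2⟩, z3⟩ := hz
        simp only [mem_ofPred_eq] at z1 z2 z3
        refine (hb z z2 z3 (by linarith)).trans ?_
        refine mul_le_mul_of_nonneg_left (Real.exp_le_exp.2 ?_) hC
        nlinarith)
    refine h3.trans (le_of_eq ?_)
    rw [zero_mul, add_zero]
    congr 2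
    · ring_nf
    · ring
  have h5 := t1.sub t2
  have h6 := tendsto_nhds_unique h5 hz
  unfold IT
  exact sub_eq_zero.1 h6

/-- Common limit in the end B. -/
theorem Adm.cB (hδ : 0 < δ) (hρ : 0 < ρ) (h : Adm δ ρ ψ k) (hP : ∀ z, HasDerivAt P (k z) z)
    {g1 g2 d1 d2 : ℂ} (h1 : BDir ψ g1 d1) (h2 : BDir ψ g2 d2) :
    P g1 - IB k g1 d1 = P g2 - IB k g2 d2 := by
  have t1 := ray_tendsto h.cont hP (h.iB hδ hρ h1)
  have t2 := ray_tendsto h.cont hP (h.iB hδ hρ h2)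
  obtain ⟨η1, T1, e1, f1⟩ := h1.ev
  obtain ⟨η2, T2, e2, f2⟩ := h2.ev
  set η := min η1 η2 with hη
  have hη0 : 0 < η := lt_min e1 e2
  obtain ⟨C, c, hC, hc, hb⟩ := h.bB hδ hρ hη0
  set p := min (d1.re + d1.im) (d2.re + d2.im) with hp
  have hp0 : 0 < p := lt_min h1.pos h2.pos
  have hz : Tendsto (fun T : ℝ => P (g1 + T * (-d1)) - P (g2 + T * (-d2))) atTop (𝓝 0) := by
    set m := min (-g1.re - (g1.im + ψ)) (-g2.re - (g2.im + ψ)) with hm
    refine squeeze_zero_norm' ?_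
      (tendsto_exp_lin (C := C) (c := c * p) (m := c * m) (by positivity) ‖g1 - g2‖ ‖d1 - d2‖)
    filter_upwards [eventually_ge_atTop (max 0 (max T1 T2))] with T hT
    have hT0 : 0 ≤ T := (le_max_left _ _).trans hT
    have hT1 : T1 ≤ T := ((le_max_left _ _).trans (le_max_right _ _)).trans hT
    have hT2 : T2 ≤ T := ((le_max_right _ _).trans (le_max_right _ _)).trans hT
    have hS : Convex ℝ ({z : ℂ | z.re ≤ -η} ∩ {z : ℂ | z.im ≤ -η - ψ} ∩
        {z : ℂ | T * p + m + ψ ≤ -z.re - z.im}) := by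
      refine ((convex_halfSpace_re_le _).inter (convex_halfSpace_im_le _)).inter ?_
      exact convex_halfSpace_ge (f := fun z : ℂ => -z.re - z.im)
        ⟨fun x y => by simp; ring, fun c x => by simp; ring⟩ _
    have k1 : T * p ≤ T * (d1.re + d1.im) := mul_le_mul_of_nonneg_left (min_le_left _ _) hT0
    have k2 : T * p ≤ T * (d2.re + d2.im) := mul_le_mul_of_nonneg_left (min_le_right _ _) hT0
    have m1 : m ≤ -g1.re - (g1.im + ψ) := min_le_left _ _
    have m2 : m ≤ -g2.re - (g2.im + ψ) := min_le_right _ _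
    have n1 : η ≤ η1 := min_le_left _ _
    have n2 : η ≤ η2 := min_le_right _ _
    have r1 : (g1 + T * (-d1)).re = g1.re - T * d1.re := by simp; ring
    have i1 : (g1 + T * (-d1)).im = g1.im - T * d1.im := by simp; ring
    have r2 : (g2 + T * (-d2)).re = g2.re - T * d2.re := by simp; ring
    have i2 : (g2 + T * (-d2)).im = g2.im - T * d2.im := by simp; ring
    have h3 := seg_le (k := k) hP hS (a := g2 + T * (-d2)) (b := g1 + T * (-d1))
      (B := C * Real.exp (-(c * (T * p + m))))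
      ⟨⟨by have := (f2 T hT2).1; simp only [mem_ofPred_eq]; linarith,
        by have := (f2 T hT2).2; simp only [mem_ofPred_eq]; linarith⟩,
        by simp only [mem_ofPred_eq]; rw [r2, i2]; linarith⟩
      ⟨⟨by have := (f1 T hT1).1; simp only [mem_ofPred_eq]; linarith,
        by have := (f1 T hT1).2; simp only [mem_ofPred_eq]; linarith⟩,
        by simp only [mem_ofPred_eq]; rw [r1, i1]; linarith⟩ (fun z hz => by
        obtain ⟨⟨z1, z2⟩, z3⟩ := hz
        simp only [mem_ofPred_eq] at z1 z2 z3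
        refine (hb z z1 (by linarith)).trans ?_
        refine mul_le_mul_of_nonneg_left (Real.exp_le_exp.2 ?_) hC
        nlinarith)
    have h4 : ‖(g1 + T * (-d1)) - (g2 + T * (-d2))‖ ≤ ‖g1 - g2‖ + ‖d1 - d2‖ * T := by
      have e : (g1 + T * (-d1)) - (g2 + T * (-d2)) = (g1 - g2) - (T : ℂ) * (d1 - d2) := by ring
      rw [e]
      refine (norm_sub_le _ _).trans (le_of_eq ?_)
      rw [norm_mul, Complex.norm_real, Real.norm_of_nonneg hT0]
      ring
    refine h3.trans ((mul_le_mul_of_nonneg_left h4 (by positivity)).trans (le_of_eq ?_))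
    congr 3
    ring
  have h5 := t1.sub t2
  have h6 := tendsto_nhds_unique h5 hz
  unfold IB
  have h7 := sub_eq_zero.1 h6
  linear_combination h7

end SokalFW
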