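import Pool.Agent.Lib_MP_af4de1_fu.Spec

/-!
# The tube test: fast evaluator in packed natural numbers

Gaussian integers `x + iy` are residues `x + y Y` modulo `Y ^ 2 + 1`, `Y = 2 ^ y`.  All functions are written with the
kernel-accelerated operations on `ℕ` only.
-/

set_option autoImplicit false

namespace SokalFU

/-- The integer data of a class of tubes. Scale of `del, rho2, rho0, th`: `2 ^ 40`. `wl` is the list of the pairs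
`(w2 (p - 1), w0 p)`, `p = 2, .., 2 M - 1`, where `w2 (p - 1)` has the scale `2 ^ (k + u (p - 1))` and `w0 p` the scale `2 ^ (k + u p)`
(`w0 2 = w0 (2 M - 1) = 0`); `e1`, `e0` in units of the integer moments. -/
structure ClsI where
  S : ℕ
  R : ℕ
  n0 : ℕ
  N : ℕ
  M : ℕ
  /-- bits of a lane -/
  y : ℕ
  k : ℕ
  u : ℕ
  del : ℕ
  rho2 : ℕ
  rho0 : ℕ
  th : ℕ
  wl : List (ℕ × ℕ)
  e1 : ℕ
  e0 : ℕ

/-- the real constants of the class -/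
noncomputable def ClsI.toCls (K : ClsI) : Cls where
  S := K.S
  R := K.R
  n0 := K.n0
  N := K.N
  M := K.M
  del := (K.del : ℝ) / 2 ^ 40
  rho2 := (K.rho2 : ℝ) / 2 ^ 40
  rho0 := (K.rho0 : ℝ) / 2 ^ 40
  th := (K.th : ℝ) / 2 ^ 40
  w2 := fun p => ((K.wl.getD (p - 1) (0, 0)).1 : ℝ) / 2 ^ (K.k + K.u * p)
  w0 := fun p => ((K.wl.getD (p - 2) (0, 0)).2 : ℝ) / 2 ^ (K.k + K.u * p)
  e1 := K.e1
  e0 := K.e0

/-- `Y = 2 ^ y` -/
def ClsI.Y (K : ClsI) : ℕ := Nat.pow 2 K.y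
/-- `X = Y ^ 2` -/
def ClsI.X (K : ClsI) : ℕ := Nat.pow 2 (Nat.mul 2 K.y)
/-- the modulus -/
def ClsI.MM (K : ClsI) : ℕ := Nat.succ K.X
/-- `D` as a natural number -/
def ClsI.DN (K : ClsI) : ℕ := Nat.pow 2 K.S
/-- `H = Y / 4` -/
def ClsI.H (K : ClsI) : ℕ := Nat.pow 2 (Nat.sub K.y 2)
/-- bias of both lanes -/
def ClsI.bias (K : ClsI) : ℕ := Nat.mul K.H (Nat.succ K.Y)
/-- clears the lowest `S` bits of both lanes -/
def ClsI.mask1 (K : ClsI) : ℕ := Nat.mul (Nat.sub K.Y K.DN) (Nat.succ K.Y)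
/-- clears the lowest `2 S` bits of both lanes -/
def ClsI.mask2 (K : ClsI) : ℕ := Nat.mul (Nat.sub K.Y (Nat.pow 2 (Nat.mul 2 K.S))) (Nat.succ K.Y)
/-- bias after the shift by `S` -/
def ClsI.B1 (K : ClsI) : ℕ := Nat.pow 2 (Nat.sub (Nat.sub K.y 2) K.S)
/-- bias after the shift by `2 S` -/
def ClsI.B2 (K : ClsI) : ℕ := Nat.pow 2 (Nat.sub (Nat.sub K.y 2) (Nat.mul 2 K.S))
/-- removes the bias modulo `MM` -/
def ClsI.unb1 (K : ClsI) : ℕ := Nat.sub K.MM (Nat.mul K.B1 (Nat.succ K.Y))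
/-- removes the bias modulo `MM` -/
def ClsI.unb2 (K : ClsI) : ℕ := Nat.sub K.MM (Nat.mul K.B2 (Nat.succ K.Y))
/-- last lane -/
def ClsI.P (K : ClsI) : ℕ := Nat.mul 2 K.M

/-- `∑_(p ≤ P) (n - n₀)^p X^p` -/
def Vn (X P n0 n : ℕ) : ℕ :=
  cond (Nat.ble n n0)
    (Nat.div (Nat.succ (Nat.pow (Nat.mul (Nat.sub n0 n) X) (Nat.succ P))) (Nat.succ (Nat.mul (Nat.sub n0 n) X)))
    (Nat.div (Nat.pred (Nat.pow (Nat.mul (Nat.sub n n0) X) (Nat.succ P))) (Nat.pred (Nat.mul (Nat.sub n n0) X)))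

/-- one step for `W` -/
def stepW (S MM bias mask1 unb1 q w : ℕ) : ℕ :=
  Nat.add (Nat.shiftRight (Nat.land (Nat.mod (Nat.add (Nat.mul w q) bias) MM) mask1) S) unb1

/-- one step for the biased `T` -/
def stepT (S2 DN MM bias mask2 unb2 n w tb : ℕ) : ℕ :=
  Nat.shiftRight (Nat.land (Nat.mod (Nat.add (Nat.mul (Nat.mul (Nat.add tb unb2) w)
    (Nat.div DN (Nat.succ n))) bias) MM) mask2) S2

/-- the main loop; `k` steps -/
def loop (S S2 DN MM bias mask1 mask2 unb1 unb2 X P n0 q k : ℕ) : ℕ → ℕ → ℕ → ℕ → ℕ :=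
  Nat.rec (fun _ _ _ acc => acc)
    (fun _ ih n w tb acc => ih (Nat.succ n) (stepW S MM bias mask1 unb1 q w)
      (stepT S2 DN MM bias mask2 unb2 n w tb) (Nat.add acc (Nat.mul tb (Vn X P n0 n)))) k

/-- `∑_(n < N) V_n` -/
def sumV (X P n0 N : ℕ) : ℕ := Nat.rec 0 (fun n s => Nat.add s (Vn X P n0 n)) N

/-- the bias of all lanes `∑_(p ≤ P) (1 + Y) X^p` times `2 ^ (y - 1)` -/
def ClsI.LB (K : ClsI) : ℕ :=
  Nat.mul (Nat.mul (Nat.pow 2 (Nat.pred K.y)) (Nat.succ K.Y))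
    (Nat.div (Nat.pred (Nat.pow K.X (Nat.succ K.P))) (Nat.pred K.X))

/-- The packed biased moments. `c` packed residue (scale `D`), `q` packed residue (scale `D`). -/
def moms (K : ClsI) (q c : ℕ) : ℕ :=
  Nat.sub (Nat.add (loop K.S (Nat.mul 2 K.S) K.DN K.MM K.bias K.mask1 K.mask2 K.unb1 K.unb2 K.X K.P K.n0 q K.N
      0 c (Nat.add K.DN (Nat.mul K.B2 (Nat.succ K.Y))) 0) K.LB)
    (Nat.mul (Nat.mul K.B2 (Nat.succ K.Y)) (sumV K.X K.P K.n0 K.N))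

/-! ### The exponential `e^(ia)`, `a = A / 2 ^ 40` -/

/-- `u ↦ ⌊⌊u A / 2^40⌋ / (m + 1)⌋` -/
def ustep (A m u : ℕ) : ℕ := Nat.div (Nat.shiftRight (Nat.mul u A) 40) (Nat.succ m)

/-- `k` blocks of four terms -/
def qloop (S Y MM A k : ℕ) : ℕ → ℕ → ℕ → ℕ → ℕ → ℕ → ℕ :=
  Nat.rec
    (fun _ _ p0 p1 p2 p3 => Nat.add
      (Nat.add (Nat.shiftRight (Nat.sub (Nat.add p0 (Nat.pow 2 (Nat.add S 19))) p2) 16)
        (Nat.mul (Nat.shiftRight (Nat.sub (Nat.add p1 (Nat.pow 2 (Nat.add S 19))) p3) 16) Y))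
      (Nat.sub MM (Nat.mul (Nat.pow 2 (Nat.add S 3)) (Nat.succ Y))))
    (fun _ ih m u p0 p1 p2 p3 =>
      ih (Nat.add m 4)
        (ustep A (Nat.add m 3) (ustep A (Nat.add m 2) (ustep A (Nat.add m 1) (ustep A m u))))
        (Nat.add p0 u) (Nat.add p1 (ustep A m u)) (Nat.add p2 (ustep A (Nat.add m 1) (ustep A m u)))
        (Nat.add p3 (ustep A (Nat.add m 2) (ustep A (Nat.add m 1) (ustep A m u))))) k

/-- packed residue of `Qsp S A` -/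
def qEv (K : ClsI) (A : ℕ) : ℕ := qloop K.S K.Y K.MM A 16 0 (Nat.pow 2 (Nat.add K.S 16)) 0 0 0 0

/-- rounded `2^(S+16) a^m / m!` -/
def Usp (S A : ℕ) : ℕ → ℕ
  | 0 => 2 ^ (S + 16)
  | m + 1 => Usp S A m * A / 2 ^ 40 / (m + 1)

/-- rounded `2 ^ S e^(ia)`, `a = A / 2 ^ 40` -/
def Qsp (S A : ℕ) : ℤ × ℤ :=
  (((∑ j ∈ Finset.range 16, (Usp S A (4 * j) : ℤ)) - ∑ j ∈ Finset.range 16, (Usp S A (4 * j + 2) : ℤ)) / 2 ^ 16,
    ((∑ j ∈ Finset.range 16, (Usp S A (4 * j + 1) : ℤ)) - ∑ j ∈ Finset.range 16, (Usp S A (4 * j + 3) : ℤ)) / 2 ^ 16)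

/-! ### The check -/

/-- `|d - h|` -/
def absd (h d : ℕ) : ℕ := Nat.add (Nat.sub d h) (Nat.sub h d)

/-- `64 max + 27 min ≥ 64 |x + iy|` -/
def nU (x y : ℕ) : ℕ :=
  Nat.add (Nat.mul 64 (Nat.add x (Nat.sub y x))) (Nat.mul 27 (Nat.sub x (Nat.sub x y)))

/-- `max (256 x, 256 y, 181 (x + y)) ≤ 256 |x + iy|` -/
def nL (x y : ℕ) : ℕ :=
  Nat.add (Nat.mul 256 (Nat.add x (Nat.sub y x)))
    (Nat.sub (Nat.mul 181 (Nat.add x y)) (Nat.mul 256 (Nat.add x (Nat.sub y x))))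

/-- the weighted sums of the norms of the moments `2, .., 2 M - 1` -/
def wloop (y y2 Y Hb uu : ℕ) (l : List (ℕ × ℕ)) : ℕ → ℕ → ℕ → (ℕ → ℕ → Bool) → Bool :=
  List.rec (fun _ a b f => f a b)
    (fun w _ ih Z a b f =>
      ih (Nat.shiftRight Z y2)
        (Nat.add (Nat.mul a uu) (Nat.mul w.1
          (nU (absd Hb (Nat.mod Z Y)) (absd Hb (Nat.mod (Nat.shiftRight Z y) Y)))))
        (Nat.add (Nat.mul b uu) (Nat.mul w.2
          (nU (absd Hb (Nat.mod Z Y)) (absd Hb (Nat.mod (Nat.shiftRight Z y) Y))))) f) l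

/-- The final inequalities. `x p`, `y p` are the biased lanes of the moments `0, 1, 2`; `nx + i ny = ν` (scale `2 ^ 40`). -/
def finalCheck (K : ClsI) (d e' : ℕ) (nx ny : ℤ) (Hb x0 y0 x1 y1 x2 y2 a b : ℕ) : Bool :=
  let L := nL (absd Hb x1) (absd Hb y1)
  let Kt := Nat.add K.k (Nat.mul K.u (Nat.sub (Nat.mul 2 K.M) 2))
  let X1 : ℤ := (x1 : ℤ) - Hb
  let Y1 : ℤ := (y1 : ℤ) - Hb
  let X2 : ℤ := (x2 : ℤ) - Hb
  let Y2 : ℤ := (y2 : ℤ) - Hb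
  let Ud := nU (2 * (X1 * nx - Y1 * ny) - 2 ^ 40 * Y2).natAbs (2 * (X1 * ny + Y1 * nx) + 2 ^ 40 * X2).natAbs
  Nat.ble 1 L &&
  Nat.ble (2 ^ 42 * a + 2 ^ (48 + Kt) * K.e1) (2 ^ Kt * K.th * L) &&
  Nat.ble (nU (absd Hb x0) (absd Hb y0) * 2 ^ (81 + Kt + K.u) + d * Ud * 2 ^ (Kt + K.u) +
      K.rho0 ^ 2 * nU (absd Hb x2) (absd Hb y2) * 2 ^ (Kt + K.u) + b * 2 ^ 81 + K.e0 * 2 ^ (87 + Kt + K.u))
    ((2 ^ 40 - K.th) * e' * L * 2 ^ (Kt + K.u - 1))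

/-- packed residue of the Gaussian integer `x + iy`, given by integers -/
def pk (MM Y sh : ℕ) (x y : ℤ) : ℕ :=
  x.toNat * sh + (MM - (-x).toNat * sh) + (y.toNat * sh + (MM - (-y).toNat * sh)) * Y

/-- The test of a tube: `a, d, e', e, c, lam` at the scale `2 ^ 40`. -/
def tubeCheck (K : ClsI) (a d e' e : ℕ) (cx cy lx ly : ℤ) : Bool :=
  let ny : ℤ := ly + (2 * K.n0 - 1) * 2 ^ 39
  let Z := moms K (qEv K a) (pk K.MM K.Y (2 ^ (K.S - 40)) cx cy)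
  let n2 := (lx * lx + ny * ny).toNat * (d * d)
  Nat.ble a 3518437208883 && Nat.ble 1 d && Nat.ble d K.del && Nat.ble 1 e' && Nat.blt e' e && Nat.ble e K.rho2 &&
  Nat.ble n2 (((K.rho2 - e) * 2 ^ 40) ^ 2) && Nat.ble n2 ((K.rho0 * 2 ^ 40) ^ 2) &&
  Nat.ble (cx * cx + cy * cy).toNat ((K.R * 2 ^ 40) ^ 2) && Nat.ble 1 (cx * cx + cy * cy).toNat &&
  wloop K.y (2 * K.y) K.Y (2 ^ (K.y - 1)) (2 ^ K.u) K.wl (Z >>> (4 * K.y)) 0 0
    (fun a b => finalCheck K d e' lx ny (2 ^ (K.y - 1)) (Z % K.Y) (Z >>> K.y % K.Y)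
      (Z >>> (2 * K.y) % K.Y) (Z >>> (3 * K.y) % K.Y) (Z >>> (4 * K.y) % K.Y) (Z >>> (5 * K.y) % K.Y) a b)

end SokalFU
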