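import Pool.Agent.Lib_MP_af4de1_fu.Ev

/-!
# Residues modulo `Y ^ 2 + 1`
-/

set_option autoImplicit false

namespace SokalFU

/-- `x` is the residue of the Gaussian integer `z` modulo `Y ^ 2 + 1`, `Y = 2 ^ y`. -/
def Res (y : ℕ) (x : ℕ) (z : ℤ × ℤ) : Prop := (((2 : ℤ) ^ y) ^ 2 + 1) ∣ (x : ℤ) - (z.1 + z.2 * 2 ^ y)

end SokalFU
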