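import Pool.Agent.Lib_MP_af4de1_fu.EvB

/-!
# Packed arithmetic: masks, residues, digits
-/

set_option autoImplicit false

namespace SokalFU

open Finset

/-- clearing the lowest `s` bits of both lanes and shifting is the floor division of both lanes -/
theorem mask_shift {y s a b : ℕ} (hs : s ≤ y) (ha : a < 2 ^ y) (hb : b < 2 ^ y) :
    ((a + b * 2 ^ y) &&& ((2 ^ y - 2 ^ s) * (2 ^ y + 1))) >>> s = a / 2 ^ s + b / 2 ^ s * 2 ^ y := by
  obtain ⟨r, rfl⟩ := Nat.exists_eq_add_of_le hs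
  have e1 : (2 ^ (s + r) - 2 ^ s) * (2 ^ (s + r) + 1) =
      2 ^ s * (2 ^ (s + r) * (2 ^ r - 1) + (2 ^ r - 1)) := by
    have h1 : 2 ^ (s + r) - 2 ^ s = 2 ^ s * (2 ^ r - 1) := by
      rw [pow_add, Nat.mul_sub, mul_one]
    rw [h1]; ring
  have ha' : a / 2 ^ s < 2 ^ r := by
    rw [Nat.div_lt_iff_lt_mul (by positivity), mul_comm, ← pow_add]
    exact ha
  have e2 : (a + b * 2 ^ (s + r)) / 2 ^ s = 2 ^ r * b + a / 2 ^ s := by
    have : a + b * 2 ^ (s + r) = a + 2 ^ s * (2 ^ r * b) := by rw [pow_add]; ring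
    rw [this, Nat.add_mul_div_left _ _ (by positivity)]; ring
  have hr : 2 ^ r - 1 < 2 ^ (s + r) := by
    have h1 : 2 ^ r ≤ 2 ^ (s + r) := Nat.pow_le_pow_right (by norm_num) (by omega)
    have h2 : 0 < 2 ^ r := by positivity
    omega
  have ha2 : a / 2 ^ s < 2 ^ (s + r) :=
    lt_of_lt_of_le ha' (Nat.pow_le_pow_right (by norm_num) (by omega))
  apply Nat.eq_of_testBit_eq
  intro i
  rw [Nat.testBit_shiftRight, Nat.testBit_and, e1, Nat.testBit_two_pow_mul]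
  have e3 : Nat.testBit (a + b * 2 ^ (s + r)) (s + i) = Nat.testBit (2 ^ r * b + a / 2 ^ s) i := by
    rw [← e2, Nat.testBit_div_two_pow, add_comm i s]
  have e4 : a / 2 ^ s + b / 2 ^ s * 2 ^ (s + r) = 2 ^ (s + r) * (b / 2 ^ s) + a / 2 ^ s := by ring
  rw [e3, e4, Nat.testBit_two_pow_mul_add _ ha', Nat.testBit_two_pow_mul_add _ ha2]
  simp only [ge_iff_le, Nat.le_add_right, decide_true, Bool.true_and, Nat.add_sub_cancel_left]
  rw [Nat.testBit_two_pow_mul_add _ hr]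
  simp only [Nat.testBit_two_pow_sub_one]
  by_cases h1 : i < r
  · have h2 : i < s + r := by omega
    simp [h1, h2]
  · by_cases h2 : i < s + r
    · have h3 : (a / 2 ^ s).testBit i = false :=
        Nat.testBit_lt_two_pow (lt_of_lt_of_le ha' (Nat.pow_le_pow_right (by norm_num) (by omega)))
      simp [h1, h2, h3]
    · simp only [h1, h2, if_false]
      rw [Nat.testBit_div_two_pow]
      have e5 : i - (s + r) + s = i - r := by omega
      rw [e5]
      by_cases h4 : i - (s + r) < r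
      · simp [h4]
      · have h5 : b.testBit (i - r) = false :=
          Nat.testBit_lt_two_pow (lt_of_lt_of_le hb (Nat.pow_le_pow_right (by norm_num) (by omega)))
        simp [h5]

/-- product of pairs as Gaussian integers -/
def gmul (z w : ℤ × ℤ) : ℤ × ℤ := (z.1 * w.1 - z.2 * w.2, z.1 * w.2 + z.2 * w.1)

theorem Res.mul {y x x' : ℕ} {z z' : ℤ × ℤ} (h : Res y x z) (h' : Res y x' z') :
    Res y (x * x') (gmul z z') := by
  unfold Res gmul at *
  obtain ⟨a, ha⟩ := h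
  obtain ⟨b, hb⟩ := h'
  refine ⟨a * x' + (z.1 + z.2 * 2 ^ y) * b + z.2 * z'.2, ?_⟩
  push_cast
  linear_combination (x' : ℤ) * ha + (z.1 + z.2 * 2 ^ y) * hb

theorem Res.add {y x x' : ℕ} {z z' : ℤ × ℤ} (h : Res y x z) (h' : Res y x' z') :
    Res y (x + x') (z.1 + z'.1, z.2 + z'.2) := by
  unfold Res at *
  obtain ⟨a, ha⟩ := h
  obtain ⟨b, hb⟩ := h'
  refine ⟨a + b, ?_⟩
  push_cast
  linear_combination ha + hb

theorem Res.mul_nat {y x : ℕ} {z : ℤ × ℤ} (h : Res y x z) (n : ℕ) :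
    Res y (x * n) (z.1 * n, z.2 * n) := by
  unfold Res at *
  obtain ⟨a, ha⟩ := h
  refine ⟨a * n, ?_⟩
  push_cast
  linear_combination (n : ℤ) * ha

/-- the residue of small nonnegative lanes is exact -/
theorem Res.mod_eq {y x a b : ℕ} (h : Res y x ((a : ℤ), (b : ℤ))) (ha : a < 2 ^ y) (hb : b < 2 ^ y) :
    x % ((2 ^ y) ^ 2 + 1) = a + b * 2 ^ y := by
  have h1 : (((2 ^ y) ^ 2 + 1 : ℕ) : ℤ) ∣ (x : ℤ) - ((a + b * 2 ^ y : ℕ) : ℤ) := by
    unfold Res at h
    push_cast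
    exact h
  have h2 : a + b * 2 ^ y ≡ x [MOD (2 ^ y) ^ 2 + 1] := (Nat.modEq_iff_dvd).2 h1
  have h3 : a + b * 2 ^ y < (2 ^ y) ^ 2 + 1 := by
    have : b * 2 ^ y + 2 ^ y ≤ 2 ^ y * 2 ^ y := by
      have := Nat.mul_le_mul_right (2 ^ y) (Nat.succ_le_of_lt hb)
      rw [Nat.succ_mul] at this
      exact this
    nlinarith
  rw [← h2, Nat.mod_eq_of_lt h3]

/-- digits of a number in base `B` -/
theorem digit_eq {B : ℕ} (hB : 0 < B) (f : ℕ → ℕ) (hf : ∀ i, f i < B) (n k : ℕ) (hk : k < n) :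
    (∑ i ∈ range n, f i * B ^ i) / B ^ k % B = f k := by
  induction k generalizing f n with
  | zero =>
    obtain ⟨m, rfl⟩ : ∃ m, n = m + 1 := ⟨n - 1, by omega⟩
    rw [Finset.sum_range_succ', pow_zero, mul_one, Nat.div_one]
    have : ∑ i ∈ range m, f (i + 1) * B ^ (i + 1) = B * ∑ i ∈ range m, f (i + 1) * B ^ i := by
      rw [Finset.mul_sum]
      exact Finset.sum_congr rfl fun i _ => by ring
    rw [this, Nat.mul_add_mod, Nat.mod_eq_of_lt (hf 0)]
  | succ k ih =>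
    obtain ⟨m, rfl⟩ : ∃ m, n = m + 1 := ⟨n - 1, by omega⟩
    have h1 : (∑ i ∈ range (m + 1), f i * B ^ i) / B = ∑ i ∈ range m, f (i + 1) * B ^ i := by
      rw [Finset.sum_range_succ', pow_zero, mul_one]
      have : ∑ i ∈ range m, f (i + 1) * B ^ (i + 1) = B * ∑ i ∈ range m, f (i + 1) * B ^ i := by
        rw [Finset.mul_sum]
        exact Finset.sum_congr rfl fun i _ => by ring
      rw [this, Nat.mul_add_div hB, Nat.div_eq_of_lt (hf 0), add_zero]
    rw [pow_succ', ← Nat.div_div_eq_div_mul, h1]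
    exact ih (fun i => f (i + 1)) (fun i => hf (i + 1)) m (by omega)

/-- the packed vector `V_n` -/
theorem Vn_eq {X P n0 n : ℕ} (hX : 1 < X) (hP : Even P) :
    (Vn X P n0 n : ℤ) = ∑ p ∈ range (P + 1), ((n : ℤ) - n0) ^ p * (X : ℤ) ^ p := by
  unfold Vn
  have hodd : Odd (P + 1) := hP.add_one
  have hdd : ∀ a b : ℕ, Nat.div a b = a / b := fun _ _ => rfl
  by_cases h : n ≤ n0
  · rw [Nat.ble_eq_true_of_le h]
    simp only [cond_true, Nat.succ_eq_add_one, hdd, Nat.pow_eq, Nat.mul_eq, Nat.sub_eq]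
    obtain ⟨m, rfl⟩ := Nat.exists_eq_add_of_le h
    have e1 : n + m - n = m := by omega
    rw [e1]
    have hg := mul_neg_geom_sum (-((m : ℤ) * X)) (P + 1)
    have e2 : (1 : ℤ) - -((m : ℤ) * X) = ((m * X + 1 : ℕ) : ℤ) := by push_cast; ring
    have e3 : (1 : ℤ) - (-((m : ℤ) * X)) ^ (P + 1) = (((m * X) ^ (P + 1) + 1 : ℕ) : ℤ) := by
      rw [hodd.neg_pow]; push_cast; ring
    rw [e2, e3] at hg
    have e4 : ∑ p ∈ range (P + 1), ((n : ℤ) - ((n + m : ℕ) : ℤ)) ^ p * (X : ℤ) ^ p =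
        ∑ i ∈ range (P + 1), (-((m : ℤ) * X)) ^ i := by
      refine Finset.sum_congr rfl fun i _ => ?_
      rw [← mul_pow]
      congr 1
      push_cast; ring
    rw [e4, Int.natCast_div]
    rw [← hg]
    exact Int.mul_ediv_cancel_left _ (by positivity)
  · have h' : n0 < n := not_le.1 h
    have hb : Nat.ble n n0 = false := by
      rw [Bool.eq_false_iff]
      intro hc
      exact h (Nat.le_of_ble_eq_true hc)
    rw [hb]
    simp only [cond_false, Nat.succ_eq_add_one, hdd, Nat.pow_eq, Nat.mul_eq, Nat.sub_eq,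
      Nat.pred_eq_sub_one]
    obtain ⟨m, rfl⟩ := Nat.exists_eq_add_of_lt h'
    have e1 : n0 + m + 1 - n0 = m + 1 := by omega
    rw [e1]
    have hg := mul_geom_sum ((((m + 1) * X : ℕ) : ℤ)) (P + 1)
    have hx1 : 1 ≤ (m + 1) * X := by nlinarith
    have hx2 : 1 ≤ ((m + 1) * X) ^ (P + 1) := Nat.one_le_pow _ _ hx1
    have e2 : ((((m + 1) * X : ℕ) : ℤ)) - 1 = (((m + 1) * X - 1 : ℕ) : ℤ) := by
      rw [Nat.cast_sub hx1]; push_cast; ring
    have e3 : ((((m + 1) * X : ℕ) : ℤ)) ^ (P + 1) - 1 = ((((m + 1) * X) ^ (P + 1) - 1 : ℕ) : ℤ) := by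
      rw [Nat.cast_sub hx2]; push_cast; ring
    rw [e2, e3] at hg
    have e4 : ∑ p ∈ range (P + 1), (((n0 + m + 1 : ℕ) : ℤ) - (n0 : ℤ)) ^ p * (X : ℤ) ^ p =
        ∑ i ∈ range (P + 1), ((((m + 1) * X : ℕ) : ℤ)) ^ i := by
      refine Finset.sum_congr rfl fun i _ => ?_
      rw [← mul_pow]
      congr 1
      push_cast; ring
    rw [e4, Int.natCast_div]
    rw [← hg]
    refine Int.mul_ediv_cancel_left _ ?_
    have : 1 < (m + 1) * X := by nlinarith
    have h5 : 0 < (m + 1) * X - 1 := by omega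
    exact_mod_cast h5.ne'

end SokalFU
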