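import Pool.Agent.Lib_MP_af4de1_fu.EvC

/-!
# The main loop of the tube test computes the exact moments
-/

set_option autoImplicit false

namespace SokalFU

open Finset

/-! ### Bounds of the exact recursions -/

theorem cpx_gmul (z w : ℤ × ℤ) : cpx (gmul z w) = cpx z * cpx w := by
  unfold cpx gmul
  push_cast
  linear_combination (-(z.2 : ℂ) * w.2) * Complex.I_mul_I

theorem norm_cpx_le (z : ℤ × ℤ) : ‖cpx z‖ ≤ |(z.1 : ℝ)| + |(z.2 : ℝ)| := by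
  unfold cpx
  refine (norm_add_le _ _).trans ?_
  rw [norm_mul, Complex.norm_I, mul_one]
  have h1 : ‖(z.1 : ℂ)‖ = |(z.1 : ℝ)| := by
    rw [← Complex.ofReal_intCast, Complex.norm_real, Real.norm_eq_abs]
  have h2 : ‖(z.2 : ℂ)‖ = |(z.2 : ℝ)| := by
    rw [← Complex.ofReal_intCast, Complex.norm_real, Real.norm_eq_abs]
  rw [h1, h2]

theorem cpx_re (z : ℤ × ℤ) : (cpx z).re = z.1 := by
  simp [cpx]

theorem cpx_im (z : ℤ × ℤ) : (cpx z).im = z.2 := by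
  simp [cpx]

theorem abs_fst_le (z : ℤ × ℤ) : |(z.1 : ℝ)| ≤ ‖cpx z‖ := by
  rw [← cpx_re]; exact Complex.abs_re_le_norm _

theorem abs_snd_le (z : ℤ × ℤ) : |(z.2 : ℝ)| ≤ ‖cpx z‖ := by
  rw [← cpx_im]; exact Complex.abs_im_le_norm _

theorem ev_floor_err (a : ℤ) {E : ℤ} (hE : 0 < E) : |((a / E : ℤ) : ℝ) - (a : ℝ) / E| ≤ 1 := by
  have hE' : (0 : ℝ) < E := by exact_mod_cast hE
  have h1 : (E : ℝ) * ((a / E : ℤ) : ℝ) + ((a % E : ℤ) : ℝ) = a := by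
    exact_mod_cast Int.mul_ediv_add_emod a E
  have h2 : (0 : ℝ) ≤ ((a % E : ℤ) : ℝ) := by exact_mod_cast Int.emod_nonneg a hE.ne'
  have h3 : ((a % E : ℤ) : ℝ) ≤ E := by exact_mod_cast (Int.emod_lt_of_pos a hE).le
  have h4 : ((a / E : ℤ) : ℝ) - (a : ℝ) / E = -((a % E : ℤ) : ℝ) / E := by
    rw [← h1]; field_simp; ring
  rw [h4, abs_div, abs_neg, abs_of_nonneg h2, abs_of_pos hE', div_le_one hE']
  exact h3

/-- floor division of both coordinates -/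
theorem norm_floor (z : ℤ × ℤ) {E : ℤ} (hE : 0 < E) :
    ‖cpx (z.1 / E, z.2 / E) - cpx z / (E : ℂ)‖ ≤ 2 := by
  have h : cpx (z.1 / E, z.2 / E) - cpx z / (E : ℂ) =
      (((((z.1 / E : ℤ) : ℝ) - (z.1 : ℝ) / E : ℝ)) : ℂ) +
        (((((z.2 / E : ℤ) : ℝ) - (z.2 : ℝ) / E : ℝ)) : ℂ) * Complex.I := by
    unfold cpx
    push_cast
    ring
  rw [h]
  refine (norm_add_le _ _).trans ?_
  rw [norm_mul, Complex.norm_I, mul_one, Complex.norm_real, Complex.norm_real, Real.norm_eq_abs,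
    Real.norm_eq_abs]
  linarith [ev_floor_err z.1 hE, ev_floor_err z.2 hE]

theorem Wsp_succ (D : ℤ) (c q : ℤ × ℤ) (n : ℕ) :
    Wsp D c q (n + 1) = ((gmul (Wsp D c q n) q).1 / D, (gmul (Wsp D c q n) q).2 / D) := rfl

theorem Tsp_succ (D : ℤ) (c q : ℤ × ℤ) (n : ℕ) :
    Tsp D c q (n + 1) = ((gmul (Tsp D c q n) (Wsp D c q n)).1 * (D / ((n : ℤ) + 1)) / D ^ 2,
      (gmul (Tsp D c q n) (Wsp D c q n)).2 * (D / ((n : ℤ) + 1)) / D ^ 2) := rfl

theorem W_bound {D : ℤ} (hD : 0 < D) {c q : ℤ × ℤ} {R : ℕ} (hq : ‖cpx q‖ ≤ D + 2)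
    (hc : ‖cpx c‖ ≤ R * D) {N : ℕ} (hN : (N : ℤ) * (2 * R + 4) ≤ D) (n : ℕ) (hn : n ≤ N) :
    ‖cpx (Wsp D c q n)‖ ≤ R * D + (2 * R + 4) * n := by
  have hD' : (0 : ℝ) < D := by exact_mod_cast hD
  have hN' : (N : ℝ) * (2 * R + 4) ≤ D := by exact_mod_cast hN
  induction n with
  | zero => simpa [Wsp] using hc
  | succ n ih =>
    have ih := ih (by omega)
    have hn' : ((n : ℝ) + 1) ≤ N := by exact_mod_cast hn
    have h1 := norm_floor (gmul (Wsp D c q n) q) hD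
    rw [← Wsp_succ, cpx_gmul] at h1
    have h2 : ‖cpx (Wsp D c q n) * cpx q / (D : ℂ)‖ ≤ ‖cpx (Wsp D c q n)‖ * ((D + 2) / D) := by
      rw [norm_div, norm_mul]
      have : ‖(D : ℂ)‖ = D := by
        rw [← Complex.ofReal_intCast, Complex.norm_real, Real.norm_of_nonneg hD'.le]
      rw [this, mul_div_assoc]
      exact mul_le_mul_of_nonneg_left (div_le_div_of_nonneg_right hq hD'.le) (norm_nonneg _)
    have h3 : ‖cpx (Wsp D c q (n + 1))‖ ≤ ‖cpx (Wsp D c q n)‖ * ((D + 2) / D) + 2 := by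
      calc ‖cpx (Wsp D c q (n + 1))‖ = ‖(cpx (Wsp D c q (n + 1)) - cpx (Wsp D c q n) * cpx q / (D : ℂ)) +
            cpx (Wsp D c q n) * cpx q / (D : ℂ)‖ := by congr 1; ring
        _ ≤ 2 + ‖cpx (Wsp D c q n)‖ * ((D + 2) / D) := (norm_add_le _ _).trans (add_le_add h1 h2)
        _ = _ := by ring
    have h4 : ‖cpx (Wsp D c q n)‖ ≤ (R + 1) * D := by
      have hn0 : (0 : ℝ) ≤ 2 * R + 4 := by positivity
      have : (2 * (R : ℝ) + 4) * n ≤ D := by nlinarith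
      linarith
    have h5 : ‖cpx (Wsp D c q n)‖ * ((D + 2) / D) = ‖cpx (Wsp D c q n)‖ + ‖cpx (Wsp D c q n)‖ * 2 / D := by
      field_simp
    have h6 : ‖cpx (Wsp D c q n)‖ * 2 / D ≤ (R + 1) * 2 := by
      rw [div_le_iff₀ hD']
      nlinarith
    push_cast
    linarith

/-- integer bound for `|T_n|` -/
def bN (D R : ℕ) : ℕ → ℕ
  | 0 => D
  | n + 1 => bN D R n * (R + 1) / (n + 1) + 3

theorem T_bound {DN : ℕ} (hD : 0 < DN) {c q : ℤ × ℤ} {R : ℕ} (hq : ‖cpx q‖ ≤ ((DN : ℤ) : ℝ) + 2)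
    (hc : ‖cpx c‖ ≤ R * ((DN : ℤ) : ℝ)) {N : ℕ} (hN : (N : ℤ) * (2 * R + 4) ≤ DN) (n : ℕ) (hn : n ≤ N) :
    ‖cpx (Tsp DN c q n)‖ ≤ bN DN R n := by
  have hDz : (0 : ℤ) < (DN : ℤ) := by exact_mod_cast hD
  have hD' : (0 : ℝ) < (DN : ℝ) := by exact_mod_cast hD
  have hN' : (N : ℝ) * (2 * R + 4) ≤ DN := by exact_mod_cast hN
  induction n with
  | zero => simp [Tsp, bN, cpx]
  | succ n ih =>
    have ih := ih (by omega)
    have hn' : ((n : ℝ) + 1) ≤ N := by exact_mod_cast hn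
    have hw := W_bound hDz hq hc hN n (by omega)
    have hw2 : ‖cpx (Wsp DN c q n)‖ ≤ (R + 1) * DN := by
      have hn0 : (0 : ℝ) ≤ 2 * R + 4 := by positivity
      have : (2 * (R : ℝ) + 4) * n ≤ DN := by nlinarith
      push_cast at hw
      linarith
    obtain ⟨I, hI⟩ : ∃ I : ℤ, I = (DN : ℤ) / ((n : ℤ) + 1) := ⟨_, rfl⟩
    have hI0 : 0 ≤ I := by rw [hI]; positivity
    have hI1 : (I : ℝ) ≤ DN / (n + 1) := by
      have h1 : I * ((n : ℤ) + 1) ≤ DN := by rw [hI]; exact Int.ediv_mul_le _ (by positivity)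
      rw [le_div_iff₀ (by positivity)]
      exact_mod_cast h1
    have hI0' : (0 : ℝ) ≤ I := by exact_mod_cast hI0
    have h1 := norm_floor ((gmul (Tsp DN c q n) (Wsp DN c q n)).1 * I,
      (gmul (Tsp DN c q n) (Wsp DN c q n)).2 * I) (E := (DN : ℤ) ^ 2) (by positivity)
    have e1 : cpx ((gmul (Tsp DN c q n) (Wsp DN c q n)).1 * I,
      (gmul (Tsp DN c q n) (Wsp DN c q n)).2 * I) = cpx (Tsp DN c q n) * cpx (Wsp DN c q n) * I := by
      rw [← cpx_gmul]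
      unfold cpx
      push_cast
      ring
    rw [e1] at h1
    have e2 : cpx (Tsp DN c q (n + 1)) = cpx ((gmul (Tsp DN c q n) (Wsp DN c q n)).1 * I / (DN : ℤ) ^ 2,
      (gmul (Tsp DN c q n) (Wsp DN c q n)).2 * I / (DN : ℤ) ^ 2) := by
      rw [Tsp_succ, hI]
    rw [← e2] at h1
    have h2 : ‖cpx (Tsp DN c q n) * cpx (Wsp DN c q n) * I / (((DN : ℤ) ^ 2 : ℤ) : ℂ)‖ ≤
        (bN DN R n : ℝ) * ((R : ℝ) + 1) / (n + 1) := by
      rw [norm_div, norm_mul, norm_mul]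
      have e3 : ‖(I : ℂ)‖ = I := by
        rw [← Complex.ofReal_intCast, Complex.norm_real, Real.norm_of_nonneg hI0']
      have e4 : ‖(((DN : ℤ) ^ 2 : ℤ) : ℂ)‖ = (DN : ℝ) ^ 2 := by
        rw [← Complex.ofReal_intCast, Complex.norm_real, Real.norm_of_nonneg (by positivity)]
        push_cast; ring
      rw [e3, e4, div_le_iff₀ (by positivity)]
      calc ‖cpx (Tsp DN c q n)‖ * ‖cpx (Wsp DN c q n)‖ * (I : ℝ)
          ≤ (bN DN R n : ℝ) * (((R : ℝ) + 1) * DN) * (DN / (n + 1)) := by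
            refine mul_le_mul (mul_le_mul ih hw2 (norm_nonneg _) (Nat.cast_nonneg _)) hI1 hI0' (by positivity)
        _ = _ := by field_simp
    have h3 : ‖cpx (Tsp DN c q (n + 1))‖ ≤ (bN DN R n : ℝ) * ((R : ℝ) + 1) / (n + 1) + 2 := by
      calc ‖cpx (Tsp DN c q (n + 1))‖ = ‖(cpx (Tsp DN c q (n + 1)) -
            cpx (Tsp DN c q n) * cpx (Wsp DN c q n) * I / (((DN : ℤ) ^ 2 : ℤ) : ℂ)) +
            cpx (Tsp DN c q n) * cpx (Wsp DN c q n) * I / (((DN : ℤ) ^ 2 : ℤ) : ℂ)‖ := by congr 1; ring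
        _ ≤ 2 + (bN DN R n : ℝ) * ((R : ℝ) + 1) / (n + 1) := (norm_add_le _ _).trans (add_le_add h1 h2)
        _ = _ := by ring
    have h4 : (bN DN R n : ℝ) * ((R : ℝ) + 1) / (n + 1) ≤ ((bN DN R n * (R + 1) / (n + 1) : ℕ) : ℝ) + 1 := by
      have h5 : bN DN R n * (R + 1) < (bN DN R n * (R + 1) / (n + 1) + 1) * (n + 1) := by
        have := Nat.lt_div_mul_add (a := bN DN R n * (R + 1)) (b := n + 1) (Nat.succ_pos n)
        linarith
      rw [div_le_iff₀ (by positivity)]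
      exact_mod_cast h5.le
    have h6 : ((bN DN R (n + 1) : ℕ) : ℝ) = ((bN DN R n * (R + 1) / (n + 1) : ℕ) : ℝ) + 3 := by
      rw [bN]; push_cast; ring
    rw [h6]
    linarith

end SokalFU
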