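import Pool.Agent.Lib_MP_af4de1_fu.EvD

/-!
# The main loop of the tube test computes the exact moments
-/

set_option autoImplicit false

namespace SokalFU

open Finset

/-! ### One step -/

theorem Res.bias (y h : ℕ) : Res y (h * (2 ^ y + 1)) ((h : ℤ), (h : ℤ)) := by
  unfold Res
  refine ⟨0, ?_⟩
  push_cast
  ring

theorem lane_div {y s : ℕ} (hs : s + 2 ≤ y) (g : ℤ) (h1 : |g| < 2 ^ (y - 2)) :
    (g + 2 ^ (y - 2)).toNat / 2 ^ s = (g / 2 ^ s + 2 ^ (y - 2 - s)).toNat ∧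
      0 ≤ g / 2 ^ s + 2 ^ (y - 2 - s) := by
  obtain ⟨r, hr⟩ : ∃ r, y - 2 = r + s := ⟨y - 2 - s, by omega⟩
  have e1 : y - 2 - s = r := by omega
  rw [e1]
  rw [hr] at h1 ⊢
  have hg := abs_lt.1 h1
  have e2 : (g + 2 ^ (r + s)) / 2 ^ s = g / 2 ^ s + 2 ^ r := by
    rw [pow_add]
    exact Int.add_mul_ediv_right _ _ (by positivity)
  have h0 : 0 ≤ g + 2 ^ (r + s) := by linarith [hg.1]
  have h2 : 0 ≤ g / 2 ^ s + 2 ^ r := by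
    rw [← e2]
    exact Int.ediv_nonneg h0 (by positivity)
  refine ⟨?_, h2⟩
  have h3 : (((g + 2 ^ (r + s)).toNat / 2 ^ s : ℕ) : ℤ) = (((g / 2 ^ s + 2 ^ r).toNat : ℕ) : ℤ) := by
    rw [Int.natCast_div, Int.toNat_of_nonneg h0, Int.toNat_of_nonneg h2, ← e2]
    push_cast
    rfl
  exact_mod_cast h3

/-- the packed floor division -/
theorem lane {y s x : ℕ} {g : ℤ × ℤ} (h : Res y x g) (h1 : |g.1| < 2 ^ (y - 2)) (h2 : |g.2| < 2 ^ (y - 2))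
    (hs : s + 2 ≤ y) :
    ((x + 2 ^ (y - 2) * (2 ^ y + 1)) % ((2 ^ y) ^ 2 + 1) &&& ((2 ^ y - 2 ^ s) * (2 ^ y + 1))) >>> s =
      (g.1 / 2 ^ s + 2 ^ (y - 2 - s)).toNat + (g.2 / 2 ^ s + 2 ^ (y - 2 - s)).toNat * 2 ^ y := by
  have hg1 := abs_lt.1 h1
  have hg2 := abs_lt.1 h2
  have e0 : (2 : ℤ) ^ (y - 2) + 2 ^ (y - 2) ≤ 2 ^ y := by
    have : (2 : ℤ) ^ y = 2 ^ (y - 2) * 4 := by
      rw [show (4 : ℤ) = 2 ^ 2 by norm_num, ← pow_add]; congr 1; omega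
    rw [this]
    have : (0 : ℤ) < 2 ^ (y - 2) := by positivity
    linarith
  have hn1 : 0 ≤ g.1 + 2 ^ (y - 2) := by linarith [hg1.1]
  have hn2 : 0 ≤ g.2 + 2 ^ (y - 2) := by linarith [hg2.1]
  have hr : Res y (x + 2 ^ (y - 2) * (2 ^ y + 1))
      (((g.1 + 2 ^ (y - 2)).toNat : ℤ), ((g.2 + 2 ^ (y - 2)).toNat : ℤ)) := by
    rw [Int.toNat_of_nonneg hn1, Int.toNat_of_nonneg hn2]
    have := h.add (Res.bias y (2 ^ (y - 2)))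
    push_cast at this
    exact this
  have hlt : ∀ g : ℤ, g < 2 ^ (y - 2) → 0 ≤ g + 2 ^ (y - 2) → (g + 2 ^ (y - 2)).toNat < 2 ^ y := by
    intro g hg h0
    have : (((g + 2 ^ (y - 2)).toNat : ℕ) : ℤ) < ((2 ^ y : ℕ) : ℤ) := by
      rw [Int.toNat_of_nonneg h0]
      push_cast
      linarith
    exact_mod_cast this
  rw [hr.mod_eq (hlt _ hg1.2 hn1) (hlt _ hg2.2 hn2),
    mask_shift (by omega) (hlt _ hg1.2 hn1) (hlt _ hg2.2 hn2), (lane_div hs g.1 h1).1, (lane_div hs g.2 h2).1]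

/-- removing the bias -/
theorem unbias {y a : ℕ} {g : ℤ × ℤ} (ha : a * (2 ^ y + 1) ≤ (2 ^ y) ^ 2 + 1) (h1 : 0 ≤ g.1 + a) (h2 : 0 ≤ g.2 + a) :
    Res y ((g.1 + a).toNat + (g.2 + a).toNat * 2 ^ y + (((2 ^ y) ^ 2 + 1) - a * (2 ^ y + 1))) g := by
  unfold Res
  refine ⟨1, ?_⟩
  rw [Nat.cast_add, Nat.cast_sub ha]
  push_cast
  rw [Int.toNat_of_nonneg h1, Int.toNat_of_nonneg h2]
  ring

/-! ### The loop -/

theorem ClsI.MM_eq (K : ClsI) : K.MM = (2 ^ K.y) ^ 2 + 1 := by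
  unfold ClsI.MM ClsI.X
  rw [Nat.pow_eq, Nat.mul_eq, Nat.succ_eq_add_one, ← pow_mul, mul_comm 2 K.y]

/-- bounds needed for the exactness of the lanes -/
structure Ok (K : ClsI) (c q : ℤ × ℤ) : Prop where
  hS : 2 * K.S + 3 ≤ K.y
  Wb : ∀ n < K.N, |(gmul (Wsp (2 ^ K.S) c q n) q).1| < 2 ^ (K.y - 2) ∧ |(gmul (Wsp (2 ^ K.S) c q n) q).2| < 2 ^ (K.y - 2)
  Tb : ∀ n < K.N, |(gmul (Tsp (2 ^ K.S) c q n) (Wsp (2 ^ K.S) c q n)).1 * (2 ^ K.S / ((n : ℤ) + 1))| < 2 ^ (K.y - 2) ∧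
    |(gmul (Tsp (2 ^ K.S) c q n) (Wsp (2 ^ K.S) c q n)).2 * (2 ^ K.S / ((n : ℤ) + 1))| < 2 ^ (K.y - 2)
  T0 : 2 ^ K.S ≤ 2 ^ (K.y - 2 - 2 * K.S)

/-- packed biased `T` -/
def TBn (K : ClsI) (T : ℤ × ℤ) : ℕ :=
  (T.1 + 2 ^ (K.y - 2 - 2 * K.S)).toNat + (T.2 + 2 ^ (K.y - 2 - 2 * K.S)).toNat * 2 ^ K.y

theorem stepW_res {K : ClsI} {c q : ℤ × ℤ} (h : Ok K c q) {n : ℕ} (hn : n < K.N) {w qn : ℕ}
    (hw : Res K.y w (Wsp (2 ^ K.S) c q n)) (hq : Res K.y qn q) :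
    Res K.y (stepW K.S K.MM K.bias K.mask1 K.unb1 qn w) (Wsp (2 ^ K.S) c q (n + 1)) := by
  have hS := h.hS
  have e1 : stepW K.S K.MM K.bias K.mask1 K.unb1 qn w =
      ((w * qn + 2 ^ (K.y - 2) * (2 ^ K.y + 1)) % ((2 ^ K.y) ^ 2 + 1) &&& ((2 ^ K.y - 2 ^ K.S) * (2 ^ K.y + 1))) >>> K.S +
        ((2 ^ K.y) ^ 2 + 1 - 2 ^ (K.y - 2 - K.S) * (2 ^ K.y + 1)) := by
    rw [← K.MM_eq]
    rfl
  rw [e1, lane (hw.mul hq) (h.Wb n hn).1 (h.Wb n hn).2 (by omega), Wsp_succ]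
  have hz1 := (lane_div (y := K.y) (s := K.S) (by omega) _ (h.Wb n hn).1).2
  have hz2 := (lane_div (y := K.y) (s := K.S) (by omega) _ (h.Wb n hn).2).2
  have hB : 2 ^ (K.y - 2 - K.S) * (2 ^ K.y + 1) ≤ (2 ^ K.y) ^ 2 + 1 := by
    have e2 : 2 ^ (K.y - 2 - K.S) ≤ 2 ^ (K.y - 1) := Nat.pow_le_pow_right (by norm_num) (by omega)
    have e3 : 2 ^ (K.y - 1) * 2 = 2 ^ K.y := by
      rw [← pow_succ]; congr 1; omega
    have e4 : 0 < 2 ^ (K.y - 1) := by positivity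
    nlinarith
  have := unbias (y := K.y) (a := 2 ^ (K.y - 2 - K.S))
    (g := ((gmul (Wsp (2 ^ K.S) c q n) q).1 / 2 ^ K.S, (gmul (Wsp (2 ^ K.S) c q n) q).2 / 2 ^ K.S)) hB
    (by push_cast; exact hz1) (by push_cast; exact hz2)
  push_cast at this
  exact this

theorem stepT_eq {K : ClsI} {c q : ℤ × ℤ} (h : Ok K c q) {n : ℕ} (hn : n < K.N) {w : ℕ}
    (hw : Res K.y w (Wsp (2 ^ K.S) c q n))
    (h1 : 0 ≤ (Tsp (2 ^ K.S) c q n).1 + 2 ^ (K.y - 2 - 2 * K.S))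
    (h2 : 0 ≤ (Tsp (2 ^ K.S) c q n).2 + 2 ^ (K.y - 2 - 2 * K.S)) :
    stepT (Nat.mul 2 K.S) K.DN K.MM K.bias K.mask2 K.unb2 n w (TBn K (Tsp (2 ^ K.S) c q n)) =
      TBn K (Tsp (2 ^ K.S) c q (n + 1)) := by
  have hS := h.hS
  have e1 : stepT (Nat.mul 2 K.S) K.DN K.MM K.bias K.mask2 K.unb2 n w (TBn K (Tsp (2 ^ K.S) c q n)) =
      (((TBn K (Tsp (2 ^ K.S) c q n) + ((2 ^ K.y) ^ 2 + 1 - 2 ^ (K.y - 2 - 2 * K.S) * (2 ^ K.y + 1))) * w *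
        (2 ^ K.S / (n + 1)) + 2 ^ (K.y - 2) * (2 ^ K.y + 1)) % ((2 ^ K.y) ^ 2 + 1) &&&
          ((2 ^ K.y - 2 ^ (2 * K.S)) * (2 ^ K.y + 1))) >>> (2 * K.S) := by
    rw [← K.MM_eq]
    rfl
  have hB : 2 ^ (K.y - 2 - 2 * K.S) * (2 ^ K.y + 1) ≤ (2 ^ K.y) ^ 2 + 1 := by
    have e2 : 2 ^ (K.y - 2 - 2 * K.S) ≤ 2 ^ (K.y - 1) := Nat.pow_le_pow_right (by norm_num) (by omega)
    have e3 : 2 ^ (K.y - 1) * 2 = 2 ^ K.y := by
      rw [← pow_succ]; congr 1; omega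
    have e4 : 0 < 2 ^ (K.y - 1) := by positivity
    nlinarith
  have hT := unbias (y := K.y) (a := 2 ^ (K.y - 2 - 2 * K.S)) (g := Tsp (2 ^ K.S) c q n) hB
    (by push_cast; exact h1) (by push_cast; exact h2)
  push_cast at hT
  have hT' : Res K.y (TBn K (Tsp (2 ^ K.S) c q n) + ((2 ^ K.y) ^ 2 + 1 - 2 ^ (K.y - 2 - 2 * K.S) * (2 ^ K.y + 1)))
      (Tsp (2 ^ K.S) c q n) := hT
  have hR := (hT'.mul hw).mul_nat (2 ^ K.S / (n + 1))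
  have eI : (((2 ^ K.S / (n + 1) : ℕ)) : ℤ) = 2 ^ K.S / ((n : ℤ) + 1) := by
    rw [Int.natCast_div]; push_cast; rfl
  rw [eI] at hR
  rw [e1, lane hR (h.Tb n hn).1 (h.Tb n hn).2 (by omega), Tsp_succ, TBn]
  have eD : ((2 : ℤ) ^ K.S) ^ 2 = 2 ^ (2 * K.S) := by rw [← pow_mul, mul_comm K.S 2]
  rw [eD]

theorem T_nonneg {K : ClsI} {c q : ℤ × ℤ} (h : Ok K c q) (n : ℕ) (hn : n ≤ K.N) :
    0 ≤ (Tsp (2 ^ K.S) c q n).1 + 2 ^ (K.y - 2 - 2 * K.S) ∧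
      0 ≤ (Tsp (2 ^ K.S) c q n).2 + 2 ^ (K.y - 2 - 2 * K.S) := by
  cases n with
  | zero =>
    simp only [Tsp]
    constructor <;> positivity
  | succ n =>
    have hS := h.hS
    have h1 := (lane_div (y := K.y) (s := 2 * K.S) (by omega) _ (h.Tb n (by omega)).1).2
    have h2 := (lane_div (y := K.y) (s := 2 * K.S) (by omega) _ (h.Tb n (by omega)).2).2
    have eD : ((2 : ℤ) ^ K.S) ^ 2 = 2 ^ (2 * K.S) := by rw [← pow_mul, mul_comm K.S 2]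
    rw [Tsp_succ, eD]
    exact ⟨h1, h2⟩

theorem loop_eq {K : ClsI} {c q : ℤ × ℤ} (h : Ok K c q) {qn : ℕ} (hq : Res K.y qn q) (k : ℕ) :
    ∀ (n w acc : ℕ), n + k ≤ K.N → Res K.y w (Wsp (2 ^ K.S) c q n) →
      loop K.S (Nat.mul 2 K.S) K.DN K.MM K.bias K.mask1 K.mask2 K.unb1 K.unb2 K.X K.P K.n0 qn k n w
        (TBn K (Tsp (2 ^ K.S) c q n)) acc =
      acc + ∑ i ∈ range k, TBn K (Tsp (2 ^ K.S) c q (n + i)) * Vn K.X K.P K.n0 (n + i) := by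
  induction k with
  | zero =>
    intro n w acc _ _
    rw [Finset.sum_range_zero, add_zero]
    rfl
  | succ k ih =>
    intro n w acc hn hw
    have e1 : loop K.S (Nat.mul 2 K.S) K.DN K.MM K.bias K.mask1 K.mask2 K.unb1 K.unb2 K.X K.P K.n0 qn (k + 1) n w
        (TBn K (Tsp (2 ^ K.S) c q n)) acc =
      loop K.S (Nat.mul 2 K.S) K.DN K.MM K.bias K.mask1 K.mask2 K.unb1 K.unb2 K.X K.P K.n0 qn k (n + 1)
        (stepW K.S K.MM K.bias K.mask1 K.unb1 qn w)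
        (stepT (Nat.mul 2 K.S) K.DN K.MM K.bias K.mask2 K.unb2 n w (TBn K (Tsp (2 ^ K.S) c q n)))
        (acc + TBn K (Tsp (2 ^ K.S) c q n) * Vn K.X K.P K.n0 n) := rfl
    have hT := T_nonneg h n (by omega)
    rw [e1, stepT_eq h (by omega) hw hT.1 hT.2, ih (n + 1) _ _ (by omega) (stepW_res h (by omega) hw hq),
      Finset.sum_range_succ']
    have e2 : ∀ i, n + 1 + i = n + (i + 1) := fun i => by ring
    simp only [e2, add_zero]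
    ring

end SokalFU
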