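import Pool.Agent.Lib_MP_af4de1_fu.EvF

/-!
# The lanes of the packed moments
-/

set_option autoImplicit false

namespace SokalFU

open Finset

theorem ClsI.X_eq (K : ClsI) : K.X = 2 ^ (2 * K.y) := rfl

theorem ClsI.P_eq (K : ClsI) : K.P = 2 * K.M := rfl

theorem sumV_eq (X P n0 N : ℕ) : sumV X P n0 N = ∑ n ∈ range N, Vn X P n0 n := by
  induction N with
  | zero => rfl
  | succ N ih =>
    rw [Finset.sum_range_succ, ← ih]
    rfl

/-- digits of the packed moments -/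
def dg (K : ClsI) (c q : ℤ × ℤ) (i : ℕ) : ℕ :=
  if i % 2 = 0 then (Mre (2 ^ K.S) c q K.n0 K.N (i / 2) + 2 ^ (K.y - 1)).toNat
  else (Mim (2 ^ K.S) c q K.n0 K.N (i / 2) + 2 ^ (K.y - 1)).toNat

/-- bounds of the moments -/
structure OkM (K : ClsI) (c q : ℤ × ℤ) : Prop extends Ok K c q where
  Mr : ∀ p ≤ 2 * K.M, |Mre (2 ^ K.S) c q K.n0 K.N p| < 2 ^ (K.y - 1)
  Mi : ∀ p ≤ 2 * K.M, |Mim (2 ^ K.S) c q K.n0 K.N p| < 2 ^ (K.y - 1)

theorem sum_two (f : ℕ → ℤ) (n : ℕ) :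
    ∑ i ∈ range (2 * n), f i = ∑ p ∈ range n, (f (2 * p) + f (2 * p + 1)) := by
  induction n with
  | zero => rfl
  | succ n ih =>
    rw [Finset.sum_range_succ, ← ih, show 2 * (n + 1) = 2 * n + 1 + 1 by ring, Finset.sum_range_succ,
      Finset.sum_range_succ]
    ring

theorem TBn_cast {K : ClsI} {T : ℤ × ℤ} (h1 : 0 ≤ T.1 + 2 ^ (K.y - 2 - 2 * K.S))
    (h2 : 0 ≤ T.2 + 2 ^ (K.y - 2 - 2 * K.S)) :
    ((TBn K T : ℕ) : ℤ) = (T.1 + T.2 * 2 ^ K.y) + 2 ^ (K.y - 2 - 2 * K.S) * (2 ^ K.y + 1) := by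
  unfold TBn
  push_cast
  rw [Int.toNat_of_nonneg h1, Int.toNat_of_nonneg h2]
  ring

theorem geomN {X : ℕ} (hX : 1 < X) (n : ℕ) : (((X ^ n - 1) / (X - 1) : ℕ) : ℤ) = ∑ p ∈ range n, (X : ℤ) ^ p := by
  have h1 := Nat.geomSum_eq (m := X) (by omega) n
  rw [← h1]
  push_cast
  rfl

/-- the packed moments -/
theorem moms_eq {K : ClsI} {c q : ℤ × ℤ} (h : OkM K c q) {qn cn : ℕ} (hq : Res K.y qn q) (hc : Res K.y cn c) :
    moms K qn cn = ∑ i ∈ range (2 * (2 * K.M + 1)), dg K c q i * (2 ^ K.y) ^ i := by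
  have hS := h.hS
  have hX : 1 < K.X := by
    rw [K.X_eq]
    exact Nat.one_lt_two_pow (by omega)
  have hL := loop_eq h.toOk hq K.N 0 cn 0 (by omega) hc
  have e0 : TBn K (Tsp (2 ^ K.S) c q 0) = Nat.add K.DN (Nat.mul K.B2 (Nat.succ K.Y)) := by
    have : ((TBn K (Tsp (2 ^ K.S) c q 0) : ℕ) : ℤ) = ((K.DN + K.B2 * (K.Y + 1) : ℕ) : ℤ) := by
      have hT := T_nonneg h.toOk 0 (by omega)
      rw [TBn_cast hT.1 hT.2]
      have e1 : K.DN = 2 ^ K.S := rfl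
      have e2 : K.B2 = 2 ^ (K.y - 2 - 2 * K.S) := rfl
      have e3 : K.Y = 2 ^ K.y := rfl
      rw [e1, e2, e3]
      simp only [Tsp]
      push_cast
      ring
    exact_mod_cast this
  rw [e0] at hL
  have hI : ((loop K.S (Nat.mul 2 K.S) K.DN K.MM K.bias K.mask1 K.mask2 K.unb1 K.unb2 K.X K.P K.n0 qn K.N 0 cn
        (Nat.add K.DN (Nat.mul K.B2 (Nat.succ K.Y))) 0 : ℕ) : ℤ) =
      ∑ p ∈ range (2 * K.M + 1), (Mre (2 ^ K.S) c q K.n0 K.N p + Mim (2 ^ K.S) c q K.n0 K.N p * 2 ^ K.y) * (K.X : ℤ) ^ p +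
        2 ^ (K.y - 2 - 2 * K.S) * (2 ^ K.y + 1) * ((sumV K.X K.P K.n0 K.N : ℕ) : ℤ) := by
    rw [hL, sumV_eq]
    push_cast
    rw [zero_add]
    have e1 : ∀ n ∈ range K.N, ((TBn K (Tsp (2 ^ K.S) c q (0 + n)) : ℕ) : ℤ) * ((Vn K.X K.P K.n0 (0 + n) : ℕ) : ℤ) =
        ∑ p ∈ range (2 * K.M + 1), ((Tsp (2 ^ K.S) c q n).1 * ((n : ℤ) - K.n0) ^ p +
          (Tsp (2 ^ K.S) c q n).2 * ((n : ℤ) - K.n0) ^ p * 2 ^ K.y) * (K.X : ℤ) ^ p +
        2 ^ (K.y - 2 - 2 * K.S) * (2 ^ K.y + 1) * ((Vn K.X K.P K.n0 n : ℕ) : ℤ) := by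
      intro n hn
      have hT := T_nonneg h.toOk n (Finset.mem_range.1 hn).le
      rw [zero_add, TBn_cast hT.1 hT.2, add_mul, Vn_eq hX (by rw [K.P_eq]; exact even_two_mul _), Finset.mul_sum, K.P_eq]
      congr 1
      refine Finset.sum_congr rfl fun p _ => ?_
      ring
    rw [Finset.sum_congr rfl e1, Finset.sum_add_distrib, Finset.sum_comm, ← Finset.mul_sum]
    congr 1
    refine Finset.sum_congr rfl fun p _ => ?_
    unfold Mre Mim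
    rw [Finset.sum_mul, ← Finset.sum_add_distrib, Finset.sum_mul]
  have hLB : ((K.LB : ℕ) : ℤ) = 2 ^ (K.y - 1) * (2 ^ K.y + 1) * ∑ p ∈ range (2 * K.M + 1), (K.X : ℤ) ^ p := by
    have e1 : K.LB = 2 ^ (K.y - 1) * (2 ^ K.y + 1) * ((K.X ^ (K.P + 1) - 1) / (K.X - 1)) := rfl
    rw [e1, Nat.cast_mul, geomN hX, K.P_eq]
    push_cast
    rfl
  have hdg : ((∑ i ∈ range (2 * (2 * K.M + 1)), dg K c q i * (2 ^ K.y) ^ i : ℕ) : ℤ) =
      ∑ p ∈ range (2 * K.M + 1), ((Mre (2 ^ K.S) c q K.n0 K.N p + 2 ^ (K.y - 1)) +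
        (Mim (2 ^ K.S) c q K.n0 K.N p + 2 ^ (K.y - 1)) * 2 ^ K.y) * (K.X : ℤ) ^ p := by
    push_cast
    rw [sum_two]
    refine Finset.sum_congr rfl fun p hp => ?_
    have hp' : p ≤ 2 * K.M := Nat.lt_succ_iff.1 (Finset.mem_range.1 hp)
    have h1 : dg K c q (2 * p) = (Mre (2 ^ K.S) c q K.n0 K.N p + 2 ^ (K.y - 1)).toNat := by
      unfold dg
      rw [if_pos (by omega), show 2 * p / 2 = p by omega]
    have h2 : dg K c q (2 * p + 1) = (Mim (2 ^ K.S) c q K.n0 K.N p + 2 ^ (K.y - 1)).toNat := by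
      unfold dg
      rw [if_neg (by omega), show (2 * p + 1) / 2 = p by omega]
    have h3 : 0 ≤ Mre (2 ^ K.S) c q K.n0 K.N p + 2 ^ (K.y - 1) := by
      have := (abs_lt.1 (h.Mr p hp')).1
      linarith
    have h4 : 0 ≤ Mim (2 ^ K.S) c q K.n0 K.N p + 2 ^ (K.y - 1) := by
      have := (abs_lt.1 (h.Mi p hp')).1
      linarith
    rw [h1, h2, Int.toNat_of_nonneg h3, Int.toNat_of_nonneg h4, K.X_eq]
    push_cast
    ring
  have hfin : ((∑ i ∈ range (2 * (2 * K.M + 1)), dg K c q i * (2 ^ K.y) ^ i : ℕ) : ℤ) +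
      ((K.B2 * (K.Y + 1) * sumV K.X K.P K.n0 K.N : ℕ) : ℤ) =
      ((loop K.S (Nat.mul 2 K.S) K.DN K.MM K.bias K.mask1 K.mask2 K.unb1 K.unb2 K.X K.P K.n0 qn K.N 0 cn
        (Nat.add K.DN (Nat.mul K.B2 (Nat.succ K.Y))) 0 + K.LB : ℕ) : ℤ) := by
    rw [hdg, Nat.cast_add, hI, hLB]
    have e2 : K.B2 = 2 ^ (K.y - 2 - 2 * K.S) := rfl
    have e3 : K.Y = 2 ^ K.y := rfl
    rw [e2, e3, Finset.mul_sum]
    push_cast
    rw [add_right_comm, ← Finset.sum_add_distrib]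
    congr 1
    refine Finset.sum_congr rfl fun p _ => ?_
    ring
  have hfin' : (∑ i ∈ range (2 * (2 * K.M + 1)), dg K c q i * (2 ^ K.y) ^ i) + K.B2 * (K.Y + 1) * sumV K.X K.P K.n0 K.N =
      loop K.S (Nat.mul 2 K.S) K.DN K.MM K.bias K.mask1 K.mask2 K.unb1 K.unb2 K.X K.P K.n0 qn K.N 0 cn
        (Nat.add K.DN (Nat.mul K.B2 (Nat.succ K.Y))) 0 + K.LB := by exact_mod_cast hfin
  have e4 : moms K qn cn = (loop K.S (Nat.mul 2 K.S) K.DN K.MM K.bias K.mask1 K.mask2 K.unb1 K.unb2 K.X K.P K.n0 qn K.N 0 cn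
        (Nat.add K.DN (Nat.mul K.B2 (Nat.succ K.Y))) 0 + K.LB) - K.B2 * (K.Y + 1) * sumV K.X K.P K.n0 K.N := rfl
  rw [e4, ← hfin']
  omega

theorem dg_lt {K : ClsI} {c q : ℤ × ℤ} (h : OkM K c q) (i : ℕ) (hi : i < 2 * (2 * K.M + 1)) : dg K c q i < 2 ^ K.y := by
  have hS := h.hS
  have e0 : (2 : ℤ) ^ (K.y - 1) + 2 ^ (K.y - 1) = 2 ^ K.y := by
    rw [← two_mul, ← pow_succ']; congr 1; omega
  have hlt : ∀ g : ℤ, |g| < 2 ^ (K.y - 1) → (g + 2 ^ (K.y - 1)).toNat < 2 ^ K.y := by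
    intro g hg
    have h1 := abs_lt.1 hg
    have : (((g + 2 ^ (K.y - 1)).toNat : ℕ) : ℤ) < ((2 ^ K.y : ℕ) : ℤ) := by
      rw [Int.toNat_of_nonneg (by linarith [h1.1])]
      push_cast
      linarith [h1.2]
    exact_mod_cast this
  unfold dg
  split_ifs
  · exact hlt _ (h.Mr _ (by omega))
  · exact hlt _ (h.Mi _ (by omega))

/-- extraction of a lane -/
theorem moms_digit {K : ClsI} {c q : ℤ × ℤ} (h : OkM K c q) {qn cn : ℕ} (hq : Res K.y qn q) (hc : Res K.y cn c)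
    (k : ℕ) (hk : k < 2 * (2 * K.M + 1)) :
    (moms K qn cn) >>> (k * K.y) % 2 ^ K.y = dg K c q k := by
  rw [moms_eq h hq hc, Nat.shiftRight_eq_div_pow, mul_comm k K.y, pow_mul]
  have e1 : ∑ i ∈ range (2 * (2 * K.M + 1)), dg K c q i * (2 ^ K.y) ^ i =
      ∑ i ∈ range (2 * (2 * K.M + 1)), (if i < 2 * (2 * K.M + 1) then dg K c q i else 0) * (2 ^ K.y) ^ i := by
    refine Finset.sum_congr rfl fun i hi => ?_
    rw [if_pos (Finset.mem_range.1 hi)]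
  rw [e1, digit_eq (by positivity) (fun i => if i < 2 * (2 * K.M + 1) then dg K c q i else 0) _ _ k hk, if_pos hk]
  intro i
  show (if i < 2 * (2 * K.M + 1) then dg K c q i else 0) < 2 ^ K.y
  split_ifs with hi
  · exact dg_lt h i hi
  · positivity

/-- the absolute value of a biased lane -/
theorem absd_bias {H : ℕ} {x : ℤ} (hx : |x| < (H : ℤ)) : absd H (x + H).toNat = x.natAbs := by
  have h1 := abs_lt.1 hx
  unfold absd
  rw [Nat.add_eq, Nat.sub_eq, Nat.sub_eq]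
  omega

theorem absd_re {K : ClsI} {c q : ℤ × ℤ} (h : OkM K c q) (p : ℕ) (hp : p ≤ 2 * K.M) :
    absd (2 ^ (K.y - 1)) (dg K c q (2 * p)) = (Mre (2 ^ K.S) c q K.n0 K.N p).natAbs := by
  have h1 : dg K c q (2 * p) = (Mre (2 ^ K.S) c q K.n0 K.N p + ((2 ^ (K.y - 1) : ℕ) : ℤ)).toNat := by
    unfold dg
    rw [if_pos (by omega), show 2 * p / 2 = p by omega]
    push_cast
    rfl
  rw [h1]
  apply absd_bias
  push_cast
  exact h.Mr p hp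

theorem absd_im {K : ClsI} {c q : ℤ × ℤ} (h : OkM K c q) (p : ℕ) (hp : p ≤ 2 * K.M) :
    absd (2 ^ (K.y - 1)) (dg K c q (2 * p + 1)) = (Mim (2 ^ K.S) c q K.n0 K.N p).natAbs := by
  have h1 : dg K c q (2 * p + 1) = (Mim (2 ^ K.S) c q K.n0 K.N p + ((2 ^ (K.y - 1) : ℕ) : ℤ)).toNat := by
    unfold dg
    rw [if_neg (by omega), show (2 * p + 1) / 2 = p by omega]
    push_cast
    rfl
  rw [h1]
  apply absd_bias
  push_cast
  exact h.Mi p hp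

end SokalFU
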