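import Pool.Agent.Lib_MP_af4de1_fu.EvG

/-!
# Norm bounds and the weighted sums
-/

set_option autoImplicit false

namespace SokalFU

open Finset

theorem cpx_norm_sq (z : ℤ × ℤ) : ‖cpx z‖ ^ 2 = (z.1 : ℝ) ^ 2 + (z.2 : ℝ) ^ 2 := by
  rw [← Complex.normSq_eq_norm_sq, Complex.normSq_apply, cpx_re, cpx_im]
  ring

theorem natAbs_cast (x : ℤ) : ((x.natAbs : ℕ) : ℝ) = |(x : ℝ)| := by
  rw [Nat.cast_natAbs, Int.cast_abs]

theorem nU_eq (x y : ℕ) : nU x y = 64 * max x y + 27 * min x y := by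
  have e : nU x y = 64 * (x + (y - x)) + 27 * (x - (x - y)) := rfl
  rw [e]
  omega

theorem nL_eq (x y : ℕ) : nL x y = max (256 * max x y) (181 * (x + y)) := by
  have e : nL x y = 256 * (x + (y - x)) + (181 * (x + y) - 256 * (x + (y - x))) := rfl
  rw [e]
  omega

theorem le_of_sq_le_sq_aux {a b : ℝ} (h : a ^ 2 ≤ b ^ 2) (hb : 0 ≤ b) : a ≤ b :=
  le_of_sq_le_sq h hb

/-- upper bound of the norm -/
theorem nU_le (z : ℤ × ℤ) : 64 * ‖cpx z‖ ≤ nU z.1.natAbs z.2.natAbs := by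
  have h1 := cpx_norm_sq z
  have hx := natAbs_cast z.1
  have hy := natAbs_cast z.2
  rw [nU_eq]
  rw [← sq_abs (z.1 : ℝ), ← sq_abs (z.2 : ℝ), ← hx, ← hy] at h1
  obtain ⟨x, hx'⟩ : ∃ x : ℕ, x = z.1.natAbs := ⟨_, rfl⟩
  obtain ⟨y, hy'⟩ : ∃ y : ℕ, y = z.2.natAbs := ⟨_, rfl⟩
  rw [← hx', ← hy'] at h1
  rw [← hx', ← hy']
  refine le_of_sq_le_sq_aux ?_ (by positivity)
  rw [mul_pow, h1]
  have hxy : (0 : ℝ) ≤ x := Nat.cast_nonneg _
  have hyy : (0 : ℝ) ≤ y := Nat.cast_nonneg _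
  rcases le_total x y with h | h
  · rw [max_eq_right h, min_eq_left h]
    have h' : (x : ℝ) ≤ y := by exact_mod_cast h
    push_cast
    nlinarith [mul_nonneg hxy hyy, mul_le_mul_of_nonneg_left h' hxy]
  · rw [max_eq_left h, min_eq_right h]
    have h' : (y : ℝ) ≤ x := by exact_mod_cast h
    push_cast
    nlinarith [mul_nonneg hxy hyy, mul_le_mul_of_nonneg_left h' hyy]

/-- lower bound of the norm -/
theorem nL_le (z : ℤ × ℤ) : (nL z.1.natAbs z.2.natAbs : ℝ) ≤ 256 * ‖cpx z‖ := by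
  have h1 := cpx_norm_sq z
  have hx := natAbs_cast z.1
  have hy := natAbs_cast z.2
  rw [nL_eq]
  rw [← sq_abs (z.1 : ℝ), ← sq_abs (z.2 : ℝ), ← hx, ← hy] at h1
  obtain ⟨x, hx'⟩ : ∃ x : ℕ, x = z.1.natAbs := ⟨_, rfl⟩
  obtain ⟨y, hy'⟩ : ∃ y : ℕ, y = z.2.natAbs := ⟨_, rfl⟩
  rw [← hx', ← hy'] at h1
  rw [← hx', ← hy']
  have hxy : (0 : ℝ) ≤ x := Nat.cast_nonneg _
  have hyy : (0 : ℝ) ≤ y := Nat.cast_nonneg _
  refine le_of_sq_le_sq_aux ?_ (by positivity)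
  rw [mul_pow, h1]
  rcases le_total (256 * max x y) (181 * (x + y)) with h | h
  · rw [max_eq_right h]
    push_cast
    nlinarith [sq_nonneg ((x : ℝ) - y)]
  · rw [max_eq_left h]
    rcases le_total x y with h' | h'
    · rw [max_eq_right h']
      push_cast
      nlinarith [sq_nonneg ((x : ℝ) - y)]
    · rw [max_eq_left h']
      push_cast
      nlinarith [sq_nonneg ((x : ℝ) - y)]

/-- the accumulated sums -/
def acc (uu : ℕ) (g : ℕ → ℕ) : List ℕ → ℕ → ℕ → ℕ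
  | [], _, a => a
  | w :: l, i, a => acc uu g l (i + 1) (a * uu + w * g i)

theorem wloop_eq (y Hb uu : ℕ) (Z0 : ℕ) (l : List (ℕ × ℕ)) :
    ∀ (i a b : ℕ) (f : ℕ → ℕ → Bool),
      wloop y (2 * y) (2 ^ y) Hb uu l (Z0 >>> (i * (2 * y))) a b f =
      f (acc uu (fun i => nU (absd Hb (Z0 >>> (2 * i * y) % 2 ^ y)) (absd Hb (Z0 >>> ((2 * i + 1) * y) % 2 ^ y))) (l.map Prod.fst) i a)
        (acc uu (fun i => nU (absd Hb (Z0 >>> (2 * i * y) % 2 ^ y)) (absd Hb (Z0 >>> ((2 * i + 1) * y) % 2 ^ y))) (l.map Prod.snd) i b) := by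
  induction l with
  | nil => intro i a b f; rfl
  | cons w l ih =>
    intro i a b f
    have e1 : wloop y (2 * y) (2 ^ y) Hb uu (w :: l) (Z0 >>> (i * (2 * y))) a b f =
      wloop y (2 * y) (2 ^ y) Hb uu l ((Z0 >>> (i * (2 * y))) >>> (2 * y))
        (a * uu + w.1 * nU (absd Hb (Z0 >>> (i * (2 * y)) % 2 ^ y)) (absd Hb ((Z0 >>> (i * (2 * y))) >>> y % 2 ^ y)))
        (b * uu + w.2 * nU (absd Hb (Z0 >>> (i * (2 * y)) % 2 ^ y)) (absd Hb ((Z0 >>> (i * (2 * y))) >>> y % 2 ^ y))) f := rfl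
    rw [e1, ← Nat.shiftRight_add, ← Nat.shiftRight_add]
    have e2 : i * (2 * y) + 2 * y = (i + 1) * (2 * y) := by ring
    have e3 : i * (2 * y) = 2 * i * y := by ring
    have e4 : 2 * i * y + y = (2 * i + 1) * y := by ring
    rw [e2, ih, e3, e4]
    rfl

theorem acc_eq (u : ℕ) (g : ℕ → ℕ) (l : List ℕ) :
    ∀ (i a : ℕ), acc (2 ^ u) g l i a =
      a * 2 ^ (u * l.length) + ∑ j ∈ range l.length, l.getD j 0 * g (i + j) * 2 ^ (u * (l.length - 1 - j)) := by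
  induction l with
  | nil => intro i a; simp [acc]
  | cons w l ih =>
    intro i a
    rw [acc, ih, List.length_cons, Finset.sum_range_succ']
    simp only [List.getD_cons_succ, List.getD_cons_zero, add_zero]
    have e1 : ∀ j, i + 1 + j = i + (j + 1) := fun j => by ring
    have e2 : ∀ j, l.length + 1 - 1 - (j + 1) = l.length - 1 - j := fun j => by omega
    simp only [e1, e2]
    have e3 : l.length + 1 - 1 - 0 = l.length := by omega
    rw [e3, mul_add, pow_add]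
    ring

end SokalFU
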