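import Pool.Agent.Lib_MP_af4de1_fu.EvH

/-!
# Class conditions of the evaluator
-/

set_option autoImplicit false

namespace SokalFU

open Finset

/-- bound for the integer terms -/
def ClsI.Bd (K : ClsI) : ℕ := 2 ^ (K.S + 3 * (K.R + 1) / 2 + 2)

/-- checks `bN ≤ Bd` -/
def bchk (R Bd k : ℕ) : ℕ → ℕ → Bool :=
  Nat.rec (fun _ _ => true) (fun _ ih n b => Nat.ble b Bd && ih (n + 1) (b * (R + 1) / (n + 1) + 3)) k

theorem bchk_spec (D R Bd k : ℕ) : ∀ n, bchk R Bd k n (bN D R n) = true → ∀ i < k, bN D R (n + i) ≤ Bd := by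
  induction k with
  | zero => intro n _ i hi; omega
  | succ k ih =>
    intro n h i hi
    have e1 : bchk R Bd (k + 1) n (bN D R n) = (Nat.ble (bN D R n) Bd && bchk R Bd k (n + 1) (bN D R (n + 1))) := rfl
    rw [e1, Bool.and_eq_true] at h
    cases i with
    | zero => exact Nat.le_of_ble_eq_true h.1
    | succ i =>
      have := ih (n + 1) h.2 i (by omega)
      rwa [show n + (i + 1) = n + 1 + i by ring]

/-- the class conditions of the evaluator -/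
def okE (K : ClsI) : Bool :=
  Nat.ble 40 K.S && Nat.ble K.S 160 && Nat.ble (K.S + 24) K.y && Nat.ble (2 * K.S + 3) K.y && Nat.ble 2 K.M &&
    Nat.ble 1 K.u && Nat.ble 1 K.th && Nat.blt K.th (2 ^ 40) && Nat.ble 1 K.N &&
    Nat.ble (K.N * (2 * K.R + 4)) (2 ^ K.S) &&
    Nat.blt ((K.R + 1) * 2 ^ K.S * (2 ^ K.S + 2)) (2 ^ (K.y - 2)) &&
    Nat.blt (K.Bd * (K.R + 1) * 2 ^ (2 * K.S)) (2 ^ (K.y - 2)) &&
    Nat.blt (K.N * K.Bd * (K.n0 + (K.N - K.n0)) ^ (2 * K.M)) (2 ^ (K.y - 1)) &&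
    Nat.beq K.wl.length (2 * K.M - 2) && bchk K.R K.Bd K.N 0 (2 ^ K.S)

/-- the conditions as propositions -/
structure OkC (K : ClsI) : Prop where
  S40 : 40 ≤ K.S
  S160 : K.S ≤ 160
  y24 : K.S + 24 ≤ K.y
  y2 : 2 * K.S + 3 ≤ K.y
  M2 : 2 ≤ K.M
  u1 : 1 ≤ K.u
  th1 : 1 ≤ K.th
  th2 : K.th < 2 ^ 40
  N1 : 1 ≤ K.N
  NR : K.N * (2 * K.R + 4) ≤ 2 ^ K.S
  bW : (K.R + 1) * 2 ^ K.S * (2 ^ K.S + 2) < 2 ^ (K.y - 2)
  bT : K.Bd * (K.R + 1) * 2 ^ (2 * K.S) < 2 ^ (K.y - 2)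
  bM : K.N * K.Bd * (K.n0 + (K.N - K.n0)) ^ (2 * K.M) < 2 ^ (K.y - 1)
  len : K.wl.length = 2 * K.M - 2
  bB : ∀ n < K.N, bN (2 ^ K.S) K.R n ≤ K.Bd

theorem okE_spec {K : ClsI} (h : okE K = true) : OkC K := by
  unfold okE at h
  simp only [Bool.and_eq_true] at h
  obtain ⟨⟨⟨⟨⟨⟨⟨⟨⟨⟨⟨⟨⟨⟨h1, h2⟩, h3⟩, h4⟩, h5⟩, h6⟩, h7⟩, h8⟩, h9⟩, h10⟩, h11⟩, h12⟩, h13⟩, h14⟩, h15⟩ := h
  have hblt : ∀ a b : ℕ, Nat.blt a b = true → a < b := fun a b h => Nat.le_of_ble_eq_true h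
  refine ⟨Nat.le_of_ble_eq_true h1, Nat.le_of_ble_eq_true h2, Nat.le_of_ble_eq_true h3, Nat.le_of_ble_eq_true h4,
    Nat.le_of_ble_eq_true h5, Nat.le_of_ble_eq_true h6, Nat.le_of_ble_eq_true h7, hblt _ _ h8, Nat.le_of_ble_eq_true h9,
    Nat.le_of_ble_eq_true h10, hblt _ _ h11, hblt _ _ h12, hblt _ _ h13, Nat.eq_of_beq_eq_true h14, ?_⟩
  intro n hn
  have := bchk_spec (2 ^ K.S) K.R K.Bd K.N 0 h15 n hn
  rwa [zero_add] at this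

theorem abs_cast_lt {x : ℤ} {n : ℕ} {r : ℝ} (h1 : |(x : ℝ)| ≤ r) (h2 : r < n) : |x| < (n : ℤ) := by
  have h3 : |(x : ℝ)| < n := lt_of_le_of_lt h1 h2
  have h4 : ((|x| : ℤ) : ℝ) < ((n : ℤ) : ℝ) := by push_cast; exact h3
  exact_mod_cast h4

theorem okM_of {K : ClsI} (h : OkC K) {c q : ℤ × ℤ} (hq : ‖cpx q‖ ≤ 2 ^ K.S + 2) (hc : ‖cpx c‖ ≤ K.R * 2 ^ K.S) :
    OkM K c q := by
  have hD : (0 : ℤ) < 2 ^ K.S := by positivity
  have hDr : (0 : ℝ) < 2 ^ K.S := by positivity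
  have hNR : (K.N : ℤ) * (2 * K.R + 4) ≤ 2 ^ K.S := by exact_mod_cast h.NR
  have hNR' : (K.N : ℝ) * (2 * K.R + 4) ≤ 2 ^ K.S := by exact_mod_cast h.NR
  have hW : ∀ n ≤ K.N, ‖cpx (Wsp (2 ^ K.S) c q n)‖ ≤ (K.R + 1) * 2 ^ K.S := by
    intro n hn
    have h1 := W_bound hD (R := K.R) (c := c) (q := q) (by push_cast; exact hq) (by push_cast; exact hc) hNR n hn
    push_cast at h1
    have hn' : (n : ℝ) ≤ K.N := by exact_mod_cast hn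
    have hn0 : (0 : ℝ) ≤ 2 * K.R + 4 := by positivity
    nlinarith
  have hT : ∀ n < K.N, ‖cpx (Tsp (2 ^ K.S) c q n)‖ ≤ K.Bd := by
    intro n hn
    have h1 := T_bound (DN := 2 ^ K.S) (by positivity) (R := K.R) (c := c) (q := q) (by push_cast; exact hq)
      (by push_cast; exact hc) (N := K.N) (by push_cast; exact hNR) n hn.le
    have h2 : ((bN (2 ^ K.S) K.R n : ℕ) : ℝ) ≤ (K.Bd : ℝ) := by exact_mod_cast h.bB n hn
    have e1 : ((2 ^ K.S : ℕ) : ℤ) = 2 ^ K.S := by push_cast; rfl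
    rw [e1] at h1
    exact h1.trans h2
  have hMom : ∀ p ≤ 2 * K.M, ∀ f : ℕ → ℤ, (∀ n < K.N, |(f n : ℝ)| ≤ K.Bd) →
      |∑ n ∈ range K.N, f n * ((n : ℤ) - K.n0) ^ p| < 2 ^ (K.y - 1) := by
    intro p hp f hf
    have h1 : ∀ n ∈ range K.N, |f n * ((n : ℤ) - K.n0) ^ p| ≤ (K.Bd : ℤ) * ((K.n0 + (K.N - K.n0) : ℕ) : ℤ) ^ (2 * K.M) := by
      intro n hn
      have hn' := Finset.mem_range.1 hn
      rw [abs_mul, abs_pow]
      have h2 : |f n| ≤ (K.Bd : ℤ) := by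
        have h3 := hf n hn'
        have h4 : ((|f n| : ℤ) : ℝ) ≤ ((K.Bd : ℤ) : ℝ) := by push_cast; exact h3
        exact_mod_cast h4
      have h5 : |(n : ℤ) - K.n0| ≤ ((K.n0 + (K.N - K.n0) : ℕ) : ℤ) := by
        rw [abs_le]
        constructor <;> omega
      have h6 : (1 : ℤ) ≤ ((K.n0 + (K.N - K.n0) : ℕ) : ℤ) := by
        have := h.N1
        exact_mod_cast (by omega : 1 ≤ K.n0 + (K.N - K.n0))
      have h7 : |(n : ℤ) - K.n0| ^ p ≤ ((K.n0 + (K.N - K.n0) : ℕ) : ℤ) ^ (2 * K.M) :=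
        (pow_le_pow_left₀ (abs_nonneg _) h5 p).trans (pow_le_pow_right₀ h6 hp)
      exact mul_le_mul h2 h7 (by positivity) (by positivity)
    have h8 := (Finset.abs_sum_le_sum_abs _ _).trans (Finset.sum_le_sum h1)
    rw [Finset.sum_const, Finset.card_range, nsmul_eq_mul] at h8
    refine lt_of_le_of_lt h8 ?_
    have h9 : ((K.N * K.Bd * (K.n0 + (K.N - K.n0)) ^ (2 * K.M) : ℕ) : ℤ) < ((2 ^ (K.y - 1) : ℕ) : ℤ) := by exact_mod_cast h.bM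
    rw [Nat.cast_mul, Nat.cast_mul, Nat.cast_pow, Nat.cast_pow (2 : ℕ)] at h9
    rw [← mul_assoc]
    exact h9
  have hgW : ∀ n < K.N, ‖cpx (gmul (Wsp (2 ^ K.S) c q n) q)‖ < ((2 ^ (K.y - 2) : ℕ) : ℝ) := by
    intro n hn
    rw [cpx_gmul, norm_mul]
    have h2 : (((K.R + 1) * 2 ^ K.S * (2 ^ K.S + 2) : ℕ) : ℝ) < ((2 ^ (K.y - 2) : ℕ) : ℝ) := by exact_mod_cast h.bW
    refine lt_of_le_of_lt ?_ h2
    push_cast
    exact mul_le_mul (hW n hn.le) hq (norm_nonneg _) (by positivity)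
  have hgT : ∀ n < K.N, ‖cpx (gmul (Tsp (2 ^ K.S) c q n) (Wsp (2 ^ K.S) c q n))‖ * |(((2 ^ K.S / ((n : ℤ) + 1) : ℤ)) : ℝ)| <
      ((2 ^ (K.y - 2) : ℕ) : ℝ) := by
    intro n hn
    rw [cpx_gmul, norm_mul]
    have h2 : ((K.Bd * (K.R + 1) * 2 ^ (2 * K.S) : ℕ) : ℝ) < ((2 ^ (K.y - 2) : ℕ) : ℝ) := by exact_mod_cast h.bT
    refine lt_of_le_of_lt ?_ h2
    have h3 : |(((2 ^ K.S / ((n : ℤ) + 1) : ℤ)) : ℝ)| ≤ 2 ^ K.S := by
      have h4 : 0 ≤ (2 : ℤ) ^ K.S / ((n : ℤ) + 1) := by positivity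
      have h5 : (2 : ℤ) ^ K.S / ((n : ℤ) + 1) ≤ 2 ^ K.S := Int.ediv_le_self _ (by positivity)
      rw [abs_of_nonneg (by exact_mod_cast h4)]
      exact_mod_cast h5
    push_cast
    calc ‖cpx (Tsp (2 ^ K.S) c q n)‖ * ‖cpx (Wsp (2 ^ K.S) c q n)‖ * |(((2 ^ K.S / ((n : ℤ) + 1) : ℤ)) : ℝ)|
        ≤ (K.Bd : ℝ) * ((K.R + 1) * 2 ^ K.S) * 2 ^ K.S :=
          mul_le_mul (mul_le_mul (hT n hn) (hW n hn.le) (norm_nonneg _) (Nat.cast_nonneg _)) h3 (abs_nonneg _) (by positivity)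
      _ = _ := by rw [two_mul, pow_add]; ring
  have hpc : ((2 ^ (K.y - 2) : ℕ) : ℤ) = 2 ^ (K.y - 2) := by push_cast; rfl
  refine ⟨⟨h.y2, ?_, ?_, ?_⟩, ?_, ?_⟩
  · intro n hn
    have h1 := hgW n hn
    rw [← hpc]
    exact ⟨abs_cast_lt (abs_fst_le _) h1, abs_cast_lt (abs_snd_le _) h1⟩
  · intro n hn
    have h1 := hgT n hn
    rw [← hpc]
    constructor
    · refine abs_cast_lt (r := ‖cpx (gmul (Tsp (2 ^ K.S) c q n) (Wsp (2 ^ K.S) c q n))‖ *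
        |(((2 ^ K.S / ((n : ℤ) + 1) : ℤ)) : ℝ)|) ?_ h1
      rw [Int.cast_mul, abs_mul]
      exact mul_le_mul_of_nonneg_right (abs_fst_le _) (abs_nonneg _)
    · refine abs_cast_lt (r := ‖cpx (gmul (Tsp (2 ^ K.S) c q n) (Wsp (2 ^ K.S) c q n))‖ *
        |(((2 ^ K.S / ((n : ℤ) + 1) : ℤ)) : ℝ)|) ?_ h1
      rw [Int.cast_mul, abs_mul]
      exact mul_le_mul_of_nonneg_right (abs_snd_le _) (abs_nonneg _)
  · have h1 := h.bT
    have h2 : 2 ^ K.S ≤ K.Bd := Nat.pow_le_pow_right (by norm_num) (by omega)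
    have h3 : 2 ^ K.S * 2 ^ (2 * K.S) < 2 ^ (K.y - 2) := by
      refine lt_of_le_of_lt ?_ h1
      have : K.Bd * 2 ^ (2 * K.S) ≤ K.Bd * (K.R + 1) * 2 ^ (2 * K.S) := by
        refine Nat.mul_le_mul_right _ ?_
        exact Nat.le_mul_of_pos_right _ (by omega)
      exact (Nat.mul_le_mul_right _ h2).trans this
    rw [← pow_add, Nat.pow_lt_pow_iff_right (by norm_num)] at h3
    exact Nat.pow_le_pow_right (by norm_num) (by omega)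
  · intro p hp
    exact hMom p hp (fun n => (Tsp (2 ^ K.S) c q n).1) fun n hn => (abs_fst_le _).trans (hT n hn)
  · intro p hp
    exact hMom p hp (fun n => (Tsp (2 ^ K.S) c q n).2) fun n hn => (abs_snd_le _).trans (hT n hn)

end SokalFU
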