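import Pool.Agent.Lib_MP_af4de1_fu.EvB

/-!
# The fixed point exponential of the tube test

`Qsp S A` is `2^S e^(ia)`, `a = A / 2^40`, up to an error of `2`.  PROOF. With `G = 2^(S+16)`, `U_m` (`Usp`) satisfies
`G a^m / m! - e_m ≤ U_m ≤ G a^m / m!`, `e_(m+1) ≤ e_m a / (m + 1) + 1`, hence `e_m ≤ 5`.  So the sums of the 64 terms
differ from those of the exact terms by at most `16 · 5` each, the tail of the exponential series is at most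
`2 G a^64 / 64! ≤ 1`, and the floor division by `2^16` gives the error `≤ 1` in each coordinate.
`qEv` is its packed residue (`p0 + 2^(S+19) ≥ p2` because `∑ a^(4j+2)/(4j+2)! ≤ 8`).
-/

set_option autoImplicit false

namespace SokalFU

open Finset

/-- exact term `2^(S+16) a^m / m!` -/
private noncomputable def Xex (S : ℕ) (a : ℝ) (m : ℕ) : ℝ := 2 ^ (S + 16) * (a ^ m / (m.factorial : ℝ))

private lemma Usp_step (S A m : ℕ) (a : ℝ) (ha : a = (A : ℝ) / 2 ^ 40) :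
    ∃ t : ℝ, 0 ≤ t ∧ t ≤ 1 ∧ (Usp S A (m + 1) : ℝ) = (Usp S A m : ℝ) * a / (m + 1) - t := by
  have h0 : Usp S A (m + 1) = Usp S A m * A / (2 ^ 40 * (m + 1)) := by
    show Usp S A m * A / 2 ^ 40 / (m + 1) = _
    rw [Nat.div_div_eq_div_mul]
  set c : ℕ := 2 ^ 40 * (m + 1) with hc
  have hcpos : 0 < c := by positivity
  have h1 := Nat.div_add_mod (Usp S A m * A) c
  have h2 := Nat.mod_lt (Usp S A m * A) hcpos
  rw [← h0] at h1
  have h1' : (c : ℝ) * (Usp S A (m + 1) : ℝ) + ((Usp S A m * A % c : ℕ) : ℝ) =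
      (Usp S A m : ℝ) * (A : ℝ) := by exact_mod_cast h1
  have h2' : ((Usp S A m * A % c : ℕ) : ℝ) ≤ (c : ℝ) := by exact_mod_cast h2.le
  have hc' : (0 : ℝ) < (c : ℝ) := by exact_mod_cast hcpos
  have hcr : (c : ℝ) = 2 ^ 40 * ((m : ℝ) + 1) := by rw [hc]; push_cast; ring
  refine ⟨((Usp S A m * A % c : ℕ) : ℝ) / c, by positivity, (div_le_one hc').2 h2', ?_⟩
  have h3 : (Usp S A m : ℝ) * a / (m + 1) = (Usp S A m : ℝ) * (A : ℝ) / c := by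
    rw [ha, hcr]
    have : (0 : ℝ) < (m : ℝ) + 1 := by positivity
    field_simp
  rw [h3, ← h1']
  field_simp
  ring

private lemma Xex_succ (S : ℕ) (a : ℝ) (m : ℕ) : Xex S a (m + 1) = Xex S a m * a / (m + 1) := by
  unfold Xex
  rw [Nat.factorial_succ, pow_succ a m]
  push_cast
  have h1 : (0 : ℝ) < (m.factorial : ℝ) := by exact_mod_cast m.factorial_pos
  have h2 : (0 : ℝ) < (m : ℝ) + 1 := by positivity
  field_simp

private lemma a_bounds {A : ℕ} (hA : A ≤ 3518437208883) : 0 ≤ (A : ℝ) / 2 ^ 40 ∧ (A : ℝ) / 2 ^ 40 ≤ 16 / 5 := by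
  refine ⟨by positivity, ?_⟩
  have h : (A : ℝ) ≤ 3518437208883 := by exact_mod_cast hA
  rw [div_le_iff₀ (by positivity)]
  norm_num
  linarith

private lemma err_step (S A m : ℕ) (hA : A ≤ 3518437208883) {b : ℝ}
    (h0 : 0 ≤ Xex S ((A : ℝ) / 2 ^ 40) m - Usp S A m) (h1 : Xex S ((A : ℝ) / 2 ^ 40) m - Usp S A m ≤ b) :
    0 ≤ Xex S ((A : ℝ) / 2 ^ 40) (m + 1) - Usp S A (m + 1) ∧
      Xex S ((A : ℝ) / 2 ^ 40) (m + 1) - Usp S A (m + 1) ≤ b * (16 / 5) / (m + 1) + 1 := by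
  obtain ⟨ha0, ha1⟩ := a_bounds hA
  obtain ⟨t, ht0, ht1, ht⟩ := Usp_step S A m _ rfl
  set a : ℝ := (A : ℝ) / 2 ^ 40 with ha
  have hb : 0 ≤ b := h0.trans h1
  have e : Xex S a (m + 1) - Usp S A (m + 1) = (Xex S a m - Usp S A m) * a / (m + 1) + t := by
    rw [Xex_succ, ht]
    ring
  have hm : (0 : ℝ) < (m : ℝ) + 1 := by positivity
  rw [e]
  refine ⟨by positivity, ?_⟩
  have h2 : (Xex S a m - Usp S A m) * a ≤ b * (16 / 5) := mul_le_mul h1 ha1 ha0 hb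
  have h3 : (Xex S a m - Usp S A m) * a / (m + 1) ≤ b * (16 / 5) / (m + 1) :=
    div_le_div_of_nonneg_right h2 hm.le
  linarith

private lemma err (S A : ℕ) (hA : A ≤ 3518437208883) (m : ℕ) :
    0 ≤ Xex S ((A : ℝ) / 2 ^ 40) m - Usp S A m ∧ Xex S ((A : ℝ) / 2 ^ 40) m - Usp S A m ≤ 5 := by
  have e0 : Xex S ((A : ℝ) / 2 ^ 40) 0 - Usp S A 0 = 0 := by
    unfold Xex Usp
    simp
  have e1 := err_step S A 0 hA (b := 0) (by rw [e0]) (by rw [e0])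
  have e2 := err_step S A 1 hA (b := 1) e1.1 (by have := e1.2; norm_num at this ⊢; linarith)
  have e3 := err_step S A 2 hA (b := 13 / 5) e2.1 (by have := e2.2; norm_num at this ⊢; linarith)
  have h4 : ∀ k : ℕ, 0 ≤ Xex S ((A : ℝ) / 2 ^ 40) (k + 3) - Usp S A (k + 3) ∧
      Xex S ((A : ℝ) / 2 ^ 40) (k + 3) - Usp S A (k + 3) ≤ 5 := by
    intro k
    induction k with
    | zero => exact ⟨e3.1, e3.2.trans (by norm_num)⟩
    | succ k ih =>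
      have h := err_step S A (k + 3) hA ih.1 ih.2
      refine ⟨h.1, h.2.trans ?_⟩
      have hk : (0 : ℝ) ≤ (k : ℝ) := Nat.cast_nonneg k
      push_cast
      have : (5 : ℝ) * (16 / 5) / ((k : ℝ) + 3 + 1) ≤ 4 := by
        rw [div_le_iff₀ (by positivity)]
        nlinarith
      linarith
  rcases m with _ | _ | _ | m
  · rw [e0]; norm_num
  · exact ⟨e1.1, e1.2.trans (by norm_num)⟩
  · exact ⟨e2.1, e2.2.trans (by norm_num)⟩
  · exact h4 m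

private lemma sum4 {E : Type*} [AddCommMonoid E] (f : ℕ → E) (k : ℕ) : ∑ m ∈ range (4 * k), f m =
    ∑ j ∈ range k, f (4 * j) + ∑ j ∈ range k, f (4 * j + 1) + ∑ j ∈ range k, f (4 * j + 2) +
      ∑ j ∈ range k, f (4 * j + 3) := by
  induction k with
  | zero => simp
  | succ k ih =>
    rw [show 4 * (k + 1) = 4 * k + 1 + 1 + 1 + 1 by ring]
    simp only [sum_range_succ]
    rw [ih]
    abel

/-- real part of the exact partial sum -/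
private noncomputable def CX (S : ℕ) (a : ℝ) (r : ℕ) : ℝ := ∑ j ∈ range 16, Xex S a (4 * j + r)

private lemma I_pow4 (j : ℕ) : Complex.I ^ (4 * j) = 1 := by rw [pow_mul, Complex.I_pow_four, one_pow]

private lemma taylor_eq (S : ℕ) (a : ℝ) :
    (2 : ℂ) ^ (S + 16) * ∑ m ∈ range 64, ((a : ℂ) * Complex.I) ^ m / (m.factorial : ℂ) =
      ((CX S a 0 - CX S a 2 : ℝ) : ℂ) + ((CX S a 1 - CX S a 3 : ℝ) : ℂ) * Complex.I := by
  have h64 : (64 : ℕ) = 4 * 16 := rfl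
  rw [h64, sum4]
  unfold CX Xex
  push_cast
  simp only [mul_sum, sum_mul, mul_add, sub_mul, add_zero]
  have h0 : ∀ j : ℕ, (2 : ℂ) ^ (S + 16) * (((a : ℂ) * Complex.I) ^ (4 * j) / ((4 * j).factorial : ℂ)) =
      (2 : ℂ) ^ (S + 16) * ((a : ℂ) ^ (4 * j) / ((4 * j).factorial : ℂ)) := by
    intro j
    rw [mul_pow, I_pow4, mul_one]
  have h1 : ∀ j : ℕ, (2 : ℂ) ^ (S + 16) * (((a : ℂ) * Complex.I) ^ (4 * j + 1) / ((4 * j + 1).factorial : ℂ)) =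
      (2 : ℂ) ^ (S + 16) * ((a : ℂ) ^ (4 * j + 1) / ((4 * j + 1).factorial : ℂ)) * Complex.I := by
    intro j
    rw [mul_pow, pow_succ Complex.I, I_pow4]
    ring
  have h2 : ∀ j : ℕ, (2 : ℂ) ^ (S + 16) * (((a : ℂ) * Complex.I) ^ (4 * j + 2) / ((4 * j + 2).factorial : ℂ)) =
      -((2 : ℂ) ^ (S + 16) * ((a : ℂ) ^ (4 * j + 2) / ((4 * j + 2).factorial : ℂ))) := by
    intro j
    rw [mul_pow, pow_add Complex.I, I_pow4, Complex.I_sq]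
    ring
  have h3 : ∀ j : ℕ, (2 : ℂ) ^ (S + 16) * (((a : ℂ) * Complex.I) ^ (4 * j + 3) / ((4 * j + 3).factorial : ℂ)) =
      -((2 : ℂ) ^ (S + 16) * ((a : ℂ) ^ (4 * j + 3) / ((4 * j + 3).factorial : ℂ)) * Complex.I) := by
    intro j
    rw [mul_pow, pow_add Complex.I, I_pow4, Complex.I_pow_three]
    ring
  rw [sum_congr rfl fun j _ => h0 j, sum_congr rfl fun j _ => h1 j, sum_congr rfl fun j _ => h2 j,
    sum_congr rfl fun j _ => h3 j, sum_neg_distrib, sum_neg_distrib]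
  ring

/-- integer sums of the rounded terms -/
private def PU (S A k r : ℕ) : ℕ := ∑ j ∈ range k, Usp S A (4 * j + r)

private lemma PU_err (S A : ℕ) (hA : A ≤ 3518437208883) (r : ℕ) :
    0 ≤ CX S ((A : ℝ) / 2 ^ 40) r - PU S A 16 r ∧ CX S ((A : ℝ) / 2 ^ 40) r - PU S A 16 r ≤ 80 := by
  have e : CX S ((A : ℝ) / 2 ^ 40) r - PU S A 16 r =
      ∑ j ∈ range 16, (Xex S ((A : ℝ) / 2 ^ 40) (4 * j + r) - Usp S A (4 * j + r)) := by
    unfold CX PU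
    rw [sum_sub_distrib]
    push_cast
    rfl
  rw [e]
  constructor
  · exact sum_nonneg fun j _ => (err S A hA _).1
  · calc _ ≤ ∑ j ∈ range 16, (5 : ℝ) := sum_le_sum fun j _ => (err S A hA _).2
      _ = 80 := by norm_num

private lemma Qsp_eq (S A : ℕ) : Qsp S A = (((PU S A 16 0 : ℤ) - PU S A 16 2) / 2 ^ 16,
    ((PU S A 16 1 : ℤ) - PU S A 16 3) / 2 ^ 16) := by
  unfold Qsp PU
  push_cast
  rfl

private lemma floor16 (z : ℤ) : ∃ t : ℝ, 0 ≤ t ∧ t ≤ 1 ∧ ((z / 2 ^ 16 : ℤ) : ℝ) = (z : ℝ) / 2 ^ 16 - t := by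
  have h1 := Int.mul_ediv_add_emod z (2 ^ 16)
  have h2 := Int.emod_nonneg z (show (2 ^ 16 : ℤ) ≠ 0 by norm_num)
  have h3 := Int.emod_lt_of_pos z (show (0 : ℤ) < 2 ^ 16 by norm_num)
  have h1' : (2 : ℝ) ^ 16 * ((z / 2 ^ 16 : ℤ) : ℝ) + ((z % 2 ^ 16 : ℤ) : ℝ) = (z : ℝ) := by exact_mod_cast h1
  have h2' : (0 : ℝ) ≤ ((z % 2 ^ 16 : ℤ) : ℝ) := by exact_mod_cast h2
  have h3' : ((z % 2 ^ 16 : ℤ) : ℝ) ≤ 2 ^ 16 := by exact_mod_cast h3.le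
  refine ⟨((z % 2 ^ 16 : ℤ) : ℝ) / 2 ^ 16, by positivity, (div_le_one (by positivity)).2 h3', ?_⟩
  rw [← h1']
  field_simp
  ring

/-- one coordinate -/
private lemma coord (S A : ℕ) (hA : A ≤ 3518437208883) (r s : ℕ) :
    |((((PU S A 16 r : ℤ) - PU S A 16 s) / 2 ^ 16 : ℤ) : ℝ) -
      (CX S ((A : ℝ) / 2 ^ 40) r - CX S ((A : ℝ) / 2 ^ 40) s) / 2 ^ 16| ≤ 1 + 80 / 2 ^ 16 := by
  obtain ⟨t, ht0, ht1, ht⟩ := floor16 ((PU S A 16 r : ℤ) - PU S A 16 s)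
  obtain ⟨r0, r1⟩ := PU_err S A hA r
  obtain ⟨s0, s1⟩ := PU_err S A hA s
  rw [ht]
  push_cast
  rw [abs_le]
  constructor
  · have : (((PU S A 16 r : ℝ) - PU S A 16 s) / 2 ^ 16 - t -
      (CX S ((A : ℝ) / 2 ^ 40) r - CX S ((A : ℝ) / 2 ^ 40) s) / 2 ^ 16) =
      ((CX S ((A : ℝ) / 2 ^ 40) s - PU S A 16 s) - (CX S ((A : ℝ) / 2 ^ 40) r - PU S A 16 r)) / 2 ^ 16 - t := by
      ring
    rw [this]
    have h : (-80 : ℝ) / 2 ^ 16 ≤ ((CX S ((A : ℝ) / 2 ^ 40) s - PU S A 16 s) -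
      (CX S ((A : ℝ) / 2 ^ 40) r - PU S A 16 r)) / 2 ^ 16 :=
      div_le_div_of_nonneg_right (by linarith) (by positivity)
    have h' : (-80 : ℝ) / 2 ^ 16 = -(80 / 2 ^ 16) := by ring
    linarith
  · have : (((PU S A 16 r : ℝ) - PU S A 16 s) / 2 ^ 16 - t -
      (CX S ((A : ℝ) / 2 ^ 40) r - CX S ((A : ℝ) / 2 ^ 40) s) / 2 ^ 16) =
      ((CX S ((A : ℝ) / 2 ^ 40) s - PU S A 16 s) - (CX S ((A : ℝ) / 2 ^ 40) r - PU S A 16 r)) / 2 ^ 16 - t := by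
      ring
    rw [this]
    have h : ((CX S ((A : ℝ) / 2 ^ 40) s - PU S A 16 s) -
      (CX S ((A : ℝ) / 2 ^ 40) r - PU S A 16 r)) / 2 ^ 16 ≤ (80 : ℝ) / 2 ^ 16 :=
      div_le_div_of_nonneg_right (by linarith) (by positivity)
    linarith

private lemma tail_num : (2 : ℝ) ^ 176 * ((16 / 5) ^ 64 / ((64).factorial : ℝ) * 2) ≤ 1 := by
  norm_num [Nat.factorial]

private lemma norm_pair (x y b : ℝ) (hx : |x| ≤ b) (hy : |y| ≤ b) :
    ‖(x : ℂ) + (y : ℂ) * Complex.I‖ ≤ 3 / 2 * b := by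
  have hb : 0 ≤ b := (abs_nonneg x).trans hx
  have h1 : ‖(x : ℂ) + (y : ℂ) * Complex.I‖ ^ 2 ≤ (3 / 2 * b) ^ 2 := by
    rw [← Complex.normSq_eq_norm_sq, Complex.normSq_add_mul_I]
    have h2 : x ^ 2 ≤ b ^ 2 := sq_le_sq' (abs_le.1 hx).1 (abs_le.1 hx).2
    have h3 : y ^ 2 ≤ b ^ 2 := sq_le_sq' (abs_le.1 hy).1 (abs_le.1 hy).2
    nlinarith [sq_nonneg b]
  exact le_of_sq_le_sq h1 (by positivity)

theorem Qsp_err (S A : ℕ) (hS : S ≤ 160) (hA : A ≤ 3518437208883) :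
    ‖cpx (Qsp S A) / (((2 : ℤ) ^ S : ℤ) : ℂ) - qa ((A : ℝ) / 2 ^ 40)‖ ≤ 2 / (((2 : ℤ) ^ S : ℤ) : ℝ) := by
  obtain ⟨ha0, ha1⟩ := a_bounds hA
  set a : ℝ := (A : ℝ) / 2 ^ 40 with ha
  have hD : (0 : ℝ) < (((2 : ℤ) ^ S : ℤ) : ℝ) := by positivity
  have hDr : (((2 : ℤ) ^ S : ℤ) : ℝ) = 2 ^ S := by push_cast; rfl
  have hDc : (((2 : ℤ) ^ S : ℤ) : ℂ) = 2 ^ S := by push_cast; rfl
  have hDn : ‖(((2 : ℤ) ^ S : ℤ) : ℂ)‖ = (((2 : ℤ) ^ S : ℤ) : ℝ) := by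
    rw [hDc, hDr]
    simp
  have hDc0 : (((2 : ℤ) ^ S : ℤ) : ℂ) ≠ 0 := by
    rw [hDc]; exact pow_ne_zero _ two_ne_zero
  rw [le_div_iff₀ hD, ← hDn, ← norm_mul, sub_mul, div_mul_cancel₀ _ hDc0]
  set T : ℂ := ∑ m ∈ range 64, ((a : ℂ) * Complex.I) ^ m / (m.factorial : ℂ) with hT
  -- the Taylor polynomial
  have hTay : ‖qa a - T‖ ≤ (16 / 5) ^ 64 / ((64).factorial : ℝ) * 2 := by
    have hn : ‖(a : ℂ) * Complex.I‖ = a := by
      rw [norm_mul, Complex.norm_I, mul_one, Complex.norm_real, Real.norm_of_nonneg ha0]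
    have h := Complex.exp_bound' (x := (a : ℂ) * Complex.I) (n := 64) (by rw [hn]; norm_num; linarith)
    rw [hn] at h
    refine h.trans ?_
    have h5 : a ^ 64 ≤ (16 / 5) ^ 64 := pow_le_pow_left₀ ha0 ha1 64
    have h6 : (0 : ℝ) < ((64).factorial : ℝ) := by exact_mod_cast (64).factorial_pos
    exact mul_le_mul_of_nonneg_right (div_le_div_of_nonneg_right h5 h6.le) (by norm_num)
  have hTay2 : ‖(T - qa a) * (((2 : ℤ) ^ S : ℤ) : ℂ)‖ ≤ 1 / 2 ^ 16 := by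
    rw [norm_mul, hDn, hDr, norm_sub_rev, le_div_iff₀ (by positivity)]
    have h7 : (2 : ℝ) ^ S ≤ 2 ^ 160 := pow_le_pow_right₀ (by norm_num) hS
    calc ‖qa a - T‖ * 2 ^ S * 2 ^ 16 ≤ ((16 / 5) ^ 64 / ((64).factorial : ℝ) * 2) * 2 ^ 160 * 2 ^ 16 := by
          gcongr
      _ = (2 : ℝ) ^ 176 * ((16 / 5) ^ 64 / ((64).factorial : ℝ) * 2) := by ring
      _ ≤ 1 := tail_num
  -- the main part
  have hmain : cpx (Qsp S A) - T * (((2 : ℤ) ^ S : ℤ) : ℂ) =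
      ((((((PU S A 16 0 : ℤ) - PU S A 16 2) / 2 ^ 16 : ℤ) : ℝ) - (CX S a 0 - CX S a 2) / 2 ^ 16 : ℝ) : ℂ) +
      ((((((PU S A 16 1 : ℤ) - PU S A 16 3) / 2 ^ 16 : ℤ) : ℝ) - (CX S a 1 - CX S a 3) / 2 ^ 16 : ℝ) : ℂ) *
        Complex.I := by
    have h8 : T * (((2 : ℤ) ^ S : ℤ) : ℂ) = (2 : ℂ) ^ (S + 16) * T / 2 ^ 16 := by
      rw [hDc, pow_add]
      field_simp
    rw [h8, hT, taylor_eq, Qsp_eq]
    unfold cpx
    push_cast
    ring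
  have hn1 : ‖cpx (Qsp S A) - T * (((2 : ℤ) ^ S : ℤ) : ℂ)‖ ≤ 3 / 2 * (1 + 80 / 2 ^ 16) := by
    rw [hmain]
    exact norm_pair _ _ _ (coord S A hA 0 2) (coord S A hA 1 3)
  have e : cpx (Qsp S A) - qa a * (((2 : ℤ) ^ S : ℤ) : ℂ) =
      (cpx (Qsp S A) - T * (((2 : ℤ) ^ S : ℤ) : ℂ)) + (T - qa a) * (((2 : ℤ) ^ S : ℤ) : ℂ) := by ring
  rw [e]
  refine (norm_add_le _ _).trans ((add_le_add hn1 hTay2).trans ?_)
  norm_num

/-! ### The packed residue -/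

private lemma ustep_eq (S A m : ℕ) : ustep A m (Usp S A m) = Usp S A (m + 1) := by
  show Nat.div (Nat.shiftRight (Nat.mul (Usp S A m) A) 40) (Nat.succ m) = Usp S A m * A / 2 ^ 40 / (m + 1)
  have h : Nat.shiftRight (Nat.mul (Usp S A m) A) 40 = Usp S A m * A / 2 ^ 40 :=
    Nat.shiftRight_eq_div_pow _ _
  rw [h]
  rfl

/-- the final combination -/
private def fin4 (S Y MM p0 p1 p2 p3 : ℕ) : ℕ :=
  Nat.add (Nat.add (Nat.shiftRight (Nat.sub (Nat.add p0 (Nat.pow 2 (Nat.add S 19))) p2) 16)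
    (Nat.mul (Nat.shiftRight (Nat.sub (Nat.add p1 (Nat.pow 2 (Nat.add S 19))) p3) 16) Y))
    (Nat.sub MM (Nat.mul (Nat.pow 2 (Nat.add S 3)) (Nat.succ Y)))

private lemma qloop_zero (S Y MM A m u p0 p1 p2 p3 : ℕ) :
    qloop S Y MM A 0 m u p0 p1 p2 p3 = fin4 S Y MM p0 p1 p2 p3 := rfl

private lemma qloop_succ (S Y MM A k m u p0 p1 p2 p3 : ℕ) :
    qloop S Y MM A (k + 1) m u p0 p1 p2 p3 =
      qloop S Y MM A k (m + 4) (ustep A (m + 3) (ustep A (m + 2) (ustep A (m + 1) (ustep A m u))))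
        (p0 + u) (p1 + ustep A m u) (p2 + ustep A (m + 1) (ustep A m u))
        (p3 + ustep A (m + 2) (ustep A (m + 1) (ustep A m u))) := rfl

private lemma PU_succ (S A k r : ℕ) : PU S A (k + 1) r = PU S A k r + Usp S A (4 * k + r) := by
  unfold PU
  rw [sum_range_succ]

private lemma qloop_eq (S Y MM A k : ℕ) : ∀ i : ℕ,
    qloop S Y MM A k (4 * i) (Usp S A (4 * i)) (PU S A i 0) (PU S A i 1) (PU S A i 2) (PU S A i 3) =
      fin4 S Y MM (PU S A (i + k) 0) (PU S A (i + k) 1) (PU S A (i + k) 2) (PU S A (i + k) 3) := by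
  induction k with
  | zero => intro i; exact qloop_zero _ _ _ _ _ _ _ _ _ _
  | succ k ih =>
    intro i
    rw [qloop_succ, ustep_eq, ustep_eq, ustep_eq, ustep_eq]
    have h := ih (i + 1)
    rw [PU_succ, PU_succ, PU_succ, PU_succ] at h
    rw [show i + (k + 1) = i + 1 + k by ring, ← h]
    rfl

private lemma Usp_le (S A : ℕ) (hA : A ≤ 3518437208883) (m : ℕ) :
    (Usp S A m : ℝ) ≤ 2 ^ (S + 16) * ((16 / 5) ^ m / (m.factorial : ℝ)) := by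
  obtain ⟨ha0, ha1⟩ := a_bounds hA
  have h := (err S A hA m).1
  have h1 : Xex S ((A : ℝ) / 2 ^ 40) m ≤ 2 ^ (S + 16) * ((16 / 5) ^ m / (m.factorial : ℝ)) := by
    unfold Xex
    gcongr
  linarith

private lemma PU_le (S A : ℕ) (hA : A ≤ 3518437208883) (r : ℕ)
    (hr : ∑ j ∈ range 16, ((16 / 5 : ℝ) ^ (4 * j + r) / ((4 * j + r).factorial : ℝ)) ≤ 8) :
    PU S A 16 r ≤ 2 ^ (S + 19) := by
  have h : (PU S A 16 r : ℝ) ≤ 2 ^ (S + 19) := by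
    calc (PU S A 16 r : ℝ) = ∑ j ∈ range 16, (Usp S A (4 * j + r) : ℝ) := by
          unfold PU
          push_cast
          rfl
      _ ≤ ∑ j ∈ range 16, 2 ^ (S + 16) * ((16 / 5 : ℝ) ^ (4 * j + r) / ((4 * j + r).factorial : ℝ)) :=
          sum_le_sum fun j _ => Usp_le S A hA _
      _ = 2 ^ (S + 16) * ∑ j ∈ range 16, ((16 / 5 : ℝ) ^ (4 * j + r) / ((4 * j + r).factorial : ℝ)) := by
          rw [mul_sum]
      _ ≤ 2 ^ (S + 16) * 8 := mul_le_mul_of_nonneg_left hr (by positivity)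
      _ = 2 ^ (S + 19) := by rw [show S + 19 = S + 16 + 3 by ring, pow_add (2 : ℝ) (S + 16) 3]; norm_num
  exact_mod_cast h

private lemma num2 : ∑ j ∈ range 16, ((16 / 5 : ℝ) ^ (4 * j + 2) / ((4 * j + 2).factorial : ℝ)) ≤ 8 := by
  norm_num [sum_range_succ, Nat.factorial]

private lemma num3 : ∑ j ∈ range 16, ((16 / 5 : ℝ) ^ (4 * j + 3) / ((4 * j + 3).factorial : ℝ)) ≤ 8 := by
  norm_num [sum_range_succ, Nat.factorial]

/-- one coordinate of the packed value -/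
private lemma coordN (S p q : ℕ) (h : q ≤ 2 ^ (S + 19)) :
    ((Nat.shiftRight (Nat.sub (Nat.add p (Nat.pow 2 (Nat.add S 19))) q) 16 : ℕ) : ℤ) =
      ((p : ℤ) - q) / 2 ^ 16 + 2 ^ (S + 3) := by
  have h1 : Nat.shiftRight (Nat.sub (Nat.add p (Nat.pow 2 (Nat.add S 19))) q) 16 =
      (p + 2 ^ (S + 19) - q) / 2 ^ 16 := Nat.shiftRight_eq_div_pow _ _
  rw [h1]
  have h2 : q ≤ p + 2 ^ (S + 19) := h.trans (Nat.le_add_left _ _)
  rw [Int.natCast_div, Nat.cast_sub h2]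
  push_cast
  have h3 : (p : ℤ) + 2 ^ (S + 19) - q = ((p : ℤ) - q) + 2 ^ (S + 3) * 65536 := by
    rw [show S + 19 = S + 3 + 16 by ring, pow_add (2 : ℤ) (S + 3) 16]
    ring
  rw [h3, Int.add_mul_ediv_right _ _ (by norm_num)]

theorem qN_res (K : ClsI) (hy : K.S + 24 ≤ K.y) (A : ℕ) (hA : A ≤ 3518437208883) : Res K.y (qEv K A) (Qsp K.S A) := by
  have h1 : qEv K A = fin4 K.S K.Y K.MM (PU K.S A 16 0) (PU K.S A 16 1) (PU K.S A 16 2) (PU K.S A 16 3) :=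
    qloop_eq K.S K.Y K.MM A 16 0
  have hY : K.Y = 2 ^ K.y := rfl
  have hMM : K.MM = 2 ^ (2 * K.y) + 1 := rfl
  have hle : 2 ^ (K.S + 3) * (2 ^ K.y + 1) ≤ 2 ^ (2 * K.y) + 1 := by
    have a1 : 2 ^ (K.S + 3) * 2 ≤ 2 ^ K.y := by
      rw [← pow_succ]
      exact Nat.pow_le_pow_right (by norm_num) (by omega)
    have a2 : 2 ^ (K.S + 3) * (2 ^ K.y + 1) ≤ 2 ^ (K.S + 3) * (2 * 2 ^ K.y) :=
      Nat.mul_le_mul_left _ (by have := Nat.one_le_two_pow (n := K.y); omega)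
    calc 2 ^ (K.S + 3) * (2 ^ K.y + 1) ≤ 2 ^ (K.S + 3) * (2 * 2 ^ K.y) := a2
      _ = 2 ^ (K.S + 3) * 2 * 2 ^ K.y := by ring
      _ ≤ 2 ^ K.y * 2 ^ K.y := Nat.mul_le_mul_right _ a1
      _ = 2 ^ (2 * K.y) := by rw [two_mul, pow_add]
      _ ≤ 2 ^ (2 * K.y) + 1 := Nat.le_succ _
  have c0 := coordN K.S (PU K.S A 16 0) (PU K.S A 16 2) (PU_le K.S A hA 2 num2)
  have c1 := coordN K.S (PU K.S A 16 1) (PU K.S A 16 3) (PU_le K.S A hA 3 num3)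
  have h2 : (qEv K A : ℤ) = (Qsp K.S A).1 + (Qsp K.S A).2 * 2 ^ K.y + ((2 ^ K.y) ^ 2 + 1) := by
    rw [h1, Qsp_eq]
    unfold fin4
    have h3 : ((Nat.sub K.MM (Nat.mul (Nat.pow 2 (Nat.add K.S 3)) (Nat.succ K.Y)) : ℕ) : ℤ) =
        (2 ^ (2 * K.y) + 1) - 2 ^ (K.S + 3) * (2 ^ K.y + 1) := by
      have h4 : Nat.sub K.MM (Nat.mul (Nat.pow 2 (Nat.add K.S 3)) (Nat.succ K.Y)) =
          2 ^ (2 * K.y) + 1 - 2 ^ (K.S + 3) * (2 ^ K.y + 1) := rfl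
      rw [h4, Nat.cast_sub hle]
      push_cast
      ring
    have h5 : ((Nat.add (Nat.add (Nat.shiftRight (Nat.sub (Nat.add (PU K.S A 16 0) (Nat.pow 2 (Nat.add K.S 19)))
        (PU K.S A 16 2)) 16) (Nat.mul (Nat.shiftRight (Nat.sub (Nat.add (PU K.S A 16 1)
        (Nat.pow 2 (Nat.add K.S 19))) (PU K.S A 16 3)) 16) K.Y))
        (Nat.sub K.MM (Nat.mul (Nat.pow 2 (Nat.add K.S 3)) (Nat.succ K.Y))) : ℕ) : ℤ) =
        ((Nat.shiftRight (Nat.sub (Nat.add (PU K.S A 16 0) (Nat.pow 2 (Nat.add K.S 19)))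
        (PU K.S A 16 2)) 16 : ℕ) : ℤ) + ((Nat.shiftRight (Nat.sub (Nat.add (PU K.S A 16 1)
        (Nat.pow 2 (Nat.add K.S 19))) (PU K.S A 16 3)) 16 : ℕ) : ℤ) * 2 ^ K.y +
        ((Nat.sub K.MM (Nat.mul (Nat.pow 2 (Nat.add K.S 3)) (Nat.succ K.Y)) : ℕ) : ℤ) := by
      show (((_ + _ * K.Y) + _ : ℕ) : ℤ) = _
      rw [hY]
      push_cast
      rfl
    rw [h5, h3, c0, c1]
    ring
  unfold Res
  rw [h2]
  exact ⟨1, by ring⟩

end SokalFU
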