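import Pool.Agent.Lib_MP_af4de1_fu.EvI
import Pool.Agent.Lib_MP_af4de1_fu.EvQ

/-!
# The tube test implies the specification
-/

set_option autoImplicit false

namespace SokalFU

open Finset

theorem pk_res {y sh : ℕ} {cx cy : ℤ} (hx : (-cx).toNat * sh ≤ (2 ^ y) ^ 2 + 1) (hy : (-cy).toNat * sh ≤ (2 ^ y) ^ 2 + 1) :
    Res y (pk ((2 ^ y) ^ 2 + 1) (2 ^ y) sh cx cy) (cx * sh, cy * sh) := by
  have h : ∀ x : ℤ, (-x).toNat * sh ≤ (2 ^ y) ^ 2 + 1 →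
      ((x.toNat * sh + ((2 ^ y) ^ 2 + 1 - (-x).toNat * sh) : ℕ) : ℤ) = x * sh + ((2 ^ y) ^ 2 + 1) := by
    intro x hx
    rw [Nat.cast_add, Nat.cast_sub hx]
    push_cast
    have h1 : x = (x.toNat : ℤ) - ((-x).toNat : ℤ) := by omega
    calc (x.toNat : ℤ) * sh + ((2 ^ y) ^ 2 + 1 - ((-x).toNat : ℤ) * sh) =
        ((x.toNat : ℤ) - ((-x).toNat : ℤ)) * sh + ((2 ^ y) ^ 2 + 1) := by ring
      _ = _ := by rw [← h1]
  unfold Res pk
  refine ⟨1 + 2 ^ y, ?_⟩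
  rw [Nat.cast_add, Nat.cast_mul, h cx hx, h cy hy]
  push_cast
  ring

/-- lane as an integer -/
theorem dg_re {K : ClsI} {c q : ℤ × ℤ} (h : OkM K c q) (p : ℕ) (hp : p ≤ 2 * K.M) :
    ((dg K c q (2 * p) : ℕ) : ℤ) - ((2 ^ (K.y - 1) : ℕ) : ℤ) = Mre (2 ^ K.S) c q K.n0 K.N p := by
  have h3 := (abs_lt.1 (h.Mr p hp)).1
  unfold dg
  rw [if_pos (by omega), show 2 * p / 2 = p by omega, Int.toNat_of_nonneg (by linarith)]
  push_cast
  ring

theorem dg_im {K : ClsI} {c q : ℤ × ℤ} (h : OkM K c q) (p : ℕ) (hp : p ≤ 2 * K.M) :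
    ((dg K c q (2 * p + 1) : ℕ) : ℤ) - ((2 ^ (K.y - 1) : ℕ) : ℤ) = Mim (2 ^ K.S) c q K.n0 K.N p := by
  have h3 := (abs_lt.1 (h.Mi p hp)).1
  unfold dg
  rw [if_neg (by omega), show (2 * p + 1) / 2 = p by omega, Int.toNat_of_nonneg (by linarith)]
  push_cast
  ring

/-- norm bound of the moments -/
def gm (K : ClsI) (c q : ℤ × ℤ) (p : ℕ) : ℕ :=
  nU (Mre (2 ^ K.S) c q K.n0 K.N p).natAbs (Mim (2 ^ K.S) c q K.n0 K.N p).natAbs

theorem sum_Icc_one (f : ℕ → ℝ) (n : ℕ) : ∑ p ∈ Icc 1 n, f p = ∑ j ∈ range n, f (j + 1) := by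
  have h : Icc 1 n = Ico 1 (n + 1) := by ext x; simp only [Finset.mem_Icc, Finset.mem_Ico]; omega
  rw [h, Finset.sum_Ico_eq_sum_range]
  simp only [Nat.add_sub_cancel, add_comm 1]

theorem sum_Icc_two (f : ℕ → ℝ) (hf : ∀ p, 0 ≤ f p) (n : ℕ) : ∑ p ∈ Icc 3 n, f p ≤ ∑ j ∈ range n, f (j + 2) := by
  have h : ∑ j ∈ range n, f (j + 2) = ∑ p ∈ Ico 2 (n + 2), f p := by
    rw [Finset.sum_Ico_eq_sum_range]
    simp only [Nat.add_sub_cancel, add_comm 2]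
  rw [h]
  refine Finset.sum_le_sum_of_subset_of_nonneg ?_ fun i _ _ => hf i
  intro x hx
  simp only [Finset.mem_Icc] at hx
  simp only [Finset.mem_Ico]
  omega

/-- evaluation of the weighted sums -/
theorem acc_div (k u : ℕ) (g : ℕ → ℕ) (l : List ℕ) :
    ((acc (2 ^ u) g l 2 0 : ℕ) : ℝ) / 2 ^ (k + u * l.length) =
      ∑ j ∈ range l.length, ((l.getD j 0 : ℕ) : ℝ) / 2 ^ (k + u * (j + 1)) * (g (j + 2) : ℝ) := by
  rw [acc_eq, zero_mul, zero_add, Nat.cast_sum, Finset.sum_div]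
  refine Finset.sum_congr rfl fun j hj => ?_
  have hj' := Finset.mem_range.1 hj
  have e1 : k + u * l.length = (k + u * (j + 1)) + u * (l.length - 1 - j) := by
    have : l.length = (j + 1) + (l.length - 1 - j) := by omega
    conv_lhs => rw [this]
    ring
  rw [e1, pow_add, add_comm 2 j]
  push_cast
  have h1 : (0 : ℝ) < 2 ^ (k + u * (j + 1)) := by positivity
  have h2 : (0 : ℝ) < 2 ^ (u * (l.length - 1 - j)) := by positivity
  field_simp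

theorem Mom_le (K : ClsI) (c q : ℤ × ℤ) (p : ℕ) :
    64 * ‖Mom (2 ^ K.S) c q K.n0 K.N p‖ ≤ gm K c q p := nU_le _

theorem t1_sum (K : ClsI) (c q : ℤ × ℤ) (hlen : K.wl.length = 2 * K.M - 2) :
    ∑ p ∈ Icc 1 (2 * K.M - 2), K.toCls.w2 p * ‖Mom (2 ^ K.S) c q K.n0 K.N (p + 1)‖ ≤
      ((acc (2 ^ K.u) (gm K c q) (K.wl.map Prod.fst) 2 0 : ℕ) : ℝ) / 2 ^ (6 + (K.k + K.u * (2 * K.M - 2))) := by
  have h1 := acc_div K.k K.u (gm K c q) (K.wl.map Prod.fst)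
  rw [List.length_map, hlen] at h1
  rw [pow_add, ← div_div, div_right_comm, h1, sum_Icc_one, Finset.sum_div]
  refine Finset.sum_le_sum fun j hj => ?_
  have e1 : K.toCls.w2 (j + 1) = ((((K.wl.map Prod.fst).getD j 0 : ℕ)) : ℝ) / 2 ^ (K.k + K.u * (j + 1)) := by
    unfold ClsI.toCls
    simp only [Nat.add_sub_cancel]
    congr 2
    exact (List.getD_map (f := Prod.fst) (l := K.wl) (d := ((0, 0) : ℕ × ℕ)) (n := j)).symm
  rw [e1]
  have h2 := Mom_le K c q (j + 2)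
  have h3 : (0 : ℝ) ≤ ((((K.wl.map Prod.fst).getD j 0 : ℕ)) : ℝ) / 2 ^ (K.k + K.u * (j + 1)) := by positivity
  rw [show j + 1 + 1 = j + 2 by ring, mul_div_assoc]
  refine mul_le_mul_of_nonneg_left ?_ h3
  rw [le_div_iff₀ (by positivity)]
  linarith

theorem t2_sum (K : ClsI) (c q : ℤ × ℤ) (hlen : K.wl.length = 2 * K.M - 2) :
    ∑ p ∈ Icc 3 (2 * K.M - 2), K.toCls.w0 p * ‖Mom (2 ^ K.S) c q K.n0 K.N p‖ ≤
      ((acc (2 ^ K.u) (gm K c q) (K.wl.map Prod.snd) 2 0 : ℕ) : ℝ) / 2 ^ (6 + (K.k + K.u * (2 * K.M - 2) + K.u)) := by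
  have h1 := acc_div (K.k + K.u) K.u (gm K c q) (K.wl.map Prod.snd)
  rw [List.length_map, hlen] at h1
  have e0 : K.k + K.u * (2 * K.M - 2) + K.u = K.k + K.u + K.u * (2 * K.M - 2) := by ring
  rw [e0, pow_add, ← div_div, div_right_comm, h1]
  refine (sum_Icc_two (fun p => K.toCls.w0 p * ‖Mom (2 ^ K.S) c q K.n0 K.N p‖) ?_ _).trans ?_
  · intro p
    have : 0 ≤ K.toCls.w0 p := by unfold ClsI.toCls; positivity
    positivity
  rw [Finset.sum_div]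
  refine Finset.sum_le_sum fun j hj => ?_
  have e1 : K.toCls.w0 (j + 2) = ((((K.wl.map Prod.snd).getD j 0 : ℕ)) : ℝ) / 2 ^ (K.k + K.u + K.u * (j + 1)) := by
    unfold ClsI.toCls
    simp only [Nat.add_sub_cancel]
    have e2 : K.k + K.u * (j + 2) = K.k + K.u + K.u * (j + 1) := by ring
    rw [e2]
    congr 2
    exact (List.getD_map (f := Prod.snd) (l := K.wl) (d := ((0, 0) : ℕ × ℕ)) (n := j)).symm
  rw [e1]
  have h2 := Mom_le K c q (j + 2)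
  have h3 : (0 : ℝ) ≤ ((((K.wl.map Prod.snd).getD j 0 : ℕ)) : ℝ) / 2 ^ (K.k + K.u + K.u * (j + 1)) := by positivity
  rw [mul_div_assoc]
  refine mul_le_mul_of_nonneg_left ?_ h3
  rw [le_div_iff₀ (by positivity)]
  linarith

theorem absd_lane {K : ClsI} {c q : ℤ × ℤ} (h : OkM K c q) (p : ℕ) (hp : p ≤ 2 * K.M) :
    nU (absd (2 ^ (K.y - 1)) (dg K c q (2 * p))) (absd (2 ^ (K.y - 1)) (dg K c q (2 * p + 1))) = gm K c q p := by
  rw [absd_re h p hp, absd_im h p hp, gm]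

theorem acc_congr (uu : ℕ) (g g' : ℕ → ℕ) (l : List ℕ) :
    ∀ i a, (∀ j < l.length, g (i + j) = g' (i + j)) → acc uu g l i a = acc uu g' l i a := by
  induction l with
  | nil => intro i a _; rfl
  | cons w l ih =>
    intro i a h
    rw [acc, acc, ← ih]
    · have := h 0 (by simp)
      rw [add_zero] at this
      rw [this]
    · intro j hj
      have := h (j + 1) (by simpa using hj)
      rwa [show i + (j + 1) = i + 1 + j by ring] at this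

/-- the final check with the exact moments -/
structure Fin' (K : ClsI) (c q : ℤ × ℤ) (d e' : ℕ) (nx ny : ℤ) : Prop where
  L1 : 1 ≤ nL (Mre (2 ^ K.S) c q K.n0 K.N 1).natAbs (Mim (2 ^ K.S) c q K.n0 K.N 1).natAbs
  t1 : 2 ^ 42 * acc (2 ^ K.u) (gm K c q) (K.wl.map Prod.fst) 2 0 + 2 ^ (48 + (K.k + K.u * (2 * K.M - 2))) * K.e1 ≤
    2 ^ (K.k + K.u * (2 * K.M - 2)) * K.th * nL (Mre (2 ^ K.S) c q K.n0 K.N 1).natAbs (Mim (2 ^ K.S) c q K.n0 K.N 1).natAbs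
  t2 : gm K c q 0 * 2 ^ (81 + (K.k + K.u * (2 * K.M - 2)) + K.u) +
      d * nU (2 * (Mre (2 ^ K.S) c q K.n0 K.N 1 * nx - Mim (2 ^ K.S) c q K.n0 K.N 1 * ny) -
          2 ^ 40 * Mim (2 ^ K.S) c q K.n0 K.N 2).natAbs
        (2 * (Mre (2 ^ K.S) c q K.n0 K.N 1 * ny + Mim (2 ^ K.S) c q K.n0 K.N 1 * nx) +
          2 ^ 40 * Mre (2 ^ K.S) c q K.n0 K.N 2).natAbs * 2 ^ ((K.k + K.u * (2 * K.M - 2)) + K.u) +
      K.rho0 ^ 2 * gm K c q 2 * 2 ^ ((K.k + K.u * (2 * K.M - 2)) + K.u) +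
      acc (2 ^ K.u) (gm K c q) (K.wl.map Prod.snd) 2 0 * 2 ^ 81 + K.e0 * 2 ^ (87 + (K.k + K.u * (2 * K.M - 2)) + K.u) ≤
    (2 ^ 40 - K.th) * e' * nL (Mre (2 ^ K.S) c q K.n0 K.N 1).natAbs (Mim (2 ^ K.S) c q K.n0 K.N 1).natAbs *
      2 ^ ((K.k + K.u * (2 * K.M - 2)) + K.u - 1)

theorem fin_of_check {K : ClsI} (hK : OkC K) {c q : ℤ × ℤ} (h : OkM K c q) {qn cn : ℕ} (hq : Res K.y qn q)
    (hc : Res K.y cn c) {d e' : ℕ} {nx ny : ℤ}
    (hf : wloop K.y (2 * K.y) K.Y (2 ^ (K.y - 1)) (2 ^ K.u) K.wl (moms K qn cn >>> (4 * K.y)) 0 0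
      (fun a b => finalCheck K d e' nx ny (2 ^ (K.y - 1)) (moms K qn cn % K.Y) (moms K qn cn >>> K.y % K.Y)
      (moms K qn cn >>> (2 * K.y) % K.Y) (moms K qn cn >>> (3 * K.y) % K.Y) (moms K qn cn >>> (4 * K.y) % K.Y)
        (moms K qn cn >>> (5 * K.y) % K.Y) a b) = true) : Fin' K c q d e' nx ny := by
  have hM := hK.M2
  have eY : K.Y = 2 ^ K.y := rfl
  have hd := fun k (hk : k < 2 * (2 * K.M + 1)) => moms_digit h hq hc k hk
  have hd0 := hd 0 (by omega)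
  rw [zero_mul, Nat.shiftRight_zero] at hd0
  have hd1 := hd 1 (by omega)
  rw [one_mul] at hd1
  have hd2 := hd 2 (by omega)
  have hd3 := hd 3 (by omega)
  have hd4 := hd 4 (by omega)
  have hd5 := hd 5 (by omega)
  rw [eY, hd0, hd1, hd2, hd3, hd4, hd5, show 4 * K.y = 2 * (2 * K.y) by ring, wloop_eq] at hf
  have hg : ∀ p ≤ 2 * K.M, nU (absd (2 ^ (K.y - 1)) (moms K qn cn >>> (2 * p * K.y) % 2 ^ K.y))
      (absd (2 ^ (K.y - 1)) (moms K qn cn >>> ((2 * p + 1) * K.y) % 2 ^ K.y)) = gm K c q p := by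
    intro p hp
    rw [hd (2 * p) (by omega), hd (2 * p + 1) (by omega), absd_lane h p hp]
  have ha1 := acc_congr (2 ^ K.u) (fun i => nU (absd (2 ^ (K.y - 1)) (moms K qn cn >>> (2 * i * K.y) % 2 ^ K.y))
      (absd (2 ^ (K.y - 1)) (moms K qn cn >>> ((2 * i + 1) * K.y) % 2 ^ K.y))) (gm K c q) (K.wl.map Prod.fst) 2 0
      (fun j hj => hg _ (by rw [List.length_map, hK.len] at hj; omega))
  have ha2 := acc_congr (2 ^ K.u) (fun i => nU (absd (2 ^ (K.y - 1)) (moms K qn cn >>> (2 * i * K.y) % 2 ^ K.y))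
      (absd (2 ^ (K.y - 1)) (moms K qn cn >>> ((2 * i + 1) * K.y) % 2 ^ K.y))) (gm K c q) (K.wl.map Prod.snd) 2 0
      (fun j hj => hg _ (by rw [List.length_map, hK.len] at hj; omega))
  rw [ha1, ha2] at hf
  unfold finalCheck at hf
  simp only [Bool.and_eq_true, Nat.add_eq, Nat.mul_eq, Nat.sub_eq] at hf
  obtain ⟨⟨h1, h2⟩, h3⟩ := hf
  have hr1 := dg_re h 1 (by omega)
  have hi1 := dg_im h 1 (by omega)
  have hr2 := dg_re h 2 (by omega)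
  have hi2 := dg_im h 2 (by omega)
  have ar1 := absd_re h 1 (by omega)
  have ai1 := absd_im h 1 (by omega)
  have g0 := absd_lane h 0 (by omega)
  have g2 := absd_lane h 2 (by omega)
  norm_num only at hr1 hi1 hr2 hi2 ar1 ai1 g0 g2
  rw [ar1, ai1] at h1 h2 h3
  rw [hr1, hi1, hr2, hi2, g0, g2] at h3
  exact ⟨Nat.le_of_ble_eq_true h1, Nat.le_of_ble_eq_true h2, Nat.le_of_ble_eq_true h3⟩

end SokalFU
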