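import Pool.Agent.Lib_MP_af4de1_fu.EvJ

/-!
# The tube test implies the specification (final form)
-/

set_option autoImplicit false

namespace SokalFU

open Finset

/-- `ν` of a tube with the data `lx, ly` of `lam` (scale `2 ^ 40`) -/
noncomputable def nuI (n0 : ℕ) (lx ly : ℤ) : ℂ := cpx (lx, ly + (2 * n0 - 1) * 2 ^ 39) / 2 ^ 40

theorem spec_of_fin {K : ClsI} (hK : OkC K) {c q : ℤ × ℤ} {d e' e : ℕ} {nx ny : ℤ}
    (hF : Fin' K c q d e' nx ny) (hc : ‖cpx c‖ ≤ K.R * 2 ^ K.S) (hc0 : cpx c ≠ 0)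
    (hd1 : 1 ≤ d) (hd2 : d ≤ K.del) (he1 : 1 ≤ e') (he2 : e' < e) (he3 : e ≤ K.rho2)
    (hn2 : (nx * nx + ny * ny).toNat * (d * d) ≤ ((K.rho2 - e) * 2 ^ 40) ^ 2)
    (hn0 : (nx * nx + ny * ny).toNat * (d * d) ≤ (K.rho0 * 2 ^ 40) ^ 2) :
    Spec K.toCls q c (cpx (nx, ny) / 2 ^ 40) ((d : ℝ) / 2 ^ 40) ((e' : ℝ) / 2 ^ 40) ((e : ℝ) / 2 ^ 40) := by
  have h40 : (0 : ℝ) < 2 ^ 40 := by norm_num
  have h40c : ‖(2 : ℂ) ^ 40‖ = 2 ^ 40 := by norm_num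
  have hn : ‖cpx (nx, ny)‖ ^ 2 = (((nx * nx + ny * ny).toNat : ℕ) : ℝ) := by
    rw [cpx_norm_sq]
    have h0 : 0 ≤ nx * nx + ny * ny := add_nonneg (mul_self_nonneg _) (mul_self_nonneg _)
    have : ((((nx * nx + ny * ny).toNat : ℕ) : ℤ) : ℝ) = ((nx * nx + ny * ny : ℤ) : ℝ) := by
      rw [Int.toNat_of_nonneg h0]
    push_cast at this
    rw [this]
    ring
  have hnd : ∀ r : ℕ, (nx * nx + ny * ny).toNat * (d * d) ≤ (r * 2 ^ 40) ^ 2 →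
      ‖cpx (nx, ny) / 2 ^ 40‖ * ((d : ℝ) / 2 ^ 40) ≤ (r : ℝ) / 2 ^ 40 := by
    intro r hr
    have hr' : (((nx * nx + ny * ny).toNat : ℕ) : ℝ) * ((d : ℝ) * d) ≤ ((r : ℝ) * 2 ^ 40) ^ 2 := by exact_mod_cast hr
    rw [← hn] at hr'
    have h1 : ‖cpx (nx, ny)‖ * (d : ℝ) ≤ (r : ℝ) * 2 ^ 40 := by
      refine le_of_sq_le_sq ?_ (by positivity)
      nlinarith
    rw [norm_div, h40c, div_mul_div_comm, div_le_div_iff₀ (by positivity) h40]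
    nlinarith
  have eD : K.toCls.D = 2 ^ K.S := rfl
  have e1 : (2 : ℝ) ^ 48 = 2 ^ 40 * 256 := by norm_num
  have L1 := nL_le (Mre (2 ^ K.S) c q K.n0 K.N 1, Mim (2 ^ K.S) c q K.n0 K.N 1)
  have eM1 : cpx (Mre (2 ^ K.S) c q K.n0 K.N 1, Mim (2 ^ K.S) c q K.n0 K.N 1) = Mom (2 ^ K.S) c q K.n0 K.N 1 := rfl
  rw [eM1] at L1
  simp only at L1
  have hFL := hF.L1
  have hF1 := hF.t1
  have hF2 := hF.t2
  obtain ⟨Ln, hLn⟩ : ∃ Ln : ℕ, nL (Mre (2 ^ K.S) c q K.n0 K.N 1).natAbs (Mim (2 ^ K.S) c q K.n0 K.N 1).natAbs = Ln := ⟨_, rfl⟩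
  rw [hLn] at L1 hFL hF1 hF2
  have hL1 : (1 : ℝ) ≤ (Ln : ℝ) := by exact_mod_cast hFL
  set L : ℝ := (Ln : ℝ) with hLdef
  obtain ⟨Kt, hKt⟩ : ∃ Kt, Kt = K.k + K.u * (2 * K.M - 2) := ⟨_, rfl⟩
  rw [← hKt] at hF1 hF2
  have hth : (K.th : ℝ) < 2 ^ 40 := by exact_mod_cast hK.th2
  refine
    { cle := ?_
      cne := hc0
      δpos := ?_
      δle := ?_
      η'pos := ?_
      ηlt := ?_
      rho2 := ?_
      rho0 := ?_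
      thpos := ?_
      thlt := ?_
      t1 := ?_
      t2 := ?_
      mpos := ?_ }
  · rw [eD]
    push_cast
    exact hc
  · have : (1 : ℝ) ≤ d := by exact_mod_cast hd1
    positivity
  · show (d : ℝ) / 2 ^ 40 ≤ (K.del : ℝ) / 2 ^ 40
    have : (d : ℝ) ≤ K.del := by exact_mod_cast hd2
    exact div_le_div_of_nonneg_right this h40.le
  · have : (1 : ℝ) ≤ e' := by exact_mod_cast he1
    positivity
  · have : (e' : ℝ) < e := by exact_mod_cast he2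
    exact div_lt_div_of_pos_right this h40
  · have h1 := hnd (K.rho2 - e) hn2
    rw [Nat.cast_sub he3] at h1
    show ‖cpx (nx, ny) / 2 ^ 40‖ * ((d : ℝ) / 2 ^ 40) + (e : ℝ) / 2 ^ 40 ≤ (K.rho2 : ℝ) / 2 ^ 40
    rw [sub_div] at h1
    linarith
  · exact hnd K.rho0 hn0
  · show (0 : ℝ) < (K.th : ℝ) / 2 ^ 40
    have : (1 : ℝ) ≤ K.th := by exact_mod_cast hK.th1
    positivity
  · show (K.th : ℝ) / 2 ^ 40 < 1
    rw [div_lt_one h40]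
    exact hth
  · have h1 := t1_sum K c q hK.len
    rw [← hKt] at h1
    generalize acc (2 ^ K.u) (gm K c q) (K.wl.map Prod.fst) 2 0 = A1 at h1 hF1
    have h2 : (2 : ℝ) ^ 42 * (A1 : ℝ) + 2 ^ (48 + Kt) * (K.e1 : ℝ) ≤
        2 ^ Kt * (K.th : ℝ) * L := by rw [hLdef]; exact_mod_cast hF1
    show ∑ p ∈ Icc 1 (2 * K.M - 2), K.toCls.w2 p * ‖Mom (2 ^ K.S) c q K.n0 K.N (p + 1)‖ + (K.e1 : ℝ) ≤
      (K.th : ℝ) / 2 ^ 40 * ‖Mom (2 ^ K.S) c q K.n0 K.N 1‖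
    have h3 : (A1 : ℝ) / 2 ^ (6 + Kt) + (K.e1 : ℝ) ≤
        (K.th : ℝ) / 2 ^ 40 * (L / 256) := by
      have hp : (0 : ℝ) < 2 ^ Kt := by positivity
      rw [pow_add] at h2 ⊢
      rw [div_add' _ _ _ (by positivity), div_mul_div_comm, div_le_div_iff₀ (by positivity) (by positivity)]
      rw [e1] at h2
      have e2 : (2 : ℝ) ^ 42 = 2 ^ 40 * 4 := by norm_num
      have e3 : (2 : ℝ) ^ 6 = 64 := by norm_num
      rw [e2] at h2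
      rw [e3]
      nlinarith
    have h4 : L / 256 ≤ ‖Mom (2 ^ K.S) c q K.n0 K.N 1‖ := by linarith
    have h5 : (K.th : ℝ) / 2 ^ 40 * (L / 256) ≤ (K.th : ℝ) / 2 ^ 40 * ‖Mom (2 ^ K.S) c q K.n0 K.N 1‖ :=
      mul_le_mul_of_nonneg_left h4 (by positivity)
    linarith
  · have h1 := t2_sum K c q hK.len
    rw [← hKt] at h1
    have hm0 := Mom_le K c q 0
    have hm2 := Mom_le K c q 2
    have hu := nU_le (2 * (Mre (2 ^ K.S) c q K.n0 K.N 1 * nx - Mim (2 ^ K.S) c q K.n0 K.N 1 * ny) -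
          2 ^ 40 * Mim (2 ^ K.S) c q K.n0 K.N 2,
        2 * (Mre (2 ^ K.S) c q K.n0 K.N 1 * ny + Mim (2 ^ K.S) c q K.n0 K.N 1 * nx) +
          2 ^ 40 * Mre (2 ^ K.S) c q K.n0 K.N 2)
    have eu : cpx (2 * (Mre (2 ^ K.S) c q K.n0 K.N 1 * nx - Mim (2 ^ K.S) c q K.n0 K.N 1 * ny) -
          2 ^ 40 * Mim (2 ^ K.S) c q K.n0 K.N 2,
        2 * (Mre (2 ^ K.S) c q K.n0 K.N 1 * ny + Mim (2 ^ K.S) c q K.n0 K.N 1 * nx) +
          2 ^ 40 * Mre (2 ^ K.S) c q K.n0 K.N 2) =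
        2 ^ 41 * (Mom (2 ^ K.S) c q K.n0 K.N 1 * (cpx (nx, ny) / 2 ^ 40) + Complex.I * Mom (2 ^ K.S) c q K.n0 K.N 2 / 2) := by
      unfold Mom cpx
      push_cast
      have hI := Complex.I_mul_I
      linear_combination (-2 * (Mim (2 ^ K.S) c q K.n0 K.N 1 : ℂ) * ny - 2 ^ 40 * (Mim (2 ^ K.S) c q K.n0 K.N 2 : ℂ)) * hI
    rw [eu, norm_mul] at hu
    have e41 : ‖(2 : ℂ) ^ 41‖ = 2 ^ 41 := by norm_num
    rw [e41] at hu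
    simp only at hu
    generalize nU (2 * (Mre (2 ^ K.S) c q K.n0 K.N 1 * nx - Mim (2 ^ K.S) c q K.n0 K.N 1 * ny) -
          2 ^ 40 * Mim (2 ^ K.S) c q K.n0 K.N 2).natAbs
        (2 * (Mre (2 ^ K.S) c q K.n0 K.N 1 * ny + Mim (2 ^ K.S) c q K.n0 K.N 1 * nx) +
          2 ^ 40 * Mre (2 ^ K.S) c q K.n0 K.N 2).natAbs = UDn at hu hF2
    generalize acc (2 ^ K.u) (gm K c q) (K.wl.map Prod.snd) 2 0 = A2n at h1 hF2
    generalize gm K c q 0 = G0n at hm0 hF2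
    generalize gm K c q 2 = G2n at hm2 hF2
    obtain ⟨G0, hG0⟩ : ∃ G0 : ℝ, G0 = (G0n : ℝ) := ⟨_, rfl⟩
    obtain ⟨G2, hG2⟩ : ∃ G2 : ℝ, G2 = (G2n : ℝ) := ⟨_, rfl⟩
    obtain ⟨A2, hA2⟩ : ∃ A2 : ℝ, A2 = (A2n : ℝ) := ⟨_, rfl⟩
    obtain ⟨UD, hUD⟩ : ∃ UD : ℝ, UD = (UDn : ℝ) := ⟨_, rfl⟩
    rw [← hG0] at hm0
    rw [← hG2] at hm2
    rw [← hA2] at h1
    rw [← hUD] at hu
    obtain ⟨v, hv⟩ : ∃ v, Kt + K.u = v + 1 := ⟨Kt + K.u - 1, by have := hK.u1; omega⟩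
    have h2' : G0 * 2 ^ (81 + (v + 1)) + (d : ℝ) * UD * 2 ^ (v + 1) + (K.rho0 : ℝ) ^ 2 * G2 * 2 ^ (v + 1) + A2 * 2 ^ 81 +
        (K.e0 : ℝ) * 2 ^ (87 + (v + 1)) ≤ (2 ^ 40 - (K.th : ℝ)) * (e' : ℝ) * L * 2 ^ v := by
      rw [add_assoc 81, add_assoc 87, hv, Nat.add_sub_cancel] at hF2
      have hsub : (((2 ^ 40 - K.th : ℕ)) : ℝ) = 2 ^ 40 - (K.th : ℝ) := by
        rw [Nat.cast_sub hK.th2.le, Nat.cast_pow, Nat.cast_ofNat]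
      rw [← hsub, hG0, hG2, hA2, hUD, hLdef]
      generalize 2 ^ 40 - K.th = tn at hF2
      exact_mod_cast hF2
    have h3 : G0 / 64 + (d : ℝ) / 2 ^ 40 * (UD / 2 ^ 47) + ((K.rho0 : ℝ) / 2 ^ 40) ^ 2 / 2 * (G2 / 64) +
        A2 / 2 ^ (6 + (Kt + K.u)) + K.e0 ≤ (1 - (K.th : ℝ) / 2 ^ 40) * ((e' : ℝ) / 2 ^ 40) * (L / 256) := by
      rw [hv]
      have hp : (0 : ℝ) < 2 ^ v := by positivity
      have h87 : (0 : ℝ) < 2 ^ 88 * 2 ^ v := by positivity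
      rw [← mul_le_mul_iff_of_pos_left h87]
      have e2 : 2 ^ 88 * 2 ^ v * (G0 / 64 + (d : ℝ) / 2 ^ 40 * (UD / 2 ^ 47) + ((K.rho0 : ℝ) / 2 ^ 40) ^ 2 / 2 * (G2 / 64) +
          A2 / 2 ^ (6 + (v + 1)) + K.e0) = G0 * 2 ^ (81 + (v + 1)) + (d : ℝ) * UD * 2 ^ (v + 1) +
          (K.rho0 : ℝ) ^ 2 * G2 * 2 ^ (v + 1) + A2 * 2 ^ 81 + (K.e0 : ℝ) * 2 ^ (87 + (v + 1)) := by
        have ep1 : (2 : ℝ) ^ (81 + (v + 1)) = 2 ^ 82 * 2 ^ v := by rw [← pow_add]; congr 1; ring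
        have ep2 : (2 : ℝ) ^ (v + 1) = 2 * 2 ^ v := pow_succ' _ _
        have ep3 : (2 : ℝ) ^ (87 + (v + 1)) = 2 ^ 88 * 2 ^ v := by rw [← pow_add]; congr 1; ring
        have ep4 : (2 : ℝ) ^ (6 + (v + 1)) = 2 ^ 7 * 2 ^ v := by rw [← pow_add]; congr 1; ring
        rw [ep1, ep2, ep3, ep4]
        field_simp
        ring
      have e3 : 2 ^ 88 * 2 ^ v * ((1 - (K.th : ℝ) / 2 ^ 40) * ((e' : ℝ) / 2 ^ 40) * (L / 256)) =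
          (2 ^ 40 - (K.th : ℝ)) * (e' : ℝ) * L * 2 ^ v := by
        field_simp
        ring
      rw [e2, e3]
      exact h2'
    show ‖Mom (2 ^ K.S) c q K.n0 K.N 0‖ +
        (d : ℝ) / 2 ^ 40 * ‖Mom (2 ^ K.S) c q K.n0 K.N 1 * (cpx (nx, ny) / 2 ^ 40) + Complex.I * Mom (2 ^ K.S) c q K.n0 K.N 2 / 2‖ +
        ((K.rho0 : ℝ) / 2 ^ 40) ^ 2 / 2 * ‖Mom (2 ^ K.S) c q K.n0 K.N 2‖ +
        ∑ p ∈ Icc 3 (2 * K.M - 2), K.toCls.w0 p * ‖Mom (2 ^ K.S) c q K.n0 K.N p‖ + (K.e0 : ℝ) ≤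
      (1 - (K.th : ℝ) / 2 ^ 40) * ((e' : ℝ) / 2 ^ 40) * ‖Mom (2 ^ K.S) c q K.n0 K.N 1‖
    have i0 : ‖Mom (2 ^ K.S) c q K.n0 K.N 0‖ ≤ G0 / 64 := by linarith
    have i1 : ‖Mom (2 ^ K.S) c q K.n0 K.N 1 * (cpx (nx, ny) / 2 ^ 40) + Complex.I * Mom (2 ^ K.S) c q K.n0 K.N 2 / 2‖ ≤
        UD / 2 ^ 47 := by
      rw [le_div_iff₀ (by positivity)]
      have : (2 : ℝ) ^ 47 = 64 * 2 ^ 41 := by norm_num
      rw [this]
      linarith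
    have i2 : ‖Mom (2 ^ K.S) c q K.n0 K.N 2‖ ≤ G2 / 64 := by linarith
    have i4 : L / 256 ≤ ‖Mom (2 ^ K.S) c q K.n0 K.N 1‖ := by linarith
    have j1 := mul_le_mul_of_nonneg_left i1 (show (0 : ℝ) ≤ (d : ℝ) / 2 ^ 40 by positivity)
    have j2 := mul_le_mul_of_nonneg_left i2 (show (0 : ℝ) ≤ ((K.rho0 : ℝ) / 2 ^ 40) ^ 2 / 2 by positivity)
    have j4 := mul_le_mul_of_nonneg_left i4 (show (0 : ℝ) ≤ (1 - (K.th : ℝ) / 2 ^ 40) * ((e' : ℝ) / 2 ^ 40) by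
      have : (K.th : ℝ) / 2 ^ 40 ≤ 1 := by rw [div_le_one h40]; exact hth.le
      have h9 : 0 ≤ 1 - (K.th : ℝ) / 2 ^ 40 := by linarith
      positivity)
    linarith
  · show 0 < ‖Mom (2 ^ K.S) c q K.n0 K.N 1‖
    linarith

/-- The evaluator is correct. -/
theorem spec_of_check {K : ClsI} (hK : okE K = true) {a d e' e : ℕ} {cx cy lx ly : ℤ}
    (h : tubeCheck K a d e' e cx cy lx ly = true) :
    Spec K.toCls (Qsp K.S a) (cx * 2 ^ (K.S - 40), cy * 2 ^ (K.S - 40)) (nuI K.n0 lx ly) ((d : ℝ) / 2 ^ 40)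
      ((e' : ℝ) / 2 ^ 40) ((e : ℝ) / 2 ^ 40) ∧ a ≤ 3518437208883 := by
  have hC := okE_spec hK
  unfold tubeCheck at h
  simp only [Bool.and_eq_true] at h
  obtain ⟨⟨⟨⟨⟨⟨⟨⟨⟨⟨h1, h2⟩, h3⟩, h4⟩, h5⟩, h6⟩, h7⟩, h8⟩, h9⟩, h10⟩, h11⟩ := h
  have ha := Nat.le_of_ble_eq_true h1
  have hd1 := Nat.le_of_ble_eq_true h2
  have hd2 := Nat.le_of_ble_eq_true h3
  have he1 := Nat.le_of_ble_eq_true h4
  have he2 : e' < e := Nat.le_of_ble_eq_true h5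
  have he3 := Nat.le_of_ble_eq_true h6
  have hn2 := Nat.le_of_ble_eq_true h7
  have hn0 := Nat.le_of_ble_eq_true h8
  have hR := Nat.le_of_ble_eq_true h9
  have hc1 := Nat.le_of_ble_eq_true h10
  have hcs : (0 : ℤ) ≤ cx * cx + cy * cy := add_nonneg (mul_self_nonneg _) (mul_self_nonneg _)
  have hR' : cx * cx + cy * cy ≤ ((K.R * 2 ^ 40) ^ 2 : ℕ) := by
    rw [← Int.toNat_of_nonneg hcs]
    exact_mod_cast hR
  have hc1' : 1 ≤ cx * cx + cy * cy := by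
    rw [← Int.toNat_of_nonneg hcs]
    exact_mod_cast hc1
  obtain ⟨s, hs⟩ : ∃ s, K.S = s + 40 := ⟨K.S - 40, by have := hC.S40; omega⟩
  have hs' : K.S - 40 = s := by omega
  have hcn : ‖cpx (cx, cy)‖ ≤ K.R * 2 ^ 40 := by
    refine le_of_sq_le_sq ?_ (by positivity)
    rw [cpx_norm_sq]
    have : ((cx * cx + cy * cy : ℤ) : ℝ) ≤ ((((K.R * 2 ^ 40) ^ 2 : ℕ) : ℤ) : ℝ) := by exact_mod_cast hR'
    push_cast at this
    simp only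
    linarith
  have ecs : cpx (cx * 2 ^ (K.S - 40), cy * 2 ^ (K.S - 40)) = cpx (cx, cy) * 2 ^ (K.S - 40) := by
    unfold cpx
    push_cast
    ring
  have hc : ‖cpx (cx * 2 ^ (K.S - 40), cy * 2 ^ (K.S - 40))‖ ≤ K.R * 2 ^ K.S := by
    rw [ecs, norm_mul, norm_pow]
    have e2 : ‖(2 : ℂ)‖ = 2 := by norm_num
    rw [e2]
    calc ‖cpx (cx, cy)‖ * 2 ^ (K.S - 40) ≤ K.R * 2 ^ 40 * 2 ^ (K.S - 40) :=
          mul_le_mul_of_nonneg_right hcn (by positivity)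
      _ = K.R * 2 ^ K.S := by rw [hs', hs, pow_add]; ring
  have hc0 : cpx (cx * 2 ^ (K.S - 40), cy * 2 ^ (K.S - 40)) ≠ 0 := by
    rw [ecs]
    refine mul_ne_zero ?_ (pow_ne_zero _ two_ne_zero)
    intro h0
    have h12 := cpx_norm_sq (cx, cy)
    rw [h0, norm_zero] at h12
    have h13 : (0 : ℤ) = cx ^ 2 + cy ^ 2 := by
      have : (0 : ℝ) = (cx : ℝ) ^ 2 + (cy : ℝ) ^ 2 := by simpa using h12
      exact_mod_cast this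
    nlinarith
  have hq : ‖cpx (Qsp K.S a)‖ ≤ 2 ^ K.S + 2 := by
    have h12 := Qsp_err K.S a hC.S160 ha
    have e2 : (((2 : ℤ) ^ K.S : ℤ) : ℂ) = 2 ^ K.S := by push_cast; rfl
    have e3 : (((2 : ℤ) ^ K.S : ℤ) : ℝ) = 2 ^ K.S := by push_cast; rfl
    rw [e2, e3] at h12
    have h13 : ‖qa ((a : ℝ) / 2 ^ 40)‖ = 1 := norm_qa _
    have h14 : ‖cpx (Qsp K.S a) / 2 ^ K.S‖ ≤ 1 + 2 / 2 ^ K.S := by
      calc ‖cpx (Qsp K.S a) / 2 ^ K.S‖ = ‖qa ((a : ℝ) / 2 ^ 40) + (cpx (Qsp K.S a) / 2 ^ K.S - qa ((a : ℝ) / 2 ^ 40))‖ := by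
            congr 1; ring
        _ ≤ _ := norm_add_le _ _
        _ ≤ _ := by rw [h13]; linarith
    rw [norm_div, norm_pow] at h14
    have e4 : ‖(2 : ℂ)‖ = 2 := by norm_num
    rw [e4, div_le_iff₀ (by positivity)] at h14
    calc ‖cpx (Qsp K.S a)‖ ≤ (1 + 2 / 2 ^ K.S) * 2 ^ K.S := h14
      _ = 2 ^ K.S + 2 := by field_simp
  have hM := okM_of hC hq hc
  have hqr := qN_res K hC.y24 a ha
  have hsm : ∀ x : ℤ, x * x ≤ ((K.R * 2 ^ 40) ^ 2 : ℕ) → (-x).toNat * 2 ^ (K.S - 40) ≤ (2 ^ K.y) ^ 2 + 1 := by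
    intro x hx
    have h12 : ((-x).toNat : ℤ) ≤ (K.R * 2 ^ 40 : ℕ) := by
      by_contra hcon
      push Not at hcon
      have h13 : ((K.R * 2 ^ 40 : ℕ) : ℤ) < -x := by
        rcases le_total 0 (-x) with h | h
        · rwa [Int.toNat_of_nonneg h] at hcon
        · rw [Int.toNat_of_nonpos h] at hcon
          exfalso
          have : (0 : ℤ) ≤ ((K.R * 2 ^ 40 : ℕ) : ℤ) := Nat.cast_nonneg _
          simp only [Nat.cast_zero] at hcon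
          linarith
      have h14 : (0 : ℤ) ≤ ((K.R * 2 ^ 40 : ℕ) : ℤ) := Nat.cast_nonneg _
      have h15 : (((K.R * 2 ^ 40) ^ 2 : ℕ) : ℤ) = ((K.R * 2 ^ 40 : ℕ) : ℤ) * ((K.R * 2 ^ 40 : ℕ) : ℤ) := by
        push_cast; ring
      rw [h15] at hx
      nlinarith
    have h13 : (-x).toNat ≤ K.R * 2 ^ 40 := by exact_mod_cast h12
    have h16 : (-x).toNat * 2 ^ (K.S - 40) ≤ K.R * 2 ^ K.S := by
      calc (-x).toNat * 2 ^ (K.S - 40) ≤ K.R * 2 ^ 40 * 2 ^ (K.S - 40) := Nat.mul_le_mul_right _ h13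
        _ = K.R * 2 ^ K.S := by rw [hs', hs, pow_add]; ring
    have h17 : K.R * 2 ^ K.S ≤ (K.R + 1) * 2 ^ K.S * (2 ^ K.S + 2) := by
      have h18 : K.R * 2 ^ K.S ≤ (K.R + 1) * 2 ^ K.S := Nat.mul_le_mul_right _ (by omega)
      have h19 : (K.R + 1) * 2 ^ K.S ≤ (K.R + 1) * 2 ^ K.S * (2 ^ K.S + 2) := Nat.le_mul_of_pos_right _ (by positivity)
      exact h18.trans h19
    have h20 : 2 ^ (K.y - 2) ≤ (2 ^ K.y) ^ 2 := by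
      rw [← pow_mul]
      exact Nat.pow_le_pow_right (by norm_num) (by omega)
    have h21 := hC.bW
    omega
  have hcr : Res K.y (pk K.MM K.Y (2 ^ (K.S - 40)) cx cy) (cx * 2 ^ (K.S - 40), cy * 2 ^ (K.S - 40)) := by
    have h12 := pk_res (y := K.y) (sh := 2 ^ (K.S - 40)) (cx := cx) (cy := cy)
      (hsm cx (by nlinarith [mul_self_nonneg cy])) (hsm cy (by nlinarith [mul_self_nonneg cx]))
    rw [K.MM_eq]
    push_cast at h12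
    exact h12
  exact ⟨spec_of_fin hC (fin_of_check hC hM hqr hcr h11) hc hc0 hd1 hd2 he1 he2 he3 hn2 hn0, ha⟩

end SokalFU
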