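import Pool.Agent.Lib_MP_af4de1_fu.TubE
import Pool.Agent.Lib_MP_af4de1_fu.EvI

/-!
# The complete class check
-/

set_option autoImplicit false

namespace SokalFU

/-- all computable conditions on a class -/
def goodK (K : ClsI) : Bool := okE K && clsCheck K

theorem goodK_spec : ∀ K : ClsI, goodK K = true → okE K = true ∧ ClsOK K.toCls := by
  intro K h
  unfold goodK at h
  rw [Bool.and_eq_true] at h
  exact ⟨h.1, clsOK_of_check h.2⟩

end SokalFU
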