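import Pool.Agent.Lib_MP_af4de1_fu.Cont3

/-!
# Homotopy in `α`

(H1) zeros cannot enter a moving region through a zero free boundary;
(H2) a moving disc with zero free boundary and exactly one zero.
-/

set_option autoImplicit false

namespace SokalFU

open Filter Topology Set SokalF

/-- `F'(z) = F(qz)` -/
theorem deriv_Fqa (α : ℝ) (z : ℂ) : deriv (F (qa α)) z = F (qa α) (qa α * z) :=
  (hasDerivAt_F (norm_qa α).le z).deriv

/-- **(H1)** -/
theorem no_zero_of_homotopy {I : Set ℝ} (hI : IsPreconnected I) {U C : Set (ℝ × ℂ)} (hU : IsOpen U)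
    (hC : IsClosed C) (hUC : U ⊆ C)
    (hbd : ∀ α ∈ I, ∃ B : ℝ, ∀ᶠ a in 𝓝 α, ∀ z : ℂ, (a, z) ∈ C → ‖z‖ ≤ B)
    (hb : ∀ α ∈ I, ∀ z : ℂ, (α, z) ∈ C → (α, z) ∉ U → F (qa α) z ≠ 0)
    {α₂ : ℝ} (h2 : α₂ ∈ I) (hz : ∀ z : ℂ, (α₂, z) ∈ C → F (qa α₂) z ≠ 0) :
    ∀ α ∈ I, ∀ z : ℂ, (α, z) ∈ C → F (qa α) z ≠ 0 := by
  have : PreconnectedSpace I := Subtype.preconnectedSpace hI
  set T : Set I := {x | ∀ z : ℂ, ((x : ℝ), z) ∈ C → F (qa x) z ≠ 0} with hT
  have hop : IsOpen T := by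
    rw [← isClosed_compl_iff]
    refine IsSeqClosed.isClosed ?_
    intro xn x hxn hx
    have hex : ∀ n, ∃ z : ℂ, ((xn n : ℝ), z) ∈ C ∧ F (qa (xn n)) z = 0 := fun n => by
      have h1 := hxn n
      by_contra hcon
      push Not at hcon
      exact h1 hcon
    choose w hwC hw0 using hex
    have hlim : Tendsto (fun n => (xn n : ℝ)) atTop (𝓝 (x : ℝ)) := (continuous_subtype_val.tendsto x).comp hx
    obtain ⟨B, hB⟩ := hbd x x.2
    obtain ⟨N, hN⟩ := eventually_atTop.1 (hlim.eventually hB)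
    obtain ⟨g, -, ms, hms, hg⟩ := (isCompact_closedBall (0 : ℂ) B).tendsto_subseq
      (x := fun n => w (n + N)) (fun n => by
        rw [mem_closedBall_zero_iff]
        exact hN (n + N) (Nat.le_add_left _ _) _ (hwC _))
    have hshift : Tendsto (fun n => ms n + N) atTop atTop := by
      refine tendsto_atTop_mono (fun n => ?_) tendsto_id
      exact (hms.id_le n).trans (Nat.le_add_right _ _)
    have hlim' : Tendsto (fun n => (xn (ms n + N) : ℝ)) atTop (𝓝 (x : ℝ)) := hlim.comp hshift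
    have hgC : ((x : ℝ), g) ∈ C := by
      refine hC.mem_of_tendsto (hlim'.prodMk_nhds hg) (.of_forall fun n => ?_)
      exact hwC (ms n + N)
    have hg0 : F (qa x) g = 0 := tendsto_zero hlim' hg (fun n => hw0 _)
    intro hxT
    exact hxT g hgC hg0
  have hcl : IsClosed T := by
    refine IsSeqClosed.isClosed ?_
    intro xn x hxn hx z hzC hz0
    have hlim : Tendsto (fun n => (xn n : ℝ)) atTop (𝓝 (x : ℝ)) := (continuous_subtype_val.tendsto x).comp hx
    have hzU : ((x : ℝ), z) ∈ U := by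
      by_contra hcon
      exact hb x x.2 z hzC hcon hz0
    have hex : ∀ m : ℕ, ∃ n, m ≤ n ∧ ∃ u : ℂ, dist u z < 1 / ((m : ℝ) + 1) ∧ F (qa (xn n)) u = 0 := fun m =>
      exists_near hlim hz0 m (by positivity)
    choose ν hν u hu hu0 using hex
    have hνlim : Tendsto ν atTop atTop := tendsto_atTop_mono hν tendsto_id
    have hulim : Tendsto u atTop (𝓝 z) := by
      rw [tendsto_iff_dist_tendsto_zero]
      exact squeeze_zero (fun _ => dist_nonneg) (fun m => (hu m).le) tendsto_one_div_add_atTop_nhds_zero_nat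
    have h1 : Tendsto (fun m => ((xn (ν m) : ℝ), u m)) atTop (𝓝 ((x : ℝ), z)) :=
      (hlim.comp hνlim).prodMk_nhds hulim
    obtain ⟨m, hm⟩ := (h1.eventually (hU.mem_nhds hzU)).exists
    exact hxn (ν m) (u m) (hUC hm) (hu0 m)
  have h0 : (⟨α₂, h2⟩ : I) ∈ T := hz
  have huniv : T = univ := IsClopen.eq_univ ⟨hcl, hop⟩ ⟨_, h0⟩
  intro α hα
  have : (⟨α, hα⟩ : I) ∈ T := by
    rw [huniv]
    exact mem_univ _
  exact this

/-! ### Zeros near a simple zero -/

theorem continuous_dFqa : Continuous (fun p : ℝ × ℂ => deriv (F (qa p.1)) p.2) := by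
  have h : (fun p : ℝ × ℂ => deriv (F (qa p.1)) p.2) = (fun p : ℝ × ℂ => F (qa p.1) p.2) ∘
      fun p : ℝ × ℂ => (p.1, qa p.1 * p.2) := by
    funext p
    exact deriv_Fqa _ _
  rw [h]
  refine continuous_Fqa.comp ?_
  exact continuous_fst.prodMk ((continuous_qa.comp continuous_fst).mul continuous_snd)

/-- two zeros converging to a simple zero are equal -/
theorem eventually_eq_of_simple {αn : ℕ → ℝ} {α : ℝ} (hα : Tendsto αn atTop (𝓝 α)) {z : ℂ}
    (hz : deriv (F (qa α)) z ≠ 0) {u v : ℕ → ℂ} (hu : Tendsto u atTop (𝓝 z)) (hv : Tendsto v atTop (𝓝 z))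
    (hu0 : ∀ n, F (qa (αn n)) (u n) = 0) (hv0 : ∀ n, F (qa (αn n)) (v n) = 0) : ∀ᶠ n in atTop, u n = v n := by
  set d : ℂ := deriv (F (qa α)) z with hd
  have hdn : 0 < ‖d‖ := norm_pos_iff.2 hz
  have hc := (continuous_dFqa.tendsto (α, z)).eventually (Metric.ball_mem_nhds d (half_pos hdn))
  rw [nhds_prod_eq] at hc
  obtain ⟨pa, hpa, pb, hpb, hp⟩ := eventually_prod_iff.1 hc
  obtain ⟨ε, hε, hball⟩ := Metric.eventually_nhds_iff_ball.1 hpb
  filter_upwards [hα.eventually hpa, hu (Metric.ball_mem_nhds z hε), hv (Metric.ball_mem_nhds z hε)] with n h1 h2 h3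
  have h4 : ∀ x ∈ Metric.ball z ε, HasDerivWithinAt (fun w => F (qa (αn n)) w - d * w)
      (deriv (F (qa (αn n))) x - d) (Metric.ball z ε) x := fun x _ => by
    have e1 : HasDerivAt (F (qa (αn n))) (deriv (F (qa (αn n))) x) x := by
      rw [deriv_Fqa]
      exact hasDerivAt_F (norm_qa _).le x
    have e2 : HasDerivAt (fun w : ℂ => d * w) d x := by
      simpa using (hasDerivAt_id x).const_mul d
    exact (e1.sub e2).hasDerivWithinAt
  have h5 : ∀ x ∈ Metric.ball z ε, ‖deriv (F (qa (αn n))) x - d‖ ≤ ‖d‖ / 2 := fun x hx => by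
    have := hp h1 (hball x hx)
    rw [dist_eq_norm] at this
    exact this.le
  have h6 := (convex_ball z ε).norm_image_sub_le_of_norm_hasDerivWithin_le h4 h5 h3 h2
  rw [hu0 n, hv0 n] at h6
  have e : (0 : ℂ) - d * u n - (0 - d * v n) = -(d * (u n - v n)) := by ring
  rw [e, norm_neg, norm_mul] at h6
  by_contra hne
  have h7 : 0 < ‖u n - v n‖ := norm_pos_iff.2 (sub_ne_zero.2 hne)
  nlinarith [mul_pos hdn h7]

/-- exactly one zero in `|z| < r` -/
def One (α r : ℝ) : Prop := ∃ z : ℂ, ‖z‖ < r ∧ F (qa α) z = 0 ∧ ∀ w : ℂ, ‖w‖ < r → F (qa α) w = 0 → w = z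

theorem ne_zero_of_zero {α : ℝ} {z : ℂ} (hz : F (qa α) z = 0) : z ≠ 0 := fun h => by
  rw [h, F_zero] at hz
  exact one_ne_zero hz

/-- a unique zero is simple -/
theorem One.dist {α r : ℝ} (h : One α r) (hq : qa α ≠ 1) {r' : ℝ} (hr' : r' < r) : Dist α r' := by
  obtain ⟨z, hzr, hz0, huniq⟩ := h
  intro u hu hu0
  have huz := huniq u (by rw [hu]; exact hr') hu0
  refine ⟨?_, fun w hw hw0 => ?_⟩
  · rw [deriv_Fqa]
    intro h0
    have h1 := huniq (qa α * u) (by rw [norm_mul, norm_qa, one_mul, hu]; exact hr') h0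
    rw [← huz] at h1
    have h2 : (qa α - 1) * u = 0 := by rw [sub_mul, h1, one_mul, sub_self]
    rcases mul_eq_zero.1 h2 with h3 | h3
    · exact hq (sub_eq_zero.1 h3)
    · exact ne_zero_of_zero hu0 h3
  · rw [huniq w (by rw [hw]; exact hr') hw0, huz]

/-- **(H2)** -/
theorem one_of_homotopy {I : Set ℝ} (hI : IsPreconnected I) (hq : ∀ α ∈ I, qa α ≠ 1) {r : ℝ → ℝ}
    (hr : ContinuousOn r I) (hb : ∀ α ∈ I, ∀ z : ℂ, ‖z‖ = r α → F (qa α) z ≠ 0)
    {α₂ : ℝ} (h2 : α₂ ∈ I) (h1 : One α₂ (r α₂)) : ∀ α ∈ I, One α (r α) := by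
  have : PreconnectedSpace I := Subtype.preconnectedSpace hI
  set T : Set I := {x | One x (r x)} with hT
  -- limits of zeros in the discs are zeros in the disc
  have hcomp : ∀ (xn : ℕ → I) (x : I), Tendsto xn atTop (𝓝 x) → ∀ w : ℕ → ℂ,
      (∀ n, ‖w n‖ < r (xn n)) → (∀ n, F (qa (xn n)) (w n) = 0) →
      ∃ g : ℂ, ‖g‖ < r x ∧ F (qa x) g = 0 ∧ ∃ φ : ℕ → ℕ, StrictMono φ ∧ Tendsto (w ∘ φ) atTop (𝓝 g) := by
    intro xn x hx w hw hw0
    have hlim : Tendsto (fun n => (xn n : ℝ)) atTop (𝓝 (x : ℝ)) := (continuous_subtype_val.tendsto x).comp hx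
    have hrlim : Tendsto (fun n => r (xn n)) atTop (𝓝 (r x)) :=
      (hr x x.2).tendsto.comp (tendsto_nhdsWithin_iff.2 ⟨hlim, .of_forall fun n => (xn n).2⟩)
    obtain ⟨C, hC⟩ := (Metric.isBounded_range_of_tendsto _ hrlim).exists_norm_le
    obtain ⟨g, -, ms, hms, hg⟩ := (isCompact_closedBall (0 : ℂ) C).tendsto_subseq
      (x := w) (fun n => by
        rw [mem_closedBall_zero_iff]
        exact (hw n).le.trans ((le_abs_self _).trans (hC _ ⟨n, rfl⟩)))
    have hlim' : Tendsto (fun n => (xn (ms n) : ℝ)) atTop (𝓝 (x : ℝ)) := hlim.comp hms.tendsto_atTop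
    have hg0 : F (qa x) g = 0 := tendsto_zero hlim' hg (fun n => hw0 _)
    have hgle : ‖g‖ ≤ r x :=
      le_of_tendsto_of_tendsto hg.norm (hrlim.comp hms.tendsto_atTop) (.of_forall fun n => (hw _).le)
    refine ⟨g, lt_of_le_of_ne hgle fun h => hb x x.2 g h hg0, hg0, ms, hms, hg⟩
  have hnear : ∀ (xn : ℕ → I) (x : I), Tendsto xn atTop (𝓝 x) → ∀ z : ℂ, ‖z‖ < r x → F (qa x) z = 0 →
      ∀ ε : ℝ, 0 < ε → ∀ N : ℕ, ∃ n, N ≤ n ∧ ∃ u : ℂ, dist u z < ε ∧ ‖u‖ < r (xn n) ∧ F (qa (xn n)) u = 0 := by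
    intro xn x hx z hz hz0 ε hε N
    have hlim : Tendsto (fun n => (xn n : ℝ)) atTop (𝓝 (x : ℝ)) := (continuous_subtype_val.tendsto x).comp hx
    have hrlim : Tendsto (fun n => r (xn n)) atTop (𝓝 (r x)) :=
      (hr x x.2).tendsto.comp (tendsto_nhdsWithin_iff.2 ⟨hlim, .of_forall fun n => (xn n).2⟩)
    obtain ⟨m, hm⟩ := exists_between hz
    obtain ⟨M, hM⟩ := eventually_atTop.1 (hrlim.eventually (lt_mem_nhds hm.2))
    obtain ⟨n, hn, u, hu, hu0⟩ := exists_near hlim hz0 (max N M) (ε := min ε (m - ‖z‖))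
      (lt_min hε (sub_pos.2 hm.1))
    refine ⟨n, (le_max_left _ _).trans hn, u, hu.trans_le (min_le_left _ _), ?_, hu0⟩
    have h3 : ‖u‖ ≤ ‖z‖ + dist u z := by
      rw [dist_eq_norm]
      have := norm_add_le z (u - z)
      rwa [add_sub_cancel] at this
    have h4 := hu.trans_le (min_le_right _ _)
    have h5 := hM n ((le_max_right _ _).trans hn)
    linarith
  have hop : IsOpen T := by
    rw [← isClosed_compl_iff]
    refine IsSeqClosed.isClosed ?_
    intro xn x hxn hx hxT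
    have hlim : Tendsto (fun n => (xn n : ℝ)) atTop (𝓝 (x : ℝ)) := (continuous_subtype_val.tendsto x).comp hx
    obtain ⟨z, hzr, hz0, huniq⟩ := id hxT
    -- zeros near `z`
    have hex : ∀ m : ℕ, ∃ n, m ≤ n ∧ ∃ u : ℂ, dist u z < 1 / ((m : ℝ) + 1) ∧ ‖u‖ < r (xn n) ∧
        F (qa (xn n)) u = 0 := fun m => hnear xn x hx z hzr hz0 _ (by positivity) m
    choose ν hν u hu hur hu0 using hex
    have hνlim : Tendsto ν atTop atTop := tendsto_atTop_mono hν tendsto_id
    have hulim : Tendsto u atTop (𝓝 z) := by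
      rw [tendsto_iff_dist_tendsto_zero]
      exact squeeze_zero (fun _ => dist_nonneg) (fun m => (hu m).le) tendsto_one_div_add_atTop_nhds_zero_nat
    -- other zeros
    have hex2 : ∀ m, ∃ v : ℂ, ‖v‖ < r (xn (ν m)) ∧ F (qa (xn (ν m))) v = 0 ∧ v ≠ u m := by
      intro m
      by_contra hcon
      push Not at hcon
      exact hxn (ν m) ⟨u m, hur m, hu0 m, fun w hw hw0 => hcon w hw hw0⟩
    choose v hvr hv0 hvne using hex2
    obtain ⟨g, hgr, hg0, φ, hφ, hg⟩ := hcomp (fun m => xn (ν m)) x (hx.comp hνlim) v hvr hv0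
    have hgz := huniq g hgr hg0
    rw [hgz] at hg
    have hsimple : deriv (F (qa x)) z ≠ 0 := by
      obtain ⟨m, hm⟩ := exists_between hzr
      have := hxT.dist (hq x x.2) hzr z rfl hz0
      exact this.1
    have hev := eventually_eq_of_simple (αn := fun n => (xn (ν (φ n)) : ℝ))
      (hlim.comp (hνlim.comp hφ.tendsto_atTop)) hsimple (u := u ∘ φ) (v := v ∘ φ) (hulim.comp hφ.tendsto_atTop) hg
      (fun n => hu0 _) (fun n => hv0 _)
    obtain ⟨n, hn⟩ := hev.exists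
    exact hvne (φ n) hn.symm
  have hcl : IsClosed T := by
    refine IsSeqClosed.isClosed ?_
    intro xn x hxn hx
    choose w hwr hw0 hwu using hxn
    obtain ⟨g, hgr, hg0, -⟩ := hcomp xn x hx w hwr hw0
    refine ⟨g, hgr, hg0, fun g' hg'r hg'0 => ?_⟩
    by_contra hne
    -- zeros near `g` and `g'` for the same index
    have hlim : Tendsto (fun n => (xn n : ℝ)) atTop (𝓝 (x : ℝ)) := (continuous_subtype_val.tendsto x).comp hx
    set ε : ℝ := dist g' g / 2 with hε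
    have hε0 : 0 < ε := half_pos (dist_pos.2 hne)
    have hex : ∀ m : ℕ, ∃ n, m ≤ n ∧ ∃ u : ℂ, dist u g < ε ∧ ‖u‖ < r (xn n) ∧
        F (qa (xn n)) u = 0 := fun m => hnear xn x hx g hgr hg0 _ hε0 m
    choose ν hν u hu hur hu0 using hex
    have hνlim : Tendsto ν atTop atTop := tendsto_atTop_mono hν tendsto_id
    obtain ⟨m, -, v, hv, hvr, hv0⟩ := hnear (fun m => xn (ν m)) x (hx.comp hνlim) g' hg'r hg'0 ε hε0 0
    have e1 := hwu (ν m) (u m) (hur m) (hu0 m)
    have e2 := hwu (ν m) v hvr hv0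
    rw [← e1] at e2
    have h3 : dist g' g ≤ dist v g' + dist (u m) g := by
      have := dist_triangle g' v g
      rw [dist_comm g' v] at this
      rwa [e2] at this ⊢
    linarith [hu m]
  have h0 : (⟨α₂, h2⟩ : I) ∈ T := h1
  have huniv : T = univ := IsClopen.eq_univ ⟨hcl, hop⟩ ⟨_, h0⟩
  intro α hα
  have : (⟨α, hα⟩ : I) ∈ T := by
    rw [huniv]
    exact mem_univ _
  exact this

end SokalFU
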