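import Pool.Agent.Lib_MP_af4de1_fu.Tub
import Pool.Agent.Lib_MP_af4de1_v.Rep

/-!
# F2, part I (`1 ≤ δ r ≤ 9/2`, `δ ≤ 9/80`): definitions

Board note 2392 (helper35).  `k(g) = exp((i/δ)(g²/2 - ρ e^g) - ψ g/δ)`, `ρ = δ r`.
`SL`: contour from `-i∞` (`Re < 0`) to `+∞ - i`; `SR`: contour from `+∞ - i` to `+i∞` (`Re > 0`); weight `g^j`.
`F(z; e^(iδ)) = c e^(-iψ²/2δ) (SL 0 + SR 0)` for `iδz e^(-iδ/2) = ρ e^(-iψ)` (file `MRep`).
At a saddle point `g`, `h = g + iψ = ρ e^g`:  `k(g + v) = k(g) exp(EE δ h v)`, `|exp(EE δ h v)| = exp(-ff h v/δ)`.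
-/

set_option autoImplicit false

namespace SokalFU

open Complex MeasureTheory Set

/-- the integrand -/
noncomputable def kk (ρ δ ψ : ℝ) (g : ℂ) : ℂ :=
  cexp (I / δ * (g ^ 2 / 2 - ρ * cexp g) - ψ * g / δ)

/-- the integrand with the weight `g^j` -/
noncomputable def kj (ρ δ ψ : ℝ) (j : ℕ) (g : ℂ) : ℂ := g ^ j * kk ρ δ ψ g

/-- `∫ f(z) dz` over the ray `p + s d`, `s > 0` -/
noncomputable def ray (f : ℂ → ℂ) (p d : ℂ) : ℂ := (∫ s in Ioi (0 : ℝ), f (p + s * d)) * d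

/-- right contour -/
noncomputable def SR (ρ δ ψ : ℝ) (j : ℕ) : ℂ :=
  ray (kj ρ δ ψ j) (1 - I) I - ray (kj ρ δ ψ j) (1 - I) 1

/-- left contour -/
noncomputable def SL (ρ δ ψ : ℝ) (j : ℕ) : ℂ :=
  ray (kj ρ δ ψ j) (1 - I) 1 - ray (kj ρ δ ψ j) (1 - I) (-(1 + I))

/-- the exponent at a saddle point -/
noncomputable def EE (δ : ℝ) (h v : ℂ) : ℂ := I / δ * (v ^ 2 / 2 - h * (cexp v - 1 - v))

/-- the height at a saddle point -/
noncomputable def ff (h v : ℂ) : ℝ := (v ^ 2 / 2 - h * (cexp v - 1 - v)).im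

/-- `∫ w(v) exp(EE δ h v) dv`: from `+∞` along the horizontal ray to `p`, then along `p + s d` to infinity -/
noncomputable def JJ (δ : ℝ) (h p d : ℂ) (w : ℂ → ℂ) : ℂ :=
  ray (fun v => w v * cexp (EE δ h v)) p d - ray (fun v => w v * cexp (EE δ h v)) p 1

theorem norm_kk {ρ δ ψ : ℝ} (g : ℂ) : ‖kk ρ δ ψ g‖ =
    Real.exp (-(g.re * (g.im + ψ) - ρ * Real.exp g.re * Real.sin g.im) / δ) := by
  unfold kk
  rw [Complex.norm_exp]
  congr 1
  rcases eq_or_ne δ 0 with rfl | hδ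
  · simp
  have h1 : (I / δ * (g ^ 2 / 2 - ρ * cexp g) - ψ * g / δ) =
      ((1 / δ : ℝ) : ℂ) * (I * (g ^ 2 / 2 - ρ * cexp g) - ψ * g) := by
    push_cast; ring
  rw [h1, re_ofReal_mul]
  have h2 : (cexp g).re = Real.exp g.re * Real.cos g.im := exp_re g
  have h3 : (cexp g).im = Real.exp g.re * Real.sin g.im := exp_im g
  have h4 : (I * (g ^ 2 / 2 - ρ * cexp g) - ψ * g).re =
      -(g.re * (g.im + ψ) - ρ * Real.exp g.re * Real.sin g.im) := by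
    have h5 : (g ^ 2 / 2).im = g.re * g.im := by
      have : g ^ 2 / 2 = ((1 / 2 : ℝ) : ℂ) * (g * g) := by push_cast; ring
      rw [this, im_ofReal_mul, mul_im]; ring
    rw [sub_re, re_ofReal_mul, I_mul_re, sub_im, h5, im_ofReal_mul, h3]
    ring
  rw [h4]; ring

theorem differentiable_kj (ρ δ ψ : ℝ) (j : ℕ) : Differentiable ℂ (kj ρ δ ψ j) := by
  unfold kj kk
  fun_prop

theorem continuous_kj (ρ δ ψ : ℝ) (j : ℕ) : Continuous (kj ρ δ ψ j) :=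
  (differentiable_kj ρ δ ψ j).continuous

theorem exists_prim (ρ δ ψ : ℝ) (j : ℕ) : ∃ P : ℂ → ℂ, ∀ z, HasDerivAt P (kj ρ δ ψ j z) z := by
  obtain ⟨P, hP⟩ := (differentiable_kj ρ δ ψ j).isExactOn_univ
  exact ⟨P, fun z => hP z (mem_univ z)⟩

theorem norm_EE {δ : ℝ} (h v : ℂ) : ‖cexp (EE δ h v)‖ = Real.exp (-(ff h v) / δ) := by
  unfold EE ff
  rw [Complex.norm_exp]
  congr 1
  have h1 : I / δ * (v ^ 2 / 2 - h * (cexp v - 1 - v)) =
      ((1 / δ : ℝ) : ℂ) * (I * (v ^ 2 / 2 - h * (cexp v - 1 - v))) := by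
    push_cast; ring
  rw [h1, re_ofReal_mul, I_mul_re]
  ring

/-- the local form of the integrand at a saddle point -/
theorem kk_saddle {ρ δ ψ : ℝ} {g h : ℂ} (h1 : h = g + ψ * I) (h2 : ρ * cexp g = h) (v : ℂ) :
    kk ρ δ ψ (g + v) = kk ρ δ ψ g * cexp (EE δ h v) := by
  unfold kk EE
  rw [← Complex.exp_add]
  congr 1
  rw [Complex.exp_add]
  have h3 : ρ * (cexp g * cexp v) = h * cexp v := by rw [← h2]; ring
  rw [h3, h2]
  have h4 : (ψ : ℂ) = -I * (h - g) := by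
    rw [h1]; ring_nf; rw [I_sq]; ring
  rw [h4]
  ring

end SokalFU
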