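import Pool.Agent.Lib_MP_af4de1_fu.Ray
import Pool.Agent.Lib_MP_af4de1_fu.M0

/-!
# The kernel of F2 in the plane `g = h - i ψ`, and bounds in the three ends

`kk δ ρ ψ g = exp((i(g²/2 - ρ e^g) - ψ g)/δ)`, `|kk| = exp(-hf/δ)`, `hf = a(σ+ψ) - ρ e^a sin σ`, `g = a + iσ`.
Ends: V (`a → ∞`, `-π < σ < 0`), T (`σ → ∞`, `a > 0`), B (`a < 0`, `σ + ψ < 0`).
-/

namespace SokalFW

open Complex MeasureTheory Filter Topology Set

/-- The height. -/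
noncomputable def hf (ρ ψ : ℝ) (g : ℂ) : ℝ :=
  g.re * (g.im + ψ) - ρ * Real.exp g.re * Real.sin g.im

theorem norm_kk (δ ρ ψ : ℝ) (g : ℂ) : ‖SokalFU.kk ρ δ ψ g‖ = Real.exp (-(hf ρ ψ g) / δ) := by
  rw [SokalFU.norm_kk]
  rfl

theorem kk_diff (δ ρ ψ : ℝ) : Differentiable ℂ (SokalFU.kk ρ δ ψ) := by
  unfold SokalFU.kk
  fun_prop

theorem kk_deriv {δ : ℝ} (ρ ψ : ℝ) (g : ℂ) : HasDerivAt (SokalFU.kk ρ δ ψ)
    ((g + ψ * I - ρ * cexp g) * (I / δ) * SokalFU.kk ρ δ ψ g) g := by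
  have h1 : HasDerivAt (fun g : ℂ => I / δ * (g ^ 2 / 2 - ρ * cexp g) - ψ * g / δ)
      (I / δ * (g - ρ * cexp g) - ψ / δ) g := by
    have h2 : HasDerivAt (fun g : ℂ => g ^ 2 / 2) g g := by
      have h3 := (hasDerivAt_pow 2 g).div_const 2
      refine h3.congr_deriv ?_
      simp only [Nat.cast_ofNat, Nat.add_one_sub_one, pow_one]
      ring
    have h4 := ((h2.sub ((Complex.hasDerivAt_exp g).const_mul (ρ : ℂ))).const_mul (I / δ : ℂ)).sub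
      (((hasDerivAt_id g).const_mul (ψ : ℂ)).div_const (δ : ℂ))
    refine h4.congr_deriv ?_
    rw [mul_one]
  refine h1.cexp.congr_deriv ?_
  have h6 : (g + ψ * I - ρ * cexp g) * (I / δ) = I / δ * (g - ρ * cexp g) - ψ / δ := by
    have hI : I * I = -1 := I_mul_I
    linear_combination (ψ / δ : ℂ) * hI
  rw [h6]
  unfold SokalFU.kk
  ring

/-- End V. -/
theorem expV {δ ρ Ψ N σ1 σ2 : ℝ} (hδ : 0 < δ) (hρ : 0 < ρ) (h1 : -Real.pi < σ1)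
    (h2 : σ2 < 0) :
    ∃ C : ℝ, ∀ ψ a σ : ℝ, |ψ| ≤ Ψ → 0 ≤ a → σ1 ≤ σ → σ ≤ σ2 →
      (|a| + |σ|) + N * max a 0 - (a * (σ + ψ) - ρ * Real.exp a * Real.sin σ) / δ ≤ C - a := by
  set s0 := min (Real.sin (-σ1)) (Real.sin (-σ2)) with hs0
  by_cases h12 : σ1 ≤ σ2
  swap
  · exact ⟨0, fun ψ a σ _ _ h3 h4 => absurd (h3.trans h4) h12⟩
  have hs1 : 0 < Real.sin (-σ1) := Real.sin_pos_of_pos_of_lt_pi (by linarith) (by linarith)
  have hs2 : 0 < Real.sin (-σ2) := Real.sin_pos_of_pos_of_lt_pi (by linarith) (by linarith)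
  have hs : 0 < s0 := lt_min hs1 hs2
  set κ := ρ * s0 / δ with hκ
  have hκ0 : 0 < κ := by positivity
  set M := 2 + N + (Real.pi + Ψ) / δ with hM
  refine ⟨Real.pi + M ^ 2 / (2 * κ), fun ψ a σ hψ ha h3 h4 => ?_⟩
  have hΨ : 0 ≤ Ψ := (abs_nonneg ψ).trans hψ
  have hsin : s0 ≤ Real.sin (-σ) := by
    have hc := strictConcaveOn_sin_Icc.concaveOn
    have := hc.min_le_of_mem_Icc (x := -σ2) (y := -σ1) (z := -σ) ⟨by linarith, by linarith⟩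
      ⟨by linarith, by linarith⟩ ⟨by linarith, by linarith⟩
    rw [min_comm] at this
    exact this
  rw [Real.sin_neg] at hsin
  have he : a ^ 2 / 2 ≤ Real.exp a := by
    have := Real.quadratic_le_exp_of_nonneg ha
    nlinarith
  have hσ : |σ| ≤ Real.pi := abs_le.2 ⟨by linarith, by linarith [Real.pi_pos]⟩
  have h5 : -(a * (σ + ψ)) ≤ a * (Real.pi + Ψ) := by
    have := abs_le.1 hψ
    nlinarith [abs_le.1 hσ]
  have h6 : κ * (a ^ 2 / 2) ≤ -(ρ * Real.exp a * Real.sin σ) / δ := by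
    rw [hκ, div_mul_eq_mul_div, div_le_div_iff_of_pos_right hδ]
    have h7 : s0 * (a ^ 2 / 2) ≤ -Real.sin σ * Real.exp a :=
      mul_le_mul hsin he (by positivity) (by linarith)
    nlinarith
  rw [abs_of_nonneg ha, max_eq_left ha, sub_div]
  have h8 : -(a * (σ + ψ)) / δ ≤ a * (Real.pi + Ψ) / δ := div_le_div_of_nonneg_right h5 hδ.le
  have h9 : M * a - κ * (a ^ 2 / 2) ≤ M ^ 2 / (2 * κ) := by
    rw [le_div_iff₀ (by positivity)]
    nlinarith [sq_nonneg (κ * a - M)]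
  have h10 : M * a = 2 * a + N * a + a * (Real.pi + Ψ) / δ := by rw [hM]; ring
  have h11 : a * (σ + ψ) / δ = -(-(a * (σ + ψ)) / δ) := by ring
  have h12' : ρ * Real.exp a * Real.sin σ / δ = -(-(ρ * Real.exp a * Real.sin σ) / δ) := by ring
  rw [h11, h12']
  linarith

/-- End T. -/
theorem expT {δ ρ Ψ N a1 a2 : ℝ} (hδ : 0 < δ) (hρ : 0 < ρ) (h1 : 0 < a1) (hN : 0 ≤ N) :
    ∃ C : ℝ, ∀ ψ a σ : ℝ, |ψ| ≤ Ψ → a1 ≤ a → a ≤ a2 → 0 ≤ σ →
      a1 / (2 * δ) * (|a| + |σ|) + N * max a 0 -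
        (a * (σ + ψ) - ρ * Real.exp a * Real.sin σ) / δ ≤ C - a1 / (2 * δ) * σ := by
  refine ⟨a1 / (2 * δ) * a2 + N * a2 + (a2 * Ψ + ρ * Real.exp a2) / δ,
    fun ψ a σ hψ h3 h4 hσ => ?_⟩
  have hΨ : 0 ≤ Ψ := (abs_nonneg ψ).trans hψ
  have ha : 0 < a := by linarith
  rw [abs_of_pos ha, abs_of_nonneg hσ, max_eq_left ha.le]
  have h5 : N * a ≤ N * a2 := mul_le_mul_of_nonneg_left h4 hN
  have h6 : -(a * (σ + ψ) - ρ * Real.exp a * Real.sin σ) ≤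
      (a2 * Ψ + ρ * Real.exp a2) - a1 * σ := by
    have h7 : Real.exp a * Real.sin σ ≤ Real.exp a2 := by
      have := Real.sin_le_one σ
      have h8 : Real.exp a ≤ Real.exp a2 := Real.exp_le_exp.2 h4
      nlinarith [Real.exp_pos a]
    have h9 : -(a * ψ) ≤ a2 * Ψ := by
      have := abs_le.1 hψ
      nlinarith
    nlinarith
  have h7 := div_le_div_of_nonneg_right h6 hδ.le
  have h8 : a1 / (2 * δ) * a ≤ a1 / (2 * δ) * a2 := mul_le_mul_of_nonneg_left h4 (by positivity)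
  have h9 : ((a2 * Ψ + ρ * Real.exp a2) - a1 * σ) / δ =
      (a2 * Ψ + ρ * Real.exp a2) / δ - 2 * (a1 / (2 * δ) * σ) := by field_simp
  rw [h9, neg_div] at h7
  linarith

/-- End B. -/
theorem expB {δ ρ Ψ N η : ℝ} (hδ : 0 < δ) (hρ : 0 < ρ) (h1 : 0 < η) :
    ∃ C : ℝ, ∀ ψ a σ : ℝ, |ψ| ≤ Ψ → a ≤ -η → σ + ψ ≤ -η →
      η / (4 * δ) * (|a| + |σ|) + N * max a 0 -
        (a * (σ + ψ) - ρ * Real.exp a * Real.sin σ) / δ ≤
        C - η / (4 * δ) * (-a - (σ + ψ)) := by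
  refine ⟨η / (4 * δ) * Ψ + ρ / δ, fun ψ a σ hψ h3 h4 => ?_⟩
  have ha : a ≤ 0 := by linarith
  rw [abs_of_nonpos ha, max_eq_right ha]
  have hσ : |σ| ≤ -(σ + ψ) + Ψ := by
    have h5 := abs_le.1 hψ
    rw [abs_le]
    constructor <;> linarith
  have h5 : η / 2 * (-a - (σ + ψ)) ≤ a * (σ + ψ) := by
    nlinarith [mul_nonneg (by linarith : 0 ≤ -a - η / 2 - η / 2) (by linarith : 0 ≤ -(σ + ψ) - η / 2)]
  have h6 : Real.exp a * Real.sin σ ≤ 1 := by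
    have := Real.sin_le_one σ
    have h8 : Real.exp a ≤ 1 := Real.exp_le_one_iff.2 ha
    nlinarith [Real.exp_pos a]
  have h7 : -(a * (σ + ψ) - ρ * Real.exp a * Real.sin σ) ≤
      ρ - η / 2 * (-a - (σ + ψ)) := by nlinarith
  have h8 := div_le_div_of_nonneg_right h7 hδ.le
  have h9 : (ρ - η / 2 * (-a - (σ + ψ))) / δ = ρ / δ - 2 * (η / (4 * δ) * (-a - (σ + ψ))) := by
    field_simp
    ring
  rw [h9, neg_div] at h8
  have h10 : η / (4 * δ) * |σ| ≤ η / (4 * δ) * (-(σ + ψ) + Ψ) :=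
    mul_le_mul_of_nonneg_left hσ (by positivity)
  have h11 : η / (4 * δ) * (-a + |σ|) ≤ η / (4 * δ) * (-a - (σ + ψ)) + η / (4 * δ) * Ψ := by
    nlinarith
  linarith

end SokalFW
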