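import Pool.Agent.Lib_MP_af4de1_fu.TipDer

/-!
# The tip: level curves of `|w|` in the region `k₁ v ≤ u ≤ U v`
-/

set_option autoImplicit false

namespace SokalFU

open Filter Topology Set SokalF

/-! ### Abstract level curve lemma -/

theorem level_abstract {R : Set ℂ} (hR : IsCompact R) {ρ ψ : ℂ → ℝ} (hρ : ContinuousOn ρ R) (hψ : ContinuousOn ψ R)
    {c t va vb : ℝ} (hab : va ≤ vb) (hex : ∀ v ∈ Icc va vb, ∃ p ∈ R, p.im = v ∧ ρ p = c)
    (huniq : ∀ p ∈ R, ∀ p' ∈ R, p.im = p'.im → ρ p = c → ρ p' = c → p = p')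
    {pa pb : ℂ} (ha : pa ∈ R) (hac : ρ pa = c) (hav : pa.im = va) (hat : ψ pa ≤ t)
    (hb : pb ∈ R) (hbc : ρ pb = c) (hbv : pb.im = vb) (hbt : t ≤ ψ pb) : ∃ p ∈ R, ρ p = c ∧ ψ p = t := by
  have hRc : IsClosed R := hR.isClosed
  have c0 : IsClosed (R ∩ ρ ⁻¹' {c}) := hρ.preimage_isClosed_of_isClosed hRc isClosed_singleton
  have c1 : IsClosed (R ∩ ψ ⁻¹' Iic t) := hψ.preimage_isClosed_of_isClosed hRc isClosed_Iic
  have c2 : IsClosed (R ∩ ψ ⁻¹' Ici t) := hψ.preimage_isClosed_of_isClosed hRc isClosed_Ici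
  set K₁ : Set ℂ := (R ∩ ρ ⁻¹' {c}) ∩ (R ∩ ψ ⁻¹' Iic t) with hK₁
  set K₂ : Set ℂ := (R ∩ ρ ⁻¹' {c}) ∩ (R ∩ ψ ⁻¹' Ici t) with hK₂
  have k1 : IsCompact K₁ := hR.of_isClosed_subset (c0.inter c1) fun x hx => hx.1.1
  have k2 : IsCompact K₂ := hR.of_isClosed_subset (c0.inter c2) fun x hx => hx.1.1
  have i1 : IsClosed (Complex.im '' K₁) := (k1.image Complex.continuous_im).isClosed
  have i2 : IsClosed (Complex.im '' K₂) := (k2.image Complex.continuous_im).isClosed
  have hpre : IsPreconnected (Icc va vb) := isPreconnected_Icc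
  rw [isPreconnected_closed_iff] at hpre
  obtain ⟨v, -, ⟨p, hp, hpv⟩, ⟨p', hp', hpv'⟩⟩ := hpre _ _ i1 i2 (by
    intro v hv
    obtain ⟨p, hpR, hpv, hpc⟩ := hex v hv
    rcases le_total (ψ p) t with h | h
    · exact Or.inl ⟨p, ⟨⟨hpR, hpc⟩, hpR, h⟩, hpv⟩
    · exact Or.inr ⟨p, ⟨⟨hpR, hpc⟩, hpR, h⟩, hpv⟩)
    ⟨va, left_mem_Icc.2 hab, pa, ⟨⟨ha, hac⟩, ha, hat⟩, hav⟩
    ⟨vb, right_mem_Icc.2 hab, pb, ⟨⟨hb, hbc⟩, hb, hbt⟩, hbv⟩
  have e : p = p' := huniq p hp.1.1 p' hp'.1.1 (by rw [hpv, hpv']) hp.1.2 hp'.1.2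
  refine ⟨p, hp.1.1, hp.1.2, le_antisymm hp.2.2 ?_⟩
  rw [e]
  exact hp'.2.2

/-! ### The region -/

/-- `log |w|` -/
noncomputable def lw (p : ℂ) : ℝ := Real.log ‖wmap p‖

/-- hypotheses on the region -/
structure LvHyp (k₁ V : ℝ) (U : ℝ → ℝ) : Prop where
  k1 : 0 < k₁
  mono : Monotone U
  cont : Continuous U
  conv : ConcaveOn ℝ univ U
  le : ∀ v, 0 < v → v ≤ V → k₁ * v ≤ U v
  g1 : ∀ p ∈ DU k₁ V U, 0 < (Gp p).re
  g2 : ∀ p ∈ DU k₁ V U, p.re * (Gp p).re + p.im * (Gp p).im < 0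
  g3 : ∀ v₁ v₂, 0 < v₁ → v₁ ≤ v₂ → v₂ ≤ V → lw ⟨U v₁, v₁⟩ ≤ lw ⟨U v₂, v₂⟩
  hr : ∀ p ∈ DU k₁ V U, 0 < (hR p).re

section

variable {k₁ V : ℝ} {U : ℝ → ℝ}

theorem LvHyp.re_pos (H : LvHyp k₁ V U) {p : ℂ} (hp : p ∈ DU k₁ V U) : 0 < p.re := DU_re_pos H.k1 hp

theorem LvHyp.convex (H : LvHyp k₁ V U) : Convex ℝ (DU k₁ V U) := by
  have h1 : Convex ℝ {p : ℂ | 0 < p.im} := convex_halfSpace_im_gt 0
  have h2 : Convex ℝ {p : ℂ | p.im ≤ V} := convex_halfSpace_im_le V
  intro p hp p' hp' a b ha hb hab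
  have e1 : (a • p + b • p').im = a * p.im + b * p'.im := by simp
  have e2 : (a • p + b • p').re = a * p.re + b * p'.re := by simp
  refine ⟨?_, ?_, ?_, ?_⟩
  · rw [e1]
    rcases ha.lt_or_eq with h | h
    · have := mul_pos h hp.1
      have := mul_nonneg hb hp'.1.le
      linarith
    · rw [← h] at hab ⊢
      have : b = 1 := by linarith
      rw [this]
      have := hp'.1
      linarith
  · rw [e1]
    have i1 := mul_le_mul_of_nonneg_left hp.2.1 ha
    have i2 := mul_le_mul_of_nonneg_left hp'.2.1 hb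
    have : a * V + b * V = V := by rw [← add_mul, hab, one_mul]
    linarith
  · rw [e1, e2]
    have i1 := mul_le_mul_of_nonneg_left hp.2.2.1 ha
    have i2 := mul_le_mul_of_nonneg_left hp'.2.2.1 hb
    linarith
  · rw [e1, e2]
    have i1 := mul_le_mul_of_nonneg_left hp.2.2.2 ha
    have i2 := mul_le_mul_of_nonneg_left hp'.2.2.2 hb
    have i3 := H.conv.2 (mem_univ p.im) (mem_univ p'.im) ha hb hab
    simp only [smul_eq_mul] at i3
    linarith

theorem div_re_im {G p : ℂ} (hp : p ≠ 0) : (G / p).re = (p.re * G.re + p.im * G.im) / Complex.normSq p ∧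
    (G / p).im = (p.re * G.im - p.im * G.re) / Complex.normSq p := by
  have h : Complex.normSq p ≠ 0 := by rwa [Ne, Complex.normSq_eq_zero]
  constructor
  · rw [Complex.div_re]
    field_simp
  · rw [Complex.div_im]
    field_simp

/-- signs of `G/p` -/
theorem LvHyp.signs (H : LvHyp k₁ V U) {p : ℂ} (hp : p ∈ DU k₁ V U) :
    (Gp p / p).re < 0 ∧ (Gp p / p).im < 0 ∧ (Gp p).im < 0 := by
  have h0 := H.re_pos hp
  have hp0 := ne_zero_of_re h0.ne'
  have hn : 0 < Complex.normSq p := Complex.normSq_pos.2 hp0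
  have g1 := H.g1 p hp
  have g2 := H.g2 p hp
  have hv := hp.1
  have g3 : (Gp p).im < 0 := by
    by_contra hcon
    push Not at hcon
    have := mul_pos h0 g1
    have := mul_nonneg hv.le hcon
    linarith
  obtain ⟨e1, e2⟩ := div_re_im (G := Gp p) hp0
  refine ⟨?_, ?_, g3⟩
  · rw [e1]
    exact div_neg_of_neg_of_pos g2 hn
  · rw [e2]
    refine div_neg_of_neg_of_pos ?_ hn
    have := mul_pos hv g1
    have := mul_neg_of_pos_of_neg h0 g3
    linarith

/-- a function with positive derivative along the segment -/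
theorem lt_of_seg {f f' : ℝ → ℝ} (h : ∀ s ∈ Icc (0 : ℝ) 1, HasDerivAt f (f' s) s)
    (hpos : ∀ s ∈ Icc (0 : ℝ) 1, 0 < f' s) : f 0 < f 1 := by
  have hm : StrictMonoOn f (Icc (0 : ℝ) 1) := by
    refine strictMonoOn_of_deriv_pos (convex_Icc 0 1)
      (fun s hs => (h s hs).continuousAt.continuousWithinAt) fun s hs => ?_
    have hs' : s ∈ Icc (0 : ℝ) 1 := interior_subset hs
    rw [(h s hs').deriv]
    exact hpos s hs'
  exact hm (left_mem_Icc.2 zero_le_one) (right_mem_Icc.2 zero_le_one) zero_lt_one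

/-- the segment -/
noncomputable def sg (p p' : ℂ) (s : ℝ) : ℂ := p + (s : ℂ) * (p' - p)

theorem sg_zero (p p' : ℂ) : sg p p' 0 = p := by simp [sg]
theorem sg_one (p p' : ℂ) : sg p p' 1 = p' := by simp [sg]

theorem hasDerivAt_sg (p p' : ℂ) (s : ℝ) : HasDerivAt (sg p p') (p' - p) s := by
  have h1 := ((Complex.ofRealCLM.hasDerivAt (x := s)).mul_const (p' - p)).const_add p
  have e : sg p p' = fun s : ℝ => p + (s : ℂ) * (p' - p) := rfl
  rw [e]
  simpa using h1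

theorem sg_mem (H : LvHyp k₁ V U) {p p' : ℂ} (hp : p ∈ DU k₁ V U) (hp' : p' ∈ DU k₁ V U) {s : ℝ}
    (hs : s ∈ Icc (0 : ℝ) 1) : sg p p' s ∈ DU k₁ V U := by
  have := H.convex hp hp' (a := 1 - s) (b := s) (by linarith [hs.2]) hs.1 (by ring)
  have e : (1 - s) • p + s • p' = sg p p' s := by
    unfold sg
    simp only [Complex.real_smul]
    push_cast
    ring
  rwa [e] at this

theorem hasDerivAt_psiP {γ : ℝ → ℂ} {γ' : ℂ} {t : ℝ} (hγ : HasDerivAt γ γ' t) (hp : (γ t).re ≠ 0)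
    (hr : 0 < (hR (γ t)).re) : HasDerivAt (fun s => psiP (γ s)) (-(Gp (γ t) / γ t * γ').im) t := by
  have hp0 := ne_zero_of_re hp
  have hR0 := hR_ne_zero hp
  have h1 : HasDerivAt (fun s => hR (γ s)) (hR (γ t) * (1 - hL (γ t)) / γ t * γ') t :=
    (hasDerivAt_hR hp).comp_of_eq t hγ rfl
  have h2 : HasDerivAt (fun s => Complex.log (hR (γ s))) (hR (γ t) * (1 - hL (γ t)) / γ t * γ' / hR (γ t)) t :=
    h1.clog_real (Or.inl hr)
  have h3 := h1.sub h2
  have h4 := (Complex.imCLM.hasFDerivAt (x := hR (γ t) - Complex.log (hR (γ t)))).comp_hasDerivAt t h3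
  have e1 : Complex.imCLM (hR (γ t) * (1 - hL (γ t)) / γ t * γ' - hR (γ t) * (1 - hL (γ t)) / γ t * γ' / hR (γ t)) =
      -(Gp (γ t) / γ t * γ').im := by
    rw [Complex.imCLM_apply, ← Complex.neg_im]
    congr 1
    unfold Gp
    field_simp
    ring
  rw [e1] at h4
  refine h4.congr_of_eventuallyEq (.of_forall fun s => ?_)
  simp only [Function.comp, psiP, Complex.imCLM_apply, Pi.sub_apply, Complex.sub_im, Complex.log_im]

/-- `|w|` decreases in `u` -/
theorem LvHyp.lw_horizontal (H : LvHyp k₁ V U) {p p' : ℂ} (hp : p ∈ DU k₁ V U) (hp' : p' ∈ DU k₁ V U)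
    (him : p.im = p'.im) (hre : p.re < p'.re) : lw p' < lw p := by
  have h := lt_of_seg (f := fun s => -lw (sg p p' s)) (f' := fun s => -(Gp (sg p p' s) / sg p p' s * (p' - p)).re)
    (fun s hs => (hasDerivAt_log_wmap (hasDerivAt_sg p p' s) (H.re_pos (sg_mem H hp hp' hs)).ne').neg)
    (fun s hs => by
      have h1 := (H.signs (sg_mem H hp hp' hs)).1
      have e : (Gp (sg p p' s) / sg p p' s * (p' - p)).re = (Gp (sg p p' s) / sg p p' s).re * (p'.re - p.re) := by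
        rw [Complex.mul_re, Complex.sub_re, Complex.sub_im, him]
        ring
      rw [e]
      have := mul_neg_of_neg_of_pos h1 (sub_pos.2 hre)
      linarith)
  rw [sg_zero, sg_one] at h
  linarith

/-- `|w|` increases in `v` -/
theorem LvHyp.lw_vertical (H : LvHyp k₁ V U) {p p' : ℂ} (hp : p ∈ DU k₁ V U) (hp' : p' ∈ DU k₁ V U)
    (hre : p.re = p'.re) (him : p.im < p'.im) : lw p < lw p' := by
  have h := lt_of_seg (f := fun s => lw (sg p p' s)) (f' := fun s => (Gp (sg p p' s) / sg p p' s * (p' - p)).re)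
    (fun s hs => hasDerivAt_log_wmap (hasDerivAt_sg p p' s) (H.re_pos (sg_mem H hp hp' hs)).ne')
    (fun s hs => by
      have h1 := (H.signs (sg_mem H hp hp' hs)).2.1
      have e : (Gp (sg p p' s) / sg p p' s * (p' - p)).re = -((Gp (sg p p' s) / sg p p' s).im * (p'.im - p.im)) := by
        rw [Complex.mul_re, Complex.sub_re, Complex.sub_im, hre]
        ring
      rw [e]
      have := mul_neg_of_neg_of_pos h1 (sub_pos.2 him)
      linarith)
  rw [sg_zero, sg_one] at h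
  exact h

/-- `|w|` increases along the left side -/
theorem LvHyp.lw_left (H : LvHyp k₁ V U) {v₁ v₂ : ℝ} (h0 : 0 < v₁) (h12 : v₁ < v₂) (hV : v₂ ≤ V) :
    lw ⟨k₁ * v₁, v₁⟩ < lw ⟨k₁ * v₂, v₂⟩ := by
  have hp : (⟨k₁ * v₁, v₁⟩ : ℂ) ∈ DU k₁ V U := ⟨h0, h12.le.trans hV, le_rfl, H.le v₁ h0 (h12.le.trans hV)⟩
  have hp' : (⟨k₁ * v₂, v₂⟩ : ℂ) ∈ DU k₁ V U := ⟨h0.trans h12, hV, le_rfl, H.le v₂ (h0.trans h12) hV⟩
  set p : ℂ := ⟨k₁ * v₁, v₁⟩ with hpd
  set p' : ℂ := ⟨k₁ * v₂, v₂⟩ with hpd'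
  have h := lt_of_seg (f := fun s => lw (sg p p' s)) (f' := fun s => (Gp (sg p p' s) / sg p p' s * (p' - p)).re)
    (fun s hs => hasDerivAt_log_wmap (hasDerivAt_sg p p' s) (H.re_pos (sg_mem H hp hp' hs)).ne')
    (fun s hs => by
      have hm := sg_mem H hp hp' hs
      have h1 := H.g1 _ hm
      have hv := hm.1
      have hsv : (sg p p' s).im = v₁ + s * (v₂ - v₁) := by
        simp [sg, hpd, hpd']
      have e0 : sg p p' s = (((sg p p' s).im : ℝ) : ℂ) * ((k₁ : ℂ) + Complex.I) := by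
        apply Complex.ext
        · rw [hsv]
          simp [sg, hpd, hpd']
          ring
        · rw [hsv]
          simp [sg, hpd, hpd']
      have e1 : p' - p = ((v₂ - v₁ : ℝ) : ℂ) * ((k₁ : ℂ) + Complex.I) := by
        apply Complex.ext
        · simp [hpd, hpd']
          ring
        · simp [hpd, hpd']
      have hk : (k₁ : ℂ) + Complex.I ≠ 0 := by
        intro h
        have := congrArg Complex.im h
        simp at this
      have hvc : (((sg p p' s).im : ℝ) : ℂ) ≠ 0 := Complex.ofReal_ne_zero.2 hv.ne'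
      have e2 : Gp (sg p p' s) / sg p p' s * (p' - p) = (((v₂ - v₁) / (sg p p' s).im : ℝ) : ℂ) * Gp (sg p p' s) := by
        generalize sg p p' s = z at e0 hvc ⊢
        obtain ⟨m, hm2⟩ : ∃ m, m = z.im := ⟨_, rfl⟩
        rw [← hm2] at e0 hvc ⊢
        have hwz : ((k₁ : ℂ) + Complex.I) / z = (m : ℂ)⁻¹ := by
          rw [e0]
          field_simp
        have e3 : Gp z / z * (((v₂ - v₁ : ℝ) : ℂ) * ((k₁ : ℂ) + Complex.I)) =
            Gp z * ((v₂ - v₁ : ℝ) : ℂ) * (((k₁ : ℂ) + Complex.I) / z) := by ring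
        rw [e1, e3, hwz]
        push_cast
        ring
      rw [e2, Complex.re_ofReal_mul]
      exact mul_pos (div_pos (sub_pos.2 h12) hv) h1)
  rw [sg_zero, sg_one] at h
  exact h

/-- `ψ` increases up and to the right -/
theorem LvHyp.psi_lt (H : LvHyp k₁ V U) {p p' : ℂ} (hp : p ∈ DU k₁ V U) (hp' : p' ∈ DU k₁ V U)
    (hre : p.re ≤ p'.re) (him : p.im < p'.im) : psiP p < psiP p' := by
  have h := lt_of_seg (f := fun s => psiP (sg p p' s)) (f' := fun s => -(Gp (sg p p' s) / sg p p' s * (p' - p)).im)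
    (fun s hs => hasDerivAt_psiP (hasDerivAt_sg p p' s) (H.re_pos (sg_mem H hp hp' hs)).ne'
      (H.hr _ (sg_mem H hp hp' hs)))
    (fun s hs => by
      have h1 := (H.signs (sg_mem H hp hp' hs)).1
      have h2 := (H.signs (sg_mem H hp hp' hs)).2.1
      rw [Complex.mul_im, Complex.sub_re, Complex.sub_im]
      have i1 := mul_neg_of_neg_of_pos h1 (sub_pos.2 him)
      have i2 := mul_nonpos_of_nonpos_of_nonneg h2.le (sub_nonneg.2 hre)
      linarith)
  rw [sg_zero, sg_one] at h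
  exact h

/-- `Re B` decreases up and to the right -/
theorem LvHyp.B_lt (H : LvHyp k₁ V U) {p p' : ℂ} (hp : p ∈ DU k₁ V U) (hp' : p' ∈ DU k₁ V U)
    (hre : p.re ≤ p'.re) (him : p.im ≤ p'.im) : (Bp p').re ≤ (Bp p).re := by
  rcases eq_or_ne p p' with rfl | hne
  · exact le_rfl
  have h := lt_of_seg (f := fun s => -(Bp (sg p p' s)).re) (f' := fun s => -(-(Gp (sg p p' s) * (p' - p)).re))
    (fun s hs => (hasDerivAt_Bp_re (hasDerivAt_sg p p' s) (H.re_pos (sg_mem H hp hp' hs)).ne').neg)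
    (fun s hs => by
      have hm := sg_mem H hp hp' hs
      have h1 := H.g1 _ hm
      have h2 := (H.signs hm).2.2
      rw [neg_neg, Complex.mul_re, Complex.sub_re, Complex.sub_im]
      rcases him.lt_or_eq with h3 | h3
      · have i1 := mul_neg_of_neg_of_pos h2 (sub_pos.2 h3)
        have i2 := mul_nonneg h1.le (sub_nonneg.2 hre)
        linarith
      · have h4 : p.re < p'.re := by
          refine lt_of_le_of_ne hre fun h5 => hne ?_
          exact Complex.ext h5 h3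
        have i2 := mul_pos h1 (sub_pos.2 h4)
        rw [h3, sub_self, mul_zero, sub_zero]
        exact i2)
  rw [sg_zero, sg_one] at h
  linarith

/-- **The level curve between two points.** -/
theorem LvHyp.level (H : LvHyp k₁ V U) {pa pb : ℂ} (ha : pa ∈ DU k₁ V U) (hb : pb ∈ DU k₁ V U)
    (hc : lw pa = lw pb) (hv : pa.im ≤ pb.im) :
    pa.re ≤ pb.re ∧ ∀ t ∈ Icc (psiP pa) (psiP pb), ∃ p ∈ DU k₁ V U, lw p = lw pa ∧ psiP p = t ∧
      pa.re ≤ p.re ∧ pa.im ≤ p.im ∧ p.re ≤ pb.re ∧ p.im ≤ pb.im := by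
  -- a point above `pa` or left ...
  have hre : pa.re ≤ pb.re := by
    by_contra hcon
    push Not at hcon
    -- `q = (pb.re, pa.im)`
    have hq : (⟨pb.re, pa.im⟩ : ℂ) ∈ DU k₁ V U := by
      refine ⟨ha.1, ha.2.1, ?_, ?_⟩
      · exact (mul_le_mul_of_nonneg_left hv H.k1.le).trans hb.2.2.1
      · exact hcon.le.trans ha.2.2.2
    have h1 := H.lw_horizontal hq ha rfl hcon
    rcases hv.lt_or_eq with h2 | h2
    · have h3 := H.lw_vertical hq hb rfl h2
      linarith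
    · have : (⟨pb.re, pa.im⟩ : ℂ) = pb := Complex.ext rfl h2
      rw [this] at h1
      linarith
  refine ⟨hre, fun t ht => ?_⟩
  set R : Set ℂ := {p | pa.re ≤ p.re ∧ p.re ≤ pb.re ∧ pa.im ≤ p.im ∧ p.im ≤ pb.im ∧ k₁ * p.im ≤ p.re ∧ p.re ≤ U p.im}
    with hRd
  have hRD : R ⊆ DU k₁ V U := fun p hp => ⟨ha.1.trans_le hp.2.2.1, hp.2.2.2.1.trans hb.2.1, hp.2.2.2.2.1, hp.2.2.2.2.2⟩
  have hRcl : IsClosed R := by
    have c1 : IsClosed {p : ℂ | pa.re ≤ p.re} := isClosed_le continuous_const Complex.continuous_re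
    have c2 : IsClosed {p : ℂ | p.re ≤ pb.re} := isClosed_le Complex.continuous_re continuous_const
    have c3 : IsClosed {p : ℂ | pa.im ≤ p.im} := isClosed_le continuous_const Complex.continuous_im
    have c4 : IsClosed {p : ℂ | p.im ≤ pb.im} := isClosed_le Complex.continuous_im continuous_const
    have c5 : IsClosed {p : ℂ | k₁ * p.im ≤ p.re} :=
      isClosed_le (continuous_const.mul Complex.continuous_im) Complex.continuous_re
    have c6 : IsClosed {p : ℂ | p.re ≤ U p.im} :=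
      isClosed_le Complex.continuous_re (H.cont.comp Complex.continuous_im)
    exact c1.inter (c2.inter (c3.inter (c4.inter (c5.inter c6))))
  have hRco : IsCompact R := by
    refine (isCompact_closedBall (0 : ℂ) (pb.re + pb.im)).of_isClosed_subset hRcl fun p hp => ?_
    rw [mem_closedBall_zero_iff]
    have h1 := Complex.norm_le_abs_re_add_abs_im p
    have h2 := H.re_pos (hRD hp)
    have h3 := (hRD hp).1
    rw [abs_of_pos h2, abs_of_pos h3] at h1
    exact h1.trans (add_le_add hp.2.1 hp.2.2.2.1)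
  have hlw : ContinuousOn lw R := fun p hp => by
    have h0 := (H.re_pos (hRD hp)).ne'
    have h1 : ContinuousAt lw p := by
      unfold lw
      exact ((continuousAt_wmap h0).norm).log (norm_ne_zero_iff.2 (wmap_ne_zero h0))
    exact h1.continuousWithinAt
  have hps : ContinuousOn psiP R := fun p hp =>
    (continuousAt_psiP (H.re_pos (hRD hp)).ne' (H.hr p (hRD hp))).continuousWithinAt
  have haR : pa ∈ R := ⟨le_rfl, hre, le_rfl, hv, ha.2.2.1, ha.2.2.2⟩
  have hbR : pb ∈ R := ⟨hre, le_rfl, hv, le_rfl, hb.2.2.1, hb.2.2.2⟩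
  obtain ⟨p, hpR, hpc, hpt⟩ := level_abstract (c := lw pa) (t := t) hRco hlw hps hv (by
    intro v hvI
    have hv0 : 0 < v := ha.1.trans_le hvI.1
    have hvV : v ≤ V := hvI.2.trans hb.2.1
    set l : ℝ := max pa.re (k₁ * v) with hl
    set r : ℝ := min pb.re (U v) with hr
    have hUa : pa.re ≤ U v := ha.2.2.2.trans (H.mono hvI.1)
    have hLb : k₁ * v ≤ pb.re := (mul_le_mul_of_nonneg_left hvI.2 H.k1.le).trans hb.2.2.1
    have hlr : l ≤ r := max_le (le_min hre hUa) (le_min hLb (H.le v hv0 hvV))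
    have hin : ∀ u ∈ Icc l r, (⟨u, v⟩ : ℂ) ∈ R := fun u hu =>
      ⟨(le_max_left _ _).trans hu.1, hu.2.trans (min_le_left _ _), hvI.1, hvI.2, (le_max_right _ _).trans hu.1,
        hu.2.trans (min_le_right _ _)⟩
    -- left end
    have hL : lw pa ≤ lw ⟨l, v⟩ := by
      -- the point `(pa.re, v')` with `v' = min v (pa.re / k₁)`
      by_cases h1 : k₁ * v ≤ pa.re
      · have e : l = pa.re := max_eq_left h1
        have hm := hin l (left_mem_Icc.2 hlr)
        rw [e] at hm ⊢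
        rcases hvI.1.lt_or_eq with h2 | h2
        · exact (H.lw_vertical (p' := ⟨pa.re, v⟩) ha (hRD hm) rfl h2).le
        · have : (⟨pa.re, v⟩ : ℂ) = pa := Complex.ext rfl h2.symm
          rw [this]
      · push Not at h1
        have e : l = k₁ * v := max_eq_right h1.le
        rw [e]
        set v' : ℝ := pa.re / k₁ with hv'
        have e' : k₁ * v' = pa.re := by rw [hv']; field_simp [H.k1.ne']
        have hv'v : v' < v := by
          rw [hv', div_lt_iff₀ H.k1]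
          linarith
        have hav' : pa.im ≤ v' := by
          rw [hv', le_div_iff₀ H.k1]
          linarith [ha.2.2.1]
        have hv'0 : 0 < v' := ha.1.trans_le hav'
        have h3 := H.lw_left hv'0 hv'v hvV
        rw [e'] at h3
        have hm : (⟨pa.re, v'⟩ : ℂ) ∈ DU k₁ V U := by
          refine ⟨hv'0, hv'v.le.trans hvV, e'.le, ?_⟩
          exact ha.2.2.2.trans (H.mono hav')
        rcases hav'.lt_or_eq with h2 | h2
        · exact ((H.lw_vertical ha hm rfl h2).trans h3).le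
        · have : (⟨pa.re, v'⟩ : ℂ) = pa := Complex.ext rfl h2.symm
          rw [this] at h3
          exact h3.le
    -- right end
    have hR : lw ⟨r, v⟩ ≤ lw pa := by
      rw [hc]
      by_cases h1 : pb.re ≤ U v
      · have e : r = pb.re := min_eq_left h1
        have hm := hin r (right_mem_Icc.2 hlr)
        rw [e] at hm ⊢
        rcases hvI.2.lt_or_eq with h2 | h2
        · exact (H.lw_vertical (p := ⟨pb.re, v⟩) (hRD hm) hb rfl h2).le
        · have : (⟨pb.re, v⟩ : ℂ) = pb := Complex.ext rfl h2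
          rw [this]
      · push Not at h1
        have e : r = U v := min_eq_right h1.le
        rw [e]
        -- `v'` with `U v' = pb.re`
        obtain ⟨v', hv'I, hv'⟩ : ∃ v' ∈ Icc v pb.im, U v' = pb.re :=
          intermediate_value_Icc hvI.2 H.cont.continuousOn ⟨h1.le, hb.2.2.2⟩
        have h3 := H.g3 v v' hv0 hv'I.1 (hv'I.2.trans hb.2.1)
        rw [hv'] at h3
        have hm : (⟨pb.re, v'⟩ : ℂ) ∈ DU k₁ V U := by
          refine ⟨hv0.trans_le hv'I.1, hv'I.2.trans hb.2.1, ?_, hv'.ge⟩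
          exact (mul_le_mul_of_nonneg_left hv'I.2 H.k1.le).trans hb.2.2.1
        rcases hv'I.2.lt_or_eq with h2 | h2
        · exact h3.trans (H.lw_vertical hm hb rfl h2).le
        · have : (⟨pb.re, v'⟩ : ℂ) = pb := Complex.ext rfl h2
          rw [this] at h3
          exact h3
    -- intermediate value
    have hcont : ContinuousOn (fun u : ℝ => lw ⟨u, v⟩) (Icc l r) := by
      have h1 : ContinuousOn (fun u : ℝ => (⟨u, v⟩ : ℂ)) (Icc l r) := by
        have : (fun u : ℝ => (⟨u, v⟩ : ℂ)) = fun u : ℝ => (u : ℂ) + (v : ℂ) * Complex.I := by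
          funext u
          exact Complex.mk_eq_add_mul_I u v
        rw [this]
        fun_prop
      exact hlw.comp h1 hin
    obtain ⟨u, hu, huc⟩ := intermediate_value_Icc' hlr hcont ⟨hR, hL⟩
    exact ⟨⟨u, v⟩, hin u hu, rfl, huc⟩)
    (by
      intro p hp p' hp' him h1 h2
      rcases lt_trichotomy p.re p'.re with h | h | h
      · have := H.lw_horizontal (hRD hp) (hRD hp') him h
        linarith
      · exact Complex.ext h him
      · have := H.lw_horizontal (hRD hp') (hRD hp) him.symm h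
        linarith)
    haR rfl rfl ht.1 hbR hc.symm rfl ht.2
  exact ⟨p, hRD hpR, hpc, hpt, hpR.1, hpR.2.2.1, hpR.2.1, hpR.2.2.2.1⟩

/-- the level curve stays in the window -/
theorem LvHyp.level_window (H : LvHyp k₁ V U) {δ : ℝ} {pa pb : ℂ} (ha : pa ∈ PU k₁ V U δ) (hb : pb ∈ DU k₁ V U)
    (hc : ‖wmap pa‖ = ‖wmap pb‖) (hv : pa.im ≤ pb.im) :
    ∀ t ∈ Icc (psiP pa) (psiP pb), ∃ p ∈ PU k₁ V U δ, ‖wmap p‖ = ‖wmap pa‖ ∧ psiP p = t := by
  intro t ht
  have hc' : lw pa = lw pb := by unfold lw; rw [hc]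
  obtain ⟨p, hp, h1, h2, h3, h4, -, -⟩ := (H.level ha.1 hb hc' hv).2 t ht
  have e : ‖wmap p‖ = ‖wmap pa‖ :=
    Real.log_injOn_pos (mem_Ioi.2 (norm_pos_iff.2 (wmap_ne_zero (H.re_pos hp).ne')))
      (mem_Ioi.2 (norm_pos_iff.2 (wmap_ne_zero (H.re_pos ha.1).ne'))) h1
  exact ⟨p, ⟨hp, (H.B_lt ha.1 hp h3 h4).trans ha.2.1, e.le.trans ha.2.2⟩, e, h2⟩

/-- **At most one zero of `G` on each level curve in the window.** -/
theorem LvHyp.arc_inj (H : LvHyp k₁ V U) {δ : ℝ} {G : ℝ → ℝ → ℝ}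
    (hG : ∀ p ∈ PU k₁ V U δ, ∃ D, 0 < D ∧ HasDerivAt (G ‖wmap p‖) D (psiP p))
    {p₀ p₁ : ℂ} (h₀ : p₀ ∈ PU k₁ V U δ) (h₁ : p₁ ∈ PU k₁ V U δ) (hc : ‖wmap p₀‖ = ‖wmap p₁‖)
    (z₀ : G ‖wmap p₀‖ (psiP p₀) = 0) (z₁ : G ‖wmap p₁‖ (psiP p₁) = 0) : p₀ = p₁ := by
  -- wlog `p₀.im ≤ p₁.im`
  have key : ∀ q₀ q₁ : ℂ, q₀ ∈ PU k₁ V U δ → q₁ ∈ PU k₁ V U δ → ‖wmap q₀‖ = ‖wmap q₁‖ →
      G ‖wmap q₀‖ (psiP q₀) = 0 → G ‖wmap q₁‖ (psiP q₁) = 0 → ¬ q₀.im < q₁.im := by
    intro q₀ q₁ m₀ m₁ hcc y₀ y₁ hlt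
    have hc' : lw q₀ = lw q₁ := by unfold lw; rw [hcc]
    have hre := (H.level m₀.1 m₁.1 hc' hlt.le).1
    have hps := H.psi_lt m₀.1 m₁.1 hre hlt
    have hder : ∀ t ∈ Icc (psiP q₀) (psiP q₁), ∃ D, 0 < D ∧ HasDerivAt (G ‖wmap q₀‖) D t := by
      intro t ht
      obtain ⟨p, hp, hpc, hpt⟩ := H.level_window m₀ m₁.1 hcc hlt.le t ht
      obtain ⟨D, hD, hD2⟩ := hG p hp
      rw [hpc, hpt] at hD2
      exact ⟨D, hD, hD2⟩
    have hm : StrictMonoOn (G ‖wmap q₀‖) (Icc (psiP q₀) (psiP q₁)) := by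
      refine strictMonoOn_of_deriv_pos (convex_Icc _ _) (fun t ht => ?_) fun t ht => ?_
      · obtain ⟨D, -, hD⟩ := hder t ht
        exact hD.continuousAt.continuousWithinAt
      · obtain ⟨D, hD, hD2⟩ := hder t (interior_subset ht)
        rw [hD2.deriv]
        exact hD
    have h2 := hm (left_mem_Icc.2 hps.le) (right_mem_Icc.2 hps.le) hps
    rw [y₀, hcc, y₁] at h2
    exact lt_irrefl _ h2
  have e1 := key p₀ p₁ h₀ h₁ hc z₀ z₁
  have e2 := key p₁ p₀ h₁ h₀ hc.symm z₁ z₀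
  have him : p₀.im = p₁.im := le_antisymm (not_lt.1 e2) (not_lt.1 e1)
  have hc' : lw p₀ = lw p₁ := by unfold lw; rw [hc]
  rcases lt_trichotomy p₀.re p₁.re with h | h | h
  · have := H.lw_horizontal h₀.1 h₁.1 him h
    linarith
  · exact Complex.ext h him
  · have := H.lw_horizontal h₁.1 h₀.1 him.symm h
    linarith

end

end SokalFU
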