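import Pool.Agent.Lib_MP_af4de1_fu.MRep
import Pool.Agent.Lib_MP_af4de1_fu.MDer

/-!
# `|SL/SR|` strictly monotone ⇒ `Dist` [FU-M6]
-/

set_option autoImplicit false

namespace SokalFU

open Complex MeasureTheory Set

private theorem MDist_inner {a b : ℂ} (ha : a ≠ 0) : inner ℝ a b / ‖a‖ ^ 2 = (b / a).re := by
  have h1 : normSq a ≠ 0 := fun h => ha (normSq_eq_zero.1 h)
  rw [Complex.inner, ← Complex.normSq_eq_norm_sq, div_re, mul_re, conj_re, conj_im]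
  field_simp
  ring

private theorem MDist_log {f : ℝ → ℂ} {f' : ℂ} {x : ℝ} (hf : HasDerivAt f f' x) (h0 : f x ≠ 0) :
    HasDerivAt (fun y => Real.log (‖f y‖ ^ 2)) (2 * (f' / f x).re) x := by
  have h1 : ‖f x‖ ^ 2 ≠ 0 := pow_ne_zero _ (norm_ne_zero_iff.2 h0)
  have h2 := hf.norm_sq.log h1
  have h3 : 2 * inner ℝ (f x) f' / ‖f x‖ ^ 2 = 2 * (f' / f x).re := by
    rw [mul_div_assoc, MDist_inner h0]
  rw [← h3]
  exact h2

/-- every point of the circle -/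
private theorem MDist_zp {ρ δ : ℝ} (hρ : 0 < ρ) (hδ : 0 < δ) (ψ1 : ℝ) {z : ℂ} (hz : ‖z‖ = ρ / δ) :
    ∃ ψ ∈ Icc ψ1 (ψ1 + 2 * Real.pi), z = zp ρ δ ψ := by
  set θ : ℝ := (z * I).arg with hθ
  have h1 : z * I = (ρ / δ : ℝ) * cexp (θ * I) := by
    have h2 := Complex.norm_mul_exp_arg_mul_I (z * I)
    rw [norm_mul, norm_I, mul_one, hz] at h2
    exact h2.symm
  set n : ℤ := toIcoDiv Real.two_pi_pos ψ1 (δ / 2 - θ) with hn
  refine ⟨δ / 2 - θ - n • (2 * Real.pi), ?_, ?_⟩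
  · have h3 := toIcoMod_mem_Ico Real.two_pi_pos ψ1 (δ / 2 - θ)
    exact ⟨h3.1, h3.2.le⟩
  · unfold zp
    have h4 : ((δ : ℂ) / 2 - ((δ / 2 - θ - n • (2 * Real.pi) : ℝ) : ℂ)) * I =
        θ * I + n * (2 * Real.pi * I) := by
      rw [zsmul_eq_mul]
      push_cast
      ring
    rw [h4, Complex.exp_add, Complex.exp_int_mul_two_pi_mul_I, mul_one, eq_div_iff I_ne_zero, h1]
    push_cast
    rfl

/-- If `SL, SR ≠ 0` and `Re (SL 1/SL 0) < Re (SR 1/SR 0)` on an interval of length `2π`, then `|SL 0/SR 0|` is strictly increasing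
there (derivative of `log |SL 0/SR 0|` is `(1/δ) Re (SR 1/SR 0 - SL 1/SL 0)`), so `SL 0 + SR 0 = 0` at most once, and then
`(SL 0 + SR 0)' ≠ 0`, hence the zero of `F` is simple. -/
theorem dist_of {ρ δ : ℝ} (hρ : 0 < ρ) (hδ : 0 < δ) (ψ1 : ℝ)
    (H : ∀ ψ ∈ Icc ψ1 (ψ1 + 2 * Real.pi), SL ρ δ ψ 0 ≠ 0 ∧ SR ρ δ ψ 0 ≠ 0 ∧
      (SL ρ δ ψ 1 / SL ρ δ ψ 0).re < (SR ρ δ ψ 1 / SR ρ δ ψ 0).re) :
    Dist δ (ρ / δ) := by
  obtain ⟨C, hC, hrep⟩ := rep_F hρ hδ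
  set φ : ℝ → ℝ := fun ψ => Real.log (‖SL ρ δ ψ 0‖ ^ 2) - Real.log (‖SR ρ δ ψ 0‖ ^ 2) with hφ
  have hd : ∀ ψ ∈ Icc ψ1 (ψ1 + 2 * Real.pi), ∃ d : ℝ, 0 < d ∧ HasDerivAt φ d ψ := by
    intro ψ hψ
    obtain ⟨h1, h2, h3⟩ := H ψ hψ
    have e1 := MDist_log (hasDerivAt_SL hρ hδ ψ) h1
    have e2 := MDist_log (hasDerivAt_SR hρ hδ ψ) h2
    refine ⟨_, ?_, e1.sub e2⟩
    have e3 : ∀ a b : ℂ, (-(1 / (δ : ℂ)) * a / b).re = -(1 / δ) * (a / b).re := by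
      intro a b
      have : -(1 / (δ : ℂ)) * a / b = ((-(1 / δ) : ℝ) : ℂ) * (a / b) := by
        push_cast
        ring
      rw [this, re_ofReal_mul]
    rw [e3, e3]
    have e4 : 0 < 1 / δ := by positivity
    nlinarith
  have hmono : StrictMonoOn φ (Icc ψ1 (ψ1 + 2 * Real.pi)) := by
    refine strictMonoOn_of_deriv_pos (convex_Icc _ _) ?_ ?_
    · intro ψ hψ
      obtain ⟨d, -, h⟩ := hd ψ hψ
      exact h.continuousAt.continuousWithinAt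
    · intro ψ hψ
      obtain ⟨d, hd0, h⟩ := hd ψ (interior_subset hψ)
      rw [h.deriv]
      exact hd0
  have hzero : ∀ ψ, SokalF.F (qa δ) (zp ρ δ ψ) = 0 → SL ρ δ ψ 0 + SR ρ δ ψ 0 = 0 := by
    intro ψ h
    have h1 := hrep ψ
    rw [h, zero_mul] at h1
    rcases mul_eq_zero.1 h1.symm with h2 | h2
    · exact absurd h2 (Complex.exp_ne_zero _)
    · exact h2
  have hφ0 : ∀ ψ, SokalF.F (qa δ) (zp ρ δ ψ) = 0 → φ ψ = 0 := by
    intro ψ h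
    have h1 := hzero ψ h
    have h2 : SL ρ δ ψ 0 = -SR ρ δ ψ 0 := eq_neg_of_add_eq_zero_left h1
    rw [hφ]
    simp only
    rw [h2, norm_neg, sub_self]
  intro z hz hFz
  obtain ⟨ψ, hψ, rfl⟩ := MDist_zp hρ hδ ψ1 hz
  refine ⟨?_, ?_⟩
  · intro hdF
    have hq : ‖qa δ‖ ≤ 1 := (norm_qa δ).le
    have hF : HasDerivAt (SokalF.F (qa δ)) 0 (zp ρ δ ψ) := by
      rw [← hdF]
      exact (SokalF.hasDerivAt_F hq _).differentiableAt.hasDerivAt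
    have hzp : DifferentiableAt ℝ (fun ψ : ℝ => zp ρ δ ψ) ψ := by
      unfold zp
      fun_prop
    have hL : HasDerivAt (fun ψ : ℝ => SokalF.F (qa δ) (zp ρ δ ψ) * C) 0 ψ := by
      have h1 : HasDerivAt (SokalF.F (qa δ) ∘ fun ψ : ℝ => zp ρ δ ψ)
          (0 * deriv (fun ψ : ℝ => zp ρ δ ψ) ψ) ψ := HasDerivAt.comp ψ hF hzp.hasDerivAt
      rw [zero_mul] at h1
      have h2 := h1.mul_const C
      rw [zero_mul] at h2
      exact h2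
    set E : ℝ → ℂ := fun ψ => cexp (-((ψ : ℂ) ^ 2 / (2 * δ)) * I) with hE
    have hEd : DifferentiableAt ℝ E ψ := by
      rw [hE]
      fun_prop
    have hsum := (hasDerivAt_SL hρ hδ ψ).add (hasDerivAt_SR hρ hδ ψ)
    have hR := hEd.hasDerivAt.mul hsum
    have hfun : (fun ψ : ℝ => SokalF.F (qa δ) (zp ρ δ ψ) * C) =
        E * ((fun ψ : ℝ => SL ρ δ ψ 0) + fun ψ : ℝ => SR ρ δ ψ 0) := by
      funext y
      exact hrep y
    rw [hfun] at hL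
    have h5 := hL.unique hR
    have h0 := hzero ψ hFz
    have h6 : ((fun ψ : ℝ => SL ρ δ ψ 0) + fun ψ : ℝ => SR ρ δ ψ 0) ψ = 0 := h0
    rw [h6, mul_zero, zero_add] at h5
    rcases mul_eq_zero.1 h5.symm with h7 | h7
    · exact absurd h7 (Complex.exp_ne_zero _)
    · have hδc : (δ : ℂ) ≠ 0 := by exact_mod_cast hδ.ne'
      have h8 : SL ρ δ ψ 1 + SR ρ δ ψ 1 = 0 := by
        have h9 : -(1 / (δ : ℂ)) * (SL ρ δ ψ 1 + SR ρ δ ψ 1) = 0 := by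
          rw [mul_add]
          exact h7
        rcases mul_eq_zero.1 h9 with h10 | h10
        · exact absurd h10 (neg_ne_zero.2 (one_div_ne_zero hδc))
        · exact h10
      obtain ⟨-, -, h3⟩ := H ψ hψ
      rw [eq_neg_of_add_eq_zero_left h8, eq_neg_of_add_eq_zero_left h0, neg_div_neg_eq] at h3
      exact lt_irrefl _ h3
  · intro w hw hFw
    obtain ⟨ψ', hψ', rfl⟩ := MDist_zp hρ hδ ψ1 hw
    have h1 : φ ψ' = φ ψ := by rw [hφ0 _ hFw, hφ0 _ hFz]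
    rw [hmono.injOn hψ' hψ h1]

end SokalFU
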