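import Pool.Agent.Lib_MP_af4de1_fu.M0

/-!
# Rays and primitives [FU-M1]
-/

set_option autoImplicit false

namespace SokalFU

open Complex MeasureTheory Set Filter Topology

/-- The primitive along a ray. -/
theorem ray_tendsto {f P : ℂ → ℂ} (hf : Continuous f) (hP : ∀ z, HasDerivAt P (f z) z) {p d : ℂ}
    (hi : IntegrableOn (fun s : ℝ => f (p + s * d)) (Ioi 0)) :
    Tendsto (fun T : ℝ => P (p + T * d)) atTop (𝓝 (P p + ray f p d)) := by
  have h1 : ∀ T : ℝ, P (p + T * d) = P p + (∫ s in (0 : ℝ)..T, f (p + s * d)) * d := by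
    intro T
    have hd : ∀ s ∈ Set.uIcc 0 T,
        HasDerivAt (fun s : ℝ => P (p + s * d)) (f (p + s * d) * d) s := by
      intro s _
      have h1 : HasDerivAt (fun z : ℂ => p + z * d) d (s : ℂ) := by
        simpa using ((hasDerivAt_id (s : ℂ)).mul_const d).const_add p
      exact ((hP (p + s * d)).comp (s : ℂ) h1).comp_ofReal
    have hc : Continuous fun s : ℝ => f (p + s * d) * d := by fun_prop
    have h2 := intervalIntegral.integral_eq_sub_of_hasDerivAt hd (hc.intervalIntegrable _ _)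
    rw [← intervalIntegral.integral_mul_const, h2]
    simp
  have h3 := MeasureTheory.intervalIntegral_tendsto_integral_Ioi 0 hi tendsto_id
  have h4 := (h3.mul_const d).const_add (P p)
  refine h4.congr fun T => ?_
  rw [h1 T]; rfl

/-- Two rays with the same end. -/
theorem ray_end {f P : ℂ → ℂ} (hf : Continuous f) (hP : ∀ z, HasDerivAt P (f z) z) {p d p' d' : ℂ}
    (hi : IntegrableOn (fun s : ℝ => f (p + s * d)) (Ioi 0))
    (hi' : IntegrableOn (fun s : ℝ => f (p' + s * d')) (Ioi 0))
    {e : ℝ → ℝ} (he : Tendsto e atTop (𝓝 0))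
    (hb : ∀ᶠ T : ℝ in atTop, ∀ z ∈ segment ℝ (p + T * d) (p' + T * d'),
      ‖f z‖ * ‖(p + T * d) - (p' + T * d')‖ ≤ e T) :
    P p + ray f p d = P p' + ray f p' d' := by
  have h1 := ray_tendsto hf hP hi
  have h2 := ray_tendsto hf hP hi'
  have h3 : Tendsto (fun T : ℝ => P (p + T * d) - P (p' + T * d')) atTop (𝓝 0) := by
    refine squeeze_zero_norm' ?_ he
    filter_upwards [hb] with T hT
    by_cases h0 : (p + T * d) - (p' + T * d') = 0
    · rw [sub_eq_zero.mp h0, sub_self, norm_zero]
      have h4 := hT _ (left_mem_segment ℝ _ _)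
      rw [h0, norm_zero, mul_zero] at h4
      exact h4
    have hpos : 0 < ‖(p + T * d) - (p' + T * d')‖ := norm_pos_iff.mpr h0
    have h4 : ‖P (p + T * d) - P (p' + T * d')‖ ≤
        (e T / ‖(p + T * d) - (p' + T * d')‖) * ‖(p + T * d) - (p' + T * d')‖ :=
      Convex.norm_image_sub_le_of_norm_hasDerivWithin_le (f := P) (f' := f)
        (s := segment ℝ (p + T * d) (p' + T * d'))
        (fun z _ => (hP z).hasDerivWithinAt)
        (fun z hz => by rw [le_div_iff₀ hpos]; exact hT z hz) (convex_segment _ _)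
        (right_mem_segment ℝ _ _) (left_mem_segment ℝ _ _)
    rwa [div_mul_cancel₀ _ hpos.ne'] at h4
  have h5 := tendsto_nhds_unique h3 (h1.sub h2)
  exact (sub_eq_zero.mp h5.symm)

end SokalFU
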