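import Pool.Agent.Lib_MP_af4de1_fu.M0

/-!
# The general estimate: hypotheses and error terms

`JJ δ h p d w`, `p = -(τ d)`: the main line is `v = t d`, `t > -τ`, the horizontal ray starts at `v = -(τ d)`.
`EE = E2 + O(v³)`, `E2 = (i/δ)(1-h)v²/2`; `‖(∫_ℝ e^(E2(td)) dt) d‖ = √(2πδ/‖1-h‖)`.
Identity (helper13): `(1-h) ∫ v e^EE = h ∫ (e^v - 1 - v) e^EE`.
-/

set_option autoImplicit false

namespace SokalFU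

open Complex MeasureTheory Set

/-- Hypotheses of the general estimate (heights `ff`). -/
structure Hyp (δ : ℝ) (h d : ℂ) (τ T T' cp cm B l b σ K2 K3 : ℝ) : Prop where
  δpos : 0 < δ
  h_ne : h ≠ 1
  d_ne : d ≠ 0
  d_re : d.re ≤ 0
  τpos : 0 < τ
  Tpos : 0 < T
  TT : T ≤ T'
  cppos : 0 < cp
  cmpos : 0 < cm
  lpos : 0 < l
  Bpos : 0 < B
  bpos : 0 < b
  σgt : δ < σ
  K2pos : 0 ≤ K2
  K3pos : 0 ≤ K3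
  quad : ∀ t : ℝ, max cp cm * t ^ 2 ≤ ((1 - h) * (t * d) ^ 2 / 2).im
  right : ∀ t : ℝ, 0 ≤ t → t ≤ τ → cm * t ^ 2 ≤ ff h (-(t * d))
  left : ∀ t : ℝ, 0 ≤ t → t ≤ T → cp * t ^ 2 ≤ ff h (t * d)
  far : ∀ t : ℝ, T ≤ t → B + l * max (t - T') 0 ≤ ff h (t * d)
  side : ∀ u : ℝ, 0 ≤ u → b + σ * u ≤ ff h (-(τ * d) + u)
  k2 : ∀ t : ℝ, 0 ≤ t → t ≤ τ → ‖cexp (-(t * d)) - 1 - -(t * d)‖ ≤ K2 * (t * ‖d‖) ^ 2 / 2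
  k3 : ∀ t : ℝ, 0 ≤ t → t ≤ τ →
    ‖cexp (-(t * d)) - 1 - -(t * d) - (-(t * d)) ^ 2 / 2‖ ≤ K3 * (t * ‖d‖) ^ 3 / 6

/-- error in the lower bound of `‖∫ e^EE‖`; `H = ‖h‖`, `q = ‖d‖` -/
noncomputable def lowErr (δ H q τ T T' cp cm B l b σ K3 : ℝ) : ℝ :=
  H * q ^ 4 / 12 * (1 / cp ^ 2 + K3 / cm ^ 2) * δ +
    q * (((T' - T) + δ / l) * Real.exp (-B / δ) + δ / (cp * T) * Real.exp (-(cp * T ^ 2) / δ) +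
      δ / (cm * τ) * Real.exp (-(cm * τ ^ 2) / δ)) + δ / σ * Real.exp (-b / δ)

/-- upper bound of `∫ ‖e^v - 1 - v‖ ‖e^EE‖ |dv|`; `r = |Re d|` -/
noncomputable def upErr (δ q r τ T T' cp cm B l b σ K2 : ℝ) : ℝ :=
  q ^ 3 * (Real.sqrt Real.pi / 8) * (δ / cp * Real.sqrt (δ / cp) + K2 * (δ / cm) * Real.sqrt (δ / cm)) +
    q ^ 3 / 2 * ((T' ^ 3 - T ^ 3) / 3 + δ / l * (T' ^ 2 + 2 * T' * (δ / l) + 2 * (δ / l) ^ 2)) *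
      Real.exp (-B / δ) +
    Real.exp (τ * r - b / δ) / 2 * ((τ * q) ^ 2 / (σ / δ - 1) + 2 * (τ * q) / (σ / δ - 1) ^ 2 +
      2 / (σ / δ - 1) ^ 3)

end SokalFU
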