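import Pool.Agent.Lib_MP_af4de1_fu.M0

/-!
# Integrability of `g^j k(g)` on rays [FU-M2]

`norm_kk`: `‖k(g)‖ = exp(-(a(σ+ψ) - ρ e^a sin σ)/δ)`, `g = a + iσ`.  Right ray (`-π < Im p < 0`): `sin σ < 0` is constant, the height is
`a(σ+ψ) + ρ e^a |sin σ|`, `a → ∞`.  Up (`Re p > 0`): height `≥ a s - C`.  Down with slope `m > 0` (`a = a₀ - s`, `σ = σ₀ - m s`): height
`≥ m s²/2 - C`.  Vertically down (`Re p < 0`): height `≥ |a| s - C`.  The weight `g^j` is polynomial.
-/

set_option autoImplicit false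

namespace SokalFU

open Complex MeasureTheory Set

/-- polynomials are dominated by exponentials -/
private theorem mint_poly (j : ℕ) {ε A B : ℝ} (hε : 0 < ε) (hA : 0 ≤ A) (hB : 0 ≤ B) :
    ∃ C : ℝ, 0 ≤ C ∧ ∀ s : ℝ, 0 < s → (A + s * B) ^ j ≤ C * Real.exp (ε * s) := by
  have hB1 : 0 < B + 1 := by linarith
  refine ⟨((B + 1) / ε) ^ j * (j.factorial * Real.exp (ε * A / (B + 1))), by positivity, ?_⟩
  intro s hs
  have h0 : 0 ≤ ε * (A + s * B) / (B + 1) := by positivity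
  have h1 : A + s * B = ((B + 1) / ε) * (ε * (A + s * B) / (B + 1)) := by
    field_simp
  have h2 : (ε * (A + s * B) / (B + 1)) ^ j ≤
      j.factorial * Real.exp (ε * (A + s * B) / (B + 1)) := by
    have h := Real.pow_div_factorial_le_exp _ h0 j
    rw [div_le_iff₀ (by positivity)] at h
    linarith
  have h3 : ε * (A + s * B) / (B + 1) ≤ ε * A / (B + 1) + ε * s := by
    have h4 : ε * A / (B + 1) + ε * s - ε * (A + s * B) / (B + 1) = ε * s / (B + 1) := by
      field_simp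
      ring
    have h5 : 0 ≤ ε * s / (B + 1) := by positivity
    linarith
  calc (A + s * B) ^ j = ((B + 1) / ε) ^ j * (ε * (A + s * B) / (B + 1)) ^ j := by
        rw [← mul_pow, ← h1]
    _ ≤ ((B + 1) / ε) ^ j * (j.factorial * Real.exp (ε * A / (B + 1) + ε * s)) := by
        refine mul_le_mul_of_nonneg_left (h2.trans ?_) (by positivity)
        exact mul_le_mul_of_nonneg_left (Real.exp_le_exp.mpr h3) (by positivity)
    _ = ((B + 1) / ε) ^ j * (j.factorial * Real.exp (ε * A / (B + 1))) * Real.exp (ε * s) := by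
        rw [Real.exp_add]
        ring

/-- integrability from a linear lower bound of the height -/
private theorem mint_main {ρ δ : ℝ} (hδ : 0 < δ) (ψ : ℝ) (j : ℕ) (p d : ℂ) {c C : ℝ} (hc : 0 < c)
    (h : ∀ s : ℝ, 0 < s → c * s - C ≤ (p + s * d).re * ((p + s * d).im + ψ) -
      ρ * Real.exp (p + s * d).re * Real.sin (p + s * d).im) :
    IntegrableOn (fun s : ℝ => kj ρ δ ψ j (p + s * d)) (Ioi 0) := by
  have hε : 0 < c / (2 * δ) := by positivity
  obtain ⟨C1, hC1, h1⟩ := mint_poly j hε (norm_nonneg p) (norm_nonneg d)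
  have hi : IntegrableOn (fun s : ℝ => C1 * Real.exp (C / δ) * Real.exp (-(c / (2 * δ)) * s))
      (Ioi 0) := (exp_neg_integrableOn_Ioi 0 hε).const_mul _
  have hcont : Continuous (fun s : ℝ => kj ρ δ ψ j (p + s * d)) :=
    (continuous_kj ρ δ ψ j).comp (by fun_prop)
  refine Integrable.mono' hi hcont.aestronglyMeasurable ?_
  refine (ae_restrict_iff' measurableSet_Ioi).mpr (Filter.Eventually.of_forall fun s hs => ?_)
  have hs0 : 0 < s := hs
  unfold kj
  rw [norm_mul, norm_pow, norm_kk]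
  have h2 : ‖p + s * d‖ ^ j ≤ C1 * Real.exp (c / (2 * δ) * s) := by
    refine le_trans (pow_le_pow_left₀ (norm_nonneg _) ?_ j) (h1 s hs0)
    refine (norm_add_le _ _).trans ?_
    rw [norm_mul, Complex.norm_real, Real.norm_of_nonneg hs0.le]
  have h3 : Real.exp (-((p + s * d).re * ((p + s * d).im + ψ) -
      ρ * Real.exp (p + s * d).re * Real.sin (p + s * d).im) / δ) ≤
      Real.exp (C / δ - c / δ * s) := by
    refine Real.exp_le_exp.mpr ?_
    rw [show C / δ - c / δ * s = -(c * s - C) / δ by ring]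
    exact div_le_div_of_nonneg_right (neg_le_neg (h s hs0)) hδ.le
  calc _ ≤ C1 * Real.exp (c / (2 * δ) * s) * Real.exp (C / δ - c / δ * s) :=
        mul_le_mul h2 h3 (Real.exp_pos _).le (by positivity)
    _ = C1 * Real.exp (C / δ) * Real.exp (-(c / (2 * δ)) * s) := by
        rw [mul_assoc, mul_assoc, ← Real.exp_add, ← Real.exp_add]
        congr 2
        field_simp
        ring

theorem kj_int_right {ρ δ : ℝ} (hρ : 0 < ρ) (hδ : 0 < δ) (ψ : ℝ) (j : ℕ) {p : ℂ}
    (h1 : -Real.pi < p.im) (h2 : p.im < 0) :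
    IntegrableOn (fun s : ℝ => kj ρ δ ψ j (p + s * 1)) (Ioi 0) := by
  have hsin : Real.sin p.im < 0 := Real.sin_neg_of_neg_of_neg_pi_lt h2 h1
  have hK : 0 < ρ * Real.exp p.re * (-Real.sin p.im) := by
    have := Real.exp_pos p.re
    have h3 : 0 < -Real.sin p.im := by linarith
    positivity
  set K := ρ * Real.exp p.re * (-Real.sin p.im) with hKd
  refine mint_main hδ ψ j p 1 (c := 1)
    (C := (1 - (p.im + ψ)) ^ 2 / (2 * K) - p.re * (p.im + ψ)) one_pos ?_
  intro s hs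
  have e1 : (p + s * 1 : ℂ).re = p.re + s := by simp
  have e2 : (p + s * 1 : ℂ).im = p.im := by simp
  rw [e1, e2, Real.exp_add]
  have h4 : 1 + s + s ^ 2 / 2 ≤ Real.exp s := Real.quadratic_le_exp_of_nonneg hs.le
  have h5 : K * (s ^ 2 / 2) ≤ K * Real.exp s := by
    refine mul_le_mul_of_nonneg_left ?_ hK.le
    linarith
  have h6 : 0 ≤ K / 2 * (s - (1 - (p.im + ψ)) / K) ^ 2 := by positivity
  have h7 : K / 2 * (s - (1 - (p.im + ψ)) / K) ^ 2 =
      K * (s ^ 2 / 2) - (1 - (p.im + ψ)) * s + (1 - (p.im + ψ)) ^ 2 / (2 * K) := by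
    field_simp
    ring
  have h8 : ρ * (Real.exp p.re * Real.exp s) * Real.sin p.im = -(K * Real.exp s) := by
    rw [hKd]
    ring
  rw [h8]
  nlinarith [h5, h6, h7]

theorem kj_int_up {ρ δ : ℝ} (hρ : 0 < ρ) (hδ : 0 < δ) (ψ : ℝ) (j : ℕ) {p : ℂ} (hp : 0 < p.re) :
    IntegrableOn (fun s : ℝ => kj ρ δ ψ j (p + s * I)) (Ioi 0) := by
  refine mint_main hδ ψ j p I (c := p.re)
    (C := ρ * Real.exp p.re - p.re * (p.im + ψ)) hp ?_
  intro s hs
  have e1 : (p + s * I : ℂ).re = p.re := by simp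
  have e2 : (p + s * I : ℂ).im = p.im + s := by simp
  rw [e1, e2]
  have h4 : ρ * Real.exp p.re * Real.sin (p.im + s) ≤ ρ * Real.exp p.re * 1 :=
    mul_le_mul_of_nonneg_left (Real.sin_le_one _) (by positivity)
  nlinarith [h4]

theorem kj_int_down {ρ δ : ℝ} (hρ : 0 < ρ) (hδ : 0 < δ) (ψ : ℝ) (j : ℕ) {m : ℝ} (hm : 0 < m)
    (p : ℂ) : IntegrableOn (fun s : ℝ => kj ρ δ ψ j (p + s * (-(1 + m * I)))) (Ioi 0) := by
  refine mint_main hδ ψ j p (-(1 + m * I)) (c := 1)
    (C := ρ * Real.exp p.re - p.re * (p.im + ψ) + (p.im + ψ + m * p.re + 1) ^ 2 / (4 * m))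
    one_pos ?_
  intro s hs
  have e1 : (p + s * (-(1 + m * I)) : ℂ).re = p.re - s := by
    simp
    ring
  have e2 : (p + s * (-(1 + m * I)) : ℂ).im = p.im - m * s := by
    simp
    ring
  rw [e1, e2]
  have h3 : Real.exp (p.re - s) ≤ Real.exp p.re := Real.exp_le_exp.mpr (by linarith)
  have h4 : ρ * Real.exp (p.re - s) * Real.sin (p.im - m * s) ≤ ρ * Real.exp (p.re - s) * 1 :=
    mul_le_mul_of_nonneg_left (Real.sin_le_one _) (by positivity)
  have h5 : ρ * Real.exp (p.re - s) ≤ ρ * Real.exp p.re := mul_le_mul_of_nonneg_left h3 hρ.le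
  have h6 : 0 ≤ m * (s - (p.im + ψ + m * p.re + 1) / (2 * m)) ^ 2 := by positivity
  have h7 : m * (s - (p.im + ψ + m * p.re + 1) / (2 * m)) ^ 2 =
      m * s ^ 2 - (p.im + ψ + m * p.re + 1) * s + (p.im + ψ + m * p.re + 1) ^ 2 / (4 * m) := by
    field_simp
    ring
  nlinarith [h4, h5, h6, h7]

theorem kj_int_vert {ρ δ : ℝ} (hρ : 0 < ρ) (hδ : 0 < δ) (ψ : ℝ) (j : ℕ) {p : ℂ} (hp : p.re < 0) :
    IntegrableOn (fun s : ℝ => kj ρ δ ψ j (p + s * (-I))) (Ioi 0) := by
  refine mint_main hδ ψ j p (-I) (c := -p.re)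
    (C := ρ * Real.exp p.re - p.re * (p.im + ψ)) (by linarith) ?_
  intro s hs
  have e1 : (p + s * (-I) : ℂ).re = p.re := by simp
  have e2 : (p + s * (-I) : ℂ).im = p.im - s := by
    simp
    ring
  rw [e1, e2]
  have h4 : ρ * Real.exp p.re * Real.sin (p.im - s) ≤ ρ * Real.exp p.re * 1 :=
    mul_le_mul_of_nonneg_left (Real.sin_le_one _) (by positivity)
  nlinarith [h4]

end SokalFU
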