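import Pool.Agent.Lib_MP_af4de1_fu.MGauss
import Pool.Agent.Lib_MP_af4de1_fu.MElem
import Pool.Agent.Lib_MP_af4de1_fu.MInteg

/-!
# Lower bound of `∫ e^EE` [FU-M11]

`ray (e^EE) (-(τd)) d = (∫_(t>-τ) e^(EE(td)) dt) d` (translation).  Compare with the Gauss integral:
`∫_(-τ)^0 + ∫_0^T ‖e^EE - e^E2‖ ≤ (‖h‖/δ)(K3 q³/6 ∫ t³ e^(-cm t²/δ) + q³/6 ∫ t³ e^(-cp t²/δ))` (`norm_exp_sub_exp_le`, `EE - E2 = -(i/δ) h (e^v-1-v-v²/2)`,
`taylor3_left` for `t ≥ 0`, `k3` for `t ≤ 0`); `t > T`: `‖e^EE‖ + ‖e^E2‖` (`int_far0`, `int_tail`); `t < -τ`: `‖e^E2‖` (`int_tail`); the horizontal ray: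
`int_lin`.
-/

set_option autoImplicit false

namespace SokalFU

open Complex MeasureTheory Set

private theorem mlow_re_EE {δ : ℝ} (h v : ℂ) : (EE δ h v).re = -(ff h v) / δ :=
  Real.exp_injective ((Complex.norm_exp _).symm.trans (norm_EE h v))

private theorem mlow_re_E2 {δ : ℝ} (h v : ℂ) :
    (E2 δ h v).re = -((1 - h) * v ^ 2 / 2).im / δ :=
  Real.exp_injective ((Complex.norm_exp _).symm.trans (norm_E2 h v))

/-- the difference of the integrands -/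
private theorem mlow_diff {δ : ℝ} (hδ : 0 < δ) {h v : ℂ} {m R : ℝ} (h1 : m ≤ ff h v)
    (h2 : m ≤ ((1 - h) * v ^ 2 / 2).im) (h3 : ‖cexp v - 1 - v - v ^ 2 / 2‖ ≤ R) :
    ‖cexp (EE δ h v) - cexp (E2 δ h v)‖ ≤ ‖h‖ / δ * R * Real.exp (-m / δ) := by
  have e : EE δ h v - E2 δ h v = I / δ * -(h * (cexp v - 1 - v - v ^ 2 / 2)) := by
    unfold EE E2
    ring
  have hn : ‖EE δ h v - E2 δ h v‖ = ‖h‖ / δ * ‖cexp v - 1 - v - v ^ 2 / 2‖ := by
    rw [e, norm_mul, norm_neg, norm_mul, norm_div, Complex.norm_I, Complex.norm_real,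
      Real.norm_of_nonneg hδ.le]
    ring
  refine (norm_exp_sub_exp_le _ _).trans ?_
  rw [hn]
  have h4 : max (EE δ h v).re (E2 δ h v).re ≤ -m / δ := by
    refine max_le ?_ ?_
    · rw [mlow_re_EE]
      exact div_le_div_of_nonneg_right (neg_le_neg h1) hδ.le
    · rw [mlow_re_E2]
      exact div_le_div_of_nonneg_right (neg_le_neg h2) hδ.le
  exact mul_le_mul (mul_le_mul_of_nonneg_left h3 (by positivity)) (Real.exp_le_exp.mpr h4)
    (Real.exp_pos _).le (mul_nonneg (by positivity) ((norm_nonneg _).trans h3))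

private theorem mlow_piece {f : ℝ → ℂ} {c δ C S : ℝ} (hc : 0 < c) (hδ : 0 < δ) (hC : 0 ≤ C)
    (hf : ∀ t, 0 ≤ t → t ≤ S → ‖f t‖ ≤ C * (t ^ 3 * Real.exp (-(c * t ^ 2) / δ))) :
    ‖∫ t in Ioc 0 S, f t‖ ≤ C * (δ ^ 2 / (2 * c ^ 2)) := by
  obtain ⟨hi, he⟩ := int_t3 hc hδ
  have hi' : IntegrableOn (fun t : ℝ => C * (t ^ 3 * Real.exp (-(c * t ^ 2) / δ))) (Ioi 0) :=
    hi.const_mul C
  have hsub : Ioc 0 S ⊆ Ioi (0 : ℝ) := fun t ht => ht.1
  calc ‖∫ t in Ioc 0 S, f t‖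
      ≤ ∫ t in Ioc 0 S, C * (t ^ 3 * Real.exp (-(c * t ^ 2) / δ)) := by
        refine norm_integral_le_of_norm_le (hi'.mono_set hsub) ?_
        exact (ae_restrict_iff' measurableSet_Ioc).mpr
          (Filter.Eventually.of_forall fun t ht => hf t ht.1.le ht.2)
    _ ≤ ∫ t in Ioi (0 : ℝ), C * (t ^ 3 * Real.exp (-(c * t ^ 2) / δ)) := by
        refine setIntegral_mono_set hi' ?_ (Filter.Eventually.of_forall hsub)
        refine (ae_restrict_iff' measurableSet_Ioi).mpr (Filter.Eventually.of_forall fun t ht => ?_)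
        have ht0 : (0 : ℝ) < t := ht
        show 0 ≤ C * (t ^ 3 * Real.exp (-(c * t ^ 2) / δ))
        positivity
    _ = C * (δ ^ 2 / (2 * c ^ 2)) := by rw [integral_const_mul, he]

private theorem mlow_tail {f : ℝ → ℂ} {g : ℝ → ℝ} {a M : ℝ} (hg : IntegrableOn g (Ioi a))
    (hM : ∫ t in Ioi a, g t ≤ M) (hf : ∀ t, a < t → ‖f t‖ ≤ g t) :
    ‖∫ t in Ioi a, f t‖ ≤ M := by
  refine le_trans (norm_integral_le_of_norm_le hg ?_) hM
  exact (ae_restrict_iff' measurableSet_Ioi).mpr (Filter.Eventually.of_forall fun t ht => hf t ht)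

private theorem mlow_shift (F : ℝ → ℂ) (τ : ℝ) :
    ∫ s in Ioi (0 : ℝ), F (s + -τ) = ∫ t in Ioi (-τ), F t := by
  have h := (measurePreserving_add_right (volume : Measure ℝ) (-τ)).setIntegral_preimage_emb
    (measurableEmbedding_addRight _) F (Ioi (-τ))
  rw [← h]
  congr 2
  ext s
  simp

/-- the algebra of the pieces -/
private theorem mlow_alg {q S0 A B C D E S M a b c d' e s : ℝ} (hq : 0 ≤ q)
    (h0 : M ≤ S0 + (A + B + C + D + E) * q + S) (hA : A ≤ a) (hB : B ≤ b) (hC : C ≤ c)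
    (hD : D ≤ d') (hE : E ≤ e) (hS : S ≤ s) : M - ((a + b + c + d' + e) * q + s) ≤ S0 := by
  have h1 : (A + B + C + D + E) * q ≤ (a + b + c + d' + e) * q :=
    mul_le_mul_of_nonneg_right (by linarith) hq
  linarith

theorem gen_low {δ : ℝ} {h d : ℂ} {τ T T' cp cm B l b σ K2 K3 : ℝ}
    (H : Hyp δ h d τ T T' cp cm B l b σ K2 K3) :
    Real.sqrt (2 * Real.pi * δ / ‖1 - h‖) - lowErr δ ‖h‖ ‖d‖ τ T T' cp cm B l b σ K3 ≤
      ‖JJ δ h (-(τ * d)) d (fun _ => 1)‖ := by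
  have hδ := H.δpos
  have hτ := H.τpos
  have hT := H.Tpos
  have hcp := H.cppos
  have hcm := H.cmpos
  have hl := H.lpos
  have hσ : 0 < σ := hδ.trans H.σgt
  have hq : 0 ≤ ‖d‖ := norm_nonneg d
  obtain ⟨F, hF⟩ : ∃ F : ℝ → ℂ, F = fun t : ℝ => cexp (EE δ h (t * d)) := ⟨_, rfl⟩
  obtain ⟨K, hK⟩ : ∃ K : ℝ → ℂ, K = fun t : ℝ => cexp (E2 δ h (t * d)) := ⟨_, rfl⟩
  have hFc : Continuous F := by
    rw [hF]
    unfold EE
    fun_prop
  have hKi : Integrable K := by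
    rw [hK]
    refine gauss_integrable hδ hcp fun t => le_trans ?_ (H.quad t)
    exact mul_le_mul_of_nonneg_right (le_max_left _ _) (sq_nonneg t)
  have hKn : ‖(∫ t : ℝ, K t) * d‖ = Real.sqrt (2 * Real.pi * δ / ‖1 - h‖) := by
    rw [hK]
    refine gauss_norm hδ hcp fun t => le_trans ?_ (H.quad t)
    exact mul_le_mul_of_nonneg_right (le_max_left _ _) (sq_nonneg t)
  -- bounds of the integrands
  have hK1 : ∀ t : ℝ, ‖K t‖ ≤ Real.exp (-(cp * t ^ 2) / δ) := by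
    intro t
    rw [hK]
    show ‖cexp (E2 δ h (t * d))‖ ≤ _
    rw [norm_E2]
    refine Real.exp_le_exp.mpr (div_le_div_of_nonneg_right (neg_le_neg ?_) hδ.le)
    exact le_trans (mul_le_mul_of_nonneg_right (le_max_left _ _) (sq_nonneg t)) (H.quad t)
  have hK2 : ∀ t : ℝ, ‖K t‖ ≤ Real.exp (-(cm * t ^ 2) / δ) := by
    intro t
    rw [hK]
    show ‖cexp (E2 δ h (t * d))‖ ≤ _
    rw [norm_E2]
    refine Real.exp_le_exp.mpr (div_le_div_of_nonneg_right (neg_le_neg ?_) hδ.le)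
    exact le_trans (mul_le_mul_of_nonneg_right (le_max_right _ _) (sq_nonneg t)) (H.quad t)
  have hF1 : ∀ t : ℝ, T < t → ‖F t‖ ≤ Real.exp (-(B + l * max (t - T') 0) / δ) := by
    intro t ht
    rw [hF]
    show ‖cexp (EE δ h (t * d))‖ ≤ _
    rw [norm_EE]
    exact Real.exp_le_exp.mpr (div_le_div_of_nonneg_right (neg_le_neg (H.far t ht.le)) hδ.le)
  -- integrability
  obtain ⟨hfi, hfe⟩ := int_far0 (B := B) hl hδ H.TT
  have hFi1 : IntegrableOn F (Ioi T) := by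
    refine Integrable.mono' hfi hFc.aestronglyMeasurable ?_
    exact (ae_restrict_iff' measurableSet_Ioi).mpr (Filter.Eventually.of_forall hF1)
  have hFi2 : IntegrableOn F (Ioc (-τ) 0) := hFc.integrableOn_Ioc
  have hFi3 : IntegrableOn F (Ioc 0 T) := hFc.integrableOn_Ioc
  have hu1 : Ioc 0 T ∪ Ioi T = Ioi (0 : ℝ) := Ioc_union_Ioi_eq_Ioi hT.le
  have hu2 : Ioc (-τ) 0 ∪ Ioi (0 : ℝ) = Ioi (-τ) := Ioc_union_Ioi_eq_Ioi (by linarith)
  have hd1 : Disjoint (Ioc 0 T) (Ioi T) := Ioc_disjoint_Ioi le_rfl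
  have hd2 : Disjoint (Ioc (-τ) 0) (Ioi (0 : ℝ)) := Ioc_disjoint_Ioi le_rfl
  have hFi4 : IntegrableOn F (Ioi 0) := by
    rw [← hu1]
    exact hFi3.union hFi1
  have hFs : ∫ t in Ioi (-τ), F t =
      (∫ t in Ioc (-τ) 0, F t) + ((∫ t in Ioc 0 T, F t) + ∫ t in Ioi T, F t) := by
    rw [← hu2, setIntegral_union hd2 measurableSet_Ioi hFi2 hFi4, ← hu1,
      setIntegral_union hd1 measurableSet_Ioi hFi3 hFi1]
  have hKs : ∫ t : ℝ, K t = (∫ t in Iic (-τ), K t) +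
      ((∫ t in Ioc (-τ) 0, K t) + ((∫ t in Ioc 0 T, K t) + ∫ t in Ioi T, K t)) := by
    rw [← intervalIntegral.integral_Iic_add_Ioi (b := -τ) hKi.integrableOn hKi.integrableOn,
      ← hu2, setIntegral_union hd2 measurableSet_Ioi hKi.integrableOn hKi.integrableOn, ← hu1,
      setIntegral_union hd1 measurableSet_Ioi hKi.integrableOn hKi.integrableOn]
  -- the pieces
  have hA : ‖∫ t in Ioc (-τ) 0, (F t - K t)‖ ≤
      ‖h‖ / δ * (K3 * ‖d‖ ^ 3 / 6) * (δ ^ 2 / (2 * cm ^ 2)) := by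
    have e1 : ∫ t in Ioc (-τ) 0, (F t - K t) = ∫ t in Ioc 0 τ, (F (-t) - K (-t)) := by
      rw [← intervalIntegral.integral_of_le (by linarith), ← intervalIntegral.integral_of_le hτ.le]
      have h := intervalIntegral.integral_comp_neg (fun t => F t - K t) (a := 0) (b := τ)
      rw [neg_zero] at h
      exact h.symm
    rw [e1]
    refine mlow_piece hcm hδ (by have := H.K3pos; positivity) fun t h0 h1 => ?_
    rw [hF, hK]
    have e2 : ((-t : ℝ) : ℂ) * d = -(t * d) := by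
      push_cast
      ring
    show ‖cexp (EE δ h ((-t : ℝ) * d)) - cexp (E2 δ h ((-t : ℝ) * d))‖ ≤ _
    rw [e2]
    have h3 : cm * t ^ 2 ≤ ((1 - h) * (-(t * d)) ^ 2 / 2).im := by
      rw [neg_sq]
      exact le_trans (mul_le_mul_of_nonneg_right (le_max_right _ _) (sq_nonneg t)) (H.quad t)
    refine (mlow_diff hδ (H.right t h0 h1) h3 (H.k3 t h0 h1)).trans (le_of_eq ?_)
    ring
  have hB : ‖∫ t in Ioc 0 T, (F t - K t)‖ ≤
      ‖h‖ / δ * (‖d‖ ^ 3 / 6) * (δ ^ 2 / (2 * cp ^ 2)) := by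
    refine mlow_piece hcp hδ (by positivity) fun t h0 h1 => ?_
    rw [hF, hK]
    show ‖cexp (EE δ h (t * d)) - cexp (E2 δ h (t * d))‖ ≤ _
    have h3 : cp * t ^ 2 ≤ ((1 - h) * (t * d) ^ 2 / 2).im :=
      le_trans (mul_le_mul_of_nonneg_right (le_max_left _ _) (sq_nonneg t)) (H.quad t)
    have h4 : ((t : ℂ) * d).re ≤ 0 := by
      rw [re_ofReal_mul]
      exact mul_nonpos_of_nonneg_of_nonpos h0 H.d_re
    have h5 : ‖cexp ((t : ℂ) * d) - 1 - t * d - (t * d) ^ 2 / 2‖ ≤ (t * ‖d‖) ^ 3 / 6 := by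
      have h6 := taylor3_left h4
      rwa [norm_mul, Complex.norm_real, Real.norm_of_nonneg h0] at h6
    refine (mlow_diff hδ (H.left t h0 h1) h3 h5).trans (le_of_eq ?_)
    ring
  have hC : ‖∫ t in Ioi T, F t‖ ≤ ((T' - T) + δ / l) * Real.exp (-B / δ) :=
    mlow_tail hfi hfe.le hF1
  have hD : ‖∫ t in Ioi T, K t‖ ≤ δ / (cp * T) * Real.exp (-(cp * T ^ 2) / δ) :=
    mlow_tail (int_tail hcp hδ hT).1 (int_tail hcp hδ hT).2 fun t _ => hK1 t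
  have hE : ‖∫ t in Iic (-τ), K t‖ ≤ δ / (cm * τ) * Real.exp (-(cm * τ ^ 2) / δ) := by
    rw [← integral_comp_neg_Ioi]
    refine mlow_tail (int_tail hcm hδ hτ).1 (int_tail hcm hδ hτ).2 fun t _ => ?_
    have := hK2 (-t)
    rwa [neg_sq] at this
  have hS : ‖ray (fun v => (1 : ℂ) * cexp (EE δ h v)) (-(τ * d)) 1‖ ≤
      δ / σ * Real.exp (-b / δ) := by
    unfold ray
    rw [mul_one]
    refine mlow_tail (int_lin hσ hδ).1 (int_lin hσ hδ).2.le fun u hu => ?_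
    show ‖(1 : ℂ) * cexp (EE δ h (-(τ * d) + u * 1))‖ ≤ _
    rw [one_mul, mul_one, norm_EE]
    exact Real.exp_le_exp.mpr (div_le_div_of_nonneg_right (neg_le_neg (H.side u hu.le)) hδ.le)
  -- the decomposition
  have hR : ray (fun v => (1 : ℂ) * cexp (EE δ h v)) (-(τ * d)) d =
      (∫ t in Ioi (-τ), F t) * d := by
    unfold ray
    rw [← mlow_shift F τ]
    congr 2
    funext s
    rw [hF]
    show (1 : ℂ) * cexp (EE δ h (-(τ * d) + s * d)) = cexp (EE δ h ((s + -τ : ℝ) * d))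
    rw [one_mul]
    congr 2
    push_cast
    ring
  have hFK1 : ∫ t in Ioc (-τ) 0, (F t - K t) =
      (∫ t in Ioc (-τ) 0, F t) - ∫ t in Ioc (-τ) 0, K t :=
    integral_sub hFi2 hKi.integrableOn
  have hFK2 : ∫ t in Ioc 0 T, (F t - K t) = (∫ t in Ioc 0 T, F t) - ∫ t in Ioc 0 T, K t :=
    integral_sub hFi3 hKi.integrableOn
  obtain ⟨A, hA'⟩ : ∃ A : ℂ, A = ∫ t in Ioc (-τ) 0, (F t - K t) := ⟨_, rfl⟩
  obtain ⟨B', hB'⟩ : ∃ B' : ℂ, B' = ∫ t in Ioc 0 T, (F t - K t) := ⟨_, rfl⟩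
  obtain ⟨C, hC'⟩ : ∃ C : ℂ, C = ∫ t in Ioi T, F t := ⟨_, rfl⟩
  obtain ⟨D, hD'⟩ : ∃ D : ℂ, D = ∫ t in Ioi T, K t := ⟨_, rfl⟩
  obtain ⟨E, hE'⟩ : ∃ E : ℂ, E = ∫ t in Iic (-τ), K t := ⟨_, rfl⟩
  obtain ⟨S, hS'⟩ : ∃ S : ℂ, S = ray (fun v => (1 : ℂ) * cexp (EE δ h v)) (-(τ * d)) 1 :=
    ⟨_, rfl⟩
  rw [← hA'] at hA hFK1
  rw [← hB'] at hB hFK2
  rw [← hC'] at hC hFs
  rw [← hD'] at hD hKs
  rw [← hE'] at hE hKs
  rw [← hS'] at hS
  have hJ : JJ δ h (-(τ * d)) d (fun _ => 1) = (∫ t in Ioi (-τ), F t) * d - S := by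
    unfold JJ
    rw [hR, ← hS']
  have hmain : (∫ t : ℝ, K t) * d = JJ δ h (-(τ * d)) d (fun _ => 1) +
      (-A + -B' + -C + D + E) * d + S := by
    rw [hJ, hFs, hKs, hFK1, hFK2]
    ring
  have hN : Real.sqrt (2 * Real.pi * δ / ‖1 - h‖) ≤ ‖JJ δ h (-(τ * d)) d (fun _ => 1)‖ +
      (‖A‖ + ‖B'‖ + ‖C‖ + ‖D‖ + ‖E‖) * ‖d‖ + ‖S‖ := by
    rw [← hKn, hmain]
    refine (norm_add₃_le).trans ?_
    have h5 : ‖-A + -B' + -C + D + E‖ ≤ ‖A‖ + ‖B'‖ + ‖C‖ + ‖D‖ + ‖E‖ := by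
      refine (norm_add_le _ _).trans (add_le_add_left ?_ _)
      refine (norm_add_le _ _).trans (add_le_add_left ?_ _)
      refine (norm_add_le _ _).trans ?_
      rw [norm_neg C]
      refine add_le_add_left ?_ _
      refine (norm_add_le _ _).trans ?_
      rw [norm_neg, norm_neg]
    have h6 : ‖(-A + -B' + -C + D + E) * d‖ ≤ (‖A‖ + ‖B'‖ + ‖C‖ + ‖D‖ + ‖E‖) * ‖d‖ := by
      rw [norm_mul]
      exact mul_le_mul_of_nonneg_right h5 hq
    linarith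
  have hfin := mlow_alg hq hN hA hB hC hD hE hS
  refine le_trans (le_of_eq ?_) hfin
  unfold lowErr
  field_simp
  ring

end SokalFU
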