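import Pool.Agent.Lib_MP_af4de1_fu.MGen
import Pool.Agent.Lib_MP_af4de1_fu.MEnd
import Pool.Agent.Lib_MP_af4de1_fu.MElem
import Pool.Agent.Lib_MP_af4de1_fu.MInteg

/-!
# The identity and the upper bound of `∫ v e^EE` [FU-M12]

`(e^EE)' = (i/δ)((1-h)v - h(e^v-1-v)) e^EE`; `ray_tendsto` on both rays with `f = (e^EE)'`, `P = e^EE`, `P → 0` at both ends (from `far`, `side`), so
`JJ (w = (1-h)v - h(e^v-1-v)) = 0`.  The bound: `taylor2_left` (`t ≥ 0`), `k2` (`-τ ≤ t ≤ 0`), `taylor2_right` on the horizontal ray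
(`‖v‖ ≤ τ q + u`, `Re v = τ |Re d| + u`), `int_t2`, `int_far2`, `int_side`.
-/

set_option autoImplicit false

namespace SokalFU

open Complex MeasureTheory Set Filter Topology

/-! ### General lemmas -/

private theorem up_tend {A c δ : ℝ} (hc : 0 < c) (hδ : 0 < δ) :
    Tendsto (fun x : ℝ => Real.exp (-(A + c * x) / δ)) atTop (𝓝 0) := by
  apply Real.tendsto_exp_atBot.comp
  have h1 : (fun x : ℝ => -(A + c * x) / δ) = fun x : ℝ => (-(c / δ)) * x + (-(A / δ)) := by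
    funext x
    ring
  rw [h1]
  apply tendsto_atBot_add_const_right
  exact tendsto_id.const_mul_atTop_of_neg (by
    have : 0 < c / δ := by positivity
    linarith)

private theorem up_ray_lin {F1 F2 : ℂ → ℂ} {p D : ℂ} (a b c : ℂ)
    (h1 : IntegrableOn (fun s : ℝ => F1 (p + s * D)) (Ioi 0))
    (h2 : IntegrableOn (fun s : ℝ => F2 (p + s * D)) (Ioi 0)) :
    ray (fun v => c * (a * F1 v - b * F2 v)) p D = c * (a * ray F1 p D - b * ray F2 p D) := by
  unfold ray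
  have e : (∫ s in Ioi (0 : ℝ), c * (a * F1 (p + s * D) - b * F2 (p + s * D))) =
      c * (a * (∫ s in Ioi (0 : ℝ), F1 (p + s * D)) - b * ∫ s in Ioi (0 : ℝ), F2 (p + s * D)) := by
    rw [integral_const_mul, integral_sub (h1.const_mul a) (h2.const_mul b), integral_const_mul,
      integral_const_mul]
  rw [e]
  ring

private theorem up_norm_ray {f : ℂ → ℂ} {p D : ℂ} :
    ‖ray f p D‖ ≤ (∫ s in Ioi (0 : ℝ), ‖f (p + s * D)‖) * ‖D‖ := by
  unfold ray
  rw [norm_mul]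
  exact mul_le_mul_of_nonneg_right (norm_integral_le_integral_norm _) (norm_nonneg _)

private theorem up_set_le {f g : ℝ → ℝ} {s t : Set ℝ} (hs : MeasurableSet s) (ht : MeasurableSet t)
    (hst : s ⊆ t) (hfg : ∀ x ∈ s, f x ≤ g x) (hf : IntegrableOn f s) (hg : IntegrableOn g t)
    (hg0 : ∀ x ∈ t, 0 ≤ g x) : ∫ x in s, f x ≤ ∫ x in t, g x := by
  calc ∫ x in s, f x ≤ ∫ x in s, g x := setIntegral_mono_on hf (hg.mono_set hst) hs hfg
    _ ≤ ∫ x in t, g x :=
        setIntegral_mono_set hg ((ae_restrict_iff' ht).2 (Eventually.of_forall hg0))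
          hst.eventuallyLE

private theorem up_shift {E : Type*} [NormedAddCommGroup E] [NormedSpace ℝ E] (f : ℝ → E) (c : ℝ)
    (hf : IntegrableOn f (Ioi (-c))) : IntegrableOn (fun s => f (s - c)) (Ioi 0) ∧
      ∫ s in Ioi (0 : ℝ), f (s - c) = ∫ t in Ioi (-c), f t := by
  have hmp := measurePreserving_add_right (volume : Measure ℝ) (-c)
  have hme := measurableEmbedding_addRight (-c)
  have hpre : (fun x : ℝ => x + -c) ⁻¹' (Ioi (-c)) = Ioi 0 := by
    ext x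
    simp
  constructor
  · have h := (hmp.integrableOn_comp_preimage hme (f := f) (s := Ioi (-c))).2 hf
    rw [hpre] at h
    simpa [Function.comp_def, sub_eq_add_neg] using h
  · have h := hmp.setIntegral_preimage_emb hme f (Ioi (-c))
    rw [hpre] at h
    simpa [sub_eq_add_neg] using h

/-! ### Bounds of the exponential factor -/

section

variable {δ : ℝ} {h d : ℂ} {τ T T' cp cm B l b σ K2 K3 : ℝ}

private theorem up_exp (hδ : 0 < δ) {v : ℂ} {x : ℝ} (hx : x ≤ ff h v) :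
    ‖cexp (EE δ h v)‖ ≤ Real.exp (-x / δ) := by
  rw [norm_EE]
  apply Real.exp_le_exp.2
  apply div_le_div_of_nonneg_right _ hδ.le
  linarith

private theorem up_cont_EE : Continuous (fun v : ℂ => cexp (EE δ h v)) := by
  unfold EE
  fun_prop

private theorem up_re_line (H : Hyp δ h d τ T T' cp cm B l b σ K2 K3) {t : ℝ} (ht : 0 ≤ t) :
    ((t : ℂ) * d).re ≤ 0 := by
  rw [re_ofReal_mul]
  exact mul_nonpos_of_nonneg_of_nonpos ht H.d_re

private theorem up_norm_line (t : ℝ) : ‖(t : ℂ) * d‖ = |t| * ‖d‖ := by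
  rw [norm_mul, Complex.norm_real, Real.norm_eq_abs]

private theorem up_pt (s : ℝ) : -((τ : ℂ) * d) + (s : ℂ) * d = ((s - τ : ℝ) : ℂ) * d := by
  push_cast
  ring

/-- weights which grow at most quadratically on the main line and as `taylor2_right` on the side -/
private structure UpW (δ : ℝ) (d : ℂ) (τ T : ℝ) (w : ℂ → ℂ) (A A' : ℝ) : Prop where
  A0 : 0 ≤ A
  A0' : 0 ≤ A'
  cont : Continuous w
  line : ∀ t : ℝ, T ≤ t → ‖w (t * d)‖ ≤ A * (1 + t ^ 2)
  side : ∀ u : ℝ, 0 ≤ u → ‖w (-(τ * d) + (u : ℂ) * 1)‖ ≤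
    A' * (1 + (τ * ‖d‖ + u) ^ 2 / 2 * Real.exp (τ * |d.re| + u))

private theorem up_int_line (H : Hyp δ h d τ T T' cp cm B l b σ K2 K3) {w : ℂ → ℂ} {A A' : ℝ}
    (hw : UpW δ d τ T w A A') :
    IntegrableOn (fun t : ℝ => w (t * d) * cexp (EE δ h (t * d))) (Ioi (-τ)) := by
  have hcont : Continuous (fun t : ℝ => w (t * d) * cexp (EE δ h (t * d))) := by
    have h1 : Continuous (fun t : ℝ => (t : ℂ) * d) := by fun_prop
    exact (hw.cont.comp h1).mul ((up_cont_EE (δ := δ) (h := h)).comp h1)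
  have hτT : -τ ≤ T := by linarith [H.τpos, H.Tpos]
  rw [← Ioc_union_Ioi_eq_Ioi hτT]
  refine IntegrableOn.union (hcont.integrableOn_Ioc) ?_
  have hi0 := (int_far0 (B := B) (δ := δ) H.lpos H.δpos H.TT).1
  have hi2 := (int_far2 (B := B) (δ := δ) H.lpos H.δpos H.TT).1
  have hi : IntegrableOn (fun t : ℝ => A * (Real.exp (-(B + l * max (t - T') 0) / δ) +
      t ^ 2 * Real.exp (-(B + l * max (t - T') 0) / δ))) (Ioi T) := (hi0.add hi2).const_mul A
  refine Integrable.mono' hi hcont.aestronglyMeasurable.restrict ?_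
  refine (ae_restrict_iff' measurableSet_Ioi).2 (Eventually.of_forall fun t ht => ?_)
  have ht' : T ≤ t := le_of_lt ht
  rw [norm_mul]
  calc ‖w (t * d)‖ * ‖cexp (EE δ h (t * d))‖
      ≤ (A * (1 + t ^ 2)) * Real.exp (-(B + l * max (t - T') 0) / δ) :=
        mul_le_mul (hw.line t ht') (up_exp H.δpos (H.far t ht')) (norm_nonneg _)
          (mul_nonneg hw.A0 (by positivity))
    _ = _ := by ring

private theorem up_int_side (H : Hyp δ h d τ T T' cp cm B l b σ K2 K3) {w : ℂ → ℂ} {A A' : ℝ}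
    (hw : UpW δ d τ T w A A') :
    IntegrableOn (fun u : ℝ => w (-(τ * d) + (u : ℂ) * 1) *
      cexp (EE δ h (-(τ * d) + (u : ℂ) * 1))) (Ioi 0) := by
  have hcont : Continuous (fun u : ℝ => w (-(τ * d) + (u : ℂ) * 1) *
      cexp (EE δ h (-(τ * d) + (u : ℂ) * 1))) := by
    have h1 : Continuous (fun u : ℝ => -((τ : ℂ) * d) + (u : ℂ) * 1) := by fun_prop
    exact (hw.cont.comp h1).mul ((up_cont_EE (δ := δ) (h := h)).comp h1)
  have hσ : 0 < σ := H.δpos.trans H.σgt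
  have hi0 := (int_lin (b := b) hσ H.δpos).1
  have hi2 := (int_side (b := b) (v := τ * ‖d‖) (r := τ * |d.re|) H.δpos H.σgt).1
  have hi : IntegrableOn (fun u : ℝ => A' * (Real.exp (-(b + σ * u) / δ) +
      (τ * ‖d‖ + u) ^ 2 / 2 * Real.exp (τ * |d.re| + u) * Real.exp (-(b + σ * u) / δ))) (Ioi 0) :=
    (hi0.add hi2).const_mul A'
  refine Integrable.mono' hi hcont.aestronglyMeasurable.restrict ?_
  refine (ae_restrict_iff' measurableSet_Ioi).2 (Eventually.of_forall fun u hu => ?_)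
  have hu' : 0 ≤ u := le_of_lt hu
  rw [norm_mul]
  have hs : b + σ * u ≤ ff h (-(τ * d) + (u : ℂ) * 1) := by
    rw [mul_one]
    exact H.side u hu'
  calc ‖w (-(τ * d) + (u : ℂ) * 1)‖ * ‖cexp (EE δ h (-(τ * d) + (u : ℂ) * 1))‖
      ≤ (A' * (1 + (τ * ‖d‖ + u) ^ 2 / 2 * Real.exp (τ * |d.re| + u))) *
          Real.exp (-(b + σ * u) / δ) :=
        mul_le_mul (hw.side u hu') (up_exp H.δpos hs) (norm_nonneg _)
          (mul_nonneg hw.A0' (by positivity))
    _ = _ := by ring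

private theorem up_int_ray (H : Hyp δ h d τ T T' cp cm B l b σ K2 K3) {w : ℂ → ℂ} {A A' : ℝ}
    (hw : UpW δ d τ T w A A') :
    IntegrableOn (fun s : ℝ => w (-(τ * d) + (s : ℂ) * d) *
      cexp (EE δ h (-(τ * d) + (s : ℂ) * d))) (Ioi 0) := by
  have h1 := (up_shift _ τ (up_int_line H hw)).1
  refine h1.congr_fun (fun s _ => ?_) measurableSet_Ioi
  show w (((s - τ : ℝ) : ℂ) * d) * cexp (EE δ h (((s - τ : ℝ) : ℂ) * d)) = _
  rw [← up_pt]

private theorem up_side_norm (H : Hyp δ h d τ T T' cp cm B l b σ K2 K3) {u : ℝ} (hu : 0 ≤ u) :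
    ‖-((τ : ℂ) * d) + (u : ℂ) * 1‖ ≤ τ * ‖d‖ + u ∧
      (-((τ : ℂ) * d) + (u : ℂ) * 1).re = τ * |d.re| + u := by
  constructor
  · refine (norm_add_le _ _).trans ?_
    rw [norm_neg, up_norm_line, abs_of_pos H.τpos, mul_one, Complex.norm_real, Real.norm_eq_abs,
      abs_of_nonneg hu]
  · rw [add_re, neg_re, re_ofReal_mul, mul_one, ofReal_re, abs_of_nonpos H.d_re]
    ring

private theorem up_w1 (H : Hyp δ h d τ T T' cp cm B l b σ K2 K3) :
    UpW δ d τ T (fun v => v) ‖d‖ 1 where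
  A0 := norm_nonneg _
  A0' := zero_le_one
  cont := continuous_id
  line t ht := by
    show ‖(t : ℂ) * d‖ ≤ _
    rw [up_norm_line, mul_comm]
    apply mul_le_mul_of_nonneg_left _ (norm_nonneg _)
    rw [← sq_abs]
    nlinarith [abs_nonneg t, sq_nonneg (|t| - 1)]
  side u hu := by
    obtain ⟨h1, h2⟩ := up_side_norm H hu
    refine h1.trans ?_
    have h3 : 0 ≤ τ * |d.re| + u := add_nonneg (mul_nonneg H.τpos.le (abs_nonneg _)) hu
    have h4 : 1 ≤ Real.exp (τ * |d.re| + u) := Real.one_le_exp h3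
    have h5 : (τ * ‖d‖ + u) ^ 2 / 2 ≤ (τ * ‖d‖ + u) ^ 2 / 2 * Real.exp (τ * |d.re| + u) :=
      le_mul_of_one_le_right (by positivity) h4
    nlinarith [sq_nonneg (τ * ‖d‖ + u - 1)]

private theorem up_w2_line (H : Hyp δ h d τ T T' cp cm B l b σ K2 K3) {t : ℝ} (ht : 0 ≤ t) :
    ‖cexp ((t : ℂ) * d) - 1 - (t : ℂ) * d‖ ≤ t ^ 2 * ‖d‖ ^ 2 / 2 := by
  refine (taylor2_left (up_re_line H ht)).trans (le_of_eq ?_)
  rw [up_norm_line, abs_of_nonneg ht]
  ring

private theorem up_w2_side (H : Hyp δ h d τ T T' cp cm B l b σ K2 K3) {u : ℝ} (hu : 0 ≤ u) :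
    ‖cexp (-((τ : ℂ) * d) + (u : ℂ) * 1) - 1 - (-((τ : ℂ) * d) + (u : ℂ) * 1)‖ ≤
      (τ * ‖d‖ + u) ^ 2 / 2 * Real.exp (τ * |d.re| + u) := by
  obtain ⟨h1, h2⟩ := up_side_norm H hu
  have h3 : 0 ≤ τ * |d.re| + u := add_nonneg (mul_nonneg H.τpos.le (abs_nonneg _)) hu
  have h4 := taylor2_right (v := -((τ : ℂ) * d) + (u : ℂ) * 1) (by rw [h2]; exact h3)
  rw [h2] at h4
  refine h4.trans ?_
  apply mul_le_mul_of_nonneg_right _ (Real.exp_pos _).le
  have h5 := pow_le_pow_left₀ (norm_nonneg _) h1 2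
  linarith

private theorem up_w2 (H : Hyp δ h d τ T T' cp cm B l b σ K2 K3) :
    UpW δ d τ T (fun v => cexp v - 1 - v) (‖d‖ ^ 2 / 2) 1 where
  A0 := by positivity
  A0' := zero_le_one
  cont := by fun_prop
  line t ht := by
    refine (up_w2_line H (H.Tpos.le.trans ht)).trans ?_
    have h1 : 0 ≤ ‖d‖ ^ 2 / 2 := by positivity
    nlinarith
  side u hu := by
    refine (up_w2_side H hu).trans ?_
    linarith

theorem gen_ident {δ : ℝ} {h d : ℂ} {τ T T' cp cm B l b σ K2 K3 : ℝ}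
    (H : Hyp δ h d τ T T' cp cm B l b σ K2 K3) :
    (1 - h) * JJ δ h (-(τ * d)) d (fun v => v) =
      h * JJ δ h (-(τ * d)) d (fun v => cexp v - 1 - v) := by
  have hδ := H.δpos
  have hδc : (δ : ℂ) ≠ 0 := by exact_mod_cast hδ.ne'
  set F1 : ℂ → ℂ := fun v => v * cexp (EE δ h v) with hF1
  set F2 : ℂ → ℂ := fun v => (cexp v - 1 - v) * cexp (EE δ h v) with hF2
  set P : ℂ → ℂ := fun v => cexp (EE δ h v) with hP
  set f : ℂ → ℂ := fun v => I / δ * ((1 - h) * F1 v - h * F2 v) with hf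
  have hder : ∀ z, HasDerivAt P (f z) z := by
    intro z
    have h1 : HasDerivAt (fun v : ℂ => EE δ h v) (I / δ * ((1 - h) * z - h * (cexp z - 1 - z))) z := by
      have h2 := ((((hasDerivAt_id z).pow 2).div_const 2).sub
        ((((Complex.hasDerivAt_exp z).sub_const 1).sub (hasDerivAt_id z)).const_mul h)).const_mul
          (I / (δ : ℂ))
      refine h2.congr_deriv ?_
      simp only [id]
      ring
    refine h1.cexp.congr_deriv ?_
    rw [hf, hF1, hF2]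
    ring
  have hcont : Continuous f := by
    rw [hf, hF1, hF2]
    have := up_cont_EE (δ := δ) (h := h)
    fun_prop
  have hi1d : IntegrableOn (fun s : ℝ => F1 (-(τ * d) + s * d)) (Ioi 0) := up_int_ray H (up_w1 H)
  have hi2d : IntegrableOn (fun s : ℝ => F2 (-(τ * d) + s * d)) (Ioi 0) := up_int_ray H (up_w2 H)
  have hi11 : IntegrableOn (fun s : ℝ => F1 (-(τ * d) + s * 1)) (Ioi 0) := up_int_side H (up_w1 H)
  have hi21 : IntegrableOn (fun s : ℝ => F2 (-(τ * d) + s * 1)) (Ioi 0) := up_int_side H (up_w2 H)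
  have hid : IntegrableOn (fun s : ℝ => f (-(τ * d) + s * d)) (Ioi 0) :=
    ((hi1d.const_mul (1 - h)).sub (hi2d.const_mul h)).const_mul (I / δ)
  have hi1 : IntegrableOn (fun s : ℝ => f (-(τ * d) + s * 1)) (Ioi 0) :=
    ((hi11.const_mul (1 - h)).sub (hi21.const_mul h)).const_mul (I / δ)
  have ht1 := ray_tendsto hcont hder hid
  have ht2 := ray_tendsto hcont hder hi1
  have hz1 : Tendsto (fun T : ℝ => P (-(τ * d) + T * d)) atTop (𝓝 0) := by
    refine squeeze_zero_norm' ?_ (up_tend (A := B + l * (-(τ + T'))) H.lpos hδ)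
    filter_upwards [eventually_ge_atTop (T + τ)] with x hx
    show ‖cexp (EE δ h (-(τ * d) + x * d))‖ ≤ _
    rw [up_pt]
    have h1 := H.far (x - τ) (by linarith)
    have h2 : x - τ - T' ≤ max (x - τ - T') 0 := le_max_left _ _
    have h3 : l * (x - τ - T') ≤ l * max (x - τ - T') 0 := mul_le_mul_of_nonneg_left h2 H.lpos.le
    refine up_exp hδ (le_trans ?_ h1)
    linarith
  have hz2 : Tendsto (fun T : ℝ => P (-(τ * d) + T * 1)) atTop (𝓝 0) := by
    have hσ : 0 < σ := hδ.trans H.σgt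
    refine squeeze_zero_norm' ?_ (up_tend (A := b) hσ hδ)
    filter_upwards [eventually_ge_atTop 0] with x hx
    show ‖cexp (EE δ h (-(τ * d) + x * 1))‖ ≤ _
    rw [mul_one]
    exact up_exp hδ (H.side x hx)
  have e1 : P (-(τ * d)) + ray f (-(τ * d)) d = 0 := tendsto_nhds_unique ht1 hz1
  have e2 : P (-(τ * d)) + ray f (-(τ * d)) 1 = 0 := tendsto_nhds_unique ht2 hz2
  have e3 : ray f (-(τ * d)) d = ray f (-(τ * d)) 1 := by
    have := e1.trans e2.symm
    exact add_left_cancel this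
  rw [hf, up_ray_lin (1 - h) h (I / δ) hi1d hi2d, up_ray_lin (1 - h) h (I / δ) hi11 hi21] at e3
  have hne : I / (δ : ℂ) ≠ 0 := div_ne_zero I_ne_zero hδc
  have e4 := mul_left_cancel₀ hne e3
  unfold JJ
  show (1 - h) * (ray F1 (-(τ * d)) d - ray F1 (-(τ * d)) 1) =
    h * (ray F2 (-(τ * d)) d - ray F2 (-(τ * d)) 1)
  linear_combination e4

theorem gen_bound {δ : ℝ} {h d : ℂ} {τ T T' cp cm B l b σ K2 K3 : ℝ}
    (H : Hyp δ h d τ T T' cp cm B l b σ K2 K3) :
    ‖JJ δ h (-(τ * d)) d (fun v => cexp v - 1 - v)‖ ≤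
      upErr δ ‖d‖ |d.re| τ T T' cp cm B l b σ K2 := by
  have hδ := H.δpos
  set q : ℝ := ‖d‖ with hq
  have hq0 : 0 ≤ q := norm_nonneg _
  set G : ℝ → ℂ := fun t => (cexp ((t : ℂ) * d) - 1 - (t : ℂ) * d) * cexp (EE δ h ((t : ℂ) * d))
    with hG
  have hGc : Continuous G := by
    have h1 : Continuous (fun t : ℝ => (t : ℂ) * d) := by fun_prop
    have h2 := (up_cont_EE (δ := δ) (h := h)).comp h1
    have h3 : Continuous (fun t : ℝ => cexp ((t : ℂ) * d) - 1 - (t : ℂ) * d) := by fun_prop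
    exact h3.mul h2
  have hGi : IntegrableOn G (Ioi (-τ)) := up_int_line H (up_w2 H)
  -- the main line
  have hline : (∫ s in Ioi (0 : ℝ), ‖(cexp (-(τ * d) + (s : ℂ) * d) - 1 - (-(τ * d) + (s : ℂ) * d)) *
      cexp (EE δ h (-(τ * d) + (s : ℂ) * d))‖) = ∫ t in Ioi (-τ), ‖G t‖ := by
    rw [← (up_shift (fun t => ‖G t‖) τ hGi.norm).2]
    apply setIntegral_congr_fun measurableSet_Ioi
    intro s _
    show _ = ‖G (s - τ)‖
    rw [hG]
    show _ = ‖(cexp (((s - τ : ℝ) : ℂ) * d) - 1 - ((s - τ : ℝ) : ℂ) * d) *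
      cexp (EE δ h (((s - τ : ℝ) : ℂ) * d))‖
    rw [← up_pt]
  have hsplit : (∫ t in Ioi (-τ), ‖G t‖) = (∫ t in Ioc (-τ) 0, ‖G t‖) +
      ((∫ t in Ioc 0 T, ‖G t‖) + ∫ t in Ioi T, ‖G t‖) := by
    have h1 : Ioi (-τ) = Ioc (-τ) 0 ∪ Ioi 0 := (Ioc_union_Ioi_eq_Ioi (by linarith [H.τpos])).symm
    have h2 : Ioi (0 : ℝ) = Ioc 0 T ∪ Ioi T := (Ioc_union_Ioi_eq_Ioi H.Tpos.le).symm
    have hi0 : IntegrableOn (fun t => ‖G t‖) (Ioi (-τ)) := hGi.norm
    have hdj : ∀ x y : ℝ, Disjoint (Ioc x y) (Ioi y) := fun x y =>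
      Set.disjoint_left.2 fun z hz hz' => absurd hz.2 (not_le.2 hz')
    rw [h1, setIntegral_union (hdj (-τ) 0)
      measurableSet_Ioi (hi0.mono_set (by rw [h1]; exact subset_union_left))
      (hi0.mono_set (by rw [h1]; exact subset_union_right))]
    congr 1
    have hi1 : IntegrableOn (fun t => ‖G t‖) (Ioi 0) := hi0.mono_set (by rw [h1]; exact subset_union_right)
    rw [h2, setIntegral_union (hdj 0 T)
      measurableSet_Ioi (hi1.mono_set (by rw [h2]; exact subset_union_left))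
      (hi1.mono_set (by rw [h2]; exact subset_union_right))]
  -- piece 1: `-τ ≤ t ≤ 0`
  have hp1 : (∫ t in Ioc (-τ) 0, ‖G t‖) ≤
      K2 * q ^ 2 / 2 * (Real.sqrt Real.pi / 4 * (δ / cm * Real.sqrt (δ / cm))) := by
    have h1 : (∫ t in Ioc (-τ) 0, ‖G t‖) = ∫ t in Ioc 0 τ, ‖G (-t)‖ := by
      rw [← intervalIntegral.integral_of_le (by linarith [H.τpos] : -τ ≤ 0),
        ← intervalIntegral.integral_of_le H.τpos.le,
        intervalIntegral.integral_comp_neg (fun t => ‖G t‖), neg_zero]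
    obtain ⟨h2, h3⟩ := int_t2 (c := cm) H.cmpos hδ
    rw [h1, ← h3, ← integral_const_mul]
    refine up_set_le measurableSet_Ioc measurableSet_Ioi Ioc_subset_Ioi_self ?_ ?_
      (h2.const_mul _) ?_
    · intro t ht
      have ht0 : 0 ≤ t := ht.1.le
      rw [hG]
      show ‖(cexp (((-t : ℝ) : ℂ) * d) - 1 - ((-t : ℝ) : ℂ) * d) *
        cexp (EE δ h (((-t : ℝ) : ℂ) * d))‖ ≤ _
      have e : ((-t : ℝ) : ℂ) * d = -(t * d) := by
        push_cast
        ring
      rw [e, norm_mul]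
      calc ‖cexp (-(t * d)) - 1 - -(t * d)‖ * ‖cexp (EE δ h (-(t * d)))‖
          ≤ (K2 * (t * ‖d‖) ^ 2 / 2) * Real.exp (-(cm * t ^ 2) / δ) :=
            mul_le_mul (H.k2 t ht0 ht.2) (up_exp hδ (H.right t ht0 ht.2)) (norm_nonneg _)
              (div_nonneg (mul_nonneg H.K2pos (sq_nonneg _)) (by norm_num))
        _ = K2 * q ^ 2 / 2 * (t ^ 2 * Real.exp (-(cm * t ^ 2) / δ)) := by
            rw [hq]
            ring
    · exact ((hGc.comp continuous_neg).norm).integrableOn_Ioc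
    · intro t _
      have := H.K2pos
      positivity
  -- piece 2: `0 ≤ t ≤ T`
  have hp2 : (∫ t in Ioc 0 T, ‖G t‖) ≤
      q ^ 2 / 2 * (Real.sqrt Real.pi / 4 * (δ / cp * Real.sqrt (δ / cp))) := by
    obtain ⟨h2, h3⟩ := int_t2 (c := cp) H.cppos hδ
    rw [← h3, ← integral_const_mul]
    refine up_set_le measurableSet_Ioc measurableSet_Ioi Ioc_subset_Ioi_self ?_ ?_
      (h2.const_mul _) ?_
    · intro t ht
      have ht0 : 0 ≤ t := ht.1.le
      rw [hG]
      show ‖(cexp ((t : ℂ) * d) - 1 - (t : ℂ) * d) * cexp (EE δ h ((t : ℂ) * d))‖ ≤ _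
      rw [norm_mul]
      calc ‖cexp ((t : ℂ) * d) - 1 - (t : ℂ) * d‖ * ‖cexp (EE δ h ((t : ℂ) * d))‖
          ≤ (t ^ 2 * ‖d‖ ^ 2 / 2) * Real.exp (-(cp * t ^ 2) / δ) :=
            mul_le_mul (up_w2_line H ht0) (up_exp hδ (H.left t ht0 ht.2)) (norm_nonneg _)
              (by positivity)
        _ = q ^ 2 / 2 * (t ^ 2 * Real.exp (-(cp * t ^ 2) / δ)) := by
            rw [hq]
            ring
    · exact hGc.norm.integrableOn_Ioc
    · intro t _
      positivity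
  -- piece 3: `T ≤ t`
  have hp3 : (∫ t in Ioi T, ‖G t‖) ≤ q ^ 2 / 2 *
      (((T' ^ 3 - T ^ 3) / 3 + δ / l * (T' ^ 2 + 2 * T' * (δ / l) + 2 * (δ / l) ^ 2)) *
        Real.exp (-B / δ)) := by
    obtain ⟨h2, h3⟩ := int_far2 (B := B) H.lpos hδ H.TT
    rw [← h3, ← integral_const_mul]
    refine up_set_le measurableSet_Ioi measurableSet_Ioi subset_rfl ?_ ?_ (h2.const_mul _) ?_
    · intro t ht
      have ht' : T ≤ t := le_of_lt ht
      have ht0 : 0 ≤ t := H.Tpos.le.trans ht'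
      rw [hG]
      show ‖(cexp ((t : ℂ) * d) - 1 - (t : ℂ) * d) * cexp (EE δ h ((t : ℂ) * d))‖ ≤ _
      rw [norm_mul]
      calc ‖cexp ((t : ℂ) * d) - 1 - (t : ℂ) * d‖ * ‖cexp (EE δ h ((t : ℂ) * d))‖
          ≤ (t ^ 2 * ‖d‖ ^ 2 / 2) * Real.exp (-(B + l * max (t - T') 0) / δ) :=
            mul_le_mul (up_w2_line H ht0) (up_exp hδ (H.far t ht')) (norm_nonneg _)
              (by positivity)
        _ = q ^ 2 / 2 * (t ^ 2 * Real.exp (-(B + l * max (t - T') 0) / δ)) := by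
            rw [hq]
            ring
    · have hi0 : IntegrableOn (fun t => ‖G t‖) (Ioi (-τ)) := hGi.norm
      exact hi0.mono_set (Ioi_subset_Ioi (by linarith [H.τpos, H.Tpos]))
    · intro t _
      positivity
  -- piece 4: the horizontal ray
  have hp4 : (∫ s in Ioi (0 : ℝ), ‖(cexp (-(τ * d) + (s : ℂ) * 1) - 1 - (-(τ * d) + (s : ℂ) * 1)) *
      cexp (EE δ h (-(τ * d) + (s : ℂ) * 1))‖) ≤
      Real.exp (τ * |d.re| - b / δ) / 2 * ((τ * q) ^ 2 / (σ / δ - 1) +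
        2 * (τ * q) / (σ / δ - 1) ^ 2 + 2 / (σ / δ - 1) ^ 3) := by
    obtain ⟨h2, h3⟩ := int_side (b := b) (v := τ * q) (r := τ * |d.re|) hδ H.σgt
    rw [← h3]
    refine up_set_le measurableSet_Ioi measurableSet_Ioi subset_rfl ?_ ?_ h2 ?_
    · intro u hu
      have hu' : 0 ≤ u := le_of_lt hu
      have hs : b + σ * u ≤ ff h (-(τ * d) + (u : ℂ) * 1) := by
        rw [mul_one]
        exact H.side u hu'
      rw [norm_mul]
      exact mul_le_mul (up_w2_side H hu') (up_exp hδ hs) (norm_nonneg _) (by positivity)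
    · exact (up_int_side H (up_w2 H)).norm
    · intro t _
      positivity
  have hn1 := up_norm_ray (f := fun v => (cexp v - 1 - v) * cexp (EE δ h v)) (p := -(τ * d)) (D := d)
  have hn2 := up_norm_ray (f := fun v => (cexp v - 1 - v) * cexp (EE δ h v)) (p := -(τ * d)) (D := 1)
  simp only [norm_one, mul_one] at hn2
  simp only [mul_one] at hp4
  rw [hline, hsplit] at hn1
  unfold JJ
  refine (norm_sub_le _ _).trans ?_
  have hmain : ((∫ t in Ioc (-τ) 0, ‖G t‖) + ((∫ t in Ioc 0 T, ‖G t‖) + ∫ t in Ioi T, ‖G t‖)) * ‖d‖ ≤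
      (K2 * q ^ 2 / 2 * (Real.sqrt Real.pi / 4 * (δ / cm * Real.sqrt (δ / cm))) +
      (q ^ 2 / 2 * (Real.sqrt Real.pi / 4 * (δ / cp * Real.sqrt (δ / cp))) + q ^ 2 / 2 *
      (((T' ^ 3 - T ^ 3) / 3 + δ / l * (T' ^ 2 + 2 * T' * (δ / l) + 2 * (δ / l) ^ 2)) *
        Real.exp (-B / δ)))) * q :=
    mul_le_mul_of_nonneg_right (add_le_add hp1 (add_le_add hp2 hp3)) hq0
  refine (add_le_add (hn1.trans hmain) (hn2.trans hp4)).trans (le_of_eq ?_)
  unfold upErr
  ring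

end

theorem gen_up {δ : ℝ} {h d : ℂ} {τ T T' cp cm B l b σ K2 K3 : ℝ}
    (H : Hyp δ h d τ T T' cp cm B l b σ K2 K3) :
    ‖1 - h‖ * ‖JJ δ h (-(τ * d)) d (fun v => v)‖ ≤
      ‖h‖ * upErr δ ‖d‖ |d.re| τ T T' cp cm B l b σ K2 := by
  rw [← norm_mul, gen_ident H, norm_mul]
  exact mul_le_mul_of_nonneg_left (gen_bound H) (norm_nonneg _)

end SokalFU
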