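import Pool.Agent.Lib_MP_af4de1_fu.MLow
import Pool.Agent.Lib_MP_af4de1_fu.MUp

/-!
# Reduction to `δ = 9/80` [FU-M13]

All terms of `lowErr/√δ`, `upErr/√δ` are increasing in `δ` (`e^(-B/δ)/√δ` for `B/δ ≥ 1/2`).
-/

set_option autoImplicit false

namespace SokalFU

open Complex MeasureTheory Set

/-- `e^(-b/δ) ≤ e^(-b/δ₀) √(δ/δ₀)` for `δ ≤ δ₀ ≤ 2b`. -/
theorem exp_small {b δ δ0 : ℝ} (hδ : 0 < δ) (h1 : δ ≤ δ0) (h2 : δ0 ≤ 2 * b) :
    Real.exp (-b / δ) ≤ Real.exp (-b / δ0) * Real.sqrt (δ / δ0) := by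
  have hδ0 : 0 < δ0 := hδ.trans_le h1
  have hx : 0 < δ / δ0 := div_pos hδ hδ0
  have hs : Real.sqrt (δ / δ0) = Real.exp (Real.log (δ / δ0) / 2) := by
    rw [Real.sqrt_eq_rpow, Real.rpow_def_of_pos hx]
    congr 1
    ring
  rw [hs, ← Real.exp_add, Real.exp_le_exp]
  have h3 : 1 - (δ / δ0)⁻¹ ≤ Real.log (δ / δ0) := Real.one_sub_inv_le_log_of_pos hx
  rw [inv_div] at h3
  have h4 : 1 ≤ δ0 / δ := (one_le_div hδ).2 h1
  have h5 : 1 / 2 ≤ b / δ0 := by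
    rw [div_le_div_iff₀ (by norm_num) hδ0]
    linarith
  have h6 : -b / δ = -(b / δ0 * (δ0 / δ)) := by
    field_simp
  have h7 : -b / δ0 = -(b / δ0) := by ring
  rw [h6, h7]
  nlinarith

/-- the terms with a factor `δ` -/
private theorem lin_small {a c δ δ0 : ℝ} (hδ : 0 < δ) (h1 : δ ≤ δ0) (ha : 0 ≤ a) (hc : 0 ≤ c) :
    a * δ * Real.exp (-c / δ) ≤ a * δ0 * Real.exp (-c / δ0) * Real.sqrt (δ / δ0) := by
  have hδ0 : 0 < δ0 := hδ.trans_le h1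
  have hx : 0 ≤ δ / δ0 := (div_pos hδ hδ0).le
  have hx1 : δ / δ0 ≤ 1 := (div_le_one hδ0).2 h1
  have hs : δ / δ0 ≤ Real.sqrt (δ / δ0) := by
    apply Real.le_sqrt_of_sq_le
    nlinarith
  have h2 : Real.exp (-c / δ) ≤ Real.exp (-c / δ0) := by
    rw [Real.exp_le_exp, div_le_div_iff₀ hδ hδ0]
    nlinarith
  have h3 : a * δ = a * δ0 * (δ / δ0) := by field_simp
  rw [h3]
  calc a * δ0 * (δ / δ0) * Real.exp (-c / δ) ≤ a * δ0 * Real.sqrt (δ / δ0) * Real.exp (-c / δ0) := by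
        apply mul_le_mul _ h2 (Real.exp_nonneg _) (by positivity)
        exact mul_le_mul_of_nonneg_left hs (by positivity)
    _ = a * δ0 * Real.exp (-c / δ0) * Real.sqrt (δ / δ0) := by ring

private theorem coef_small {a a0 B δ δ0 : ℝ} (hδ : 0 < δ) (h1 : δ ≤ δ0) (hB : δ0 ≤ 2 * B)
    (ha : 0 ≤ a) (haa : a ≤ a0) :
    a * Real.exp (-B / δ) ≤ a0 * Real.exp (-B / δ0) * Real.sqrt (δ / δ0) := by
  rw [mul_assoc]
  exact mul_le_mul haa (exp_small hδ h1 hB) (Real.exp_nonneg _) (ha.trans haa)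

private theorem sqrt_split {δ δ0 c : ℝ} (hδ : 0 < δ) (hδ0 : 0 < δ0) (hc : 0 < c) :
    Real.sqrt (δ / c) = Real.sqrt (δ0 / c) * Real.sqrt (δ / δ0) := by
  rw [← Real.sqrt_mul (by positivity)]
  congr 1
  field_simp

theorem lowErr_mono {δ δ0 H q τ T T' cp cm B l b σ K3 : ℝ} (hδ : 0 < δ) (h1 : δ ≤ δ0)
    (hB : δ0 ≤ 2 * B) (hH : 0 ≤ H) (hq : 0 ≤ q) (hτ : 0 < τ) (hT : 0 < T) (hTT : T ≤ T')
    (hcp : 0 < cp) (hcm : 0 < cm) (hl : 0 < l) (hb : 0 < b) (hσ : 0 < σ) (hK : 0 ≤ K3) :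
    lowErr δ H q τ T T' cp cm B l b σ K3 ≤
      lowErr δ0 H q τ T T' cp cm B l b σ K3 * Real.sqrt (δ / δ0) := by
  have hδ0 : 0 < δ0 := hδ.trans_le h1
  have t1 : H * q ^ 4 / 12 * (1 / cp ^ 2 + K3 / cm ^ 2) * δ ≤
      H * q ^ 4 / 12 * (1 / cp ^ 2 + K3 / cm ^ 2) * δ0 * Real.sqrt (δ / δ0) := by
    have := lin_small (a := H * q ^ 4 / 12 * (1 / cp ^ 2 + K3 / cm ^ 2)) (c := 0) hδ h1
      (by positivity) le_rfl
    simpa using this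
  have t2 : ((T' - T) + δ / l) * Real.exp (-B / δ) ≤
      ((T' - T) + δ0 / l) * Real.exp (-B / δ0) * Real.sqrt (δ / δ0) := by
    have h2 : δ / l ≤ δ0 / l := div_le_div_of_nonneg_right h1 hl.le
    have h3 : 0 ≤ δ / l := by positivity
    exact coef_small hδ h1 hB (by linarith) (by linarith)
  have t3 : δ / (cp * T) * Real.exp (-(cp * T ^ 2) / δ) ≤
      δ0 / (cp * T) * Real.exp (-(cp * T ^ 2) / δ0) * Real.sqrt (δ / δ0) := by
    have := lin_small (a := 1 / (cp * T)) (c := cp * T ^ 2) hδ h1 (by positivity) (by positivity)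
    have e1 : 1 / (cp * T) * δ = δ / (cp * T) := by ring
    have e2 : 1 / (cp * T) * δ0 = δ0 / (cp * T) := by ring
    rwa [e1, e2] at this
  have t4 : δ / (cm * τ) * Real.exp (-(cm * τ ^ 2) / δ) ≤
      δ0 / (cm * τ) * Real.exp (-(cm * τ ^ 2) / δ0) * Real.sqrt (δ / δ0) := by
    have := lin_small (a := 1 / (cm * τ)) (c := cm * τ ^ 2) hδ h1 (by positivity) (by positivity)
    have e1 : 1 / (cm * τ) * δ = δ / (cm * τ) := by ring
    have e2 : 1 / (cm * τ) * δ0 = δ0 / (cm * τ) := by ring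
    rwa [e1, e2] at this
  have t5 : δ / σ * Real.exp (-b / δ) ≤ δ0 / σ * Real.exp (-b / δ0) * Real.sqrt (δ / δ0) := by
    have := lin_small (a := 1 / σ) (c := b) hδ h1 (by positivity) hb.le
    have e1 : 1 / σ * δ = δ / σ := by ring
    have e2 : 1 / σ * δ0 = δ0 / σ := by ring
    rwa [e1, e2] at this
  unfold lowErr
  have t6 := mul_le_mul_of_nonneg_left (add_le_add (add_le_add t2 t3) t4) hq
  calc _ ≤ _ := add_le_add (add_le_add t1 t6) t5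
    _ = _ := by ring

theorem upErr_mono {δ δ0 q r τ T T' cp cm B l b σ K2 : ℝ} (hδ : 0 < δ) (h1 : δ ≤ δ0)
    (hB : δ0 ≤ 2 * B) (hq : 0 ≤ q) (hτ : 0 < τ) (hT : 0 < T) (hTT : T ≤ T')
    (hcp : 0 < cp) (hcm : 0 < cm) (hl : 0 < l) (hb : δ0 ≤ 2 * b) (hσ : δ0 < σ) (hK : 0 ≤ K2) :
    upErr δ q r τ T T' cp cm B l b σ K2 ≤
      upErr δ0 q r τ T T' cp cm B l b σ K2 * Real.sqrt (δ / δ0) := by
  have hδ0 : 0 < δ0 := hδ.trans_le h1
  have hs0 : 0 ≤ Real.sqrt (δ / δ0) := Real.sqrt_nonneg _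
  have hT' : 0 < T' := hT.trans_le hTT
  have g : ∀ c : ℝ, 0 < c → δ / c * Real.sqrt (δ / c) ≤
      δ0 / c * Real.sqrt (δ0 / c) * Real.sqrt (δ / δ0) := by
    intro c hc
    rw [sqrt_split hδ hδ0 hc, ← mul_assoc]
    refine mul_le_mul_of_nonneg_right (mul_le_mul_of_nonneg_right ?_ (Real.sqrt_nonneg _)) hs0
    exact div_le_div_of_nonneg_right h1 hc.le
  have t1 : q ^ 3 * (Real.sqrt Real.pi / 8) *
        (δ / cp * Real.sqrt (δ / cp) + K2 * (δ / cm) * Real.sqrt (δ / cm)) ≤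
      q ^ 3 * (Real.sqrt Real.pi / 8) *
        (δ0 / cp * Real.sqrt (δ0 / cp) + K2 * (δ0 / cm) * Real.sqrt (δ0 / cm)) *
          Real.sqrt (δ / δ0) := by
    have g1 := g cp hcp
    have g2 := mul_le_mul_of_nonneg_left (g cm hcm) hK
    have g3 := mul_le_mul_of_nonneg_left (add_le_add g1 g2)
      (show 0 ≤ q ^ 3 * (Real.sqrt Real.pi / 8) by positivity)
    calc _ = q ^ 3 * (Real.sqrt Real.pi / 8) *
        (δ / cp * Real.sqrt (δ / cp) + K2 * (δ / cm * Real.sqrt (δ / cm))) := by ring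
      _ ≤ _ := g3
      _ = _ := by ring
  have hl1 : δ / l ≤ δ0 / l := div_le_div_of_nonneg_right h1 hl.le
  have hl0 : 0 ≤ δ / l := by positivity
  have hl00 : 0 ≤ δ0 / l := by positivity
  have t2 : q ^ 3 / 2 * ((T' ^ 3 - T ^ 3) / 3 +
        δ / l * (T' ^ 2 + 2 * T' * (δ / l) + 2 * (δ / l) ^ 2)) * Real.exp (-B / δ) ≤
      q ^ 3 / 2 * ((T' ^ 3 - T ^ 3) / 3 +
        δ0 / l * (T' ^ 2 + 2 * T' * (δ0 / l) + 2 * (δ0 / l) ^ 2)) * Real.exp (-B / δ0) *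
          Real.sqrt (δ / δ0) := by
    have hTc : T ^ 3 ≤ T' ^ 3 := pow_le_pow_left₀ hT.le hTT 3
    have h3 : δ / l * (T' ^ 2 + 2 * T' * (δ / l) + 2 * (δ / l) ^ 2) ≤
        δ0 / l * (T' ^ 2 + 2 * T' * (δ0 / l) + 2 * (δ0 / l) ^ 2) := by
      apply mul_le_mul hl1 _ (by positivity) hl00
      have h4 : 2 * T' * (δ / l) ≤ 2 * T' * (δ0 / l) := mul_le_mul_of_nonneg_left hl1 (by positivity)
      have h5 : (δ / l) ^ 2 ≤ (δ0 / l) ^ 2 := pow_le_pow_left₀ hl0 hl1 2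
      linarith
    have h6 : 0 ≤ δ / l * (T' ^ 2 + 2 * T' * (δ / l) + 2 * (δ / l) ^ 2) := by positivity
    refine coef_small hδ h1 hB ?_ ?_
    · apply mul_nonneg (by positivity)
      linarith
    · apply mul_le_mul_of_nonneg_left _ (by positivity)
      linarith
  have hσδ : 0 < σ / δ0 - 1 := by
    rw [sub_pos, one_lt_div hδ0]
    exact hσ
  have hσδ' : σ / δ0 - 1 ≤ σ / δ - 1 := by
    have : σ / δ0 ≤ σ / δ := div_le_div_of_nonneg_left (by linarith) hδ h1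
    linarith
  have t3 : Real.exp (τ * r - b / δ) / 2 * ((τ * q) ^ 2 / (σ / δ - 1) +
        2 * (τ * q) / (σ / δ - 1) ^ 2 + 2 / (σ / δ - 1) ^ 3) ≤
      Real.exp (τ * r - b / δ0) / 2 * ((τ * q) ^ 2 / (σ / δ0 - 1) +
        2 * (τ * q) / (σ / δ0 - 1) ^ 2 + 2 / (σ / δ0 - 1) ^ 3) * Real.sqrt (δ / δ0) := by
    have e1 : Real.exp (τ * r - b / δ) ≤ Real.exp (τ * r - b / δ0) * Real.sqrt (δ / δ0) := by
      have h3 := mul_le_mul_of_nonneg_left (exp_small hδ h1 hb) (Real.exp_nonneg (τ * r))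
      rw [← mul_assoc, ← Real.exp_add, ← Real.exp_add] at h3
      have e2 : τ * r + -b / δ = τ * r - b / δ := by ring
      have e3 : τ * r + -b / δ0 = τ * r - b / δ0 := by ring
      rwa [e2, e3] at h3
    have e4 : (τ * q) ^ 2 / (σ / δ - 1) + 2 * (τ * q) / (σ / δ - 1) ^ 2 + 2 / (σ / δ - 1) ^ 3 ≤
        (τ * q) ^ 2 / (σ / δ0 - 1) + 2 * (τ * q) / (σ / δ0 - 1) ^ 2 + 2 / (σ / δ0 - 1) ^ 3 := by
      have p2 : (σ / δ0 - 1) ^ 2 ≤ (σ / δ - 1) ^ 2 := pow_le_pow_left₀ hσδ.le hσδ' 2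
      have p3 : (σ / δ0 - 1) ^ 3 ≤ (σ / δ - 1) ^ 3 := pow_le_pow_left₀ hσδ.le hσδ' 3
      have hpos : 0 < σ / δ - 1 := hσδ.trans_le hσδ'
      refine add_le_add (add_le_add ?_ ?_) ?_
      · exact div_le_div_of_nonneg_left (by positivity) hσδ hσδ'
      · exact div_le_div_of_nonneg_left (by positivity) (by positivity) p2
      · exact div_le_div_of_nonneg_left (by norm_num) (by positivity) p3
    have hpos : 0 < σ / δ - 1 := hσδ.trans_le hσδ'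
    have e5 : 0 ≤ (τ * q) ^ 2 / (σ / δ - 1) + 2 * (τ * q) / (σ / δ - 1) ^ 2 +
        2 / (σ / δ - 1) ^ 3 := by positivity
    calc _ ≤ (Real.exp (τ * r - b / δ0) * Real.sqrt (δ / δ0)) / 2 * ((τ * q) ^ 2 / (σ / δ0 - 1) +
        2 * (τ * q) / (σ / δ0 - 1) ^ 2 + 2 / (σ / δ0 - 1) ^ 3) :=
          mul_le_mul (div_le_div_of_nonneg_right e1 (by norm_num)) e4 e5 (by positivity)
      _ = _ := by ring
  unfold upErr
  calc _ ≤ _ := add_le_add (add_le_add t1 t2) t3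
    _ = _ := by ring

theorem gen_fin {δ : ℝ} {h d : ℂ} {τ T T' cp cm B l b σ K2 K3 k : ℝ}
    (H : Hyp δ h d τ T T' cp cm B l b σ K2 K3) (hδ : δ ≤ 9 / 80) (hB : 9 / 80 ≤ 2 * B)
    (hb : 9 / 80 ≤ 2 * b) (hσ : 9 / 80 < σ) (hk : 0 ≤ k)
    (hpos : lowErr (9 / 80) ‖h‖ ‖d‖ τ T T' cp cm B l b σ K3 <
      Real.sqrt (2 * Real.pi * (9 / 80) / ‖1 - h‖))
    (hnum : ‖h‖ * upErr (9 / 80) ‖d‖ |d.re| τ T T' cp cm B l b σ K2 ≤
      k * ‖1 - h‖ * (Real.sqrt (2 * Real.pi * (9 / 80) / ‖1 - h‖) -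
        lowErr (9 / 80) ‖h‖ ‖d‖ τ T T' cp cm B l b σ K3)) :
    JJ δ h (-(τ * d)) d (fun _ => 1) ≠ 0 ∧
    ‖JJ δ h (-(τ * d)) d (fun v => v)‖ ≤ k * ‖JJ δ h (-(τ * d)) d (fun _ => 1)‖ := by
  have hδ0 : (0 : ℝ) < 9 / 80 := by norm_num
  have h1h : 0 < ‖1 - h‖ := norm_pos_iff.2 (sub_ne_zero.2 (Ne.symm H.h_ne))
  have hlow := gen_low H
  have hup := gen_up H
  have m1 := lowErr_mono (H := ‖h‖) (q := ‖d‖) (τ := τ) (T := T) (T' := T') (cp := cp) (cm := cm)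
    (B := B) (l := l) (b := b) (σ := σ) (K3 := K3) H.δpos hδ hB (norm_nonneg _) (norm_nonneg _)
    H.τpos H.Tpos H.TT H.cppos H.cmpos H.lpos H.bpos (H.δpos.trans H.σgt) H.K3pos
  have m2 := upErr_mono (q := ‖d‖) (r := |d.re|) (τ := τ) (T := T) (T' := T') (cp := cp) (cm := cm)
    (B := B) (l := l) (b := b) (σ := σ) (K2 := K2) H.δpos hδ hB (norm_nonneg _)
    H.τpos H.Tpos H.TT H.cppos H.cmpos H.lpos hb hσ H.K2pos
  set s : ℝ := Real.sqrt (δ / (9 / 80)) with hs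
  have hs0 : 0 < s := Real.sqrt_pos.2 (div_pos H.δpos hδ0)
  have e1 : Real.sqrt (2 * Real.pi * δ / ‖1 - h‖) =
      Real.sqrt (2 * Real.pi * (9 / 80) / ‖1 - h‖) * s := by
    rw [hs, ← Real.sqrt_mul (by positivity)]
    congr 1
    field_simp
  set G : ℝ := Real.sqrt (2 * Real.pi * (9 / 80) / ‖1 - h‖) -
    lowErr (9 / 80) ‖h‖ ‖d‖ τ T T' cp cm B l b σ K3 with hG
  have hG0 : 0 < G := by
    rw [hG]
    linarith
  have hJ : G * s ≤ ‖JJ δ h (-(τ * d)) d (fun _ => 1)‖ := by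
    refine le_trans ?_ hlow
    rw [e1, hG, sub_mul]
    linarith
  have hJ0 : 0 < ‖JJ δ h (-(τ * d)) d (fun _ => 1)‖ := (mul_pos hG0 hs0).trans_le hJ
  refine ⟨norm_pos_iff.1 hJ0, ?_⟩
  have h2 : ‖1 - h‖ * ‖JJ δ h (-(τ * d)) d (fun v => v)‖ ≤
      ‖1 - h‖ * (k * ‖JJ δ h (-(τ * d)) d (fun _ => 1)‖) := by
    calc ‖1 - h‖ * ‖JJ δ h (-(τ * d)) d (fun v => v)‖ ≤
        ‖h‖ * upErr δ ‖d‖ |d.re| τ T T' cp cm B l b σ K2 := hup
      _ ≤ ‖h‖ * (upErr (9 / 80) ‖d‖ |d.re| τ T T' cp cm B l b σ K2 * s) :=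
          mul_le_mul_of_nonneg_left m2 (norm_nonneg _)
      _ = (‖h‖ * upErr (9 / 80) ‖d‖ |d.re| τ T T' cp cm B l b σ K2) * s := by ring
      _ ≤ (k * ‖1 - h‖ * G) * s := mul_le_mul_of_nonneg_right hnum hs0.le
      _ = ‖1 - h‖ * (k * (G * s)) := by ring
      _ ≤ ‖1 - h‖ * (k * ‖JJ δ h (-(τ * d)) d (fun _ => 1)‖) := by
          apply mul_le_mul_of_nonneg_left _ h1h.le
          exact mul_le_mul_of_nonneg_left hJ hk
  exact le_of_mul_le_mul_left h2 h1h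

end SokalFU
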