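import Pool.Agent.Lib_MP_af4de1_fu.MSad

/-!
# Position of the saddle points [FU-M23]

`s = σ + y = ρ e^a sin σ ≥ 0`, `a² + s² = ρ² e^(2a)`.
-/

set_option autoImplicit false

namespace SokalFU

open Real

variable {ρ y a σ : ℝ}

private theorem exp_lb_m23 {x l : ℝ} (hx : 0 ≤ x) (h : l ≤ 1 + x + x ^ 2 / 2 + x ^ 3 / 6 + x ^ 4 / 24 + x ^ 5 / 120) :
    l ≤ exp x := by
  refine h.trans ?_
  have h1 := Real.sum_le_exp_of_nonneg hx 6
  simp only [Finset.sum_range_succ, Finset.sum_range_zero, Nat.factorial] at h1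
  norm_num at h1
  linarith

private theorem exp_ub_m23 {x u : ℝ} (hx : 0 ≤ x) (hx1 : x ≤ 1)
    (h : 1 + x + x ^ 2 / 2 + x ^ 3 / 6 + x ^ 4 * 5 / 96 ≤ u) : exp x ≤ u := by
  refine le_trans ?_ h
  have h1 := Real.exp_bound' hx hx1 (n := 4) (by norm_num)
  simp only [Finset.sum_range_succ, Finset.sum_range_zero, Nat.factorial] at h1
  norm_num at h1
  linarith

theorem Sad.s_nonneg (H : Sad ρ y a σ) (h1 : 1 ≤ ρ) : 0 ≤ σ + y := by
  rw [← H.S]
  have h2 := sin_nonneg_of_nonneg_of_le_pi H.σ0 H.σπ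
  have h3 := exp_pos a
  have h4 : 0 < ρ := by linarith
  positivity

theorem Sad.sq (H : Sad ρ y a σ) : a ^ 2 + (σ + y) ^ 2 = ρ ^ 2 * exp (2 * a) := by
  have h1 : exp (2 * a) = exp a ^ 2 := by
    rw [← exp_nat_mul]
    norm_num
  have h2 : a ^ 2 + (σ + y) ^ 2 = (ρ * exp a) ^ 2 * (sin σ ^ 2 + cos σ ^ 2) := by
    have e1 := H.C
    have e2 := H.S
    calc a ^ 2 + (σ + y) ^ 2 = (ρ * exp a * cos σ) ^ 2 + (ρ * exp a * sin σ) ^ 2 := by rw [e1, e2]
      _ = _ := by ring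
  rw [h2, sin_sq_add_cos_sq, h1]
  ring

private theorem E_pos_m23 (h1 : 1 ≤ ρ) : 0 < ρ * exp a :=
  mul_pos (by linarith) (exp_pos a)

private theorem s_le_m23 (H : Sad ρ y a σ) (h1 : 1 ≤ ρ) : σ + y ≤ ρ * exp a := by
  rw [← H.S]
  have h2 := sin_le_one σ
  have h3 : 0 < ρ * exp a := E_pos_m23 h1
  calc ρ * exp a * sin σ ≤ ρ * exp a * 1 := mul_le_mul_of_nonneg_left h2 h3.le
    _ = ρ * exp a := mul_one _

/-- `|a| e^|a| ≤ 9/2` for `a ≤ 0`. -/
theorem Sad.a_ge (H : Sad ρ y a σ) (h1 : 1 ≤ ρ) (h2 : ρ ≤ 9 / 2) : -(127 / 100) ≤ a := by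
  by_contra hc
  push Not at hc
  have h3 : 0 < ρ * exp a := E_pos_m23 h1
  have h4 : -a ≤ ρ * exp a := by
    have h5 := neg_one_le_cos σ
    have h6 := mul_le_mul_of_nonneg_left h5 h3.le
    rw [H.C] at h6
    linarith
  have h7 : -a * exp (-a) ≤ ρ := by
    have h8 := mul_le_mul_of_nonneg_right h4 (exp_pos (-a)).le
    have h9 : ρ * exp a * exp (-a) = ρ := by
      rw [mul_assoc, ← exp_add, add_neg_cancel, exp_zero, mul_one]
    rwa [h9] at h8
  have h10 : 3545 / 1000 ≤ exp (127 / 100) := exp_lb_m23 (by norm_num) (by norm_num)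
  have h11 : exp (127 / 100) ≤ exp (-a) := exp_le_exp.2 (by linarith)
  have h12 : (127 / 100 : ℝ) * (3545 / 1000) ≤ -a * exp (-a) :=
    mul_le_mul (by linarith) (h10.trans h11) (by norm_num) (by linarith)
  norm_num at h12
  linarith

private theorem half_pi_le_m23 (H : Sad ρ y a σ) (h1 : 1 ≤ ρ) (ha : a ≤ 0) : π / 2 ≤ σ := by
  by_contra hc
  push Not at hc
  have h3 : 0 < ρ * exp a := E_pos_m23 h1
  have h4 : 0 < cos σ := cos_pos_of_mem_Ioo ⟨by linarith [H.σ0, pi_pos], hc⟩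
  have h5 := mul_pos h3 h4
  rw [H.C] at h5
  linarith

theorem Sad.neg_s (H : Sad ρ y a σ) (h1 : 1 ≤ ρ) (h2 : ρ ≤ 9 / 2) (ha : a ≤ 0) :
    σ + y ≤ 9 / 2 ∧ π / 2 ≤ σ := by
  refine ⟨?_, half_pi_le_m23 H h1 ha⟩
  have h3 := s_le_m23 H h1
  have h4 : exp a ≤ 1 := exp_le_one_iff.2 ha
  have h5 : ρ * exp a ≤ ρ * 1 := mul_le_mul_of_nonneg_left h4 (by linarith)
  linarith

private theorem cos_le_m23 (H : Sad ρ y a σ) (h1 : 1 ≤ ρ) (ha : 0 ≤ a) : cos σ ≤ 36789 / 100000 := by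
  have h3 : 0 < ρ * exp a := E_pos_m23 h1
  have h4 : a ≤ exp a * exp (-1) := by
    rw [← exp_add]
    have := add_one_le_exp (a + -1)
    linarith
  have h5 : exp (-1) ≤ 36789 / 100000 := by
    have h6 := exp_one_gt_d9
    rw [exp_neg]
    rw [inv_le_comm₀ (exp_pos 1) (by norm_num)]
    norm_num at h6 ⊢
    linarith
  have h7 : ρ * exp a * cos σ ≤ ρ * exp a * (36789 / 100000) := by
    rw [H.C]
    have h8 : exp a * exp (-1) ≤ exp a * (36789 / 100000) := mul_le_mul_of_nonneg_left h5 (exp_pos a).le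
    have h9 : exp a * (36789 / 100000) ≤ ρ * exp a * (36789 / 100000) :=
      mul_le_mul_of_nonneg_right (le_mul_of_one_le_left (exp_pos a).le h1) (by norm_num)
    linarith
  exact le_of_mul_le_mul_left h7 h3

private theorem le_half_pi_m23 (H : Sad ρ y a σ) (h1 : 1 ≤ ρ) (ha : 0 ≤ a) : σ ≤ π / 2 := by
  by_contra hc
  push Not at hc
  have h3 : 0 < ρ * exp a := E_pos_m23 h1
  have h4 : cos σ < 0 := cos_neg_of_pi_div_two_lt_of_lt hc (by linarith [H.σπ, pi_pos])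
  have h5 := mul_neg_of_pos_of_neg h3 h4
  rw [H.C] at h5
  linarith

/-- `cos σ = a e^(-a)/ρ ∈ [0, 1/e]`, `sin σ ≥ .9298`, `σ ≥ 1.19`; `s² = ρ² e^(2a) - a² ≥ 1`. -/
theorem Sad.pos_facts (H : Sad ρ y a σ) (h1 : 1 ≤ ρ) (ha : 0 ≤ a) :
    119 / 100 ≤ σ ∧ σ ≤ π / 2 ∧ a ≤ 2 / 5 * (σ + y) ∧ 1 ≤ σ + y ∧
      929 / 1000 * (ρ * exp a) ≤ σ + y ∧ σ + y ≤ ρ * exp a := by
  have hE : 0 < ρ * exp a := E_pos_m23 h1
  have hc := cos_le_m23 H h1 ha
  have hσ := le_half_pi_m23 H h1 ha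
  have hc0 : 0 ≤ cos σ := cos_nonneg_of_mem_Icc ⟨by linarith [H.σ0, pi_pos], hσ⟩
  have hs0 := sin_nonneg_of_nonneg_of_le_pi H.σ0 H.σπ
  have hs : 929 / 1000 ≤ sin σ := by
    have h2 := sin_sq_add_cos_sq σ
    by_contra hn
    push Not at hn
    have a1 : sin σ ^ 2 ≤ (929 / 1000) ^ 2 := pow_le_pow_left₀ hs0 hn.le 2
    have a2 : cos σ ^ 2 ≤ (36789 / 100000) ^ 2 := pow_le_pow_left₀ hc0 hc 2
    norm_num at a1 a2
    linarith
  have h5 : 929 / 1000 * (ρ * exp a) ≤ σ + y := by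
    rw [← H.S]
    have a1 := mul_le_mul_of_nonneg_left hs hE.le
    linarith
  refine ⟨?_, hσ, ?_, ?_, h5, s_le_m23 H h1⟩
  · by_contra hn
    push Not at hn
    have h2 : cos (119 / 100) < cos σ :=
      cos_lt_cos_of_nonneg_of_le_pi H.σ0 (by linarith [pi_gt_d2]) hn
    have h3 : sin (38 / 100) ≤ cos (119 / 100) := by
      rw [← sin_pi_div_two_sub]
      refine sin_le_sin_of_le_of_le_pi_div_two (by linarith [pi_gt_d2]) (by linarith [pi_gt_d2]) ?_
      linarith [pi_gt_d4]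
    have h4 := abs_le.1 (sin_bound (x := 38 / 100) (by rw [abs_of_pos] <;> norm_num))
    have h6 : |(38 / 100 : ℝ)| = 38 / 100 := abs_of_pos (by norm_num)
    rw [h6] at h4
    norm_num at h4
    linarith [h4.1]
  · have h2 := H.C
    have a1 := mul_le_mul_of_nonneg_left hc hE.le
    rw [h2] at a1
    linarith
  · have h2 := H.sq
    have h3 : exp (2 * a) = exp a ^ 2 := by
      rw [← exp_nat_mul]
      norm_num
    have h4 := add_one_le_exp a
    have h6 := H.s_nonneg h1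
    have h7 : 1 + a ^ 2 ≤ exp a ^ 2 := by
      have a1 : (a + 1) ^ 2 ≤ exp a ^ 2 := pow_le_pow_left₀ (by linarith) h4 2
      have a2 : (a + 1) ^ 2 = 1 + a ^ 2 + 2 * a := by ring
      linarith
    have h8 : exp a ^ 2 ≤ ρ ^ 2 * exp a ^ 2 :=
      le_mul_of_one_le_left (sq_nonneg (exp a)) (one_le_pow₀ h1)
    rw [h3] at h2
    by_contra hn
    push Not at hn
    have h9 := pow_lt_one₀ h6 hn two_ne_zero
    linarith

/-- `σ ≥ π/2 - (π/2) a e^(-a)/ρ`, multiplied by `ρ`. -/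
private theorem sig_lb_m23 (H : Sad ρ y a σ) (h1 : 1 ≤ ρ) (ha : 0 ≤ a) :
    ρ * (π / 2 - σ) ≤ π / 2 * (a * exp (-a)) := by
  have hσ := le_half_pi_m23 H h1 ha
  have h2 := mul_le_sin (x := π / 2 - σ) (by linarith) (by linarith [H.σ0])
  rw [sin_pi_div_two_sub] at h2
  have h3 : ρ * cos σ = a * exp (-a) := by
    have h4 : ρ * exp a * cos σ * exp (-a) = ρ * cos σ := by
      have : exp a * exp (-a) = 1 := by rw [← exp_add, add_neg_cancel, exp_zero]
      calc ρ * exp a * cos σ * exp (-a) = ρ * cos σ * (exp a * exp (-a)) := by ring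
        _ = _ := by rw [this, mul_one]
    rw [← h4, H.C]
  rw [← h3]
  have hπ := pi_pos
  have h5 : π / 2 - σ ≤ π / 2 * cos σ := by
    have h6 : π / 2 * (2 / π * (π / 2 - σ)) = π / 2 - σ := by field_simp
    have h7 := mul_le_mul_of_nonneg_left h2 (by positivity : 0 ≤ π / 2)
    rwa [h6] at h7
  have h8 := mul_le_mul_of_nonneg_left h5 (by linarith : 0 ≤ ρ)
  calc ρ * (π / 2 - σ) ≤ ρ * (π / 2 * cos σ) := h8
    _ = _ := by ring

private theorem a_nonneg_m23 (H : Sad ρ y a σ) (h1 : 1 ≤ ρ) (hy : ρ - 3 / 8 ≤ y) : 0 ≤ a := by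
  by_contra hc
  push Not at hc
  have h2 := s_le_m23 H h1
  have h3 := half_pi_le_m23 H h1 hc.le
  have h4 : exp a ≤ 1 := exp_le_one_iff.2 hc.le
  have h5 : ρ * exp a ≤ ρ * 1 := mul_le_mul_of_nonneg_left h4 (by linarith)
  linarith [pi_gt_d2]

/-- common part of the lower bounds of `a` -/
private theorem low_m23 (H : Sad ρ y a σ) (h1 : 1 ≤ ρ) (hy : ρ - 3 / 8 ≤ y) {α e m R : ℝ} (ha : 0 ≤ a)
    (haα : a < α) (hα : exp α ≤ 1 + e) (hm : a * exp (-a) ≤ m) (hR : ρ ≤ R)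
    (hone : e + 15709 / 10000 * m < 119 / 100)
    (hR2 : e * R ^ 2 + 15709 / 10000 * m < 119 / 100 * R) : False := by
  have h2 := s_le_m23 H h1
  have h3 := sig_lb_m23 H h1 ha
  have h4 : exp a ≤ 1 + e := (exp_le_exp.2 haα.le).trans hα
  have h5 : 0 ≤ a * exp (-a) := mul_nonneg ha (exp_pos _).le
  have hπ1 := pi_gt_d4
  have hπ2 := pi_lt_d4
  -- `ρ - 3/8 ≤ y = s - σ ≤ ρ e^a - σ`
  have h6 : π / 2 - 3 / 8 ≤ ρ * (exp a - 1) + (π / 2 - σ) := by linarith
  have h7 : ρ * (exp a - 1) ≤ ρ * e := mul_le_mul_of_nonneg_left (by linarith) (by linarith)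
  have h8 : ρ * (π / 2 - 3 / 8) ≤ ρ * (ρ * e) + ρ * (π / 2 - σ) := by
    rw [← mul_add]
    exact mul_le_mul_of_nonneg_left (by linarith) (by linarith)
  have h9 : π / 2 * (a * exp (-a)) ≤ 15709 / 10000 * m := by
    have : π / 2 ≤ 15709 / 10000 := by linarith
    exact mul_le_mul this hm h5 (by norm_num)
  have h10 : ρ * (119 / 100) ≤ ρ * (π / 2 - 3 / 8) := mul_le_mul_of_nonneg_left (by linarith) (by linarith)
  -- convexity in `ρ`
  have h11 : 0 ≤ e := by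
    have := one_le_exp ha
    linarith
  have h12 : 119 / 100 * ρ ≤ e * ρ ^ 2 + 15709 / 10000 * m := by
    have a1 : ρ * (ρ * e) = e * ρ ^ 2 := by ring
    linarith
  have h13 : 0 ≤ (ρ - 1) * (R - ρ) := mul_nonneg (by linarith) (by linarith)
  by_cases hR1 : R = 1
  · have : ρ = 1 := le_antisymm (hR1 ▸ hR) h1
    rw [this] at h12
    norm_num at h12
    linarith
  · have hR3 : 1 < R := lt_of_le_of_ne (h1.trans hR) (Ne.symm hR1)
    -- chord
    have h14 : (R - 1) * (e * ρ ^ 2 + 15709 / 10000 * m - 119 / 100 * ρ) ≤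
        (R - ρ) * (e + 15709 / 10000 * m - 119 / 100) + (ρ - 1) * (e * R ^ 2 + 15709 / 10000 * m - 119 / 100 * R) := by
      have h15 : (R - ρ) * (e + 15709 / 10000 * m - 119 / 100) + (ρ - 1) * (e * R ^ 2 + 15709 / 10000 * m - 119 / 100 * R) -
          (R - 1) * (e * ρ ^ 2 + 15709 / 10000 * m - 119 / 100 * ρ) = e * (R - 1) * ((ρ - 1) * (R - ρ)) := by ring
      have h16 : 0 ≤ e * (R - 1) * ((ρ - 1) * (R - ρ)) := mul_nonneg (mul_nonneg h11 (by linarith)) h13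
      linarith
    have h17 : 0 ≤ (R - 1) * (e * ρ ^ 2 + 15709 / 10000 * m - 119 / 100 * ρ) :=
      mul_nonneg (by linarith) (by linarith)
    have h18 : 0 ≤ R - ρ := by linarith
    have h19 : 0 ≤ ρ - 1 := by linarith
    rcases h19.eq_or_lt with h20 | h20
    · have h21 : ρ = 1 := by linarith
      rw [h21, sub_self, zero_mul, add_zero] at h14
      have h22 : (R - 1) * (e + 15709 / 10000 * m - 119 / 100) < 0 :=
        mul_neg_of_pos_of_neg (by linarith) (by linarith)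
      rw [h21] at h17
      linarith
    · have h22 : (R - ρ) * (e + 15709 / 10000 * m - 119 / 100) ≤ 0 :=
        mul_nonpos_of_nonneg_of_nonpos h18 (by linarith)
      have h23 : (ρ - 1) * (e * R ^ 2 + 15709 / 10000 * m - 119 / 100 * R) < 0 :=
        mul_neg_of_pos_of_neg h20 (by linarith)
      linarith

/-- `a < 0 ⇒ s ≤ ρ, σ ≥ π/2, y ≤ ρ - π/2 < ρ - 3/8`; `0 ≤ a < .22 ⇒ y = s - σ ≤ ρ e^a - π/2 + 1.01 a e^(-a)/ρ < ρ - 3/8`
(`ρ(e^a - 1) + 1.01 a e^(-a)/ρ` is convex in `ρ`; `ρ = 4.5`: `1.147 < π/2 - 3/8 = 1.1957`). -/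
theorem Sad.right_facts (H : Sad ρ y a σ) (h1 : 1 ≤ ρ) (h2 : ρ ≤ 9 / 2) (hy : ρ - 3 / 8 ≤ y)
    (hy' : y ≤ ρ - 3 / 8 + 2 * π) :
    22 / 100 ≤ a ∧ 9 / 5 ≤ σ + y ∧ σ + y ≤ 12 := by
  have ha := a_nonneg_m23 H h1 hy
  obtain ⟨g1, g2, g3, g4, g5, g6⟩ := H.pos_facts h1 ha
  refine ⟨?_, by linarith, by linarith [pi_lt_d4]⟩
  by_contra hc
  push Not at hc
  have h3 : exp (22 / 100) ≤ 1 + 2462 / 10000 := exp_ub_m23 (by norm_num) (by norm_num) (by norm_num)
  have h4 : a * exp (-a) ≤ 22 / 100 := by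
    have h5 : exp (-a) ≤ 1 := exp_le_one_iff.2 (by linarith)
    have h6 : a * exp (-a) ≤ a * 1 := mul_le_mul_of_nonneg_left h5 ha
    linarith
  exact low_m23 H h1 hy ha hc h3 h4 h2 (by norm_num) (by norm_num)

/-- the same with `ρ ≤ 3.52`: `3.52(e^.27 - 1) + 1.01·.27 e^(-.27)/3.52 = 1.15 < 1.1957`. -/
theorem Sad.right_a (H : Sad ρ y a σ) (h1 : 1 ≤ ρ) (h2 : ρ ≤ 352 / 100) (hy : ρ - 3 / 8 ≤ y) :
    27 / 100 ≤ a := by
  have ha := a_nonneg_m23 H h1 hy
  by_contra hc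
  push Not at hc
  have h3 : exp (27 / 100) ≤ 1 + 3101 / 10000 := exp_ub_m23 (by norm_num) (by norm_num) (by norm_num)
  have h4 : a * exp (-a) ≤ 2126 / 10000 := by
    -- `e^a ≥ 1 + a`
    have h5 := add_one_le_exp a
    have h6 : exp a * exp (-a) = 1 := by rw [← exp_add, add_neg_cancel, exp_zero]
    have h7 := exp_pos (-a)
    have h8 : (1 + a) * exp (-a) ≤ 1 := by
      have a1 := mul_le_mul_of_nonneg_right h5 h7.le
      linarith
    have h9 : exp (-a) ≤ 1 / (1 + a) := by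
      rw [le_div_iff₀ (by linarith)]
      linarith
    have h10 : a * exp (-a) ≤ a * (1 / (1 + a)) := mul_le_mul_of_nonneg_left h9 ha
    refine h10.trans ?_
    rw [mul_one_div, div_le_iff₀ (by linarith)]
    linarith
  exact low_m23 H h1 hy ha hc h3 h4 h2 (by norm_num) (by norm_num)

/-- one range of `s` -/
private theorem rng_m23 {E s a l u α ε : ℝ} (hl : l ≤ s) (hu : s ≤ u) (hl0 : 0 < l) (hα0 : 0 ≤ α) (hαa : α ≤ a)
    (hE : 0 < E) (hE2 : E ≤ 10771 / 10000 * s) (hε : exp (-a) ≤ ε) (hε1 : 10771 / 10000 * ε ≤ 1)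
    (hfin : 11960 / 10000 < l * (1 - 10771 / 10000 * ε) + α / (10771 / 10000 * u)) :
    11960 / 10000 < s + a / E - E * exp (-a) := by
  have h1 : E * exp (-a) ≤ 10771 / 10000 * s * ε :=
    mul_le_mul hE2 hε (exp_pos _).le (by linarith)
  have h2 : α / (10771 / 10000 * u) ≤ a / E :=
    div_le_div₀ (hα0.trans hαa) hαa hE (by linarith)
  have h3 : l * (1 - 10771 / 10000 * ε) ≤ s * (1 - 10771 / 10000 * ε) :=
    mul_le_mul_of_nonneg_right hl (by linarith)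
  have h4 : s * (1 - 10771 / 10000 * ε) = s - 10771 / 10000 * s * ε := by ring
  linarith

private theorem exp_neg_m23 {a α ε : ℝ} (h : α ≤ a) (h0 : 0 ≤ α) (hε : 0 < ε)
    (h1 : 1 / ε ≤ 1 + α + α ^ 2 / 2 + α ^ 3 / 6 + α ^ 4 / 24 + α ^ 5 / 120) : exp (-a) ≤ ε := by
  have h2 : 1 / ε ≤ exp α := exp_lb_m23 h0 h1
  have h3 : exp α ≤ exp a := exp_le_exp.2 h
  rw [exp_neg, inv_le_comm₀ (exp_pos a) hε, ← one_div]
  exact h2.trans h3

/-- `σ ≤ π/2 - a/√(a²+s²)`, so `s + a/√(a²+s²) - √(a²+s²) e^(-a) ≤ π/2 - 3/8 = 1.1958`; if `a > 1 - s/8` then the left side is larger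
(`s = 1.905, a = .762`: `1.319`; `s ≥ 2.4`: already `s(1 - e^(-(1-s/8))) ≥ 1.22`). -/
theorem Sad.left_facts (H : Sad ρ y a σ) (h1 : 1 ≤ ρ) (h2 : ρ ≤ 9 / 2) (ha : 0 ≤ a)
    (hy : y ≤ ρ - 3 / 8) : σ + y ≤ 57 / 10 ∧ a ≤ 1 - (σ + y) / 8 := by
  obtain ⟨g1, g2, g3, g4, g5, g6⟩ := H.pos_facts h1 ha
  have hs57 : σ + y ≤ 57 / 10 := by linarith [pi_lt_d4]
  refine ⟨hs57, ?_⟩
  by_contra hc
  push Not at hc
  obtain ⟨s, hs⟩ : ∃ s, s = σ + y := ⟨_, rfl⟩
  obtain ⟨E, hE⟩ : ∃ E, E = ρ * exp a := ⟨_, rfl⟩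
  rw [← hs] at g3 g4 g5 g6 hs57 hc
  rw [← hE] at g5 g6
  have hE0 : 0 < E := by rw [hE]; exact E_pos_m23 h1
  have hsq : a ^ 2 + s ^ 2 = E ^ 2 := by
    have h3 := H.sq
    have h4 : exp (2 * a) = exp a ^ 2 := by
      rw [← exp_nat_mul]
      norm_num
    rw [h4] at h3
    rw [hs, hE, h3]
    ring
  have hρ : E * exp (-a) = ρ := by
    rw [hE, mul_assoc, ← exp_add, add_neg_cancel, exp_zero, mul_one]
  -- `a / E = cos σ = sin (π/2 - σ) ≤ π/2 - σ`
  have hcos : a / E = cos σ := by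
    rw [div_eq_iff hE0.ne', ← H.C, ← hE]
    ring
  have hθ : a / E ≤ π / 2 - σ := by
    rw [hcos, ← sin_pi_div_two_sub]
    exact sin_le (by linarith)
  have hmain : s + a / E - E * exp (-a) ≤ 11959 / 10000 := by
    rw [hρ]
    linarith [pi_lt_d4]
  have hE2 : E ≤ 10771 / 10000 * s := by
    refine abs_le_of_sq_le_sq' ?_ (by linarith) |>.2
    have a1 : a ^ 2 ≤ (2 / 5 * s) ^ 2 := pow_le_pow_left₀ ha g3 2
    have a2 : (2 / 5 * s) ^ 2 = 4 / 25 * s ^ 2 := by ring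
    have a3 : (10771 / 10000 * s) ^ 2 = 116014441 / 100000000 * s ^ 2 := by ring
    rw [a3]
    linarith [sq_nonneg s]
  have hs19 : 19 / 10 ≤ s := by linarith
  rcases le_total s (21 / 10) with c1 | c1
  · have h3 : exp (-a) ≤ 479 / 1000 :=
      exp_neg_m23 (α := 7375 / 10000) (by linarith) (by norm_num) (by norm_num) (by norm_num)
    have h4 := rng_m23 hs19 c1 (by norm_num) (α := 7375 / 10000) (by norm_num) (by linarith) hE0 hE2 h3
      (by norm_num) (by norm_num)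
    linarith
  rcases le_total s (24 / 10) with c2 | c2
  · have h3 : exp (-a) ≤ 497 / 1000 :=
      exp_neg_m23 (α := 7 / 10) (by linarith) (by norm_num) (by norm_num) (by norm_num)
    have h4 := rng_m23 c1 c2 (by norm_num) (α := 7 / 10) (by norm_num) (by linarith) hE0 hE2 h3
      (by norm_num) (by norm_num)
    linarith
  rcases le_total s 3 with c3 | c3
  · have h3 : exp (-a) ≤ 5355 / 10000 :=
      exp_neg_m23 (α := 625 / 1000) (by linarith) (by norm_num) (by norm_num) (by norm_num)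
    have h4 := rng_m23 c2 c3 (by norm_num) (α := 625 / 1000) (by norm_num) (by linarith) hE0 hE2 h3
      (by norm_num) (by norm_num)
    linarith
  · -- `s ≥ 3`
    have h3 : 0 ≤ a / E - (E - s) * exp (-a) := by
      -- `(E - s)(E + s) = a²`, `a e^(-a) ≤ 1`
      have h4 : a * exp (-a) ≤ 1 := by
        have h5 := add_one_le_exp a
        have h6 : exp a * exp (-a) = 1 := by rw [← exp_add, add_neg_cancel, exp_zero]
        have h7 := exp_pos (-a)
        have a1 := mul_le_mul_of_nonneg_right h5 h7.le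
        linarith
      have h5 : (E - s) * (E + s) = a ^ 2 := by linarith
      have h6 : E - s = a ^ 2 / (E + s) := by
        rw [eq_div_iff (by linarith)]
        exact h5
      have h7 : a ^ 2 / (E + s) * exp (-a) ≤ a / E := by
        have h8 : a ^ 2 / (E + s) * exp (-a) = a * (a * exp (-a)) / (E + s) := by ring
        rw [h8]
        refine div_le_div₀ ha ?_ hE0 (by linarith)
        have a1 := mul_le_mul_of_nonneg_left h4 ha
        linarith
      rw [h6]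
      linarith
    -- `s (1 - e^(-a)) > 1.196`
    obtain ⟨b, hb⟩ : ∃ b, b = 1 - s / 8 := ⟨_, rfl⟩
    have hb0 : 2875 / 10000 ≤ b := by rw [hb]; linarith
    have hb1 : b ≤ 625 / 1000 := by rw [hb]; linarith
    have h4 : exp b ≤ exp a := exp_le_exp.2 (by rw [hb]; exact hc.le)
    have h5 := quadratic_le_exp_of_nonneg (by linarith : 0 ≤ b)
    have h6 : exp a * exp (-a) = 1 := by rw [← exp_add, add_neg_cancel, exp_zero]
    have h7 := exp_pos (-a)
    have h8 : (1 + b + b ^ 2 / 2) * exp (-a) ≤ 1 := by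
      have a1 := mul_le_mul_of_nonneg_right (h5.trans h4) h7.le
      linarith
    have h9 : s = 8 * (1 - b) := by rw [hb]; ring
    have h10 : 11960 / 10000 < s * (1 - exp (-a)) := by
      -- polynomial inequality
      have hpoly : 11960 / 10000 * (1 + b + b ^ 2 / 2) < 8 * (1 - b) * (b + b ^ 2 / 2) := by
        have t1 : 0 ≤ (b - 2875 / 10000) * (625 / 1000 - b) := mul_nonneg (by linarith) (by linarith)
        have t2 : 0 ≤ (b - 2875 / 10000) * (625 / 1000 - b) * b := mul_nonneg t1 (by linarith)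
        linarith
      have hq : 0 < 1 + b + b ^ 2 / 2 := by positivity
      have h11 : exp (-a) ≤ 1 / (1 + b + b ^ 2 / 2) := by
        rw [le_div_iff₀ hq]
        linarith
      have h12 : 8 * (1 - b) * (1 - 1 / (1 + b + b ^ 2 / 2)) ≤ s * (1 - exp (-a)) := by
        rw [h9]
        exact mul_le_mul_of_nonneg_left (by linarith) (by linarith)
      refine lt_of_lt_of_le ?_ h12
      have h13 : 8 * (1 - b) * (1 - 1 / (1 + b + b ^ 2 / 2)) = 8 * (1 - b) * (b + b ^ 2 / 2) / (1 + b + b ^ 2 / 2) := by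
        field_simp
        ring
      rw [h13, lt_div_iff₀ hq]
      exact hpoly
    have h11 : s * (1 - exp (-a)) + (a / E - (E - s) * exp (-a)) = s + a / E - E * exp (-a) := by ring
    linarith

/-- `a > 0 ⇒ s ≥ 1`, `σ ≤ π/2`, `y = s - σ ≥ 1 - π/2 > -5/8`. -/
theorem Sad.low_facts (H : Sad ρ y a σ) (h1 : 1 ≤ ρ) (hy : y ≤ -(5 / 8)) : a ≤ 0 := by
  by_contra hc
  push Not at hc
  obtain ⟨g1, g2, g3, g4, g5, g6⟩ := H.pos_facts h1 hc.le
  linarith [pi_lt_d4]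

end SokalFU
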