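import Mathlib

/-!
# The saddle points

`Sad ρ y a σ`: `g = a + iσ`, `ρ e^g = a + i(σ+y)`.  R: `y = ψ`, `g_R = a + iσ`.  L, `ψ ≥ π`: `y = ψ - 2π`, `g_L = a + i(σ - 2π)`.
L, `ψ ≤ π`: `y = -ψ`, `g_L = a - iσ`.
-/

set_option autoImplicit false

namespace SokalFU

open Real

/-- saddle point in the coordinates `(a,σ)` -/
structure Sad (ρ y a σ : ℝ) : Prop where
  σ0 : 0 ≤ σ
  σπ : σ ≤ π
  C : ρ * exp a * cos σ = a
  S : ρ * exp a * sin σ = σ + y

/-- Existence: with `W e^W = ρ`, the function `Ψ(a) = ρ e^a √(1 - (a e^(-a)/ρ)²) - arccos (a e^(-a)/ρ)` is continuous on `[-W, 3]`, `Ψ(-W) = -π`,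
`Ψ(3) ≥ ρ - 3/8 + 2π`; intermediate value theorem, `σ = arccos (a e^(-a)/ρ)`. -/
theorem exists_sad {ρ y : ℝ} (h1 : 1 ≤ ρ) (h2 : ρ ≤ 9 / 2) (hy : -π ≤ y)
    (hy' : y ≤ ρ - 3 / 8 + 2 * π) : ∃ a σ : ℝ, Sad ρ y a σ := by
  have hρ : 0 < ρ := by linarith
  -- the number `W`
  obtain ⟨W, hW, hWρ⟩ : ∃ W : ℝ, 0 ≤ W ∧ W * exp W = ρ := by
    have hc : ContinuousOn (fun x : ℝ => x * exp x) (Set.Icc 0 ρ) := by fun_prop
    have h := intermediate_value_Icc hρ.le hc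
    have hm : ρ ∈ Set.Icc ((fun x : ℝ => x * exp x) 0) ((fun x : ℝ => x * exp x) ρ) := by
      refine ⟨by simp [hρ.le], ?_⟩
      have : 1 ≤ exp ρ := one_le_exp hρ.le
      show ρ ≤ ρ * exp ρ
      nlinarith
    obtain ⟨W, hW, h3⟩ := h hm
    exact ⟨W, hW.1, h3⟩
  let c : ℝ → ℝ := fun a => a * exp (-a) / ρ
  let Ψ : ℝ → ℝ := fun a => ρ * exp a * √(1 - c a ^ 2) - arccos (c a)
  have hΨc : ContinuousOn Ψ (Set.Icc (-W) 3) := by
    have h3 : Continuous c := by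
      show Continuous fun a : ℝ => a * exp (-a) / ρ
      fun_prop
    have h4 : Continuous fun a => arccos (c a) := continuous_arccos.comp h3
    have h5 : Continuous fun a => √(1 - c a ^ 2) :=
      continuous_sqrt.comp (continuous_const.sub (h3.pow 2))
    exact ((((continuous_const.mul continuous_exp).mul h5)).sub h4).continuousOn
  have hl : Ψ (-W) = -π := by
    have h3 : c (-W) = -1 := by
      show -W * exp (- -W) / ρ = -1
      rw [neg_neg, neg_mul, hWρ, neg_div, div_self hρ.ne']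
    show ρ * exp (-W) * √(1 - c (-W) ^ 2) - arccos (c (-W)) = -π
    rw [h3]
    norm_num
  have hr : ρ - 3 / 8 + 2 * π ≤ Ψ 3 := by
    have e3 : (16 : ℝ) ≤ exp 3 := by
      have h3 : exp (3 : ℝ) = exp 1 ^ 3 := by
        rw [← exp_nat_mul]; norm_num
      have h4 : (2.7 : ℝ) ≤ exp 1 := by
        have := exp_one_gt_d9
        linarith
      rw [h3]
      calc (16 : ℝ) ≤ 2.7 ^ 3 := by norm_num
        _ ≤ exp 1 ^ 3 := pow_le_pow_left₀ (by norm_num) h4 3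
    have hc0 : 0 ≤ c 3 := by
      show 0 ≤ 3 * exp (-3) / ρ
      positivity
    have hc1 : c 3 ≤ 3 / 16 := by
      show 3 * exp (-3) / ρ ≤ 3 / 16
      rw [div_le_iff₀ hρ, exp_neg]
      have h5 : (exp 3)⁻¹ ≤ (16 : ℝ)⁻¹ := inv_anti₀ (by norm_num) e3
      nlinarith
    have hs : (3 / 4 : ℝ) ≤ √(1 - c 3 ^ 2) := by
      apply le_sqrt_of_sq_le
      nlinarith
    have ha : arccos (c 3) ≤ π / 2 := arccos_le_pi_div_two.2 hc0
    have hpi : π < 3.15 := pi_lt_d2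
    have h6 : 12 * ρ ≤ ρ * exp 3 * √(1 - c 3 ^ 2) := by
      have h7 : ρ * 16 ≤ ρ * exp 3 := mul_le_mul_of_nonneg_left e3 hρ.le
      calc 12 * ρ = (ρ * 16) * (3 / 4) := by ring
        _ ≤ ρ * exp 3 * √(1 - c 3 ^ 2) := mul_le_mul h7 hs (by norm_num) (by positivity)
    show ρ - 3 / 8 + 2 * π ≤ ρ * exp 3 * √(1 - c 3 ^ 2) - arccos (c 3)
    linarith
  obtain ⟨a, ha, hΨ⟩ := intermediate_value_Icc (by linarith) hΨc
    (show y ∈ Set.Icc (Ψ (-W)) (Ψ 3) from ⟨by rw [hl]; exact hy, hy'.trans hr⟩)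
  have hcl : -1 ≤ c a := by
    show -1 ≤ a * exp (-a) / ρ
    rw [le_div_iff₀ hρ, ← hWρ]
    rcases le_or_gt 0 a with h0 | h0
    · have : 0 ≤ a * exp (-a) := by positivity
      have : 0 ≤ W * exp W := by positivity
      linarith
    · have h3 : -a ≤ W := by linarith [ha.1]
      have h4 : exp (-a) ≤ exp W := exp_le_exp.2 h3
      have h5 : -a * exp (-a) ≤ W * exp W := mul_le_mul h3 h4 (exp_nonneg _) hW
      linarith
  have hcu : c a ≤ 1 := by
    show a * exp (-a) / ρ ≤ 1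
    rw [div_le_one hρ]
    have h3 : a ≤ exp a := by linarith [add_one_le_exp a]
    have h4 : a * exp (-a) ≤ exp a * exp (-a) := mul_le_mul_of_nonneg_right h3 (exp_nonneg _)
    rw [← exp_add, add_neg_cancel, exp_zero] at h4
    linarith
  refine ⟨a, arccos (c a), arccos_nonneg _, arccos_le_pi _, ?_, ?_⟩
  · rw [cos_arccos hcl hcu]
    show ρ * exp a * (a * exp (-a) / ρ) = a
    rw [exp_neg]
    have := exp_ne_zero a
    field_simp
  · rw [sin_arccos]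
    have h3 : ρ * exp a * √(1 - c a ^ 2) - arccos (c a) = y := hΨ
    linarith

end SokalFU
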