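import Pool.Agent.Lib_MP_af4de1_fu.MEnd
import Pool.Agent.Lib_MP_af4de1_fu.MInt
import Pool.Agent.Lib_MP_af4de1_fu.AdmK

/-!
# The contours can be moved [FU-M3]

`end_*`: `ray_end` with the bound of `‖kj‖` on the segment between the points at the parameter `T` (use `norm_kk`; heights:
up `≥ min(Re p, Re p') T - C`; right: `≥ c e^T - C (1 + T)`, `c = ρ min |sin|` on the segment `[Im p, Im p'] ⊂ (-π,0)`; down, slopes `m, m'`: at a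
point `a = a₁ - T`, `σ ∈ σ₁ - [m,m'] T`: height `≥ min(m,m') T²/2 - C`; vertical/sloped: `a ≤ -c < 0`, `σ ≤ C - min(1,m) T`: height `≥ c' T - C`).
-/

set_option autoImplicit false

namespace SokalFU

open Complex MeasureTheory Set

theorem end_up {ρ δ : ℝ} (hρ : 0 < ρ) (hδ : 0 < δ) (ψ : ℝ) (j : ℕ) {P : ℂ → ℂ}
    (hP : ∀ z, HasDerivAt P (kj ρ δ ψ j z) z) {p p' : ℂ} (hp : 0 < p.re) (hp' : 0 < p'.re) :
    P p + ray (kj ρ δ ψ j) p I = P p' + ray (kj ρ δ ψ j) p' I := by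
  rw [SokalFW.ray_IT, SokalFW.ray_IT]
  exact (SokalFW.Adm_kj ρ δ ψ j).cT hδ hρ hP hp hp'

theorem end_right {ρ δ : ℝ} (hρ : 0 < ρ) (hδ : 0 < δ) (ψ : ℝ) (j : ℕ) {P : ℂ → ℂ}
    (hP : ∀ z, HasDerivAt P (kj ρ δ ψ j z) z) {p p' : ℂ} (h1 : -Real.pi < p.im) (h2 : p.im < 0)
    (h1' : -Real.pi < p'.im) (h2' : p'.im < 0) :
    P p + ray (kj ρ δ ψ j) p 1 = P p' + ray (kj ρ δ ψ j) p' 1 := by
  rw [SokalFW.ray_IV, SokalFW.ray_IV]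
  exact (SokalFW.Adm_kj ρ δ ψ j).cV hδ hρ hP h1 h2 h1' h2'

theorem end_down {ρ δ : ℝ} (hρ : 0 < ρ) (hδ : 0 < δ) (ψ : ℝ) (j : ℕ) {P : ℂ → ℂ}
    (hP : ∀ z, HasDerivAt P (kj ρ δ ψ j z) z) (p p' : ℂ) {m m' : ℝ} (hm : 0 < m) (hm' : 0 < m') :
    P p + ray (kj ρ δ ψ j) p (-(1 + m * I)) = P p' + ray (kj ρ δ ψ j) p' (-(1 + m' * I)) := by
  rw [SokalFW.ray_IB, SokalFW.ray_IB, ← sub_eq_add_neg, ← sub_eq_add_neg]
  exact (SokalFW.Adm_kj ρ δ ψ j).cB hδ hρ hP (SokalFW.BDir_slope hm p) (SokalFW.BDir_slope hm' p')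

theorem end_vert {ρ δ : ℝ} (hρ : 0 < ρ) (hδ : 0 < δ) (ψ : ℝ) (j : ℕ) {P : ℂ → ℂ}
    (hP : ∀ z, HasDerivAt P (kj ρ δ ψ j z) z) {p : ℂ} (hp : p.re < 0) (p' : ℂ) {m : ℝ} (hm : 0 < m) :
    P p + ray (kj ρ δ ψ j) p (-I) = P p' + ray (kj ρ δ ψ j) p' (-(1 + m * I)) := by
  rw [SokalFW.ray_IB, SokalFW.ray_IB, ← sub_eq_add_neg, ← sub_eq_add_neg]
  exact (SokalFW.Adm_kj ρ δ ψ j).cB hδ hρ hP (SokalFW.BDir_vert hp) (SokalFW.BDir_slope hm p')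

theorem SR_eq {ρ δ : ℝ} (hρ : 0 < ρ) (hδ : 0 < δ) (ψ : ℝ) (j : ℕ) {p : ℂ} (hp : 0 < p.re)
    (h1 : -Real.pi < p.im) (h2 : p.im < 0) :
    SR ρ δ ψ j = ray (kj ρ δ ψ j) p I - ray (kj ρ δ ψ j) p 1 := by
  obtain ⟨P, hP⟩ := exists_prim ρ δ ψ j
  have e1 := end_up hρ hδ ψ j hP (p := 1 - I) (p' := p) (by simp) hp
  have e2 := end_right hρ hδ ψ j hP (p := 1 - I) (p' := p) (by simp; linarith [Real.pi_gt_three])
    (by simp) h1 h2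
  unfold SR
  linear_combination e1 - e2

theorem SL_eq {ρ δ : ℝ} (hρ : 0 < ρ) (hδ : 0 < δ) (ψ : ℝ) (j : ℕ) {p : ℂ}
    (h1 : -Real.pi < p.im) (h2 : p.im < 0) {m : ℝ} (hm : 0 < m) :
    SL ρ δ ψ j = ray (kj ρ δ ψ j) p 1 - ray (kj ρ δ ψ j) p (-(1 + m * I)) := by
  obtain ⟨P, hP⟩ := exists_prim ρ δ ψ j
  have e1 := end_down hρ hδ ψ j hP (1 - I) p (m := 1) (m' := m) one_pos hm
  have e2 := end_right hρ hδ ψ j hP (p := 1 - I) (p' := p) (by simp; linarith [Real.pi_gt_three])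
    (by simp) h1 h2
  rw [ofReal_one, one_mul] at e1
  unfold SL
  linear_combination e2 - e1

end SokalFU
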