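import Pool.Agent.Lib_MP_af4de1_fu.Ev

/-!
# Computed classes

The list of the weights of a class by the recursion `(p + 1) x_(p+1) = rho x_p + del x_(p-1)`, rounded upwards. No property of
`mkCls` is used: the class conditions are checked on the computed class.
-/

set_option autoImplicit false

namespace SokalFU

/-- the weights `x_p, x_(p+1), ..` (`f` of them), with `a = x_(p-1)`, `b = x_p` -/
def wx (v v2 f : ℕ) : ℕ → ℕ → ℕ → List ℕ :=
  Nat.rec (fun _ _ _ => [])
    (fun _ ih p a b => b :: ih (Nat.succ p) b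
      (Nat.succ (Nat.div (Nat.add (Nat.mul v b) (Nat.mul v2 a)) (Nat.mul 1099511627776 (Nat.succ p))))) f

/-- the list `wl` of the class -/
def mkWl (k u M del rho2 rho0 : ℕ) : List (ℕ × ℕ) :=
  List.zip
    (wx (Nat.mul (Nat.pow 2 u) rho2) (Nat.mul (Nat.pow 2 (Nat.mul 2 u)) del) (Nat.sub (Nat.mul 2 M) 2) 1 (Nat.pow 2 k)
      (Nat.succ (Nat.div (Nat.mul (Nat.mul (Nat.pow 2 u) rho2) (Nat.pow 2 k)) 1099511627776)))
    (0 :: ((wx (Nat.mul (Nat.pow 2 u) rho0) (Nat.mul (Nat.pow 2 (Nat.mul 2 u)) del) (Nat.sub (Nat.mul 2 M) 2) 1 (Nat.pow 2 k)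
      (Nat.succ (Nat.div (Nat.mul (Nat.mul (Nat.pow 2 u) rho0) (Nat.pow 2 k)) 1099511627776))).drop 2 ++ [0]))

/-- a class from 14 numbers -/
def mkCls (S R n0 N M y k u del rho2 rho0 th e1 e0 : ℕ) : ClsI where
  S := S
  R := R
  n0 := n0
  N := N
  M := M
  y := y
  k := k
  u := u
  del := del
  rho2 := rho2
  rho0 := rho0
  th := th
  wl := mkWl k u M del rho2 rho0
  e1 := e1
  e0 := e0

end SokalFU
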