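import Pool.Agent.Lib_MP_af4de1_fu.N2S

/-!
# `N = 2`: the complex side

`|E(r e^(iη))|² = ∑ (2 r cos(η + δ(n-1)/2))^n/n!`, `F(z; -e^(iδ)) = ((1-i) E(iz) + (1+i) E(-iz))/2`, and the
reduction of `Dist` to the real series `S`.
-/

set_option autoImplicit false

namespace SokalFU.N2

open Filter Topology Set SokalF

/-- the point `r e^(iη)` -/
noncomputable def pt (r η : ℝ) : ℂ := (r : ℂ) * Complex.exp ((η : ℂ) * Complex.I)

theorem norm_pt {r : ℝ} (hr : 0 ≤ r) (η : ℝ) : ‖pt r η‖ = r := by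
  unfold pt
  rw [norm_mul, Complex.norm_exp_ofReal_mul_I, mul_one, Complex.norm_real, Real.norm_of_nonneg hr]

theorem pt_add_pi (r η : ℝ) : pt r (η + Real.pi) = -pt r η := by
  unfold pt
  push_cast
  rw [add_mul, Complex.exp_add, Complex.exp_pi_mul_I]
  ring

theorem tri (j : ℕ) : ((j * (j - 1) / 2 : ℕ) : ℂ) = (j : ℂ) * ((j : ℂ) - 1) / 2 := by
  rw [← Nat.choose_two_right, Nat.cast_choose_two]

/-- terms of `E(r e^(iη))` -/
theorem term_eq (r δ η : ℝ) (j : ℕ) :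
    qa δ ^ (j * (j - 1) / 2) * pt r η ^ j / (j.factorial : ℂ) =
      (r : ℂ) ^ j / (j.factorial : ℂ) *
        Complex.exp ((((j : ℝ) * η + δ * ((j : ℝ) * ((j : ℝ) - 1) / 2) : ℝ) : ℂ) * Complex.I) := by
  unfold qa pt
  rw [← Complex.exp_nat_mul, tri, mul_pow, ← Complex.exp_nat_mul]
  have : Complex.exp ((((j : ℝ) * η + δ * ((j : ℝ) * ((j : ℝ) - 1) / 2) : ℝ) : ℂ) * Complex.I) =
      Complex.exp ((j : ℂ) * ((j : ℂ) - 1) / 2 * ((δ : ℂ) * Complex.I)) *
        Complex.exp ((j : ℂ) * ((η : ℂ) * Complex.I)) := by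
    rw [← Complex.exp_add]
    congr 1
    push_cast
    ring
  rw [this]
  ring

theorem conj_term_eq (r δ η : ℝ) (j : ℕ) :
    (starRingEnd ℂ) (qa δ ^ (j * (j - 1) / 2) * pt r η ^ j / (j.factorial : ℂ)) =
      (r : ℂ) ^ j / (j.factorial : ℂ) *
        Complex.exp (-((((j : ℝ) * η + δ * ((j : ℝ) * ((j : ℝ) - 1) / 2) : ℝ) : ℂ) * Complex.I)) := by
  rw [term_eq, map_mul, ← Complex.exp_conj]
  simp only [map_div₀, map_pow, Complex.conj_ofReal, map_natCast, map_mul, Complex.conj_I]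
  congr 2
  ring

theorem anti_sum (r δ η : ℝ) (n : ℕ) :
    ∑ p ∈ Finset.HasAntidiagonal.antidiagonal n, (qa δ ^ (p.1 * (p.1 - 1) / 2) * pt r η ^ p.1 / (p.1.factorial : ℂ)) *
      (starRingEnd ℂ) (qa δ ^ (p.2 * (p.2 - 1) / 2) * pt r η ^ p.2 / (p.2.factorial : ℂ)) =
      (((2 * r * Real.cos (η + δ * ((n : ℝ) - 1) / 2)) ^ n / (n.factorial : ℝ) : ℝ) : ℂ) := by
  set Θ : ℝ := η + δ * ((n : ℝ) - 1) / 2 with hΘ
  have h1 : (((2 * r * Real.cos Θ) ^ n / (n.factorial : ℝ) : ℝ) : ℂ) =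
      (r : ℂ) ^ n / (n.factorial : ℂ) * (Complex.exp ((Θ : ℂ) * Complex.I) + Complex.exp (-((Θ : ℂ) * Complex.I))) ^ n := by
    have h2 : Complex.exp ((Θ : ℂ) * Complex.I) + Complex.exp (-((Θ : ℂ) * Complex.I)) = 2 * Complex.cos (Θ : ℂ) := by
      rw [Complex.cos]
      ring_nf
    rw [h2]
    push_cast
    rw [mul_pow, mul_pow, mul_pow]
    ring
  rw [h1, (Commute.all _ _).add_pow', Finset.mul_sum]
  refine Finset.sum_congr rfl fun p hp => ?_
  have hp' : p.1 + p.2 = n := Finset.HasAntidiagonal.mem_antidiagonal.1 hp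
  rw [term_eq, conj_term_eq, nsmul_eq_mul]
  have hch : ((n.choose p.1 : ℕ) : ℂ) = (n.factorial : ℂ) / ((p.1.factorial : ℂ) * (p.2.factorial : ℂ)) := by
    have hq : p.1.factorial * p.2.factorial * (n.choose p.1) = n.factorial := by
      have := Nat.choose_mul_factorial_mul_factorial (show p.1 ≤ n by omega)
      rw [show n - p.1 = p.2 by omega] at this
      rw [← this]; ring
    have hq1 : (p.1.factorial : ℂ) ≠ 0 := by exact_mod_cast Nat.factorial_ne_zero _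
    have hq2 : (p.2.factorial : ℂ) ≠ 0 := by exact_mod_cast Nat.factorial_ne_zero _
    rw [eq_div_iff (mul_ne_zero hq1 hq2), ← hq]
    push_cast
    ring
  rw [hch]
  have e1 : Complex.exp ((((p.1 : ℝ) * η + δ * ((p.1 : ℝ) * ((p.1 : ℝ) - 1) / 2) : ℝ) : ℂ) * Complex.I) *
      Complex.exp (-((((p.2 : ℝ) * η + δ * ((p.2 : ℝ) * ((p.2 : ℝ) - 1) / 2) : ℝ) : ℂ) * Complex.I)) =
      Complex.exp ((Θ : ℂ) * Complex.I) ^ p.1 * Complex.exp (-((Θ : ℂ) * Complex.I)) ^ p.2 := by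
    rw [← Complex.exp_nat_mul, ← Complex.exp_nat_mul, ← Complex.exp_add, ← Complex.exp_add]
    congr 1
    rw [hΘ, ← hp']
    push_cast
    ring
  have hf1 : (p.1.factorial : ℂ) ≠ 0 := by exact_mod_cast Nat.factorial_ne_zero _
  have hf2 : (p.2.factorial : ℂ) ≠ 0 := by exact_mod_cast Nat.factorial_ne_zero _
  have hf3 : (n.factorial : ℂ) ≠ 0 := by exact_mod_cast Nat.factorial_ne_zero _
  have e2 : (r : ℂ) ^ n = (r : ℂ) ^ p.1 * (r : ℂ) ^ p.2 := by rw [← pow_add, hp']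
  calc (r : ℂ) ^ p.1 / (p.1.factorial : ℂ) *
          Complex.exp ((((p.1 : ℝ) * η + δ * ((p.1 : ℝ) * ((p.1 : ℝ) - 1) / 2) : ℝ) : ℂ) * Complex.I) *
        ((r : ℂ) ^ p.2 / (p.2.factorial : ℂ) *
          Complex.exp (-((((p.2 : ℝ) * η + δ * ((p.2 : ℝ) * ((p.2 : ℝ) - 1) / 2) : ℝ) : ℂ) * Complex.I)))
      = (r : ℂ) ^ p.1 * (r : ℂ) ^ p.2 / ((p.1.factorial : ℂ) * (p.2.factorial : ℂ)) *
        (Complex.exp ((((p.1 : ℝ) * η + δ * ((p.1 : ℝ) * ((p.1 : ℝ) - 1) / 2) : ℝ) : ℂ) * Complex.I) *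
          Complex.exp (-((((p.2 : ℝ) * η + δ * ((p.2 : ℝ) * ((p.2 : ℝ) - 1) / 2) : ℝ) : ℂ) * Complex.I))) := by
        field_simp
    _ = _ := by
        rw [e1, e2]
        field_simp

theorem norm_term (r δ η : ℝ) (j : ℕ) :
    ‖qa δ ^ (j * (j - 1) / 2) * pt r η ^ j / (j.factorial : ℂ)‖ ≤ ‖pt r η‖ ^ j / (j.factorial : ℝ) :=
  norm_term_le (norm_qa δ).le _ j

/-- `|E(r e^(iη))|²` -/
theorem normSq_E (r δ η : ℝ) :
    Complex.normSq (F (qa δ) (pt r η)) =
      ∑' n : ℕ, (2 * r * Real.cos (η + δ * ((n : ℝ) - 1) / 2)) ^ n / (n.factorial : ℝ) := by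
  have hs : Summable fun j : ℕ => ‖qa δ ^ (j * (j - 1) / 2) * pt r η ^ j / (j.factorial : ℂ)‖ :=
    Summable.of_nonneg_of_le (fun _ => norm_nonneg _) (norm_term r δ η) (Real.summable_pow_div_factorial _)
  have hs2 : Summable fun j : ℕ =>
      ‖(starRingEnd ℂ) (qa δ ^ (j * (j - 1) / 2) * pt r η ^ j / (j.factorial : ℂ))‖ := by
    simpa only [Complex.norm_conj] using hs
  have h1 := tsum_mul_tsum_eq_tsum_sum_antidiagonal_of_summable_norm hs hs2
  have h2 : (∑' j : ℕ, (starRingEnd ℂ) (qa δ ^ (j * (j - 1) / 2) * pt r η ^ j / (j.factorial : ℂ))) =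
      (starRingEnd ℂ) (F (qa δ) (pt r η)) := by
    unfold F
    rw [Complex.conj_tsum]
  rw [h2] at h1
  have h3 : (F (qa δ) (pt r η)) * (starRingEnd ℂ) (F (qa δ) (pt r η)) =
      ((∑' n : ℕ, (2 * r * Real.cos (η + δ * ((n : ℝ) - 1) / 2)) ^ n / (n.factorial : ℝ) : ℝ) : ℂ) := by
    rw [Complex.ofReal_tsum, ← tsum_congr (fun n => anti_sum r δ η n), ← h1]
    rfl
  rw [Complex.mul_conj] at h3
  exact_mod_cast h3

theorem S_eq {r : ℝ} (hr : 0 ≤ r) (δ η : ℝ) :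
    S r δ η = (Complex.normSq (F (qa δ) (pt r η)) - Complex.normSq (F (qa δ) (-pt r η))) / 2 := by
  rw [← pt_add_pi, normSq_E, normSq_E]
  set f : ℕ → ℝ := fun n => (2 * r * Real.cos (η + δ * ((n : ℝ) - 1) / 2)) ^ n / (n.factorial : ℝ) with hf
  set g : ℕ → ℝ := fun n => (2 * r * Real.cos (η + Real.pi + δ * ((n : ℝ) - 1) / 2)) ^ n / (n.factorial : ℝ) with hg
  have hfs : Summable f := Summable.of_norm_bounded (Real.summable_pow_div_factorial (2 * r)) (fun n => abs_term_le hr _ n)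
  have hgs : Summable g := Summable.of_norm_bounded (Real.summable_pow_div_factorial (2 * r)) (fun n => abs_term_le hr _ n)
  have hfg : ∀ n, g n = (-1) ^ n * f n := fun n => by
    rw [hf, hg]
    simp only
    have : Real.cos (η + Real.pi + δ * ((n : ℝ) - 1) / 2) = -Real.cos (η + δ * ((n : ℝ) - 1) / 2) := by
      rw [← Real.cos_add_pi]; ring_nf
    rw [this, mul_neg, neg_pow]
    ring
  have he : Summable fun k : ℕ => f (2 * k) := hfs.comp_injective (fun a b h => by simpa using h)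
  have ho : Summable fun k : ℕ => f (2 * k + 1) := hfs.comp_injective (fun a b h => by simpa using h)
  have he' : Summable fun k : ℕ => g (2 * k) := hgs.comp_injective (fun a b h => by simpa using h)
  have ho' : Summable fun k : ℕ => g (2 * k + 1) := hgs.comp_injective (fun a b h => by simpa using h)
  rw [← tsum_even_add_odd he ho, ← tsum_even_add_odd he' ho']
  have e1 : ∑' k : ℕ, g (2 * k) = ∑' k : ℕ, f (2 * k) := tsum_congr fun k => by
    rw [hfg, Even.neg_one_pow ⟨k, by ring⟩, one_mul]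
  have e2 : ∑' k : ℕ, g (2 * k + 1) = -∑' k : ℕ, f (2 * k + 1) := by
    rw [← tsum_neg]
    exact tsum_congr fun k => by rw [hfg, Odd.neg_one_pow ⟨k, rfl⟩]; ring
  have e3 : S r δ η = ∑' k : ℕ, f (2 * k + 1) := by
    unfold S
    refine tsum_congr fun m => ?_
    rw [hf]
    unfold yy
    simp only
    congr 4
    push_cast
    ring
  rw [e1, e2, e3]
  ring

/-! ### The decomposition of `F(·; -e^(iδ))` -/

theorem coef (n : ℕ) : (-1 : ℂ) ^ (n * (n - 1) / 2) =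
    ((1 - Complex.I) * Complex.I ^ n + (1 + Complex.I) * (-Complex.I) ^ n) / 2 := by
  induction n with
  | zero => simp
  | succ n ih =>
    rw [Nat.triangle_succ, pow_add, ih, pow_succ, pow_succ, neg_pow Complex.I n]
    have h1 : ((-1 : ℂ) ^ n) * ((-1 : ℂ) ^ n) = 1 := by
      rw [← mul_pow]; simp
    have hI : Complex.I * Complex.I = -1 := Complex.I_mul_I
    linear_combination (Complex.I ^ n * (1 + Complex.I) / 2) * h1 + (Complex.I ^ n * ((-1 : ℂ) ^ n + 1) / 2) * hI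

theorem qa_add_pi (δ : ℝ) : qa (δ + Real.pi) = -qa δ := by
  unfold qa
  push_cast
  rw [add_mul, Complex.exp_add, Complex.exp_pi_mul_I]
  ring

theorem F_neg (δ : ℝ) (z : ℂ) : F (-qa δ) z =
    ((1 - Complex.I) * F (qa δ) (Complex.I * z) + (1 + Complex.I) * F (qa δ) (-(Complex.I * z))) / 2 := by
  unfold F
  rw [← tsum_mul_left, ← tsum_mul_left, ← (((summable_term (norm_qa δ).le _).mul_left _).tsum_add
    ((summable_term (norm_qa δ).le _).mul_left _)), ← tsum_div_const]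
  refine tsum_congr fun n => ?_
  rw [neg_pow, coef, mul_pow, neg_pow (Complex.I * z), mul_pow, neg_pow Complex.I]
  ring

end SokalFU.N2
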