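import Pool.Agent.Lib_MP_af4de1_fu.N2C

/-!
# `N = 2`: reduction of `Dist` to the real series
-/

set_option autoImplicit false

namespace SokalFU.N2

open Filter Topology Set SokalF

theorem hasDerivAt_pt (r η : ℝ) : HasDerivAt (pt r) (Complex.I * pt r η) η := by
  have h1 : HasDerivAt (fun x : ℝ => ((x : ℂ) * Complex.I)) Complex.I η := by
    simpa using (Complex.ofRealCLM.hasDerivAt (x := η)).mul_const Complex.I
  have h2 := (h1.cexp).const_mul (r : ℂ)
  refine h2.congr_deriv ?_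
  unfold pt
  ring

theorem hasDerivAt_Fpt (r δ η : ℝ) : HasDerivAt (fun x : ℝ => F (qa δ) (pt r x))
    (Complex.I * pt r η * F (qa δ) (qa δ * pt r η)) η := by
  have h := (hasDerivAt_F (norm_qa δ).le (pt r η)).scomp η (hasDerivAt_pt r η)
  exact h.congr_deriv (by rw [smul_eq_mul])

theorem hasDerivAt_Fnpt (r δ η : ℝ) : HasDerivAt (fun x : ℝ => F (qa δ) (-pt r x))
    (-(Complex.I * pt r η) * F (qa δ) (qa δ * (-pt r η))) η := by
  have h := (hasDerivAt_F (norm_qa δ).le (-pt r η)).scomp η (hasDerivAt_pt r η).fun_neg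
  exact h.congr_deriv (by rw [smul_eq_mul])

/-- `∂S/∂η` in terms of `E` -/
theorem J_eq {r : ℝ} (hr : 0 ≤ r) (δ η : ℝ) : -(2 * r) * J r δ η =
    ((starRingEnd ℂ) (F (qa δ) (pt r η)) * (Complex.I * pt r η * F (qa δ) (qa δ * pt r η))).re -
    ((starRingEnd ℂ) (F (qa δ) (-pt r η)) * (-(Complex.I * pt r η) * F (qa δ) (qa δ * (-pt r η)))).re := by
  have h1 := (hasDerivAt_Fpt r δ η).norm_sq
  have h2 := (hasDerivAt_Fnpt r δ η).norm_sq
  have h3 := (h1.sub h2).div_const 2
  have h4 : (fun x => ((fun x => ‖F (qa δ) (pt r x)‖ ^ 2) - fun x => ‖F (qa δ) (-pt r x)‖ ^ 2) x / 2) = S r δ := by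
    funext x
    simp only [Pi.sub_apply]
    rw [S_eq hr, Complex.normSq_eq_norm_sq, Complex.normSq_eq_norm_sq]
  rw [h4] at h3
  have h6 := (hasDerivAt_S hr δ η).unique h3
  rw [h6, Complex.inner, Complex.inner]
  ring

/-! ### Periodicity -/

/-- `η'` is `η` modulo `π` -/
def Q (r δ η η' : ℝ) : Prop :=
  (S r δ η' = S r δ η ∧ J r δ η' = J r δ η ∧ pt r η' = pt r η) ∨
    (S r δ η' = -S r δ η ∧ J r δ η' = -J r δ η ∧ pt r η' = -pt r η)

theorem Q_refl (r δ η : ℝ) : Q r δ η η := Or.inl ⟨rfl, rfl, rfl⟩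

theorem Q_add (r δ η : ℝ) : Q r δ η (η + Real.pi) := Or.inr ⟨S_add_pi r δ η, J_add_pi r δ η, pt_add_pi r η⟩

theorem Q_symm {r δ η η' : ℝ} (h : Q r δ η η') : Q r δ η' η := by
  rcases h with ⟨a, b, c⟩ | ⟨a, b, c⟩
  · exact Or.inl ⟨a.symm, b.symm, c.symm⟩
  · exact Or.inr ⟨by rw [a, neg_neg], by rw [b, neg_neg], by rw [c, neg_neg]⟩

theorem Q_trans {r δ η η' η'' : ℝ} (h : Q r δ η η') (h' : Q r δ η' η'') : Q r δ η η'' := by
  rcases h with ⟨a, b, c⟩ | ⟨a, b, c⟩ <;> rcases h' with ⟨a', b', c'⟩ | ⟨a', b', c'⟩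
  · exact Or.inl ⟨a'.trans a, b'.trans b, c'.trans c⟩
  · exact Or.inr ⟨by rw [a', a], by rw [b', b], by rw [c', c]⟩
  · exact Or.inr ⟨by rw [a', a], by rw [b', b], by rw [c', c]⟩
  · exact Or.inl ⟨by rw [a', a, neg_neg], by rw [b', b, neg_neg], by rw [c', c, neg_neg]⟩

theorem Q_zmul (r δ η : ℝ) (n : ℤ) : Q r δ η (η + n * Real.pi) := by
  induction n using Int.induction_on with
  | zero => simpa using Q_refl r δ η
  | succ n ih =>
    have := Q_trans ih (Q_add r δ _)
    convert this using 1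
    push_cast; ring
  | pred n ih =>
    have h1 : Q r δ (η + ((-(n : ℤ) - 1 : ℤ) : ℝ) * Real.pi) (η + ((-(n : ℤ) : ℤ) : ℝ) * Real.pi) := by
      have := Q_add r δ (η + ((-(n : ℤ) - 1 : ℤ) : ℝ) * Real.pi)
      convert this using 1
      push_cast; ring
    exact Q_trans ih (Q_symm h1)

theorem exists_Q (r δ c η : ℝ) : ∃ η' ∈ Ico c (c + Real.pi), Q r δ η η' := by
  refine ⟨toIcoMod Real.pi_pos c η, toIcoMod_mem_Ico _ _ _, ?_⟩
  have h := Q_zmul r δ η (-toIcoDiv Real.pi_pos c η)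
  convert h using 1
  rw [toIcoMod]
  push_cast
  rw [zsmul_eq_mul]
  ring

/-! ### The reduction -/

theorem rel_of_zero {δ : ℝ} {w z : ℂ} (hw : Complex.I * z = w) (h : F (-qa δ) z = 0) :
    F (qa δ) (-w) = Complex.I * F (qa δ) w := by
  rw [F_neg, hw] at h
  have hI : Complex.I * Complex.I = -1 := Complex.I_mul_I
  linear_combination (1 - Complex.I) * h + ((F (qa δ) (-w) - F (qa δ) w) / 2) * hI

theorem S_of_zero {r δ η : ℝ} (hr : 0 ≤ r) {z : ℂ} (hw : Complex.I * z = pt r η) (h : F (-qa δ) z = 0) :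
    S r δ η = 0 := by
  rw [S_eq hr, rel_of_zero hw h, Complex.normSq_mul, Complex.normSq_I]
  ring

theorem J_of_zero {r δ η : ℝ} (hr : 0 < r) (h1 : F (qa δ) (pt r η) = 0) (h2 : F (qa δ) (-pt r η) = 0) :
    J r δ η = 0 := by
  have h := J_eq hr.le δ η
  rw [h1, h2] at h
  simp only [map_zero, zero_mul, Complex.zero_re, sub_zero] at h
  have h3 : (2 * r) * J r δ η = 0 := by linarith
  rcases mul_eq_zero.1 h3 with h4 | h4
  · linarith
  · exact h4

theorem J_of_double {r δ η : ℝ} (hr : 0 < r) {z : ℂ} (hw : Complex.I * z = pt r η) (h : F (-qa δ) z = 0)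
    (h' : F (-qa δ) (-qa δ * z) = 0) : J r δ η = 0 := by
  have e1 := rel_of_zero hw h
  have e2 := rel_of_zero (w := -(qa δ * pt r η)) (z := -qa δ * z) (by rw [← hw]; ring) h'
  rw [neg_neg] at e2
  have e3 := J_eq hr.le δ η
  have hI : Complex.I * Complex.I = -1 := Complex.I_mul_I
  have e4 : F (qa δ) (qa δ * (-pt r η)) = -Complex.I * F (qa δ) (qa δ * pt r η) := by
    rw [e2, mul_neg]
    linear_combination F (qa δ) (-(qa δ * pt r η)) * hI
  rw [e1, e4] at e3
  have e5 : (starRingEnd ℂ) (Complex.I * F (qa δ) (pt r η)) *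
      (-(Complex.I * pt r η) * (-Complex.I * F (qa δ) (qa δ * pt r η))) =
      (starRingEnd ℂ) (F (qa δ) (pt r η)) * (Complex.I * pt r η * F (qa δ) (qa δ * pt r η)) := by
    rw [map_mul, Complex.conj_I]
    linear_combination (-(starRingEnd ℂ) (F (qa δ) (pt r η)) * Complex.I * pt r η * F (qa δ) (qa δ * pt r η)) * hI
  rw [e5, sub_self] at e3
  have h3 : (2 * r) * J r δ η = 0 := by linarith
  rcases mul_eq_zero.1 h3 with h4 | h4
  · linarith
  · exact h4

/-- The reduction: `S = 0 → J > 0` in a half circle implies `Dist`. -/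
theorem dist_of {r δ c : ℝ} (hr : 0 < r) (h : ∀ η ∈ Ico c (c + Real.pi), S r δ η = 0 → 0 < J r δ η) :
    Dist (δ + Real.pi) r := by
  have hpt : ∀ z : ℂ, ‖z‖ = r → ∃ η, Complex.I * z = pt r η := fun z hz => by
    refine ⟨Complex.arg (Complex.I * z), ?_⟩
    have h1 : ‖Complex.I * z‖ = r := by rw [norm_mul, Complex.norm_I, one_mul, hz]
    unfold pt
    rw [← h1, Complex.norm_mul_exp_arg_mul_I]
  have hJ : ∀ η, S r δ η = 0 → J r δ η ≠ 0 := fun η hη => by
    obtain ⟨η', hm, hQ⟩ := exists_Q r δ c η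
    rcases hQ with ⟨a, b, _⟩ | ⟨a, b, _⟩
    · have := h η' hm (by rw [a, hη])
      rw [← b]
      exact this.ne'
    · have := h η' hm (by rw [a, hη, neg_zero])
      intro h0
      rw [b, h0, neg_zero] at this
      exact lt_irrefl _ this
  intro z hz hF
  rw [qa_add_pi] at hF ⊢
  obtain ⟨η, hη⟩ := hpt z hz
  refine ⟨?_, fun z' hz' hF' => ?_⟩
  · rw [deriv_F (by rw [norm_neg, norm_qa])]
    intro h0
    exact hJ η (S_of_zero hr.le hη hF) (J_of_double hr hη hF h0)
  · obtain ⟨η', hη'⟩ := hpt z' hz'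
    obtain ⟨a, ham, haQ⟩ := exists_Q r δ c η
    obtain ⟨b, hbm, hbQ⟩ := exists_Q r δ c η'
    have hS1 := S_of_zero hr.le hη hF
    have hS2 := S_of_zero hr.le hη' hF'
    have hSa : S r δ a = 0 := by
      rcases haQ with ⟨e, _, _⟩ | ⟨e, _, _⟩ <;> rw [e, hS1] <;> simp
    have hSb : S r δ b = 0 := by
      rcases hbQ with ⟨e, _, _⟩ | ⟨e, _, _⟩ <;> rw [e, hS2] <;> simp
    have hab : a = b := by
      rcases lt_trichotomy a b with hlt | heq | hlt
      · exact (unique_of hr h ham hbm hlt hSa hSb).elim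
      · exact heq
      · exact (unique_of hr h hbm ham hlt hSb hSa).elim
    have hI : Complex.I ≠ 0 := Complex.I_ne_zero
    have hcase : z' = z ∨ z' = -z := by
      have h1 : pt r a = Complex.I * z ∨ pt r a = -(Complex.I * z) := by
        rcases haQ with ⟨_, _, e⟩ | ⟨_, _, e⟩
        · left; rw [e, hη]
        · right; rw [e, hη]
      have h2 : pt r a = Complex.I * z' ∨ pt r a = -(Complex.I * z') := by
        rw [hab]
        rcases hbQ with ⟨_, _, e⟩ | ⟨_, _, e⟩
        · left; rw [e, hη']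
        · right; rw [e, hη']
      rcases h1 with h1 | h1 <;> rcases h2 with h2 | h2 <;> rw [h1] at h2
      · left; exact (mul_left_cancel₀ hI h2).symm
      · right
        have : Complex.I * z' = Complex.I * (-z) := by rw [mul_neg, h2, neg_neg]
        exact mul_left_cancel₀ hI this
      · right
        have : Complex.I * z' = Complex.I * (-z) := by rw [mul_neg, ← h2]
        exact mul_left_cancel₀ hI this
      · left
        exact (mul_left_cancel₀ hI (neg_injective h2)).symm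
    rcases hcase with hc | hc
    · exact hc
    · exfalso
      rw [hc] at hF'
      have e1 := rel_of_zero hη hF
      have e2 := rel_of_zero (w := -pt r η) (z := -z) (by rw [mul_neg, hη]) hF'
      rw [neg_neg] at e2
      have hII : Complex.I * Complex.I = -1 := Complex.I_mul_I
      have e3 : F (qa δ) (pt r η) = 0 := by
        have : F (qa δ) (pt r η) = -F (qa δ) (pt r η) := by
          calc F (qa δ) (pt r η) = Complex.I * F (qa δ) (-pt r η) := e2
            _ = Complex.I * Complex.I * F (qa δ) (pt r η) := by rw [e1, mul_assoc]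
            _ = _ := by rw [hII, neg_one_mul]
        exact self_eq_neg.1 this
      have e4 : F (qa δ) (-pt r η) = 0 := by rw [e1, e3, mul_zero]
      exact hJ η hS1 (J_of_zero hr e3 e4)

end SokalFU.N2
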