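import Pool.Agent.Lib_MP_af4de1_fu.N2D

/-!
# `N = 2`: elementary estimates
-/

set_option autoImplicit false

namespace SokalFU.N2

open Filter Topology Set Real

/-! ### Factorials -/

theorem pow_fact_le {x : ℝ} (hx : 0 ≤ x) (κ : ℝ) (n : ℕ) :
    x ^ n / (n.factorial : ℝ) ≤ exp (-(κ * n)) * exp (x * exp κ) := by
  have h1 := Real.pow_div_factorial_le_exp (x * exp κ) (by positivity) n
  have h2 : x ^ n / (n.factorial : ℝ) = exp (-(κ * n)) * ((x * exp κ) ^ n / (n.factorial : ℝ)) := by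
    rw [mul_pow, ← exp_nat_mul, exp_neg, mul_comm (n : ℝ) κ]
    field_simp
  rw [h2]
  exact mul_le_mul_of_nonneg_left h1 (exp_pos _).le

theorem fact_le (n : ℕ) : ((n + 1).factorial : ℝ) ≤ exp 1 * (n + 1 : ℕ) * ((n + 1 : ℕ) / exp 1) ^ (n + 1) := by
  induction n with
  | zero =>
    simp only [zero_add, Nat.factorial_one, Nat.cast_one, mul_one, pow_one]
    rw [mul_div_cancel₀ _ (exp_pos 1).ne']
  | succ n ih =>
    have he := exp_pos 1
    have hn : (0 : ℝ) < (n + 1 : ℕ) := by positivity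
    have h1 : exp 1 * ((n + 1 : ℕ) : ℝ) ^ (n + 1 + 1) ≤ ((n + 1 + 1 : ℕ) : ℝ) ^ (n + 1 + 1) := by
      have h2 : exp 1 ≤ (((n + 1 + 1 : ℕ) : ℝ) / (n + 1 : ℕ)) ^ (n + 1 + 1) := by
        have h3 : (0 : ℝ) < ((n + 1 + 1 : ℕ) : ℝ) / (n + 1 : ℕ) := by positivity
        have h4 := Real.one_sub_inv_le_log_of_pos h3
        have h5 : 1 - (((n + 1 + 1 : ℕ) : ℝ) / (n + 1 : ℕ))⁻¹ = 1 / ((n + 1 + 1 : ℕ) : ℝ) := by
          push_cast
          field_simp
          ring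
        rw [h5] at h4
        calc exp 1 = exp (((n + 1 + 1 : ℕ) : ℝ) * (1 / ((n + 1 + 1 : ℕ) : ℝ))) := by
              congr 1
              have : ((n + 1 + 1 : ℕ) : ℝ) ≠ 0 := by positivity
              field_simp
          _ ≤ exp (((n + 1 + 1 : ℕ) : ℝ) * log (((n + 1 + 1 : ℕ) : ℝ) / (n + 1 : ℕ))) := by
              apply exp_le_exp.2
              exact mul_le_mul_of_nonneg_left h4 (by positivity)
          _ = _ := by
              rw [exp_nat_mul, exp_log h3]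
      rw [div_pow, le_div_iff₀ (by positivity)] at h2
      exact h2
    rw [Nat.factorial_succ]
    push_cast
    push_cast at ih h1
    calc ((n : ℝ) + 1 + 1) * (((n + 1).factorial : ℕ) : ℝ)
        ≤ ((n : ℝ) + 1 + 1) * (exp 1 * ((n : ℝ) + 1) * (((n : ℝ) + 1) / exp 1) ^ (n + 1)) := by
          gcongr
      _ = ((n : ℝ) + 1 + 1) / exp 1 ^ (n + 1) * (exp 1 * ((n : ℝ) + 1) ^ (n + 1 + 1)) := by
          rw [div_pow]
          field_simp
          ring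
      _ ≤ ((n : ℝ) + 1 + 1) / exp 1 ^ (n + 1) * (((n : ℝ) + 1 + 1) ^ (n + 1 + 1)) := by
          gcongr
      _ = exp 1 * ((n : ℝ) + 1 + 1) * (((n : ℝ) + 1 + 1) / exp 1) ^ (n + 1 + 1) := by
          rw [div_pow]
          field_simp
          ring

/-- lower bound of `x^n/n!` -/
theorem le_pow_fact {x b : ℝ} {n : ℕ} (hn : 1 ≤ n) (hb : 0 ≤ b) (h : b * n ≤ x * exp 1) :
    b ^ n / (exp 1 * n) ≤ x ^ n / (n.factorial : ℝ) := by
  obtain ⟨k, rfl⟩ : ∃ k, n = k + 1 := ⟨n - 1, by omega⟩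
  have he := exp_pos 1
  have h1 := fact_le k
  have hx : b * ((k + 1 : ℕ) : ℝ) / exp 1 ≤ x := by
    rw [div_le_iff₀ he]; exact h
  have hx0 : 0 ≤ b * ((k + 1 : ℕ) : ℝ) / exp 1 := by positivity
  rw [div_le_div_iff₀ (by positivity) (by positivity)]
  calc b ^ (k + 1) * ((k + 1).factorial : ℝ)
      ≤ b ^ (k + 1) * (exp 1 * (k + 1 : ℕ) * ((k + 1 : ℕ) / exp 1) ^ (k + 1)) := by gcongr
    _ = (b * ((k + 1 : ℕ) : ℝ) / exp 1) ^ (k + 1) * (exp 1 * (k + 1 : ℕ)) := by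
        rw [mul_div_assoc, mul_pow]; ring
    _ ≤ x ^ (k + 1) * (exp 1 * (k + 1 : ℕ)) := by gcongr

end SokalFU.N2
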