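import Pool.Agent.Lib_MP_af4de1_fu.N2E

/-!
# `N = 2`: the zone `η ∈ [-π/2, 0]`: `S > 0`
-/

set_option autoImplicit false

namespace SokalFU.N2

open Filter Topology Set Real

/-! ### Geometric sums and the general lower bound -/

theorem geo_lt {a : ℝ} (ha : 0 < a) : exp (-a) < 1 := by
  rw [exp_lt_one_iff]; linarith

theorem exp_geo (a : ℝ) (m : ℕ) : exp (-(a * m)) = exp (-a) ^ m := by
  rw [← exp_nat_mul]; ring_nf

theorem summable_geo {a : ℝ} (ha : 0 < a) : Summable fun m : ℕ => exp (-(a * m)) := by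
  simp only [exp_geo]
  exact summable_geometric_of_lt_one (exp_pos _).le (geo_lt ha)

theorem tsum_geo_le {a : ℝ} (ha : 0 < a) : ∑' m : ℕ, exp (-(a * m)) ≤ (1 + a) / a := by
  simp only [exp_geo]
  rw [tsum_geometric_of_lt_one (exp_pos _).le (geo_lt ha)]
  have h1 : 1 + a ≤ exp a := by linarith [add_one_le_exp a]
  have h2 : exp (-a) ≤ 1 / (1 + a) := by
    rw [exp_neg, ← one_div]
    exact one_div_le_one_div_of_le (by linarith) h1
  have h3 : a / (1 + a) ≤ 1 - exp (-a) := by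
    have : a / (1 + a) = 1 - 1 / (1 + a) := by field_simp; ring
    linarith
  rw [← inv_div a (1 + a)]
  exact inv_anti₀ (by positivity) h3

theorem S_ge {r δ η : ℝ} (hr : 0 ≤ r) {C a : ℝ} (hC : 0 ≤ C) (ha : 0 < a)
    (h : ∀ m : ℕ, -(C * exp (-(a * m))) ≤ yy r δ η m) (k : ℕ) :
    yy r δ η k - C * ((1 + a) / a) ≤ S r δ η := by
  have hs := summable_yy hr δ η
  have hg := (summable_geo ha).mul_left C
  have h1 := (hs.add hg).le_tsum k (fun j _ => by linarith [h j])
  rw [hs.tsum_add hg, tsum_mul_left] at h1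
  have h2 := mul_le_mul_of_nonneg_left (tsum_geo_le ha) hC
  have h3 : 0 ≤ C * exp (-(a * k)) := by positivity
  have h4 : S r δ η = ∑' m, yy r δ η m := rfl
  linarith

/-! ### The terms -/

theorem yy_nonneg {r δ η : ℝ} (hr : 0 ≤ r) {m : ℕ} (h : 0 ≤ cos (η + m * δ)) : 0 ≤ yy r δ η m := by
  unfold yy; positivity

theorem yy_nonpos {r δ η : ℝ} (hr : 0 ≤ r) {m : ℕ} (h : cos (η + m * δ) ≤ 0) : yy r δ η m ≤ 0 := by
  unfold yy
  apply div_nonpos_of_nonpos_of_nonneg _ (by positivity)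
  exact Odd.pow_nonpos ⟨m, rfl⟩ (mul_nonpos_of_nonneg_of_nonpos (by positivity) h)

theorem abs_yy_le {r : ℝ} (hr : 0 ≤ r) (δ η κ : ℝ) (m : ℕ) :
    |yy r δ η m| ≤ exp (-(κ * (2 * m + 1)) + 2 * r * |cos (η + m * δ)| * exp κ) := by
  have h := pow_fact_le (x := 2 * r * |cos (η + m * δ)|) (by positivity) κ (2 * m + 1)
  unfold yy
  rw [abs_div, abs_pow, abs_of_nonneg (by positivity : (0 : ℝ) ≤ ((2 * m + 1).factorial : ℝ)), abs_mul,
    abs_of_nonneg (by positivity : (0 : ℝ) ≤ 2 * r), exp_add]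
  push_cast at h
  exact h

theorem sin_le_cos {x t : ℝ} (h : |x| ≤ π / 2 - t) (ht : -(π / 2) ≤ t) : sin t ≤ cos x := by
  rw [← cos_abs x, ← cos_pi_div_two_sub t]
  exact cos_le_cos_of_nonneg_of_le_pi (abs_nonneg _) (by linarith) h

theorem exp_neg_le {x : ℝ} (hx : 0 < x) : exp (-x) ≤ 6 / x ^ 3 := by
  have h := Real.pow_div_factorial_le_exp x hx.le 3
  have h2 : x ^ 3 / 6 ≤ exp x := by
    have : ((3 : ℕ).factorial : ℝ) = 6 := by norm_num [Nat.factorial]
    rwa [this] at h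
  rw [exp_neg, ← one_div, div_le_div_iff₀ (exp_pos _) (by positivity)]
  have : 0 < x ^ 3 := by positivity
  linarith

/-! ### Case A: `ρ ≤ 1/2` -/

theorem Z1A {r δ η : ℝ} (hr : 40 ≤ r) (hδ : 0 < δ) (hρ : r * δ ≤ 1 / 2) (h1 : -(π / 2) ≤ η) (h2 : η ≤ 0) :
    0 < S r δ η := by
  have hπ := Real.pi_gt_d6
  have hπ2 := Real.pi_lt_d6
  have hδ2 : δ ≤ 0.0125 := by nlinarith
  have hr0 : 0 ≤ r := by linarith
  -- lower bound of the terms
  have hb : ∀ m : ℕ, -(exp (-(0.26 / δ)) * exp (-(0.1 * m))) ≤ yy r δ η m := by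
    intro m
    by_cases hm : η + m * δ ≤ π / 2
    · have : 0 ≤ yy r δ η m := yy_nonneg hr0 (cos_nonneg_of_mem_Icc ⟨by nlinarith [mul_nonneg (Nat.cast_nonneg m : (0:ℝ) ≤ m) hδ.le], hm⟩)
      have : 0 ≤ exp (-(0.26 / δ)) * exp (-(0.1 * m)) := by positivity
      linarith
    · rw [not_le] at hm
      have h3 := abs_yy_le hr0 δ η 1 m
      have h4 : -(1 * (2 * (m : ℝ) + 1)) + 2 * r * |cos (η + m * δ)| * exp 1 ≤ -(0.26 / δ) + -(0.1 * m) := by
        have h5 : 2 * r * |cos (η + m * δ)| * exp 1 ≤ 2 * r * 1 * 2.7183 := by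
          have := Real.exp_one_lt_d9
          gcongr
          · exact abs_cos_le_one _
          · linarith
        have h6 : π / 2 ≤ m * δ := by linarith
        have h7 : π * r ≤ m := by
          have : π * (r * δ) ≤ m * δ := by nlinarith
          have h8 : (π * r) * δ ≤ m * δ := by linarith
          exact le_of_mul_le_mul_right h8 hδ
        have h8 : 0.26 / δ ≤ 0.169 * m := by
          rw [div_le_iff₀ hδ]
          nlinarith
        have h9 : 3.141592 * r ≤ m := by nlinarith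
        linarith
      have h10 := (exp_le_exp.2 h4)
      rw [exp_add (-(0.26 / δ))] at h10
      have := neg_abs_le (yy r δ η m)
      linarith
  have h3 := S_ge hr0 (exp_pos _).le (by norm_num : (0 : ℝ) < 0.1) hb 1
  -- the main term
  have h4 : (79.2 * δ) ^ 3 / 6 ≤ yy r δ η 1 := by
    unfold yy
    have e1 : ((2 * 1 + 1 : ℕ).factorial : ℝ) = 6 := by norm_num [Nat.factorial]
    rw [e1]
    have e2 : 79.2 * δ ≤ 2 * r * cos (η + ((1 : ℕ) : ℝ) * δ) := by
      have h5 : sin δ ≤ cos (η + ((1 : ℕ) : ℝ) * δ) := by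
        apply sin_le_cos _ (by linarith)
        rw [abs_le]
        constructor <;> push_cast <;> linarith
      have h6 := Real.sin_gt_sub_cube hδ
      have h7 : 0.99 * δ ≤ sin δ := by nlinarith [mul_pos hδ hδ, mul_pos (mul_pos hδ hδ) hδ]
      have h8 : 0.99 * δ ≤ cos (η + ((1 : ℕ) : ℝ) * δ) := h7.trans h5
      nlinarith
    have e3 : 0 ≤ 79.2 * δ := by positivity
    exact div_le_div_of_nonneg_right (pow_le_pow_left₀ e3 e2 3) (by norm_num)
  have h5 : exp (-(0.26 / δ)) ≤ 342 * δ ^ 3 := by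
    have := exp_neg_le (x := 0.26 / δ) (by positivity)
    refine this.trans ?_
    rw [div_pow, div_div_eq_mul_div, div_le_iff₀ (by norm_num)]
    have : 0 < δ ^ 3 := by positivity
    nlinarith
  have h6 : 0 < δ ^ 3 := by positivity
  have h7 : (79.2 * δ) ^ 3 / 6 = (79.2 ^ 3 / 6) * δ ^ 3 := by ring
  rw [h7] at h4
  have h8 : exp (-(0.26 / δ)) * ((1 + 0.1) / 0.1) ≤ 342 * δ ^ 3 * ((1 + 0.1) / 0.1) := by gcongr
  norm_num at h4 h8 h3
  nlinarith

/-! ### The tail for `ρ ≤ 1.4` -/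

theorem hmax {θ : ℝ} (h : π / 2 ≤ θ) : 2.1171 * |cos θ| - 0.52857 * θ ≤ 0.5303 := by
  have hπ := Real.pi_gt_d6
  have hπ2 := Real.pi_lt_d6
  by_cases h1 : θ ≤ π - 1
  · have h2 : |cos θ| ≤ 5 / 9 := by
      rw [← abs_neg, ← cos_pi_sub, abs_of_nonneg (cos_nonneg_of_mem_Icc ⟨by linarith, by linarith⟩)]
      exact (cos_le_cos_of_nonneg_of_le_pi (by norm_num) (by linarith) (by linarith)).trans Real.cos_one_le
    linarith
  · rw [not_le] at h1
    by_cases h2 : π + 1 ≤ θ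
    · have := abs_cos_le_one θ
      linarith
    · rw [not_le] at h2
      obtain ⟨y, hy⟩ : ∃ y, y = π - θ := ⟨_, rfl⟩
      have hy1 : |y| ≤ 1 := by rw [abs_le]; constructor <;> linarith
      have h3 : |cos θ| ≤ 1 - 0.4479 * y ^ 2 := by
        rw [← abs_neg, ← cos_pi_sub, ← hy]
        have h4 := Real.cos_bound hy1
        have h5 : |y| ^ 4 ≤ y ^ 2 := by
          have : |y| ^ 4 = |y| ^ 2 * |y| ^ 2 := by ring
          rw [this, sq_abs]
          have h6 : y ^ 2 ≤ 1 := by rw [← sq_abs]; nlinarith [abs_nonneg y]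
          nlinarith [sq_nonneg y]
        have h7 : 0 ≤ cos y := cos_nonneg_of_mem_Icc (by
          rw [abs_le] at hy1
          constructor <;> linarith)
        rw [abs_of_nonneg h7]
        have := (abs_le.1 h4).2
        nlinarith
      have h8 : θ = π - y := by linarith
      rw [h8] at h3 ⊢
      nlinarith [sq_nonneg (y - 0.2787)]

theorem exp_34 : exp 0.75 ≤ 2.1171 := by
  have h := Real.exp_bound' (x := 0.75) (by norm_num) (by norm_num) (n := 8) (by norm_num)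
  refine h.trans ?_
  norm_num [Finset.sum_range_succ, Nat.factorial]

theorem tail1 {r δ η β : ℝ} {m : ℕ} (hr : 0 < r) (hδ : 0 < δ) (hρ : r * δ ≤ 1.4)
    (hη : η ≤ -(β * (r * δ))) (hθ : π / 2 ≤ η + m * δ) :
    |yy r δ η m| ≤ exp ((1.0606 - 1.48 * β) * r) * exp (-(0.02 * m)) := by
  have hπ := Real.pi_gt_d6
  refine (abs_yy_le hr.le δ η 0.75 m).trans ?_
  rw [← exp_add]
  apply exp_le_exp.2
  set θ : ℝ := η + m * δ with hθd
  have h1 := hmax hθ
  have h2 : 2 * r * |cos θ| * exp 0.75 ≤ 2 * r * |cos θ| * 2.1171 :=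
    mul_le_mul_of_nonneg_left exp_34 (by positivity)
  have h3 : r * (2.1171 * |cos θ| - 0.52857 * θ) ≤ r * 0.5303 := mul_le_mul_of_nonneg_left h1 hr.le
  have h4 : θ ≤ (m - β * r) * δ := by linarith
  have h5 : 0 < (m : ℝ) - β * r := by
    by_contra h6
    rw [not_lt] at h6
    have := mul_nonpos_of_nonpos_of_nonneg h6 hδ.le
    linarith
  have h6 : r * θ ≤ 1.4 * (m - β * r) := by
    calc r * θ ≤ r * ((m - β * r) * δ) := mul_le_mul_of_nonneg_left h4 hr.le
      _ = (r * δ) * (m - β * r) := by ring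
      _ ≤ 1.4 * (m - β * r) := mul_le_mul_of_nonneg_right hρ h5.le
  have h7 : 0 < r * θ := mul_pos hr (by linarith)
  linarith

end SokalFU.N2
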