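import Pool.Agent.Lib_MP_af4de1_fu.N2F

/-!
# `N = 2`: the zone `η ∈ [-π/2, 0]`, `ρ ∈ [1/2, 1.4]`: `S > 0`
-/

set_option autoImplicit false

namespace SokalFU.N2

open Filter Topology Set Real

theorem good_or_tail {r δ η β : ℝ} (hr : 40 ≤ r) (hδ : 0 < δ) (hρ : r * δ ≤ 1.4) (h1 : -(π / 2) ≤ η)
    (hη : η ≤ -(β * (r * δ))) (m : ℕ) :
    -(exp ((1.0606 - 1.48 * β) * r) * exp (-(0.02 * m))) ≤ yy r δ η m := by
  by_cases hm : η + m * δ ≤ π / 2
  · have : 0 ≤ yy r δ η m := yy_nonneg (by linarith)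
      (cos_nonneg_of_mem_Icc ⟨by nlinarith [mul_nonneg (Nat.cast_nonneg m : (0:ℝ) ≤ m) hδ.le], hm⟩)
    have : 0 ≤ exp ((1.0606 - 1.48 * β) * r) * exp (-(0.02 * m)) := by positivity
    linarith
  · rw [not_le] at hm
    have h3 := tail1 (by linarith) hδ hρ hη hm.le
    have := neg_abs_le (yy r δ η m)
    linarith

theorem main_ge {r δ η c κ : ℝ} {m : ℕ} (hr : 40 ≤ r) (hκ : 0 ≤ κ) (h1 : (m : ℝ) ≤ r / 2) (h2 : r / 2 < m + 1)
    (hc : c ≤ cos (η + m * δ)) (hκc : exp κ * (r + 1) ≤ 2 * r * c * exp 1) :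
    exp (κ * (r - 1)) / (exp 1 * (r + 1)) ≤ yy r δ η m := by
  have h3 : exp κ * ((2 * m + 1 : ℕ) : ℝ) ≤ 2 * r * cos (η + m * δ) * exp 1 := by
    calc exp κ * ((2 * m + 1 : ℕ) : ℝ) ≤ exp κ * (r + 1) := by
          push_cast
          gcongr
          linarith
      _ ≤ 2 * r * c * exp 1 := hκc
      _ ≤ 2 * r * cos (η + m * δ) * exp 1 := by gcongr
  have h4 := le_pow_fact (by omega : 1 ≤ 2 * m + 1) (exp_pos κ).le h3
  refine le_trans ?_ h4
  have h5 : exp (κ * (r - 1)) ≤ exp κ ^ (2 * m + 1) := by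
    rw [← exp_nat_mul]
    apply exp_le_exp.2
    push_cast
    nlinarith
  gcongr
  push_cast
  linarith

theorem exp_lin {r x : ℝ} (hr : 40 ≤ r) (hx : 0.2794 * r - 2.34 ≤ x) : 51 * (r + 1) < exp x := by
  have h8 : (2978 : ℝ) ≤ exp 8 := by
    have h1 : exp 8 = exp 1 ^ 8 := by rw [← exp_nat_mul]; norm_num
    rw [h1]
    calc (2978 : ℝ) ≤ 2.718 ^ 8 := by norm_num
      _ ≤ exp 1 ^ 8 := by
        have := Real.exp_one_gt_d9
        gcongr
        linarith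
  have h2 := add_one_le_exp (x - 8)
  have h3 : exp x = exp 8 * exp (x - 8) := by rw [← exp_add]; ring_nf
  rw [h3]
  have h4 : 0 < x - 8 + 1 := by linarith
  calc 51 * (r + 1) < 2978 * (x - 8 + 1) := by linarith
    _ ≤ exp 8 * exp (x - 8) := by gcongr

theorem final1 {r a b : ℝ} (hr : 40 ≤ r) (h : 0.2794 * r - 2.34 ≤ a - 1 - b) :
    0 < exp a / (exp 1 * (r + 1)) - exp b * ((1 + 0.02) / 0.02) := by
  have h1 := exp_lin hr h
  have h2 : exp (a - 1 - b) = exp a / (exp 1 * exp b) := by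
    rw [exp_sub, exp_sub]; field_simp
  rw [h2, lt_div_iff₀ (by positivity)] at h1
  rw [sub_pos, lt_div_iff₀ (by positivity)]
  norm_num
  linarith

theorem exp_034 : exp 0.34 ≤ 1.405 := by
  have h := Real.exp_bound' (x := 0.34) (by norm_num) (by norm_num) (n := 6) (by norm_num)
  refine h.trans ?_
  norm_num [Finset.sum_range_succ, Nat.factorial]

theorem exp_02 : exp 0.2 ≤ 1.2215 := by
  have h := Real.exp_bound' (x := 0.2) (by norm_num) (by norm_num) (n := 6) (by norm_num)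
  refine h.trans ?_
  norm_num [Finset.sum_range_succ, Nat.factorial]

theorem Z1B {r δ η : ℝ} (hr : 40 ≤ r) (hδ : 0 < δ) (hρ : r * δ ≤ 1.4) (h1 : -(r * δ) ≤ η) (h2 : η ≤ 0) :
    0 < S r δ η := by
  have hπ := Real.pi_gt_d6
  have hπ2 := Real.pi_lt_d6
  have hr0 : 0 ≤ r := by linarith
  have hδ2 : δ ≤ 0.035 := by nlinarith
  set m : ℕ := ⌊r / 2⌋₊ with hm
  have hm1 : (m : ℝ) ≤ r / 2 := Nat.floor_le (by linarith)
  have hm2 : r / 2 < m + 1 := Nat.lt_floor_add_one _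
  have h3 := S_ge (r := r) (δ := δ) (η := η) hr0 (exp_pos ((1.0606 - 1.48 * 0) * r)).le (by norm_num : (0 : ℝ) < 0.02)
    (good_or_tail hr hδ hρ (by linarith) (by linarith)) m
  have hc : 0.729 ≤ cos (η + m * δ) := by
    have h4 : |η + m * δ| ≤ 0.735 := by
      rw [abs_le]
      constructor
      · nlinarith
      · nlinarith
    have h5 := Real.one_sub_sq_div_two_le_cos (x := η + m * δ)
    have h6 : (η + m * δ) ^ 2 ≤ 0.735 ^ 2 := by
      rw [← sq_abs]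
      gcongr
    norm_num at h6 ⊢
    linarith
  have h4 := main_ge (κ := 1.34) hr (by norm_num) hm1 hm2 hc (by
    have e1 : exp 1.34 = exp 0.34 * exp 1 := by rw [← exp_add]; norm_num
    have e2 := exp_034
    have e3 := exp_pos 1
    rw [e1]
    have e4 : exp 0.34 * (r + 1) ≤ 2 * r * 0.729 := by
      calc exp 0.34 * (r + 1) ≤ 1.405 * (r + 1) := by gcongr
        _ ≤ 2 * r * 0.729 := by linarith
    calc exp 0.34 * exp 1 * (r + 1) = (exp 0.34 * (r + 1)) * exp 1 := by ring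
      _ ≤ (2 * r * 0.729) * exp 1 := by gcongr)
  have h5 := final1 (a := 1.34 * (r - 1)) (b := (1.0606 - 1.48 * 0) * r) hr (by linarith)
  linarith

theorem Z1C {r δ η : ℝ} (hr : 40 ≤ r) (hδ : 0 < δ) (hρ1 : 1 / 2 ≤ r * δ) (hρ : r * δ ≤ 1.4) (h1 : -(π / 2) ≤ η)
    (h2 : η ≤ -(r * δ)) : 0 < S r δ η := by
  have hπ := Real.pi_gt_d6
  have hπ2 := Real.pi_lt_d6
  have hr0 : 0 ≤ r := by linarith
  have hδ2 : δ ≤ 0.035 := by nlinarith
  set m : ℕ := ⌊r / 2⌋₊ with hm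
  have hm1 : (m : ℝ) ≤ r / 2 := Nat.floor_le (by linarith)
  have hm2 : r / 2 < m + 1 := Nat.lt_floor_add_one _
  have h3 := S_ge (r := r) (δ := δ) (η := η) hr0 (exp_pos ((1.0606 - 1.48 * 1) * r)).le (by norm_num : (0 : ℝ) < 0.02)
    (good_or_tail hr hδ hρ (by linarith) (by linarith)) m
  have hc : 0.235 ≤ cos (η + m * δ) := by
    have h4 : 0.235 ≤ sin 0.2375 := by
      have := Real.sin_gt_sub_cube (x := 0.2375) (by norm_num)
      refine le_trans ?_ this.le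
      norm_num
    refine h4.trans (sin_le_cos ?_ (by linarith))
    have h5 : 0.2375 ≤ m * δ := by nlinarith
    have h6 : m * δ ≤ 0.5 * (r * δ) := by nlinarith
    rw [abs_le]
    constructor
    · linarith
    · linarith
  have h4 := main_ge (κ := 0.2) hr (by norm_num) hm1 hm2 hc (by
    have e2 := exp_02
    have e3 := Real.exp_one_gt_d9
    calc exp 0.2 * (r + 1) ≤ 1.2215 * (r + 1) := by gcongr
      _ ≤ 2 * r * 0.235 * 2.718 := by linarith
      _ ≤ 2 * r * 0.235 * exp 1 := by gcongr; linarith)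
  have h5 := final1 (a := 0.2 * (r - 1)) (b := (1.0606 - 1.48 * 1) * r) hr (by linarith)
  linarith

/-- zone `[-π/2, 0]` -/
theorem Z1 {r δ η : ℝ} (hr : 40 ≤ r) (hδ : 0 < δ) (hρ : r * δ ≤ 1.4) (h1 : -(π / 2) ≤ η) (h2 : η ≤ 0) :
    0 < S r δ η := by
  rcases le_total (r * δ) (1 / 2) with h | h
  · exact Z1A hr hδ h h1 h2
  · rcases le_total η (-(r * δ)) with h' | h'
    · exact Z1C hr hδ h hρ h1 h'
    · exact Z1B hr hδ hρ h' h2

end SokalFU.N2
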