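import Pool.Agent.Lib_MP_af4de1_fu.N2G

/-!
# `N = 2`: the zone `η ∈ [π - 1.5 ρ, π/2]`: `S < 0`
-/

set_option autoImplicit false

namespace SokalFU.N2

open Filter Topology Set Real

theorem S_le {r δ η : ℝ} (hr : 0 ≤ r) {C a x : ℝ} (hC : 0 ≤ C) (ha : 0 < a) (hx : 0 ≤ x)
    (h : ∀ m : ℕ, yy r δ η m ≤ C * exp (-(a * m)) + x ^ (2 * m + 1) / ((2 * m + 1).factorial : ℝ)) (k : ℕ) :
    S r δ η ≤ yy r δ η k + C * ((1 + a) / a) + exp x := by
  have hs := summable_yy hr δ η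
  have hg := (summable_geo ha).mul_left C
  have hsx := summable_odd x
  have h1 := ((hg.add hsx).sub hs).le_tsum k (fun j _ => by linarith [h j])
  rw [(hg.add hsx).tsum_sub hs, hg.tsum_add hsx, tsum_mul_left] at h1
  have h2 := mul_le_mul_of_nonneg_left (tsum_geo_le ha) hC
  have h3 : 0 ≤ C * exp (-(a * k)) := by positivity
  have h4 : S r δ η = ∑' m, yy r δ η m := rfl
  have h5 : 0 ≤ x ^ (2 * k + 1) / ((2 * k + 1).factorial : ℝ) := by positivity
  have h6 : ∑' m : ℕ, x ^ (2 * m + 1) / ((2 * m + 1).factorial : ℝ) ≤ exp x := by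
    rw [← Real.sinh_eq_tsum]
    rw [Real.sinh_eq]
    have := exp_pos x
    have := exp_pos (-x)
    linarith
  linarith

theorem upper2 {r δ η : ℝ} (hr : 40 ≤ r) (hδ : 0 < δ) (hρ : r * δ ≤ 1.4) (h1 : π - 1.5 * (r * δ) ≤ η)
    (h2 : η ≤ π / 2) (m : ℕ) :
    yy r δ η m ≤ exp (1.069 * r) * exp (-(0.05 * m)) +
      (2 * r * 0.507) ^ (2 * m + 1) / ((2 * m + 1).factorial : ℝ) := by
  have hπ := Real.pi_gt_d6
  have hπ2 := Real.pi_lt_d6
  have hr0 : 0 ≤ r := by linarith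
  have hmδ : 0 ≤ (m : ℝ) * δ := by positivity
  have p1 : 0 ≤ exp (1.069 * r) * exp (-(0.05 * m)) := by positivity
  have p2 : 0 ≤ (2 * r * 0.507) ^ (2 * m + 1) / ((2 * m + 1).factorial : ℝ) := by positivity
  by_cases hm : η + m * δ ≤ π / 2
  · have hc : cos (η + m * δ) ≤ 0.507 := by
      have e1 : cos (η + m * δ) ≤ cos (π / 3 - 0.006) :=
        cos_le_cos_of_nonneg_of_le_pi (by linarith) (by linarith) (by linarith)
      have e2 : cos (π / 3 - 0.006) ≤ 0.506 := by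
        rw [cos_sub, cos_pi_div_three]
        have e3 := cos_le_one 0.006
        have e4 : sin 0.006 ≤ 0.006 := sin_le (by norm_num)
        have e5 : 0 ≤ sin 0.006 := sin_nonneg_of_nonneg_of_le_pi (by norm_num) (by linarith)
        have e6 := sin_le_one (π / 3)
        nlinarith
      linarith
    have hc0 : 0 ≤ cos (η + m * δ) := cos_nonneg_of_mem_Icc ⟨by linarith, hm⟩
    have : yy r δ η m ≤ (2 * r * 0.507) ^ (2 * m + 1) / ((2 * m + 1).factorial : ℝ) := by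
      unfold yy
      gcongr
    linarith
  · rw [not_le] at hm
    by_cases hm2 : η + m * δ ≤ 3 * π / 2
    · have : yy r δ η m ≤ 0 := yy_nonpos hr0 (cos_nonpos_of_pi_div_two_le_of_le hm.le (by linarith))
      linarith
    · rw [not_le] at hm2
      have h3 := abs_yy_le hr0 δ η 1 m
      have h4 : -(1 * (2 * (m : ℝ) + 1)) + 2 * r * |cos (η + m * δ)| * exp 1 ≤ 1.069 * r + -(0.05 * m) := by
        have h5 : 2 * r * |cos (η + m * δ)| * exp 1 ≤ 2 * r * 1 * 2.7183 := by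
          have := Real.exp_one_lt_d9
          gcongr
          · exact abs_cos_le_one _
          · linarith
        have h6 : π ≤ m * δ := by linarith
        have h7 : 3.141592 * r ≤ 1.4 * m := by
          have e1 : r * π ≤ r * (m * δ) := mul_le_mul_of_nonneg_left h6 hr0
          have e2 : r * (m * δ) ≤ 1.4 * m := by
            have := mul_le_mul_of_nonneg_right hρ (Nat.cast_nonneg m : (0 : ℝ) ≤ m)
            linarith
          nlinarith
        linarith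
      have h10 := (exp_le_exp.2 h4)
      rw [exp_add (1.069 * r)] at h10
      have := le_abs_self (yy r δ η m)
      linarith

theorem main2 {r δ η : ℝ} {m : ℕ} (hr : 40 ≤ r) (hδ : 0 < δ) (hρ : r * δ ≤ 1.4) (h1 : π - 1.5 * (r * δ) ≤ η)
    (h2 : η ≤ π / 2) (hm1 : m * δ ≤ π - η) (hm2 : π - η < (m + 1) * δ) :
    yy r δ η m ≤ -(0.92 * (exp (1.5 * r - 1.02) / (exp 1 * (3 * r + 1)))) := by
  have hπ := Real.pi_gt_d6
  have hπ2 := Real.pi_lt_d6
  have hr0 : 0 < r := by linarith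
  have hδ2 : δ ≤ 0.035 := by nlinarith
  obtain ⟨c, hc⟩ : ∃ c, c = -cos (η + m * δ) := ⟨_, rfl⟩
  have hc1 : 1 - δ ^ 2 / 2 ≤ c := by
    rw [hc, ← cos_pi_sub]
    refine le_trans ?_ (Real.one_sub_sq_div_two_le_cos (x := π - (η + m * δ)))
    have e1 : 0 ≤ π - (η + m * δ) := by linarith
    have e2 : π - (η + m * δ) ≤ δ := by linarith
    nlinarith
  have hyy : yy r δ η m = -(c ^ (2 * m + 1) * ((2 * r) ^ (2 * m + 1) / ((2 * m + 1).factorial : ℝ))) := by
    unfold yy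
    have : cos (η + m * δ) = -c := by rw [hc]; ring
    rw [this, mul_neg, Odd.neg_pow ⟨m, rfl⟩, mul_pow]
    ring
  have hn1 : ((2 * m + 1 : ℕ) : ℝ) ≤ 3 * r + 1 := by
    push_cast
    have e1 : (m : ℝ) * δ ≤ (1.5 * r) * δ := by linarith
    have := le_of_mul_le_mul_right e1 hδ
    linarith
  have hn2 : r - 1 ≤ ((2 * m + 1 : ℕ) : ℝ) := by
    push_cast
    have e1 : π / 2 < (m + 1) * δ := by linarith
    have e2 : r * (π / 2) ≤ 1.4 * (m + 1) := by
      calc r * (π / 2) ≤ r * ((m + 1) * δ) := by gcongr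
        _ = (r * δ) * (m + 1) := by ring
        _ ≤ 1.4 * (m + 1) := by gcongr
    nlinarith
  have hcn : 0.92 ≤ c ^ (2 * m + 1) := by
    have e1 : 1 + ((2 * m + 1 : ℕ) : ℝ) * (-(δ ^ 2 / 2)) ≤ (1 + (-(δ ^ 2 / 2))) ^ (2 * m + 1) :=
      one_add_mul_le_pow (by nlinarith) _
    have e2 : (1 + (-(δ ^ 2 / 2))) ^ (2 * m + 1) ≤ c ^ (2 * m + 1) :=
      pow_le_pow_left₀ (by nlinarith) (by linarith) _
    have e3 : ((2 * m + 1 : ℕ) : ℝ) * (δ ^ 2 / 2) ≤ 0.08 := by
      calc ((2 * m + 1 : ℕ) : ℝ) * (δ ^ 2 / 2) ≤ (3 * r + 1) * (δ ^ 2 / 2) := by gcongr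
        _ = (3 * (r * δ) + δ) * (δ / 2) := by ring
        _ ≤ (3 * 1.4 + 0.035) * (0.035 / 2) := by gcongr
        _ ≤ 0.08 := by norm_num
    linarith
  have hmain : exp (1.5 * r - 1.02) / (exp 1 * (3 * r + 1)) ≤ (2 * r) ^ (2 * m + 1) / ((2 * m + 1).factorial : ℝ) := by
    set n : ℕ := 2 * m + 1 with hn
    have hn0 : (0 : ℝ) < n := by rw [hn]; positivity
    have e1 : exp (2 - n / (2 * r)) * n ≤ 2 * r * exp 1 := by
      have e2 := add_one_le_exp ((n : ℝ) / (2 * r) - 1)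
      have e3 : (n : ℝ) / (2 * r) ≤ exp ((n : ℝ) / (2 * r) - 1) := by linarith
      rw [div_le_iff₀ (by positivity)] at e3
      have e4 : exp (2 - n / (2 * r)) * exp ((n : ℝ) / (2 * r) - 1) = exp 1 := by
        rw [← exp_add]; ring_nf
      calc exp (2 - n / (2 * r)) * n ≤ exp (2 - n / (2 * r)) * (exp ((n : ℝ) / (2 * r) - 1) * (2 * r)) := by gcongr
        _ = (exp (2 - n / (2 * r)) * exp ((n : ℝ) / (2 * r) - 1)) * (2 * r) := by ring
        _ = 2 * r * exp 1 := by rw [e4]; ring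
    have e5 := le_pow_fact (by omega : 1 ≤ n) (exp_pos _).le e1
    refine le_trans ?_ e5
    have e6 : exp (1.5 * r - 1.02) ≤ exp (2 - n / (2 * r)) ^ n := by
      rw [← exp_nat_mul]
      apply exp_le_exp.2
      have e7 : (n : ℝ) * (2 - n / (2 * r)) = (n * (4 * r - n)) / (2 * r) := by
        field_simp
        ring
      rw [e7, le_div_iff₀ (by positivity)]
      nlinarith [mul_nonneg (sub_nonneg.2 hn1) (sub_nonneg.2 hn2)]
    gcongr
  rw [hyy]
  apply neg_le_neg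
  gcongr

theorem Z2 {r δ η : ℝ} (hr : 40 ≤ r) (hδ : 0 < δ) (hρ : r * δ ≤ 1.4) (h1 : π - 1.5 * (r * δ) ≤ η)
    (h2 : η ≤ π / 2) : S r δ η < 0 := by
  have hπ := Real.pi_gt_d6
  have hr0 : 0 < r := by linarith
  set m : ℕ := ⌊(π - η) / δ⌋₊ with hm
  have hm1 : (m : ℝ) * δ ≤ π - η := by
    rw [← le_div_iff₀ hδ]
    exact Nat.floor_le (div_nonneg (by linarith) hδ.le)
  have hm2 : π - η < (m + 1) * δ := by
    rw [← div_lt_iff₀ hδ]
    exact Nat.lt_floor_add_one _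
  have h3 := main2 hr hδ hρ h1 h2 hm1 hm2
  have h4 := S_le hr0.le (exp_pos (1.069 * r)).le (by norm_num : (0 : ℝ) < 0.05)
    (by positivity : 0 ≤ 2 * r * 0.507) (upper2 hr hδ hρ h1 h2) m
  have h5 : exp (2 * r * 0.507) ≤ exp (1.069 * r) := exp_le_exp.2 (by linarith)
  have h6 := exp_lin (r := r) (x := 0.431 * r - 3.02) hr (by linarith)
  have h7 : exp (0.431 * r - 3.02) = exp (1.5 * r - 1.02) / (exp 1 * exp (1.069 * r)) * exp (-1) := by
    rw [← exp_add, ← exp_sub, ← exp_add]; ring_nf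
  have h8 : exp (-1) ≤ 0.5 := by
    rw [exp_neg, ← one_div, div_le_iff₀ (exp_pos _)]
    have := Real.exp_one_gt_d9
    linarith
  have h9 : 102 * (r + 1) < exp (1.5 * r - 1.02) / (exp 1 * exp (1.069 * r)) := by
    have e1 : 0 < exp (1.5 * r - 1.02) / (exp 1 * exp (1.069 * r)) := by positivity
    rw [h7] at h6
    nlinarith
  rw [lt_div_iff₀ (by positivity)] at h9
  have h10 : 22 * exp (1.069 * r) < 0.92 * (exp (1.5 * r - 1.02) / (exp 1 * (3 * r + 1))) := by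
    rw [← mul_div_assoc, lt_div_iff₀ (by positivity)]
    have e1 : 0 < exp 1 * exp (1.069 * r) := by positivity
    nlinarith [mul_pos e1 hr0]
  have e : ((1 : ℝ) + 0.05) / 0.05 = 21 := by norm_num
  rw [e] at h4
  linarith

end SokalFU.N2
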