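import Pool.Agent.Lib_MP_af4de1_fu.N2H

/-!
# `N = 2`: the zone `η ∈ [0, π/2]`, `π - η ≥ 1.5 ρ`: `J > 0`
-/

set_option autoImplicit false

namespace SokalFU.N2

open Filter Topology Set Real

theorem hasSum_geo2 : HasSum (fun j : ℕ => ((j : ℝ) + 1) * (4 / 9 : ℝ) ^ j) (81 / 25) := by
  have h1 := hasSum_coe_mul_geometric_of_norm_lt_one (𝕜 := ℝ) (r := 4 / 9) (by norm_num)
  have h2 := hasSum_geometric_of_lt_one (r := (4 / 9 : ℝ)) (by norm_num) (by norm_num)
  have h3 := h1.add h2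
  have e1 : (4 / 9 : ℝ) / (1 - 4 / 9) ^ 2 + (1 - 4 / 9)⁻¹ = 81 / 25 := by norm_num
  rw [e1] at h3
  refine h3.congr_fun ?_
  intro j
  ring

/-- geometric decay of `(2r)^(2m)/(2m)!` -/
theorem U_decay {r q : ℝ} {M : ℕ} (hr : 0 ≤ r) (hq : 2 * r ≤ q * (2 * M + 1)) (n : ℕ) :
    (2 * r) ^ (2 * M + n) / ((2 * M + n).factorial : ℝ) ≤
      (2 * r) ^ (2 * M) / ((2 * M).factorial : ℝ) * q ^ n := by
  have h1 : ((2 * M).factorial : ℝ) * (2 * M + 1) ^ n ≤ ((2 * M + n).factorial : ℝ) := by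
    exact_mod_cast Nat.factorial_mul_pow_le_factorial (m := 2 * M) (n := n)
  have hf : (0 : ℝ) < ((2 * M).factorial : ℝ) := by positivity
  calc (2 * r) ^ (2 * M + n) / ((2 * M + n).factorial : ℝ)
      ≤ (2 * r) ^ (2 * M + n) / (((2 * M).factorial : ℝ) * (2 * M + 1) ^ n) := by gcongr
    _ = (2 * r) ^ (2 * M) / ((2 * M).factorial : ℝ) * ((2 * r) / (2 * M + 1)) ^ n := by
        rw [pow_add, div_pow]
        field_simp
    _ ≤ (2 * r) ^ (2 * M) / ((2 * M).factorial : ℝ) * q ^ n := by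
        gcongr
        rw [div_le_iff₀ (by positivity)]
        exact hq

theorem ZG {r δ η : ℝ} (hr : 40 ≤ r) (hδ : 0 < δ) (hρ : r * δ ≤ 1.4) (h1 : 0 ≤ η) (h2 : η ≤ π / 2)
    (h3 : η ≤ π - 1.5 * (r * δ)) : 0 < J r δ η := by
  have hπ := Real.pi_gt_d6
  have hπ2 := Real.pi_lt_d6
  have hr0 : 0 < r := by linarith
  have hδ2 : δ ≤ 0.035 := by nlinarith
  obtain ⟨m1, hm1, hm2⟩ : ∃ m1 : ℕ, (m1 : ℝ) * δ ≤ π - η ∧ π - η < (m1 + 1) * δ := by
    refine ⟨⌊(π - η) / δ⌋₊, ?_, ?_⟩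
    · rw [← le_div_iff₀ hδ]
      exact Nat.floor_le (div_nonneg (by linarith) hδ.le)
    · rw [← div_lt_iff₀ hδ]
      exact Nat.lt_floor_add_one _
  have hm3 : 1.5 * r < m1 + 1 := by
    have e1 : (1.5 * r) * δ < (m1 + 1) * δ := by linarith
    exact lt_of_mul_lt_mul_right e1 hδ.le
  obtain ⟨k, rfl⟩ : ∃ k, m1 = k + 2 := ⟨m1 - 2, by
    have : (2 : ℝ) ≤ m1 := by linarith
    have : 2 ≤ m1 := by exact_mod_cast this
    omega⟩
  push_cast at hm1 hm2 hm3
  -- `M = k + 3`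
  set U : ℝ := (2 * r) ^ (2 * (k + 3)) / ((2 * (k + 3)).factorial : ℝ) with hU
  have hU0 : 0 < U := by positivity
  -- the tail
  have htail : ‖∑' j : ℕ, sin (η + ((j + (k + 3) : ℕ) : ℝ) * δ) * uu r δ η (j + (k + 3))‖ ≤ δ * U * (81 / 25) := by
    apply tsum_of_norm_bounded (hasSum_geo2.mul_left (δ * U))
    intro j
    rw [norm_mul]
    have e1 : ‖sin (η + ((j + (k + 3) : ℕ) : ℝ) * δ)‖ ≤ ((j : ℝ) + 1) * δ := by
      have e2 : sin (η + ((j + (k + 3) : ℕ) : ℝ) * δ) = -sin (η + ((j + (k + 3) : ℕ) : ℝ) * δ - π) := by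
        rw [sin_sub_pi, neg_neg]
      rw [e2, norm_neg, Real.norm_eq_abs]
      refine (Real.abs_sin_le_abs).trans ?_
      push_cast
      rw [abs_of_nonneg (by nlinarith [mul_nonneg (Nat.cast_nonneg j : (0:ℝ) ≤ j) hδ.le])]
      nlinarith
    have e2 : ‖uu r δ η (j + (k + 3))‖ ≤ U * (4 / 9) ^ j := by
      have e3 : ‖uu r δ η (j + (k + 3))‖ ≤ (2 * r) ^ (2 * (j + (k + 3))) / ((2 * (j + (k + 3))).factorial : ℝ) :=
        abs_term_le hr0.le _ _
      refine e3.trans ?_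
      have e4 := U_decay (r := r) (q := 2 / 3) (M := k + 3) hr0.le (by push_cast; linarith) (2 * j)
      have e5 : 2 * (j + (k + 3)) = 2 * (k + 3) + 2 * j := by ring
      rw [e5]
      refine e4.trans (le_of_eq ?_)
      have e6 : (2 / 3 : ℝ) ^ (2 * j) = (4 / 9) ^ j := by rw [pow_mul]; norm_num
      rw [e6]
    calc ‖sin (η + ((j + (k + 3) : ℕ) : ℝ) * δ)‖ * ‖uu r δ η (j + (k + 3))‖
        ≤ (((j : ℝ) + 1) * δ) * (U * (4 / 9) ^ j) := by gcongr
      _ = δ * U * (((j : ℝ) + 1) * (4 / 9) ^ j) := by ring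
  -- the main term
  set u : ℝ := uu r δ η k with hu
  have hθ1 : 2 * δ ≤ π - (η + k * δ) := by linarith
  have hθ2 : π - (η + k * δ) ≤ 3 * δ := by linarith
  have hkδ : k * δ ≤ π := by nlinarith
  have hV : 0.255 * ((2 * r) ^ (2 * k) / ((2 * k).factorial : ℝ)) ≤ u := by
    have e1 : 0.505 ≤ |cos (η + k * δ)| ^ k := by
      have e2 : 1 - 4.5 * δ ^ 2 ≤ |cos (η + k * δ)| := by
        rw [← abs_neg, ← cos_pi_sub]
        refine le_trans ?_ (le_abs_self _)
        refine le_trans ?_ (Real.one_sub_sq_div_two_le_cos (x := π - (η + k * δ)))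
        nlinarith
      have e3 : 1 + (k : ℝ) * (-(4.5 * δ ^ 2)) ≤ (1 + (-(4.5 * δ ^ 2))) ^ k :=
        one_add_mul_le_pow (by nlinarith) _
      have e4 : (1 + (-(4.5 * δ ^ 2))) ^ k ≤ |cos (η + k * δ)| ^ k :=
        pow_le_pow_left₀ (by nlinarith) (by linarith) _
      have e5 : (k : ℝ) * (4.5 * δ ^ 2) ≤ 0.495 := by
        calc (k : ℝ) * (4.5 * δ ^ 2) = (k * δ) * (4.5 * δ) := by ring
          _ ≤ 3.141593 * (4.5 * 0.035) := by
            gcongr
            linarith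
          _ ≤ 0.495 := by norm_num
      linarith
    have e6 : 0.255 ≤ |cos (η + k * δ)| ^ (2 * k) := by
      rw [mul_comm 2 k, pow_mul]
      nlinarith
    rw [hu]
    unfold uu
    have e7 : (2 * r * cos (η + k * δ)) ^ (2 * k) = (2 * r) ^ (2 * k) * |cos (η + k * δ)| ^ (2 * k) := by
      rw [mul_pow, Even.pow_abs ⟨k, by ring⟩]
    rw [e7, mul_comm ((2 * r) ^ (2 * k)), mul_div_assoc]
    gcongr
  have hUV : U ≤ 0.118 * ((2 * r) ^ (2 * k) / ((2 * k).factorial : ℝ)) := by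
    have e4 := U_decay (r := r) (q := 0.7) (M := k) hr0.le (by linarith) 6
    have e5 : 2 * (k + 3) = 2 * k + 6 := by ring
    rw [hU, e5]
    refine e4.trans ?_
    rw [mul_comm]
    gcongr
    norm_num
  have hsin : 1.99 * δ ≤ sin (η + k * δ) := by
    rw [← sin_pi_sub]
    have e1 : sin (2 * δ) ≤ sin (π - (η + k * δ)) := sin_le_sin_of_le_of_le_pi_div_two (by linarith) (by linarith) hθ1
    have e2 := Real.sin_gt_sub_cube (x := 2 * δ) (by linarith)
    have e3 : 0 < δ ^ 2 := by positivity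
    nlinarith [mul_pos e3 hδ]
  -- assembly
  have hsum := (summable_J hr0.le δ η).sum_add_tsum_nat_add (k + 3)
  have hJ : J r δ η = ∑' m : ℕ, sin (η + m * δ) * uu r δ η m := rfl
  have hfin : sin (η + k * δ) * u ≤ ∑ i ∈ Finset.range (k + 3), sin (η + i * δ) * uu r δ η i := by
    apply Finset.single_le_sum (f := fun i : ℕ => sin (η + i * δ) * uu r δ η i) (s := Finset.range (k + 3)) _
      (Finset.mem_range.2 (by omega))
    intro i hi
    have hi' : (i : ℝ) ≤ k + 2 := by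
      have := Finset.mem_range.1 hi
      have h : i ≤ k + 2 := by omega
      exact_mod_cast h
    apply mul_nonneg _ (uu_nonneg _ _ _ _)
    apply sin_nonneg_of_nonneg_of_le_pi
    · positivity
    · nlinarith
  have hu0 : 0 < u := lt_of_lt_of_le (by positivity) hV
  have h10 := (abs_le.1 (Real.norm_eq_abs _ ▸ htail)).1
  have h11 : 1.99 * δ * u ≤ sin (η + k * δ) * u := by gcongr
  have h12 : U ≤ 0.463 * u := by linarith
  have h13 : δ * U ≤ δ * (0.463 * u) := by gcongr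
  have h14 : 0 < δ * u := by positivity
  rw [hJ, ← hsum]
  linarith

end SokalFU.N2
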