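import Pool.Agent.Lib_MP_af4de1_fu.N2I

/-!
# `N = 2`, `ρ ≤ 3.2`, `r ≥ 49`: the zone `-η/ρ ∈ [0.72, 1.3]`: `S > 0`
-/

set_option autoImplicit false

namespace SokalFU.N2

open Filter Topology Set Real

theorem abs_cos_le {θ y : ℝ} (hy : y = π - θ) (hy1 : |y| ≤ 1) : |cos θ| ≤ 1 - 0.4479 * y ^ 2 := by
  have hπ := Real.pi_gt_d6
  rw [← abs_neg, ← cos_pi_sub, ← hy]
  have h4 := Real.cos_bound hy1
  have h5 : |y| ^ 4 ≤ y ^ 2 := by
    have : |y| ^ 4 = |y| ^ 2 * |y| ^ 2 := by ring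
    rw [this, sq_abs]
    have h6 : y ^ 2 ≤ 1 := by rw [← sq_abs]; nlinarith [abs_nonneg y]
    nlinarith [sq_nonneg y]
  have h7 : 0 ≤ cos y := cos_nonneg_of_mem_Icc (by
    rw [abs_le] at hy1
    constructor <;> linarith)
  rw [abs_of_nonneg h7]
  have := (abs_le.1 h4).2
  nlinarith

theorem abs_cos_le_sub {θ : ℝ} (h : π / 2 ≤ θ) (h1 : θ ≤ π - 1) : |cos θ| ≤ θ - π / 2 := by
  have hπ := Real.pi_gt_d6
  have e1 : cos θ = -sin (θ - π / 2) := by rw [sin_sub_pi_div_two, neg_neg]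
  rw [e1, abs_neg, abs_of_nonneg (sin_nonneg_of_nonneg_of_le_pi (by linarith) (by linarith))]
  exact sin_le (by linarith)

theorem hmaxP1 {θ : ℝ} (h : π / 2 ≤ θ) : 3.4322 * |cos θ| - 0.33125 * θ ≤ 2.41 := by
  have hπ := Real.pi_gt_d6
  have hπ2 := Real.pi_lt_d6
  by_cases h1 : θ ≤ π - 1
  · have := abs_cos_le_sub h h1
    linarith
  · rw [not_le] at h1
    by_cases h2 : π + 1 ≤ θ
    · have := abs_cos_le_one θ
      linarith
    · rw [not_le] at h2
      obtain ⟨y, hy⟩ : ∃ y, y = π - θ := ⟨_, rfl⟩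
      have hy1 : |y| ≤ 1 := by rw [abs_le]; constructor <;> linarith
      have h3 := abs_cos_le hy hy1
      have h8 : θ = π - y := by linarith
      rw [h8] at h3 ⊢
      nlinarith [sq_nonneg (y - 0.1077)]

theorem hmaxP2 {θ : ℝ} (h : π / 2 ≤ θ) : 1.0441 * |cos θ| - 0.4125 * θ ≤ -0.1604 := by
  have hπ := Real.pi_gt_d6
  have hπ2 := Real.pi_lt_d6
  by_cases h1 : θ ≤ π - 1
  · have := abs_cos_le_sub h h1
    linarith
  · rw [not_le] at h1
    by_cases h2 : π + 1 ≤ θ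
    · have := abs_cos_le_one θ
      linarith
    · rw [not_le] at h2
      obtain ⟨y, hy⟩ : ∃ y, y = π - θ := ⟨_, rfl⟩
      have hy1 : |y| ≤ 1 := by rw [abs_le]; constructor <;> linarith
      have h3 := abs_cos_le hy hy1
      have h8 : θ = π - y := by linarith
      rw [h8] at h3 ⊢
      nlinarith [sq_nonneg (y - 0.441)]

theorem exp_054 : exp 0.54 ≤ 1.7161 := by
  have h := Real.exp_bound' (x := 0.54) (by norm_num) (by norm_num) (n := 8) (by norm_num)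
  refine h.trans ?_
  norm_num [Finset.sum_range_succ, Nat.factorial]

theorem exp_neg_065 : exp (-0.65) ≤ 0.52205 := by
  rw [exp_neg, ← one_div, div_le_iff₀ (exp_pos _)]
  have h := Real.sum_le_exp_of_nonneg (x := 0.65) (by norm_num) 8
  have h2 : (1.91553 : ℝ) ≤ ∑ i ∈ Finset.range 8, (0.65 : ℝ) ^ i / (i.factorial : ℝ) := by
    norm_num [Finset.sum_range_succ, Nat.factorial]
  nlinarith

theorem tailP1 {r δ η : ℝ} {m : ℕ} (hr : 0 < r) (hδ : 0 < δ) (hρ : r * δ ≤ 3.2) {τ : ℝ}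
    (hη : η = -(τ * (r * δ))) (hθ : π / 2 ≤ η + m * δ) :
    |yy r δ η m| ≤ exp (r * (2.41 - 1.06 * τ)) * exp (-(0.02 * m)) := by
  have hπ := Real.pi_gt_d6
  refine (abs_yy_le hr.le δ η 0.54 m).trans ?_
  rw [← exp_add]
  apply exp_le_exp.2
  set θ : ℝ := η + m * δ with hθd
  have h1 := hmaxP1 hθ
  have h2 : 2 * r * |cos θ| * exp 0.54 ≤ 2 * r * |cos θ| * 1.7161 :=
    mul_le_mul_of_nonneg_left exp_054 (by positivity)
  have h3 : r * (3.4322 * |cos θ| - 0.33125 * θ) ≤ r * 2.41 := mul_le_mul_of_nonneg_left h1 hr.le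
  have h4 : θ = (m - τ * r) * δ := by rw [hθd, hη]; ring
  have h5 : 0 < (m : ℝ) - τ * r := by
    by_contra h6
    rw [not_lt] at h6
    have := mul_nonpos_of_nonpos_of_nonneg h6 hδ.le
    linarith
  have h6 : r * θ ≤ 3.2 * (m - τ * r) := by
    calc r * θ = (r * δ) * (m - τ * r) := by rw [h4]; ring
      _ ≤ 3.2 * (m - τ * r) := mul_le_mul_of_nonneg_right hρ h5.le
  linarith

theorem tailP2 {r δ η : ℝ} {m : ℕ} (hr : 49 ≤ r) (hδ : 0 < δ) (hρ : r * δ ≤ 3.2) {τ : ℝ}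
    (hη : η = -(τ * (r * δ))) (hθ : η + m * δ ≤ -(π / 2)) :
    |yy r δ η m| ≤ exp (r * (1.32 * τ - 0.147)) * exp (-(0.02 * m)) := by
  have hπ := Real.pi_gt_d6
  have hr0 : 0 < r := by linarith
  refine (abs_yy_le hr0.le δ η (-0.65) m).trans ?_
  rw [← exp_add]
  apply exp_le_exp.2
  set θ : ℝ := η + m * δ with hθd
  have h1 := hmaxP2 (θ := -θ) (by linarith)
  rw [cos_neg] at h1
  have h2 : 2 * r * |cos θ| * exp (-0.65) ≤ 2 * r * |cos θ| * 0.52205 :=
    mul_le_mul_of_nonneg_left exp_neg_065 (by positivity)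
  have h3 : r * (1.0441 * |cos θ| - 0.4125 * -θ) ≤ r * -0.1604 := mul_le_mul_of_nonneg_left h1 hr0.le
  have h4 : θ = -((τ * r - m) * δ) := by rw [hθd, hη]; ring
  have h5 : 0 < τ * r - (m : ℝ) := by
    by_contra h6
    rw [not_lt] at h6
    have := mul_nonpos_of_nonpos_of_nonneg h6 hδ.le
    linarith
  have h6 : r * -θ ≤ 3.2 * (τ * r - m) := by
    calc r * -θ = (r * δ) * (τ * r - m) := by rw [h4]; ring
      _ ≤ 3.2 * (τ * r - m) := mul_le_mul_of_nonneg_right hρ h5.le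
  linarith

/-- lower bounds of `(2r)^n/n!` near `n = 2r` -/
theorem pow_fact_ge1 {r t : ℝ} (hr : 0 < r) {n : ℕ} (hn : 1 ≤ n) (ht : t = n / (2 * r)) :
    exp (r * (4 * t - 2 * t ^ 2)) / (exp 1 * n) ≤ (2 * r) ^ n / (n.factorial : ℝ) := by
  have hn0 : (0 : ℝ) < n := by exact_mod_cast hn
  have e1 : exp (2 - t) * n ≤ 2 * r * exp 1 := by
    have e2 := add_one_le_exp (t - 1)
    have e3 : t ≤ exp (t - 1) := by linarith
    have e6 : (n : ℝ) = t * (2 * r) := by rw [ht]; field_simp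
    have e4 : exp (2 - t) * exp (t - 1) = exp 1 := by
      rw [← exp_add]; ring_nf
    calc exp (2 - t) * n = exp (2 - t) * (t * (2 * r)) := by rw [e6]
      _ ≤ exp (2 - t) * (exp (t - 1) * (2 * r)) := by gcongr
      _ = (exp (2 - t) * exp (t - 1)) * (2 * r) := by ring
      _ = 2 * r * exp 1 := by rw [e4]; ring
  have e5 := le_pow_fact hn (exp_pos _).le e1
  refine le_trans (le_of_eq ?_) e5
  rw [← exp_nat_mul]
  congr 2
  have e6 : (n : ℝ) = t * (2 * r) := by rw [ht]; field_simp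
  rw [e6]; ring

theorem pow_fact_ge2 {r t : ℝ} (hr : 0 < r) {n : ℕ} (hn : 1 ≤ n) (ht : t = n / (2 * r)) (ht1 : t ≤ 1) :
    exp (r * (5 * t - 4 * t ^ 2 + t ^ 3)) / (exp 1 * n) ≤ (2 * r) ^ n / (n.factorial : ℝ) := by
  have hn0 : (0 : ℝ) < n := by exact_mod_cast hn
  have ht0 : 0 < t := by rw [ht]; positivity
  have e1 : exp (2 - t + (1 - t) ^ 2 / 2) * n ≤ 2 * r * exp 1 := by
    have e3 : t * exp (1 - t + (1 - t) ^ 2 / 2) ≤ 1 := by
      rcases eq_or_lt_of_le ht1 with h | h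
      · rw [h]; norm_num
      · have h1 : |1 - t| < 1 := by rw [abs_lt]; constructor <;> linarith
        have h2 := Real.hasSum_pow_div_log_of_abs_lt_one h1
        have h3 := sum_le_hasSum (Finset.range 2) (fun i _ => by
          have : 0 ≤ 1 - t := by linarith
          positivity) h2
        norm_num [Finset.sum_range_succ] at h3
        have h4 : exp (1 - t + (1 - t) ^ 2 / 2) ≤ exp (-log t) := exp_le_exp.2 h3
        rw [exp_neg, exp_log ht0] at h4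
        calc t * exp (1 - t + (1 - t) ^ 2 / 2) ≤ t * t⁻¹ := by gcongr
          _ = 1 := mul_inv_cancel₀ ht0.ne'
    have e6 : (n : ℝ) = t * (2 * r) := by rw [ht]; field_simp
    have e4 : exp (2 - t + (1 - t) ^ 2 / 2) = exp 1 * exp (1 - t + (1 - t) ^ 2 / 2) := by
      rw [← exp_add]; ring_nf
    calc exp (2 - t + (1 - t) ^ 2 / 2) * n = (t * exp (1 - t + (1 - t) ^ 2 / 2)) * (2 * r * exp 1) := by
          rw [e6, e4]; ring
      _ ≤ 1 * (2 * r * exp 1) := by gcongr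
      _ = 2 * r * exp 1 := one_mul _
  have e5 := le_pow_fact hn (exp_pos _).le e1
  refine le_trans (le_of_eq ?_) e5
  rw [← exp_nat_mul]
  congr 2
  have e6 : (n : ℝ) = t * (2 * r) := by rw [ht]; field_simp
  rw [e6]; ring

theorem exp11 : (59800 : ℝ) ≤ exp 11 := by
  have h1 : exp 11 = exp 1 ^ 11 := by rw [← exp_nat_mul]; norm_num
  rw [h1]
  calc (59800 : ℝ) ≤ 2.718 ^ 11 := by norm_num
    _ ≤ exp 1 ^ 11 := by
      have := Real.exp_one_gt_d9
      gcongr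
      linarith

/-- zone `-η/ρ ∈ [0.72, 1.3]`: `S > 0` -/
theorem ZP {r δ η : ℝ} (hr : 49 ≤ r) (hδ : 0 < δ) (hρ : r * δ ≤ 3.2) (h1 : -(1.3 * (r * δ)) ≤ η)
    (h2 : η ≤ -(0.72 * (r * δ))) : 0 < S r δ η := by
  have hπ := Real.pi_gt_d6
  have hπ2 := Real.pi_lt_d6
  have hr0 : 0 < r := by linarith
  have hρ0 : 0 < r * δ := by positivity
  have hδ2 : δ ≤ 0.0654 := by nlinarith
  obtain ⟨τ, hη⟩ : ∃ τ, η = -(τ * (r * δ)) := ⟨-η / (r * δ), by field_simp⟩
  have hτ1 : 0.72 ≤ τ := by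
    rw [hη] at h2
    exact le_of_mul_le_mul_right (by linarith) hρ0
  have hτ2 : τ ≤ 1.3 := by
    rw [hη] at h1
    exact le_of_mul_le_mul_right (by linarith) hρ0
  obtain ⟨m, hm1, hm2⟩ : ∃ m : ℕ, (m : ℝ) ≤ τ * r ∧ τ * r < m + 1 :=
    ⟨⌊τ * r⌋₊, Nat.floor_le (by positivity), Nat.lt_floor_add_one _⟩
  obtain ⟨t, ht⟩ : ∃ t, t = ((2 * m + 1 : ℕ) : ℝ) / (2 * r) := ⟨_, rfl⟩
  have ht' : ((2 * m + 1 : ℕ) : ℝ) = t * (2 * r) := by rw [ht]; field_simp
  have ht1 : t ≤ τ + 0.01021 := by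
    rw [ht, div_le_iff₀ (by positivity)]; push_cast; nlinarith
  have ht2 : τ - 0.01021 ≤ t := by
    rw [ht, le_div_iff₀ (by positivity)]; push_cast; nlinarith
  have hn : ((2 * m + 1 : ℕ) : ℝ) ≤ 2.6 * r + 1 := by push_cast; nlinarith
  -- the exponent
  obtain ⟨φ, hφ, hφ1, hφ2⟩ : ∃ φ : ℝ, exp (r * φ) / (exp 1 * ((2 * m + 1 : ℕ) : ℝ)) ≤
      (2 * r) ^ (2 * m + 1) / ((2 * m + 1).factorial : ℝ) ∧ 2.635 - 1.06 * τ ≤ φ ∧ 1.32 * τ + 0.078 ≤ φ := by
    rcases le_total t 1 with h | h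
    · refine ⟨5 * t - 4 * t ^ 2 + t ^ 3, pow_fact_ge2 hr0 (by omega) ht h, ?_, ?_⟩
      all_goals
        have e1 : 1.62 + 0.375 * t ≤ 5 * t - 4 * t ^ 2 + t ^ 3 := by
          have e2 : 0 ≤ (1 - t) * (t - 0.7095) := mul_nonneg (by linarith) (by linarith)
          nlinarith [mul_nonneg e2 (show 0 ≤ 2.29 - t by linarith)]
        linarith
    · refine ⟨4 * t - 2 * t ^ 2, pow_fact_ge1 hr0 (by omega) ht, ?_, ?_⟩
      all_goals
        have e2 : 0 ≤ (1.31021 - t) * (t - 1) := mul_nonneg (by linarith) (by linarith)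
        nlinarith
  -- all terms
  have hb : ∀ k : ℕ, -(exp (r * (φ - 0.225)) * exp (-(0.02 * k))) ≤ yy r δ η k := by
    intro k
    by_cases hk1 : η + k * δ ≤ -(π / 2)
    · have e1 := tailP2 hr hδ hρ hη hk1
      have e2 : exp (r * (1.32 * τ - 0.147)) ≤ exp (r * (φ - 0.225)) :=
        exp_le_exp.2 (mul_le_mul_of_nonneg_left (by linarith) hr0.le)
      have e3 : exp (r * (1.32 * τ - 0.147)) * exp (-(0.02 * k)) ≤ exp (r * (φ - 0.225)) * exp (-(0.02 * k)) := by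
        gcongr
      have := neg_abs_le (yy r δ η k)
      linarith
    · rw [not_le] at hk1
      by_cases hk2 : η + k * δ ≤ π / 2
      · have : 0 ≤ yy r δ η k := yy_nonneg hr0.le (cos_nonneg_of_mem_Icc ⟨hk1.le, hk2⟩)
        have : 0 ≤ exp (r * (φ - 0.225)) * exp (-(0.02 * k)) := by positivity
        linarith
      · rw [not_le] at hk2
        have e1 := tailP1 hr0 hδ hρ hη hk2.le
        have e2 : exp (r * (2.41 - 1.06 * τ)) ≤ exp (r * (φ - 0.225)) :=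
          exp_le_exp.2 (mul_le_mul_of_nonneg_left (by linarith) hr0.le)
        have e3 : exp (r * (2.41 - 1.06 * τ)) * exp (-(0.02 * k)) ≤ exp (r * (φ - 0.225)) * exp (-(0.02 * k)) := by
          gcongr
        have := neg_abs_le (yy r δ η k)
        linarith
  have h3 := S_ge hr0.le (exp_pos _).le (by norm_num : (0 : ℝ) < 0.02) hb m
  -- the main term
  have hmain : 0.72 * (exp (r * φ) / (exp 1 * (2.6 * r + 1))) ≤ yy r δ η m := by
    have hc1 : 1 - δ ^ 2 / 2 ≤ cos (η + m * δ) := by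
      refine le_trans ?_ (Real.one_sub_sq_div_two_le_cos (x := η + m * δ))
      have e1 : η + m * δ ≤ 0 := by rw [hη]; nlinarith
      have e2 : -δ ≤ η + m * δ := by rw [hη]; nlinarith
      nlinarith
    have hcn : 0.72 ≤ cos (η + m * δ) ^ (2 * m + 1) := by
      have e1 : 1 + ((2 * m + 1 : ℕ) : ℝ) * (-(δ ^ 2 / 2)) ≤ (1 + (-(δ ^ 2 / 2))) ^ (2 * m + 1) :=
        one_add_mul_le_pow (by nlinarith) _
      have e2 : (1 + (-(δ ^ 2 / 2))) ^ (2 * m + 1) ≤ cos (η + m * δ) ^ (2 * m + 1) :=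
        pow_le_pow_left₀ (by nlinarith) (by linarith) _
      have e3 : ((2 * m + 1 : ℕ) : ℝ) * (δ ^ 2 / 2) ≤ 0.28 := by
        calc ((2 * m + 1 : ℕ) : ℝ) * (δ ^ 2 / 2) ≤ (2.6 * r + 1) * (δ ^ 2 / 2) := by gcongr
          _ = (2.6 * (r * δ) + δ) * (δ / 2) := by ring
          _ ≤ (2.6 * 3.2 + 0.0654) * (0.0654 / 2) := by gcongr
          _ ≤ 0.28 := by norm_num
      linarith
    have hyy : yy r δ η m = cos (η + m * δ) ^ (2 * m + 1) * ((2 * r) ^ (2 * m + 1) / ((2 * m + 1).factorial : ℝ)) := by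
      unfold yy
      rw [mul_pow]
      ring
    rw [hyy]
    apply mul_le_mul hcn _ (by positivity) (by linarith)
    refine le_trans ?_ hφ
    gcongr
  have h11 := exp11
  have e1 : exp (r * φ) = exp (r * (φ - 0.225)) * (exp 11 * exp (0.225 * r - 11)) := by
    rw [← exp_add, ← exp_add]; ring_nf
  have e2 := add_one_le_exp (0.225 * r - 11)
  have e3 : 59800 * (0.225 * r - 10) ≤ exp 11 * exp (0.225 * r - 11) := by
    apply mul_le_mul h11 (by linarith) (by linarith) (exp_pos _).le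
  have e51 : ((1 : ℝ) + 0.02) / 0.02 = 51 := by norm_num
  rw [e51] at h3
  have e5 : 0 < exp (r * (φ - 0.225)) := exp_pos _
  have e7 : 51 * (exp 1 * (2.6 * r + 1)) < 0.72 * (exp 11 * exp (0.225 * r - 11)) := by
    have e6 := Real.exp_one_lt_d9
    calc 51 * (exp 1 * (2.6 * r + 1)) ≤ 51 * (2.7183 * (2.6 * r + 1)) := by
          gcongr
          linarith
      _ < 0.72 * (59800 * (0.225 * r - 10)) := by linarith
      _ ≤ 0.72 * (exp 11 * exp (0.225 * r - 11)) := by linarith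
  have e4 : exp (r * (φ - 0.225)) * 51 < 0.72 * (exp (r * φ) / (exp 1 * (2.6 * r + 1))) := by
    rw [← mul_div_assoc 0.72, lt_div_iff₀ (by positivity), e1]
    have e8 := mul_lt_mul_of_pos_left e7 e5
    linarith
  linarith

end SokalFU.N2
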