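import Pool.Agent.Lib_MP_af4de1_fu.N2J

/-!
# `N = 2`, `ρ ≤ 3.2`: factorial weights and the block of small angles
-/

set_option autoImplicit false

namespace SokalFU.N2

open Filter Topology Set Real

/-- `(2r)^(2m)/(2m)!` -/
noncomputable def V (r : ℝ) (m : ℕ) : ℝ := (2 * r) ^ (2 * m) / ((2 * m).factorial : ℝ)

theorem V_pos {r : ℝ} (hr : 0 < r) (m : ℕ) : 0 < V r m := by unfold V; positivity

theorem uu_eq (r δ η : ℝ) (m : ℕ) : uu r δ η m = V r m * |cos (η + m * δ)| ^ (2 * m) := by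
  unfold uu V
  rw [mul_pow, Even.pow_abs ⟨m, by ring⟩]
  ring

theorem fact_pair (k : ℕ) : ∀ N : ℕ, (2 * N).factorial * (4 * N * (N + k)) ^ k ≤ (2 * N + 2 * k).factorial := by
  induction k using Nat.twoStepInduction with
  | zero => intro N; simp
  | one =>
    intro N
    have e : (2 * N + 2 * 1).factorial = (2 * N + 2) * ((2 * N + 1) * (2 * N).factorial) := by
      rw [show 2 * N + 2 * 1 = (2 * N + 1) + 1 by ring, Nat.factorial_succ, Nat.factorial_succ]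
    rw [e, pow_one]
    have h : 4 * N * (N + 1) ≤ (2 * N + 2) * (2 * N + 1) := by nlinarith
    calc (2 * N).factorial * (4 * N * (N + 1)) ≤ (2 * N).factorial * ((2 * N + 2) * (2 * N + 1)) :=
          Nat.mul_le_mul_left _ h
      _ = _ := by ring
  | more k ih _ =>
    intro N
    have ih' := ih (N + 1)
    have e1 : (2 * (N + 1)).factorial = (2 * N + 2) * ((2 * N + 1) * (2 * N).factorial) := by
      rw [show 2 * (N + 1) = (2 * N + 1) + 1 by ring, Nat.factorial_succ, Nat.factorial_succ]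
    have e2 : (2 * N + 2 * (k + 2)).factorial =
        (2 * N + 2 * k + 4) * ((2 * N + 2 * k + 3) * (2 * (N + 1) + 2 * k).factorial) := by
      rw [show 2 * N + 2 * (k + 2) = (2 * (N + 1) + 2 * k + 1) + 1 by ring, Nat.factorial_succ, Nat.factorial_succ]
      ring
    rw [e2]
    rw [e1] at ih'
    have h1 : 4 * N * (N + (k + 2)) ≤ 4 * (N + 1) * (N + 1 + k) := by nlinarith
    have h2 : (4 * N * (N + (k + 2))) * (4 * N * (N + (k + 2))) ≤
        ((2 * N + 2 * k + 4) * (2 * N + 2 * k + 3)) * ((2 * N + 2) * (2 * N + 1)) := by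
      have a1 : 4 * N * (N + (k + 2)) ≤ (2 * N + 2 * k + 4) * (2 * N + 2) := by nlinarith
      have a2 : 4 * N * (N + (k + 2)) ≤ (2 * N + 2 * k + 3) * (2 * N + 1) := by nlinarith
      calc _ ≤ ((2 * N + 2 * k + 4) * (2 * N + 2)) * ((2 * N + 2 * k + 3) * (2 * N + 1)) := Nat.mul_le_mul a1 a2
        _ = _ := by ring
    calc (2 * N).factorial * (4 * N * (N + (k + 2))) ^ (k + 2)
        = ((4 * N * (N + (k + 2))) * (4 * N * (N + (k + 2)))) * ((2 * N).factorial * (4 * N * (N + (k + 2))) ^ k) := by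
          ring
      _ ≤ (((2 * N + 2 * k + 4) * (2 * N + 2 * k + 3)) * ((2 * N + 2) * (2 * N + 1))) *
          ((2 * N).factorial * (4 * (N + 1) * (N + 1 + k)) ^ k) := by
          gcongr
      _ = ((2 * N + 2 * k + 4) * (2 * N + 2 * k + 3)) *
          ((2 * N + 2) * ((2 * N + 1) * (2 * N).factorial) * (4 * (N + 1) * (N + 1 + k)) ^ k) := by ring
      _ ≤ ((2 * N + 2 * k + 4) * (2 * N + 2 * k + 3)) * (2 * (N + 1) + 2 * k).factorial :=
          Nat.mul_le_mul_left _ ih'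
      _ = _ := by ring

theorem V_pair {r : ℝ} (hr : 0 < r) {N k : ℕ} (hN : 1 ≤ N) :
    V r (N + k) ≤ V r N * (r ^ 2 / ((N : ℝ) * (N + k))) ^ k := by
  have h : ((2 * N).factorial : ℝ) * (4 * (N : ℝ) * (N + k)) ^ k ≤ ((2 * N + 2 * k).factorial : ℝ) := by
    exact_mod_cast fact_pair k N
  have hN0 : (0 : ℝ) < N := by exact_mod_cast hN
  unfold V
  rw [show 2 * (N + k) = 2 * N + 2 * k by ring]
  calc (2 * r) ^ (2 * N + 2 * k) / ((2 * N + 2 * k).factorial : ℝ)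
      ≤ (2 * r) ^ (2 * N + 2 * k) / (((2 * N).factorial : ℝ) * (4 * (N : ℝ) * (N + k)) ^ k) := by gcongr
    _ = (2 * r) ^ (2 * N) / ((2 * N).factorial : ℝ) * (r ^ 2 / ((N : ℝ) * (N + k))) ^ k := by
        rw [pow_add, pow_mul (2 * r) 2 k, div_pow (r ^ 2), mul_pow 2 r 2]
        rw [show (4 : ℝ) * N * (N + k) = 4 * (N * (N + k)) by ring, mul_pow 4 ((N : ℝ) * (N + k)) k,
          mul_pow (2 ^ 2 : ℝ) (r ^ 2) k]
        have : ((2 : ℝ) ^ 2) ^ k = 4 ^ k := by norm_num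
        rw [this]
        field_simp

/-! ### The block of small angles -/

theorem V_down {r q : ℝ} (hr : 0 < r) {p j : ℕ} (hj : j ≤ p) (hq : (p : ℝ) ≤ q * r) :
    V r (p - j) ≤ V r p * q ^ (2 * j) := by
  obtain ⟨i, rfl⟩ : ∃ i, p = i + j := ⟨p - j, by omega⟩
  rw [Nat.add_sub_cancel]
  have h1 : (2 * (i + j)).factorial ≤ (2 * i).factorial * (2 * (i + j)) ^ (2 * j) := by
    have h2 := Nat.factorial_mul_descFactorial (n := 2 * (i + j)) (k := 2 * j) (by omega)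
    rw [show 2 * (i + j) - 2 * j = 2 * i by omega] at h2
    rw [← h2]
    exact Nat.mul_le_mul_left _ (Nat.descFactorial_le_pow _ _)
  have h3 : ((2 * (i + j)).factorial : ℝ) ≤ ((2 * i).factorial : ℝ) * (2 * ((i + j : ℕ) : ℝ)) ^ (2 * j) := by
    exact_mod_cast h1
  have h4 : ((2 * (i + j)).factorial : ℝ) ≤ ((2 * i).factorial : ℝ) * (2 * (q * r)) ^ (2 * j) := by
    refine h3.trans ?_
    gcongr
  unfold V
  rw [div_mul_eq_mul_div, div_le_div_iff₀ (by positivity) (by positivity)]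
  calc (2 * r) ^ (2 * i) * ((2 * (i + j)).factorial : ℝ)
      ≤ (2 * r) ^ (2 * i) * (((2 * i).factorial : ℝ) * (2 * (q * r)) ^ (2 * j)) := by gcongr
    _ = (2 * r) ^ (2 * (i + j)) * q ^ (2 * j) * ((2 * i).factorial : ℝ) := by
        rw [show 2 * (i + j) = 2 * i + 2 * j by ring, pow_add, show 2 * (q * r) = (2 * r) * q by ring, mul_pow (2 * r) q]
        ring

theorem V_up2 {r : ℝ} (hr : 49 ≤ r) {p : ℕ} (hp : (p : ℝ) ≤ 0.72 * r) : 3.2 * V r p ≤ V r (p + 2) := by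
  have h0 : (0 : ℝ) ≤ p := by positivity
  have hr0 : 0 < r := by linarith
  have e : ((2 * (p + 2)).factorial : ℝ) = (2 * p + 4) * (2 * p + 3) * (2 * p + 2) * (2 * p + 1) * ((2 * p).factorial : ℝ) := by
    rw [show 2 * (p + 2) = 2 * p + 1 + 1 + 1 + 1 by ring]
    simp only [Nat.factorial_succ]
    push_cast
    ring
  have hf : (0 : ℝ) < ((2 * p).factorial : ℝ) := by positivity
  unfold V
  rw [e, ← mul_div_assoc, div_le_div_iff₀ hf (by positivity)]
  have h1 : (2 * p + 4) * (2 * p + 3) * (2 * p + 2) * (2 * p + 1) * 3.2 ≤ (2 * r) ^ 4 := by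
    have a1 : (2 * p + 4 : ℝ) ≤ 1.5217 * r := by linarith
    have a2 : (2 * p + 3 : ℝ) ≤ 1.5013 * r := by linarith
    have a3 : (2 * p + 2 : ℝ) ≤ 1.4809 * r := by linarith
    have a4 : (2 * p + 1 : ℝ) ≤ 1.4605 * r := by linarith
    calc (2 * p + 4) * (2 * p + 3) * (2 * p + 2) * (2 * p + 1) * 3.2
        ≤ (1.5217 * r) * (1.5013 * r) * (1.4809 * r) * (1.4605 * r) * 3.2 := by gcongr
      _ = (1.5217 * 1.5013 * 1.4809 * 1.4605 * 3.2) * r ^ 4 := by ring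
      _ ≤ 16 * r ^ 4 := by gcongr; norm_num
      _ = (2 * r) ^ 4 := by ring
  have h2 : (2 * r) ^ (2 * (p + 2)) = (2 * r) ^ (2 * p) * (2 * r) ^ 4 := by rw [← pow_add]; ring_nf
  rw [h2]
  have h3 : 0 < (2 * r) ^ (2 * p) * ((2 * p).factorial : ℝ) := by positivity
  calc 3.2 * (2 * r) ^ (2 * p) * ((2 * p + 4) * (2 * p + 3) * (2 * p + 2) * (2 * p + 1) * ((2 * p).factorial : ℝ))
      = ((2 * r) ^ (2 * p) * ((2 * p).factorial : ℝ)) * ((2 * p + 4) * (2 * p + 3) * (2 * p + 2) * (2 * p + 1) * 3.2) := by ring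
    _ ≤ ((2 * r) ^ (2 * p) * ((2 * p).factorial : ℝ)) * (2 * r) ^ 4 := by gcongr
    _ = _ := by ring

theorem V_up3 {r : ℝ} (hr : 49 ≤ r) {p : ℕ} (hp : (p : ℝ) ≤ 0.72 * r) : 5.3 * V r p ≤ V r (p + 3) := by
  have h0 : (0 : ℝ) ≤ p := by positivity
  have hr0 : 0 < r := by linarith
  have e : ((2 * (p + 3)).factorial : ℝ) = (2 * p + 6) * (2 * p + 5) * ((2 * p + 4) * (2 * p + 3)) *
      ((2 * p + 2) * (2 * p + 1)) * ((2 * p).factorial : ℝ) := by
    rw [show 2 * (p + 3) = 2 * p + 1 + 1 + 1 + 1 + 1 + 1 by ring]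
    simp only [Nat.factorial_succ]
    push_cast
    ring
  have hf : (0 : ℝ) < ((2 * p).factorial : ℝ) := by positivity
  unfold V
  rw [e, ← mul_div_assoc, div_le_div_iff₀ hf (by positivity)]
  have h1 : (2 * p + 6) * (2 * p + 5) * ((2 * p + 4) * (2 * p + 3)) * ((2 * p + 2) * (2 * p + 1)) * 5.3 ≤ (2 * r) ^ 6 := by
    have a1 : (2 * p + 6 : ℝ) ≤ 1.5625 * r := by linarith
    have a2 : (2 * p + 5 : ℝ) ≤ 1.5421 * r := by linarith
    have a3 : (2 * p + 4 : ℝ) ≤ 1.5217 * r := by linarith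
    have a4 : (2 * p + 3 : ℝ) ≤ 1.5013 * r := by linarith
    have a5 : (2 * p + 2 : ℝ) ≤ 1.4809 * r := by linarith
    have a6 : (2 * p + 1 : ℝ) ≤ 1.4605 * r := by linarith
    calc (2 * p + 6) * (2 * p + 5) * ((2 * p + 4) * (2 * p + 3)) * ((2 * p + 2) * (2 * p + 1)) * 5.3
        ≤ (1.5625 * r) * (1.5421 * r) * ((1.5217 * r) * (1.5013 * r)) * ((1.4809 * r) * (1.4605 * r)) * 5.3 := by gcongr
      _ = (1.5625 * 1.5421 * 1.5217 * 1.5013 * 1.4809 * 1.4605 * 5.3) * r ^ 6 := by ring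
      _ ≤ 64 * r ^ 6 := by gcongr; norm_num
      _ = (2 * r) ^ 6 := by ring
  have h2 : (2 * r) ^ (2 * (p + 3)) = (2 * r) ^ (2 * p) * (2 * r) ^ 6 := by rw [← pow_add]; ring_nf
  rw [h2]
  calc 5.3 * (2 * r) ^ (2 * p) * ((2 * p + 6) * (2 * p + 5) * ((2 * p + 4) * (2 * p + 3)) *
        ((2 * p + 2) * (2 * p + 1)) * ((2 * p).factorial : ℝ))
      = ((2 * r) ^ (2 * p) * ((2 * p).factorial : ℝ)) *
        ((2 * p + 6) * (2 * p + 5) * ((2 * p + 4) * (2 * p + 3)) * ((2 * p + 2) * (2 * p + 1)) * 5.3) := by ring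
    _ ≤ ((2 * r) ^ (2 * p) * ((2 * p).factorial : ℝ)) * (2 * r) ^ 6 := by gcongr
    _ = _ := by ring

end SokalFU.N2
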