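import Pool.Agent.Lib_MP_af4de1_fu.N2K

/-!
# `N = 2`, `ρ ≤ 3.2`: the block of small angles is nonnegative
-/

set_option autoImplicit false

namespace SokalFU.N2

open Filter Topology Set Real

theorem hasSum_geo_lin {q : ℝ} (h0 : 0 ≤ q) (h1 : q < 1) (x δ : ℝ) :
    HasSum (fun j : ℕ => (x + j * δ) * q ^ j) (x / (1 - q) + δ * (q / (1 - q) ^ 2)) := by
  have h2 := (hasSum_coe_mul_geometric_of_norm_lt_one (𝕜 := ℝ) (r := q) (by rwa [norm_of_nonneg h0])).mul_left δ
  have h3 := (hasSum_geometric_of_lt_one h0 h1).mul_left x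
  rw [← div_eq_mul_inv] at h3
  refine (h3.add h2).congr_fun fun j => ?_
  ring

theorem abs_cos_le_cos {x y : ℝ} (h0 : 0 ≤ x) (h1 : x ≤ y) (h2 : y ≤ π - x) : |cos y| ≤ cos x := by
  rw [abs_le]
  constructor
  · rw [← cos_pi_sub]
    exact cos_le_cos_of_nonneg_of_le_pi (by linarith) (by linarith) h2
  · exact cos_le_cos_of_nonneg_of_le_pi h0 (by linarith) h1

theorem cos_pow_ge {y : ℝ} {n : ℕ} (hy : y ^ 2 ≤ 2) (h : (n : ℝ) * (y ^ 2 / 2) ≤ 1) :
    (1 - (n : ℝ) * (y ^ 2 / 2)) ^ 2 ≤ |cos y| ^ (2 * n) := by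
  have h1 : 1 + (n : ℝ) * (-(y ^ 2 / 2)) ≤ (1 + (-(y ^ 2 / 2))) ^ n :=
    one_add_mul_le_pow (by linarith) _
  have h2 : (1 + (-(y ^ 2 / 2))) ^ n ≤ |cos y| ^ n := by
    apply pow_le_pow_left₀ (by linarith)
    refine le_trans ?_ (le_abs_self _)
    have := Real.one_sub_sq_div_two_le_cos (x := y)
    linarith
  rw [mul_comm 2 n, pow_mul]
  apply pow_le_pow_left₀ (by linarith)
  linarith

/-- lower bound of a term -/
theorem term_ge {r δ η y g c : ℝ} {n p : ℕ} (hr : 0 < r) (hy : η + n * δ = y) (hy0 : 0 ≤ y) (hy1 : y ≤ 0.2)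
    (hg0 : 0 ≤ g) (hV : g * V r p ≤ V r n) (hc0 : 0 ≤ c) (hc : (n : ℝ) * (y ^ 2 / 2) ≤ 1 - c) :
    0.99 * y * (g * c ^ 2 * uu r δ η p) ≤ sin (η + n * δ) * uu r δ η n := by
  rw [uu_eq r δ η n, hy]
  have h1 : 0.99 * y ≤ sin y := by
    rcases eq_or_lt_of_le hy0 with h | h
    · rw [← h]; simp
    · have := Real.sin_gt_sub_cube h
      nlinarith [mul_pos h h, mul_pos (mul_pos h h) h]
  have h2 : c ^ 2 ≤ |cos y| ^ (2 * n) := by
    refine le_trans ?_ (cos_pow_ge (by nlinarith) (by linarith))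
    exact pow_le_pow_left₀ hc0 (by linarith) 2
  have h3 : uu r δ η p ≤ V r p := by
    rw [uu_eq]
    exact mul_le_of_le_one_right (V_pos hr p).le (pow_le_one₀ (abs_nonneg _) (abs_cos_le_one _))
  have hu := uu_nonneg r δ η p
  have hVp := V_pos hr p
  have h4 : g * c ^ 2 * uu r δ η p ≤ V r n * |cos y| ^ (2 * n) := by
    calc g * c ^ 2 * uu r δ η p = (g * uu r δ η p) * c ^ 2 := by ring
      _ ≤ (g * V r p) * |cos y| ^ (2 * n) := by gcongr
      _ ≤ V r n * |cos y| ^ (2 * n) := by gcongr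
  calc 0.99 * y * (g * c ^ 2 * uu r δ η p) ≤ sin y * (V r n * |cos y| ^ (2 * n)) := by
        apply mul_le_mul h1 h4 (by positivity) (by linarith)
    _ = _ := rfl

theorem Ablock {r δ η : ℝ} (hr : 49 ≤ r) (hδ : 0 < δ) (hρ : r * δ ≤ 3.2) (h1 : -(0.72 * (r * δ)) ≤ η) {p : ℕ}
    (hp1 : p * δ ≤ -η) (hp2 : -η < (p + 1) * δ) :
    0 ≤ ∑ i ∈ Finset.range (p + 4), sin (η + i * δ) * uu r δ η i := by
  have hπ := Real.pi_gt_d6
  have hr0 : 0 < r := by linarith
  have hδ2 : δ ≤ 0.0654 := by nlinarith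
  have hpr : (p : ℝ) ≤ 0.72 * r := by
    have : (p : ℝ) * δ ≤ (0.72 * r) * δ := by linarith
    exact le_of_mul_le_mul_right this hδ
  obtain ⟨f, hf⟩ : ∃ f, f * δ = -η - p * δ := ⟨(-η - p * δ) / δ, by field_simp⟩
  have hf0 : 0 ≤ f := by
    by_contra h
    rw [not_le] at h
    have := mul_neg_of_neg_of_pos h hδ
    linarith
  have hf1 : f < 1 := by
    have : f * δ < 1 * δ := by linarith
    exact lt_of_mul_lt_mul_right this hδ.le
  have hx1 : f * δ ≤ 0.0654 := by nlinarith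
  have hx0 : 0 ≤ f * δ := by positivity
  have hu : 0 ≤ uu r δ η p := uu_nonneg _ _ _ _
  -- the negative part
  have hneg : -(uu r δ η p * (2.1 * (f * δ) + 2.28 * δ)) ≤ ∑ i ∈ Finset.range (p + 1), sin (η + i * δ) * uu r δ η i := by
    rw [← Finset.sum_range_reflect]
    have hS := (hasSum_geo_lin (q := 0.521) (by norm_num) (by norm_num) (f * δ) δ).mul_left (uu r δ η p)
    have hS2 := sum_le_hasSum (Finset.range (p + 1)) (fun j _ => by positivity) hS
    have hS3 : f * δ / (1 - 0.521) + δ * (0.521 / (1 - 0.521) ^ 2) ≤ 2.1 * (f * δ) + 2.28 * δ := by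
      norm_num; linarith
    have hS4 : uu r δ η p * (f * δ / (1 - 0.521) + δ * (0.521 / (1 - 0.521) ^ 2)) ≤
        uu r δ η p * (2.1 * (f * δ) + 2.28 * δ) := by gcongr
    have hS5 : -∑ j ∈ Finset.range (p + 1), uu r δ η p * ((f * δ + j * δ) * 0.521 ^ j) ≤
        ∑ j ∈ Finset.range (p + 1), sin (η + ((p + 1 - 1 - j : ℕ) : ℝ) * δ) * uu r δ η (p + 1 - 1 - j) := by
      rw [← Finset.sum_neg_distrib]
      apply Finset.sum_le_sum
      intro j hj
      have hj' : j ≤ p := by have := Finset.mem_range.1 hj; omega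
      rw [show p + 1 - 1 - j = p - j by omega]
      have e1 : η + ((p - j : ℕ) : ℝ) * δ = -(f * δ + j * δ) := by
        rw [Nat.cast_sub hj']; linarith
      have e2 : |sin (η + ((p - j : ℕ) : ℝ) * δ)| ≤ f * δ + j * δ := by
        rw [e1, sin_neg, abs_neg]
        refine Real.abs_sin_le_abs.trans (le_of_eq (abs_of_nonneg (by positivity)))
      have hjp : (j : ℝ) ≤ p := by exact_mod_cast hj'
      have hcx : 0.9978 ≤ cos (f * δ) := by
        have := Real.one_sub_sq_div_two_le_cos (x := f * δ)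
        nlinarith
      have e3 : uu r δ η (p - j) ≤ uu r δ η p * 0.521 ^ j := by
        rw [uu_eq, uu_eq, e1]
        have e4 : η + (p : ℝ) * δ = -(f * δ) := by linarith
        rw [e4, cos_neg, cos_neg, abs_of_nonneg (show 0 ≤ cos (f * δ) by linarith)]
        have e5 : |cos (f * δ + j * δ)| ≤ cos (f * δ) := by
          apply abs_cos_le_cos hx0 (by nlinarith)
          nlinarith
        have e6 := V_down hr0 hj' hpr
        have e7 : (0.72 : ℝ) ^ (2 * j) ≤ 0.521 ^ j * cos (f * δ) ^ (2 * j) := by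
          rw [pow_mul, pow_mul, ← mul_pow]
          apply pow_le_pow_left₀ (by norm_num)
          nlinarith
        have hVp := V_pos hr0 p
        calc V r (p - j) * |cos (f * δ + j * δ)| ^ (2 * (p - j))
            ≤ (V r p * 0.72 ^ (2 * j)) * cos (f * δ) ^ (2 * (p - j)) := by gcongr
          _ ≤ (V r p * (0.521 ^ j * cos (f * δ) ^ (2 * j))) * cos (f * δ) ^ (2 * (p - j)) := by
              gcongr
          _ = V r p * cos (f * δ) ^ (2 * p) * 0.521 ^ j := by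
              have : cos (f * δ) ^ (2 * p) = cos (f * δ) ^ (2 * j) * cos (f * δ) ^ (2 * (p - j)) := by
                rw [← pow_add]; congr 1; omega
              rw [this]; ring
      have e8 : |sin (η + ((p - j : ℕ) : ℝ) * δ) * uu r δ η (p - j)| ≤ uu r δ η p * ((f * δ + j * δ) * 0.521 ^ j) := by
        rw [abs_mul, abs_of_nonneg (uu_nonneg r δ η (p - j))]
        calc |sin (η + ((p - j : ℕ) : ℝ) * δ)| * uu r δ η (p - j) ≤ (f * δ + j * δ) * (uu r δ η p * 0.521 ^ j) := by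
              apply mul_le_mul e2 e3 (uu_nonneg _ _ _ _) (by positivity)
          _ = _ := by ring
      have := neg_abs_le (sin (η + ((p - j : ℕ) : ℝ) * δ) * uu r δ η (p - j))
      linarith
    linarith
  -- the positive part
  have hy1 : 0 ≤ sin (η + ((p + 1 : ℕ) : ℝ) * δ) * uu r δ η (p + 1) := by
    apply mul_nonneg _ (uu_nonneg _ _ _ _)
    apply sin_nonneg_of_nonneg_of_le_pi <;> push_cast <;> linarith
  have hpδ : (p : ℝ) * δ ^ 2 ≤ 0.15069 := by
    calc (p : ℝ) * δ ^ 2 ≤ (0.72 * r) * δ ^ 2 := by gcongr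
      _ = 0.72 * (r * δ) * δ := by ring
      _ ≤ 0.72 * 3.2 * 0.0654 := by gcongr
      _ ≤ 0.15069 := by norm_num
  have hδδ : δ ^ 2 ≤ 0.00428 := by nlinarith
  have h2 := term_ge (r := r) (δ := δ) (η := η) (y := (2 - f) * δ) (g := 3.2) (c := 0.6814 + 0.2389 * f) (n := p + 2)
    (p := p) hr0 (by push_cast; linarith) (by nlinarith) (by nlinarith) (by norm_num) (V_up2 hr hpr) (by linarith) (by
      push_cast
      have e1 : ((p : ℝ) + 2) * δ ^ 2 ≤ 0.1593 := by nlinarith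
      have e2 : 0 ≤ (2 - f) ^ 2 := sq_nonneg _
      calc ((p : ℝ) + 2) * (((2 - f) * δ) ^ 2 / 2) = (((p : ℝ) + 2) * δ ^ 2) * ((2 - f) ^ 2 / 2) := by ring
        _ ≤ 0.1593 * ((2 - f) ^ 2 / 2) := by gcongr
        _ ≤ 1 - (0.6814 + 0.2389 * f) := by nlinarith)
  have h3 := term_ge (r := r) (δ := δ) (η := η) (y := (3 - f) * δ) (g := 5.3) (c := 0.2641 + 0.4087 * f) (n := p + 3)
    (p := p) hr0 (by push_cast; linarith) (by nlinarith) (by nlinarith) (by norm_num) (V_up3 hr hpr) (by linarith) (by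
      push_cast
      have e1 : ((p : ℝ) + 3) * δ ^ 2 ≤ 0.16353 := by nlinarith
      have e2 : 0 ≤ (3 - f) ^ 2 := sq_nonneg _
      calc ((p : ℝ) + 3) * (((3 - f) * δ) ^ 2 / 2) = (((p : ℝ) + 3) * δ ^ 2) * ((3 - f) ^ 2 / 2) := by ring
        _ ≤ 0.16353 * ((3 - f) ^ 2 / 2) := by gcongr
        _ ≤ 1 - (0.2641 + 0.4087 * f) := by nlinarith)
  rw [Finset.sum_range_succ, Finset.sum_range_succ, Finset.sum_range_succ]
  have hfin : 2.1 * f + 2.28 ≤ 0.99 * (2 - f) * (3.2 * (0.6814 + 0.2389 * f) ^ 2) +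
      0.99 * (3 - f) * (5.3 * (0.2641 + 0.4087 * f) ^ 2) := by
    have hff : 0 ≤ f * (1 - f) := mul_nonneg hf0 (by linarith)
    nlinarith [mul_nonneg hff hf0, mul_nonneg hff (show 0 ≤ 1 - f by linarith)]
  have h5 : 0 ≤ uu r δ η p * δ := by positivity
  have h6 := mul_le_mul_of_nonneg_left hfin h5
  nlinarith

end SokalFU.N2
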