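import Pool.Agent.Lib_MP_af4de1_fu.N2L

/-!
# `N = 2`, `ρ ∈ [1.4, 3.2]`: the block of angles near `π`
-/

set_option autoImplicit false

namespace SokalFU.N2

open Filter Topology Set Real

theorem exp_quad {x : ℝ} (h0 : 0 ≤ x) (h1 : x ≤ 1) : exp x ≤ 1 + x + 0.75 * x ^ 2 := by
  have h := Real.exp_bound' h0 h1 (n := 2) (by norm_num)
  refine h.trans (le_of_eq ?_)
  norm_num [Finset.sum_range_succ, Nat.factorial]
  ring

theorem exp_3735 : exp 0.3735 ≤ 1.4529 := by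
  have h := Real.exp_bound' (x := 0.3735) (by norm_num) (by norm_num) (n := 6) (by norm_num)
  refine h.trans ?_
  norm_num [Finset.sum_range_succ, Nat.factorial]

theorem cos_ratio {D D' : ℝ} (h0 : 0 ≤ D) (h1 : D ≤ D') (h2 : D' ≤ 0.5654) :
    cos D ≤ cos D' * exp ((D' ^ 2 - D ^ 2) / 1.68) := by
  have hπ := Real.pi_gt_d6
  have h3 : cos D - cos D' ≤ (D' ^ 2 - D ^ 2) / 2 := by
    have e1 : cos D - cos D' = 2 * sin ((D' + D) / 2) * sin ((D' - D) / 2) := by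
      rw [cos_sub_cos]
      have : sin ((D' - D) / 2) = -sin ((D - D') / 2) := by rw [← sin_neg]; ring_nf
      rw [this, add_comm D' D]; ring
    have e2 : sin ((D' + D) / 2) ≤ (D' + D) / 2 := sin_le (by linarith)
    have e3 : sin ((D' - D) / 2) ≤ (D' - D) / 2 := sin_le (by linarith)
    have e4 : 0 ≤ sin ((D' - D) / 2) := sin_nonneg_of_nonneg_of_le_pi (by linarith) (by linarith)
    have e5 : 0 ≤ sin ((D' + D) / 2) := sin_nonneg_of_nonneg_of_le_pi (by linarith) (by linarith)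
    rw [e1]
    calc 2 * sin ((D' + D) / 2) * sin ((D' - D) / 2) ≤ 2 * ((D' + D) / 2) * ((D' - D) / 2) := by
          gcongr
          linarith
      _ = _ := by ring
  have h4 : 0.84 ≤ cos D' := by
    have := Real.one_sub_sq_div_two_le_cos (x := D')
    nlinarith
  have h5 := add_one_le_exp ((D' ^ 2 - D ^ 2) / 1.68)
  have h6 : 0 ≤ D' ^ 2 - D ^ 2 := by nlinarith
  calc cos D ≤ cos D' + (D' ^ 2 - D ^ 2) / 2 := by linarith
    _ ≤ cos D' * ((D' ^ 2 - D ^ 2) / 1.68 + 1) := by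
      have h7 := mul_le_mul_of_nonneg_right h4 (div_nonneg h6 (by norm_num : (0 : ℝ) ≤ 1.68))
      have h8 : 0.84 * ((D' ^ 2 - D ^ 2) / 1.68) = (D' ^ 2 - D ^ 2) / 2 := by ring
      linarith
    _ ≤ _ := by
      apply mul_le_mul_of_nonneg_left h5 (by linarith)

/-- the rate of the pairing -/
theorem rate {r δ Λ : ℝ} (hr : 49 ≤ r) (hρ1 : 1.4 ≤ r * δ) (hρ2 : r * δ ≤ 3.2)
    (hΛ1 : 1.3 * (r * δ) ≤ Λ) (hΛ2 : Λ ≤ π + 0.72 * (r * δ)) :
    (r * δ) ^ 2 * exp (Λ * δ / 0.84 + 0.05) ≤ (Λ - δ / 2) ^ 2 - 0.2838 := by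
  have hπ := Real.pi_lt_d6
  have hr0 : 0 < r := by linarith
  obtain ⟨ρ, hρ⟩ : ∃ ρ, ρ = r * δ := ⟨_, rfl⟩
  rw [← hρ] at hρ1 hρ2 hΛ1 hΛ2 ⊢
  have hρ0 : 0 < ρ := by linarith
  have hδ : δ ≤ ρ * (1 / 49) := by
    have : δ = ρ / r := by rw [hρ]; field_simp
    rw [this, div_eq_mul_one_div]
    apply mul_le_mul_of_nonneg_left _ hρ0.le
    exact one_div_le_one_div_of_le (by norm_num) hr
  have hδ0 : 0 < δ := by
    by_contra h
    rw [not_lt] at h
    have := mul_nonpos_of_nonneg_of_nonpos hr0.le h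
    linarith
  obtain ⟨x, hx⟩ : ∃ x, Λ = ρ * (1.3 + x) := ⟨Λ / ρ - 1.3, by field_simp; ring⟩
  have hx0 : 0 ≤ x := by
    rw [hx] at hΛ1
    have : ρ * 1.3 ≤ ρ * (1.3 + x) := by linarith
    linarith [le_of_mul_le_mul_left this hρ0]
  have hx1 : x ≤ 1.665 := by
    rw [hx] at hΛ2
    by_contra h
    rw [not_le] at h
    nlinarith
  have h1 : Λ * δ / 0.84 + 0.05 ≤ 0.3735 + 0.2489 * x := by
    have : Λ * δ ≤ (1.3 + x) * 0.209 := by
      calc Λ * δ ≤ (ρ * (1.3 + x)) * (ρ * (1 / 49)) := by rw [hx]; gcongr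
        _ = (1.3 + x) * (ρ ^ 2 / 49) := by ring
        _ ≤ (1.3 + x) * (3.2 ^ 2 / 49) := by gcongr
        _ ≤ (1.3 + x) * 0.209 := by gcongr; norm_num
    have h4 : Λ * δ / 0.84 ≤ (1.3 + x) * 0.209 / 0.84 := by gcongr
    have h5 : (1.3 + x) * 0.209 / 0.84 ≤ 0.32346 + 0.24885 * x := by
      rw [div_le_iff₀ (by norm_num)]
      linarith
    linarith
  have h2 : exp (Λ * δ / 0.84 + 0.05) ≤ 1.4529 * (1 + 0.2489 * x * 1.3109) := by
    calc exp (Λ * δ / 0.84 + 0.05) ≤ exp (0.3735 + 0.2489 * x) := exp_le_exp.2 h1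
      _ = exp 0.3735 * exp (0.2489 * x) := exp_add _ _
      _ ≤ 1.4529 * (1 + 0.2489 * x + 0.75 * (0.2489 * x) ^ 2) := by
          gcongr
          · exact exp_3735
          · exact exp_quad (by positivity) (by linarith)
      _ ≤ 1.4529 * (1 + 0.2489 * x * 1.3109) := by nlinarith
  have h3 : (ρ * (1.2897 + x)) ^ 2 ≤ (Λ - δ / 2) ^ 2 := by
    apply pow_le_pow_left₀ (by positivity)
    rw [hx]
    nlinarith
  calc ρ ^ 2 * exp (Λ * δ / 0.84 + 0.05) ≤ ρ ^ 2 * (1.4529 * (1 + 0.2489 * x * 1.3109)) := by gcongr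
    _ ≤ ρ ^ 2 * ((1.2897 + x) ^ 2) - 0.2838 := by
        have e1 : (1.4529 * (1 + 0.2489 * x * 1.3109)) + 0.145 ≤ (1.2897 + x) ^ 2 := by nlinarith
        nlinarith [mul_le_mul_of_nonneg_left e1 (sq_nonneg ρ)]
    _ = (ρ * (1.2897 + x)) ^ 2 - 0.2838 := by ring
    _ ≤ _ := by linarith

/-- the pairing -/
theorem pairB {r δ Λ : ℝ} {N k : ℕ} (hr : 49 ≤ r) (hδ : 0 < δ) (hρ1 : 1.4 ≤ r * δ) (hρ2 : r * δ ≤ 3.2)
    (hΛ1 : 1.3 * (r * δ) ≤ Λ) (hΛ2 : Λ ≤ π + 0.72 * (r * δ)) (hN : 1 ≤ N) (hk : 1 ≤ k)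
    (h0 : 0 ≤ (N + k) * δ - Λ) (h1 : (N + k) * δ - Λ ≤ Λ - N * δ) (h2 : Λ - N * δ ≤ (N + k) * δ - Λ + δ)
    (h3 : (N + k) * δ - Λ ≤ 0.5) :
    |sin (π - Λ + ((N + k : ℕ) : ℝ) * δ) * uu r δ (π - Λ) (N + k)| ≤
      exp (-0.05) * (sin (π - Λ + (N : ℝ) * δ) * uu r δ (π - Λ) N) := by
  have hπ := Real.pi_gt_d6
  have hr0 : 0 < r := by linarith
  have hδ2 : δ ≤ 0.0654 := by nlinarith
  obtain ⟨D, hD⟩ : ∃ D, D = (N + k) * δ - Λ := ⟨_, rfl⟩
  obtain ⟨D', hD'⟩ : ∃ D', D' = Λ - N * δ := ⟨_, rfl⟩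
  rw [← hD] at h0 h1 h2 h3
  rw [← hD'] at h1 h2
  have hk0 : (0 : ℝ) < k := by exact_mod_cast hk
  have hN0 : (0 : ℝ) < N := by exact_mod_cast hN
  have e1 : π - Λ + ((N + k : ℕ) : ℝ) * δ = D + π := by push_cast; linarith
  have e2 : π - Λ + (N : ℝ) * δ = π - D' := by linarith
  rw [uu_eq, uu_eq, e1, e2, sin_add_pi, cos_add_pi, sin_pi_sub, cos_pi_sub, abs_neg, abs_neg]
  have hcD : 0 ≤ cos D := cos_nonneg_of_mem_Icc ⟨by linarith, by linarith⟩
  have hcD' : 0 < cos D' := cos_pos_of_mem_Ioo ⟨by linarith, by linarith⟩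
  have hsD : 0 ≤ sin D := sin_nonneg_of_nonneg_of_le_pi h0 (by linarith)
  have hsD' : 0 ≤ sin D' := sin_nonneg_of_nonneg_of_le_pi (by linarith) (by linarith)
  have hss : sin D ≤ sin D' := sin_le_sin_of_le_of_le_pi_div_two (by linarith) (by linarith) h1
  have hV := V_pos hr0 (N + k)
  have hVN := V_pos hr0 N
  rw [abs_of_nonneg hcD, abs_of_nonneg hcD'.le, abs_mul, abs_neg, abs_of_nonneg hsD,
    abs_of_nonneg (by positivity : 0 ≤ V r (N + k) * cos D ^ (2 * (N + k)))]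
  -- the weights
  have hkδ : k * δ = D + D' := by linarith
  have e3 : V r (N + k) * cos D ^ (2 * (N + k)) ≤ exp (-0.05) * (V r N * cos D' ^ (2 * N)) := by
    have e4 : cos D ^ (2 * (N + k)) ≤ cos D' ^ (2 * N) * exp (Λ * δ / 0.84) ^ k := by
      calc cos D ^ (2 * (N + k)) = cos D ^ (2 * N) * cos D ^ (2 * k) := by rw [← pow_add]; ring_nf
        _ ≤ cos D ^ (2 * N) * 1 := by
            gcongr
            exact pow_le_one₀ hcD (cos_le_one _)
        _ ≤ (cos D' * exp ((D' ^ 2 - D ^ 2) / 1.68)) ^ (2 * N) := by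
            rw [mul_one]
            exact pow_le_pow_left₀ hcD (cos_ratio h0 h1 (by linarith)) _
        _ = cos D' ^ (2 * N) * exp ((2 * N : ℕ) * ((D' ^ 2 - D ^ 2) / 1.68)) := by rw [mul_pow, exp_nat_mul]
        _ ≤ cos D' ^ (2 * N) * exp (k * (Λ * δ / 0.84)) := by
            apply mul_le_mul_of_nonneg_left (exp_le_exp.2 _) (by positivity)
            have e5 : D' ^ 2 - D ^ 2 = (D' - D) * (k * δ) := by rw [hkδ]; ring
            have e6 : (D' - D) * (k * δ) ≤ δ * (k * δ) := by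
              have : 0 ≤ k * δ := by positivity
              apply mul_le_mul_of_nonneg_right (by linarith) this
            have e7 : N * δ ≤ Λ := by linarith
            have e8 : (N * δ) * (k * δ) ≤ Λ * (k * δ) := by
              have : 0 ≤ k * δ := by positivity
              gcongr
            push_cast
            rw [e5]
            have e9 : (N : ℝ) * ((D' - D) * (k * δ)) ≤ N * (δ * (k * δ)) := by gcongr
            have e10 : 2 * (N : ℝ) * ((D' - D) * (k * δ) / 1.68) = (N * ((D' - D) * (k * δ))) / 0.84 := by ring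
            have e11 : (k : ℝ) * (Λ * δ / 0.84) = (Λ * (k * δ)) / 0.84 := by ring
            rw [e10, e11]
            apply div_le_div_of_nonneg_right _ (by norm_num)
            linarith
        _ = _ := by rw [exp_nat_mul]
    have e12 : r ^ 2 / ((N : ℝ) * (N + k)) * exp (Λ * δ / 0.84) ≤ exp (-0.05) := by
      have hrate := rate hr hρ1 hρ2 hΛ1 hΛ2
      have e13 : (Λ - δ / 2) ^ 2 - 0.2838 ≤ ((N : ℝ) * δ) * ((N + k) * δ) := by
        have e14 : (N : ℝ) * δ = Λ - D' := by linarith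
        have e15 : ((N : ℝ) + k) * δ = Λ + D := by linarith
        rw [e14, e15]
        have e16 : D + D' ≤ 1.0654 := by linarith
        have e17 : (Λ - D') * (Λ + D) = (Λ - (D' - D) / 2) ^ 2 - ((D + D') / 2) ^ 2 := by ring
        rw [e17]
        have e18 : (Λ - δ / 2) ^ 2 ≤ (Λ - (D' - D) / 2) ^ 2 := by
          apply pow_le_pow_left₀ (by nlinarith)
          linarith
        have e19 : ((D + D') / 2) ^ 2 ≤ 0.2838 := by nlinarith
        linarith
      have hNk : 0 < (N : ℝ) * (N + k) := by positivity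
      have e20 : r ^ 2 * exp (Λ * δ / 0.84 + 0.05) ≤ (N : ℝ) * (N + k) := by
        have : (r ^ 2 * exp (Λ * δ / 0.84 + 0.05)) * δ ^ 2 ≤ ((N : ℝ) * (N + k)) * δ ^ 2 := by nlinarith
        exact le_of_mul_le_mul_right this (by positivity)
      rw [exp_add] at e20
      rw [div_mul_eq_mul_div, div_le_iff₀ hNk, exp_neg, inv_mul_eq_div, le_div_iff₀ (exp_pos _)]
      linarith
    have e21 : exp (-0.05) ^ k ≤ exp (-0.05) := by
      have : exp (-0.05) ^ k ≤ exp (-0.05) ^ 1 := pow_le_pow_of_le_one (exp_pos _).le (by rw [exp_le_one_iff]; norm_num) hk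
      rwa [pow_one] at this
    calc V r (N + k) * cos D ^ (2 * (N + k))
        ≤ (V r N * (r ^ 2 / ((N : ℝ) * (N + k))) ^ k) * (cos D' ^ (2 * N) * exp (Λ * δ / 0.84) ^ k) := by
          apply mul_le_mul (V_pair hr0 hN) e4 (by positivity) (by positivity)
      _ = (V r N * cos D' ^ (2 * N)) * (r ^ 2 / ((N : ℝ) * (N + k)) * exp (Λ * δ / 0.84)) ^ k := by
          rw [mul_pow]; ring
      _ ≤ (V r N * cos D' ^ (2 * N)) * exp (-0.05) ^ k := by gcongr
      _ ≤ (V r N * cos D' ^ (2 * N)) * exp (-0.05) := by gcongr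
      _ = _ := by ring
  calc sin D * (V r (N + k) * cos D ^ (2 * (N + k))) ≤ sin D' * (exp (-0.05) * (V r N * cos D' ^ (2 * N))) := by
        apply mul_le_mul hss e3 (by positivity) hsD'
    _ = _ := by ring

end SokalFU.N2
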