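import Pool.Agent.Lib_MP_af4de1_fu.N2M

/-!
# `N = 2`, `ρ ∈ [1.4, 3.2]`: assembly, `Dist α r` for `|α - π| r ≤ 3.2`, `r ≥ 49`
-/

set_option autoImplicit false

namespace SokalFU.N2

open Filter Topology Set Real

theorem exp_052 : exp 0.52 ≤ 1.69 := by
  have h := Real.exp_bound' (x := 0.52) (by norm_num) (by norm_num) (n := 6) (by norm_num)
  refine h.trans ?_
  norm_num [Finset.sum_range_succ, Nat.factorial]

/-- far terms -/
theorem farB {r δ Λ : ℝ} {M j : ℕ} (hr : 49 ≤ r) (hδ : 0 < δ) (hρ2 : r * δ ≤ 3.2)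
    (hΛ1 : 1.3 * (r * δ) ≤ Λ) (hM1 : M * δ ≤ Λ + δ) (hM2 : Λ < M * δ) (hj : 0.4346 ≤ j * δ) :
    |sin (π - Λ + ((M + j : ℕ) : ℝ) * δ) * uu r δ (π - Λ) (M + j)| ≤ V r M * exp (-(0.24 * r)) * exp (-(0.12 * j)) := by
  have hπ := Real.pi_gt_d6
  have hr0 : 0 < r := by linarith
  have hδ2 : δ ≤ 0.0654 := by
    have : 49 * δ ≤ r * δ := mul_le_mul_of_nonneg_right hr hδ.le
    linarith
  have hMr : 1.3 * r ≤ M := by
    have : (1.3 * r) * δ ≤ M * δ := by linarith
    exact le_of_mul_le_mul_right this hδ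
  obtain ⟨D, hD⟩ : ∃ D, D = (M + j) * δ - Λ := ⟨_, rfl⟩
  have e1 : π - Λ + ((M + j : ℕ) : ℝ) * δ = D + π := by push_cast; linarith
  rw [uu_eq, e1, cos_add_pi, abs_neg, abs_mul]
  have hV := V_pos hr0 (M + j)
  have hVM := V_pos hr0 M
  have e2 : V r (M + j) ≤ V r M * (exp (-(0.12 * j)) * exp (-(0.4 * j))) := by
    have e3 := U_decay (r := r) (q := 1 / 1.3) (M := M) hr0.le (by
      rw [div_mul_eq_mul_div, le_div_iff₀ (by norm_num)]; linarith) (2 * j)
    have e4 : V r (M + j) ≤ V r M * (1 / 1.3) ^ (2 * j) := by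
      unfold V
      rw [show 2 * (M + j) = 2 * M + 2 * j by ring]
      exact e3
    refine e4.trans ?_
    apply mul_le_mul_of_nonneg_left _ hVM.le
    have e5 : exp (-(0.12 * j)) * exp (-(0.4 * j)) = exp (-0.52) ^ j := by
      rw [← exp_add, ← exp_nat_mul]; ring_nf
    rw [e5, pow_mul]
    apply pow_le_pow_left₀ (by positivity)
    rw [exp_neg, ← one_div, div_pow, one_pow]
    apply one_div_le_one_div_of_le (exp_pos _)
    refine exp_052.trans ?_
    norm_num
  have e6 : exp (-(0.4 * j)) * |cos D| ^ (2 * (M + j)) ≤ exp (-(0.24 * r)) := by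
    have e7 : D = (M * δ - Λ) + j * δ := by rw [hD]; ring
    by_cases hc : D ≤ π - 0.4346
    · have e8 : |cos D| ≤ 0.9076 := by
        refine (abs_cos_le_cos (x := 0.4346) (by norm_num) (by linarith) hc).trans ?_
        have := (abs_le.1 (Real.cos_bound (x := 0.4346) (by rw [abs_of_pos (by norm_num)]; norm_num))).2
        rw [abs_of_pos (by norm_num : (0 : ℝ) < 0.4346)] at this
        norm_num at this ⊢
        linarith
      have e9 : |cos D| ≤ exp (-0.0924) := by
        have := add_one_le_exp (-0.0924 : ℝ)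
        linarith
      calc exp (-(0.4 * j)) * |cos D| ^ (2 * (M + j)) ≤ 1 * exp (-0.0924) ^ (2 * M) := by
            apply mul_le_mul _ _ (by positivity) (by norm_num)
            · rw [exp_le_one_iff]
              have : (0 : ℝ) ≤ j := by positivity
              linarith
            · calc |cos D| ^ (2 * (M + j)) ≤ |cos D| ^ (2 * M) :=
                    pow_le_pow_of_le_one (abs_nonneg _) (abs_cos_le_one _) (by omega)
                _ ≤ _ := pow_le_pow_left₀ (abs_nonneg _) e9 _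
        _ ≤ exp (-(0.24 * r)) := by
            rw [one_mul, ← exp_nat_mul]
            apply exp_le_exp.2
            push_cast
            linarith
    · rw [not_le] at hc
      have e8 : 2.6 ≤ j * δ := by linarith
      have e9 : 2.6 * r ≤ 3.2 * j := by
        have a1 : r * 2.6 ≤ r * (j * δ) := mul_le_mul_of_nonneg_left e8 hr0.le
        have a2 : (r * δ) * j ≤ 3.2 * j := mul_le_mul_of_nonneg_right hρ2 (by positivity)
        linarith
      calc exp (-(0.4 * j)) * |cos D| ^ (2 * (M + j)) ≤ exp (-(0.24 * r)) * 1 := by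
            apply mul_le_mul _ (pow_le_one₀ (abs_nonneg _) (abs_cos_le_one _)) (by positivity) (exp_pos _).le
            apply exp_le_exp.2
            linarith
        _ = _ := mul_one _
  calc |sin (D + π)| * |V r (M + j) * |cos D| ^ (2 * (M + j))|
      ≤ 1 * ((V r M * (exp (-(0.12 * j)) * exp (-(0.4 * j)))) * |cos D| ^ (2 * (M + j))) := by
        rw [abs_of_nonneg (by positivity : 0 ≤ V r (M + j) * |cos D| ^ (2 * (M + j)))]
        gcongr
        exact abs_sin_le_one _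
    _ = (V r M * exp (-(0.12 * j))) * (exp (-(0.4 * j)) * |cos D| ^ (2 * (M + j))) := by ring
    _ ≤ (V r M * exp (-(0.12 * j))) * exp (-(0.24 * r)) := by gcongr
    _ = _ := by ring

/-- the partner of the first negative term -/
theorem partner {r δ Λ : ℝ} {s N M : ℕ} (hr : 49 ≤ r) (hδ : 0 < δ) (hρ1 : 1.4 ≤ r * δ) (hρ2 : r * δ ≤ 3.2)
    (hΛ1 : 1.3 * (r * δ) ≤ Λ) (hΛ2 : Λ ≤ π + 0.72 * (r * δ)) (hs : 1 ≤ s) (hs2 : s ≤ 2) (hNM : N + s = M)
    (hM1 : M * δ ≤ Λ + δ) (hM2 : Λ < M * δ) (h0 : 0 ≤ 2 * Λ - (N + M) * δ) (h1 : 2 * Λ - (N + M) * δ ≤ δ) :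
    V r M * exp (-(0.24 * r)) * ((1 + 0.12) / 0.12) <
      (1 - exp (-0.05)) * (sin (π - Λ + (N : ℝ) * δ) * uu r δ (π - Λ) N) := by
  have hπ := Real.pi_gt_d6
  have hπ2 := Real.pi_lt_d6
  have hr0 : 0 < r := by linarith
  have hδ2 : δ ≤ 0.0654 := by
    have : 49 * δ ≤ r * δ := mul_le_mul_of_nonneg_right hr hδ.le
    linarith
  have hsr : (1 : ℝ) ≤ s := by exact_mod_cast hs
  have hsr2 : (s : ℝ) ≤ 2 := by exact_mod_cast hs2
  have hNMr : (N : ℝ) + s = M := by exact_mod_cast hNM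
  have hMr : 1.3 * r ≤ M := by
    have : (1.3 * r) * δ ≤ M * δ := by linarith
    exact le_of_mul_le_mul_right this hδ
  obtain ⟨D', hD'⟩ : ∃ D', D' = Λ - N * δ := ⟨_, rfl⟩
  have hsδ : s * δ = M * δ - N * δ := by rw [← hNMr]; ring
  have hsδ1 : δ ≤ s * δ := le_mul_of_one_le_left hδ.le hsr
  have hsδ2 : s * δ ≤ 2 * δ := mul_le_mul_of_nonneg_right hsr2 hδ.le
  have hD1 : δ / 2 ≤ D' := by linarith
  have hD2 : D' ≤ 1.5 * δ := by linarith
  have e2 : π - Λ + (N : ℝ) * δ = π - D' := by linarith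
  rw [uu_eq, e2, sin_pi_sub, cos_pi_sub, abs_neg]
  have h2 : 0.495 * δ ≤ sin D' := by
    have := Real.sin_gt_sub_cube (x := D') (by linarith)
    have h3 : D' ^ 2 ≤ 0.01 := by
      have : D' ^ 2 ≤ (0.0981 : ℝ) ^ 2 := pow_le_pow_left₀ (by linarith) (by linarith) 2
      refine this.trans (by norm_num)
    have h4 : D' ^ 3 ≤ 0.01 * D' := by
      have : D' ^ 3 = D' ^ 2 * D' := by ring
      rw [this]
      exact mul_le_mul_of_nonneg_right h3 (by linarith)
    linarith
  have h3 : 0.358 ≤ |cos D'| ^ (2 * N) := by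
    have h4 : (N : ℝ) * (D' ^ 2 / 2) ≤ 0.401 := by
      have h5 : D' ^ 2 ≤ (1.5 * δ) ^ 2 := by
        apply pow_le_pow_left₀ (by linarith) hD2
      calc (N : ℝ) * (D' ^ 2 / 2) ≤ N * ((1.5 * δ) ^ 2 / 2) := by gcongr
        _ = 1.125 * ((N * δ) * δ) := by ring
        _ ≤ 1.125 * (5.446 * 0.0654) := by
            gcongr
            linarith
        _ ≤ 0.401 := by norm_num
    have h5 : D' ^ 2 ≤ 2 := by
      have : D' ^ 2 ≤ (1 : ℝ) ^ 2 := pow_le_pow_left₀ (by linarith) (by linarith) 2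
      linarith
    refine le_trans ?_ (cos_pow_ge h5 (by linarith))
    calc (0.358 : ℝ) ≤ (1 - 0.401) ^ 2 := by norm_num
      _ ≤ (1 - (N : ℝ) * (D' ^ 2 / 2)) ^ 2 := pow_le_pow_left₀ (by norm_num) (by linarith) 2
  have h4 : V r M ≤ V r N := by
    have h5 := U_decay (r := r) (q := 1) (M := N) hr0.le (by linarith) (2 * s)
    rw [one_pow, mul_one] at h5
    unfold V
    rw [← hNM, show 2 * (N + s) = 2 * N + 2 * s by ring]
    exact h5
  have hVM := V_pos hr0 M
  have hVN := V_pos hr0 N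
  have hs0 : 0 ≤ sin D' := le_trans (by positivity) h2
  have h5 : V r M * (0.1772 * δ) ≤ sin D' * (V r N * |cos D'| ^ (2 * N)) := by
    calc V r M * (0.1772 * δ) ≤ (0.495 * δ) * (V r M * 0.358) := by
          have h6 : 0 ≤ V r M * δ := by positivity
          have h7 : V r M * (0.1772 * δ) = 0.1772 * (V r M * δ) := by ring
          have h8 : (0.495 * δ) * (V r M * 0.358) = 0.17721 * (V r M * δ) := by ring
          rw [h7, h8]
          linarith
      _ ≤ sin D' * (V r N * |cos D'| ^ (2 * N)) := by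
          gcongr
  have h6 : 0.0476 ≤ 1 - exp (-0.05) := by
    have h7 := add_one_le_exp (0.05 : ℝ)
    have h8 : exp (-0.05) ≤ 1 / 1.05 := by
      rw [exp_neg, ← one_div]
      exact one_div_le_one_div_of_le (by norm_num) (by linarith)
    have h9 : (1 : ℝ) / 1.05 ≤ 0.9524 := by norm_num
    linarith
  have h7 : exp (-(0.24 * r)) * 9.334 < 0.0476 * (0.1772 * δ) := by
    have a1 : exp (0.24 * r) = exp 11 * exp (0.24 * r - 11) := by rw [← exp_add]; ring_nf
    have a2 := add_one_le_exp (0.24 * r - 11)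
    have a3 : 59800 * (0.24 * r - 10) ≤ exp 11 * exp (0.24 * r - 11) :=
      mul_le_mul exp11 (by linarith) (by linarith) (exp_pos _).le
    have a4 : 9.334 * r < 0.0118 * exp (0.24 * r) := by rw [a1]; linarith
    have a5 : 0.0118 ≤ 0.0476 * (0.1772 * δ) * r := by
      have : 0.0476 * (0.1772 * δ) * r = 0.0476 * 0.1772 * (r * δ) := by ring
      rw [this]
      linarith
    rw [exp_neg, inv_mul_eq_div, div_lt_iff₀ (exp_pos _)]
    have a6 := exp_pos (0.24 * r)
    have a7 : 9.334 * r < (0.0476 * (0.1772 * δ) * exp (0.24 * r)) * r := by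
      calc 9.334 * r < 0.0118 * exp (0.24 * r) := a4
        _ ≤ (0.0476 * (0.1772 * δ) * r) * exp (0.24 * r) := by gcongr
        _ = _ := by ring
    exact lt_of_mul_lt_mul_right a7 hr0.le
  have e9 : ((1 : ℝ) + 0.12) / 0.12 ≤ 9.334 := by norm_num
  calc V r M * exp (-(0.24 * r)) * ((1 + 0.12) / 0.12) ≤ V r M * exp (-(0.24 * r)) * 9.334 := by gcongr
    _ = V r M * (exp (-(0.24 * r)) * 9.334) := by ring
    _ < V r M * (0.0476 * (0.1772 * δ)) := by gcongr
    _ = 0.0476 * (V r M * (0.1772 * δ)) := by ring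
    _ ≤ (1 - exp (-0.05)) * (sin D' * (V r N * |cos D'| ^ (2 * N))) := by
        apply mul_le_mul h6 h5 (by positivity) (by linarith)

theorem sum_ge (f : ℕ → ℝ) {P M N K : ℕ} (h0 : 0 ≤ ∑ i ∈ Finset.range P, f i) (hPM : P ≤ M)
    (hpos : ∀ i, P ≤ i → i < M → 0 ≤ f i) (h1 : N < M) (h2 : P + K ≤ N + 1) :
    ∑ j ∈ Finset.range K, f (N - j) ≤ ∑ i ∈ Finset.range M, f i := by
  rw [← Finset.sum_range_add_sum_Ico f hPM]
  have h3 : ∑ j ∈ Finset.range K, f (N - j) = ∑ i ∈ (Finset.range K).image (fun j => N - j), f i := by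
    rw [Finset.sum_image]
    intro a ha b hb hab
    have ha' := Finset.mem_range.1 (Finset.mem_coe.1 ha)
    have hb' := Finset.mem_range.1 (Finset.mem_coe.1 hb)
    simp only at hab
    omega
  have h4 : ∑ i ∈ (Finset.range K).image (fun j => N - j), f i ≤ ∑ i ∈ Finset.Ico P M, f i := by
    apply Finset.sum_le_sum_of_subset_of_nonneg
    · intro i hi
      obtain ⟨j, hj, rfl⟩ := Finset.mem_image.1 hi
      have := Finset.mem_range.1 hj
      rw [Finset.mem_Ico]
      omega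
    · intro i hi _
      rw [Finset.mem_Ico] at hi
      exact hpos i hi.1 hi.2
  rw [h3]
  linarith

end SokalFU.N2
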