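import Pool.Agent.Lib_MP_af4de1_fu.Tub

/-!
# `N = 2`, `q = -e^(iδ)`: the real series of the tie

`S r δ η = ∑ (2 r cos (η + m δ))^(2m+1)/(2m+1)! = (|E(w)|² - |E(-w)|²)/2`, `w = r e^(iη)`, `E = F(·; e^(iδ))`.
`F(z; -e^(iδ)) = 0`, `w = i z`, implies `S = 0`; `∂S/∂η = -2 r J`.
-/

set_option autoImplicit false

namespace SokalFU.N2

open Filter Topology Set SokalF Real

/-- the terms of `S` -/
noncomputable def yy (r δ η : ℝ) (m : ℕ) : ℝ :=
  (2 * r * cos (η + m * δ)) ^ (2 * m + 1) / ((2 * m + 1).factorial : ℝ)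

/-- the weights of `J` -/
noncomputable def uu (r δ η : ℝ) (m : ℕ) : ℝ :=
  (2 * r * cos (η + m * δ)) ^ (2 * m) / ((2 * m).factorial : ℝ)

/-- the real series of the tie -/
noncomputable def S (r δ η : ℝ) : ℝ := ∑' m, yy r δ η m

/-- `-∂S/∂η / (2r)` -/
noncomputable def J (r δ η : ℝ) : ℝ := ∑' m : ℕ, sin (η + m * δ) * uu r δ η m

theorem abs_term_le {r : ℝ} (hr : 0 ≤ r) (x : ℝ) (n : ℕ) :
    |(2 * r * cos x) ^ n / (n.factorial : ℝ)| ≤ (2 * r) ^ n / (n.factorial : ℝ) := by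
  rw [abs_div, abs_pow, abs_of_nonneg (by positivity : (0 : ℝ) ≤ (n.factorial : ℝ))]
  gcongr
  rw [abs_mul, abs_of_nonneg (by positivity : (0 : ℝ) ≤ 2 * r)]
  exact mul_le_of_le_one_right (by positivity) (abs_cos_le_one x)

theorem summable_even (x : ℝ) : Summable fun m : ℕ => x ^ (2 * m) / ((2 * m).factorial : ℝ) :=
  (Real.summable_pow_div_factorial x).comp_injective (fun a b h => by simpa using h : Function.Injective fun m : ℕ => 2 * m)

theorem summable_odd (x : ℝ) : Summable fun m : ℕ => x ^ (2 * m + 1) / ((2 * m + 1).factorial : ℝ) :=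
  (Real.summable_pow_div_factorial x).comp_injective
    (fun a b h => by simpa using h : Function.Injective fun m : ℕ => 2 * m + 1)

theorem summable_yy {r : ℝ} (hr : 0 ≤ r) (δ η : ℝ) : Summable (yy r δ η) :=
  Summable.of_norm_bounded (summable_odd (2 * r)) (fun _ => abs_term_le hr _ _)

theorem uu_nonneg (r δ η : ℝ) (m : ℕ) : 0 ≤ uu r δ η m := by
  unfold uu
  rw [pow_mul]
  positivity

theorem summable_uu {r : ℝ} (hr : 0 ≤ r) (δ η : ℝ) : Summable (uu r δ η) :=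
  Summable.of_norm_bounded (summable_even (2 * r)) (fun _ => abs_term_le hr _ _)

theorem abs_sin_uu_le {r : ℝ} (hr : 0 ≤ r) (δ η : ℝ) (m : ℕ) :
    ‖sin (η + m * δ) * uu r δ η m‖ ≤ (2 * r) ^ (2 * m) / ((2 * m).factorial : ℝ) := by
  rw [norm_mul]
  calc ‖sin (η + m * δ)‖ * ‖uu r δ η m‖ ≤ 1 * ((2 * r) ^ (2 * m) / ((2 * m).factorial : ℝ)) := by
        gcongr
        · exact abs_sin_le_one _
        · exact abs_term_le hr _ _
    _ = _ := one_mul _

theorem summable_J {r : ℝ} (hr : 0 ≤ r) (δ η : ℝ) : Summable fun m : ℕ => sin (η + m * δ) * uu r δ η m :=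
  Summable.of_norm_bounded (summable_even (2 * r)) (abs_sin_uu_le hr δ η)

theorem S_add_pi (r δ η : ℝ) : S r δ (η + π) = -S r δ η := by
  unfold S
  rw [← tsum_neg]
  refine tsum_congr fun m => ?_
  unfold yy
  have h : cos (η + π + m * δ) = -cos (η + m * δ) := by
    rw [← cos_add_pi]; ring_nf
  rw [h, mul_neg, Odd.neg_pow ⟨m, rfl⟩, neg_div]

theorem J_add_pi (r δ η : ℝ) : J r δ (η + π) = -J r δ η := by
  unfold J
  rw [← tsum_neg]
  refine tsum_congr fun m => ?_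
  unfold uu
  have h : cos (η + π + m * δ) = -cos (η + m * δ) := by
    rw [← cos_add_pi]; ring_nf
  have h2 : sin (η + π + m * δ) = -sin (η + m * δ) := by
    rw [← sin_add_pi]; ring_nf
  rw [h, h2, mul_neg, Even.neg_pow ⟨m, by ring⟩]
  ring

theorem hasDerivAt_S {r : ℝ} (hr : 0 ≤ r) (δ η : ℝ) : HasDerivAt (S r δ) (-(2 * r) * J r δ η) η := by
  have h := hasDerivAt_tsum (𝕜 := ℝ) (F := ℝ) (g := fun (m : ℕ) (x : ℝ) => yy r δ x m)
    (g' := fun (m : ℕ) (x : ℝ) => -(2 * r) * (sin (x + m * δ) * uu r δ x m))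
    (u := fun m : ℕ => (2 * r) * ((2 * r) ^ (2 * m) / ((2 * m).factorial : ℝ))) (y₀ := η)
    ((summable_even (2 * r)).mul_left _)
    (by
      intro m x
      have h1 : HasDerivAt (fun x : ℝ => 2 * r * cos (x + m * δ)) (2 * r * (-sin (x + m * δ) * 1)) x :=
        (HasDerivAt.cos ((hasDerivAt_id x).add_const (m * δ))).const_mul _
      have h2 := (h1.fun_pow (2 * m + 1)).div_const ((2 * m + 1).factorial : ℝ)
      refine h2.congr_deriv ?_
      unfold uu
      rw [Nat.factorial_succ, Nat.add_sub_cancel]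
      have h3 : ((2 * m).factorial : ℝ) ≠ 0 := by positivity
      have h4 : (((2 * m : ℕ) : ℝ) + 1) ≠ 0 := by positivity
      push_cast at h4 ⊢
      field_simp)
    (by
      intro m x
      rw [norm_mul, norm_neg, Real.norm_of_nonneg (by positivity : (0 : ℝ) ≤ 2 * r)]
      exact mul_le_mul_of_nonneg_left (abs_sin_uu_le hr δ x m) (by positivity))
    (summable_yy hr δ η) η
  have h5 : (∑' m : ℕ, -(2 * r) * (sin (η + m * δ) * uu r δ η m)) = -(2 * r) * J r δ η := by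
    rw [tsum_mul_left]; rfl
  rw [h5] at h
  exact h

/-! ### At most one zero in a half circle -/

theorem unique_of {r δ c : ℝ} (hr : 0 < r) (h : ∀ η ∈ Ico c (c + π), S r δ η = 0 → 0 < J r δ η) {η₁ η₂ : ℝ}
    (h1 : η₁ ∈ Ico c (c + π)) (h2 : η₂ ∈ Ico c (c + π)) (hlt : η₁ < η₂) (e1 : S r δ η₁ = 0) (e2 : S r δ η₂ = 0) :
    False := by
  have hcont : Continuous (S r δ) := continuous_iff_continuousAt.2 fun x => (hasDerivAt_S hr.le δ x).continuousAt
  have hneg : ∀ η ∈ Ico c (c + π), S r δ η = 0 → -(2 * r) * J r δ η < 0 := fun η hη h0 => by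
    have := h η hη h0
    nlinarith [mul_pos hr this]
  -- a point to the left of `η₂` with positive value
  have hd2 := hasDerivAt_S hr.le δ η₂
  have hp : ∃ x₂ ∈ Ioo η₁ η₂, 0 < S r δ x₂ := by
    have h3 : ∀ᶠ x in 𝓝[<] η₂, slope (S r δ) η₂ x < 0 := by
      have := (hasDerivAt_iff_tendsto_slope.1 hd2).mono_left (nhdsWithin_mono η₂ (fun x (hx : x < η₂) => ne_of_lt hx))
      exact this.eventually_lt_const (hneg η₂ h2 e2)
    have h4 : ∀ᶠ x in 𝓝[<] η₂, x ∈ Ioo η₁ η₂ := Ioo_mem_nhdsLT hlt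
    obtain ⟨x, hx1, hx2⟩ := (h3.and h4).exists
    refine ⟨x, hx2, ?_⟩
    rw [slope_def_field, e2, sub_zero] at hx1
    have h5 : x - η₂ < 0 := by linarith [hx2.2]
    by_contra h6
    rw [not_lt] at h6
    have := div_nonneg_of_nonpos h6 h5.le
    linarith
  obtain ⟨x₂, hx2, hx2p⟩ := hp
  set T : Set ℝ := Icc η₁ x₂ ∩ {x | S r δ x ≤ 0} with hT
  have hTc : IsCompact T := isCompact_Icc.inter_right (isClosed_le hcont continuous_const)
  have hTn : T.Nonempty := ⟨η₁, ⟨le_rfl, hx2.1.le⟩, e1.le⟩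
  obtain ⟨x₃, hx3, hmax⟩ := hTc.exists_isGreatest hTn
  have hx3lt : x₃ < x₂ := lt_of_le_of_ne hx3.1.2 (fun e => by
    have := hx3.2
    rw [e] at this
    exact absurd this (not_le.2 hx2p))
  have hx3mem : x₃ ∈ Ico c (c + π) := ⟨h1.1.trans hx3.1.1, (hx3lt.trans hx2.2).trans h2.2⟩
  have hex : ∃ x ∈ Ioo x₃ x₂, S r δ x ≤ 0 := by
    have h4 : ∀ᶠ x in 𝓝[>] x₃, x ∈ Ioo x₃ x₂ := Ioo_mem_nhdsGT hx3lt
    rcases lt_or_eq_of_le (show S r δ x₃ ≤ 0 from hx3.2) with h5 | h5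
    · have h6 : ∀ᶠ x in 𝓝[>] x₃, S r δ x < 0 :=
        (hcont.continuousAt.eventually_lt continuousAt_const h5).filter_mono nhdsWithin_le_nhds
      obtain ⟨x, hx1, hx2⟩ := (h6.and h4).exists
      exact ⟨x, hx2, hx1.le⟩
    · have h3 : ∀ᶠ x in 𝓝[>] x₃, slope (S r δ) x₃ x < 0 := by
        have := (hasDerivAt_iff_tendsto_slope.1 (hasDerivAt_S hr.le δ x₃)).mono_left
          (nhdsWithin_mono x₃ (fun x (hx : x₃ < x) => ne_of_gt hx))
        exact this.eventually_lt_const (hneg x₃ hx3mem h5)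
      obtain ⟨x, hx1, hx2⟩ := (h3.and h4).exists
      refine ⟨x, hx2, ?_⟩
      rw [slope_def_field, h5, sub_zero] at hx1
      have h7 : 0 < x - x₃ := by linarith [hx2.1]
      by_contra h6
      rw [not_le] at h6
      have := div_nonneg h6.le h7.le
      linarith
  obtain ⟨x, hx, hxS⟩ := hex
  have := hmax ⟨⟨hx3.1.1.trans hx.1.le, hx.2.le⟩, hxS⟩
  linarith [hx.1]

end SokalFU.N2
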