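import Pool.Agent.Lib_MP_af4de1_fu.TubB

/-!
# Soundness of the tube test: regrouping and the main theorem

`isTube_of_spec : ClsOK K → ‖cpx q / D - e^(ia)‖ ≤ 2 / D → Spec K q c ν δ η' η →
  IsTube a δ (cpx c / D) (ν - i (n₀ - 1/2)) η' η`.
-/

set_option autoImplicit false

namespace SokalFU

open Filter Topology Set SokalF

open Finset (range)

/-! ### Regrouping -/

theorem regroup (M : ℕ) (f : ℕ → ℕ → ℝ) (B : ℕ → ℝ) :
    ∑ m ∈ range M, ∑ x ∈ Finset.HasAntidiagonal.antidiagonal m, f x.1 x.2 * B (x.1 + 2 * x.2) =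
      ∑ p ∈ range (2 * M - 1), (∑ b ∈ (range (p / 2 + 1)).filter (fun b => p - b < M),
        f (p - 2 * b) b) * B p := by
  simp_rw [Finset.sum_mul]
  rw [Finset.sum_sigma', Finset.sum_sigma']
  refine Finset.sum_nbij' (fun y => ⟨y.2.1 + 2 * y.2.2, y.2.2⟩)
    (fun z => ⟨z.1 - z.2, (z.1 - 2 * z.2, z.2)⟩) ?_ ?_ ?_ ?_ ?_
  · rintro ⟨m, a, b⟩ h
    simp only [Finset.mem_sigma, Finset.mem_range, Finset.HasAntidiagonal.mem_antidiagonal,
      Finset.mem_filter] at h ⊢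
    omega
  · rintro ⟨p, b⟩ h
    simp only [Finset.mem_sigma, Finset.mem_range, Finset.HasAntidiagonal.mem_antidiagonal,
      Finset.mem_filter] at h ⊢
    omega
  · rintro ⟨m, a, b⟩ h
    simp only [Finset.mem_sigma, Finset.mem_range, Finset.HasAntidiagonal.mem_antidiagonal] at h
    obtain ⟨h1, h2⟩ := h
    subst h2
    have e1 : a + 2 * b - b = a + b := by omega
    have e2 : a + 2 * b - 2 * b = a := by omega
    simp only [e1, e2]
  · rintro ⟨p, b⟩ h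
    simp only [Finset.mem_sigma, Finset.mem_range, Finset.mem_filter] at h
    have e1 : p - 2 * b + 2 * b = p := by omega
    simp only [e1]
  · rintro ⟨m, a, b⟩ h
    have e2 : a + 2 * b - 2 * b = a := by omega
    simp only [e2]

theorem regroup1 {M : ℕ} (hM : 3 ≤ M) (ρ d : ℝ) (B : ℕ → ℝ) :
    ∑ m ∈ Finset.Ico 1 M, ∑ x ∈ Finset.HasAntidiagonal.antidiagonal m,
      ρ ^ x.1 * d ^ x.2 / ((x.1.factorial : ℝ) * (x.2.factorial : ℝ)) * B (1 + x.1 + 2 * x.2) =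
      ∑ p ∈ Finset.Icc 1 (2 * M - 2), (∑ b ∈ (range (p / 2 + 1)).filter (fun b => p - b < M),
        ρ ^ (p - 2 * b) * d ^ b / (((p - 2 * b).factorial : ℝ) * (b.factorial : ℝ))) * B (p + 1) := by
  have h := regroup M (fun a b => ρ ^ a * d ^ b / ((a.factorial : ℝ) * (b.factorial : ℝ)))
    (fun p => B (p + 1))
  have h1 : range M = insert 0 (Finset.Ico 1 M) := by
    ext k
    simp only [Finset.mem_range, Finset.mem_insert, Finset.mem_Ico]
    omega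
  have h2 : range (2 * M - 1) = insert 0 (Finset.Icc 1 (2 * M - 2)) := by
    ext k
    simp only [Finset.mem_range, Finset.mem_insert, Finset.mem_Icc]
    omega
  rw [h1, h2, Finset.sum_insert (by simp), Finset.sum_insert (by simp)] at h
  have h3 : (range (0 / 2 + 1)).filter (fun b => 0 - b < M) = {0} := by
    ext k
    simp only [Finset.mem_filter, Finset.mem_range, Finset.mem_singleton]
    omega
  rw [h3] at h
  simp only [Finset.Nat.antidiagonal_zero, Finset.sum_singleton, mul_zero, add_zero, tsub_zero] at h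
  have h4 := add_left_cancel h
  refine Eq.trans ?_ h4
  refine Finset.sum_congr rfl fun m _ => Finset.sum_congr rfl fun x _ => ?_
  rw [show 1 + x.1 + 2 * x.2 = x.1 + 2 * x.2 + 1 by ring]

theorem regroup0 {M : ℕ} (hM : 3 ≤ M) (ρ d : ℝ) (B : ℕ → ℝ) :
    ∑ m ∈ Finset.Ico 2 M, ∑ x ∈ Finset.HasAntidiagonal.antidiagonal m,
      ρ ^ x.1 * d ^ x.2 / ((x.1.factorial : ℝ) * (x.2.factorial : ℝ)) * B (x.1 + 2 * x.2) =
      ρ ^ 2 / 2 * B 2 +
      ∑ p ∈ Finset.Icc 3 (2 * M - 2), (∑ b ∈ (range (p / 2 + 1)).filter (fun b => p - b < M),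
        ρ ^ (p - 2 * b) * d ^ b / (((p - 2 * b).factorial : ℝ) * (b.factorial : ℝ))) * B p := by
  have h := regroup M (fun a b => ρ ^ a * d ^ b / ((a.factorial : ℝ) * (b.factorial : ℝ))) B
  have h1 : range M = insert 0 (insert 1 (Finset.Ico 2 M)) := by
    ext k
    simp only [Finset.mem_range, Finset.mem_insert, Finset.mem_Ico]
    omega
  have h2 : range (2 * M - 1) = insert 0 (insert 1 (insert 2 (Finset.Icc 3 (2 * M - 2)))) := by
    ext k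
    simp only [Finset.mem_range, Finset.mem_insert, Finset.mem_Icc]
    omega
  rw [h1, h2, Finset.sum_insert (by simp), Finset.sum_insert (by simp), Finset.sum_insert (by simp),
    Finset.sum_insert (by simp), Finset.sum_insert (by simp)] at h
  have h3 : (range (0 / 2 + 1)).filter (fun b => 0 - b < M) = {0} := by
    ext k
    simp only [Finset.mem_filter, Finset.mem_range, Finset.mem_singleton]
    omega
  have h5 : (range (1 / 2 + 1)).filter (fun b => 1 - b < M) = {0} := by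
    ext k
    simp only [Finset.mem_filter, Finset.mem_range, Finset.mem_singleton]
    omega
  have h6 : (range (2 / 2 + 1)).filter (fun b => 2 - b < M) = {0, 1} := by
    ext k
    simp only [Finset.mem_filter, Finset.mem_range, Finset.mem_insert, Finset.mem_singleton]
    omega
  rw [h3, h5, h6, Finset.sum_pair (by norm_num)] at h
  have h10 : ∑ x ∈ Finset.HasAntidiagonal.antidiagonal 1,
      ρ ^ x.1 * d ^ x.2 / ((x.1.factorial : ℝ) * (x.2.factorial : ℝ)) * B (x.1 + 2 * x.2) =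
      ρ * B 1 + d * B 2 := by
    rw [Finset.Nat.antidiagonal_succ]
    simp
    ring
  rw [h10] at h
  simp only [Finset.Nat.antidiagonal_zero, Finset.sum_singleton, mul_zero, add_zero, tsub_zero,
    mul_one, Nat.sub_self, pow_zero, pow_one, Nat.factorial_zero, Nat.factorial_one, Nat.cast_one,
    div_one, one_mul, Nat.factorial_two, Nat.cast_ofNat] at h
  linarith

theorem Wt_mono {M p : ℕ} {ρ δ δ' : ℝ} (hρ : 0 ≤ ρ) (hδ : 0 ≤ δ) (h : δ ≤ δ') :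
    ∑ b ∈ (range (p / 2 + 1)).filter (fun b => p - b < M),
        ρ ^ (p - 2 * b) * (δ / 2) ^ b / (((p - 2 * b).factorial : ℝ) * (b.factorial : ℝ)) ≤
      Wt M p ρ δ' := by
  unfold Wt
  refine Finset.sum_le_sum fun b _ => ?_
  gcongr

/-! ### The class conditions -/

/-- The conditions on a class. -/
structure ClsOK (K : Cls) : Prop where
  M3 : 3 ≤ K.M
  scale : 8 * (K.N : ℝ) * ((K.R : ℝ) + 1) ≤ 2 ^ K.S
  del0 : 0 ≤ K.del
  rho : 0 ≤ K.rho0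
  rle : K.rho0 ≤ K.rho2
  rat : RatOK K.R K.n0 K.N (2 * K.M + 1) K.rho2
  hw2 : ∀ p ∈ Finset.Icc 1 (2 * K.M - 2), Wt K.M p K.rho2 K.del ≤ K.w2 p
  hw0 : ∀ p ∈ Finset.Icc 3 (2 * K.M - 2), Wt K.M p K.rho0 K.del ≤ K.w0 p
  he1 : ∑ p ∈ Finset.Icc 1 (2 * K.M - 2), K.w2 p * errM (2 ^ K.S) K.R K.n0 K.N (p + 1) +
    2 ^ K.S * remB K.R K.n0 K.N 1 K.M K.rho2 K.del + errM (2 ^ K.S) K.R K.n0 K.N 1 ≤ K.e1
  he0 : errM (2 ^ K.S) K.R K.n0 K.N 0 + (K.rho0 + K.rho2) * errM (2 ^ K.S) K.R K.n0 K.N 1 +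
    (K.del / 2 + K.rho0 ^ 2 / 2) * errM (2 ^ K.S) K.R K.n0 K.N 2 +
    ∑ p ∈ Finset.Icc 3 (2 * K.M - 2), K.w0 p * errM (2 ^ K.S) K.R K.n0 K.N p +
    2 ^ K.S * remB K.R K.n0 K.N 0 K.M K.rho0 K.del ≤ K.e0

/-- **Soundness of the tube test (analysis part).** -/
theorem isTube_of_spec {K : Cls} (hK : ClsOK K) {q c : ℤ × ℤ} {a : ℝ} {ν : ℂ} {δ η' η : ℝ}
    (hq : ‖cpx q / (K.D : ℂ) - qa a‖ ≤ 2 / (K.D : ℝ)) (hS : Spec K q c ν δ η' η) :
    IsTube a δ (cpx c / (K.D : ℂ)) (ν - Complex.I * ((K.n0 : ℂ) - 1 / 2)) η' η := by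
  have hD : (0 : ℤ) < K.D := by unfold Cls.D; positivity
  have hD' : (0 : ℝ) < K.D := by exact_mod_cast hD
  have hDc : (K.D : ℂ) ≠ 0 := by exact_mod_cast hD.ne'
  have hDe : (K.D : ℝ) = 2 ^ K.S := by unfold Cls.D; push_cast; rfl
  have hR : (0 : ℝ) ≤ K.R := Nat.cast_nonneg _
  have hM := hK.M3
  have hr2 : 0 ≤ K.rho2 := hK.rho.trans hK.rle
  have hsc : 8 * (K.N : ℝ) * ((K.R : ℝ) + 1) ≤ K.D := by rw [hDe]; exact hK.scale
  set c' := cpx c / (K.D : ℂ) with hc'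
  have hcR : ‖c'‖ ≤ K.R := by
    rw [hc', norm_div, Complex.norm_intCast, abs_of_pos hD', div_le_iff₀ hD']
    exact hS.cle
  set err := errM (2 ^ K.S) K.R K.n0 K.N with herr
  have hmom : ∀ p, p ≤ 2 * K.M + 1 →
      ‖Mom K.D c q K.n0 K.N p - (K.D : ℂ) * Mo a c' K.n0 p‖ ≤ err p := by
    intro p hp
    have := Mom_err hD hR hq hS.cle hsc hr2 hK.rat hp
    rw [hDe] at this
    exact this
  -- upper bounds of the exact moments
  have hup : ∀ p, p ≤ 2 * K.M + 1 →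
      (K.D : ℝ) * ‖Mo a c' K.n0 p‖ ≤ ‖Mom K.D c q K.n0 K.N p‖ + err p := by
    intro p hp
    have h1 := hmom p hp
    have h2 : (K.D : ℝ) * ‖Mo a c' K.n0 p‖ = ‖(K.D : ℂ) * Mo a c' K.n0 p‖ := by
      rw [norm_mul, Complex.norm_intCast, abs_of_pos hD']
    rw [h2]
    have h3 : (K.D : ℂ) * Mo a c' K.n0 p = Mom K.D c q K.n0 K.N p -
      (Mom K.D c q K.n0 K.N p - (K.D : ℂ) * Mo a c' K.n0 p) := by ring
    rw [h3]
    exact (norm_sub_le _ _).trans (by linarith)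
  have hlow : ‖Mom K.D c q K.n0 K.N 1‖ - err 1 ≤ (K.D : ℝ) * ‖Mo a c' K.n0 1‖ := by
    have h1 := hmom 1 (by omega)
    have h2 : (K.D : ℝ) * ‖Mo a c' K.n0 1‖ = ‖(K.D : ℂ) * Mo a c' K.n0 1‖ := by
      rw [norm_mul, Complex.norm_intCast, abs_of_pos hD']
    rw [h2]
    have h3 : Mom K.D c q K.n0 K.N 1 = (Mom K.D c q K.n0 K.N 1 - (K.D : ℂ) * Mo a c' K.n0 1) +
      (K.D : ℂ) * Mo a c' K.n0 1 := by ring
    have h4 : ‖Mom K.D c q K.n0 K.N 1‖ ≤ ‖Mom K.D c q K.n0 K.N 1 - (K.D : ℂ) * Mo a c' K.n0 1‖ +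
      ‖(K.D : ℂ) * Mo a c' K.n0 1‖ := by
      nth_rewrite 1 [h3]
      exact norm_add_le _ _
    linarith
  have herr0 : ∀ p, 0 ≤ err p := by
    intro p
    rw [herr]
    unfold errM
    have : ∀ n ∈ range K.N, 0 ≤ Er K.R n * |jj K.n0 n| ^ p := fun n _ =>
      mul_nonneg (Er_nonneg hR n) (by positivity)
    have := Finset.sum_nonneg this
    positivity
  -- the two weight functions for the actual `δ`
  have hδ := hS.δpos.le
  set w2 : ℕ → ℝ := fun p => ∑ b ∈ (range (p / 2 + 1)).filter (fun b => p - b < K.M),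
        K.rho2 ^ (p - 2 * b) * (δ / 2) ^ b / (((p - 2 * b).factorial : ℝ) * (b.factorial : ℝ)) with hw2
  set w0 : ℕ → ℝ := fun p => ∑ b ∈ (range (p / 2 + 1)).filter (fun b => p - b < K.M),
        K.rho0 ^ (p - 2 * b) * (δ / 2) ^ b / (((p - 2 * b).factorial : ℝ) * (b.factorial : ℝ)) with hw0
  have hw20 : ∀ p, 0 ≤ w2 p := fun p => Finset.sum_nonneg fun b _ => by positivity
  have hw00 : ∀ p, 0 ≤ w0 p := fun p => Finset.sum_nonneg fun b _ => by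
    have := hK.rho
    positivity
  have hwle2 : ∀ p ∈ Finset.Icc 1 (2 * K.M - 2), w2 p ≤ K.w2 p := fun p hp =>
    (Wt_mono hr2 hδ hS.δle).trans (hK.hw2 p hp)
  have hwle0 : ∀ p ∈ Finset.Icc 3 (2 * K.M - 2), w0 p ≤ K.w0 p := fun p hp =>
    (Wt_mono hK.rho hδ hS.δle).trans (hK.hw0 p hp)
  have s1 : (K.D : ℝ) * ∑ p ∈ Finset.Icc 1 (2 * K.M - 2), w2 p * ‖Mo a c' K.n0 (p + 1)‖ ≤
      ∑ p ∈ Finset.Icc 1 (2 * K.M - 2), K.w2 p * ‖Mom K.D c q K.n0 K.N (p + 1)‖ +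
      ∑ p ∈ Finset.Icc 1 (2 * K.M - 2), K.w2 p * err (p + 1) := by
    rw [Finset.mul_sum, ← Finset.sum_add_distrib]
    refine Finset.sum_le_sum fun p hp => ?_
    have h1 := hup (p + 1) (by have := Finset.mem_Icc.1 hp; omega)
    calc (K.D : ℝ) * (w2 p * ‖Mo a c' K.n0 (p + 1)‖) = w2 p * ((K.D : ℝ) * ‖Mo a c' K.n0 (p + 1)‖) := by
          ring
      _ ≤ K.w2 p * (‖Mom K.D c q K.n0 K.N (p + 1)‖ + err (p + 1)) := by
          have := hwle2 p hp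
          have h3 := hw20 p
          have h4 : 0 ≤ K.w2 p := h3.trans this
          gcongr
      _ = _ := by ring
  have s0 : (K.D : ℝ) * ∑ p ∈ Finset.Icc 3 (2 * K.M - 2), w0 p * ‖Mo a c' K.n0 p‖ ≤
      ∑ p ∈ Finset.Icc 3 (2 * K.M - 2), K.w0 p * ‖Mom K.D c q K.n0 K.N p‖ +
      ∑ p ∈ Finset.Icc 3 (2 * K.M - 2), K.w0 p * err p := by
    rw [Finset.mul_sum, ← Finset.sum_add_distrib]
    refine Finset.sum_le_sum fun p hp => ?_
    have h1 := hup p (by have := Finset.mem_Icc.1 hp; omega)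
    calc (K.D : ℝ) * (w0 p * ‖Mo a c' K.n0 p‖) = w0 p * ((K.D : ℝ) * ‖Mo a c' K.n0 p‖) := by
          ring
      _ ≤ K.w0 p * (‖Mom K.D c q K.n0 K.N p‖ + err p) := by
          have := hwle0 p hp
          have h3 := hw00 p
          have h4 : 0 ≤ K.w0 p := h3.trans this
          gcongr
      _ = _ := by ring
  have hr0 : RemS ‖c'‖ K.n0 0 K.M K.rho0 δ ≤ remB K.R K.n0 K.N 0 K.M K.rho0 K.del :=
    RemS_le (norm_nonneg _) hcR hK.rho le_rfl hδ hS.δle (hK.rat.mono hR hK.rle) (by omega)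
  have hr1 : RemS ‖c'‖ K.n0 1 K.M K.rho2 δ ≤ remB K.R K.n0 K.N 1 K.M K.rho2 K.del :=
    RemS_le (norm_nonneg _) hcR hr2 le_rfl hδ hS.δle hK.rat (by omega)
  have hth1 : K.th * err 1 ≤ err 1 := by
    have := herr0 1
    have := hS.thlt
    nlinarith
  have hb1 : 0 < ‖Mo a c' K.n0 1‖ := by
    -- from t1
    have h1 := hS.t1
    have h2 := hK.he1
    have h3 : 0 ≤ ∑ p ∈ Finset.Icc 1 (2 * K.M - 2), K.w2 p * ‖Mom K.D c q K.n0 K.N (p + 1)‖ :=
      Finset.sum_nonneg fun p hp => mul_nonneg ((hw20 p).trans (hwle2 p hp)) (norm_nonneg _)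
    have h4 : 0 ≤ ∑ p ∈ Finset.Icc 1 (2 * K.M - 2), K.w2 p * err (p + 1) :=
      Finset.sum_nonneg fun p hp => mul_nonneg ((hw20 p).trans (hwle2 p hp)) (herr0 _)
    have h5 : 0 ≤ remB K.R K.n0 K.N 1 K.M K.rho2 K.del := by
      unfold remB
      have := Finset.sum_nonneg (s := range K.N) fun n _ => gt_nonneg hR K.n0 1 K.M hr2
        (show 0 ≤ K.del / 2 by have := hK.del0; linarith) n
      have := gt_nonneg hR K.n0 1 K.M hr2 (show 0 ≤ K.del / 2 by have := hK.del0; linarith) K.N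
      linarith
    have h6 : 0 ≤ (2 : ℝ) ^ K.S * remB K.R K.n0 K.N 1 K.M K.rho2 K.del := by positivity
    have h7 : K.th * ‖Mom K.D c q K.n0 K.N 1‖ < ‖Mom K.D c q K.n0 K.N 1‖ := by
      have := hS.mpos
      have := hS.thlt
      nlinarith
    have h8 : 0 < (K.D : ℝ) * ‖Mo a c' K.n0 1‖ := by
      refine lt_of_lt_of_le ?_ hlow
      rw [← herr] at h2
      linarith
    exact pos_of_mul_pos_right h8 hD'.le
  refine isTube_of_moments (B := fun p => ‖Mo a c' K.n0 p‖) (b1 := ‖Mo a c' K.n0 1‖)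
    (L := ‖Mo a c' K.n0 1 * ν + Complex.I / 2 * Mo a c' K.n0 2‖) (ρ0 := K.rho0) (ρ2 := K.rho2)
    (T0 := RemS ‖c'‖ K.n0 0 K.M K.rho0 δ) (T1 := RemS ‖c'‖ K.n0 1 K.M K.rho2 δ) (th := K.th) (M := K.M)
    ?_ hδ hS.thlt hS.η'pos.le hS.ηlt (by omega) (fun p => le_rfl) hb1 le_rfl le_rfl hS.rho0 hS.rho2
    le_rfl le_rfl ?_ ?_
  · rw [hc']
    exact div_ne_zero hS.cne hDc
  · have hrg := regroup1 hM K.rho2 (δ / 2) (fun p => ‖Mo a c' K.n0 p‖)
    beta_reduce at hrg ⊢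
    rw [hrg]
    have h1 := hS.t1
    have h2 := hK.he1
    rw [← herr] at h2
    have h3 : (K.D : ℝ) * (∑ p ∈ Finset.Icc 1 (2 * K.M - 2), w2 p * ‖Mo a c' K.n0 (p + 1)‖ +
        RemS ‖c'‖ K.n0 1 K.M K.rho2 δ) ≤ (K.D : ℝ) * (K.th * ‖Mo a c' K.n0 1‖) := by
      have h4 : (K.D : ℝ) * RemS ‖c'‖ K.n0 1 K.M K.rho2 δ ≤
          2 ^ K.S * remB K.R K.n0 K.N 1 K.M K.rho2 K.del := by
        rw [hDe]
        gcongr
      have h5 : K.th * (‖Mom K.D c q K.n0 K.N 1‖ - err 1) ≤ K.th * ((K.D : ℝ) * ‖Mo a c' K.n0 1‖) :=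
        mul_le_mul_of_nonneg_left hlow hS.thpos.le
      rw [mul_add]
      nlinarith
    exact le_of_mul_le_mul_left h3 hD'
  · have hrg := regroup0 hM K.rho0 (δ / 2) (fun p => ‖Mo a c' K.n0 p‖)
    beta_reduce at hrg ⊢
    rw [hrg]
    have h1 := hS.t2
    have h2 := hK.he0
    rw [← herr] at h2
    have hL : (K.D : ℝ) * ‖Mo a c' K.n0 1 * ν + Complex.I / 2 * Mo a c' K.n0 2‖ ≤
        ‖Mom K.D c q K.n0 K.N 1 * ν + Complex.I * Mom K.D c q K.n0 K.N 2 / 2‖ +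
          (‖ν‖ * err 1 + err 2 / 2) := by
      have e1 : (K.D : ℝ) * ‖Mo a c' K.n0 1 * ν + Complex.I / 2 * Mo a c' K.n0 2‖ =
          ‖(K.D : ℂ) * (Mo a c' K.n0 1 * ν + Complex.I / 2 * Mo a c' K.n0 2)‖ := by
        rw [norm_mul, Complex.norm_intCast, abs_of_pos hD']
      have e2 : (K.D : ℂ) * (Mo a c' K.n0 1 * ν + Complex.I / 2 * Mo a c' K.n0 2) =
          (Mom K.D c q K.n0 K.N 1 * ν + Complex.I * Mom K.D c q K.n0 K.N 2 / 2) -
          ((Mom K.D c q K.n0 K.N 1 - (K.D : ℂ) * Mo a c' K.n0 1) * ν +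
            (Mom K.D c q K.n0 K.N 2 - (K.D : ℂ) * Mo a c' K.n0 2) * (Complex.I / 2)) := by ring
      rw [e1, e2]
      refine (norm_sub_le _ _).trans ?_
      have e3 := norm_add_le ((Mom K.D c q K.n0 K.N 1 - (K.D : ℂ) * Mo a c' K.n0 1) * ν)
        ((Mom K.D c q K.n0 K.N 2 - (K.D : ℂ) * Mo a c' K.n0 2) * (Complex.I / 2))
      have e4 : ‖(Mom K.D c q K.n0 K.N 1 - (K.D : ℂ) * Mo a c' K.n0 1) * ν‖ ≤ ‖ν‖ * err 1 := by
        rw [norm_mul, mul_comm]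
        exact mul_le_mul_of_nonneg_left (hmom 1 (by omega)) (norm_nonneg _)
      have e5 : ‖(Mom K.D c q K.n0 K.N 2 - (K.D : ℂ) * Mo a c' K.n0 2) * (Complex.I / 2)‖ ≤ err 2 / 2 := by
        rw [norm_mul, norm_div, Complex.norm_I, Complex.norm_ofNat]
        have := hmom 2 (by omega)
        linarith
      linarith
    have h3 : (K.D : ℝ) * (‖Mo a c' K.n0 0‖ +
        δ * ‖Mo a c' K.n0 1 * ν + Complex.I / 2 * Mo a c' K.n0 2‖ +
        (K.rho0 ^ 2 / 2 * ‖Mo a c' K.n0 2‖ +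
          ∑ p ∈ Finset.Icc 3 (2 * K.M - 2), w0 p * ‖Mo a c' K.n0 p‖) +
        RemS ‖c'‖ K.n0 0 K.M K.rho0 δ) ≤ (K.D : ℝ) * ((1 - K.th) * η' * ‖Mo a c' K.n0 1‖) := by
      have h4 : (K.D : ℝ) * RemS ‖c'‖ K.n0 0 K.M K.rho0 δ ≤
          2 ^ K.S * remB K.R K.n0 K.N 0 K.M K.rho0 K.del := by
        rw [hDe]
        gcongr
      have hη : η' ≤ K.rho2 := by
        have g1 := hS.rho2
        have g2 := hS.ηlt
        have g3 : 0 ≤ ‖ν‖ * δ := by positivity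
        linarith
      have hη0 := hS.η'pos
      have h5 : (1 - K.th) * η' * (‖Mom K.D c q K.n0 K.N 1‖ - err 1) ≤
          (1 - K.th) * η' * ((K.D : ℝ) * ‖Mo a c' K.n0 1‖) := by
        have : 0 ≤ 1 - K.th := by have := hS.thlt; linarith
        exact mul_le_mul_of_nonneg_left hlow (by positivity)
      have h6 : (1 - K.th) * η' * err 1 ≤ K.rho2 * err 1 := by
        have g1 : (1 - K.th) * η' ≤ K.rho2 := by
          have := hS.thpos
          nlinarith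
        exact mul_le_mul_of_nonneg_right g1 (herr0 1)
      have h7 : δ * ((K.D : ℝ) * ‖Mo a c' K.n0 1 * ν + Complex.I / 2 * Mo a c' K.n0 2‖) ≤
          δ * ‖Mom K.D c q K.n0 K.N 1 * ν + Complex.I * Mom K.D c q K.n0 K.N 2 / 2‖ +
          (K.rho0 * err 1 + K.del / 2 * err 2) := by
        have g1 : ‖ν‖ * δ * err 1 ≤ K.rho0 * err 1 :=
          mul_le_mul_of_nonneg_right hS.rho0 (herr0 1)
        have g2 : δ * err 2 ≤ K.del * err 2 := mul_le_mul_of_nonneg_right hS.δle (herr0 2)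
        have g3 := mul_le_mul_of_nonneg_left hL hδ
        nlinarith
      have h8 := hup 0 (by omega)
      have h9 : K.rho0 ^ 2 / 2 * ((K.D : ℝ) * ‖Mo a c' K.n0 2‖) ≤
          K.rho0 ^ 2 / 2 * (‖Mom K.D c q K.n0 K.N 2‖ + err 2) :=
        mul_le_mul_of_nonneg_left (hup 2 (by omega)) (by positivity)
      calc (K.D : ℝ) * (‖Mo a c' K.n0 0‖ +
        δ * ‖Mo a c' K.n0 1 * ν + Complex.I / 2 * Mo a c' K.n0 2‖ +
        (K.rho0 ^ 2 / 2 * ‖Mo a c' K.n0 2‖ +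
          ∑ p ∈ Finset.Icc 3 (2 * K.M - 2), w0 p * ‖Mo a c' K.n0 p‖) +
        RemS ‖c'‖ K.n0 0 K.M K.rho0 δ) = (K.D : ℝ) * ‖Mo a c' K.n0 0‖ +
          δ * ((K.D : ℝ) * ‖Mo a c' K.n0 1 * ν + Complex.I / 2 * Mo a c' K.n0 2‖) +
          (K.rho0 ^ 2 / 2 * ((K.D : ℝ) * ‖Mo a c' K.n0 2‖) +
          (K.D : ℝ) * ∑ p ∈ Finset.Icc 3 (2 * K.M - 2), w0 p * ‖Mo a c' K.n0 p‖) +
          (K.D : ℝ) * RemS ‖c'‖ K.n0 0 K.M K.rho0 δ := by ring
        _ ≤ (1 - K.th) * η' * ‖Mom K.D c q K.n0 K.N 1‖ - K.rho2 * err 1 := by nlinarith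
        _ ≤ (1 - K.th) * η' * ((K.D : ℝ) * ‖Mo a c' K.n0 1‖) := by linarith
        _ = _ := by ring
    exact le_of_mul_le_mul_left h3 hD'

end SokalFU
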