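import Pool.Agent.Lib_MP_af4de1_fu.EvK
import Pool.Agent.Lib_MP_af4de1_fu.TubB2
import Pool.Agent.Lib_MP_af4de1_fu.Data

/-!
# The test of a packed piece
-/

set_option autoImplicit false

namespace SokalFU

/-- the tube test of a packed piece -/
def pcCheck (K : ClsI) (x : ℕ) : Bool :=
  tubeCheck K (fld x 0) (fld x 1) (fld x 6) (fld x 7) (sfld x 2) (sfld x 3) (sfld x 4) (sfld x 5)

theorem rv_ofNat (n : ℕ) : rv (Int.ofNat n) = (n : ℝ) / 2 ^ 40 := by
  unfold rv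
  rw [Int.ofNat_eq_natCast, Int.cast_natCast]

/-- **Soundness of the tube test.** -/
theorem pc_T {K : ClsI} {x : ℕ} (hE : okE K = true) (hC : ClsOK K.toCls) (h : pcCheck K x = true) :
    (Pc.dec x).T := by
  obtain ⟨hS, ha⟩ := spec_of_check hE h
  have hO := okE_spec hE
  have hq := Qsp_err K.S (fld x 0) hO.S160 ha
  have h1 := isTube_of_spec hC (q := Qsp K.S (fld x 0)) (a := (fld x 0 : ℝ) / 2 ^ 40) hq hS
  obtain ⟨s, hs⟩ : ∃ s, K.S = s + 40 := ⟨K.S - 40, by have := hO.S40; omega⟩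
  have hs' : K.S - 40 = s := by omega
  have e1 : cpx (sfld x 2 * 2 ^ (K.S - 40), sfld x 3 * 2 ^ (K.S - 40)) / (K.toCls.D : ℂ) = cv (sfld x 2) (sfld x 3) := by
    rw [cv_eq]
    have eD : K.toCls.D = 2 ^ K.S := rfl
    have hp : (2 : ℂ) ^ s ≠ 0 := pow_ne_zero _ two_ne_zero
    rw [eD, hs', hs]
    unfold cpx
    push_cast
    rw [pow_add]
    field_simp
  have e2 : nuI K.n0 (sfld x 4) (sfld x 5) - Complex.I * ((K.toCls.n0 : ℂ) - 1 / 2) = cv (sfld x 4) (sfld x 5) := by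
    rw [cv_eq]
    have en : K.toCls.n0 = K.n0 := rfl
    rw [en]
    unfold nuI cpx
    push_cast
    ring
  rw [e1, e2] at h1
  unfold Pc.T Pc.dec Pc.c Pc.lam
  simp only [rv_ofNat]
  exact h1

end SokalFU
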