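import Mathlib

/-!
# Primitives along segments and rays (shared part of F2: F = L + R)

`k` continuous with primitive `P`.  `seg_int`: integral over a straight piece; `seg_le`: bound of the difference;
`ray_tendsto`: convergence along a ray; `ray_common`: two rays with the same limit.
-/

namespace SokalFW

open Complex MeasureTheory Filter Topology Set

theorem seg_int {k P : ℂ → ℂ} (hk : Continuous k) (hP : ∀ z, HasDerivAt P (k z) z)
    (a b : ℂ) (u v : ℝ) :
    b * ∫ t in u..v, k (a + t * b) = P (a + v * b) - P (a + u * b) := by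
  have hd : ∀ s ∈ Set.uIcc u v,
      HasDerivAt (fun s : ℝ => P (a + s * b)) (b * k (a + s * b)) s := by
    intro s _
    have h1 : HasDerivAt (fun z : ℂ => a + z * b) b (s : ℂ) := by
      simpa using ((hasDerivAt_id (s : ℂ)).mul_const b).const_add a
    have h2 := ((hP (a + s * b)).comp (s : ℂ) h1).comp_ofReal
    rwa [mul_comm] at h2
  have hc : Continuous fun s : ℝ => b * k (a + s * b) := by fun_prop
  rw [← intervalIntegral.integral_const_mul]
  exact intervalIntegral.integral_eq_sub_of_hasDerivAt hd (hc.intervalIntegrable _ _)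

theorem seg_le {k P : ℂ → ℂ} (hP : ∀ z, HasDerivAt P (k z) z) {S : Set ℂ} (hS : Convex ℝ S)
    {a b : ℂ} (ha : a ∈ S) (hb : b ∈ S) {B : ℝ} (h : ∀ z ∈ S, ‖k z‖ ≤ B) :
    ‖P b - P a‖ ≤ B * ‖b - a‖ :=
  hS.norm_image_sub_le_of_norm_hasDerivWithin_le (fun x _ => (hP x).hasDerivWithinAt) h ha hb

theorem ray_tendsto {k P : ℂ → ℂ} (hk : Continuous k) (hP : ∀ z, HasDerivAt P (k z) z) {a b : ℂ}
    (hi : IntegrableOn (fun t : ℝ => k (a + t * b)) (Ioi 0)) :
    Tendsto (fun T : ℝ => P (a + T * b)) atTop
      (𝓝 (P a + b * ∫ t in Ioi (0 : ℝ), k (a + t * b))) := by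
  have h1 := intervalIntegral_tendsto_integral_Ioi 0 hi tendsto_id
  have h2 := (h1.const_mul b).const_add (P a)
  refine h2.congr fun T => ?_
  have h3 := seg_int hk hP a b 0 T
  simp only [id] at *
  rw [h3]
  simp

end SokalFW
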