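import Pool.Agent.Lib_MP_af4de1_fu.Cont4

/-!
# Chains of tubes

A list of tubes, going from the right to the left, touching exactly, with equal zeros at the common points, gives one
branch of zeros.
-/

set_option autoImplicit false

namespace SokalFU

open Filter Topology Set SokalF

/-! ### Junctions, elementary form -/

/-- junction of two tubes: `|c₁ e^(lam₁ (α - a₁)) - c e^(lam (α - a))| ≤ x |c e^(lam (α - a))|` -/
theorem IsTube.link_of_norm {a δ : ℝ} {c lam : ℂ} {η' η : ℝ} (T : IsTube a δ c lam η' η) {a₁ δ₁ : ℝ} {c₁ lam₁ : ℂ}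
    {η₁' η₁ : ℝ} (T₁ : IsTube a₁ δ₁ c₁ lam₁ η₁' η₁) {α : ℝ} (hα : |α - a| ≤ δ) (hα₁ : |α - a₁| ≤ δ₁) {x : ℝ}
    (hx : x ≤ 1 / 2)
    (hc : ‖c₁ * Complex.exp (lam₁ * ((α - a₁ : ℝ) : ℂ) - lam * ((α - a : ℝ) : ℂ)) - c‖ ≤ x * ‖c‖)
    (hle : 3 / 2 * x + η₁' ≤ η) :
    zf a₁ c₁ lam₁ η₁' α = zf a c lam η' α := by
  set e : ℂ := lam₁ * ((α - a₁ : ℝ) : ℂ) - lam * ((α - a : ℝ) : ℂ) with he
  have hc0 : c ≠ 0 := T.c_ne
  have hcn : 0 < ‖c‖ := norm_pos_iff.2 hc0
  set y : ℂ := c₁ * Complex.exp e / c - 1 with hy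
  have hyn : ‖y‖ ≤ x := by
    have e1 : y = (c₁ * Complex.exp e - c) / c := by
      rw [hy]; field_simp
    rw [e1, norm_div, div_le_iff₀ hcn]
    exact hc
  have h1y : 1 + y = c₁ * Complex.exp e / c := by rw [hy]; ring
  have hne : (1 : ℂ) + y ≠ 0 := by
    rw [h1y]
    exact div_ne_zero (mul_ne_zero T₁.c_ne (Complex.exp_ne_zero _)) hc0
  have hlog : ‖Complex.log (1 + y)‖ ≤ 3 / 2 * x :=
    (Complex.norm_log_one_add_half_le_self (hyn.trans hx)).trans (by gcongr)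
  refine T.link T₁ hα hα₁ (Complex.log (1 + y) - e) ?_ ?_
  · rw [Complex.exp_sub, Complex.exp_log hne, h1y]
    have := Complex.exp_ne_zero e
    field_simp
  · have e2 : Complex.log (1 + y) - e + lam₁ * ((α - a₁ : ℝ) : ℂ) - lam * ((α - a : ℝ) : ℂ) = Complex.log (1 + y) := by
      rw [he]; ring
    rw [e2]
    linarith

/-- junction of two tubes with an approximation `E` of the exponential -/
theorem IsTube.link_of_approx {a δ : ℝ} {c lam : ℂ} {η' η : ℝ} (T : IsTube a δ c lam η' η) {a₁ δ₁ : ℝ} {c₁ lam₁ : ℂ}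
    {η₁' η₁ : ℝ} (T₁ : IsTube a₁ δ₁ c₁ lam₁ η₁' η₁) {α : ℝ} (hα : |α - a| ≤ δ) (hα₁ : |α - a₁| ≤ δ₁) {E : ℂ}
    {τ ε x : ℝ} (hE : ‖E - Complex.exp (lam₁ * ((α - a₁ : ℝ) : ℂ) - lam * ((α - a : ℝ) : ℂ))‖ ≤ τ)
    (hc : ‖c₁ * E - c‖ ≤ ε * ‖c‖) (hx : x ≤ 1 / 2) (hxx : ε * ‖c‖ + τ * ‖c₁‖ ≤ x * ‖c‖)
    (hle : 3 / 2 * x + η₁' ≤ η) :
    zf a₁ c₁ lam₁ η₁' α = zf a c lam η' α := by
  refine T.link_of_norm T₁ hα hα₁ hx ?_ hle
  set G := Complex.exp (lam₁ * ((α - a₁ : ℝ) : ℂ) - lam * ((α - a : ℝ) : ℂ)) with hG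
  have e1 : c₁ * G - c = (c₁ * E - c) - c₁ * (E - G) := by ring
  rw [e1]
  refine (norm_sub_le _ _).trans ?_
  rw [norm_mul]
  have h2 : ‖c₁‖ * ‖E - G‖ ≤ ‖c₁‖ * τ := by gcongr
  linarith

/-! ### Lists of pieces -/

/-- the data of a tube -/
structure Piece where
  /-- centre -/
  a : ℝ
  /-- half width -/
  δ : ℝ
  /-- centre of the zero at `a` -/
  c : ℂ
  /-- logarithmic slope -/
  lam : ℂ
  /-- inner radius -/
  η' : ℝ
  /-- outer radius -/
  η : ℝ

namespace Piece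

/-- left end -/
def lo (P : Piece) : ℝ := P.a - P.δ
/-- right end -/
def hi (P : Piece) : ℝ := P.a + P.δ
/-- its zero -/
noncomputable def z (P : Piece) : ℝ → ℂ := zf P.a P.c P.lam P.η'
/-- it is a tube -/
structure Ok (P : Piece) : Prop where
  δ_nonneg : 0 ≤ P.δ
  tube : IsTube P.a P.δ P.c P.lam P.η' P.η

theorem Ok.abs_le {P : Piece} (_h : P.Ok) {α : ℝ} (hα : α ∈ Icc P.lo P.hi) : |α - P.a| ≤ P.δ := by
  rw [_root_.abs_le]
  constructor
  · have := hα.1
    unfold lo at this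
    linarith
  · have := hα.2
    unfold hi at this
    linarith

theorem Ok.lo_le_hi {P : Piece} (h : P.Ok) : P.lo ≤ P.hi := by
  unfold lo hi
  linarith [h.δ_nonneg]

theorem Ok.lo_mem {P : Piece} (h : P.Ok) : P.lo ∈ Icc P.lo P.hi := left_mem_Icc.2 h.lo_le_hi

theorem Ok.hi_mem {P : Piece} (h : P.Ok) : P.hi ∈ Icc P.lo P.hi := right_mem_Icc.2 h.lo_le_hi

theorem Ok.branch {P : Piece} (h : P.Ok) : Branch (Icc P.lo P.hi) P.z := h.tube.branch

theorem Ok.norm_le {P : Piece} (h : P.Ok) {α : ℝ} (hα : α ∈ Icc P.lo P.hi) :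
    ‖P.z α‖ ≤ ‖P.c‖ * Real.exp (P.lam.re * (α - P.a) + P.η') := h.tube.norm_le (h.abs_le hα)

theorem Ok.le_norm {P : Piece} (h : P.Ok) {α : ℝ} (hα : α ∈ Icc P.lo P.hi) :
    ‖P.c‖ * Real.exp (P.lam.re * (α - P.a) - P.η') ≤ ‖P.z α‖ := h.tube.le_norm (h.abs_le hα)

/-- `Q` lies directly to the left of `P` and the zeros agree at the common point -/
def Next (P Q : Piece) : Prop := Q.hi = P.lo ∧ Q.z P.lo = P.z P.lo

/-- junction from the elementary check -/
theorem next_of_norm {P Q : Piece} (hP : P.Ok) (hQ : Q.Ok) (h : Q.a + Q.δ = P.a - P.δ) {x : ℝ} (hx : x ≤ 1 / 2)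
    (hc : ‖Q.c * Complex.exp (Q.lam * (Q.δ : ℂ) + P.lam * (P.δ : ℂ)) - P.c‖ ≤ x * ‖P.c‖)
    (hle : 3 / 2 * x + Q.η' ≤ P.η) : Next P Q := by
  have hlo : Q.hi = P.lo := h
  refine ⟨hlo, ?_⟩
  have h2 : P.lo ∈ Icc Q.lo Q.hi := by rw [← hlo]; exact hQ.hi_mem
  refine hP.tube.link_of_norm hQ.tube (hP.abs_le hP.lo_mem) (hQ.abs_le h2) hx ?_ hle
  have e1 : P.lo - Q.a = Q.δ := by
    rw [← hlo]; unfold hi; ring
  have e2 : P.lo - P.a = -P.δ := by unfold lo; ring
  rw [e1, e2]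
  have e3 : Q.lam * (Q.δ : ℂ) - P.lam * ((-P.δ : ℝ) : ℂ) = Q.lam * (Q.δ : ℂ) + P.lam * (P.δ : ℂ) := by
    push_cast; ring
  rw [e3]
  exact hc

/-- junction with an approximation `E` of the exponential -/
theorem next_of_approx {P Q : Piece} (hP : P.Ok) (hQ : Q.Ok) (h : Q.a + Q.δ = P.a - P.δ) {E : ℂ} {τ ε x : ℝ}
    (hE : ‖E - Complex.exp (Q.lam * (Q.δ : ℂ) + P.lam * (P.δ : ℂ))‖ ≤ τ)
    (hc : ‖Q.c * E - P.c‖ ≤ ε * ‖P.c‖) (hx : x ≤ 1 / 2) (hxx : ε * ‖P.c‖ + τ * ‖Q.c‖ ≤ x * ‖P.c‖)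
    (hle : 3 / 2 * x + Q.η' ≤ P.η) : Next P Q := by
  refine next_of_norm hP hQ h hx ?_ hle
  set G := Complex.exp (Q.lam * (Q.δ : ℂ) + P.lam * (P.δ : ℂ)) with hG
  have e1 : Q.c * G - P.c = (Q.c * E - P.c) - Q.c * (E - G) := by ring
  rw [e1]
  refine (norm_sub_le _ _).trans ?_
  rw [norm_mul]
  have h2 : ‖Q.c‖ * ‖E - G‖ ≤ ‖Q.c‖ * τ := by gcongr
  linarith

end Piece

/-- the zero given by a list of pieces, ordered from the right to the left -/
noncomputable def ZL : List Piece → ℝ → ℂ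
  | [], _ => 0
  | P :: L, α => if P.lo ≤ α then P.z α else ZL L α

/-- a chain of pieces -/
structure ChainOk (L : List Piece) : Prop where
  ok : ∀ P ∈ L, P.Ok
  next : L.IsChain Piece.Next

theorem ChainOk.nil : ChainOk [] := ⟨fun _ h => absurd h List.not_mem_nil, List.isChain_nil⟩

theorem ChainOk.singleton {P : Piece} (h : P.Ok) : ChainOk [P] :=
  ⟨fun Q hQ => by rw [List.mem_singleton] at hQ; rw [hQ]; exact h, List.isChain_singleton P⟩

theorem ChainOk.cons_cons {P Q : Piece} {L : List Piece} (hP : P.Ok) (h : P.Next Q) (hL : ChainOk (Q :: L)) :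
    ChainOk (P :: Q :: L) :=
  ⟨fun R hR => by
    rcases List.mem_cons.1 hR with h1 | h1
    · rw [h1]; exact hP
    · exact hL.ok R h1, List.isChain_cons_cons.2 ⟨h, hL.next⟩⟩

theorem ChainOk.tail {P : Piece} {L : List Piece} (h : ChainOk (P :: L)) : ChainOk L :=
  ⟨fun Q hQ => h.ok Q (List.mem_cons_of_mem _ hQ), (List.isChain_cons.1 h.next).2⟩

theorem ChainOk.append {L₁ L₂ : List Piece} (h₁ : ChainOk L₁) (h₂ : ChainOk L₂)
    (h : ∀ P ∈ L₁.getLast?, ∀ Q ∈ L₂.head?, P.Next Q) : ChainOk (L₁ ++ L₂) := by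
  refine ⟨fun P hP => ?_, ?_⟩
  · rcases List.mem_append.1 hP with h1 | h1
    · exact h₁.ok P h1
    · exact h₂.ok P h1
  · rw [List.isChain_append]
    exact ⟨h₁.next, h₂.next, h⟩

/-- all pieces of a chain lie to the left of the first one -/
theorem ChainOk.hi_le {P : Piece} {L : List Piece} (h : ChainOk (P :: L)) : ∀ Q ∈ L, Q.hi ≤ P.lo := by
  induction L generalizing P with
  | nil => intro Q hQ; exact absurd hQ List.not_mem_nil
  | cons R L ih =>
    intro Q hQ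
    have hn := (List.isChain_cons_cons.1 h.next).1
    rcases List.mem_cons.1 hQ with h1 | h1
    · rw [h1, hn.1]
    · exact (ih h.tail Q h1).trans ((h.tail.ok R List.mem_cons_self).lo_le_hi.trans hn.1.le)

/-- the zero of the list on a piece -/
theorem ChainOk.eq {L : List Piece} (h : ChainOk L) {Q : Piece} (hQ : Q ∈ L) {α : ℝ} (hα : α ∈ Icc Q.lo Q.hi) :
    ZL L α = Q.z α := by
  induction L with
  | nil => exact absurd hQ List.not_mem_nil
  | cons P L ih =>
    rcases List.mem_cons.1 hQ with h1 | h1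
    · rw [← h1]
      exact if_pos hα.1
    · have h2 := h.hi_le Q h1
      by_cases h3 : P.lo ≤ α
      · -- `α = P.lo = Q.hi`
        have h4 : α = P.lo := le_antisymm (hα.2.trans h2) h3
        have e1 : ZL (P :: L) α = P.z α := if_pos h3
        rw [e1]
        -- the head of `L` is the only piece reaching `P.lo`, up to points
        cases L with
        | nil => exact absurd h1 List.not_mem_nil
        | cons R L =>
          have hn := (List.isChain_cons_cons.1 h.next).1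
          have hR := h.tail.ok R List.mem_cons_self
          have h5 : ZL (R :: L) α = R.z α := by
            refine if_pos ?_
            rw [h4, ← hn.1]
            exact hR.lo_le_hi
          rw [← ih h.tail h1, h5, h4, hn.2]
      · have e1 : ZL (P :: L) α = ZL L α := if_neg h3
        rw [e1]
        exact ih h.tail h1

/-- left end of a list of pieces -/
def loL (L : List Piece) (d : ℝ) : ℝ := match L.getLast? with
  | none => d
  | some P => P.lo

theorem loL_cons_cons (P Q : Piece) (L : List Piece) (d : ℝ) : loL (P :: Q :: L) d = loL (Q :: L) d := by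
  simp [loL, List.getLast?_cons_cons]

theorem loL_singleton (P : Piece) (d : ℝ) : loL [P] d = P.lo := by
  simp [loL]

/-- the pieces cover the interval -/
theorem ChainOk.cover {P : Piece} {L : List Piece} (h : ChainOk (P :: L)) {d : ℝ} {α : ℝ}
    (hα : α ∈ Icc (loL (P :: L) d) P.hi) : ∃ Q ∈ P :: L, α ∈ Icc Q.lo Q.hi := by
  induction L generalizing P with
  | nil =>
    rw [loL_singleton] at hα
    exact ⟨P, List.mem_cons_self, hα⟩
  | cons R L ih =>
    rw [loL_cons_cons] at hα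
    by_cases h3 : P.lo ≤ α
    · exact ⟨P, List.mem_cons_self, h3, hα.2⟩
    · have hn := (List.isChain_cons_cons.1 h.next).1
      obtain ⟨Q, hQ, hQ2⟩ := ih h.tail (P := R) ⟨hα.1, by rw [hn.1]; exact (not_le.1 h3).le⟩
      exact ⟨Q, List.mem_cons_of_mem _ hQ, hQ2⟩

theorem ChainOk.loL_le {P : Piece} {L : List Piece} (h : ChainOk (P :: L)) {d : ℝ} :
    loL (P :: L) d ≤ P.lo := by
  induction L generalizing P with
  | nil => rw [loL_singleton]
  | cons R L ih =>
    rw [loL_cons_cons]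
    have hn := (List.isChain_cons_cons.1 h.next).1
    exact (ih h.tail).trans ((h.tail.ok R List.mem_cons_self).lo_le_hi.trans hn.1.le)

/-- **A chain of pieces is a branch.** -/
theorem ChainOk.branch {P : Piece} {L : List Piece} (h : ChainOk (P :: L)) {d : ℝ} :
    Branch (Icc (loL (P :: L) d) P.hi) (ZL (P :: L)) := by
  induction L generalizing P with
  | nil =>
    rw [loL_singleton]
    exact (h.ok P List.mem_cons_self).branch.congr fun α hα => if_pos hα.1
  | cons R L ih =>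
    have hn := (List.isChain_cons_cons.1 h.next).1
    have hP := h.ok P List.mem_cons_self
    have hR := h.tail.ok R List.mem_cons_self
    have h1 := ih h.tail (P := R)
    rw [hn.1] at h1
    have h2 : ZL (R :: L) P.lo = P.z P.lo := by
      have : ZL (R :: L) P.lo = R.z P.lo := if_pos (by rw [← hn.1]; exact hR.lo_le_hi)
      rw [this, hn.2]
    have h3 : loL (R :: L) d ≤ P.lo := h.tail.loL_le.trans (hR.lo_le_hi.trans hn.1.le)
    rw [loL_cons_cons]
    refine (Branch.glue h3 hP.lo_le_hi h1 hP.branch h2).congr fun α hα => ?_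
    change (if P.lo ≤ α then P.z α else ZL (R :: L) α) = if α ≤ P.lo then ZL (R :: L) α else P.z α
    rcases lt_trichotomy α P.lo with h4 | h4 | h4
    · rw [if_neg (not_le.2 h4), if_pos h4.le]
    · rw [if_pos h4.ge, if_pos h4.le, h4, h2]
    · rw [if_pos h4.le, if_neg (not_le.2 h4)]

end SokalFU
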