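import Pool.Agent.Lib_MP_af4de1_fu.SegD

/-!
# Checking the segments of a tube in chunks
-/

set_option autoImplicit false

namespace SokalFU

theorem segOK_append {B : List (List ClsI)} {s t : List ((ℕ × ℕ) × List ℕ)} (hs : segOK B s = true)
    (ht : segOK B t = true) : segOK B (s ++ t) = true := by
  induction s with
  | nil => exact ht
  | cons a s ih =>
    rw [segOK_cons, Bool.and_eq_true, Bool.and_eq_true, Bool.and_eq_true] at hs
    rw [List.cons_append, segOK_cons, Bool.and_eq_true, Bool.and_eq_true, Bool.and_eq_true]
    exact ⟨hs.1, hs.2.1, hs.2.2.1, ih hs.2.2.2⟩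

/-- one chunk of `c` segments from the position `a` on -/
theorem segOK_step {B : List (List ClsI)} {s : List ((ℕ × ℕ) × List ℕ)} (a c : ℕ)
    (h : segOK B ((s.drop a).take c) = true) (h' : segOK B (s.drop (a + c)) = true) : segOK B (s.drop a) = true := by
  have e : s.drop a = (s.drop a).take c ++ s.drop (a + c) := by
    rw [← List.drop_drop, List.take_append_drop]
  rw [e]
  exact segOK_append h h'

theorem segOK_end {B : List (List ClsI)} {s : List ((ℕ × ℕ) × List ℕ)} (a : ℕ) (h : s.length ≤ a) :
    segOK B (s.drop a) = true := by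
  rw [List.drop_eq_nil_of_le h]
  rfl

end SokalFU
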