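import Pool.Agent.Lib_MP_af4de1_fu.SegD

/-!
# Tubes in parts: a tube is a list of lists of segments
-/

set_option autoImplicit false

namespace SokalFU

/-- the pieces of the parts -/
def flats (l : List (List ((ℕ × ℕ) × List ℕ))) : List ℕ :=
  List.rec (motive := fun _ => List ℕ) [] (fun s _ ih => flat s ++ ih) l

/-- all parts are checked -/
def PartsOK (B : List (List ClsI)) (l : List (List ((ℕ × ℕ) × List ℕ))) : Prop := ∀ s ∈ l, segOK B s = true

theorem PartsOK.nil {B : List (List ClsI)} : PartsOK B [] := fun _ h => absurd h List.not_mem_nil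

theorem PartsOK.cons {B : List (List ClsI)} {s : List ((ℕ × ℕ) × List ℕ)} {l : List (List ((ℕ × ℕ) × List ℕ))}
    (h : segOK B s = true) (hl : PartsOK B l) : PartsOK B (s :: l) := fun t ht => by
  rcases List.mem_cons.1 ht with h1 | h1
  · rw [h1]; exact h
  · exact hl t h1

/-- **All pieces of a tube with checked parts are tubes.** -/
theorem flats_T {good : ClsI → Bool} (hgood : ∀ K, good K = true → okE K = true ∧ ClsOK K.toCls)
    {B : List (List ClsI)} (hB : ∀ b ∈ B, blkOK good b = true) : ∀ {l : List (List ((ℕ × ℕ) × List ℕ))},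
    PartsOK B l → ∀ x ∈ flats l, (Pc.dec x).T := by
  intro l
  induction l with
  | nil => intro _ x hx; exact absurd hx List.not_mem_nil
  | cons s l ih =>
    intro h x hx
    have hx' : x ∈ flat s ++ flats l := hx
    rcases List.mem_append.1 hx' with h1 | h1
    · exact flat_T hgood hB (h s List.mem_cons_self) x h1
    · exact ih (fun t ht => h t (List.mem_cons_of_mem _ ht)) x h1

end SokalFU
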