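import Pool.Agent.Lib_MP_af4de1_fu.PcT
import Pool.Agent.Lib_MP_af4de1_fu.ChainN

/-!
# Segments of packed pieces with the same class

`seg_T`: all pieces of a segment are tubes, if the class is good and `segCheck K l = true`.
`segs_T`: the same for a list of segments `(i, l)` with the classes `cls i`.
-/

set_option autoImplicit false

namespace SokalFU

/-- The class passes the checks (once per class). -/
structure ClsGood (K : ClsI) : Prop where
  E : okE K = true
  C : ClsOK K.toCls

/-- all pieces of the list pass the test of the class `K` -/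
def segCheck (K : ClsI) (l : List ℕ) : Bool :=
  List.rec (motive := fun _ => Bool) true
    (fun x _ ih => Bool.rec (motive := fun _ => Bool) false ih (pcCheck K x)) l

theorem segCheck_cons (K : ClsI) (x : ℕ) (l : List ℕ) :
    segCheck K (x :: l) = (pcCheck K x && segCheck K l) := by
  show Bool.rec (motive := fun _ => Bool) false (segCheck K l) (pcCheck K x) = _
  cases pcCheck K x <;> rfl

theorem segCheck_mem {K : ClsI} : ∀ {l : List ℕ}, segCheck K l = true → ∀ x ∈ l, pcCheck K x = true := by
  intro l
  induction l with
  | nil => intro _ x hx; exact absurd hx List.not_mem_nil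
  | cons y l ih =>
    intro h x hx
    rw [segCheck_cons, Bool.and_eq_true] at h
    rcases List.mem_cons.1 hx with h1 | h1
    · rw [h1]; exact h.1
    · exact ih h.2 x h1

/-- **All pieces of a checked segment are tubes.** -/
theorem seg_T {K : ClsI} (hK : ClsGood K) {l : List ℕ} (h : segCheck K l = true) : ∀ x ∈ l, (Pc.dec x).T :=
  fun x hx => pc_T hK.E hK.C (segCheck_mem h x hx)

theorem T_nil : ∀ x ∈ ([] : List ℕ), (Pc.dec x).T := fun _ hx => absurd hx List.not_mem_nil

theorem T_app {l m : List ℕ} (h1 : ∀ x ∈ l, (Pc.dec x).T) (h2 : ∀ x ∈ m, (Pc.dec x).T) :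
    ∀ x ∈ l ++ m, (Pc.dec x).T := by
  intro x hx
  rcases List.mem_append.1 hx with h | h
  · exact h1 x h
  · exact h2 x h

/-- a segment in front of the rest of the tube -/
theorem T_seg {K : ClsI} (hK : ClsGood K) {l m : List ℕ} (h : segCheck K l = true)
    (h2 : ∀ x ∈ m, (Pc.dec x).T) : ∀ x ∈ l ++ m, (Pc.dec x).T := T_app (seg_T hK h) h2

/-- the pieces of a list of segments -/
def segsFlat (L : List (ℕ × List ℕ)) : List ℕ :=
  List.rec (motive := fun _ => List ℕ) [] (fun s _ ih => s.2 ++ ih) L

/-- the check of a list of segments -/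
def segsCheck (cls : ℕ → ClsI) (L : List (ℕ × List ℕ)) : Bool :=
  List.rec (motive := fun _ => Bool) true
    (fun s _ ih => Bool.rec (motive := fun _ => Bool) false ih (segCheck (cls s.1) s.2)) L

theorem segsCheck_cons (cls : ℕ → ClsI) (s : ℕ × List ℕ) (L : List (ℕ × List ℕ)) :
    segsCheck cls (s :: L) = (segCheck (cls s.1) s.2 && segsCheck cls L) := by
  show Bool.rec (motive := fun _ => Bool) false (segsCheck cls L) (segCheck (cls s.1) s.2) = _
  cases segCheck (cls s.1) s.2 <;> rfl

/-- **All pieces of a checked list of segments are tubes.** -/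
theorem segs_T {cls : ℕ → ClsI} : ∀ {L : List (ℕ × List ℕ)}, (∀ s ∈ L, ClsGood (cls s.1)) →
    segsCheck cls L = true → ∀ x ∈ segsFlat L, (Pc.dec x).T := by
  intro L
  induction L with
  | nil => intro _ _; exact T_nil
  | cons s L ih =>
    intro hg h
    rw [segsCheck_cons, Bool.and_eq_true] at h
    exact T_seg (hg s List.mem_cons_self) h.1 (ih (fun t ht => hg t (List.mem_cons_of_mem _ ht)) h.2)

/-- the pieces of a list of segments with explicit classes -/
def segcFlat (L : List (ClsI × List ℕ)) : List ℕ :=
  List.rec (motive := fun _ => List ℕ) [] (fun s _ ih => s.2 ++ ih) L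

/-- the check of a list of segments with explicit classes: `clsOk` is the check of a class -/
def segcCheck (clsOk : ClsI → Bool) (L : List (ClsI × List ℕ)) : Bool :=
  List.rec (motive := fun _ => Bool) true
    (fun s _ ih => Bool.rec (motive := fun _ => Bool) false
      (Bool.rec (motive := fun _ => Bool) false ih (segCheck s.1 s.2)) (clsOk s.1)) L

theorem segcCheck_cons (clsOk : ClsI → Bool) (s : ClsI × List ℕ) (L : List (ClsI × List ℕ)) :
    segcCheck clsOk (s :: L) = (clsOk s.1 && (segCheck s.1 s.2 && segcCheck clsOk L)) := by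
  show Bool.rec (motive := fun _ => Bool) false
      (Bool.rec (motive := fun _ => Bool) false (segcCheck clsOk L) (segCheck s.1 s.2)) (clsOk s.1) = _
  cases clsOk s.1 <;> cases segCheck s.1 s.2 <;> rfl

/-- The classes are part of the data and are checked together with the pieces. -/
theorem segc_T {clsOk : ClsI → Bool} (hok : ∀ K, clsOk K = true → ClsGood K) :
    ∀ {L : List (ClsI × List ℕ)}, segcCheck clsOk L = true → ∀ x ∈ segcFlat L, (Pc.dec x).T := by
  intro L
  induction L with
  | nil => intro _; exact T_nil
  | cons s L ih =>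
    intro h
    rw [segcCheck_cons, Bool.and_eq_true, Bool.and_eq_true] at h
    exact T_seg (hok _ h.1) h.2.1 (ih h.2.2)

end SokalFU
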