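import Pool.Agent.Lib_MP_af4de1_fu.Tub

/-!
# The tube test (F3, T1): exact specification

`q₀ = e^(ia)`, `c = C / D`, `D = 2 ^ S`, `t_n = c^n q₀^(n(n-1)/2) / n!`, `j = n - n₀`.  With `lam = ν - i (n₀ - 1/2)`:
`F(c e^(lam s + h); q₀ e^(is)) = e^(const(s,h)) G(s,h)`, `const = n₀ (lam s + h) + i s n₀ (n₀ - 1) / 2`,
`G(s,h) = ∑_n t_n exp(j v + i j² s / 2)`, `v = ν s + h`.  Moments `M_p = ∑_n t_n j^p`,
`W_p(ρ,δ) = ∑_(a+2b=p, a+b<M) ρ^a (δ/2)^b / (a! b!)`; for `|s| ≤ δ`, `‖v‖ ≤ ρ`: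
`‖G - ∑_(a+b<M) v^a (is/2)^b / (a! b!) M_(a+2b)‖ ≤ ∑_n |t_n| (e^(X_n) - e_M(X_n))`, `X_n = |j| ρ + j² δ / 2`; the same for `∂_h G` with
`M_(a+2b+1)` and the factor `|j|`.

`T_n` (`Tsp`), computed in integers with floor division, is `D t_n` up to a rounding error; the terms `n ≥ N` are dropped.
* (E) `fastCheck = true → Spec` (helper87);
* (A) `ClsOK`, `‖Q / D - e^(ia)‖ ≤ 2 / D`, `Spec` ⇒ `IsTube a δ (C/D) (ν - i (n₀ - 1/2)) η' η` (helper34).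
-/

set_option autoImplicit false

namespace SokalFU

open Finset

/-- a pair of integers as a complex number -/
noncomputable def cpx (x : ℤ × ℤ) : ℂ := (x.1 : ℂ) + (x.2 : ℂ) * Complex.I

/-- rounded `D c q₀^n`. -/
def Wsp (D : ℤ) (c q : ℤ × ℤ) : ℕ → ℤ × ℤ
  | 0 => c
  | n + 1 =>
    (((Wsp D c q n).1 * q.1 - (Wsp D c q n).2 * q.2) / D,
      ((Wsp D c q n).1 * q.2 + (Wsp D c q n).2 * q.1) / D)

/-- rounded `D t_n`; `D / (n + 1)` is the integer quotient. -/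
def Tsp (D : ℤ) (c q : ℤ × ℤ) : ℕ → ℤ × ℤ
  | 0 => (D, 0)
  | n + 1 =>
    (((Tsp D c q n).1 * (Wsp D c q n).1 - (Tsp D c q n).2 * (Wsp D c q n).2) * (D / ((n : ℤ) + 1)) / D ^ 2,
      ((Tsp D c q n).1 * (Wsp D c q n).2 + (Tsp D c q n).2 * (Wsp D c q n).1) * (D / ((n : ℤ) + 1)) / D ^ 2)

/-- real part of the `p`-th moment, scale `D`. -/
def Mre (D : ℤ) (c q : ℤ × ℤ) (n0 N p : ℕ) : ℤ := ∑ n ∈ range N, (Tsp D c q n).1 * ((n : ℤ) - n0) ^ p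

/-- imaginary part of the `p`-th moment, scale `D`. -/
def Mim (D : ℤ) (c q : ℤ × ℤ) (n0 N p : ℕ) : ℤ := ∑ n ∈ range N, (Tsp D c q n).2 * ((n : ℤ) - n0) ^ p

/-- the `p`-th moment, scale `D`. -/
noncomputable def Mom (D : ℤ) (c q : ℤ × ℤ) (n0 N p : ℕ) : ℂ :=
  cpx (Mre D c q n0 N p, Mim D c q n0 N p)

/-- The data of a class of tubes. -/
structure Cls where
  /-- `D = 2 ^ S` -/
  S : ℕ
  /-- `‖c‖ ≤ R` -/
  R : ℕ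
  /-- the centre `n₀` -/
  n0 : ℕ
  /-- number of terms -/
  N : ℕ
  /-- total degree -/
  M : ℕ
  /-- bound for `δ` -/
  del : ℝ
  /-- bound for `‖ν‖ δ + η` -/
  rho2 : ℝ
  /-- bound for `‖ν‖ δ` -/
  rho0 : ℝ
  /-- contraction constant -/
  th : ℝ
  /-- `w2 p ≥ W_p(rho2, del)` -/
  w2 : ℕ → ℝ
  /-- `w0 p ≥ W_p(rho0, del)` -/
  w0 : ℕ → ℝ
  /-- error term for the derivative, scale `D` -/
  e1 : ℝ
  /-- error term for the function, scale `D` -/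
  e0 : ℝ

/-- the scale -/
def Cls.D (K : Cls) : ℤ := 2 ^ K.S

/-- the weights -/
noncomputable def Wt (M p : ℕ) (ρ δ : ℝ) : ℝ :=
  ∑ b ∈ (range (p / 2 + 1)).filter (fun b => p - b < M),
    ρ ^ (p - 2 * b) * (δ / 2) ^ b / ((p - 2 * b).factorial * b.factorial)

/-- The test of a tube with the exact moments. -/
structure Spec (K : Cls) (q c : ℤ × ℤ) (ν : ℂ) (δ η' η : ℝ) : Prop where
  cle : ‖cpx c‖ ≤ K.R * K.D
  cne : cpx c ≠ 0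
  δpos : 0 < δ
  δle : δ ≤ K.del
  η'pos : 0 < η'
  ηlt : η' < η
  rho2 : ‖ν‖ * δ + η ≤ K.rho2
  rho0 : ‖ν‖ * δ ≤ K.rho0
  thpos : 0 < K.th
  thlt : K.th < 1
  t1 : ∑ p ∈ Icc 1 (2 * K.M - 2), K.w2 p * ‖Mom K.D c q K.n0 K.N (p + 1)‖ + K.e1 ≤
    K.th * ‖Mom K.D c q K.n0 K.N 1‖
  t2 : ‖Mom K.D c q K.n0 K.N 0‖ +
      δ * ‖Mom K.D c q K.n0 K.N 1 * ν + Complex.I * Mom K.D c q K.n0 K.N 2 / 2‖ +
      K.rho0 ^ 2 / 2 * ‖Mom K.D c q K.n0 K.N 2‖ +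
      ∑ p ∈ Icc 3 (2 * K.M - 2), K.w0 p * ‖Mom K.D c q K.n0 K.N p‖ + K.e0 ≤
    (1 - K.th) * η' * ‖Mom K.D c q K.n0 K.N 1‖
  mpos : 0 < ‖Mom K.D c q K.n0 K.N 1‖

end SokalFU
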