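import Pool.Agent.Lib_MP_af4de1_fu.TipTop2

/-!
# The tip: derivatives of the saddle maps

`G = (1 - h_L)(1 - h_R)`, `d log w / dp = G / p`, `dB/dp = -G`.
-/

set_option autoImplicit false

namespace SokalFU

open Filter Topology Set SokalF

/-- `G = (1 - h_L)(1 - h_R)` -/
noncomputable def Gp (p : ℂ) : ℂ := (1 - hL p) * (1 - hR p)

/-- `ψ = Im h_R - arg h_R`, so that `w = |w| e^(-iψ)` -/
noncomputable def psiP (p : ℂ) : ℝ := (hR p).im - (hR p).arg

theorem ne_zero_of_re {p : ℂ} (hp : p.re ≠ 0) : p ≠ 0 := fun h => hp (by rw [h]; rfl)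

theorem hR_eq_exp {p : ℂ} (hp : p.re ≠ 0) : hR p = p * Complex.exp p / (Complex.exp p - 1) := by
  unfold hR
  have h1 := exp_ne_one hp
  have h2 : Complex.exp p ≠ 0 := Complex.exp_ne_zero p
  have h3 : 1 - Complex.exp (-p) = (Complex.exp p - 1) / Complex.exp p := by
    rw [Complex.exp_neg]
    field_simp
  rw [h3]
  field_simp

theorem hR_eq_add {p : ℂ} (hp : p.re ≠ 0) : hR p = hL p + p := by
  rw [hR_eq_exp hp]
  unfold hL
  have h1 := exp_ne_one hp
  field_simp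
  ring

theorem hL_ne_zero {p : ℂ} (hp : p.re ≠ 0) : hL p ≠ 0 := div_ne_zero (ne_zero_of_re hp) (exp_ne_one hp)

theorem hR_eq_mul {p : ℂ} (hp : p.re ≠ 0) : hR p = hL p * Complex.exp p := by
  rw [hR_eq_exp hp]
  unfold hL
  ring

theorem hR_ne_zero {p : ℂ} (hp : p.re ≠ 0) : hR p ≠ 0 := by
  rw [hR_eq_mul hp]
  exact mul_ne_zero (hL_ne_zero hp) (Complex.exp_ne_zero p)

/-- `w` from the right saddle -/
theorem wmap_eq_hR {p : ℂ} (hp : p.re ≠ 0) : wmap p = hR p * Complex.exp (-hR p) := by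
  unfold wmap
  rw [hR_eq_mul hp]
  have h2 : hL p * Complex.exp p * Complex.exp (-(hL p * Complex.exp p)) =
      hL p * (Complex.exp p * Complex.exp (-(hL p * Complex.exp p))) := by ring
  rw [h2, ← Complex.exp_add, ← hR_eq_mul hp, hR_eq_add hp]
  congr 2
  ring

theorem wmap_ne_zero {p : ℂ} (hp : p.re ≠ 0) : wmap p ≠ 0 :=
  mul_ne_zero (hL_ne_zero hp) (Complex.exp_ne_zero _)

/-- `w = |w| e^(-iψ)` -/
theorem wmap_eq_psi {p : ℂ} (hp : p.re ≠ 0) :
    wmap p = (‖wmap p‖ : ℂ) * Complex.exp (-(Complex.I * (psiP p : ℂ))) := by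
  rw [wmap_eq_hR hp]
  set h := hR p with hh
  have h1 : h = (‖h‖ : ℂ) * Complex.exp ((h.arg : ℂ) * Complex.I) := (Complex.norm_mul_exp_arg_mul_I h).symm
  have h2 : ‖h * Complex.exp (-h)‖ = ‖h‖ * Real.exp (-h.re) := by
    rw [norm_mul, Complex.norm_exp, Complex.neg_re]
  rw [h2]
  have h3 : Complex.exp (-h) = (Real.exp (-h.re) : ℂ) * Complex.exp (-((h.im : ℂ) * Complex.I)) := by
    rw [Complex.ofReal_exp, ← Complex.exp_add]
    congr 1
    conv_lhs => rw [← Complex.re_add_im h]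
    push_cast
    ring
  have h4 : psiP p = h.im - h.arg := rfl
  conv_lhs => rw [h3]; lhs; rw [h1]
  rw [h4]
  have h5 : Complex.exp (-(Complex.I * ((h.im - h.arg : ℝ) : ℂ))) =
      Complex.exp ((h.arg : ℂ) * Complex.I) * Complex.exp (-((h.im : ℂ) * Complex.I)) := by
    rw [← Complex.exp_add]
    congr 1
    push_cast
    ring
  rw [h5]
  push_cast
  ring

theorem hasDerivAt_hL {p : ℂ} (hp : p.re ≠ 0) : HasDerivAt hL (hL p * (1 - hR p) / p) p := by
  have h1 := exp_ne_one hp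
  have hp0 := ne_zero_of_re hp
  have h2 : HasDerivAt (fun p : ℂ => Complex.exp p - 1) (Complex.exp p) p :=
    (Complex.hasDerivAt_exp p).sub_const 1
  have h3 := (hasDerivAt_id p).fun_div h2 h1
  have e : hL p * (1 - hR p) / p = (1 * (Complex.exp p - 1) - id p * Complex.exp p) / (Complex.exp p - 1) ^ 2 := by
    rw [hR_eq_exp hp]
    unfold hL
    simp only [id]
    field_simp
  rw [e]
  exact h3

theorem hasDerivAt_hR {p : ℂ} (hp : p.re ≠ 0) : HasDerivAt hR (hR p * (1 - hL p) / p) p := by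
  have h1 := exp_ne_one hp
  have hp0 := ne_zero_of_re hp
  have h2 : (fun x => hL x + x) =ᶠ[𝓝 p] hR := by
    have : ∀ᶠ x : ℂ in 𝓝 p, x.re ≠ 0 := Complex.continuous_re.continuousAt.eventually_ne hp
    filter_upwards [this] with x hx
    exact (hR_eq_add hx).symm
  have h3 : HasDerivAt (fun x => hL x + x) (hL p * (1 - hR p) / p + 1) p := (hasDerivAt_hL hp).add (hasDerivAt_id p)
  have e : hR p * (1 - hL p) / p = hL p * (1 - hR p) / p + 1 := by
    rw [hR_eq_add hp]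
    field_simp
    ring
  rw [e]
  exact h3.congr_of_eventuallyEq h2.symm

theorem hasDerivAt_wmap {p : ℂ} (hp : p.re ≠ 0) : HasDerivAt wmap (wmap p * Gp p / p) p := by
  have h1 := hasDerivAt_hL hp
  have h2 := h1.mul (h1.fun_neg.cexp)
  have e : wmap p * Gp p / p = hL p * (1 - hR p) / p * Complex.exp (-hL p) +
      hL p * (Complex.exp (-hL p) * -(hL p * (1 - hR p) / p)) := by
    unfold wmap Gp
    ring
  rw [e]
  exact h2

theorem hasDerivAt_Bp {p : ℂ} (hp : p.re ≠ 0) : HasDerivAt Bp (-Gp p) p := by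
  have h1 := hasDerivAt_hL hp
  have h2 := hasDerivAt_hR hp
  have hp0 := ne_zero_of_re hp
  have h3 := (hasDerivAt_id p).mul (((h1.add h2).div_const 2).sub_const 1)
  have e : -Gp p = 1 * ((hL p + hR p) / 2 - 1) + id p * ((hL p * (1 - hR p) / p + hR p * (1 - hL p) / p) / 2) := by
    unfold Gp
    simp only [id]
    field_simp
    ring
  rw [e]
  exact h3

/-- real derivative of `log |w|` along a line -/
theorem hasDerivAt_log_wmap {γ : ℝ → ℂ} {γ' : ℂ} {t : ℝ} (hγ : HasDerivAt γ γ' t) (hp : (γ t).re ≠ 0) :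
    HasDerivAt (fun s => Real.log ‖wmap (γ s)‖) (Gp (γ t) / γ t * γ').re t := by
  have h1 : HasDerivAt (fun s => wmap (γ s)) (wmap (γ t) * Gp (γ t) / γ t * γ') t :=
    (hasDerivAt_wmap hp).comp_of_eq t hγ rfl
  have hw : wmap (γ t) ≠ 0 := wmap_ne_zero hp
  have h2 := h1.norm_sq
  have hpos : 0 < ‖wmap (γ t)‖ := norm_pos_iff.2 hw
  have h3 := (h2.log (by positivity)).const_mul (1 / 2)
  have e1 : (fun s => 1 / 2 * Real.log (‖wmap (γ s)‖ ^ 2)) = fun s => Real.log ‖wmap (γ s)‖ := by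
    funext s
    rw [Real.log_pow]
    push_cast
    ring
  have e2 : 1 / 2 * (2 * inner ℝ (wmap (γ t)) (wmap (γ t) * Gp (γ t) / γ t * γ') / ‖wmap (γ t)‖ ^ 2) =
      (Gp (γ t) / γ t * γ').re := by
    have e3 : inner ℝ (wmap (γ t)) (wmap (γ t) * Gp (γ t) / γ t * γ') =
        ‖wmap (γ t)‖ ^ 2 * (Gp (γ t) / γ t * γ').re := by
      rw [Complex.inner, ← Complex.normSq_eq_norm_sq]
      have : (wmap (γ t) * Gp (γ t) / γ t * γ') * (starRingEnd ℂ) (wmap (γ t)) =
          (Complex.normSq (wmap (γ t)) : ℂ) * (Gp (γ t) / γ t * γ') := by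
        rw [← Complex.mul_conj]
        ring
      rw [this, Complex.re_ofReal_mul]
    rw [e3]
    field_simp
  rw [e1, e2] at h3
  exact h3

theorem hasDerivAt_Bp_re {γ : ℝ → ℂ} {γ' : ℂ} {t : ℝ} (hγ : HasDerivAt γ γ' t) (hp : (γ t).re ≠ 0) :
    HasDerivAt (fun s => (Bp (γ s)).re) (-(Gp (γ t) * γ').re) t := by
  have h1 : HasDerivAt (fun s => Bp (γ s)) (-Gp (γ t) * γ') t := (hasDerivAt_Bp hp).comp_of_eq t hγ rfl
  have h2 := (Complex.reCLM.hasFDerivAt (x := Bp (γ t))).comp_hasDerivAt t h1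
  have e : Complex.reCLM (-Gp (γ t) * γ') = -(Gp (γ t) * γ').re := by
    rw [Complex.reCLM_apply, neg_mul, Complex.neg_re]
  rw [e] at h2
  exact h2

theorem continuousAt_psiP {p : ℂ} (hp : p.re ≠ 0) (hR0 : 0 < (hR p).re) : ContinuousAt psiP p := by
  unfold psiP
  have h1 := continuousAt_hR hp
  exact (Complex.continuous_im.continuousAt.comp h1).sub
    (ContinuousAt.comp (g := Complex.arg) (Complex.continuousAt_arg (Or.inl hR0)) h1)

end SokalFU
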