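import Pool.Agent.Lib_MP_af4de1_fu.Hom

/-!
# The tip: topological step

The zeros `w` (`z = w e^(iδ/2)/(iδ)`) with `|w| ≤ 1` lie in the image of the sector window for all `0 < δ ≤ δ₂`.
-/

set_option autoImplicit false

namespace SokalFU

open Filter Topology Set SokalF

/-- left saddle -/
noncomputable def hL (p : ℂ) : ℂ := p / (Complex.exp p - 1)

/-- right saddle -/
noncomputable def hR (p : ℂ) : ℂ := p / (1 - Complex.exp (-p))

/-- the point `w` with the saddles `hL p`, `hR p` -/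
noncomputable def wmap (p : ℂ) : ℂ := hL p * Complex.exp (-hL p)

/-- `B(p) = p ((p/2) coth(p/2) - 1)` -/
noncomputable def Bp (p : ℂ) : ℂ := p * ((hL p + hR p) / 2 - 1)

/-- `z` from `w` -/
noncomputable def zmap (δ : ℝ) (w : ℂ) : ℂ := w * Complex.exp (Complex.I * δ / 2) / (Complex.I * δ)

/-- `w` from `z` -/
noncomputable def wz (δ : ℝ) (z : ℂ) : ℂ := z * (Complex.I * δ) * Complex.exp (-(Complex.I * δ / 2))

/-- `w` is a zero with `|w| ≤ 1` -/
def Zr (δ : ℝ) (w : ℂ) : Prop := 0 < ‖w‖ ∧ ‖w‖ ≤ 1 ∧ F (qa δ) (zmap δ w) = 0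

/-- the sector `v (k + i)`, `k₁ ≤ k ≤ k₂`, `0 < v ≤ V` -/
def Dk (k₁ k₂ V : ℝ) : Set ℂ := {p | 0 < p.im ∧ p.im ≤ V ∧ k₁ * p.im ≤ p.re ∧ p.re ≤ k₂ * p.im}

/-- the window -/
def Pset (k₁ k₂ V δ : ℝ) : Set ℂ := {p | p ∈ Dk k₁ k₂ V ∧ (Bp p).re ≤ -(Real.pi * δ) ∧ ‖wmap p‖ ≤ 1}

theorem hR_eq (p : ℂ) : hR p = hL (-p) := by
  unfold hR hL
  rw [← neg_div_neg_eq, neg_sub]

theorem zmap_wz {δ : ℝ} (hδ : δ ≠ 0) (z : ℂ) : zmap δ (wz δ z) = z := by
  unfold zmap wz
  have h1 : (δ : ℂ) ≠ 0 := Complex.ofReal_ne_zero.2 hδ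
  have h2 : z * (Complex.I * δ) * Complex.exp (-(Complex.I * δ / 2)) * Complex.exp (Complex.I * δ / 2) =
      z * (Complex.I * δ) := by
    rw [mul_assoc, ← Complex.exp_add, neg_add_cancel, Complex.exp_zero, mul_one]
  rw [h2, mul_div_assoc, div_self (mul_ne_zero Complex.I_ne_zero h1), mul_one]

theorem wz_zmap {δ : ℝ} (hδ : δ ≠ 0) (w : ℂ) : wz δ (zmap δ w) = w := by
  unfold zmap wz
  have h1 : (δ : ℂ) ≠ 0 := Complex.ofReal_ne_zero.2 hδ
  rw [div_mul_cancel₀ _ (mul_ne_zero Complex.I_ne_zero h1), mul_assoc, ← Complex.exp_add, add_neg_cancel,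
    Complex.exp_zero, mul_one]

theorem continuousAt_zmap {δ : ℝ} (hδ : δ ≠ 0) (w : ℂ) :
    ContinuousAt (fun x : ℝ × ℂ => zmap x.1 x.2) (δ, w) := by
  unfold zmap
  have h1 : (Complex.I * (δ : ℂ)) ≠ 0 := mul_ne_zero Complex.I_ne_zero (Complex.ofReal_ne_zero.2 hδ)
  refine ContinuousAt.div ?_ ?_ h1
  · fun_prop
  · fun_prop

theorem continuous_wz : Continuous (fun x : ℝ × ℂ => wz x.1 x.2) := by
  unfold wz
  fun_prop

/-! ### The maps near a point -/

theorem exp_ne_one {p : ℂ} (hp : p.re ≠ 0) : Complex.exp p - 1 ≠ 0 := by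
  intro h
  have h1 : ‖Complex.exp p‖ = 1 := by rw [sub_eq_zero.1 h, norm_one]
  rw [Complex.norm_exp, Real.exp_eq_one_iff] at h1
  exact hp h1

theorem continuousAt_hL {p : ℂ} (hp : p.re ≠ 0) : ContinuousAt hL p := by
  unfold hL
  refine ContinuousAt.div continuousAt_id ?_ (exp_ne_one hp)
  fun_prop

theorem continuousAt_hR {p : ℂ} (hp : p.re ≠ 0) : ContinuousAt hR p := by
  have : hR = fun p => hL (-p) := funext hR_eq
  rw [this]
  exact ContinuousAt.comp (g := hL) (f := fun p : ℂ => -p) (continuousAt_hL (by simpa using hp)) continuousAt_neg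

theorem continuousAt_wmap {p : ℂ} (hp : p.re ≠ 0) : ContinuousAt wmap p := by
  unfold wmap
  have := continuousAt_hL hp
  exact this.mul (Complex.continuous_exp.continuousAt.comp this.neg)

theorem continuousAt_Bp {p : ℂ} (hp : p.re ≠ 0) : ContinuousAt Bp p := by
  unfold Bp
  have h1 := continuousAt_hL hp
  have h2 := continuousAt_hR hp
  exact continuousAt_id.mul (((h1.add h2).div_const 2).sub continuousAt_const)

theorem tendsto_hL_zero : Tendsto hL (𝓝[≠] 0) (𝓝 1) := by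
  have h1 := (Complex.hasDerivAt_exp 0).tendsto_slope
  rw [Complex.exp_zero] at h1
  have h2 := h1.inv₀ one_ne_zero
  rw [inv_one] at h2
  refine h2.congr fun p => ?_
  rw [slope_def_field, Complex.exp_zero, sub_zero, inv_div]
  rfl

theorem tendsto_hR_zero : Tendsto hR (𝓝[≠] 0) (𝓝 1) := by
  have : hR = hL ∘ fun p => -p := funext hR_eq
  rw [this]
  refine tendsto_hL_zero.comp ?_
  refine tendsto_nhdsWithin_iff.2 ⟨?_, ?_⟩
  · have : Tendsto (fun p : ℂ => -p) (𝓝 0) (𝓝 0) := by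
      simpa using (continuous_neg.tendsto (0 : ℂ))
    exact this.mono_left nhdsWithin_le_nhds
  · filter_upwards [self_mem_nhdsWithin] with p hp
    simpa using hp

theorem tendsto_Bp_zero : Tendsto Bp (𝓝[≠] 0) (𝓝 0) := by
  unfold Bp
  have h1 : Tendsto (fun p : ℂ => p) (𝓝[≠] 0) (𝓝 0) := tendsto_id.mono_left nhdsWithin_le_nhds
  have h2 := h1.mul (((tendsto_hL_zero.add tendsto_hR_zero).div_const 2).sub_const 1)
  simpa using h2

theorem analytic_wmap : AnalyticOnNhd ℂ wmap {p | 0 < p.re} := by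
  refine DifferentiableOn.analyticOnNhd ?_ (isOpen_lt continuous_const Complex.continuous_re)
  have h1 : DifferentiableOn ℂ hL {p | 0 < p.re} := by
    intro p hp
    unfold hL
    have h2 : DifferentiableAt ℂ (fun p => Complex.exp p - 1) p := by fun_prop
    exact (differentiableAt_fun_id.fun_div h2 (exp_ne_one (ne_of_gt hp))).differentiableWithinAt
  unfold wmap
  exact h1.mul (h1.neg.cexp)

theorem wmap_open {s : Set ℂ} (hs : s ⊆ {p | 0 < p.re}) (ho : IsOpen s) : IsOpen (wmap '' s) := by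
  have hpre : IsPreconnected {p : ℂ | 0 < p.re} := (convex_halfSpace_re_gt 0).isPreconnected
  rcases analytic_wmap.is_constant_or_isOpen hpre with ⟨c, hc⟩ | h
  · exfalso
    -- values at `log 2` and `2 log 2`
    have hl : 0 < Real.log 2 := Real.log_pos one_lt_two
    have e1 : Complex.exp ((Real.log 2 : ℝ) : ℂ) = 2 := by
      rw [← Complex.ofReal_exp, Real.exp_log two_pos]
      norm_num
    have e2 : Complex.exp ((2 * Real.log 2 : ℝ) : ℂ) = 4 := by
      have : Real.exp (2 * Real.log 2) = 4 := by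
        rw [two_mul, Real.exp_add, Real.exp_log two_pos]
        norm_num
      rw [← Complex.ofReal_exp, this]
      norm_num
    have h1 := hc ((Real.log 2 : ℝ) : ℂ) (by
      change 0 < ((Real.log 2 : ℝ) : ℂ).re
      rw [Complex.ofReal_re]
      exact hl)
    have h2 := hc ((2 * Real.log 2 : ℝ) : ℂ) (by
      change 0 < ((2 * Real.log 2 : ℝ) : ℂ).re
      rw [Complex.ofReal_re]
      positivity)
    rw [← h2] at h1
    unfold wmap hL at h1
    rw [e1, e2] at h1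
    have e3 : ((Real.log 2 : ℝ) : ℂ) / (2 - 1) = ((Real.log 2 : ℝ) : ℂ) := by norm_num
    have e4 : ((2 * Real.log 2 : ℝ) : ℂ) / (4 - 1) = ((2 / 3 * Real.log 2 : ℝ) : ℂ) := by
      push_cast
      ring
    rw [e3, e4] at h1
    have h3 : Real.log 2 * Real.exp (-Real.log 2) = 2 / 3 * Real.log 2 * Real.exp (-(2 / 3 * Real.log 2)) := by
      have := congrArg Complex.re h1
      rw [← Complex.ofReal_neg, ← Complex.ofReal_neg, ← Complex.ofReal_exp, ← Complex.ofReal_exp,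
        ← Complex.ofReal_mul, ← Complex.ofReal_mul, Complex.ofReal_re, Complex.ofReal_re] at this
      exact this
    have h4 : Real.exp (-Real.log 2) = 2 / 3 * Real.exp (-(2 / 3 * Real.log 2)) := by
      have h5 : Real.log 2 * Real.exp (-Real.log 2) = Real.log 2 * (2 / 3 * Real.exp (-(2 / 3 * Real.log 2))) := by
        rw [h3]; ring
      exact mul_left_cancel₀ hl.ne' h5
    have h6 : Real.exp (-Real.log 2) = 1 / 2 := by
      rw [Real.exp_neg, Real.exp_log two_pos]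
      norm_num
    have h7 : Real.exp (-(2 / 3 * Real.log 2)) ^ 3 = 1 / 4 := by
      rw [← Real.exp_nat_mul]
      have : ((3 : ℕ) : ℝ) * -(2 / 3 * Real.log 2) = -(2 * Real.log 2) := by push_cast; ring
      rw [this, Real.exp_neg, two_mul, Real.exp_add, Real.exp_log two_pos]
      norm_num
    rw [h6] at h4
    have h8 : Real.exp (-(2 / 3 * Real.log 2)) = 3 / 4 := by linarith
    rw [h8] at h7
    norm_num at h7
  · exact h s hs ho

/-! ### The step -/

theorem Zr_limit {δn : ℕ → ℝ} {δ : ℝ} (hδ : 0 < δ) (hlim : Tendsto δn atTop (𝓝 δ)) {w : ℕ → ℂ} {g : ℂ}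
    (hg : Tendsto w atTop (𝓝 g)) (hw : ∀ n, Zr (δn n) (w n)) : Zr δ g := by
  have h0 : F (qa δ) (zmap δ g) = 0 := by
    have hA : Tendsto (fun x : ℝ × ℂ => zmap x.1 x.2) (𝓝 (δ, g)) (𝓝 (zmap δ g)) := continuousAt_zmap hδ.ne' g
    have hB : Tendsto (fun n => (δn n, w n)) atTop (𝓝 (δ, g)) := hlim.prodMk_nhds hg
    have h1 := hA.comp hB
    simp only [Function.comp_def] at h1
    exact tendsto_zero (wn := fun n => zmap (δn n) (w n)) hlim h1 fun n => (hw n).2.2
  refine ⟨?_, le_of_tendsto hg.norm (.of_forall fun n => (hw n).2.1), h0⟩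
  rw [norm_pos_iff]
  intro h
  rw [h] at h0
  have : zmap δ 0 = 0 := by unfold zmap; simp
  rw [this, F_zero] at h0
  exact one_ne_zero h0

theorem Dk_re_pos {k₁ k₂ V : ℝ} (hk : 0 < k₁) {p : ℂ} (hp : p ∈ Dk k₁ k₂ V) : 0 < p.re :=
  (mul_pos hk hp.1).trans_le hp.2.2.1

theorem Pset_limit {k₁ k₂ V : ℝ} (hk : 0 < k₁) (hk₂ : 0 ≤ k₂) {δn : ℕ → ℝ} {δ : ℝ} (hδ : 0 < δ)
    (hlim : Tendsto δn atTop (𝓝 δ))
    {p : ℕ → ℂ} (hp : ∀ n, p n ∈ Pset k₁ k₂ V (δn n)) :
    ∃ g ∈ Pset k₁ k₂ V δ, ∃ φ : ℕ → ℕ, StrictMono φ ∧ Tendsto (p ∘ φ) atTop (𝓝 g) := by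
  obtain ⟨g, -, φ, hφ, hg⟩ := (isCompact_closedBall (0 : ℂ) (k₂ * V + V)).tendsto_subseq
    (x := p) (fun n => by
      rw [mem_closedBall_zero_iff]
      obtain ⟨⟨h1, h2, h3, h4⟩, -, -⟩ := hp n
      have h5 := Complex.norm_le_abs_re_add_abs_im (p n)
      have h6 : 0 ≤ (p n).re := (mul_nonneg hk.le h1.le).trans h3
      rw [abs_of_nonneg h6, abs_of_pos h1] at h5
      nlinarith)
  have hre : Tendsto (fun n => (p (φ n)).re) atTop (𝓝 g.re) := (Complex.continuous_re.tendsto g).comp hg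
  have him : Tendsto (fun n => (p (φ n)).im) atTop (𝓝 g.im) := (Complex.continuous_im.tendsto g).comp hg
  have i0 : 0 ≤ g.im := ge_of_tendsto him (.of_forall fun n => (hp (φ n)).1.1.le)
  have i1 : g.im ≤ V := le_of_tendsto him (.of_forall fun n => (hp (φ n)).1.2.1)
  have i2 : k₁ * g.im ≤ g.re := le_of_tendsto_of_tendsto (him.const_mul k₁) hre
    (.of_forall fun n => (hp (φ n)).1.2.2.1)
  have i3 : g.re ≤ k₂ * g.im := le_of_tendsto_of_tendsto hre (him.const_mul k₂)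
    (.of_forall fun n => (hp (φ n)).1.2.2.2)
  have hδφ : Tendsto (fun n => δn (φ n)) atTop (𝓝 δ) := hlim.comp hφ.tendsto_atTop
  have i4 : 0 < g.im := by
    rcases i0.lt_or_eq with h | h
    · exact h
    · exfalso
      have hg0 : g = 0 := by
        apply Complex.ext
        · rw [Complex.zero_re]
          rw [← h] at i2 i3
          linarith
        · rw [Complex.zero_im]; exact h.symm
      rw [hg0] at hg
      have h1 : Tendsto (fun n => Bp (p (φ n))) atTop (𝓝 0) := by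
        refine tendsto_Bp_zero.comp (tendsto_nhdsWithin_iff.2 ⟨hg, .of_forall fun n => ?_⟩)
        intro h2
        have h3 := (hp (φ n)).1.1
        change p (φ n) = 0 at h2
        rw [h2, Complex.zero_im] at h3
        exact lt_irrefl _ h3
      have h2 : Tendsto (fun n => (Bp (p (φ n))).re) atTop (𝓝 0) := by
        have := (Complex.continuous_re.tendsto 0).comp h1
        rwa [Complex.zero_re] at this
      have h3 : (0 : ℝ) ≤ -(Real.pi * δ) :=
        le_of_tendsto_of_tendsto h2 (hδφ.const_mul Real.pi).neg (.of_forall fun n => (hp (φ n)).2.1)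
      have := Real.pi_pos
      nlinarith [mul_pos this hδ]
  have hgre : g.re ≠ 0 := ((mul_pos hk i4).trans_le i2).ne'
  refine ⟨g, ⟨⟨i4, i1, i2, i3⟩, ?_, ?_⟩, φ, hφ, hg⟩
  · have h1 : Tendsto (fun n => (Bp (p (φ n))).re) atTop (𝓝 (Bp g).re) :=
      (Complex.continuous_re.tendsto _).comp ((continuousAt_Bp hgre).tendsto.comp hg)
    exact le_of_tendsto_of_tendsto h1 (hδφ.const_mul Real.pi).neg (.of_forall fun n => (hp (φ n)).2.1)
  · have h1 : Tendsto (fun n => ‖wmap (p (φ n))‖) atTop (𝓝 ‖wmap g‖) :=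
      ((continuousAt_wmap hgre).tendsto.comp hg).norm
    exact le_of_tendsto h1 (.of_forall fun n => (hp (φ n)).2.2)

/-- **The topological step of the tip.** -/
theorem tip_top {k₁ k₂ V δ₂ : ℝ} (hk : 0 < k₁) (hk₂ : 0 ≤ k₂) (hδ₂ : 0 < δ₂)
    (ha : ∀ δ, 0 < δ → δ ≤ δ₂ → ∀ p ∈ Pset k₁ k₂ V δ, Zr δ (wmap p) →
      k₁ * p.im < p.re ∧ p.re < k₂ * p.im ∧ (Bp p).re < -(Real.pi * δ) ∧ p.im < V)
    (hb : ∀ δ, 0 < δ → δ ≤ δ₂ → ∀ w, Zr δ w → ‖w‖ = 1 → w ∈ wmap '' Pset k₁ k₂ V δ)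
    (hc : ∀ w, Zr δ₂ w → w ∈ wmap '' Pset k₁ k₂ V δ₂) :
    ∀ δ, 0 < δ → δ ≤ δ₂ → ∀ w, Zr δ w → w ∈ wmap '' Pset k₁ k₂ V δ := by
  have hI : IsPreconnected (Ioc 0 δ₂) := isPreconnected_Ioc
  have : PreconnectedSpace (Ioc 0 δ₂) := Subtype.preconnectedSpace hI
  set T : Set (Ioc 0 δ₂) := {x | ∀ w, Zr x w → w ∈ wmap '' Pset k₁ k₂ V x} with hT
  have hcl : IsClosed T := by
    refine IsSeqClosed.isClosed ?_
    intro xn x hxn hx w hw
    have hx0 : (0 : ℝ) < x := x.2.1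
    have hlim : Tendsto (fun n => (xn n : ℝ)) atTop (𝓝 (x : ℝ)) := (continuous_subtype_val.tendsto x).comp hx
    rcases hw.2.1.lt_or_eq with hw1 | hw1
    · -- zeros near `w`
      have hex : ∀ m : ℕ, ∃ n, m ≤ n ∧ ∃ u : ℂ, dist u (zmap x w) < 1 / ((m : ℝ) + 1) ∧ F (qa (xn n)) u = 0 :=
        fun m => exists_near hlim hw.2.2 m (by positivity)
      choose ν hν u hu hu0 using hex
      have hνlim : Tendsto ν atTop atTop := tendsto_atTop_mono hν tendsto_id
      have hulim : Tendsto u atTop (𝓝 (zmap x w)) := by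
        rw [tendsto_iff_dist_tendsto_zero]
        exact squeeze_zero (fun _ => dist_nonneg) (fun m => (hu m).le) tendsto_one_div_add_atTop_nhds_zero_nat
      have hxν : Tendsto (fun m => (xn (ν m) : ℝ)) atTop (𝓝 (x : ℝ)) := hlim.comp hνlim
      have hωlim : Tendsto (fun m => wz (xn (ν m)) (u m)) atTop (𝓝 w) := by
        have := (continuous_wz.tendsto ((x : ℝ), zmap x w)).comp (hxν.prodMk_nhds hulim)
        simp only [wz_zmap hx0.ne'] at this
        exact this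
      have hev : ∀ᶠ m in atTop, Zr (xn (ν m)) (wz (xn (ν m)) (u m)) := by
        filter_upwards [hωlim.norm.eventually (gt_mem_nhds hw1), hωlim.norm.eventually (lt_mem_nhds hw.1)]
          with m h1 h2
        refine ⟨h2, h1.le, ?_⟩
        rw [zmap_wz (ne_of_gt (xn (ν m)).2.1)]
        exact hu0 m
      obtain ⟨M, hM⟩ := eventually_atTop.1 hev
      have hmem : ∀ m, ∃ p ∈ Pset k₁ k₂ V (xn (ν (m + M))), wmap p = wz (xn (ν (m + M))) (u (m + M)) := fun m =>
        hxn (ν (m + M)) _ (hM (m + M) (Nat.le_add_left _ _))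
      choose p hp hpw using hmem
      have hsh : Tendsto (fun m : ℕ => m + M) atTop atTop :=
        tendsto_atTop_mono (fun n => Nat.le_add_right n M) tendsto_id
      obtain ⟨g, hg, φ, hφ, hgl⟩ := Pset_limit hk hk₂ hx0 (δn := fun m => (xn (ν (m + M)) : ℝ)) (hxν.comp hsh) hp
      have hgre : g.re ≠ 0 := (Dk_re_pos hk hg.1).ne'
      have h1 : Tendsto (fun n => wmap (p (φ n))) atTop (𝓝 (wmap g)) := (continuousAt_wmap hgre).tendsto.comp hgl
      have h2 : Tendsto (fun n => wmap (p (φ n))) atTop (𝓝 w) := by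
        have := hωlim.comp (hsh.comp hφ.tendsto_atTop)
        refine this.congr fun n => ?_
        exact (hpw (φ n)).symm
      exact ⟨g, hg, tendsto_nhds_unique h1 h2⟩
    · exact hb x x.2.1 x.2.2 w hw hw1
  have hop : IsOpen T := by
    rw [← isClosed_compl_iff]
    refine IsSeqClosed.isClosed ?_
    intro xn x hxn hx hxT
    have hx0 : (0 : ℝ) < x := x.2.1
    have hlim : Tendsto (fun n => (xn n : ℝ)) atTop (𝓝 (x : ℝ)) := (continuous_subtype_val.tendsto x).comp hx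
    have hex : ∀ n, ∃ w : ℂ, Zr (xn n) w ∧ w ∉ wmap '' Pset k₁ k₂ V (xn n) := fun n => by
      by_contra hcon
      push Not at hcon
      exact hxn n hcon
    choose w hw hwn using hex
    obtain ⟨g, -, φ, hφ, hg⟩ := (isCompact_closedBall (0 : ℂ) 1).tendsto_subseq
      (x := w) (fun n => by rw [mem_closedBall_zero_iff]; exact (hw n).2.1)
    have hxφ : Tendsto (fun n => (xn (φ n) : ℝ)) atTop (𝓝 (x : ℝ)) := hlim.comp hφ.tendsto_atTop
    have hgZ : Zr x g := Zr_limit hx0 hxφ hg fun n => hw (φ n)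
    obtain ⟨p, hp, hpg⟩ := hxT g hgZ
    obtain ⟨j1, j2, j3, j4⟩ := ha x x.2.1 x.2.2 p hp (by rw [hpg]; exact hgZ)
    -- an open neighbourhood of `p`
    set κ : ℝ := ((Bp p).re - Real.pi * x) / 2 with hκ
    have hre : 0 < p.re := Dk_re_pos hk hp.1
    set S : Set ℂ := {y | 0 < y.im ∧ y.im < V ∧ k₁ * y.im < y.re ∧ y.re < k₂ * y.im ∧ 0 < y.re} ∩
      (fun y => (Bp y).re) ⁻¹' Iio κ with hS
    have hSopen : S ∈ 𝓝 p := by
      refine inter_mem ?_ ?_
      · have c1 : IsOpen {y : ℂ | 0 < y.im} := isOpen_lt continuous_const Complex.continuous_im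
        have c2 : IsOpen {y : ℂ | y.im < V} := isOpen_lt Complex.continuous_im continuous_const
        have c3 : IsOpen {y : ℂ | k₁ * y.im < y.re} :=
          isOpen_lt (continuous_const.mul Complex.continuous_im) Complex.continuous_re
        have c4 : IsOpen {y : ℂ | y.re < k₂ * y.im} :=
          isOpen_lt Complex.continuous_re (continuous_const.mul Complex.continuous_im)
        have c5 : IsOpen {y : ℂ | 0 < y.re} := isOpen_lt continuous_const Complex.continuous_re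
        filter_upwards [c1.mem_nhds hp.1.1, c2.mem_nhds j4, c3.mem_nhds j1, c4.mem_nhds j2, c5.mem_nhds hre]
          with y y1 y2 y3 y4 y5
        exact ⟨y1, y2, y3, y4, y5⟩
      · have h1 : ContinuousAt (fun y => (Bp y).re) p :=
          Complex.continuous_re.continuousAt.comp (continuousAt_Bp hre.ne')
        refine h1 (Iio_mem_nhds ?_)
        rw [hκ]
        linarith
    have hκ2 : κ < -(Real.pi * x) := by rw [hκ]; linarith
    obtain ⟨S', hS'S, hS'o, hpS'⟩ := mem_nhds_iff.1 hSopen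
    have hopen := wmap_open (s := S') (fun y hy => (hS'S hy).1.2.2.2.2) hS'o
    have hev1 : ∀ᶠ n in atTop, w (φ n) ∈ wmap '' S' := hg (hopen.mem_nhds ⟨p, hpS', hpg⟩)
    have hev2 : ∀ᶠ n in atTop, κ < -(Real.pi * (xn (φ n) : ℝ)) :=
      ((hxφ.const_mul Real.pi).neg).eventually (lt_mem_nhds hκ2)
    obtain ⟨n, ⟨y, hy, hyw⟩, hn2⟩ := (hev1.and hev2).exists
    apply hwn (φ n)
    obtain ⟨⟨y1, y2, y3, y4, y5⟩, y6⟩ := hS'S hy
    refine ⟨y, ⟨⟨y1, y2.le, y3.le, y4.le⟩, ?_, ?_⟩, hyw⟩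
    · exact (le_of_lt y6).trans hn2.le
    · rw [hyw]
      exact (hw (φ n)).2.1
  have h0 : (⟨δ₂, right_mem_Ioc.2 hδ₂⟩ : Ioc 0 δ₂) ∈ T := hc
  have huniv : T = univ := IsClopen.eq_univ ⟨hcl, hop⟩ ⟨_, h0⟩
  intro δ hδ hδ2
  have : (⟨δ, hδ, hδ2⟩ : Ioc 0 δ₂) ∈ T := by
    rw [huniv]
    exact mem_univ _
  exact this

end SokalFU
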