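import Pool.Agent.Lib_MP_af4de1_fu.TipTop

/-!
# The tip: topological step with a curved right side

Region `0 < v ≤ V`, `k₁ v ≤ u ≤ U v`.
-/

set_option autoImplicit false

namespace SokalFU

open Filter Topology Set SokalF

/-- the region `0 < v ≤ V`, `k₁ v ≤ u ≤ U v` -/
def DU (k₁ V : ℝ) (U : ℝ → ℝ) : Set ℂ := {p | 0 < p.im ∧ p.im ≤ V ∧ k₁ * p.im ≤ p.re ∧ p.re ≤ U p.im}

/-- the window -/
def PU (k₁ V : ℝ) (U : ℝ → ℝ) (δ : ℝ) : Set ℂ :=
  {p | p ∈ DU k₁ V U ∧ (Bp p).re ≤ -(Real.pi * δ) ∧ ‖wmap p‖ ≤ 1}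

theorem DU_re_pos {k₁ V : ℝ} {U : ℝ → ℝ} (hk : 0 < k₁) {p : ℂ} (hp : p ∈ DU k₁ V U) : 0 < p.re :=
  (mul_pos hk hp.1).trans_le hp.2.2.1

theorem PU_limit {k₁ k₂ V : ℝ} {U : ℝ → ℝ} (hk : 0 < k₁) (hk₂ : 0 ≤ k₂) (hUc : Continuous U)
    (hU : ∀ v, 0 < v → v ≤ V → U v ≤ k₂ * v) {δn : ℕ → ℝ} {δ : ℝ} (hδ : 0 < δ)
    (hlim : Tendsto δn atTop (𝓝 δ))
    {p : ℕ → ℂ} (hp : ∀ n, p n ∈ PU k₁ V U (δn n)) :
    ∃ g ∈ PU k₁ V U δ, ∃ φ : ℕ → ℕ, StrictMono φ ∧ Tendsto (p ∘ φ) atTop (𝓝 g) := by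
  obtain ⟨g, -, φ, hφ, hg⟩ := (isCompact_closedBall (0 : ℂ) (k₂ * V + V)).tendsto_subseq
    (x := p) (fun n => by
      rw [mem_closedBall_zero_iff]
      obtain ⟨⟨h1, h2, h3, h4⟩, -, -⟩ := hp n
      have h4' := h4.trans (hU _ h1 h2)
      have h5 := Complex.norm_le_abs_re_add_abs_im (p n)
      have h6 : 0 ≤ (p n).re := (mul_nonneg hk.le h1.le).trans h3
      rw [abs_of_nonneg h6, abs_of_pos h1] at h5
      nlinarith)
  have hre : Tendsto (fun n => (p (φ n)).re) atTop (𝓝 g.re) := (Complex.continuous_re.tendsto g).comp hg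
  have him : Tendsto (fun n => (p (φ n)).im) atTop (𝓝 g.im) := (Complex.continuous_im.tendsto g).comp hg
  have i0 : 0 ≤ g.im := ge_of_tendsto him (.of_forall fun n => (hp (φ n)).1.1.le)
  have i1 : g.im ≤ V := le_of_tendsto him (.of_forall fun n => (hp (φ n)).1.2.1)
  have i2 : k₁ * g.im ≤ g.re := le_of_tendsto_of_tendsto (him.const_mul k₁) hre
    (.of_forall fun n => (hp (φ n)).1.2.2.1)
  have i3 : g.re ≤ k₂ * g.im := le_of_tendsto_of_tendsto hre (him.const_mul k₂)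
    (.of_forall fun n => (hp (φ n)).1.2.2.2.trans (hU _ (hp (φ n)).1.1 (hp (φ n)).1.2.1))
  have i3' : g.re ≤ U g.im := le_of_tendsto_of_tendsto hre ((hUc.tendsto g.im).comp him)
    (.of_forall fun n => (hp (φ n)).1.2.2.2)
  have hδφ : Tendsto (fun n => δn (φ n)) atTop (𝓝 δ) := hlim.comp hφ.tendsto_atTop
  have i4 : 0 < g.im := by
    rcases i0.lt_or_eq with h | h
    · exact h
    · exfalso
      have hg0 : g = 0 := by
        apply Complex.ext
        · rw [Complex.zero_re]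
          rw [← h] at i2 i3
          linarith
        · rw [Complex.zero_im]; exact h.symm
      rw [hg0] at hg
      have h1 : Tendsto (fun n => Bp (p (φ n))) atTop (𝓝 0) := by
        refine tendsto_Bp_zero.comp (tendsto_nhdsWithin_iff.2 ⟨hg, .of_forall fun n => ?_⟩)
        intro h2
        have h3 := (hp (φ n)).1.1
        change p (φ n) = 0 at h2
        rw [h2, Complex.zero_im] at h3
        exact lt_irrefl _ h3
      have h2 : Tendsto (fun n => (Bp (p (φ n))).re) atTop (𝓝 0) := by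
        have := (Complex.continuous_re.tendsto 0).comp h1
        rwa [Complex.zero_re] at this
      have h3 : (0 : ℝ) ≤ -(Real.pi * δ) :=
        le_of_tendsto_of_tendsto h2 (hδφ.const_mul Real.pi).neg (.of_forall fun n => (hp (φ n)).2.1)
      have := Real.pi_pos
      nlinarith [mul_pos this hδ]
  have hgre : g.re ≠ 0 := ((mul_pos hk i4).trans_le i2).ne'
  refine ⟨g, ⟨⟨i4, i1, i2, i3'⟩, ?_, ?_⟩, φ, hφ, hg⟩
  · have h1 : Tendsto (fun n => (Bp (p (φ n))).re) atTop (𝓝 (Bp g).re) :=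
      (Complex.continuous_re.tendsto _).comp ((continuousAt_Bp hgre).tendsto.comp hg)
    exact le_of_tendsto_of_tendsto h1 (hδφ.const_mul Real.pi).neg (.of_forall fun n => (hp (φ n)).2.1)
  · have h1 : Tendsto (fun n => ‖wmap (p (φ n))‖) atTop (𝓝 ‖wmap g‖) :=
      ((continuousAt_wmap hgre).tendsto.comp hg).norm
    exact le_of_tendsto h1 (.of_forall fun n => (hp (φ n)).2.2)

/-- **The topological step of the tip.** -/
theorem tip_top2 {k₁ k₂ V δ₂ : ℝ} {U : ℝ → ℝ} (hk : 0 < k₁) (hk₂ : 0 ≤ k₂) (hUc : Continuous U)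
    (hU : ∀ v, 0 < v → v ≤ V → U v ≤ k₂ * v) (hV : ∀ p ∈ DU k₁ V U, p.im = V → 1 < ‖wmap p‖) (hδ₂ : 0 < δ₂)
    (ha : ∀ δ, 0 < δ → δ ≤ δ₂ → ∀ p ∈ PU k₁ V U δ, Zr δ (wmap p) →
      k₁ * p.im < p.re ∧ p.re < U p.im ∧ (Bp p).re < -(Real.pi * δ))
    (hb : ∀ δ, 0 < δ → δ ≤ δ₂ → ∀ w, Zr δ w → ‖w‖ = 1 → w ∈ wmap '' PU k₁ V U δ)
    (hc : ∀ w, Zr δ₂ w → w ∈ wmap '' PU k₁ V U δ₂) :
    ∀ δ, 0 < δ → δ ≤ δ₂ → ∀ w, Zr δ w → w ∈ wmap '' PU k₁ V U δ := by
  have hI : IsPreconnected (Ioc 0 δ₂) := isPreconnected_Ioc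
  have : PreconnectedSpace (Ioc 0 δ₂) := Subtype.preconnectedSpace hI
  set T : Set (Ioc 0 δ₂) := {x | ∀ w, Zr x w → w ∈ wmap '' PU k₁ V U x} with hT
  have hcl : IsClosed T := by
    refine IsSeqClosed.isClosed ?_
    intro xn x hxn hx w hw
    have hx0 : (0 : ℝ) < x := x.2.1
    have hlim : Tendsto (fun n => (xn n : ℝ)) atTop (𝓝 (x : ℝ)) := (continuous_subtype_val.tendsto x).comp hx
    rcases hw.2.1.lt_or_eq with hw1 | hw1
    · -- zeros near `w`
      have hex : ∀ m : ℕ, ∃ n, m ≤ n ∧ ∃ u : ℂ, dist u (zmap x w) < 1 / ((m : ℝ) + 1) ∧ F (qa (xn n)) u = 0 :=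
        fun m => exists_near hlim hw.2.2 m (by positivity)
      choose ν hν u hu hu0 using hex
      have hνlim : Tendsto ν atTop atTop := tendsto_atTop_mono hν tendsto_id
      have hulim : Tendsto u atTop (𝓝 (zmap x w)) := by
        rw [tendsto_iff_dist_tendsto_zero]
        exact squeeze_zero (fun _ => dist_nonneg) (fun m => (hu m).le) tendsto_one_div_add_atTop_nhds_zero_nat
      have hxν : Tendsto (fun m => (xn (ν m) : ℝ)) atTop (𝓝 (x : ℝ)) := hlim.comp hνlim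
      have hωlim : Tendsto (fun m => wz (xn (ν m)) (u m)) atTop (𝓝 w) := by
        have := (continuous_wz.tendsto ((x : ℝ), zmap x w)).comp (hxν.prodMk_nhds hulim)
        simp only [wz_zmap hx0.ne'] at this
        exact this
      have hev : ∀ᶠ m in atTop, Zr (xn (ν m)) (wz (xn (ν m)) (u m)) := by
        filter_upwards [hωlim.norm.eventually (gt_mem_nhds hw1), hωlim.norm.eventually (lt_mem_nhds hw.1)]
          with m h1 h2
        refine ⟨h2, h1.le, ?_⟩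
        rw [zmap_wz (ne_of_gt (xn (ν m)).2.1)]
        exact hu0 m
      obtain ⟨M, hM⟩ := eventually_atTop.1 hev
      have hmem : ∀ m, ∃ p ∈ PU k₁ V U (xn (ν (m + M))), wmap p = wz (xn (ν (m + M))) (u (m + M)) := fun m =>
        hxn (ν (m + M)) _ (hM (m + M) (Nat.le_add_left _ _))
      choose p hp hpw using hmem
      have hsh : Tendsto (fun m : ℕ => m + M) atTop atTop :=
        tendsto_atTop_mono (fun n => Nat.le_add_right n M) tendsto_id
      obtain ⟨g, hg, φ, hφ, hgl⟩ := PU_limit hk hk₂ hUc hU hx0 (δn := fun m => (xn (ν (m + M)) : ℝ)) (hxν.comp hsh) hp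
      have hgre : g.re ≠ 0 := (DU_re_pos hk hg.1).ne'
      have h1 : Tendsto (fun n => wmap (p (φ n))) atTop (𝓝 (wmap g)) := (continuousAt_wmap hgre).tendsto.comp hgl
      have h2 : Tendsto (fun n => wmap (p (φ n))) atTop (𝓝 w) := by
        have := hωlim.comp (hsh.comp hφ.tendsto_atTop)
        refine this.congr fun n => ?_
        exact (hpw (φ n)).symm
      exact ⟨g, hg, tendsto_nhds_unique h1 h2⟩
    · exact hb x x.2.1 x.2.2 w hw hw1
  have hop : IsOpen T := by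
    rw [← isClosed_compl_iff]
    refine IsSeqClosed.isClosed ?_
    intro xn x hxn hx hxT
    have hx0 : (0 : ℝ) < x := x.2.1
    have hlim : Tendsto (fun n => (xn n : ℝ)) atTop (𝓝 (x : ℝ)) := (continuous_subtype_val.tendsto x).comp hx
    have hex : ∀ n, ∃ w : ℂ, Zr (xn n) w ∧ w ∉ wmap '' PU k₁ V U (xn n) := fun n => by
      by_contra hcon
      push Not at hcon
      exact hxn n hcon
    choose w hw hwn using hex
    obtain ⟨g, -, φ, hφ, hg⟩ := (isCompact_closedBall (0 : ℂ) 1).tendsto_subseq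
      (x := w) (fun n => by rw [mem_closedBall_zero_iff]; exact (hw n).2.1)
    have hxφ : Tendsto (fun n => (xn (φ n) : ℝ)) atTop (𝓝 (x : ℝ)) := hlim.comp hφ.tendsto_atTop
    have hgZ : Zr x g := Zr_limit hx0 hxφ hg fun n => hw (φ n)
    obtain ⟨p, hp, hpg⟩ := hxT g hgZ
    obtain ⟨j1, j2, j3⟩ := ha x x.2.1 x.2.2 p hp (by rw [hpg]; exact hgZ)
    have j4 : p.im < V := by
      rcases hp.1.2.1.lt_or_eq with h | h
      · exact h
      · exact absurd hp.2.2 (not_le.2 (hV p hp.1 h))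
    -- an open neighbourhood of `p`
    set κ : ℝ := ((Bp p).re - Real.pi * x) / 2 with hκ
    have hre : 0 < p.re := DU_re_pos hk hp.1
    set S : Set ℂ := {y | 0 < y.im ∧ y.im < V ∧ k₁ * y.im < y.re ∧ y.re < U y.im ∧ 0 < y.re} ∩
      (fun y => (Bp y).re) ⁻¹' Iio κ with hS
    have hSopen : S ∈ 𝓝 p := by
      refine inter_mem ?_ ?_
      · have c1 : IsOpen {y : ℂ | 0 < y.im} := isOpen_lt continuous_const Complex.continuous_im
        have c2 : IsOpen {y : ℂ | y.im < V} := isOpen_lt Complex.continuous_im continuous_const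
        have c3 : IsOpen {y : ℂ | k₁ * y.im < y.re} :=
          isOpen_lt (continuous_const.mul Complex.continuous_im) Complex.continuous_re
        have c4 : IsOpen {y : ℂ | y.re < U y.im} :=
          isOpen_lt Complex.continuous_re (hUc.comp Complex.continuous_im)
        have c5 : IsOpen {y : ℂ | 0 < y.re} := isOpen_lt continuous_const Complex.continuous_re
        filter_upwards [c1.mem_nhds hp.1.1, c2.mem_nhds j4, c3.mem_nhds j1, c4.mem_nhds j2, c5.mem_nhds hre]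
          with y y1 y2 y3 y4 y5
        exact ⟨y1, y2, y3, y4, y5⟩
      · have h1 : ContinuousAt (fun y => (Bp y).re) p :=
          Complex.continuous_re.continuousAt.comp (continuousAt_Bp hre.ne')
        refine h1 (Iio_mem_nhds ?_)
        rw [hκ]
        linarith
    have hκ2 : κ < -(Real.pi * x) := by rw [hκ]; linarith
    obtain ⟨S', hS'S, hS'o, hpS'⟩ := mem_nhds_iff.1 hSopen
    have hopen := wmap_open (s := S') (fun y hy => (hS'S hy).1.2.2.2.2) hS'o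
    have hev1 : ∀ᶠ n in atTop, w (φ n) ∈ wmap '' S' := hg (hopen.mem_nhds ⟨p, hpS', hpg⟩)
    have hev2 : ∀ᶠ n in atTop, κ < -(Real.pi * (xn (φ n) : ℝ)) :=
      ((hxφ.const_mul Real.pi).neg).eventually (lt_mem_nhds hκ2)
    obtain ⟨n, ⟨y, hy, hyw⟩, hn2⟩ := (hev1.and hev2).exists
    apply hwn (φ n)
    obtain ⟨⟨y1, y2, y3, y4, y5⟩, y6⟩ := hS'S hy
    refine ⟨y, ⟨⟨y1, y2.le, y3.le, y4.le⟩, ?_, ?_⟩, hyw⟩
    · exact (le_of_lt y6).trans hn2.le
    · rw [hyw]
      exact (hw (φ n)).2.1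
  have h0 : (⟨δ₂, right_mem_Ioc.2 hδ₂⟩ : Ioc 0 δ₂) ∈ T := hc
  have huniv : T = univ := IsClopen.eq_univ ⟨hcl, hop⟩ ⟨_, h0⟩
  intro δ hδ hδ2
  have : (⟨δ, hδ, hδ2⟩ : Ioc 0 δ₂) ∈ T := by
    rw [huniv]
    exact mem_univ _
  exact this

end SokalFU
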