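import Pool.Agent.Lib_MP_af4de1_fu.Tub

/-!
# Analytic core of the tube test

`tn a c n = c^n q₀^(n(n-1)/2)/n!`, `q₀ = e^(ia)`, `j = n - n0`, moments `Mo p = ∑ t_n j^p`.
With `lam = ν - i(n0 - 1/2)`, `v = ν s + h`:
`F(c e^(lam s + h); e^(i(a+s))) = exp(n0 v - i s n0²/2) G(s,v)`, `G(s,v) = ∑ t_n exp(j v + i s j²/2)`.
-/

set_option autoImplicit false

namespace SokalFU

open Filter Topology Set SokalF

open Finset (range)

/-! ### The exponential series -/

theorem exp_rem_aux (x : ℂ) (M : ℕ) : ∀ t ∈ Icc (0 : ℝ) 1,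
    ‖Complex.exp (t * x) - ∑ m ∈ range M, (t * x) ^ m / (m.factorial : ℂ)‖ ≤
      Real.exp (max x.re 0) * (‖x‖ ^ M * t ^ M / (M.factorial : ℝ)) := by
  induction M with
  | zero =>
    intro t ht
    simp only [Finset.range_zero, Finset.sum_empty, sub_zero, pow_zero, Nat.factorial_zero,
      Nat.cast_one, mul_one, div_one]
    rw [Complex.norm_exp, Complex.re_ofReal_mul]
    apply Real.exp_le_exp.2
    rcases le_total x.re 0 with h | h
    · exact (mul_nonpos_of_nonneg_of_nonpos ht.1 h).trans (le_max_right _ _)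
    · exact (mul_le_of_le_one_left h ht.2).trans (le_max_left _ _)
  | succ M ih =>
    have hd : ∀ t : ℝ, HasDerivAt (fun t : ℝ => Complex.exp (t * x) -
        ∑ m ∈ range (M + 1), ((t : ℂ) * x) ^ m / (m.factorial : ℂ))
        (x * (Complex.exp (t * x) - ∑ m ∈ range M, ((t : ℂ) * x) ^ m / (m.factorial : ℂ))) t := by
      intro t
      have h0 : HasDerivAt (fun t : ℝ => (t : ℂ) * x) x t := by
        have := (Complex.ofRealCLM.hasDerivAt (x := t)).mul_const x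
        simpa using this
      have h1 : HasDerivAt (fun t : ℝ => Complex.exp ((t : ℂ) * x))
          (Complex.exp ((t : ℂ) * x) * x) t := h0.cexp
      have h2 : ∀ m ∈ range M, HasDerivAt
          (fun t : ℝ => ((t : ℂ) * x) ^ (m + 1) / ((m + 1).factorial : ℂ))
          (x * (((t : ℂ) * x) ^ m / (m.factorial : ℂ))) t := by
        intro m _
        have h3 := (h0.pow (m + 1)).div_const ((m + 1).factorial : ℂ)
        refine h3.congr_deriv ?_
        rw [Nat.factorial_succ]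
        have e1 : (m.factorial : ℂ) ≠ 0 := by exact_mod_cast Nat.factorial_ne_zero m
        have e2 : ((m : ℂ) + 1) ≠ 0 := by exact_mod_cast Nat.succ_ne_zero m
        push_cast
        field_simp
      have h4 := HasDerivAt.fun_sum h2
      have h5 : (fun t : ℝ => Complex.exp (t * x) -
          ∑ m ∈ range (M + 1), ((t : ℂ) * x) ^ m / (m.factorial : ℂ)) = fun t : ℝ =>
          Complex.exp (t * x) - (∑ m ∈ range M, ((t : ℂ) * x) ^ (m + 1) /
            ((m + 1).factorial : ℂ) + 1) := by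
        funext t
        rw [Finset.sum_range_succ']
        simp
      rw [h5]
      refine (h1.sub (h4.add_const 1)).congr_deriv ?_
      rw [mul_sub, Finset.mul_sum]
      ring
    have hB : ∀ t : ℝ, HasDerivAt (fun t : ℝ => Real.exp (max x.re 0) *
        (‖x‖ ^ (M + 1) * t ^ (M + 1) / ((M + 1).factorial : ℝ)))
        (Real.exp (max x.re 0) * (‖x‖ ^ (M + 1) * t ^ M / (M.factorial : ℝ))) t := by
      intro t
      have h3 := (((hasDerivAt_pow (M + 1) t).const_mul (‖x‖ ^ (M + 1))).div_const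
        ((M + 1).factorial : ℝ)).const_mul (Real.exp (max x.re 0))
      refine h3.congr_deriv ?_
      rw [Nat.factorial_succ]
      have e1 : (M.factorial : ℝ) ≠ 0 := by exact_mod_cast Nat.factorial_ne_zero M
      have e2 : ((M : ℝ) + 1) ≠ 0 := by exact_mod_cast Nat.succ_ne_zero M
      push_cast
      field_simp
    refine image_norm_le_of_norm_deriv_right_le_deriv_boundary'
      (fun t _ => (hd t).continuousAt.continuousWithinAt)
      (fun t _ => (hd t).hasDerivWithinAt) ?_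
      (fun t _ => (hB t).continuousAt.continuousWithinAt)
      (fun t _ => (hB t).hasDerivWithinAt) ?_
    · simp only [Complex.ofReal_zero, zero_mul, Complex.exp_zero]
      rw [Finset.sum_range_succ']
      simp
    · intro t ht
      rw [norm_mul]
      calc ‖x‖ * ‖Complex.exp (t * x) - ∑ m ∈ range M, ((t : ℂ) * x) ^ m / (m.factorial : ℂ)‖
          ≤ ‖x‖ * (Real.exp (max x.re 0) * (‖x‖ ^ M * t ^ M / (M.factorial : ℝ))) :=
            mul_le_mul_of_nonneg_left (ih t ⟨ht.1, ht.2.le⟩) (norm_nonneg _)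
        _ = _ := by ring

theorem exp_rem (x : ℂ) (M : ℕ) :
    ‖Complex.exp x - ∑ m ∈ range M, x ^ m / (m.factorial : ℂ)‖ ≤
      Real.exp (max x.re 0) * (‖x‖ ^ M / (M.factorial : ℝ)) := by
  have h := exp_rem_aux x M 1 ⟨zero_le_one, le_rfl⟩
  simpa using h

/-- binomial expansion of `(A + B)^m / m!` -/
theorem pow_div_fact (A B : ℂ) (m : ℕ) : (A + B) ^ m / (m.factorial : ℂ) =
    ∑ x ∈ Finset.HasAntidiagonal.antidiagonal m, A ^ x.1 * B ^ x.2 / ((x.1.factorial : ℂ) * (x.2.factorial : ℂ)) := by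
  rw [(Commute.all A B).add_pow', Finset.sum_div]
  refine Finset.sum_congr rfl fun x hx => ?_
  have hm : x.1 + x.2 = m := Finset.HasAntidiagonal.mem_antidiagonal.1 hx
  have h1 : (m.choose x.1 : ℂ) * (x.1.factorial : ℂ) * (x.2.factorial : ℂ) = (m.factorial : ℂ) := by
    have := Nat.choose_mul_factorial_mul_factorial (show x.1 ≤ m by omega)
    rw [show m - x.1 = x.2 by omega] at this
    exact_mod_cast this
  have e1 : (x.1.factorial : ℂ) ≠ 0 := by exact_mod_cast Nat.factorial_ne_zero _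
  have e2 : (x.2.factorial : ℂ) ≠ 0 := by exact_mod_cast Nat.factorial_ne_zero _
  have e3 : (m.factorial : ℂ) ≠ 0 := by exact_mod_cast Nat.factorial_ne_zero _
  rw [nsmul_eq_mul, div_eq_div_iff e3 (mul_ne_zero e1 e2), ← h1]
  ring

/-! ### The series -/

/-- `t_n = c^n q₀^(n(n-1)/2)/n!` -/
noncomputable def tn (a : ℝ) (c : ℂ) (n : ℕ) : ℂ :=
  qa a ^ (n * (n - 1) / 2) * c ^ n / (n.factorial : ℂ)

theorem norm_tn (a : ℝ) (c : ℂ) (n : ℕ) : ‖tn a c n‖ = ‖c‖ ^ n / (n.factorial : ℝ) := by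
  unfold tn
  rw [norm_div, norm_mul, norm_pow, norm_pow, norm_qa, one_pow, one_mul, Complex.norm_natCast]

/-- `j = n - n0` -/
noncomputable def jj (n0 n : ℕ) : ℝ := (n : ℝ) - n0

theorem summable_gen {r : ℝ} (hr : 0 ≤ r) (n0 p : ℕ) {R : ℝ} (hR : 0 ≤ R) :
    Summable fun n : ℕ => r ^ n / (n.factorial : ℝ) * |jj n0 n| ^ p * Real.exp (|jj n0 n| * R) := by
  have hs := (Real.summable_pow_div_factorial (r * Real.exp (1 + R))).mul_left
    ((p.factorial : ℝ) * Real.exp (n0 * (1 + R)))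
  refine Summable.of_nonneg_of_le (fun n => by positivity) (fun n => ?_) hs
  have hj : |jj n0 n| ≤ n + n0 := by
    unfold jj
    have c1 : (0 : ℝ) ≤ n := Nat.cast_nonneg n
    have c2 : (0 : ℝ) ≤ n0 := Nat.cast_nonneg n0
    rw [abs_le]
    constructor <;> linarith
  have h1 : |jj n0 n| ^ p ≤ (p.factorial : ℝ) * Real.exp |jj n0 n| := by
    have := Real.pow_div_factorial_le_exp |jj n0 n| (abs_nonneg _) p
    rw [div_le_iff₀ (by positivity)] at this
    linarith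
  have h2 : Real.exp |jj n0 n| * Real.exp (|jj n0 n| * R) ≤
      Real.exp (n0 * (1 + R)) * Real.exp (1 + R) ^ n := by
    rw [← Real.exp_add, ← Real.exp_nat_mul, ← Real.exp_add]
    apply Real.exp_le_exp.2
    nlinarith
  calc r ^ n / (n.factorial : ℝ) * |jj n0 n| ^ p * Real.exp (|jj n0 n| * R)
      ≤ r ^ n / (n.factorial : ℝ) * ((p.factorial : ℝ) * Real.exp |jj n0 n|) *
          Real.exp (|jj n0 n| * R) := by gcongr
    _ = r ^ n / (n.factorial : ℝ) * (p.factorial : ℝ) *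
          (Real.exp |jj n0 n| * Real.exp (|jj n0 n| * R)) := by ring
    _ ≤ r ^ n / (n.factorial : ℝ) * (p.factorial : ℝ) *
          (Real.exp (n0 * (1 + R)) * Real.exp (1 + R) ^ n) := by gcongr
    _ = (p.factorial : ℝ) * Real.exp (n0 * (1 + R)) *
          ((r * Real.exp (1 + R)) ^ n / (n.factorial : ℝ)) := by
        rw [mul_pow]; ring

/-- moments -/
noncomputable def Mo (a : ℝ) (c : ℂ) (n0 p : ℕ) : ℂ := ∑' n : ℕ, tn a c n * (jj n0 n : ℂ) ^ p

/-- `∑ t_n j^p exp(j v + i s j²/2)` -/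
noncomputable def GpT (a : ℝ) (c : ℂ) (n0 p : ℕ) (s : ℝ) (v : ℂ) : ℂ :=
  ∑' n : ℕ, tn a c n * (jj n0 n : ℂ) ^ p *
    Complex.exp ((jj n0 n : ℂ) * v + Complex.I * s / 2 * (jj n0 n : ℂ) ^ 2)

theorem norm_expG (n0 n : ℕ) (s : ℝ) (v : ℂ) :
    ‖Complex.exp ((jj n0 n : ℂ) * v + Complex.I * s / 2 * (jj n0 n : ℂ) ^ 2)‖ =
      Real.exp (jj n0 n * v.re) := by
  rw [Complex.norm_exp, Complex.add_re, Complex.re_ofReal_mul]
  congr 1
  have : Complex.I * s / 2 * (jj n0 n : ℂ) ^ 2 = ((s / 2 * jj n0 n ^ 2 : ℝ) : ℂ) * Complex.I := by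
    push_cast
    ring
  rw [this, Complex.re_ofReal_mul]
  simp

theorem norm_termG_le (a : ℝ) (c : ℂ) (n0 p : ℕ) (s : ℝ) {v : ℂ} {R : ℝ} (hv : ‖v‖ ≤ R) (n : ℕ) :
    ‖tn a c n * (jj n0 n : ℂ) ^ p *
      Complex.exp ((jj n0 n : ℂ) * v + Complex.I * s / 2 * (jj n0 n : ℂ) ^ 2)‖ ≤
      ‖c‖ ^ n / (n.factorial : ℝ) * |jj n0 n| ^ p * Real.exp (|jj n0 n| * R) := by
  rw [norm_mul, norm_mul, norm_tn, norm_expG, norm_pow, Complex.norm_real, Real.norm_eq_abs]
  have h1 : jj n0 n * v.re ≤ |jj n0 n| * R := by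
    calc jj n0 n * v.re ≤ |jj n0 n * v.re| := le_abs_self _
      _ = |jj n0 n| * |v.re| := abs_mul _ _
      _ ≤ |jj n0 n| * R := by
        gcongr
        exact (Complex.abs_re_le_norm v).trans hv
  have h2 := Real.exp_le_exp.2 h1
  gcongr

theorem summable_G (a : ℝ) (c : ℂ) (n0 p : ℕ) (s : ℝ) (v : ℂ) :
    Summable fun n : ℕ => tn a c n * (jj n0 n : ℂ) ^ p *
      Complex.exp ((jj n0 n : ℂ) * v + Complex.I * s / 2 * (jj n0 n : ℂ) ^ 2) :=
  Summable.of_norm_bounded (summable_gen (norm_nonneg c) n0 p (norm_nonneg v))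
    (norm_termG_le a c n0 p s le_rfl)

theorem summable_Mo (a : ℝ) (c : ℂ) (n0 p : ℕ) :
    Summable fun n : ℕ => tn a c n * (jj n0 n : ℂ) ^ p := by
  have h := summable_gen (norm_nonneg c) n0 p (le_refl (0 : ℝ))
  refine Summable.of_norm_bounded h fun n => ?_
  rw [norm_mul, norm_tn, norm_pow, Complex.norm_real, Real.norm_eq_abs]
  simp

theorem hasDerivAt_GpT (a : ℝ) (c : ℂ) (n0 p : ℕ) (s : ℝ) (v : ℂ) :
    HasDerivAt (GpT a c n0 p s) (GpT a c n0 (p + 1) s v) v := by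
  have hR : 0 ≤ ‖v‖ + 1 := by positivity
  have hv : v ∈ Metric.ball (0 : ℂ) (‖v‖ + 1) := by
    rw [mem_ball_zero_iff]
    linarith
  have h1 := hasDerivAt_tsum_of_isPreconnected (𝕜 := ℂ) (F := ℂ)
    (g := fun (n : ℕ) (v : ℂ) => tn a c n * (jj n0 n : ℂ) ^ p *
      Complex.exp ((jj n0 n : ℂ) * v + Complex.I * s / 2 * (jj n0 n : ℂ) ^ 2))
    (g' := fun (n : ℕ) (v : ℂ) => tn a c n * (jj n0 n : ℂ) ^ (p + 1) *
      Complex.exp ((jj n0 n : ℂ) * v + Complex.I * s / 2 * (jj n0 n : ℂ) ^ 2))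
    (y₀ := v) (y := v) (summable_gen (norm_nonneg c) n0 (p + 1) hR) Metric.isOpen_ball
    (convex_ball (0 : ℂ) (‖v‖ + 1)).isPreconnected
    (by
      intro n w _
      have h2 : HasDerivAt (fun w : ℂ => (jj n0 n : ℂ) * w +
          Complex.I * s / 2 * (jj n0 n : ℂ) ^ 2) (jj n0 n : ℂ) w := by
        have := ((hasDerivAt_id w).const_mul (jj n0 n : ℂ)).add_const
          (Complex.I * s / 2 * (jj n0 n : ℂ) ^ 2)
        simpa using this
      refine (h2.cexp.const_mul _).congr_deriv ?_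
      ring)
    (by
      intro n w hw
      rw [mem_ball_zero_iff] at hw
      exact norm_termG_le a c n0 (p + 1) s hw.le n)
    hv (summable_G a c n0 p s v) hv
  exact h1

/-- the expansion of `GpT`; the remainder -/
noncomputable def RemS (r : ℝ) (n0 p M : ℕ) (ρ δ : ℝ) : ℝ :=
  ∑' n : ℕ, r ^ n / (n.factorial : ℝ) * |jj n0 n| ^ p *
    (Real.exp (|jj n0 n| * ρ) * ((|jj n0 n| * ρ + |jj n0 n| ^ 2 * (δ / 2)) ^ M / (M.factorial : ℝ)))

theorem summable_RemS {r : ℝ} (hr : 0 ≤ r) (n0 p M : ℕ) {ρ δ : ℝ} (hρ : 0 ≤ ρ) (hδ : 0 ≤ δ) :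
    Summable fun n : ℕ => r ^ n / (n.factorial : ℝ) * |jj n0 n| ^ p *
    (Real.exp (|jj n0 n| * ρ) * ((|jj n0 n| * ρ + |jj n0 n| ^ 2 * (δ / 2)) ^ M /
      (M.factorial : ℝ))) := by
  have h1 := ((summable_gen hr n0 (p + M) hρ).add (summable_gen hr n0 (p + 2 * M) hρ)).mul_left
    (2 ^ M * (ρ ^ M + (δ / 2) ^ M) / (M.factorial : ℝ))
  refine Summable.of_nonneg_of_le (fun n => by positivity) (fun n => ?_) h1
  set x := |jj n0 n| with hx
  have hx0 : 0 ≤ x := abs_nonneg _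
  have h2 : (x * ρ + x ^ 2 * (δ / 2)) ^ M ≤
      2 ^ M * (ρ ^ M + (δ / 2) ^ M) * (x ^ M + x ^ (2 * M)) := by
    have e1 : x * ρ + x ^ 2 * (δ / 2) ≤ 2 * max (x * ρ) (x ^ 2 * (δ / 2)) := by
      have := le_max_left (x * ρ) (x ^ 2 * (δ / 2))
      have := le_max_right (x * ρ) (x ^ 2 * (δ / 2))
      linarith
    have e2 : max (x * ρ) (x ^ 2 * (δ / 2)) ^ M ≤ (x * ρ) ^ M + (x ^ 2 * (δ / 2)) ^ M := by
      rcases max_choice (x * ρ) (x ^ 2 * (δ / 2)) with h | h
      · rw [h]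
        have : 0 ≤ (x ^ 2 * (δ / 2)) ^ M := by positivity
        linarith
      · rw [h]
        have : 0 ≤ (x * ρ) ^ M := by positivity
        linarith
    calc (x * ρ + x ^ 2 * (δ / 2)) ^ M ≤ (2 * max (x * ρ) (x ^ 2 * (δ / 2))) ^ M :=
          pow_le_pow_left₀ (by positivity) e1 M
      _ = 2 ^ M * max (x * ρ) (x ^ 2 * (δ / 2)) ^ M := mul_pow _ _ _
      _ ≤ 2 ^ M * ((x * ρ) ^ M + (x ^ 2 * (δ / 2)) ^ M) := by gcongr
      _ = 2 ^ M * (ρ ^ M * x ^ M + (δ / 2) ^ M * x ^ (2 * M)) := by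
          rw [mul_pow, mul_pow, ← pow_mul]; ring
      _ ≤ 2 ^ M * ((ρ ^ M + (δ / 2) ^ M) * (x ^ M + x ^ (2 * M))) := by
          gcongr
          have a1 : 0 ≤ ρ ^ M * x ^ (2 * M) := by positivity
          have a2 : 0 ≤ (δ / 2) ^ M * x ^ M := by positivity
          nlinarith
      _ = _ := by ring
  calc r ^ n / (n.factorial : ℝ) * x ^ p * (Real.exp (x * ρ) *
        ((x * ρ + x ^ 2 * (δ / 2)) ^ M / (M.factorial : ℝ)))
      ≤ r ^ n / (n.factorial : ℝ) * x ^ p * (Real.exp (x * ρ) *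
        ((2 ^ M * (ρ ^ M + (δ / 2) ^ M) * (x ^ M + x ^ (2 * M))) / (M.factorial : ℝ))) := by
        gcongr
    _ = _ := by
        rw [pow_add, pow_add]
        ring

theorem GpT_expand (a : ℝ) (c : ℂ) (n0 p M : ℕ) {s δ ρ : ℝ} {v : ℂ} (hs : |s| ≤ δ) (hv : ‖v‖ ≤ ρ) :
    ‖GpT a c n0 p s v - ∑ m ∈ range M, ∑ x ∈ Finset.HasAntidiagonal.antidiagonal m,
      v ^ x.1 * (Complex.I * s / 2) ^ x.2 / ((x.1.factorial : ℂ) * (x.2.factorial : ℂ)) *
        Mo a c n0 (p + x.1 + 2 * x.2)‖ ≤ RemS ‖c‖ n0 p M ρ δ := by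
  have hδ : 0 ≤ δ := (abs_nonneg s).trans hs
  have hρ : 0 ≤ ρ := (norm_nonneg v).trans hv
  have h1 : ∑ m ∈ range M, ∑ x ∈ Finset.HasAntidiagonal.antidiagonal m,
      v ^ x.1 * (Complex.I * s / 2) ^ x.2 / ((x.1.factorial : ℂ) * (x.2.factorial : ℂ)) *
        Mo a c n0 (p + x.1 + 2 * x.2) =
      ∑' n : ℕ, tn a c n * (jj n0 n : ℂ) ^ p * ∑ m ∈ range M,
        ((jj n0 n : ℂ) * v + Complex.I * s / 2 * (jj n0 n : ℂ) ^ 2) ^ m / (m.factorial : ℂ) := by
    unfold Mo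
    have e1 : ∀ m ∈ range M, ∑ x ∈ Finset.HasAntidiagonal.antidiagonal m,
        v ^ x.1 * (Complex.I * s / 2) ^ x.2 / ((x.1.factorial : ℂ) * (x.2.factorial : ℂ)) *
          ∑' n : ℕ, tn a c n * (jj n0 n : ℂ) ^ (p + x.1 + 2 * x.2) =
        ∑' n : ℕ, ∑ x ∈ Finset.HasAntidiagonal.antidiagonal m,
          v ^ x.1 * (Complex.I * s / 2) ^ x.2 / ((x.1.factorial : ℂ) * (x.2.factorial : ℂ)) *
            (tn a c n * (jj n0 n : ℂ) ^ (p + x.1 + 2 * x.2)) := by
      intro m _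
      rw [Summable.tsum_finsetSum (fun x _ => (summable_Mo a c n0 _).mul_left _)]
      exact Finset.sum_congr rfl fun x _ => tsum_mul_left.symm
    rw [Finset.sum_congr rfl e1, ← Summable.tsum_finsetSum (fun m _ =>
      summable_sum fun x _ => (summable_Mo a c n0 _).mul_left _)]
    refine tsum_congr fun n => ?_
    rw [Finset.mul_sum]
    refine Finset.sum_congr rfl fun m _ => ?_
    rw [pow_div_fact, Finset.mul_sum]
    refine Finset.sum_congr rfl fun x _ => ?_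
    rw [pow_add, pow_add, mul_pow, mul_pow, pow_mul]
    ring
  have h2 : Summable fun n : ℕ => tn a c n * (jj n0 n : ℂ) ^ p * ∑ m ∈ range M,
        ((jj n0 n : ℂ) * v + Complex.I * s / 2 * (jj n0 n : ℂ) ^ 2) ^ m / (m.factorial : ℂ) := by
    have e2 : (fun n : ℕ => tn a c n * (jj n0 n : ℂ) ^ p * ∑ m ∈ range M,
        ((jj n0 n : ℂ) * v + Complex.I * s / 2 * (jj n0 n : ℂ) ^ 2) ^ m / (m.factorial : ℂ)) =
        fun n : ℕ => ∑ m ∈ range M, ∑ x ∈ Finset.HasAntidiagonal.antidiagonal m,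
          v ^ x.1 * (Complex.I * s / 2) ^ x.2 / ((x.1.factorial : ℂ) * (x.2.factorial : ℂ)) *
            (tn a c n * (jj n0 n : ℂ) ^ (p + x.1 + 2 * x.2)) := by
      funext n
      rw [Finset.mul_sum]
      refine Finset.sum_congr rfl fun m _ => ?_
      rw [pow_div_fact, Finset.mul_sum]
      refine Finset.sum_congr rfl fun x _ => ?_
      rw [pow_add, pow_add, mul_pow, mul_pow, pow_mul]
      ring
    rw [e2]
    exact summable_sum fun m _ => summable_sum fun x _ => (summable_Mo a c n0 _).mul_left _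
  rw [h1]
  unfold GpT
  rw [← (summable_G a c n0 p s v).tsum_sub h2]
  unfold RemS
  refine tsum_of_norm_bounded (summable_RemS (norm_nonneg c) n0 p M hρ hδ).hasSum fun n => ?_
  rw [← mul_sub, norm_mul, norm_mul, norm_tn, norm_pow, Complex.norm_real, Real.norm_eq_abs]
  have h3 := exp_rem ((jj n0 n : ℂ) * v + Complex.I * s / 2 * (jj n0 n : ℂ) ^ 2) M
  have h4 : ((jj n0 n : ℂ) * v + Complex.I * s / 2 * (jj n0 n : ℂ) ^ 2).re = jj n0 n * v.re := by
    have h := norm_expG n0 n s v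
    rw [Complex.norm_exp] at h
    exact Real.exp_injective h
  have h5 : max ((jj n0 n : ℂ) * v + Complex.I * s / 2 * (jj n0 n : ℂ) ^ 2).re 0 ≤
      |jj n0 n| * ρ := by
    rw [h4]
    apply max_le _ (by positivity)
    calc jj n0 n * v.re ≤ |jj n0 n * v.re| := le_abs_self _
      _ = |jj n0 n| * |v.re| := abs_mul _ _
      _ ≤ |jj n0 n| * ρ := by
        gcongr
        exact (Complex.abs_re_le_norm v).trans hv
  have h6 : ‖(jj n0 n : ℂ) * v + Complex.I * s / 2 * (jj n0 n : ℂ) ^ 2‖ ≤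
      |jj n0 n| * ρ + |jj n0 n| ^ 2 * (δ / 2) := by
    refine (norm_add_le _ _).trans ?_
    rw [norm_mul, norm_mul, norm_div, norm_mul, Complex.norm_I, one_mul, Complex.norm_real,
      Complex.norm_real, norm_pow, Complex.norm_real, Real.norm_eq_abs, Real.norm_eq_abs]
    have : ‖(2 : ℂ)‖ = 2 := by simp
    rw [this]
    have e3 : |s| / 2 * |jj n0 n| ^ 2 ≤ |jj n0 n| ^ 2 * (δ / 2) := by
      rw [mul_comm]
      gcongr
    have e4 : |jj n0 n| * ‖v‖ ≤ |jj n0 n| * ρ := by gcongr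
    linarith
  refine mul_le_mul_of_nonneg_left (h3.trans ?_) (by positivity)
  gcongr

/-! ### The identity for `F` -/

theorem F_eq_G (a : ℝ) (c nu : ℂ) (n0 : ℕ) (s : ℝ) (h : ℂ) :
    F (qa (a + s)) (tp c (nu - Complex.I * (n0 - 1 / 2)) s h) =
      Complex.exp (n0 * (nu * s + h) - Complex.I * s / 2 * n0 ^ 2) *
        GpT a c n0 0 s (nu * s + h) := by
  unfold F GpT
  rw [← tsum_mul_left]
  refine tsum_congr fun n => ?_
  unfold tn tp jj
  have hq : qa (a + s) ^ (n * (n - 1) / 2) =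
      qa a ^ (n * (n - 1) / 2) * Complex.exp (((n * (n - 1) / 2 : ℕ) : ℂ) * (s * Complex.I)) := by
    unfold qa
    rw [← Complex.exp_nat_mul, ← Complex.exp_nat_mul, ← Complex.exp_add]
    congr 1
    push_cast
    ring
  have ht : (((n * (n - 1) / 2 : ℕ) : ℂ)) = (n : ℂ) * (n - 1) / 2 := by
    have h2 : 2 * (n * (n - 1) / 2) = n * (n - 1) := by
      have := Nat.even_mul_pred_self n
      exact Nat.two_mul_div_two_of_even this
    have h3 : (2 : ℂ) * ((n * (n - 1) / 2 : ℕ) : ℂ) = (n : ℂ) * ((n - 1 : ℕ) : ℂ) := by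
      exact_mod_cast h2
    have h4 : (n : ℂ) * ((n - 1 : ℕ) : ℂ) = (n : ℂ) * (n - 1) := by
      rcases Nat.eq_zero_or_pos n with h0 | h0
      · rw [h0]; simp
      · rw [Nat.cast_sub h0]; simp
    rw [← h4]
    linear_combination h3 / 2
  rw [hq, ht, mul_pow, ← Complex.exp_nat_mul, pow_zero, mul_one]
  have h5 : Complex.exp ((n : ℂ) * (n - 1) / 2 * (s * Complex.I)) *
      Complex.exp ((n : ℂ) * ((nu - Complex.I * (n0 - 1 / 2)) * s + h)) =
      Complex.exp (n0 * (nu * s + h) - Complex.I * s / 2 * n0 ^ 2) *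
      Complex.exp ((((n : ℝ) - n0 : ℝ) : ℂ) * (nu * s + h) +
        Complex.I * s / 2 * (((n : ℝ) - n0 : ℝ) : ℂ) ^ 2) := by
    rw [← Complex.exp_add, ← Complex.exp_add]
    congr 1
    push_cast
    ring
  calc qa a ^ (n * (n - 1) / 2) * Complex.exp ((n : ℂ) * (n - 1) / 2 * (s * Complex.I)) *
        (c ^ n * Complex.exp ((n : ℂ) * ((nu - Complex.I * (n0 - 1 / 2)) * s + h))) /
        (n.factorial : ℂ)
      = (qa a ^ (n * (n - 1) / 2) * c ^ n / (n.factorial : ℂ)) *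
        (Complex.exp ((n : ℂ) * (n - 1) / 2 * (s * Complex.I)) *
          Complex.exp ((n : ℂ) * ((nu - Complex.I * (n0 - 1 / 2)) * s + h))) := by ring
    _ = _ := by
      rw [h5]
      ring

/-! ### Newton test -/

/-- A function with `‖f' - m‖ ≤ th ‖m‖` on a disc and `f 0` small. -/
theorem newton_disc {f f' : ℂ → ℂ} {m : ℂ} {th η η' : ℝ} (hf : ∀ h, HasDerivAt f (f' h) h)
    (hm : m ≠ 0) (hth : th < 1) (hη' : 0 ≤ η') (hlt : η' < η)
    (hd : ∀ h, ‖h‖ ≤ η → ‖f' h - m‖ ≤ th * ‖m‖) (h0 : ‖f 0‖ ≤ (1 - th) * η' * ‖m‖) :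
    (∃ h, ‖h‖ ≤ η' ∧ f h = 0) ∧ (∀ h, ‖h‖ ≤ η → f' h ≠ 0) ∧
      ∀ h h', ‖h‖ ≤ η → ‖h'‖ ≤ η → f h = 0 → f h' = 0 → h = h' := by
  have hmp : 0 < ‖m‖ := norm_pos_iff.2 hm
  have hth0 : 0 ≤ th := by
    have h1 := hd 0 (by rw [norm_zero]; linarith)
    by_contra hneg
    push Not at hneg
    have : th * ‖m‖ < 0 := mul_neg_of_neg_of_pos hneg hmp
    linarith [norm_nonneg (f' 0 - m)]
  -- `g h = h - f h / m` is a contraction
  have hlip : ∀ h h', ‖h‖ ≤ η → ‖h'‖ ≤ η →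
      ‖(h - f h / m) - (h' - f h' / m)‖ ≤ th * ‖h - h'‖ := by
    intro h h' hh hh'
    have hg : ∀ x ∈ Metric.closedBall (0 : ℂ) η,
        HasDerivWithinAt (fun h => h - f h / m) (1 - f' x / m) (Metric.closedBall (0 : ℂ) η) x :=
      fun x _ => ((hasDerivAt_id x).sub ((hf x).div_const m)).hasDerivWithinAt
    have hb : ∀ x ∈ Metric.closedBall (0 : ℂ) η, ‖1 - f' x / m‖ ≤ th := by
      intro x hx
      rw [mem_closedBall_zero_iff] at hx
      have e : 1 - f' x / m = -((f' x - m) / m) := by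
        field_simp
        ring
      rw [e, norm_neg, norm_div, div_le_iff₀ hmp]
      exact hd x hx
    exact (convex_closedBall (0 : ℂ) η).norm_image_sub_le_of_norm_hasDerivWithin_le hg hb
      (mem_closedBall_zero_iff.2 hh') (mem_closedBall_zero_iff.2 hh)
  refine ⟨?_, ?_, ?_⟩
  · -- existence
    have hg0 : ‖(0 : ℂ) - f 0 / m‖ ≤ (1 - th) * η' := by
      rw [zero_sub, norm_neg, norm_div, div_le_iff₀ hmp]
      exact h0
    have hmaps : MapsTo (fun h => h - f h / m) (Metric.closedBall (0 : ℂ) η')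
        (Metric.closedBall (0 : ℂ) η') := by
      intro h hh
      rw [mem_closedBall_zero_iff] at hh ⊢
      have h1 := hlip h 0 (hh.trans hlt.le) (by rw [norm_zero]; linarith)
      rw [sub_zero] at h1
      have h2 : h - f h / m = ((h - f h / m) - (0 - f 0 / m)) + (0 - f 0 / m) := by ring
      show ‖h - f h / m‖ ≤ η'
      rw [h2]
      refine (norm_add_le _ _).trans ?_
      have h3 : th * ‖h‖ ≤ th * η' := mul_le_mul_of_nonneg_left hh hth0
      linarith
    have hK : ContractingWith (⟨th, hth0⟩ : NNReal)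
        (hmaps.restrict (fun h => h - f h / m) (Metric.closedBall (0 : ℂ) η')
          (Metric.closedBall (0 : ℂ) η')) := by
      refine ⟨by exact_mod_cast hth, LipschitzWith.of_dist_le_mul fun x y => ?_⟩
      have hx := mem_closedBall_zero_iff.1 x.2
      have hy := mem_closedBall_zero_iff.1 y.2
      have := hlip x y (hx.trans hlt.le) (hy.trans hlt.le)
      rw [← dist_eq_norm, ← dist_eq_norm] at this
      exact this
    obtain ⟨y, hy, hfix, -⟩ := hK.exists_fixedPoint' Metric.isClosed_closedBall.isComplete hmaps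
      (x := 0) (mem_closedBall_zero_iff.2 (by rw [norm_zero]; exact hη')) (edist_ne_top _ _)
    refine ⟨y, mem_closedBall_zero_iff.1 hy, ?_⟩
    have h4 : y - f y / m = y := hfix
    have h5 : f y / m = 0 := by linear_combination -h4
    rcases div_eq_zero_iff.1 h5 with h6 | h6
    · exact h6
    · exact absurd h6 hm
  · intro h hh h1
    have h2 := hd h hh
    rw [h1, zero_sub, norm_neg] at h2
    nlinarith
  · intro h h' hh hh' e e'
    have h1 := hlip h h' hh hh'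
    rw [e, e', zero_div, sub_zero, sub_zero] at h1
    by_contra hne
    have h2 : 0 < ‖h - h'‖ := norm_pos_iff.2 (sub_ne_zero.2 hne)
    nlinarith

/-- **The analytic core of the tube test.** -/
theorem isTube_of_moments {a δ η η' th b1 L ρ0 ρ2 T0 T1 : ℝ} {c nu : ℂ} {n0 M : ℕ} {B : ℕ → ℝ}
    (hc : c ≠ 0) (hδ : 0 ≤ δ) (hth : th < 1) (hη' : 0 ≤ η') (hlt : η' < η)
    (hM : 2 ≤ M) (hB : ∀ p, ‖Mo a c n0 p‖ ≤ B p) (hb1 : 0 < b1) (hM1 : b1 ≤ ‖Mo a c n0 1‖)
    (hL : ‖Mo a c n0 1 * nu + Complex.I / 2 * Mo a c n0 2‖ ≤ L)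
    (h0 : ‖nu‖ * δ ≤ ρ0) (h2 : ‖nu‖ * δ + η ≤ ρ2)
    (hT0 : RemS ‖c‖ n0 0 M ρ0 δ ≤ T0) (hT1 : RemS ‖c‖ n0 1 M ρ2 δ ≤ T1)
    (t1 : ∑ m ∈ Finset.Ico 1 M, ∑ x ∈ Finset.HasAntidiagonal.antidiagonal m, ρ2 ^ x.1 * (δ / 2) ^ x.2 /
      ((x.1.factorial : ℝ) * (x.2.factorial : ℝ)) * B (1 + x.1 + 2 * x.2) + T1 ≤ th * b1)
    (t2 : B 0 + δ * L + ∑ m ∈ Finset.Ico 2 M, ∑ x ∈ Finset.HasAntidiagonal.antidiagonal m, ρ0 ^ x.1 * (δ / 2) ^ x.2 /
      ((x.1.factorial : ℝ) * (x.2.factorial : ℝ)) * B (x.1 + 2 * x.2) + T0 ≤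
        (1 - th) * η' * b1) :
    IsTube a δ c (nu - Complex.I * (n0 - 1 / 2)) η' η := by
  have hm1 : Mo a c n0 1 ≠ 0 := norm_pos_iff.1 (hb1.trans_le hM1)
  have hnu0 : 0 ≤ ‖nu‖ * δ := by positivity
  have hth0 : 0 ≤ th := by
    have h3 : 0 ≤ RemS ‖c‖ n0 1 M ρ2 δ := by
      unfold RemS
      have : 0 ≤ ρ2 := by linarith
      exact tsum_nonneg fun n => by positivity
    have h4 : 0 ≤ ∑ m ∈ Finset.Ico 1 M, ∑ x ∈ Finset.HasAntidiagonal.antidiagonal m, ρ2 ^ x.1 * (δ / 2) ^ x.2 /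
      ((x.1.factorial : ℝ) * (x.2.factorial : ℝ)) * B (1 + x.1 + 2 * x.2) := by
      have : 0 ≤ ρ2 := by linarith
      refine Finset.sum_nonneg fun m _ => Finset.sum_nonneg fun x _ => ?_
      have := (norm_nonneg _).trans (hB (1 + x.1 + 2 * x.2))
      positivity
    by_contra hneg
    push Not at hneg
    have := mul_neg_of_neg_of_pos hneg hb1
    linarith
  have hcoef : ∀ (s : ℝ) (v : ℂ) (ρ : ℝ) (x : ℕ × ℕ) (k : ℕ), |s| ≤ δ → ‖v‖ ≤ ρ →
      ‖v ^ x.1 * (Complex.I * s / 2) ^ x.2 / ((x.1.factorial : ℂ) * (x.2.factorial : ℂ)) *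
        Mo a c n0 k‖ ≤ ρ ^ x.1 * (δ / 2) ^ x.2 /
        ((x.1.factorial : ℝ) * (x.2.factorial : ℝ)) * B k := by
    intro s v ρ x k hs hv
    rw [norm_mul, norm_div, norm_mul, norm_pow, norm_pow, norm_div, norm_mul, Complex.norm_I,
      one_mul, Complex.norm_real, Real.norm_eq_abs, norm_mul, Complex.norm_natCast,
      Complex.norm_natCast]
    have e : ‖(2 : ℂ)‖ = 2 := by simp
    rw [e]
    have hρ : 0 ≤ ρ := (norm_nonneg v).trans hv
    have := hB k
    gcongr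
  -- derivative estimate
  have hder : ∀ (s : ℝ), |s| ≤ δ → ∀ h : ℂ, ‖h‖ ≤ η →
      ‖GpT a c n0 1 s (nu * s + h) - Mo a c n0 1‖ ≤ th * ‖Mo a c n0 1‖ := by
    intro s hs h hh
    have hv : ‖nu * s + h‖ ≤ ρ2 := by
      refine (norm_add_le _ _).trans ?_
      rw [norm_mul, Complex.norm_real, Real.norm_eq_abs]
      have : ‖nu‖ * |s| ≤ ‖nu‖ * δ := by gcongr
      linarith
    have h3 := GpT_expand a c n0 1 M hs hv
    have h4 : range M = insert 0 (Finset.Ico 1 M) := by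
      ext k
      simp only [Finset.mem_range, Finset.mem_insert, Finset.mem_Ico]
      omega
    rw [h4, Finset.sum_insert (by simp)] at h3
    simp only [Finset.Nat.antidiagonal_zero, Finset.sum_singleton, pow_zero, Nat.factorial_zero,
      Nat.cast_one, mul_one, div_one, one_mul, add_zero, mul_zero] at h3
    set S := ∑ m ∈ Finset.Ico 1 M, ∑ x ∈ Finset.HasAntidiagonal.antidiagonal m,
      (nu * s + h) ^ x.1 * (Complex.I * s / 2) ^ x.2 /
        ((x.1.factorial : ℂ) * (x.2.factorial : ℂ)) * Mo a c n0 (1 + x.1 + 2 * x.2) with hS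
    have h5 : ‖S‖ ≤ ∑ m ∈ Finset.Ico 1 M, ∑ x ∈ Finset.HasAntidiagonal.antidiagonal m, ρ2 ^ x.1 * (δ / 2) ^ x.2 /
      ((x.1.factorial : ℝ) * (x.2.factorial : ℝ)) * B (1 + x.1 + 2 * x.2) := by
      rw [hS]
      refine (norm_sum_le _ _).trans (Finset.sum_le_sum fun m _ => ?_)
      exact (norm_sum_le _ _).trans (Finset.sum_le_sum fun x _ => hcoef s _ ρ2 x _ hs hv)
    have h6 : GpT a c n0 1 s (nu * s + h) - Mo a c n0 1 =
        (GpT a c n0 1 s (nu * s + h) - (Mo a c n0 1 + S)) + S := by ring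
    rw [h6]
    refine (norm_add_le _ _).trans ?_
    have h7 : th * b1 ≤ th * ‖Mo a c n0 1‖ := by gcongr
    linarith
  -- value at `h = 0`
  have hval : ∀ (s : ℝ), |s| ≤ δ →
      ‖GpT a c n0 0 s (nu * s + 0)‖ ≤ (1 - th) * η' * ‖Mo a c n0 1‖ := by
    intro s hs
    have hv : ‖nu * s + 0‖ ≤ ρ0 := by
      rw [add_zero, norm_mul, Complex.norm_real, Real.norm_eq_abs]
      have : ‖nu‖ * |s| ≤ ‖nu‖ * δ := by gcongr
      linarith
    have h3 := GpT_expand a c n0 0 M hs hv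
    have h4 : range M = insert 0 (insert 1 (Finset.Ico 2 M)) := by
      ext k
      simp only [Finset.mem_range, Finset.mem_insert, Finset.mem_Ico]
      omega
    have h8 : (0 : ℕ) ∉ insert 1 (Finset.Ico 2 M) := by simp
    have h9 : (1 : ℕ) ∉ Finset.Ico 2 M := by simp
    rw [h4, Finset.sum_insert h8, Finset.sum_insert h9] at h3
    have h10 : ∑ x ∈ Finset.HasAntidiagonal.antidiagonal 1,
      (nu * s + 0) ^ x.1 * (Complex.I * s / 2) ^ x.2 /
        ((x.1.factorial : ℂ) * (x.2.factorial : ℂ)) * Mo a c n0 (0 + x.1 + 2 * x.2) =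
        s * (Mo a c n0 1 * nu + Complex.I / 2 * Mo a c n0 2) := by
      rw [Finset.Nat.antidiagonal_succ]
      simp
      ring
    rw [h10] at h3
    simp only [Finset.Nat.antidiagonal_zero, Finset.sum_singleton, pow_zero, Nat.factorial_zero,
      Nat.cast_one, mul_one, div_one, one_mul, add_zero, mul_zero, zero_add] at h3
    rw [add_zero]
    set S := ∑ m ∈ Finset.Ico 2 M, ∑ x ∈ Finset.HasAntidiagonal.antidiagonal m,
      (nu * s) ^ x.1 * (Complex.I * s / 2) ^ x.2 /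
        ((x.1.factorial : ℂ) * (x.2.factorial : ℂ)) * Mo a c n0 (x.1 + 2 * x.2) with hS
    have hv' : ‖nu * s‖ ≤ ρ0 := by simpa using hv
    have h5 : ‖S‖ ≤ ∑ m ∈ Finset.Ico 2 M, ∑ x ∈ Finset.HasAntidiagonal.antidiagonal m, ρ0 ^ x.1 * (δ / 2) ^ x.2 /
      ((x.1.factorial : ℝ) * (x.2.factorial : ℝ)) * B (x.1 + 2 * x.2) := by
      rw [hS]
      refine (norm_sum_le _ _).trans (Finset.sum_le_sum fun m _ => ?_)
      exact (norm_sum_le _ _).trans (Finset.sum_le_sum fun x _ => hcoef s _ ρ0 x _ hs hv')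
    have h11 : ‖(s : ℂ) * (Mo a c n0 1 * nu + Complex.I / 2 * Mo a c n0 2)‖ ≤ δ * L := by
      rw [norm_mul, Complex.norm_real, Real.norm_eq_abs]
      gcongr
    have h6 : GpT a c n0 0 s (nu * s) =
        (GpT a c n0 0 s (nu * s) - (Mo a c n0 0 +
          (s * (Mo a c n0 1 * nu + Complex.I / 2 * Mo a c n0 2) + S))) +
        (Mo a c n0 0 + (s * (Mo a c n0 1 * nu + Complex.I / 2 * Mo a c n0 2) + S)) := by ring
    rw [h6]
    refine (norm_add_le _ _).trans ?_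
    have h12 := norm_add_le (Mo a c n0 0)
      (s * (Mo a c n0 1 * nu + Complex.I / 2 * Mo a c n0 2) + S)
    have h13 := norm_add_le (s * (Mo a c n0 1 * nu + Complex.I / 2 * Mo a c n0 2)) S
    have h14 := hB 0
    have h7 : (1 - th) * η' * b1 ≤ (1 - th) * η' * ‖Mo a c n0 1‖ := by
      have : 0 ≤ 1 - th := by linarith
      gcongr
    linarith
  -- the function of `h`
  have hN : ∀ s : ℝ, |s| ≤ δ → _ := fun s hs =>
    newton_disc (f := fun h => GpT a c n0 0 s (nu * s + h)) (f' := fun h => GpT a c n0 1 s (nu * s + h))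
      (fun h => by
        have h3 := hasDerivAt_GpT a c n0 0 s (nu * s + h)
        have h4 : HasDerivAt (fun h : ℂ => nu * s + h) 1 h := (hasDerivAt_id h).const_add _
        have h5 := h3.comp h h4
        rw [mul_one] at h5
        exact h5) hm1 hth hη' hlt (hder s hs) (hval s hs)
  refine ⟨hc, hlt, ?_, ?_, ?_⟩
  · intro s hs
    obtain ⟨⟨h, hh, hz⟩, -, -⟩ := hN s hs
    refine ⟨h, hh, ?_⟩
    rw [F_eq_G]
    have hz : GpT a c n0 0 s (nu * s + h) = 0 := hz
    rw [hz, mul_zero]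
  · intro s hs h hh hz hd0
    obtain ⟨-, hne, -⟩ := hN s hs
    rw [F_eq_G] at hz
    have hz' : GpT a c n0 0 s (nu * s + h) = 0 :=
      (mul_eq_zero.1 hz).resolve_left (Complex.exp_ne_zero _)
    have hq : ‖qa (a + s)‖ ≤ 1 := (norm_qa _).le
    -- two ways to differentiate
    have d1 : HasDerivAt (fun h : ℂ => F (qa (a + s)) (tp c (nu - Complex.I * (n0 - 1 / 2)) s h))
        (deriv (F (qa (a + s))) (tp c (nu - Complex.I * (n0 - 1 / 2)) s h) *
          tp c (nu - Complex.I * (n0 - 1 / 2)) s h) h := by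
      have e1 : HasDerivAt (fun h : ℂ => tp c (nu - Complex.I * (n0 - 1 / 2)) s h)
          (tp c (nu - Complex.I * (n0 - 1 / 2)) s h) h := by
        unfold tp
        have := (((hasDerivAt_id h).const_add
          ((nu - Complex.I * (n0 - 1 / 2)) * s)).cexp).const_mul c
        simpa using this
      have e2 := hasDerivAt_F hq (tp c (nu - Complex.I * (n0 - 1 / 2)) s h)
      rw [deriv_F hq]
      exact e2.comp h e1
    rw [hd0, zero_mul] at d1
    have d2 : HasDerivAt (fun h : ℂ => Complex.exp (n0 * (nu * s + h) -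
        Complex.I * s / 2 * n0 ^ 2) * GpT a c n0 0 s (nu * s + h))
        (Complex.exp (n0 * (nu * s + h) - Complex.I * s / 2 * n0 ^ 2) * n0 *
          GpT a c n0 0 s (nu * s + h) + Complex.exp (n0 * (nu * s + h) -
        Complex.I * s / 2 * n0 ^ 2) * GpT a c n0 1 s (nu * s + h)) h := by
      have e1 : HasDerivAt (fun h : ℂ => (n0 : ℂ) * (nu * s + h) - Complex.I * s / 2 * n0 ^ 2)
          (n0 : ℂ) h := by
        have := (((hasDerivAt_id h).const_add (nu * s)).const_mul (n0 : ℂ)).sub_const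
          (Complex.I * s / 2 * n0 ^ 2)
        simpa using this
      have e3 := hasDerivAt_GpT a c n0 0 s (nu * s + h)
      have e4 : HasDerivAt (fun h : ℂ => nu * s + h) 1 h := (hasDerivAt_id h).const_add _
      have e5 := e3.comp h e4
      rw [mul_one] at e5
      exact e1.cexp.mul e5
    have d3 : (fun h : ℂ => F (qa (a + s)) (tp c (nu - Complex.I * (n0 - 1 / 2)) s h)) =
        fun h : ℂ => Complex.exp (n0 * (nu * s + h) -
        Complex.I * s / 2 * n0 ^ 2) * GpT a c n0 0 s (nu * s + h) :=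
      funext fun h => F_eq_G a c nu n0 s h
    rw [d3] at d1
    have h5 := d1.unique d2
    rw [hz', mul_zero, zero_add] at h5
    exact (mul_ne_zero (Complex.exp_ne_zero _) (hne h hh)) h5.symm
  · intro s hs h h' hh hh' hz hz'
    obtain ⟨-, -, huniq⟩ := hN s hs
    rw [F_eq_G] at hz hz'
    exact huniq h h' hh hh' ((mul_eq_zero.1 hz).resolve_left (Complex.exp_ne_zero _))
      ((mul_eq_zero.1 hz').resolve_left (Complex.exp_ne_zero _))

end SokalFU
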