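import Pool.Agent.Lib_MP_af4de1_fu.TubA
import Pool.Agent.Lib_MP_af4de1_fu.Spec

/-!
# Soundness of the tube test: rounding, tails, regrouping

`isTube_of_spec : ClsOK K → ‖cpx q / D - e^(ia)‖ ≤ 2 / D → Spec K q c ν δ η' η →
  IsTube a δ (cpx c / D) (ν - i (n₀ - 1/2)) η' η`.
-/

set_option autoImplicit false

namespace SokalFU

open Filter Topology Set SokalF

open Finset (range)

/-! ### Rounding -/

theorem cpx_mul (x y : ℤ × ℤ) :
    cpx (x.1 * y.1 - x.2 * y.2, x.1 * y.2 + x.2 * y.1) = cpx x * cpx y := by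
  unfold cpx
  push_cast
  linear_combination (-(x.2 : ℂ) * (y.2 : ℂ)) * Complex.I_mul_I

theorem div_floor_real (D : ℤ) (hD : 0 < D) (u : ℤ) : |((u / D : ℤ) : ℝ) - (u : ℝ) / (D : ℝ)| ≤ 1 := by
  have hD' : (0 : ℝ) < D := by exact_mod_cast hD
  have h1 : D * (u / D) ≤ u := Int.mul_ediv_self_le hD.ne'
  have h2 : u < D * (u / D) + D := Int.lt_mul_ediv_self_add hD
  have h1' : (D : ℝ) * ((u / D : ℤ) : ℝ) ≤ u := by exact_mod_cast h1
  have h2' : (u : ℝ) < (D : ℝ) * ((u / D : ℤ) : ℝ) + D := by exact_mod_cast h2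
  rw [abs_le]
  constructor
  · rw [neg_le_sub_iff_le_add, div_le_iff₀ hD']
    linarith
  · rw [sub_le_iff_le_add]
    have : ((u / D : ℤ) : ℝ) ≤ (u : ℝ) / (D : ℝ) := by
      rw [le_div_iff₀ hD']
      linarith
    linarith

theorem cpx_floor (D : ℤ) (hD : 0 < D) (u v : ℤ) :
    ‖cpx (u / D, v / D) - cpx (u, v) / (D : ℂ)‖ ≤ 3 / 2 := by
  set x : ℝ := ((u / D : ℤ) : ℝ) - (u : ℝ) / (D : ℝ) with hx
  set y : ℝ := ((v / D : ℤ) : ℝ) - (v : ℝ) / (D : ℝ) with hy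
  have h1 : |x| ≤ 1 := div_floor_real D hD u
  have h2 : |y| ≤ 1 := div_floor_real D hD v
  have h3 : cpx (u / D, v / D) - cpx (u, v) / (D : ℂ) = (x : ℂ) + (y : ℂ) * Complex.I := by
    rw [hx, hy]
    unfold cpx
    push_cast
    ring
  rw [h3]
  have h4 : ‖(x : ℂ) + (y : ℂ) * Complex.I‖ ^ 2 = x ^ 2 + y ^ 2 := by
    rw [Complex.sq_norm, Complex.normSq_add_mul_I]
  have h5 : x ^ 2 ≤ 1 := by
    have := sq_abs x
    have h6 := abs_nonneg x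
    nlinarith
  have h7 : y ^ 2 ≤ 1 := by
    have := sq_abs y
    have h6 := abs_nonneg y
    nlinarith
  by_contra hcon
  have h8 : 3 / 2 < ‖(x : ℂ) + (y : ℂ) * Complex.I‖ := not_le.1 hcon
  nlinarith

theorem Wsp_err {D : ℤ} (hD : 0 < D) {c q : ℤ × ℤ} {a R : ℝ} (hR : 0 ≤ R)
    (hq : ‖cpx q / (D : ℂ) - qa a‖ ≤ 2 / (D : ℝ)) (hc : ‖cpx c‖ ≤ R * D) {N : ℕ}
    (hN : 8 * (N : ℝ) * (R + 1) ≤ D) :
    ∀ n ≤ N, ‖cpx (Wsp D c q n) - cpx c * qa a ^ n‖ ≤ (n : ℝ) * (2 * R + 2) := by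
  have hD' : (0 : ℝ) < D := by exact_mod_cast hD
  have hDc : (D : ℂ) ≠ 0 := by exact_mod_cast hD.ne'
  intro n
  induction n with
  | zero =>
    intro _
    simp [Wsp]
  | succ n ih =>
    intro hn
    have h0 := ih (by omega)
    have hnN : (n : ℝ) ≤ N := by exact_mod_cast (show n ≤ N by omega)
    have hn0 : (0 : ℝ) ≤ n := Nat.cast_nonneg n
    set W := Wsp D c q n with hW
    have h1 : Wsp D c q (n + 1) = ((W.1 * q.1 - W.2 * q.2) / D, (W.1 * q.2 + W.2 * q.1) / D) := rfl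
    have h2 := cpx_floor D hD (W.1 * q.1 - W.2 * q.2) (W.1 * q.2 + W.2 * q.1)
    rw [cpx_mul] at h2
    rw [h1]
    set Z := cpx ((W.1 * q.1 - W.2 * q.2) / D, (W.1 * q.2 + W.2 * q.1) / D) with hZ
    have h3 : Z - cpx c * qa a ^ (n + 1) = (Z - cpx W * cpx q / (D : ℂ)) +
        ((cpx W - cpx c * qa a ^ n) * (cpx q / (D : ℂ)) +
          cpx c * qa a ^ n * (cpx q / (D : ℂ) - qa a)) := by
      rw [pow_succ]
      ring
    have h4 : ‖cpx q / (D : ℂ)‖ ≤ 1 + 2 / (D : ℝ) := by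
      have e1 : cpx q / (D : ℂ) = (cpx q / (D : ℂ) - qa a) + qa a := by ring
      rw [e1]
      refine (norm_add_le _ _).trans ?_
      rw [norm_qa]
      linarith
    have h5 : ‖(cpx W - cpx c * qa a ^ n) * (cpx q / (D : ℂ))‖ ≤
        (n : ℝ) * (2 * R + 2) * (1 + 2 / (D : ℝ)) := by
      rw [norm_mul]
      exact mul_le_mul h0 h4 (norm_nonneg _) (by positivity)
    have h6 : ‖cpx c * qa a ^ n * (cpx q / (D : ℂ) - qa a)‖ ≤ R * D * (2 / (D : ℝ)) := by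
      rw [norm_mul, norm_mul, norm_pow, norm_qa, one_pow, mul_one]
      exact mul_le_mul hc hq (norm_nonneg _) (by positivity)
    have h7 : R * D * (2 / (D : ℝ)) = 2 * R := by field_simp
    have h8 : (n : ℝ) * (2 * R + 2) * (2 / (D : ℝ)) ≤ 1 / 2 := by
      rw [mul_div_assoc', div_le_iff₀ hD']
      nlinarith
    rw [h3]
    refine (norm_add_le _ _).trans ?_
    have h9 := norm_add_le ((cpx W - cpx c * qa a ^ n) * (cpx q / (D : ℂ)))
      (cpx c * qa a ^ n * (cpx q / (D : ℂ) - qa a))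
    push_cast
    nlinarith

/-- error bound of `Tsp` -/
noncomputable def Er (R : ℝ) : ℕ → ℝ
  | 0 => 0
  | n + 1 => Er R n * (4 * R + 1) / (4 * ((n : ℝ) + 1)) + (3 * R + 2) * (R ^ n / (n.factorial : ℝ)) + 3 / 2

theorem Er_nonneg {R : ℝ} (hR : 0 ≤ R) (n : ℕ) : 0 ≤ Er R n := by
  induction n with
  | zero => exact le_rfl
  | succ n ih =>
    unfold Er
    positivity

theorem tn_succ (a : ℝ) (c : ℂ) (n : ℕ) :
    tn a c (n + 1) = tn a c n * (c * qa a ^ n) / ((n : ℂ) + 1) := by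
  unfold tn
  have h1 : (n + 1) * (n + 1 - 1) / 2 = n * (n - 1) / 2 + n := by
    rw [Nat.add_sub_cancel]
    have := Nat.even_mul_pred_self n
    obtain ⟨k, hk⟩ := this
    have h2 : (n + 1) * n = n * (n - 1) + 2 * n := by
      rcases n with _ | m
      · rfl
      · simp only [Nat.add_sub_cancel]; ring
    rw [h2, hk]
    omega
  rw [h1, Nat.factorial_succ, pow_add, pow_succ]
  have e1 : (n.factorial : ℂ) ≠ 0 := by exact_mod_cast Nat.factorial_ne_zero n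
  have e2 : ((n : ℂ) + 1) ≠ 0 := by exact_mod_cast Nat.succ_ne_zero n
  push_cast
  field_simp

theorem Tsp_err {D : ℤ} (hD : 0 < D) {c q : ℤ × ℤ} {a R : ℝ} (hR : 0 ≤ R)
    (hq : ‖cpx q / (D : ℂ) - qa a‖ ≤ 2 / (D : ℝ)) (hc : ‖cpx c‖ ≤ R * D) {N : ℕ}
    (hN : 8 * (N : ℝ) * (R + 1) ≤ D) :
    ∀ n ≤ N, ‖cpx (Tsp D c q n) - (D : ℂ) * tn a (cpx c / (D : ℂ)) n‖ ≤ Er R n := by
  have hD' : (0 : ℝ) < D := by exact_mod_cast hD
  have hDc : (D : ℂ) ≠ 0 := by exact_mod_cast hD.ne'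
  set c' := cpx c / (D : ℂ) with hc'
  have hcR : ‖c'‖ ≤ R := by
    rw [hc', norm_div, Complex.norm_intCast, abs_of_pos hD', div_le_iff₀ hD']
    exact hc
  intro n
  induction n with
  | zero =>
    intro _
    simp [Tsp, tn, cpx, Er]
  | succ n ih =>
    intro hn
    have h0 := ih (by omega)
    have hnN : (n : ℝ) ≤ N := by exact_mod_cast (show n ≤ N by omega)
    have hn0 : (0 : ℝ) ≤ n := Nat.cast_nonneg n
    have hw := Wsp_err hD hR hq hc hN n (by omega)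
    set W := Wsp D c q n with hW
    set T := Tsp D c q n with hT
    set J : ℤ := D / ((n : ℤ) + 1) with hJ
    have hJ0 : 0 ≤ J := Int.ediv_nonneg hD.le (by positivity)
    have hn1 : (0 : ℤ) < (n : ℤ) + 1 := by positivity
    have hJr : |(J : ℝ) - (D : ℝ) / ((n : ℝ) + 1)| ≤ 1 := by
      have := div_floor_real ((n : ℤ) + 1) hn1 D
      push_cast at this
      exact this
    have hJle : (J : ℝ) ≤ (D : ℝ) / ((n : ℝ) + 1) := by
      rw [le_div_iff₀ (by positivity)]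
      have := Int.mul_ediv_self_le (x := D) hn1.ne'
      rw [← hJ] at this
      have h' : (((n : ℤ) + 1 : ℤ) : ℝ) * (J : ℝ) ≤ D := by exact_mod_cast this
      push_cast at h'
      linarith
    have h1 : Tsp D c q (n + 1) = ((T.1 * W.1 - T.2 * W.2) * J / D ^ 2,
        (T.1 * W.2 + T.2 * W.1) * J / D ^ 2) := rfl
    have h2 := cpx_floor (D ^ 2) (by positivity) ((T.1 * W.1 - T.2 * W.2) * J)
      ((T.1 * W.2 + T.2 * W.1) * J)
    have h2' : cpx ((T.1 * W.1 - T.2 * W.2) * J, (T.1 * W.2 + T.2 * W.1) * J) =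
        cpx T * cpx W * (J : ℂ) := by
      rw [← cpx_mul]
      unfold cpx
      push_cast
      ring
    rw [h2'] at h2
    rw [h1]
    set Z := cpx ((T.1 * W.1 - T.2 * W.2) * J / D ^ 2, (T.1 * W.2 + T.2 * W.1) * J / D ^ 2) with hZ
    set t := tn a c' n with ht
    have hnc : ((n : ℂ) + 1) ≠ 0 := by exact_mod_cast Nat.succ_ne_zero n
    have h3 : Z - (D : ℂ) * tn a c' (n + 1) = (Z - cpx T * cpx W * (J : ℂ) / ((D ^ 2 : ℤ) : ℂ)) +
        ((cpx T - (D : ℂ) * t) * (cpx W / (D : ℂ)) * ((J : ℂ) / (D : ℂ)) +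
          (t * (cpx W - cpx c * qa a ^ n) * ((J : ℂ) / (D : ℂ)) +
            t * (c' * qa a ^ n) * ((J : ℂ) - (D : ℂ) / ((n : ℂ) + 1)))) := by
      rw [tn_succ, ← ht, hc']
      push_cast
      field_simp
      ring
    have hwD : ‖cpx W / (D : ℂ)‖ ≤ R + 1 / 4 := by
      have e1 : cpx W / (D : ℂ) = (cpx W - cpx c * qa a ^ n) / (D : ℂ) + c' * qa a ^ n := by
        rw [hc']; ring
      rw [e1]
      refine (norm_add_le _ _).trans ?_
      rw [norm_div, norm_mul, norm_pow, norm_qa, one_pow, mul_one, Complex.norm_intCast,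
        abs_of_pos hD']
      have e2 : ‖cpx W - cpx c * qa a ^ n‖ / (D : ℝ) ≤ 1 / 4 := by
        rw [div_le_iff₀ hD']
        nlinarith
      linarith
    have hJD : ‖(J : ℂ) / (D : ℂ)‖ ≤ 1 / ((n : ℝ) + 1) := by
      rw [norm_div, Complex.norm_intCast, Complex.norm_intCast, abs_of_pos hD',
        abs_of_nonneg (by exact_mod_cast hJ0), div_le_iff₀ hD']
      refine hJle.trans (le_of_eq (by ring))
    have hJd : ‖(J : ℂ) - (D : ℂ) / ((n : ℂ) + 1)‖ ≤ 1 := by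
      have e1 : (J : ℂ) - (D : ℂ) / ((n : ℂ) + 1) = (((J : ℝ) - (D : ℝ) / ((n : ℝ) + 1) : ℝ) : ℂ) := by
        push_cast
        ring
      rw [e1, Complex.norm_real, Real.norm_eq_abs]
      exact hJr
    have htn : ‖t‖ ≤ R ^ n / (n.factorial : ℝ) := by
      rw [ht, norm_tn]
      gcongr
    have hEn := Er_nonneg hR n
    have hu0 : 0 ≤ R ^ n / (n.factorial : ℝ) := by positivity
    have h5 : ‖(cpx T - (D : ℂ) * t) * (cpx W / (D : ℂ)) * ((J : ℂ) / (D : ℂ))‖ ≤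
        Er R n * (R + 1 / 4) * (1 / ((n : ℝ) + 1)) := by
      rw [norm_mul, norm_mul]
      gcongr
    have h6 : ‖t * (cpx W - cpx c * qa a ^ n) * ((J : ℂ) / (D : ℂ))‖ ≤
        R ^ n / (n.factorial : ℝ) * ((n : ℝ) * (2 * R + 2)) * (1 / ((n : ℝ) + 1)) := by
      rw [norm_mul, norm_mul]
      gcongr
    have h7 : ‖t * (c' * qa a ^ n) * ((J : ℂ) - (D : ℂ) / ((n : ℂ) + 1))‖ ≤
        R ^ n / (n.factorial : ℝ) * R * 1 := by
      rw [norm_mul, norm_mul, norm_mul, norm_pow, norm_qa, one_pow, mul_one]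
      gcongr
    have h8 : R ^ n / (n.factorial : ℝ) * ((n : ℝ) * (2 * R + 2)) * (1 / ((n : ℝ) + 1)) ≤
        R ^ n / (n.factorial : ℝ) * (2 * R + 2) := by
      rw [mul_assoc]
      refine mul_le_mul_of_nonneg_left ?_ hu0
      rw [mul_one_div, div_le_iff₀ (by positivity)]
      nlinarith
    rw [h3]
    refine (norm_add_le _ _).trans ?_
    have h9 := norm_add_le ((cpx T - (D : ℂ) * t) * (cpx W / (D : ℂ)) * ((J : ℂ) / (D : ℂ)))
      (t * (cpx W - cpx c * qa a ^ n) * ((J : ℂ) / (D : ℂ)) +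
            t * (c' * qa a ^ n) * ((J : ℂ) - (D : ℂ) / ((n : ℂ) + 1)))
    have h10 := norm_add_le (t * (cpx W - cpx c * qa a ^ n) * ((J : ℂ) / (D : ℂ)))
      (t * (c' * qa a ^ n) * ((J : ℂ) - (D : ℂ) / ((n : ℂ) + 1)))
    have h11 : Er R (n + 1) = Er R n * (R + 1 / 4) * (1 / ((n : ℝ) + 1)) +
        (R ^ n / (n.factorial : ℝ) * (2 * R + 2) + R ^ n / (n.factorial : ℝ) * R * 1) + 3 / 2 := by
      have hn1' : (n : ℝ) + 1 ≠ 0 := by positivity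
      show Er R n * (4 * R + 1) / (4 * ((n : ℝ) + 1)) + (3 * R + 2) * (R ^ n / (n.factorial : ℝ)) +
        3 / 2 = _
      field_simp
      ring
    rw [h11]
    linarith

/-! ### Tails -/

theorem tail_geom {u : ℕ → ℝ} {N : ℕ} (h0 : ∀ n, 0 ≤ u n) (h : ∀ n, N ≤ n → u (n + 1) ≤ 3 / 4 * u n) :
    Summable (fun n => u (n + N)) ∧ ∑' n, u (n + N) ≤ 4 * u N := by
  have h1 : ∀ n, u (n + N) ≤ u N * (3 / 4) ^ n := by
    intro n
    induction n with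
    | zero => simp
    | succ n ih =>
      have := h (n + N) (by omega)
      rw [show n + 1 + N = n + N + 1 by ring, pow_succ]
      linarith
  have hg : Summable fun n : ℕ => u N * (3 / 4 : ℝ) ^ n :=
    (summable_geometric_of_lt_one (by norm_num) (by norm_num)).mul_left _
  have hs : Summable (fun n => u (n + N)) := Summable.of_nonneg_of_le (fun n => h0 _) h1 hg
  refine ⟨hs, ?_⟩
  calc ∑' n, u (n + N) ≤ ∑' n : ℕ, u N * (3 / 4 : ℝ) ^ n := hs.tsum_le_tsum h1 hg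
    _ = 4 * u N := by
      rw [tsum_mul_left, tsum_geometric_of_lt_one (by norm_num) (by norm_num)]
      ring

theorem tsum_geom {u : ℕ → ℝ} {N : ℕ} (h0 : ∀ n, 0 ≤ u n) (h : ∀ n, N ≤ n → u (n + 1) ≤ 3 / 4 * u n) :
    Summable u ∧ ∑' n, u n ≤ ∑ n ∈ range N, u n + 4 * u N := by
  obtain ⟨h1, h2⟩ := tail_geom h0 h
  have hs : Summable u := (summable_nat_add_iff N).1 h1
  refine ⟨hs, ?_⟩
  rw [← hs.sum_add_tsum_nat_add N]
  linarith

/-- the ratio condition at `N` -/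
structure RatOK (R : ℝ) (n0 N P : ℕ) (ρ : ℝ) : Prop where
  lt : n0 < N
  rat : 4 * R * ((N : ℝ) + 1 - n0) ^ P * Real.exp ρ ≤ 3 * ((N : ℝ) + 1) * ((N : ℝ) - n0) ^ P

theorem RatOK.mono {R : ℝ} {n0 N P : ℕ} {ρ ρ' : ℝ} (h : RatOK R n0 N P ρ) (hR : 0 ≤ R) (hρ : ρ' ≤ ρ) :
    RatOK R n0 N P ρ' := by
  refine ⟨h.lt, le_trans ?_ h.rat⟩
  have h1 : (n0 : ℝ) < N := by exact_mod_cast h.lt
  have h2 : 0 ≤ (N : ℝ) + 1 - n0 := by linarith
  gcongr

theorem RatOK.step {R : ℝ} {n0 N P : ℕ} {ρ : ℝ} (h : RatOK R n0 N P ρ) (hR : 0 ≤ R) {p n : ℕ}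
    (hp : p ≤ P) (hn : N ≤ n) :
    R / ((n : ℝ) + 1) * (((n : ℝ) + 1 - n0) / ((n : ℝ) - n0)) ^ p * Real.exp ρ ≤ 3 / 4 := by
  have h1 : (n0 : ℝ) < N := by exact_mod_cast h.lt
  have h2 : (N : ℝ) ≤ n := by exact_mod_cast hn
  have h3 : 0 < (N : ℝ) - n0 := by linarith
  have h4 : 0 < (n : ℝ) - n0 := by linarith
  have h5 : ((n : ℝ) + 1 - n0) / ((n : ℝ) - n0) ≤ ((N : ℝ) + 1 - n0) / ((N : ℝ) - n0) := by
    rw [div_le_div_iff₀ h4 h3]
    nlinarith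
  have h6 : 1 ≤ ((N : ℝ) + 1 - n0) / ((N : ℝ) - n0) := by
    rw [le_div_iff₀ h3]
    linarith
  have h7 : 0 ≤ ((n : ℝ) + 1 - n0) / ((n : ℝ) - n0) := by
    have : 0 ≤ (n : ℝ) + 1 - n0 := by linarith
    positivity
  have h8 : (((n : ℝ) + 1 - n0) / ((n : ℝ) - n0)) ^ p ≤
      (((N : ℝ) + 1 - n0) / ((N : ℝ) - n0)) ^ P :=
    (pow_le_pow_left₀ h7 h5 p).trans (pow_le_pow_right₀ h6 hp)
  have hN0 : (0 : ℝ) ≤ N := Nat.cast_nonneg N
  have h9 : R / ((n : ℝ) + 1) ≤ R / ((N : ℝ) + 1) := by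
    apply div_le_div_of_nonneg_left hR (by positivity) (by linarith)
  have h10 : R / ((N : ℝ) + 1) * (((N : ℝ) + 1 - n0) / ((N : ℝ) - n0)) ^ P * Real.exp ρ ≤ 3 / 4 := by
    rw [div_pow, div_mul_div_comm, div_mul_eq_mul_div, div_le_iff₀ (by positivity)]
    have := h.rat
    nlinarith
  refine le_trans ?_ h10
  have h11 : 0 ≤ R / ((n : ℝ) + 1) := by
    have : (0 : ℝ) ≤ n := Nat.cast_nonneg n
    positivity
  gcongr

/-- the general majorant -/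
noncomputable def gt (R : ℝ) (n0 p M : ℕ) (ρ d : ℝ) (n : ℕ) : ℝ :=
  R ^ n / (n.factorial : ℝ) * |jj n0 n| ^ p *
    (Real.exp (|jj n0 n| * ρ) * ((|jj n0 n| * ρ + |jj n0 n| ^ 2 * d) ^ M / (M.factorial : ℝ)))

theorem gt_nonneg {R : ℝ} (hR : 0 ≤ R) (n0 p M : ℕ) {ρ d : ℝ} (hρ : 0 ≤ ρ) (hd : 0 ≤ d) (n : ℕ) :
    0 ≤ gt R n0 p M ρ d n := by
  unfold gt
  positivity

theorem gt_step {R : ℝ} (hR : 0 ≤ R) {n0 N P p M : ℕ} {ρ d : ℝ} (hρ : 0 ≤ ρ) (hd : 0 ≤ d)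
    (h : RatOK R n0 N P ρ) (hP : p + 2 * M ≤ P) (n : ℕ) (hn : N ≤ n) :
    gt R n0 p M ρ d (n + 1) ≤ 3 / 4 * gt R n0 p M ρ d n := by
  have h1 : (n0 : ℝ) < N := by exact_mod_cast h.lt
  have h2 : (N : ℝ) ≤ n := by exact_mod_cast hn
  have hst := h.step hR hP hn
  have j0 : |jj n0 n| = (n : ℝ) - n0 := by
    unfold jj
    exact abs_of_nonneg (by linarith)
  have j1 : |jj n0 (n + 1)| = (n : ℝ) + 1 - n0 := by
    unfold jj
    push_cast
    exact abs_of_nonneg (by linarith)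
  unfold gt
  rw [j0, j1]
  set j : ℝ := (n : ℝ) - n0 with hj
  have hj0 : 0 < j := by linarith
  have e1 : (n : ℝ) + 1 - n0 = j + 1 := by rw [hj]; ring
  rw [e1] at hst ⊢
  set κ : ℝ := (j + 1) / j with hκ
  have hκ1 : 1 ≤ κ := by
    rw [hκ, le_div_iff₀ hj0]
    linarith
  have hκ0 : 0 < κ := by linarith
  have e2 : j + 1 = κ * j := by
    rw [hκ]
    field_simp
  have e3 : (j + 1) * ρ + (j + 1) ^ 2 * d ≤ κ ^ 2 * (j * ρ + j ^ 2 * d) := by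
    rw [e2]
    have : κ * j * ρ ≤ κ ^ 2 * (j * ρ) := by
      have h0 : 0 ≤ j * ρ := by positivity
      calc κ * j * ρ = κ * (j * ρ) := by ring
        _ ≤ κ * (κ * (j * ρ)) :=
          mul_le_mul_of_nonneg_left (le_mul_of_one_le_left h0 hκ1) hκ0.le
        _ = _ := by ring
    nlinarith
  have e4 : ((j + 1) * ρ + (j + 1) ^ 2 * d) ^ M ≤ (κ ^ 2 * (j * ρ + j ^ 2 * d)) ^ M := by
    have : 0 ≤ (j + 1) * ρ + (j + 1) ^ 2 * d := by positivity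
    exact pow_le_pow_left₀ this e3 M
  have hfac : (((n + 1).factorial : ℕ) : ℝ) = ((n : ℝ) + 1) * (n.factorial : ℝ) := by
    rw [Nat.factorial_succ]
    push_cast
    ring
  have hn0 : (0 : ℝ) ≤ n := Nat.cast_nonneg n
  rw [hfac]
  calc R ^ (n + 1) / (((n : ℝ) + 1) * (n.factorial : ℝ)) * (j + 1) ^ p *
        (Real.exp ((j + 1) * ρ) * (((j + 1) * ρ + (j + 1) ^ 2 * d) ^ M / (M.factorial : ℝ)))
      ≤ R ^ (n + 1) / (((n : ℝ) + 1) * (n.factorial : ℝ)) * (j + 1) ^ p *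
        (Real.exp ((j + 1) * ρ) * ((κ ^ 2 * (j * ρ + j ^ 2 * d)) ^ M / (M.factorial : ℝ))) := by
        gcongr
    _ = (R / ((n : ℝ) + 1) * κ ^ (p + 2 * M) * Real.exp ρ) *
        (R ^ n / (n.factorial : ℝ) * j ^ p * (Real.exp (j * ρ) *
          ((j * ρ + j ^ 2 * d) ^ M / (M.factorial : ℝ)))) := by
        rw [show (j + 1) * ρ = j * ρ + ρ by ring, Real.exp_add, mul_pow, ← pow_mul, pow_add κ,
          pow_succ R n]
        nth_rewrite 1 [e2]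
        rw [mul_pow]
        field_simp
    _ ≤ _ := by
        refine mul_le_mul_of_nonneg_right hst ?_
        positivity

theorem gt_sum {R : ℝ} (hR : 0 ≤ R) {n0 N P p M : ℕ} {ρ d : ℝ} (hρ : 0 ≤ ρ) (hd : 0 ≤ d)
    (h : RatOK R n0 N P ρ) (hP : p + 2 * M ≤ P) :
    Summable (gt R n0 p M ρ d) ∧
      ∑' n, gt R n0 p M ρ d n ≤ ∑ n ∈ range N, gt R n0 p M ρ d n + 4 * gt R n0 p M ρ d N :=
  tsum_geom (gt_nonneg hR n0 p M hρ hd) (gt_step hR hρ hd h hP)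

/-- the remainder bound, a finite sum -/
noncomputable def remB (R : ℝ) (n0 N p M : ℕ) (ρ δ : ℝ) : ℝ :=
  ∑ n ∈ range N, gt R n0 p M ρ (δ / 2) n + 4 * gt R n0 p M ρ (δ / 2) N

theorem RemS_le {r R : ℝ} (hr : 0 ≤ r) (hrR : r ≤ R) {n0 N P p M : ℕ} {ρ ρ' δ δ' : ℝ} (hρ : 0 ≤ ρ)
    (hρ' : ρ ≤ ρ') (hδ : 0 ≤ δ) (hδ' : δ ≤ δ')
    (h : RatOK R n0 N P ρ') (hP : p + 2 * M ≤ P) :
    RemS r n0 p M ρ δ ≤ remB R n0 N p M ρ' δ' := by
  obtain ⟨h1, h2⟩ := gt_sum (hr.trans hrR) (hρ.trans hρ') (show 0 ≤ δ' / 2 by linarith) h hP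
  refine le_trans ?_ h2
  have hR : 0 ≤ R := hr.trans hrR
  unfold RemS
  refine (summable_RemS hr n0 p M hρ hδ).tsum_le_tsum (fun n => ?_) h1
  unfold gt
  have h3 : 0 ≤ R ^ n / (n.factorial : ℝ) * |jj n0 n| ^ p := by positivity
  gcongr

/-! ### Moments -/

/-- bound of the error of the `p`-th moment -/
noncomputable def errM (D R : ℝ) (n0 N p : ℕ) : ℝ :=
  ∑ n ∈ range N, Er R n * |jj n0 n| ^ p + D * (4 * (R ^ N / (N.factorial : ℝ) * |jj n0 N| ^ p))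

theorem Mom_eq (D : ℤ) (c q : ℤ × ℤ) (n0 N p : ℕ) :
    Mom D c q n0 N p = ∑ n ∈ range N, cpx (Tsp D c q n) * (jj n0 n : ℂ) ^ p := by
  unfold Mom Mre Mim cpx jj
  push_cast
  rw [Finset.sum_mul, ← Finset.sum_add_distrib]
  refine Finset.sum_congr rfl fun n _ => ?_
  ring

theorem Mom_err {D : ℤ} (hD : 0 < D) {c q : ℤ × ℤ} {a R : ℝ} (hR : 0 ≤ R)
    (hq : ‖cpx q / (D : ℂ) - qa a‖ ≤ 2 / (D : ℝ)) (hc : ‖cpx c‖ ≤ R * D) {n0 N P p : ℕ}
    (hN : 8 * (N : ℝ) * (R + 1) ≤ D) {ρ : ℝ} (hρ : 0 ≤ ρ) (h : RatOK R n0 N P ρ) (hP : p ≤ P) :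
    ‖Mom D c q n0 N p - (D : ℂ) * Mo a (cpx c / (D : ℂ)) n0 p‖ ≤ errM D R n0 N p := by
  have hD' : (0 : ℝ) < D := by exact_mod_cast hD
  set c' := cpx c / (D : ℂ) with hc'
  have hcR : ‖c'‖ ≤ R := by
    rw [hc', norm_div, Complex.norm_intCast, abs_of_pos hD', div_le_iff₀ hD']
    exact hc
  have hs := summable_Mo a c' n0 p
  have hg := gt_step (p := p) (M := 0) hR (le_refl (0 : ℝ)) (le_refl (0 : ℝ))
    (h.mono hR hρ) (by omega)
  have hgt : ∀ n, gt R n0 p 0 0 0 n = R ^ n / (n.factorial : ℝ) * |jj n0 n| ^ p := by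
    intro n
    unfold gt
    simp
  obtain ⟨hg1, hg2⟩ := tail_geom (gt_nonneg hR n0 p 0 (le_refl (0 : ℝ)) (le_refl (0 : ℝ))) hg
  have htail : ‖∑' n : ℕ, tn a c' (n + N) * (jj n0 (n + N) : ℂ) ^ p‖ ≤
      4 * (R ^ N / (N.factorial : ℝ) * |jj n0 N| ^ p) := by
    rw [← hgt N]
    refine le_trans (tsum_of_norm_bounded hg1.hasSum fun n => ?_) hg2
    rw [norm_mul, norm_tn, norm_pow, Complex.norm_real, Real.norm_eq_abs, hgt]
    gcongr
  unfold Mo errM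
  rw [Mom_eq, ← hs.sum_add_tsum_nat_add N]
  have e1 : ∑ n ∈ range N, cpx (Tsp D c q n) * (jj n0 n : ℂ) ^ p -
      (D : ℂ) * (∑ n ∈ range N, tn a c' n * (jj n0 n : ℂ) ^ p +
        ∑' n : ℕ, tn a c' (n + N) * (jj n0 (n + N) : ℂ) ^ p) =
      ∑ n ∈ range N, (cpx (Tsp D c q n) - (D : ℂ) * tn a c' n) * (jj n0 n : ℂ) ^ p -
        (D : ℂ) * ∑' n : ℕ, tn a c' (n + N) * (jj n0 (n + N) : ℂ) ^ p := by
    have : ∑ n ∈ range N, (cpx (Tsp D c q n) - (D : ℂ) * tn a c' n) * (jj n0 n : ℂ) ^ p =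
        ∑ n ∈ range N, cpx (Tsp D c q n) * (jj n0 n : ℂ) ^ p -
          (D : ℂ) * ∑ n ∈ range N, tn a c' n * (jj n0 n : ℂ) ^ p := by
      rw [Finset.mul_sum, ← Finset.sum_sub_distrib]
      refine Finset.sum_congr rfl fun n _ => ?_
      ring
    rw [this]
    ring
  rw [e1]
  refine (norm_sub_le _ _).trans (add_le_add ?_ ?_)
  · refine (norm_sum_le _ _).trans (Finset.sum_le_sum fun n hn => ?_)
    rw [norm_mul, norm_pow, Complex.norm_real, Real.norm_eq_abs]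
    have := Tsp_err hD hR hq hc hN n (Finset.mem_range.1 hn).le
    gcongr
  · rw [norm_mul, Complex.norm_intCast, abs_of_pos hD']
    gcongr

end SokalFU
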