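import Pool.Agent.Lib_MP_af4de1_fu.TubB2
import Pool.Agent.Lib_MP_af4de1_fu.Ev

/-!
# The class check

`clsCheck : ClsI → Bool`, `clsCheck K = true → ClsOK K.toCls`.
-/

set_option autoImplicit false

namespace SokalFU

open Finset (range)

/-! ### Auxiliary real facts -/

theorem nat_div_succ_ge (a b : ℕ) (hb : 0 < b) : (a : ℝ) / b ≤ ((a / b : ℕ) : ℝ) + 1 := by
  have hb' : (0 : ℝ) < b := by exact_mod_cast hb
  rw [div_le_iff₀ hb']
  have h := Nat.lt_div_mul_add (a := a) hb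
  have h' : a ≤ (a / b + 1) * b := by
    rw [add_mul, one_mul]
    exact h.le
  exact_mod_cast h'

theorem shiftRight_div (a s : ℕ) : Nat.shiftRight a s = a / 2 ^ s := Nat.shiftRight_eq_div_pow a s

/-! ### The exponential -/

/-- upper bound of `2^60 e^(x/2^40)` -/
def expU (x : ℕ) : ℕ :=
  Nat.rec (Nat.succ (Nat.div (Nat.pow 2 116) (Nat.sub (Nat.pow 2 56) x)))
    (fun _ v => Nat.succ (Nat.shiftRight (Nat.pow v 2) 60)) 16

/-- general form of `expU` -/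
def eV (T G x : ℕ) : ℕ → ℕ
  | 0 => G * T / (T - x) + 1
  | i + 1 => (eV T G x i) ^ 2 / G + 1

theorem eV_spec {T G x : ℕ} (hG : 0 < G) (hx : x < T) (i : ℕ) :
    Real.exp (2 ^ i * ((x : ℝ) / T)) ≤ (eV T G x i : ℝ) / G := by
  have hx' : (x : ℝ) < T := by exact_mod_cast hx
  have hG' : (0 : ℝ) < G := by exact_mod_cast hG
  have hT' : (0 : ℝ) < T := lt_of_le_of_lt (Nat.cast_nonneg x) hx'
  have h6 : 0 < (T : ℝ) - x := by linarith
  induction i with
  | zero =>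
    have h1 := nat_div_succ_ge (G * T) (T - x) (by omega)
    have h2 : (((T - x : ℕ)) : ℝ) = (T : ℝ) - (x : ℝ) := Nat.cast_sub hx.le
    rw [h2] at h1
    rw [pow_zero, one_mul]
    have h3 : Real.exp ((x : ℝ) / T) * (1 - (x : ℝ) / T) ≤ 1 := by
      have h4 := Real.add_one_le_exp (-((x : ℝ) / T))
      have h5 : Real.exp ((x : ℝ) / T) * Real.exp (-((x : ℝ) / T)) = 1 := by
        rw [← Real.exp_add]
        simp
      rw [← h5]
      exact mul_le_mul_of_nonneg_left (by linarith) (Real.exp_pos _).le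
    have h7 : Real.exp ((x : ℝ) / T) ≤ T / ((T : ℝ) - (x : ℝ)) := by
      rw [le_div_iff₀ h6]
      have : (T : ℝ) - x = (1 - (x : ℝ) / T) * T := by field_simp
      rw [this, ← mul_assoc]
      nlinarith
    rw [le_div_iff₀ hG']
    calc Real.exp ((x : ℝ) / T) * G ≤ T / ((T : ℝ) - (x : ℝ)) * G :=
          mul_le_mul_of_nonneg_right h7 hG'.le
      _ = ((G * T : ℕ) : ℝ) / ((T : ℝ) - (x : ℝ)) := by push_cast; ring
      _ ≤ ((G * T / (T - x) : ℕ) : ℝ) + 1 := h1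
      _ = (eV T G x 0 : ℝ) := by
        unfold eV
        push_cast
        ring
  | succ i ih =>
    have h1 := nat_div_succ_ge ((eV T G x i) ^ 2) G hG
    have h2 : Real.exp (2 ^ (i + 1) * ((x : ℝ) / T)) = Real.exp (2 ^ i * ((x : ℝ) / T)) ^ 2 := by
      rw [← Real.exp_nat_mul]
      congr 1
      push_cast
      ring
    rw [h2, le_div_iff₀ hG']
    have h3 : Real.exp (2 ^ i * ((x : ℝ) / T)) ^ 2 ≤ ((eV T G x i : ℝ) / G) ^ 2 :=
      pow_le_pow_left₀ (Real.exp_pos _).le ih 2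
    calc Real.exp (2 ^ i * ((x : ℝ) / T)) ^ 2 * G ≤ ((eV T G x i : ℝ) / G) ^ 2 * G :=
          mul_le_mul_of_nonneg_right h3 hG'.le
      _ = ((eV T G x i ^ 2 : ℕ) : ℝ) / G := by
          push_cast
          field_simp
      _ ≤ ((eV T G x i ^ 2 / G : ℕ) : ℝ) + 1 := h1
      _ = (eV T G x (i + 1) : ℝ) := by
        show _ = ((eV T G x i ^ 2 / G + 1 : ℕ) : ℝ)
        push_cast
        ring

theorem expU_eq (x : ℕ) : expU x = eV (2 ^ 56) (2 ^ 60) x 16 := by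
  have h : ∀ i : ℕ, (Nat.rec (Nat.succ (Nat.div (Nat.pow 2 116) (Nat.sub (Nat.pow 2 56) x)))
      (fun _ v => Nat.succ (Nat.shiftRight (Nat.pow v 2) 60)) i : ℕ) = eV (2 ^ 56) (2 ^ 60) x i := by
    intro i
    induction i with
    | zero =>
      show 2 ^ 116 / (2 ^ 56 - x) + 1 = 2 ^ 60 * 2 ^ 56 / (2 ^ 56 - x) + 1
      rw [← pow_add]
    | succ i ih =>
      show Nat.succ (Nat.shiftRight (Nat.pow _ 2) 60) = eV (2 ^ 56) (2 ^ 60) x i ^ 2 / 2 ^ 60 + 1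
      rw [ih, shiftRight_div]
      rfl
  exact h 16

theorem expU_spec {x : ℕ} (hx : x < 2 ^ 56) : Real.exp ((x : ℝ) / 2 ^ 40) ≤ (expU x : ℝ) / 2 ^ 60 := by
  have h := eV_spec (T := 2 ^ 56) (G := 2 ^ 60) (by positivity) hx 16
  rw [← expU_eq] at h
  have h2 : (2 : ℝ) ^ 16 * ((x : ℝ) / ((2 ^ 56 : ℕ) : ℝ)) = (x : ℝ) / 2 ^ 40 := by
    push_cast
    ring
  have h3 : ((2 ^ 60 : ℕ) : ℝ) = (2 : ℝ) ^ 60 := by push_cast; ring
  rw [h2, h3] at h
  exact h

/-! ### The sequences `u`, `E` -/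

/-- step of `u` -/
def uNe (R n u : ℕ) : ℕ := Nat.succ (Nat.div (Nat.mul u R) (Nat.succ n))

/-- step of `E` -/
def eNe (S R n u e : ℕ) : ℕ :=
  Nat.add (Nat.add (Nat.div (Nat.mul e (Nat.succ (Nat.mul 4 R))) (Nat.mul 4 (Nat.succ n)))
    (Nat.shiftRight (Nat.mul (Nat.add (Nat.mul 3 R) 2) u) S)) 4

/-- `u_n ≥ 2^S R^n/n!` -/
def uS (S R : ℕ) : ℕ → ℕ
  | 0 => 2 ^ S
  | n + 1 => uNe R n (uS S R n)

/-- `E_n ≥ Er R n` -/
def eS (S R : ℕ) : ℕ → ℕ
  | 0 => 0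
  | n + 1 => eNe S R n (uS S R n) (eS S R n)

theorem uS_spec (S R n : ℕ) : (2 : ℝ) ^ S * ((R : ℝ) ^ n / (n.factorial : ℝ)) ≤ uS S R n := by
  induction n with
  | zero => simp [uS]
  | succ n ih =>
    show _ ≤ ((uS S R n * R / (n + 1) + 1 : ℕ) : ℝ)
    have h1 := nat_div_succ_ge (uS S R n * R) (n + 1) (by omega)
    have h2 : (2 : ℝ) ^ S * ((R : ℝ) ^ (n + 1) / ((n + 1).factorial : ℝ)) =
        (2 : ℝ) ^ S * ((R : ℝ) ^ n / (n.factorial : ℝ)) * R / ((n : ℝ) + 1) := by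
      rw [Nat.factorial_succ, pow_succ]
      have e1 : (n.factorial : ℝ) ≠ 0 := by exact_mod_cast Nat.factorial_ne_zero n
      have e2 : ((n : ℝ) + 1) ≠ 0 := by positivity
      push_cast
      field_simp
    rw [h2, Nat.cast_add, Nat.cast_one]
    push_cast at h1
    refine le_trans ?_ h1
    gcongr

theorem eS_spec (S R n : ℕ) : Er R n ≤ eS S R n := by
  induction n with
  | zero => simp [Er, eS]
  | succ n ih =>
    show Er R n * (4 * (R : ℝ) + 1) / (4 * ((n : ℝ) + 1)) +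
      (3 * (R : ℝ) + 2) * ((R : ℝ) ^ n / (n.factorial : ℝ)) + 3 / 2 ≤
      ((eS S R n * (4 * R + 1) / (4 * (n + 1)) + Nat.shiftRight ((3 * R + 2) * uS S R n) S + 4 : ℕ) : ℝ)
    rw [shiftRight_div]
    have h1 := nat_div_succ_ge (eS S R n * (4 * R + 1)) (4 * (n + 1)) (by omega)
    have h2 := nat_div_succ_ge ((3 * R + 2) * uS S R n) (2 ^ S) (by positivity)
    have h3 := uS_spec S R n
    have h4 : (3 * (R : ℝ) + 2) * ((R : ℝ) ^ n / (n.factorial : ℝ)) ≤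
        (3 * (R : ℝ) + 2) * (uS S R n : ℝ) / 2 ^ S := by
      rw [le_div_iff₀ (by positivity)]
      have : (3 * (R : ℝ) + 2) * ((R : ℝ) ^ n / (n.factorial : ℝ)) * 2 ^ S =
        (3 * (R : ℝ) + 2) * ((2 : ℝ) ^ S * ((R : ℝ) ^ n / (n.factorial : ℝ))) := by ring
      rw [this]
      gcongr
    have h5 : Er R n * (4 * (R : ℝ) + 1) / (4 * ((n : ℝ) + 1)) ≤
        (eS S R n : ℝ) * (4 * (R : ℝ) + 1) / (4 * ((n : ℝ) + 1)) := by gcongr
    push_cast at h1 h2 ⊢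
    linarith

/-! ### Horner sums -/

/-- Horner sum of the first components -/
def hV1 (j u : ℕ) (l : List (ℕ × ℕ)) : ℕ :=
  List.rec 0 (fun w _ ih => Nat.succ (Nat.add w.1 (Nat.shiftRight (Nat.mul j ih) u))) l

/-- Horner sum of the second components -/
def hV0 (j u : ℕ) (l : List (ℕ × ℕ)) : ℕ :=
  List.rec 0 (fun w _ ih => Nat.succ (Nat.add w.2 (Nat.shiftRight (Nat.mul j ih) u))) l

theorem hV1_cons (j u : ℕ) (w : ℕ × ℕ) (l : List (ℕ × ℕ)) :
    hV1 j u (w :: l) = w.1 + j * hV1 j u l / 2 ^ u + 1 := by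
  show Nat.succ (w.1 + Nat.shiftRight (j * hV1 j u l) u) = _
  rw [shiftRight_div]

theorem hV0_cons (j u : ℕ) (w : ℕ × ℕ) (l : List (ℕ × ℕ)) :
    hV0 j u (w :: l) = w.2 + j * hV0 j u l / 2 ^ u + 1 := by
  show Nat.succ (w.2 + Nat.shiftRight (j * hV0 j u l) u) = _
  rw [shiftRight_div]

theorem hV1_mono {j j' : ℕ} (h : j ≤ j') (u : ℕ) (l : List (ℕ × ℕ)) : hV1 j u l ≤ hV1 j' u l := by
  induction l with
  | nil => exact le_rfl
  | cons w l ih =>
    rw [hV1_cons, hV1_cons]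
    have : j * hV1 j u l / 2 ^ u ≤ j' * hV1 j' u l / 2 ^ u :=
      Nat.div_le_div_right (Nat.mul_le_mul h ih)
    omega

theorem hV0_mono {j j' : ℕ} (h : j ≤ j') (u : ℕ) (l : List (ℕ × ℕ)) : hV0 j u l ≤ hV0 j' u l := by
  induction l with
  | nil => exact le_rfl
  | cons w l ih =>
    rw [hV0_cons, hV0_cons]
    have : j * hV0 j u l / 2 ^ u ≤ j' * hV0 j' u l / 2 ^ u :=
      Nat.div_le_div_right (Nat.mul_le_mul h ih)
    omega

theorem hV1_spec (j u : ℕ) (l : List (ℕ × ℕ)) (m : ℕ) :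
    ∑ i ∈ range m, ((l.getD i (0, 0)).1 : ℝ) * ((j : ℝ) / 2 ^ u) ^ i ≤ hV1 j u l := by
  induction l generalizing m with
  | nil => simp [hV1]
  | cons w l ih =>
    rw [hV1_cons]
    rcases m with _ | m
    · simp only [Finset.range_zero, Finset.sum_empty]
      positivity
    · rw [Finset.sum_range_succ']
      simp only [List.getD_cons_succ, List.getD_cons_zero, pow_zero, mul_one, pow_succ]
      have h1 := ih m
      have h2 := nat_div_succ_ge (j * hV1 j u l) (2 ^ u) (by positivity)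
      have h3 : ∑ i ∈ range m, ((l.getD i (0, 0)).1 : ℝ) * (((j : ℝ) / 2 ^ u) ^ i * ((j : ℝ) / 2 ^ u)) =
          (j : ℝ) / 2 ^ u * ∑ i ∈ range m, ((l.getD i (0, 0)).1 : ℝ) * ((j : ℝ) / 2 ^ u) ^ i := by
        rw [Finset.mul_sum]
        refine Finset.sum_congr rfl fun i _ => ?_
        ring
      rw [h3]
      have h4 : (j : ℝ) / 2 ^ u * ∑ i ∈ range m, ((l.getD i (0, 0)).1 : ℝ) * ((j : ℝ) / 2 ^ u) ^ i ≤
          (j : ℝ) / 2 ^ u * (hV1 j u l : ℝ) := by gcongr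
      push_cast at h2 ⊢
      have h5 : (j : ℝ) / 2 ^ u * (hV1 j u l : ℝ) = (j : ℝ) * (hV1 j u l : ℝ) / 2 ^ u := by ring
      linarith

theorem hV0_spec (j u : ℕ) (l : List (ℕ × ℕ)) (m : ℕ) :
    ∑ i ∈ range m, ((l.getD i (0, 0)).2 : ℝ) * ((j : ℝ) / 2 ^ u) ^ i ≤ hV0 j u l := by
  induction l generalizing m with
  | nil => simp [hV0]
  | cons w l ih =>
    rw [hV0_cons]
    rcases m with _ | m
    · simp only [Finset.range_zero, Finset.sum_empty]
      positivity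
    · rw [Finset.sum_range_succ']
      simp only [List.getD_cons_succ, List.getD_cons_zero, pow_zero, mul_one, pow_succ]
      have h1 := ih m
      have h2 := nat_div_succ_ge (j * hV0 j u l) (2 ^ u) (by positivity)
      have h3 : ∑ i ∈ range m, ((l.getD i (0, 0)).2 : ℝ) * (((j : ℝ) / 2 ^ u) ^ i * ((j : ℝ) / 2 ^ u)) =
          (j : ℝ) / 2 ^ u * ∑ i ∈ range m, ((l.getD i (0, 0)).2 : ℝ) * ((j : ℝ) / 2 ^ u) ^ i := by
        rw [Finset.mul_sum]
        refine Finset.sum_congr rfl fun i _ => ?_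
        ring
      rw [h3]
      have h4 : (j : ℝ) / 2 ^ u * ∑ i ∈ range m, ((l.getD i (0, 0)).2 : ℝ) * ((j : ℝ) / 2 ^ u) ^ i ≤
          (j : ℝ) / 2 ^ u * (hV0 j u l : ℝ) := by gcongr
      push_cast at h2 ⊢
      have h5 : (j : ℝ) / 2 ^ u * (hV0 j u l : ℝ) = (j : ℝ) * (hV0 j u l : ℝ) / 2 ^ u := by ring
      linarith

end SokalFU
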