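import Pool.Agent.Lib_MP_af4de1_fu.Spec

/-!
# The weights of the tube test by the Hermite recursion

`Wf p = ∑_(b ≤ p/2) ρ^(p-2b) (δ/2)^b / ((p-2b)! b!)`, `(p + 2) Wf (p + 2) = ρ Wf (p + 1) + δ Wf p`; the truncated sum `Wt` is smaller.
-/

set_option autoImplicit false

namespace SokalFU

open Finset

/-- the full weights, by recursion -/
noncomputable def Wf (ρ δ : ℝ) : ℕ → ℝ
  | 0 => 1
  | 1 => ρ
  | p + 2 => (ρ * Wf ρ δ (p + 1) + δ * Wf ρ δ p) / ((p : ℝ) + 2)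

/-- the term of the full sum with `a + 2 b = p`, and `0` if `2 b > p` -/
private noncomputable def wterm (ρ δ : ℝ) (p b : ℕ) : ℝ :=
  if 2 * b ≤ p then ρ ^ (p - 2 * b) * (δ / 2) ^ b / (((p - 2 * b).factorial : ℝ) * (b.factorial : ℝ)) else 0

/-- the full sum over any long enough range -/
private noncomputable def wsum (ρ δ : ℝ) (n p : ℕ) : ℝ := ∑ b ∈ range n, wterm ρ δ p b

private lemma wterm_nonneg {ρ δ : ℝ} (hρ : 0 ≤ ρ) (hδ : 0 ≤ δ) (p b : ℕ) : 0 ≤ wterm ρ δ p b := by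
  unfold wterm
  split_ifs
  · positivity
  · exact le_rfl

private lemma wterm_zero_of {ρ δ : ℝ} {p b : ℕ} (h : p < 2 * b) : wterm ρ δ p b = 0 := by
  unfold wterm
  rw [if_neg (by omega)]

/-- `(p + 2) w(p + 2, b) = ρ w(p + 1, b) + δ w(p, b - 1)` -/
private lemma wterm_rec_succ (ρ δ : ℝ) (p b : ℕ) :
    ((p : ℝ) + 2) * wterm ρ δ (p + 2) (b + 1) = ρ * wterm ρ δ (p + 1) (b + 1) + δ * wterm ρ δ p b := by
  by_cases h : 2 * b ≤ p
  · obtain ⟨a, rfl⟩ := Nat.exists_eq_add_of_le h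
    -- `p = 2 b + a`
    have h1 : wterm ρ δ (2 * b + a + 2) (b + 1) =
        ρ ^ a * (δ / 2) ^ (b + 1) / ((a.factorial : ℝ) * ((b + 1).factorial : ℝ)) := by
      unfold wterm
      rw [if_pos (by omega), show 2 * b + a + 2 - 2 * (b + 1) = a by omega]
    have h2 : wterm ρ δ (2 * b + a) b = ρ ^ a * (δ / 2) ^ b / ((a.factorial : ℝ) * (b.factorial : ℝ)) := by
      unfold wterm
      rw [if_pos (by omega), show 2 * b + a - 2 * b = a by omega]
    have fa : (0 : ℝ) < (a.factorial : ℝ) := by exact_mod_cast a.factorial_pos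
    have fb : (0 : ℝ) < (b.factorial : ℝ) := by exact_mod_cast b.factorial_pos
    rcases a with _ | a
    · have h3 : wterm ρ δ (2 * b + 0 + 1) (b + 1) = 0 := wterm_zero_of (by omega)
      rw [h1, h2, h3, Nat.factorial_succ b]
      have hb : (0 : ℝ) < (b : ℝ) + 1 := by positivity
      push_cast
      field_simp
      ring
    · have h3 : wterm ρ δ (2 * b + (a + 1) + 1) (b + 1) =
          ρ ^ a * (δ / 2) ^ (b + 1) / ((a.factorial : ℝ) * ((b + 1).factorial : ℝ)) := by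
        unfold wterm
        rw [if_pos (by omega), show 2 * b + (a + 1) + 1 - 2 * (b + 1) = a by omega]
      have fa' : (0 : ℝ) < (a.factorial : ℝ) := by exact_mod_cast a.factorial_pos
      rw [h1, h2, h3, Nat.factorial_succ b, Nat.factorial_succ a]
      have hb : (0 : ℝ) < (b : ℝ) + 1 := by positivity
      have ha : (0 : ℝ) < (a : ℝ) + 1 := by positivity
      push_cast
      field_simp
      ring
  · rw [wterm_zero_of (p := p + 2) (b := b + 1) (by omega), wterm_zero_of (p := p + 1) (b := b + 1) (by omega),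
      wterm_zero_of (p := p) (b := b) (by omega)]
    ring

private lemma wterm_rec_zero (ρ δ : ℝ) (p : ℕ) :
    ((p : ℝ) + 2) * wterm ρ δ (p + 2) 0 = ρ * wterm ρ δ (p + 1) 0 := by
  unfold wterm
  rw [if_pos (by omega), if_pos (by omega)]
  simp only [mul_zero, Nat.sub_zero, pow_zero, mul_one, Nat.factorial_zero, Nat.cast_one]
  rw [show p + 2 = (p + 1) + 1 by ring, Nat.factorial_succ (p + 1), pow_succ]
  have f : (0 : ℝ) < ((p + 1).factorial : ℝ) := by exact_mod_cast (p + 1).factorial_pos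
  have hp : (0 : ℝ) < (p : ℝ) + 2 := by positivity
  push_cast
  field_simp
  ring

private lemma wsum_rec (ρ δ : ℝ) (n p : ℕ) :
    ((p : ℝ) + 2) * wsum ρ δ (n + 1) (p + 2) = ρ * wsum ρ δ (n + 1) (p + 1) + δ * wsum ρ δ n p := by
  unfold wsum
  rw [sum_range_succ', sum_range_succ' (fun b => wterm ρ δ (p + 1) b), mul_add, wterm_rec_zero, mul_sum, mul_add,
    mul_sum, mul_sum]
  rw [sum_congr rfl fun b _ => wterm_rec_succ ρ δ p b, sum_add_distrib]
  ring

private lemma wsum_eq_of_le (ρ δ : ℝ) {n p : ℕ} (h : p / 2 + 1 ≤ n) :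
    wsum ρ δ n p = wsum ρ δ (p / 2 + 1) p := by
  unfold wsum
  symm
  refine sum_subset (range_subset_range.2 h) fun b _ hb => ?_
  rw [mem_range] at hb
  exact wterm_zero_of (by omega)

private lemma wsum_eq_Wf (ρ δ : ℝ) : ∀ p : ℕ, wsum ρ δ (p / 2 + 1) p = Wf ρ δ p ∧
    wsum ρ δ ((p + 1) / 2 + 1) (p + 1) = Wf ρ δ (p + 1)
  | 0 => by
    constructor
    · simp [wsum, wterm, Wf]
    · simp [wsum, wterm, Wf]
  | p + 1 => by
    obtain ⟨h1, h2⟩ := wsum_eq_Wf ρ δ p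
    refine ⟨h2, ?_⟩
    have h3 := wsum_rec ρ δ (p / 2 + 1) p
    rw [h1, wsum_eq_of_le ρ δ (n := p / 2 + 1 + 1) (p := p + 1) (by omega), h2] at h3
    have h4 : (p + 1 + 1) / 2 + 1 = p / 2 + 1 + 1 := by omega
    rw [h4]
    show wsum ρ δ (p / 2 + 1 + 1) (p + 2) = (ρ * Wf ρ δ (p + 1) + δ * Wf ρ δ p) / ((p : ℝ) + 2)
    have hp : (0 : ℝ) < (p : ℝ) + 2 := by positivity
    rw [eq_div_iff hp.ne', mul_comm, h3]

theorem Wf_nonneg {ρ δ : ℝ} (hρ : 0 ≤ ρ) (hδ : 0 ≤ δ) (p : ℕ) : 0 ≤ Wf ρ δ p := by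
  rw [← (wsum_eq_Wf ρ δ p).1]
  exact sum_nonneg fun b _ => wterm_nonneg hρ hδ p b

theorem Wt_le_Wf (M p : ℕ) {ρ δ : ℝ} (hρ : 0 ≤ ρ) (hδ : 0 ≤ δ) : Wt M p ρ δ ≤ Wf ρ δ p := by
  rw [← (wsum_eq_Wf ρ δ p).1]
  unfold Wt wsum
  calc _ ≤ ∑ b ∈ range (p / 2 + 1), ρ ^ (p - 2 * b) * (δ / 2) ^ b / ((p - 2 * b).factorial * b.factorial) :=
        sum_le_sum_of_subset_of_nonneg (filter_subset _ _) fun b _ _ => by positivity
    _ = ∑ b ∈ range (p / 2 + 1), wterm ρ δ p b := by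
        refine sum_congr rfl fun b hb => ?_
        rw [mem_range] at hb
        unfold wterm
        rw [if_pos (by omega)]

end SokalFU
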