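import Pool.Agent.Lib_MP_af4de1_fu.TubC
import Pool.Agent.Lib_MP_af4de1_fu.WtRec

/-!
# The class check: loops and soundness

`clsCheck : ClsI → Bool`, `clsCheck K = true → ClsOK K.toCls`.
-/

set_option autoImplicit false

namespace SokalFU

open Finset (range)

/-! ### Weights -/

/-- check of the weights (first components) -/
def wc1 (rho del u : ℕ) (l : List (ℕ × ℕ)) : ℕ → ℕ → ℕ → Bool :=
  List.rec (motive := fun _ => ℕ → ℕ → ℕ → Bool) (fun _ _ _ => true)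
    (fun w _ ih p xm x =>
      and (Nat.ble (Nat.add (Nat.mul (Nat.mul (Nat.pow 2 u) rho) x)
        (Nat.mul (Nat.mul (Nat.pow 2 (Nat.mul 2 u)) del) xm))
        (Nat.mul (Nat.mul (Nat.succ p) (Nat.pow 2 40)) w.1)) (ih (Nat.succ p) x w.1)) l

/-- check of the weights (second components), up to degree `L` -/
def wc0 (rho del u L : ℕ) (l : List (ℕ × ℕ)) : ℕ → ℕ → ℕ → Bool :=
  List.rec (motive := fun _ => ℕ → ℕ → ℕ → Bool) (fun _ _ _ => true)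
    (fun w _ ih p xm x =>
      or (Nat.ble L p) (and (Nat.ble (Nat.add (Nat.mul (Nat.mul (Nat.pow 2 u) rho) x)
        (Nat.mul (Nat.mul (Nat.pow 2 (Nat.mul 2 u)) del) xm))
        (Nat.mul (Nat.mul (Nat.succ p) (Nat.pow 2 40)) w.2)) (ih (Nat.succ p) x w.2))) l

/-- shifted weights -/
noncomputable def Wx (ρ δ : ℝ) : ℕ → ℝ
  | 0 => 0
  | p + 1 => Wf ρ δ p

theorem Wf_rec (ρ δ : ℝ) (p : ℕ) : ((p : ℝ) + 1) * Wf ρ δ (p + 1) = ρ * Wf ρ δ p + δ * Wx ρ δ p := by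
  rcases p with _ | p
  · simp [Wf, Wx]
  · show ((((p + 1 : ℕ) : ℝ)) + 1) * ((ρ * Wf ρ δ (p + 1) + δ * Wf ρ δ p) / ((p : ℝ) + 2)) =
      ρ * Wf ρ δ (p + 1) + δ * Wf ρ δ p
    push_cast
    have : (p : ℝ) + 1 + 1 ≠ 0 := by positivity
    have h2 : (p : ℝ) + 2 = (p : ℝ) + 1 + 1 := by ring
    rw [h2]
    field_simp

theorem weight_step {rho del u k p xm x w : ℕ}
    (hc : 2 ^ u * rho * x + 2 ^ (2 * u) * del * xm ≤ (p + 1) * 2 ^ 40 * w)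
    (h1 : Wx ((rho : ℝ) / 2 ^ 40) ((del : ℝ) / 2 ^ 40) p ≤ (xm : ℝ) * 2 ^ u / 2 ^ (k + u * p))
    (h2 : Wf ((rho : ℝ) / 2 ^ 40) ((del : ℝ) / 2 ^ 40) p ≤ (x : ℝ) / 2 ^ (k + u * p)) :
    Wf ((rho : ℝ) / 2 ^ 40) ((del : ℝ) / 2 ^ 40) (p + 1) ≤ (w : ℝ) / 2 ^ (k + u * (p + 1)) := by
  have h3 := Wf_rec ((rho : ℝ) / 2 ^ 40) ((del : ℝ) / 2 ^ 40) p
  have hc' : (2 : ℝ) ^ u * rho * x + 2 ^ (2 * u) * del * xm ≤ (p + 1) * 2 ^ 40 * w := by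
    exact_mod_cast hc
  have hp : (0 : ℝ) < (p : ℝ) + 1 := by positivity
  rw [← mul_le_mul_iff_right₀ hp, h3]
  have e1 : (rho : ℝ) / 2 ^ 40 * Wf ((rho : ℝ) / 2 ^ 40) ((del : ℝ) / 2 ^ 40) p ≤
      (rho : ℝ) / 2 ^ 40 * ((x : ℝ) / 2 ^ (k + u * p)) := mul_le_mul_of_nonneg_left h2 (by positivity)
  have e2 : (del : ℝ) / 2 ^ 40 * Wx ((rho : ℝ) / 2 ^ 40) ((del : ℝ) / 2 ^ 40) p ≤
      (del : ℝ) / 2 ^ 40 * ((xm : ℝ) * 2 ^ u / 2 ^ (k + u * p)) :=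
    mul_le_mul_of_nonneg_left h1 (by positivity)
  refine (add_le_add e1 e2).trans ?_
  have e3 : (rho : ℝ) / 2 ^ 40 * ((x : ℝ) / 2 ^ (k + u * p)) +
      (del : ℝ) / 2 ^ 40 * ((xm : ℝ) * 2 ^ u / 2 ^ (k + u * p)) =
      ((2 : ℝ) ^ u * rho * x + 2 ^ (2 * u) * del * xm) / (2 ^ 40 * 2 ^ (k + u * (p + 1))) := by
    rw [show k + u * (p + 1) = (k + u * p) + u by ring, pow_add 2 (k + u * p) u,
      show 2 * u = u + u by ring, pow_add 2 u u]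
    field_simp
  rw [e3, div_le_iff₀ (by positivity)]
  refine hc'.trans (le_of_eq ?_)
  field_simp

theorem wc1_spec {rho del u k : ℕ} : ∀ (l : List (ℕ × ℕ)) (p xm x : ℕ),
    wc1 rho del u l p xm x = true →
    Wx ((rho : ℝ) / 2 ^ 40) ((del : ℝ) / 2 ^ 40) p ≤ (xm : ℝ) * 2 ^ u / 2 ^ (k + u * p) →
    Wf ((rho : ℝ) / 2 ^ 40) ((del : ℝ) / 2 ^ 40) p ≤ (x : ℝ) / 2 ^ (k + u * p) →
    ∀ i < l.length, Wf ((rho : ℝ) / 2 ^ 40) ((del : ℝ) / 2 ^ 40) (p + 1 + i) ≤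
      ((l.getD i (0, 0)).1 : ℝ) / 2 ^ (k + u * (p + 1 + i)) := by
  intro l
  induction l with
  | nil =>
    intro p xm x _ _ _ i hi
    simp at hi
  | cons w l ih =>
    intro p xm x h h1 h2 i hi
    have h' : (Nat.ble (2 ^ u * rho * x + 2 ^ (2 * u) * del * xm) ((p + 1) * 2 ^ 40 * w.1) &&
      wc1 rho del u l (p + 1) x w.1) = true := h
    rw [Bool.and_eq_true, Nat.ble_eq] at h'
    obtain ⟨hc, hr⟩ := h'
    have h3 := weight_step hc h1 h2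
    rcases i with _ | i
    · simpa using h3
    · have h4 : Wx ((rho : ℝ) / 2 ^ 40) ((del : ℝ) / 2 ^ 40) (p + 1) ≤
          (x : ℝ) * 2 ^ u / 2 ^ (k + u * (p + 1)) := by
        show Wf _ _ p ≤ _
        refine h2.trans (le_of_eq ?_)
        rw [show k + u * (p + 1) = (k + u * p) + u by ring, pow_add 2 (k + u * p) u]
        field_simp
      have := ih (p + 1) x w.1 hr h4 h3 i (by simpa using hi)
      rw [List.getD_cons_succ, show p + 1 + (i + 1) = p + 1 + 1 + i by ring]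
      exact this

theorem wc0_spec {rho del u k L : ℕ} : ∀ (l : List (ℕ × ℕ)) (p xm x : ℕ),
    wc0 rho del u L l p xm x = true →
    Wx ((rho : ℝ) / 2 ^ 40) ((del : ℝ) / 2 ^ 40) p ≤ (xm : ℝ) * 2 ^ u / 2 ^ (k + u * p) →
    Wf ((rho : ℝ) / 2 ^ 40) ((del : ℝ) / 2 ^ 40) p ≤ (x : ℝ) / 2 ^ (k + u * p) →
    ∀ i < l.length, p + 1 + i ≤ L → Wf ((rho : ℝ) / 2 ^ 40) ((del : ℝ) / 2 ^ 40) (p + 1 + i) ≤
      ((l.getD i (0, 0)).2 : ℝ) / 2 ^ (k + u * (p + 1 + i)) := by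
  intro l
  induction l with
  | nil =>
    intro p xm x _ _ _ i hi
    simp at hi
  | cons w l ih =>
    intro p xm x h h1 h2 i hi hL
    have h' : (Nat.ble L p || (Nat.ble (2 ^ u * rho * x + 2 ^ (2 * u) * del * xm)
      ((p + 1) * 2 ^ 40 * w.2) && wc0 rho del u L l (p + 1) x w.2)) = true := h
    rw [Bool.or_eq_true, Nat.ble_eq, Bool.and_eq_true, Nat.ble_eq] at h'
    rcases h' with hLp | ⟨hc, hr⟩
    · omega
    have h3 := weight_step hc h1 h2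
    rcases i with _ | i
    · simpa using h3
    · have h4 : Wx ((rho : ℝ) / 2 ^ 40) ((del : ℝ) / 2 ^ 40) (p + 1) ≤
          (x : ℝ) * 2 ^ u / 2 ^ (k + u * (p + 1)) := by
        show Wf _ _ p ≤ _
        refine h2.trans (le_of_eq ?_)
        rw [show k + u * (p + 1) = (k + u * p) + u by ring, pow_add 2 (k + u * p) u]
        field_simp
      have := ih (p + 1) x w.2 hr h4 h3 i (by simpa using hi) (by omega)
      rw [List.getD_cons_succ, show p + 1 + (i + 1) = p + 1 + 1 + i by ring]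
      exact this

/-! ### The polynomials `h1`, `h0` -/

/-- `≥ 2^20 (∑ w2 p j^(p+1) + j)` -/
def h1 (K : ClsI) (j : ℕ) : ℕ :=
  Nat.succ (Nat.add (Nat.mul j (Nat.pow 2 20))
    (Nat.shiftRight (Nat.mul (Nat.mul (Nat.pow j 2) (hV1 j K.u K.wl)) (Nat.pow 2 20)) (Nat.add K.k K.u)))

/-- `≥ 2^20 (1 + (rho0 + rho2) j + (del + rho0²)/2 j² + ∑ w0 p j^p)` -/
def h0 (K : ClsI) (j : ℕ) : ℕ :=
  Nat.add (Nat.add (Nat.add (Nat.pow 2 20) (Nat.shiftRight (Nat.mul (Nat.add K.rho0 K.rho2) j) 20))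
    (Nat.add (Nat.shiftRight (Nat.mul (Nat.add (Nat.mul K.del (Nat.pow 2 40)) (Nat.pow K.rho0 2))
      (Nat.pow j 2)) 61)
    (Nat.shiftRight (Nat.mul (Nat.mul (Nat.pow j 2) (hV0 j K.u K.wl)) (Nat.pow 2 20))
      (Nat.add K.k (Nat.mul 2 K.u))))) 3

theorem h1_eq (K : ClsI) (j : ℕ) :
    h1 K j = j * 2 ^ 20 + j ^ 2 * hV1 j K.u K.wl * 2 ^ 20 / 2 ^ (K.k + K.u) + 1 := by
  unfold h1
  simp only [Nat.succ_eq_add_one, Nat.add_eq, Nat.mul_eq, Nat.pow_eq, shiftRight_div]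

theorem h0_eq (K : ClsI) (j : ℕ) :
    h0 K j = 2 ^ 20 + (K.rho0 + K.rho2) * j / 2 ^ 20 +
      ((K.del * 2 ^ 40 + K.rho0 ^ 2) * j ^ 2 / 2 ^ 61 +
        j ^ 2 * hV0 j K.u K.wl * 2 ^ 20 / 2 ^ (K.k + 2 * K.u)) + 3 := by
  unfold h0
  simp only [Nat.add_eq, Nat.mul_eq, Nat.pow_eq, shiftRight_div]

theorem h1_mono (K : ClsI) {j j' : ℕ} (h : j ≤ j') : h1 K j ≤ h1 K j' := by
  rw [h1_eq, h1_eq]
  have e1 : j * 2 ^ 20 ≤ j' * 2 ^ 20 := Nat.mul_le_mul_right _ h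
  have e2 : j ^ 2 * hV1 j K.u K.wl * 2 ^ 20 / 2 ^ (K.k + K.u) ≤
      j' ^ 2 * hV1 j' K.u K.wl * 2 ^ 20 / 2 ^ (K.k + K.u) :=
    Nat.div_le_div_right (Nat.mul_le_mul_right _ (Nat.mul_le_mul (Nat.pow_le_pow_left h 2)
      (hV1_mono h _ _)))
  exact Nat.add_le_add (Nat.add_le_add e1 e2) le_rfl

theorem h0_mono (K : ClsI) {j j' : ℕ} (h : j ≤ j') : h0 K j ≤ h0 K j' := by
  rw [h0_eq, h0_eq]
  have e1 : (K.rho0 + K.rho2) * j / 2 ^ 20 ≤ (K.rho0 + K.rho2) * j' / 2 ^ 20 :=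
    Nat.div_le_div_right (Nat.mul_le_mul_left _ h)
  have e3 : (K.del * 2 ^ 40 + K.rho0 ^ 2) * j ^ 2 / 2 ^ 61 ≤
      (K.del * 2 ^ 40 + K.rho0 ^ 2) * j' ^ 2 / 2 ^ 61 :=
    Nat.div_le_div_right (Nat.mul_le_mul_left _ (Nat.pow_le_pow_left h 2))
  have e2 : j ^ 2 * hV0 j K.u K.wl * 2 ^ 20 / 2 ^ (K.k + 2 * K.u) ≤
      j' ^ 2 * hV0 j' K.u K.wl * 2 ^ 20 / 2 ^ (K.k + 2 * K.u) :=
    Nat.div_le_div_right (Nat.mul_le_mul_right _ (Nat.mul_le_mul (Nat.pow_le_pow_left h 2)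
      (hV0_mono h _ _)))
  exact Nat.add_le_add (Nat.add_le_add (Nat.add_le_add le_rfl e1) (Nat.add_le_add e3 e2)) le_rfl

/-- the polynomial for the derivative test -/
noncomputable def H1 (K : ClsI) (x : ℝ) : ℝ :=
  ∑ p ∈ Finset.Icc 1 (2 * K.M - 2), K.toCls.w2 p * x ^ (p + 1) + x

/-- the polynomial for the value test -/
noncomputable def H0 (K : ClsI) (x : ℝ) : ℝ :=
  1 + (K.toCls.rho0 + K.toCls.rho2) * x + (K.toCls.del / 2 + K.toCls.rho0 ^ 2 / 2) * x ^ 2 +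
    ∑ p ∈ Finset.Icc 3 (2 * K.M - 2), K.toCls.w0 p * x ^ p

theorem H1_le (K : ClsI) (j : ℕ) : H1 K j ≤ (h1 K j : ℝ) / 2 ^ 20 := by
  have hV := hV1_spec j K.u K.wl (2 * K.M - 2)
  have e0 : Finset.Icc 1 (2 * K.M - 2) = Finset.Ico 1 (2 * K.M - 2 + 1) := by
    ext k
    simp only [Finset.mem_Icc, Finset.mem_Ico]
    omega
  have e1 : ∑ p ∈ Finset.Icc 1 (2 * K.M - 2), K.toCls.w2 p * (j : ℝ) ^ (p + 1) =
      (j : ℝ) ^ 2 / 2 ^ (K.k + K.u) *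
        ∑ i ∈ range (2 * K.M - 2), ((K.wl.getD i (0, 0)).1 : ℝ) * ((j : ℝ) / 2 ^ K.u) ^ i := by
    rw [e0, Finset.sum_Ico_eq_sum_range, Finset.mul_sum, Nat.add_sub_cancel]
    refine Finset.sum_congr rfl fun i _ => ?_
    show ((K.wl.getD (1 + i - 1) (0, 0)).1 : ℝ) / 2 ^ (K.k + K.u * (1 + i)) * (j : ℝ) ^ (1 + i + 1) = _
    rw [Nat.add_sub_cancel_left, div_pow, show K.k + K.u * (1 + i) = (K.k + K.u) + K.u * i by ring,
      pow_add 2 (K.k + K.u), pow_mul, show 1 + i + 1 = 2 + i by ring, pow_add (j : ℝ) 2 i]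
    field_simp
  have h2 := nat_div_succ_ge (j ^ 2 * hV1 j K.u K.wl * 2 ^ 20) (2 ^ (K.k + K.u)) (by positivity)
  unfold H1
  rw [e1, h1_eq, le_div_iff₀ (by positivity)]
  push_cast at h2 ⊢
  have h3 : (j : ℝ) ^ 2 / 2 ^ (K.k + K.u) *
        ∑ i ∈ range (2 * K.M - 2), ((K.wl.getD i (0, 0)).1 : ℝ) * ((j : ℝ) / 2 ^ K.u) ^ i ≤
      (j : ℝ) ^ 2 / 2 ^ (K.k + K.u) * (hV1 j K.u K.wl : ℝ) := mul_le_mul_of_nonneg_left hV (by positivity)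
  have h4 : (j : ℝ) ^ 2 / 2 ^ (K.k + K.u) * (hV1 j K.u K.wl : ℝ) * 2 ^ 20 =
      (j : ℝ) ^ 2 * (hV1 j K.u K.wl : ℝ) * 2 ^ 20 / 2 ^ (K.k + K.u) := by ring
  nlinarith

theorem H0_le (K : ClsI) (j : ℕ) : H0 K j ≤ (h0 K j : ℝ) / 2 ^ 20 := by
  have hV := hV0_spec j K.u K.wl (2 * K.M - 3)
  have e0 : Finset.Icc 2 (2 * K.M - 2) = Finset.Ico 2 (2 * K.M - 2 + 1) := by
    ext k
    simp only [Finset.mem_Icc, Finset.mem_Ico]
    omega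
  have hnn : ∀ p, 0 ≤ K.toCls.w0 p * (j : ℝ) ^ p := by
    intro p
    show 0 ≤ ((K.wl.getD (p - 2) (0, 0)).2 : ℝ) / 2 ^ (K.k + K.u * p) * (j : ℝ) ^ p
    positivity
  have e1 : ∑ p ∈ Finset.Icc 3 (2 * K.M - 2), K.toCls.w0 p * (j : ℝ) ^ p ≤
      (j : ℝ) ^ 2 / 2 ^ (K.k + 2 * K.u) *
        ∑ i ∈ range (2 * K.M - 3), ((K.wl.getD i (0, 0)).2 : ℝ) * ((j : ℝ) / 2 ^ K.u) ^ i := by
    have : ∑ p ∈ Finset.Icc 3 (2 * K.M - 2), K.toCls.w0 p * (j : ℝ) ^ p ≤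
        ∑ p ∈ Finset.Icc 2 (2 * K.M - 2), K.toCls.w0 p * (j : ℝ) ^ p := by
      refine Finset.sum_le_sum_of_subset_of_nonneg ?_ fun p _ _ => hnn p
      intro k hk
      rw [Finset.mem_Icc] at hk ⊢
      omega
    refine this.trans (le_of_eq ?_)
    rw [e0, Finset.sum_Ico_eq_sum_range, Finset.mul_sum,
      show 2 * K.M - 2 + 1 - 2 = 2 * K.M - 3 by omega]
    refine Finset.sum_congr rfl fun i _ => ?_
    show ((K.wl.getD (2 + i - 2) (0, 0)).2 : ℝ) / 2 ^ (K.k + K.u * (2 + i)) * (j : ℝ) ^ (2 + i) = _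
    rw [Nat.add_sub_cancel_left, div_pow,
      show K.k + K.u * (2 + i) = (K.k + 2 * K.u) + K.u * i by ring,
      pow_add 2 (K.k + 2 * K.u), pow_mul, pow_add (j : ℝ) 2 i]
    field_simp
  have h2 := nat_div_succ_ge (j ^ 2 * hV0 j K.u K.wl * 2 ^ 20) (2 ^ (K.k + 2 * K.u)) (by positivity)
  have h5 := nat_div_succ_ge ((K.rho0 + K.rho2) * j) (2 ^ 20) (by positivity)
  have h6 := nat_div_succ_ge ((K.del * 2 ^ 40 + K.rho0 ^ 2) * j ^ 2) (2 ^ 61) (by positivity)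
  have h3 : (j : ℝ) ^ 2 / 2 ^ (K.k + 2 * K.u) *
        ∑ i ∈ range (2 * K.M - 3), ((K.wl.getD i (0, 0)).2 : ℝ) * ((j : ℝ) / 2 ^ K.u) ^ i ≤
      (j : ℝ) ^ 2 / 2 ^ (K.k + 2 * K.u) * (hV0 j K.u K.wl : ℝ) :=
    mul_le_mul_of_nonneg_left hV (by positivity)
  have h4 : (j : ℝ) ^ 2 / 2 ^ (K.k + 2 * K.u) * (hV0 j K.u K.wl : ℝ) * 2 ^ 20 =
      (j : ℝ) ^ 2 * (hV0 j K.u K.wl : ℝ) * 2 ^ 20 / 2 ^ (K.k + 2 * K.u) := by ring
  have e2 : K.toCls.rho0 = (K.rho0 : ℝ) / 2 ^ 40 := rfl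
  have e3 : K.toCls.rho2 = (K.rho2 : ℝ) / 2 ^ 40 := rfl
  have e4 : K.toCls.del = (K.del : ℝ) / 2 ^ 40 := rfl
  unfold H0
  rw [h0_eq, le_div_iff₀ (by positivity), e2, e3, e4]
  push_cast at h2 h5 h6 ⊢
  have e5 : ((K.rho0 : ℝ) / 2 ^ 40 + (K.rho2 : ℝ) / 2 ^ 40) * j * 2 ^ 20 =
      ((K.rho0 : ℝ) + K.rho2) * j / 2 ^ 20 := by ring
  have e6 : ((K.del : ℝ) / 2 ^ 40 / 2 + ((K.rho0 : ℝ) / 2 ^ 40) ^ 2 / 2) * (j : ℝ) ^ 2 * 2 ^ 20 =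
      ((K.del : ℝ) * 2 ^ 40 + (K.rho0 : ℝ) ^ 2) * (j : ℝ) ^ 2 / 2 ^ 61 := by ring
  nlinarith

theorem H1_nonneg (K : ClsI) {x : ℝ} (hx : 0 ≤ x) : 0 ≤ H1 K x := by
  have : 0 ≤ ∑ p ∈ Finset.Icc 1 (2 * K.M - 2), K.toCls.w2 p * x ^ (p + 1) := by
    refine Finset.sum_nonneg fun p _ => ?_
    show 0 ≤ ((K.wl.getD (p - 1) (0, 0)).1 : ℝ) / 2 ^ (K.k + K.u * p) * x ^ (p + 1)
    positivity
  unfold H1
  linarith

theorem H0_nonneg (K : ClsI) {x : ℝ} (hx : 0 ≤ x) : 0 ≤ H0 K x := by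
  have h : 0 ≤ ∑ p ∈ Finset.Icc 3 (2 * K.M - 2), K.toCls.w0 p * x ^ p := by
    refine Finset.sum_nonneg fun p _ => ?_
    show 0 ≤ ((K.wl.getD (p - 2) (0, 0)).2 : ℝ) / 2 ^ (K.k + K.u * p) * x ^ p
    positivity
  have e2 : 0 ≤ K.toCls.rho0 := by show 0 ≤ (K.rho0 : ℝ) / 2 ^ 40; positivity
  have e3 : 0 ≤ K.toCls.rho2 := by show 0 ≤ (K.rho2 : ℝ) / 2 ^ 40; positivity
  have e4 : 0 ≤ K.toCls.del := by show 0 ≤ (K.del : ℝ) / 2 ^ 40; positivity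
  unfold H0
  positivity

/-! ### `|n - n₀|` -/

theorem absd_eq (h d : ℕ) : absd h d = (d - h) + (h - d) := by
  unfold absd
  simp only [Nat.add_eq, Nat.sub_eq]

theorem abs_jj (n0 n : ℕ) : |jj n0 n| = (absd n0 n : ℝ) := by
  unfold jj
  rw [absd_eq]
  rcases le_total n n0 with h | h
  · rw [abs_of_nonpos (by have : (n : ℝ) ≤ n0 := by exact_mod_cast h
                          linarith)]
    rw [Nat.sub_eq_zero_of_le h, zero_add, Nat.cast_sub h]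
    ring
  · rw [abs_of_nonneg (by have : (n0 : ℝ) ≤ n := by exact_mod_cast h
                          linarith)]
    rw [Nat.sub_eq_zero_of_le h, add_zero, Nat.cast_sub h]

/-- maximum of `|m - n₀|` for `n ≤ m ≤ n + 7` -/
def jmx (n0 n : ℕ) : ℕ := Nat.add (absd n0 n) (Nat.sub (absd n0 (Nat.add n 7)) (absd n0 n))

theorem absd_le_jmx (n0 n r : ℕ) (hr : r < 8) : absd n0 (n + r) ≤ jmx n0 n := by
  have h1 : jmx n0 n = absd n0 n + (absd n0 (n + 7) - absd n0 n) := by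
    unfold jmx
    simp only [Nat.add_eq, Nat.sub_eq]
  rw [h1, absd_eq, absd_eq, absd_eq]
  omega

/-! ### Loops -/

/-- `k` steps of `u`, `E`, summing `E` -/
def blk (S R k : ℕ) : ℕ → ℕ → ℕ → ℕ → (ℕ → ℕ → ℕ → Bool) → Bool :=
  Nat.rec (motive := fun _ => ℕ → ℕ → ℕ → ℕ → (ℕ → ℕ → ℕ → Bool) → Bool)
    (fun _ u e acc f => f u e acc)
    (fun _ ih n u e acc f => ih (Nat.succ n) (uNe R n u) (eNe S R n u e) (Nat.add acc e) f) k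

theorem blk_eq (S R k : ℕ) : ∀ (n acc : ℕ) (f : ℕ → ℕ → ℕ → Bool),
    blk S R k n (uS S R n) (eS S R n) acc f =
      f (uS S R (n + k)) (eS S R (n + k)) (acc + ∑ r ∈ range k, eS S R (n + r)) := by
  induction k with
  | zero => intro n acc f; rfl
  | succ k ih =>
    intro n acc f
    show blk S R k (n + 1) (uS S R (n + 1)) (eS S R (n + 1)) (acc + eS S R n) f = _
    rw [ih, Finset.sum_range_succ', show n + 1 + k = n + (k + 1) by ring, add_zero]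
    congr 1
    have : ∑ r ∈ range k, eS S R (n + 1 + r) = ∑ r ∈ range k, eS S R (n + (r + 1)) :=
      Finset.sum_congr rfl fun r _ => by rw [show n + 1 + r = n + (r + 1) by ring]
    rw [this]
    ring

/-- the sums of the errors over blocks of eight terms -/
def outer (S R n0 : ℕ) (f1 f0 : ℕ → ℕ) (i : ℕ) : ℕ → ℕ → ℕ → ℕ → ℕ → (ℕ → ℕ → Bool) → Bool :=
  Nat.rec (motive := fun _ => ℕ → ℕ → ℕ → ℕ → ℕ → (ℕ → ℕ → Bool) → Bool)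
    (fun _ _ _ s1 s0 f => f s1 s0)
    (fun _ ih n u e s1 s0 f => blk S R 8 n u e 0 (fun u' e' acc =>
      ih (Nat.add n 8) u' e' (Nat.add s1 (Nat.mul acc (f1 (jmx n0 n))))
        (Nat.add s0 (Nat.mul acc (f0 (jmx n0 n)))) f)) i

/-- block sum -/
def bs (S R n0 : ℕ) (h : ℕ → ℕ) (n i : ℕ) : ℕ :=
  ∑ t ∈ range i, (∑ r ∈ range 8, eS S R (n + 8 * t + r)) * h (jmx n0 (n + 8 * t))

theorem bs_succ (S R n0 : ℕ) (h : ℕ → ℕ) (n i : ℕ) :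
    bs S R n0 h n (i + 1) = (∑ r ∈ range 8, eS S R (n + r)) * h (jmx n0 n) + bs S R n0 h (n + 8) i := by
  unfold bs
  rw [Finset.sum_range_succ', add_comm]
  simp only [mul_zero, add_zero]
  congr 1
  refine Finset.sum_congr rfl fun t _ => ?_
  rw [show n + 8 * (t + 1) = n + 8 + 8 * t by ring]

theorem outer_eq (S R n0 : ℕ) (f1 f0 : ℕ → ℕ) (i : ℕ) : ∀ (n s1 s0 : ℕ) (f : ℕ → ℕ → Bool),
    outer S R n0 f1 f0 i n (uS S R n) (eS S R n) s1 s0 f =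
      f (s1 + bs S R n0 f1 n i) (s0 + bs S R n0 f0 n i) := by
  induction i with
  | zero => intro n s1 s0 f; rfl
  | succ i ih =>
    intro n s1 s0 f
    show blk S R 8 n (uS S R n) (eS S R n) 0 (fun u' e' acc =>
      outer S R n0 f1 f0 i (n + 8) u' e' (s1 + acc * f1 (jmx n0 n)) (s0 + acc * f0 (jmx n0 n)) f) = _
    rw [blk_eq]
    simp only [zero_add]
    rw [ih, bs_succ, bs_succ]
    congr 1 <;> ring

/-- term of the remainder sum for the derivative -/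
def gN1 (K : ClsI) (E n u : ℕ) : ℕ :=
  Nat.mul (Nat.mul (Nat.mul u (absd K.n0 n))
    (Nat.pow (Nat.mul (absd K.n0 n) (Nat.add (Nat.mul 2 K.rho2) (Nat.mul (absd K.n0 n) K.del))) K.M))
    (Nat.succ (Nat.shiftRight (Nat.mul (Nat.pow E (absd K.n0 n)) (Nat.pow 2 60)) (Nat.mul 60 (absd K.n0 n))))

/-- term of the remainder sum for the value -/
def gN0 (K : ClsI) (E n u : ℕ) : ℕ :=
  Nat.mul (Nat.mul u
    (Nat.pow (Nat.mul (absd K.n0 n) (Nat.add (Nat.mul 2 K.rho0) (Nat.mul (absd K.n0 n) K.del))) K.M))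
    (Nat.succ (Nat.shiftRight (Nat.mul (Nat.pow E (absd K.n0 n)) (Nat.pow 2 60)) (Nat.mul 60 (absd K.n0 n))))

/-- the remainder loop -/
def remL (R : ℕ) (g1f g0f : ℕ → ℕ → ℕ) (k : ℕ) : ℕ → ℕ → ℕ → ℕ → (ℕ → ℕ → ℕ → Bool) → Bool :=
  Nat.rec (motive := fun _ => ℕ → ℕ → ℕ → ℕ → (ℕ → ℕ → ℕ → Bool) → Bool)
    (fun n u g1 g0 f => f u (Nat.add g1 (Nat.mul 4 (g1f n u))) (Nat.add g0 (Nat.mul 4 (g0f n u))))
    (fun _ ih n u g1 g0 f => ih (Nat.succ n) (uNe R n u) (Nat.add g1 (g1f n u))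
      (Nat.add g0 (g0f n u)) f) k

theorem remL_eq (S R : ℕ) (g1f g0f : ℕ → ℕ → ℕ) (k : ℕ) : ∀ (n g1 g0 : ℕ) (f : ℕ → ℕ → ℕ → Bool),
    remL R g1f g0f k n (uS S R n) g1 g0 f = f (uS S R (n + k))
      (g1 + (∑ r ∈ range k, g1f (n + r) (uS S R (n + r)) + 4 * g1f (n + k) (uS S R (n + k))))
      (g0 + (∑ r ∈ range k, g0f (n + r) (uS S R (n + r)) + 4 * g0f (n + k) (uS S R (n + k)))) := by
  induction k with
  | zero =>
    intro n g1 g0 f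
    show f (uS S R n) (g1 + 4 * g1f n (uS S R n)) (g0 + 4 * g0f n (uS S R n)) = _
    simp
  | succ k ih =>
    intro n g1 g0 f
    show remL R g1f g0f k (n + 1) (uS S R (n + 1)) (g1 + g1f n (uS S R n))
      (g0 + g0f n (uS S R n)) f = _
    rw [ih, Finset.sum_range_succ', Finset.sum_range_succ', show n + 1 + k = n + (k + 1) by ring,
      add_zero]
    have e1 : ∀ g : ℕ → ℕ → ℕ, ∑ r ∈ range k, g (n + 1 + r) (uS S R (n + 1 + r)) =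
        ∑ r ∈ range k, g (n + (r + 1)) (uS S R (n + (r + 1))) := fun g =>
      Finset.sum_congr rfl fun r _ => by rw [show n + 1 + r = n + (r + 1) by ring]
    rw [e1, e1]
    congr 1 <;> ring

end SokalFU
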