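import Pool.Agent.Lib_MP_af4de1_fu.Ends

/-!
# `L` and `R` on arbitrary contours, linearity, integration by parts
-/

namespace SokalFW

open Complex MeasureTheory Filter Topology Set

variable {δ ρ ψ : ℝ} {k k1 k2 P : ℂ → ℂ}

theorem gL_re : (-1 - Real.pi / 2 * I : ℂ).re = -1 := by simp
theorem gL_im : (-1 - Real.pi / 2 * I : ℂ).im = -(Real.pi / 2) := by simp
theorem gR_re : (1 - Real.pi / 2 * I : ℂ).re = 1 := by simp
theorem gR_im : (1 - Real.pi / 2 * I : ℂ).im = -(Real.pi / 2) := by simp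

theorem BDir_gL (ψ : ℝ) : BDir ψ (-1 - Real.pi / 2 * I) I :=
  ⟨by simp, by simp, I_ne_zero, Or.inr (by rw [gL_re]; norm_num), Or.inl (by simp)⟩

/-- `L` on a general contour: from the end B along `d` to `g0`, to `g1`, to the right. -/
theorem Adm.Lw_eq (hδ : 0 < δ) (hρ : 0 < ρ) (h : Adm δ ρ ψ k) (hP : ∀ z, HasDerivAt P (k z) z)
    {g0 g1 d : ℂ} (hd : BDir ψ g0 d) (h1 : -Real.pi < g1.im) (h2 : g1.im < 0) :
    Lw k = IB k g0 d + (P g1 - P g0) + IV k g1 := by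
  have e1 := h.cB hδ hρ hP (BDir_gL ψ) hd
  have e2 := h.cV hδ hρ hP (g1 := -1 - Real.pi / 2 * I) (g2 := g1)
    (by rw [gL_im]; linarith [Real.pi_pos]) (by rw [gL_im]; linarith [Real.pi_pos]) h1 h2
  unfold Lw
  linear_combination e2 - e1

/-- `R` on a general contour. -/
theorem Adm.Rw_eq (hδ : 0 < δ) (hρ : 0 < ρ) (h : Adm δ ρ ψ k) (hP : ∀ z, HasDerivAt P (k z) z)
    {g0 g1 : ℂ} (h0 : 0 < g0.re) (h1 : -Real.pi < g1.im) (h2 : g1.im < 0) :
    Rw k = IT k g0 + (P g0 - P g1) - IV k g1 := by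
  have e1 := h.cT hδ hρ hP (g1 := 1 - Real.pi / 2 * I) (g2 := g0) (by rw [gR_re]; norm_num) h0
  have e2 := h.cV hδ hρ hP (g1 := 1 - Real.pi / 2 * I) (g2 := g1)
    (by rw [gR_im]; linarith [Real.pi_pos]) (by rw [gR_im]; linarith [Real.pi_pos]) h1 h2
  unfold Rw
  linear_combination e1 - e2

/-- `L`: incoming direction `d1`, a straight piece of length `T` in the direction `d2`, then to the right. -/
theorem Adm.Lw_path (hδ : 0 < δ) (hρ : 0 < ρ) (h : Adm δ ρ ψ k) {g0 d1 d2 : ℂ} {T : ℝ}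
    (hd : BDir ψ g0 d1) (h1 : -Real.pi < (g0 + T * d2).im) (h2 : (g0 + T * d2).im < 0) :
    Lw k = IB k g0 d1 + d2 * (∫ t in (0 : ℝ)..T, k (g0 + t * d2)) + IV k (g0 + T * d2) := by
  obtain ⟨P, hP⟩ := h.prim
  rw [h.Lw_eq hδ hρ hP hd h1 h2, seg_int h.cont hP]
  simp

/-- `R`: from the right to `g1 = g0 - T d2`, the straight piece to `g0`, then up. -/
theorem Adm.Rw_path (hδ : 0 < δ) (hρ : 0 < ρ) (h : Adm δ ρ ψ k) {g0 d2 : ℂ} {T : ℝ}
    (h0 : 0 < g0.re) (h1 : -Real.pi < (g0 - T * d2).im) (h2 : (g0 - T * d2).im < 0) :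
    Rw k = IT k g0 + d2 * (∫ t in (-T)..0, k (g0 + t * d2)) - IV k (g0 - T * d2) := by
  obtain ⟨P, hP⟩ := h.prim
  rw [h.Rw_eq hδ hρ hP h0 h1 h2, seg_int h.cont hP]
  simp [sub_eq_add_neg]

/-! ### Closure properties -/

theorem Adm.kk (δ ρ ψ : ℝ) : Adm δ ρ ψ (SokalFU.kk ρ δ ψ) where
  diff := kk_diff δ ρ ψ
  bd := by
    refine ⟨0, le_rfl, fun η hη => ⟨1, zero_le_one, fun g => ?_⟩⟩
    rw [norm_kk, one_mul, zero_mul, add_zero, Real.exp_le_exp, neg_div]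
    have : 0 ≤ η * (|g.re| + |g.im|) := by positivity
    linarith

theorem Adm.add (h1 : Adm δ ρ ψ k1) (h2 : Adm δ ρ ψ k2) : Adm δ ρ ψ (fun g => k1 g + k2 g) where
  diff := h1.diff.add h2.diff
  bd := by
    obtain ⟨N1, n1, b1⟩ := h1.bd
    obtain ⟨N2, n2, b2⟩ := h2.bd
    refine ⟨max N1 N2, n1.trans (le_max_left _ _), fun η hη => ?_⟩
    obtain ⟨K1, c1, d1⟩ := b1 η hη
    obtain ⟨K2, c2, d2⟩ := b2 η hη
    refine ⟨K1 + K2, by positivity, fun g => ?_⟩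
    have hm : 0 ≤ max g.re 0 := le_max_right _ _
    have e1 := (d1 g).trans (mul_le_mul_of_nonneg_left (Real.exp_le_exp.2
      (show η * (|g.re| + |g.im|) + N1 * max g.re 0 - hf ρ ψ g / δ ≤
        η * (|g.re| + |g.im|) + max N1 N2 * max g.re 0 - hf ρ ψ g / δ by
        have := mul_le_mul_of_nonneg_right (le_max_left N1 N2) hm
        linarith)) c1)
    have e2 := (d2 g).trans (mul_le_mul_of_nonneg_left (Real.exp_le_exp.2
      (show η * (|g.re| + |g.im|) + N2 * max g.re 0 - hf ρ ψ g / δ ≤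
        η * (|g.re| + |g.im|) + max N1 N2 * max g.re 0 - hf ρ ψ g / δ by
        have := mul_le_mul_of_nonneg_right (le_max_right N1 N2) hm
        linarith)) c2)
    refine (norm_add_le _ _).trans ?_
    rw [add_mul]
    exact add_le_add e1 e2

theorem Adm.const_mul (h : Adm δ ρ ψ k) (c : ℂ) : Adm δ ρ ψ (fun g => c * k g) where
  diff := h.diff.const_mul c
  bd := by
    obtain ⟨N, n, b⟩ := h.bd
    refine ⟨N, n, fun η hη => ?_⟩
    obtain ⟨K, c1, d⟩ := b η hη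
    refine ⟨‖c‖ * K, by positivity, fun g => ?_⟩
    rw [norm_mul, mul_assoc]
    exact mul_le_mul_of_nonneg_left (d g) (norm_nonneg c)

theorem Adm.id_mul (h : Adm δ ρ ψ k) : Adm δ ρ ψ (fun g => g * k g) where
  diff := differentiable_id.mul h.diff
  bd := by
    obtain ⟨N, n, b⟩ := h.bd
    refine ⟨N, n, fun η hη => ?_⟩
    obtain ⟨K, c1, d⟩ := b (η / 2) (by positivity)
    refine ⟨2 / η * K, by positivity, fun g => ?_⟩
    set x := |g.re| + |g.im| with hx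
    have h1 : ‖g‖ ≤ x := Complex.norm_le_abs_re_add_abs_im g
    have h2 : x ≤ 2 / η * Real.exp (η / 2 * x) := by
      have h3 : η / 2 * x ≤ Real.exp (η / 2 * x) := by
        linarith [Real.add_one_le_exp (η / 2 * x)]
      rw [div_mul_eq_mul_div, le_div_iff₀ hη]
      linarith
    rw [norm_mul]
    refine (mul_le_mul (h1.trans h2) (d g) (norm_nonneg _) (by positivity)).trans (le_of_eq ?_)
    have h4 : η * x + N * max g.re 0 - hf ρ ψ g / δ =
      η / 2 * x + (η / 2 * x + N * max g.re 0 - hf ρ ψ g / δ) := by ring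
    rw [h4, Real.exp_add (η / 2 * x)]
    ring

theorem Adm.exp_mul (h : Adm δ ρ ψ k) : Adm δ ρ ψ (fun g => cexp g * k g) where
  diff := Complex.differentiable_exp.mul h.diff
  bd := by
    obtain ⟨N, n, b⟩ := h.bd
    refine ⟨N + 1, by positivity, fun η hη => ?_⟩
    obtain ⟨K, c1, d⟩ := b η hη
    refine ⟨K, c1, fun g => ?_⟩
    rw [norm_mul, Complex.norm_exp]
    have h1 : Real.exp g.re ≤ Real.exp (max g.re 0) := Real.exp_le_exp.2 (le_max_left _ _)
    refine (mul_le_mul h1 (d g) (norm_nonneg _) (Real.exp_pos _).le).trans (le_of_eq ?_)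
    have h4 : η * (|g.re| + |g.im|) + (N + 1) * max g.re 0 - hf ρ ψ g / δ = max g.re 0 +
      (η * (|g.re| + |g.im|) + N * max g.re 0 - hf ρ ψ g / δ) := by ring
    rw [h4, Real.exp_add (max g.re 0)]
    ring

/-! ### Linearity -/

theorem Lw_add (hδ : 0 < δ) (hρ : 0 < ρ) (h1 : Adm δ ρ ψ k1) (h2 : Adm δ ρ ψ k2) :
    Lw (fun g => k1 g + k2 g) = Lw k1 + Lw k2 := by
  have a1 := h1.iB hδ hρ (BDir_gL ψ)
  have a2 := h2.iB hδ hρ (BDir_gL ψ)
  have b1 := h1.iV hδ hρ (g := -1 - Real.pi / 2 * I)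
    (by rw [gL_im]; linarith [Real.pi_pos]) (by rw [gL_im]; linarith [Real.pi_pos])
  have b2 := h2.iV hδ hρ (g := -1 - Real.pi / 2 * I)
    (by rw [gL_im]; linarith [Real.pi_pos]) (by rw [gL_im]; linarith [Real.pi_pos])
  unfold Lw IB IV
  rw [integral_add a1 a2, integral_add b1 b2]
  ring

theorem Rw_add (hδ : 0 < δ) (hρ : 0 < ρ) (h1 : Adm δ ρ ψ k1) (h2 : Adm δ ρ ψ k2) :
    Rw (fun g => k1 g + k2 g) = Rw k1 + Rw k2 := by
  have a1 := h1.iT hδ hρ (g := 1 - Real.pi / 2 * I) (by rw [gR_re]; norm_num)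
  have a2 := h2.iT hδ hρ (g := 1 - Real.pi / 2 * I) (by rw [gR_re]; norm_num)
  have b1 := h1.iV hδ hρ (g := 1 - Real.pi / 2 * I)
    (by rw [gR_im]; linarith [Real.pi_pos]) (by rw [gR_im]; linarith [Real.pi_pos])
  have b2 := h2.iV hδ hρ (g := 1 - Real.pi / 2 * I)
    (by rw [gR_im]; linarith [Real.pi_pos]) (by rw [gR_im]; linarith [Real.pi_pos])
  unfold Rw IT IV
  rw [integral_add a1 a2, integral_add b1 b2]
  ring

theorem Lw_const_mul (k : ℂ → ℂ) (c : ℂ) : Lw (fun g => c * k g) = c * Lw k := by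
  unfold Lw IB IV
  rw [integral_const_mul, integral_const_mul]
  ring

theorem Rw_const_mul (k : ℂ → ℂ) (c : ℂ) : Rw (fun g => c * k g) = c * Rw k := by
  unfold Rw IT IV
  rw [integral_const_mul, integral_const_mul]
  ring

/-! ### Vanishing of the kernel at the ends, integration by parts -/

theorem tendsto_zero_of_int {k : ℂ → ℂ} {a b : ℂ} {C c T0 : ℝ} (hc : 0 < c)
    (h : ∀ t : ℝ, T0 ≤ t → ‖k (a + t * b)‖ ≤ C * Real.exp (-(c * t))) :
    Tendsto (fun t : ℝ => k (a + t * b)) atTop (𝓝 0) := by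
  have h1 := tendsto_exp_lin (C := C) (m := 0) hc 1 0
  refine squeeze_zero_norm' ?_ h1
  filter_upwards [eventually_ge_atTop T0] with t ht
  refine (h t ht).trans (le_of_eq ?_)
  rw [add_zero, zero_mul, add_zero, mul_one]

theorem Adm.zV (hδ : 0 < δ) (hρ : 0 < ρ) (h : Adm δ ρ ψ k) {g : ℂ} (h1 : -Real.pi < g.im)
    (h2 : g.im < 0) : Tendsto (fun t : ℝ => k (g + t * 1)) atTop (𝓝 0) := by
  obtain ⟨C, hC, hb⟩ := h.bV hδ hρ h1 h2
  refine tendsto_zero_of_int (k := k) (C := C * Real.exp (-g.re)) (c := 1) (T0 := -g.re) one_pos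
    fun t ht => ?_
  have h3 := hb (g + t * 1) (by simp; linarith) (by simp) (by simp)
  refine h3.trans (le_of_eq ?_)
  rw [mul_assoc, ← Real.exp_add]
  congr 2
  simp
  ring

theorem Adm.zT (hδ : 0 < δ) (hρ : 0 < ρ) (h : Adm δ ρ ψ k) {g : ℂ} (h1 : 0 < g.re) :
    Tendsto (fun t : ℝ => k (g + t * I)) atTop (𝓝 0) := by
  obtain ⟨C, c, hC, hc, hb⟩ := h.bT hδ hρ g.re h1
  refine tendsto_zero_of_int (k := k) (C := C * Real.exp (-(c * g.im))) (c := c) (T0 := -g.im) hc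
    fun t ht => ?_
  have h3 := hb (g + t * I) (by simp) (by simp) (by simp; linarith)
  refine h3.trans (le_of_eq ?_)
  rw [mul_assoc, ← Real.exp_add]
  congr 2
  simp
  ring

theorem Adm.zB (hδ : 0 < δ) (hρ : 0 < ρ) (h : Adm δ ρ ψ k) {g d : ℂ} (hd : BDir ψ g d) :
    Tendsto (fun t : ℝ => k (g + t * (-d))) atTop (𝓝 0) := by
  obtain ⟨η, T0, hη, h1⟩ := hd.ev
  obtain ⟨C, c, hC, hc, hb⟩ := h.bB hδ hρ hη
  have hp := hd.pos
  refine tendsto_zero_of_int (k := k) (C := C * Real.exp (-(c * (-g.re - (g.im + ψ)))))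
    (c := c * (d.re + d.im)) (T0 := T0) (by positivity) fun t ht => ?_
  have h3 := hb (g + t * (-d)) (h1 t ht).1 (h1 t ht).2
  refine h3.trans (le_of_eq ?_)
  rw [mul_assoc, ← Real.exp_add]
  congr 2
  simp
  ring

/-- The integral of a derivative over the left piece vanishes. -/
theorem Lw_deriv (hδ : 0 < δ) (hρ : 0 < ρ) (h1 : Adm δ ρ ψ k1) (h : Adm δ ρ ψ k)
    (hP : ∀ z, HasDerivAt k (k1 z) z) : Lw k1 = 0 := by
  have t1 := ray_tendsto h1.cont hP (h1.iB hδ hρ (BDir_gL ψ))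
  have t2 := h.zB hδ hρ (BDir_gL ψ)
  have e1 := tendsto_nhds_unique t1 t2
  have hi := h1.iV hδ hρ (g := -1 - Real.pi / 2 * I)
    (by rw [gL_im]; linarith [Real.pi_pos]) (by rw [gL_im]; linarith [Real.pi_pos])
  have t3 := ray_tendsto h1.cont hP hi
  have t4 := h.zV hδ hρ (g := -1 - Real.pi / 2 * I)
    (by rw [gL_im]; linarith [Real.pi_pos]) (by rw [gL_im]; linarith [Real.pi_pos])
  have e2 := tendsto_nhds_unique t3 t4
  unfold Lw IB IV
  linear_combination e2 - e1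

theorem Rw_deriv (hδ : 0 < δ) (hρ : 0 < ρ) (h1 : Adm δ ρ ψ k1) (h : Adm δ ρ ψ k)
    (hP : ∀ z, HasDerivAt k (k1 z) z) : Rw k1 = 0 := by
  have hi := h1.iT hδ hρ (g := 1 - Real.pi / 2 * I) (by rw [gR_re]; norm_num)
  have t1 := ray_tendsto h1.cont hP hi
  have t2 := h.zT hδ hρ (g := 1 - Real.pi / 2 * I) (by rw [gR_re]; norm_num)
  have e1 := tendsto_nhds_unique t1 t2
  have hi' := h1.iV hδ hρ (g := 1 - Real.pi / 2 * I)
    (by rw [gR_im]; linarith [Real.pi_pos]) (by rw [gR_im]; linarith [Real.pi_pos])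
  have t3 := ray_tendsto h1.cont hP hi'
  have t4 := h.zV hδ hρ (g := 1 - Real.pi / 2 * I)
    (by rw [gR_im]; linarith [Real.pi_pos]) (by rw [gR_im]; linarith [Real.pi_pos])
  have e2 := tendsto_nhds_unique t3 t4
  unfold Rw IT IV
  linear_combination e1 - e2

end SokalFW
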